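import Pool.Agent.Lib.MP_1a91b9_ntDV.T19

/-!
# MP_1a91b9_nt (the divisor law): the form of the result
-/

set_option autoImplicit false

namespace Pool.Agent.Lib.MP_1a91b9_ntDV.Fin

open NumberField IsDedekindDomain WeierstrassCurve
open Pool.Agent.Lib.MP_1a91b9_nuT.S9 Pool.Agent.Lib.MP_1a91b9_nuT3.S9
open Pool.Agent.Lib.MP_1a91b9_ntL (crv)
open Pool.Agent.Lib.MP_1a91b9_ntI (K3)
open Pool.Agent.Lib.MP_1a91b9_ntQ (K4)
open Pool.Agent.Lib.MP_1a91b9_ntW (K8)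
open Pool.Agent.Lib.MP_1a91b9_ntV (K7 t7)
open Pool.Agent.Lib.MP_1a91b9_ntW.J (Cls2 ClsN cR cS cI cJ)
open Pool.Agent.Lib.MP_1a91b9_ntC (Stb NoNew E0 E0_map s2_of R2_K r2_K8 StbTw)

/-- The condition on the ramification of `L / F`, for the curve `V` over `F` and the prime number `q`. -/
def RamOK (K : Type) [Field K] [NumberField K] {F : Type} [Field F] [NumberField F] [Algebra K F]
    (V : WeierstrassCurve F) (q : ℕ) (L : Type) [Field L] [NumberField L] [Algebra F L] : Prop :=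
  ∀ (v : HeightOneSpectrum (𝓞 F)) (w : HeightOneSpectrum (𝓞 L)),
    v.asIdeal.map (algebraMap (𝓞 F) (𝓞 L)) ≤ w.asIdeal ^ 2 →
      ((q : 𝓞 F) ∈ v.asIdeal →
        Ideal.absNorm (v.asIdeal.comap (algebraMap (𝓞 K) (𝓞 F))) = q) ∧
      ((q : 𝓞 F) ∉ v.asIdeal → ∀ (V₀ : WeierstrassCurve (𝓞 F))
        (C₀ : WeierstrassCurve.VariableChange F),
        C₀ • V = V₀.map (algebraMap (𝓞 F) F) → V₀.Δ ∉ v.asIdeal →
          ¬ q ∣ Nat.card (V₀.map (Ideal.Quotient.mk v.asIdeal)).toAffine.Point)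

open Classical in
/-- The `q`-part of the relative conjecture. -/
def RelBSD (q : ℕ) [Fact q.Prime] {L L' : Type} [Field L] [NumberField L] [Field L'] [NumberField L']
    [Algebra L L'] (W : WeierstrassCurve L) (W' : WeierstrassCurve L') : Prop :=
  (∃ g : ℂ → ℂ, Differentiable ℂ g ∧ g 1 ≠ 0 ∧
    (∀ s : ℂ, 3 / 2 < s.re → W'.LSeries s = W.LSeries s * g s) ∧
    ∃ r : ℚ, (IsCoprime r.num (q : ℤ) ∧ r.den.Coprime q) ∧
      g 1 * ((√|(discr L' : ℝ)| / period W' : ℝ) : ℂ) =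
        (r : ℂ) * ((√|(discr L : ℝ)| / period W : ℝ) : ℂ)) ∧
  Module.finrank ℤ W'.toAffine.Point = Module.finrank ℤ W.toAffine.Point ∧
  ((AddSubgroup.closure {P : W'.toAffine.Point | ∃ (x y : L)
    (h : W'.toAffine.Nonsingular (algebraMap L L' x) (algebraMap L L' y)),
    P = WeierstrassCurve.Affine.Point.some _ _ h}).index).Coprime q ∧
  (∀ v : HeightOneSpectrum (𝓞 L), (tam W v).Coprime q) ∧
  (∀ v : HeightOneSpectrum (𝓞 L'), (tam W' v).Coprime q) ∧
  Nonempty (ShaP q W' ≃+ ShaP q W)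

open Classical in
/-- The `q`-part of the conjecture in rank zero. -/
def BSD0 (q : ℕ) [Fact q.Prime] {N : Type} [Field N] [NumberField N] (W : WeierstrassCurve N) : Prop :=
  ∃ g : ℂ → ℂ, Differentiable ℂ g ∧ (∀ s : ℂ, 3 / 2 < s.re → g s = W.LSeries s) ∧
    g 1 ≠ 0 ∧
    (∃ r : ℚ, IsCoprime r.num (q : ℤ) ∧ r.den.Coprime q ∧
      g 1 * (√|(discr N : ℝ)| : ℝ) / (period W : ℝ) =
        (r * ((Nat.card (ShaP q W) : ℝ) * ((∏ᶠ v : HeightOneSpectrum (𝓞 N), tam W v : ℕ) : ℝ) /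
          (Nat.card W.toAffine.Point : ℝ) ^ 2) : ℝ)) ∧
    Nat.card (ShaP q W) = 1 ∧ (∀ v : HeightOneSpectrum (𝓞 N), (tam W v).Coprime q) ∧
    Finite W.toAffine.Point ∧ (Nat.card W.toAffine.Point).Coprime q

open Classical in
/-- The property (A). -/
def NoNewPoints {K : Type} [Field K] [NumberField K] (E : WeierstrassCurve K) (F F' : Type) [Field F]
    [NumberField F] [Algebra K F] [Field F'] [NumberField F'] [Algebra F F'] : Prop :=
  (∀ x' y' : F', ((E.baseChange F).baseChange F').toAffine.Equation x' y' →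
    ∃ x y : F, algebraMap F F' x = x' ∧ algebraMap F F' y = y') ∧
  (E = ⟨0, 4, 0, 2, 0⟩ → Module.finrank K F = 1 →
    (∃ h : ℂ → ℂ, Differentiable ℂ h ∧
      (∀ s : ℂ, 3 / 2 < s.re → h s = ((E.baseChange F).baseChange F').LSeries s) ∧
      analyticOrderAt h 1 = 2) ∧
    Module.finrank ℤ ((E.baseChange F).baseChange F').toAffine.Point = 2)

/-- The property `R` of `e`. -/
def PropR {K : Type} [Field K] [NumberField K] (E : WeierstrassCurve K) (F : Type) [Field F] [NumberField F]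
    [Algebra K F] (e : K) : Prop :=
  (∀ (F' : Type) [Field F'] [NumberField F'] [Algebra F F'] (x : F'),
    x ^ 2 = algebraMap F F' (algebraMap K F e) → IntermediateField.adjoin F {x} = ⊤ →
    NoNewPoints E F F') ∧
  ∀ V : WeierstrassCurve F,
    V = ⟨0, algebraMap K F (E.a₂ * e), 0, algebraMap K F (E.a₄ * e ^ 2), 0⟩ →
    ∃ S : Finset ℕ, ∀ (q : ℕ) [Fact q.Prime], q ∉ S →
    ∀ (k : ℕ) (L M : Type) [Field L] [NumberField L] [Field M] [NumberField M]
      [Algebra F L] [Algebra L M] [Algebra F M] [IsScalarTower F L M] [IsGalois F M],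
      Module.finrank F M = q ^ k → RamOK K V q L →
    (∀ (N : Type) [Field N] [NumberField N] [Algebra N L] (W : WeierstrassCurve N)
      (C : WeierstrassCurve.VariableChange L), C • W.baseChange L = V.baseChange L → BSD0 q W) ∧
    ∀ (L' : Type) [Field L'] [NumberField L'] [Algebra L L'] (y : L'),
      y ^ 2 = algebraMap L L' (algebraMap F L (algebraMap K F e)) →
      IntermediateField.adjoin L {y} = ⊤ →
    ∀ (W : WeierstrassCurve L) (W' : WeierstrassCurve L'),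
      W = (E.baseChange F).baseChange L → W' = W.baseChange L' → RelBSD q W W'

/-- From the properties of the twists to the property `R`. -/
theorem propR_of {K : Type} [Field K] [NumberField K] (hK : Module.finrank ℚ K = 2)
    (E : WeierstrassCurve K) (a b : K)
    (hE : E = crv a b) (j D : ℤ)
    (hjD : (j, D) ∈ [(0, -3), (54000, -3), (-12288000, -3), (1728, -4), (287496, -4), (-3375, -7),
      (16581375, -7), (8000, -8), (-32768, -11), (-884736, -19), (-884736000, -43),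
      (-147197952000, -67), (-262537412640768000, -163)])
    (hj : E.c₄ ^ 3 = j * E.Δ) (hD : ∃ s : K, s ^ 2 = D)
    (F : Type) [Field F] [NumberField F] [Algebra K F] (e : K) (h : TwP a b F e) :
    PropR E F e := by
  obtain ⟨⟨h1, h2⟩, h3⟩ := h
  have ha : a = E.a₂ := by rw [hE]; rfl
  have hb : b = E.a₄ := by rw [hE]; rfl
  refine ⟨fun F' _ _ _ x hx hgen => ?_, ?_⟩
  · have h4 : Stb (E.baseChange F) ((E.baseChange F).baseChange F') ∧
        NoNew F ((E.baseChange F).baseChange F') := by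
      rw [hE]
      exact h1 F' x hx hgen
    obtain ⟨h4, h4'⟩ := h4
    refine ⟨h4', fun hE0 hF1 => ?_⟩
    obtain ⟨s, hs⟩ := s2_of hjD (by rw [← hE0]; exact hj) hD
    have h5 : E.baseChange F = E0 F := by
      rw [hE0]
      exact E0_map (algebraMap K F)
    exact ((R2_K r2_K8 hK hs).of_one hF1).up h5 h4
  · intro V hV
    have hV' : V = (⟨0, algebraMap K F (e * a), 0, algebraMap K F (e ^ 2 * b), 0⟩ :
        WeierstrassCurve F) := by
      rw [hV, ha, hb, mul_comm E.a₂, mul_comm E.a₄]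
    obtain ⟨S, hS⟩ := h2
    obtain ⟨S', hS'⟩ := h3
    refine ⟨S ∪ S', fun q _ hq k L M _ _ _ _ _ _ _ _ _ hM hram => ⟨?_, ?_⟩⟩
    · intro N _ _ _ W C hC
      rw [hV'] at hram hC
      exact hS' q (fun h => hq (Finset.mem_union_right _ h)) k N L M hM hram W C hC
    · intro L' _ _ _ y hy hgen W W' hW hW'
      rw [hV'] at hram
      have h3 := hS q (fun h => hq (Finset.mem_union_left _ h)) k L M hM hram L' y hy hgen
      have e1 : ((crv a b).map (algebraMap K F)).map (algebraMap F L) = W := by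
        rw [hW, hE]
        rfl
      rw [e1] at h3
      rw [hW']
      exact h3

open Classical in
/-- The constant `c`. -/
noncomputable def cst (K F : Type) [Field K] [NumberField K] [Field F] : ℝ :=
  if Prime (2 : 𝓞 K) then (if ∃ x : F, x ^ 2 = -1 then
      √((∏' i : ℕ, (1 + 1 / (2 : ℝ) ^ (2 * i + 1))⁻¹) / 2) else
      ∏' i : ℕ, (1 + 1 / (2 : ℝ) ^ (2 * i + 1))⁻¹) else
    if Squarefree (2 : 𝓞 K) then ∏' i : ℕ, (1 - 1 / (2 : ℝ) ^ (i + 1)) else
    ∏' i : ℕ, (1 + 1 / (2 : ℝ) ^ (i + 1))⁻¹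

open Classical in
/-- **The result**, from the laws for the standard curves. -/
theorem fin_div
    (H4 : ∀ {b : K4}, b ≠ 0 → DQG K4 4 (fun _ => Cls2 K4) 0 b cR)
    (H8 : ∀ {e : K8}, e ≠ 0 → DQG K8 2 (fun _ => Cls2 K8) (4 * e) (2 * e ^ 2) cR)
    (H7 : ∀ {d₀ : K7}, d₀ ≠ 0 → DQG K7 2 (fun _ => Cls2 K7)
      (d₀ * (1 + (1 - (t7 : K7)) ^ 4)) (d₀ ^ 2 * (1 - (t7 : K7)) ^ 4) cS)
    (H3 : ∀ {e : K3}, e ≠ 0 → DQG K3 2 (fun F _ => ClsN K3 F) (-3 * e) (3 * e ^ 2) cI)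
    (H3' : ∀ {e : K3}, e ≠ 0 → DQG K3 2 (fun _ => Cls2 K3) (-3 * e) (3 * e ^ 2) cJ)
    (K : Type) [Field K] [NumberField K] (hK : Module.finrank ℚ K = 2)
    (E : WeierstrassCurve K) (hE : E.a₁ = 0 ∧ E.a₃ = 0 ∧ E.a₆ = 0) (hΔ : E.Δ ≠ 0) (j D : ℤ)
    (hjD : (j, D) ∈ [(0, -3), (54000, -3), (-12288000, -3), (1728, -4), (287496, -4), (-3375, -7),
      (16581375, -7), (8000, -8), (-32768, -11), (-884736, -19), (-884736000, -43),
      (-147197952000, -67), (-262537412640768000, -163)])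
    (hj : E.c₄ ^ 3 = j * E.Δ) (hD : ∃ s : K, s ^ 2 = D)
    (l : ℕ) (hl : l = 2 ∨ l = 4 ∧ ∃ i : K, i ^ 2 = -1)
    (F : Type) [Field F] [NumberField F] [Algebra K F]
    (hF : IntermediateField.adjoin K {x : F | ∃ c : K, x ^ l = algebraMap K F c} = ⊤)
    (δ : 𝓞 K) (hδ : δ ≠ 0)
    (n : ℕ) (m u : 𝓞 K) (hm : m ∣ 2 ^ n) (hu : ∀ q, Prime q → ¬ (q ^ 2 ∣ m ∧ q ^ 2 ∣ u)) (c : ℝ)
    (hc : c = cst K F) (ε : ℝ) (hε : 0 < ε) :
    ∀ᶠ X : ℝ in Filter.atTop, 1 - ε ≤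
      (Nat.card {A : 𝓞 K // Squarefree A ∧ m ∣ A - u ∧ |Algebra.norm ℤ A| ≤ X ∧
        (c ^ Module.finrank K F - ε) * Nat.card {d : 𝓞 K // d ∣ A} ≤
          Nat.card {d : 𝓞 K // d ∣ A ∧ PropR E F (δ * d)}} : ℝ) /
        (Nat.card {A : 𝓞 K // Squarefree A ∧ m ∣ A - u ∧ |Algebra.norm ℤ A| ≤ X} : ℝ) := by
  obtain ⟨h1, h3, h6⟩ := hE
  obtain ⟨a, ha⟩ : ∃ a, a = E.a₂ := ⟨_, rfl⟩
  obtain ⟨b, hb⟩ : ∃ b, b = E.a₄ := ⟨_, rfl⟩
  have hE : E = crv a b := WeierstrassCurve.ext h1 ha.symm h3 hb.symm h6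
  have hΔ' := hΔ
  have hj' := hj
  rw [hE] at hΔ' hj'
  rw [Pool.Agent.Lib.MP_1a91b9_ntY.crv_Δ] at hΔ' hj'
  rw [Pool.Agent.Lib.MP_1a91b9_ntY.crv_c₄] at hj'
  have key := div_law H4 H8 H7 H3 H3' K hK a b (by
      intro h
      refine hΔ' ?_
      linear_combination 16 * b * h) j D hjD (by
      have h16 : (16 : K) ≠ 0 := by norm_num
      refine mul_left_cancel₀ h16 ?_
      linear_combination hj') hD l hl F hF δ hδ n m u hm hu c hc
  have hneg : D < 0 := by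
    simp only [List.mem_cons, Prod.mk.injEq, List.not_mem_nil, or_false] at hjD
    omega
  have hfu : Finite (𝓞 K)ˣ := by
    obtain ⟨s, hs⟩ := hD
    exact Pool.Agent.Lib.MP_1a91b9_ntW.J.finite_units hK
      (Pool.Agent.Lib.MP_1a91b9_ntW.J.no_real hs hneg)
  have key' : DivG (𝓞 K) m u (fun d => PropR E F ((δ : K) * (d : K))) (c ^ Module.finrank K F) := by
    refine key.mono (fun X => ?_) fun d _ h => propR_of hK E a b hE j D hjD hj hD F _ h
    refine (Pool.Agent.Lib.MP_1a91b9_ntW.J.finite_norm_le (K := K) X).subset ?_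
    rintro d ⟨h1, h2⟩
    exact ⟨h1.ne_zero, h2⟩
  filter_upwards [key' 0 ε hε] with X hX
  refine hX.trans (le_of_eq ?_)
  congr 2
  refine Nat.card_congr (Equiv.subtypeEquivRight fun A => ?_)
  constructor
  · rintro ⟨h1, h2, h3, -, h4⟩
    exact ⟨h1, h2, h3, h4⟩
  · rintro ⟨h1, h2, h3, h4⟩
    exact ⟨h1, h2, h3, Nat.zero_le _, h4⟩

end Pool.Agent.Lib.MP_1a91b9_ntDV.Fin
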