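import Pool.Agent.Lib.MP_1a91b9_ntDV.K3_1

set_option autoImplicit false
set_option linter.unusedSectionVars false

namespace Pool.Agent.Lib.MP_1a91b9_ntDV

open Finset Pool.Agent.Lib.MP_1a91b9_ntH Pool.Agent.Lib.MP_1a91b9_ntQ
open Pool.Agent.Lib.MP_1a91b9_ntQ.Da Pool.Agent.Lib.MP_1a91b9_ntV
open Pool.Agent.Lib.MP_1a91b9_ntP (DatG LSysG LabJ Bs kJ offG)

noncomputable section

variable {ι : Type} [DecidableEq ι] {κ : Type} [Fintype κ] [PS ι]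

private theorem K3_2_two : ∀ x : ZMod 2, x = 0 ∨ x = 1 := by decide

private theorem K3_2_F4 : ∀ (z : ZMod 2) (c x : F4),
    F4.tr ((c + ⟨z, z⟩) * x) = F4.tr (c * x) + z * x.a := by decide

private theorem K3_2_z0 : ∀ c : F4, c + ⟨0, 0⟩ = c := by decide

private theorem K3_2_trs {α : Type} (c : F4) (S : Finset α) (x : α → F4) :
    F4.tr (c * ∑ q ∈ S, x q) = ∑ q ∈ S, F4.tr (c * x q) := by
  rw [Finset.mul_sum, trD_sum]

private theorem K3_2_sg (x y : ZMod 2) :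
    sg (x * y) = (if x = 0 then (1 : ℝ) else 0) + (if x = 0 then (0 : ℝ) else 1) * sg y := by
  rcases K3_2_two x with h | h
  · rw [h, zero_mul, sg_zero, if_pos rfl, if_pos rfl, zero_mul, add_zero]
  · have h1 : ¬ (1 : ZMod 2) = 0 := by decide
    rw [h, one_mul, if_neg h1, if_neg h1, one_mul, zero_add]

private theorem K3_2_bl {D : DatG ι κ} (hD : D.OK) : ∃ C K c, 0 < c ∧ (D4 D).BL C K c := by
  obtain ⟨C, K, c, hc, hbl⟩ := hD.bl
  refine ⟨2 * C, K, c, hc, ?_⟩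
  intro A' B' X V hA hB hV hX
  have h1 := hbl (fun S => A' S * (if (D.toDat.A S).a = 0 then (1 : ℝ) else 0)) B' X V
    (fun S => by
      show |A' S * (if (D.toDat.A S).a = 0 then (1 : ℝ) else 0)| ≤ 1
      split_ifs
      · rw [mul_one]
        exact hA S
      · rw [mul_zero, abs_zero]
        exact zero_le_one) hB hV hX
  have h2 := hbl (fun S => A' S * (if (D.toDat.A S).a = 0 then (0 : ℝ) else 1))
    (fun T => B' T * sg (D.toDat.A T).b) X V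
    (fun S => by
      show |A' S * (if (D.toDat.A S).a = 0 then (0 : ℝ) else 1)| ≤ 1
      split_ifs
      · rw [mul_zero, abs_zero]
        exact zero_le_one
      · rw [mul_one]
        exact hA S)
    (fun T => by
      show |B' T * sg (D.toDat.A T).b| ≤ 1
      rw [abs_mul, abs_sg, mul_one]
      exact hB T) hV hX
  have h3 : (∑ S ∈ Sx ι X, ∑ T ∈ Sx ι X,
      if nm S * nm T ≤ X ∧ V < (nm S : ℝ) ∧ V < (nm T : ℝ) ∧ Disjoint S T then
        A' S * B' T * sg ((D4 D).ss S T) else 0) =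
      (∑ S ∈ Sx ι X, ∑ T ∈ Sx ι X,
        if nm S * nm T ≤ X ∧ V < (nm S : ℝ) ∧ V < (nm T : ℝ) ∧ Disjoint S T then
          (A' S * (if (D.toDat.A S).a = 0 then (1 : ℝ) else 0)) * B' T * sg (D.toDat.ss S T)
        else 0) +
      ∑ S ∈ Sx ι X, ∑ T ∈ Sx ι X,
        if nm S * nm T ≤ X ∧ V < (nm S : ℝ) ∧ V < (nm T : ℝ) ∧ Disjoint S T then
          (A' S * (if (D.toDat.A S).a = 0 then (0 : ℝ) else 1)) *
            (B' T * sg (D.toDat.A T).b) * sg (D.toDat.ss S T) else 0 := by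
    rw [← Finset.sum_add_distrib]
    refine Finset.sum_congr rfl fun S _ => ?_
    rw [← Finset.sum_add_distrib]
    refine Finset.sum_congr rfl fun T _ => ?_
    by_cases hP : nm S * nm T ≤ X ∧ V < (nm S : ℝ) ∧ V < (nm T : ℝ) ∧ Disjoint S T
    · rw [if_pos hP, if_pos hP, if_pos hP, ss_D4, sg_add, K3_2_sg]
      ring
    · rw [if_neg hP, if_neg hP, if_neg hP, add_zero]
  rw [h3]
  refine (abs_add_le _ _).trans ?_
  have h4 := add_le_add h1 h2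
  refine h4.trans (le_of_eq ?_)
  ring

private theorem K3_2_ch (D : DatG ι κ) (T : Finset ι) (c : F4) (e : κ → ZMod 2) (z : ZMod 2)
    (hzs : z = ∑ p ∈ T, (D.a p).b) : (D4 D).ch T (v4 c e) = D.ch T (c + ⟨z, z⟩) e := by
  funext q
  by_cases hq : q ∈ T
  · show (if q ∈ T then (0 : ℝ) else sg ((D4 D).ex1 T (v4 c e) q)) =
      if q ∈ T then (0 : ℝ) else
        sg (F4.tr ((c + ⟨z, z⟩) * D.a q) + D.lg e q + ∑ p ∈ T, D.s q p)
    rw [if_pos hq, if_pos hq]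
  · show (if q ∈ T then (0 : ℝ) else sg ((D4 D).ex1 T (v4 c e) q)) =
      if q ∈ T then (0 : ℝ) else
        sg (F4.tr ((c + ⟨z, z⟩) * D.a q) + D.lg e q + ∑ p ∈ T, D.s q p)
    rw [if_neg hq, if_neg hq]
    congr 1
    show (D4 D).dg (v4 c e) q + ∑ p ∈ T, (D.s q p + (D.a q).a * (D.a p).b) = _
    rw [dg_v4, K3_2_F4, Finset.sum_add_distrib, ← Finset.mul_sum, ← hzs]
    ring

private theorem K3_2_nz (T : Finset ι) (c : F4) (e : κ → ZMod 2) (z : ZMod 2)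
    (hz : T = ∅ → z = 0) (h : T ≠ ∅ ∨ v4 c e ≠ 0) : T ≠ ∅ ∨ c + ⟨z, z⟩ ≠ 0 ∨ e ≠ 0 := by
  rcases Classical.em (T = ∅) with hT | hT
  · have h1 : v4 c e ≠ 0 := h.resolve_left fun h2 => h2 hT
    have hc0 : c + ⟨z, z⟩ = c := by
      rw [hz hT]
      exact K3_2_z0 c
    rw [hc0]
    rcases Classical.em (c = 0) with h3 | h3
    · refine Or.inr (Or.inr fun h4 => h1 (v4_eq_zero.2 ⟨h3, h4⟩))
    · exact Or.inr (Or.inl h3)
  · exact Or.inl hT

private theorem K3_2_cb {D : DatG ι κ} (hD : D.OK) : ∃ C, (D4 D).CB C := by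
  obtain ⟨C, hC⟩ := hD.cb
  refine ⟨C, fun T v hTv => ?_⟩
  obtain ⟨c, e, rfl⟩ := exists_v4 v
  obtain ⟨z, hzs⟩ : ∃ z : ZMod 2, z = ∑ p ∈ T, (D.a p).b := ⟨_, rfl⟩
  rw [K3_2_ch D T c e z hzs]
  exact hC T _ e (K3_2_nz T c e z (fun hT => by rw [hzs, hT, Finset.sum_empty]) hTv)

private theorem K3_2_mz {D : DatG ι κ} (hD : D.OK) :
    ∀ v : Bool ⊕ κ → ZMod 2, v ≠ 0 → Mz ∅ fun q => e2 ((D4 D).ex1 ∅ v q) := by
  intro v hv ε hε
  obtain ⟨c, e, rfl⟩ := exists_v4 v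
  have hce : c ≠ 0 ∨ e ≠ 0 := by
    by_contra hcon
    push Not at hcon
    exact hv (v4_eq_zero.2 hcon)
  obtain ⟨X₀, h0⟩ := hD.h3 c e hce ε hε
  refine ⟨X₀, fun X hX => ?_⟩
  have h1 := h0 X hX
  have h2 : ∀ S : Finset ι, ∏ q ∈ S, e2 ((D4 D).ex1 ∅ (v4 c e) q) =
      ((sg (F4.tr (c * D.toDat.A S) + D.lG e S) : ℝ) : ℂ) := by
    intro S
    have h3 : ∀ q, (D4 D).ex1 ∅ (v4 c e) q = F4.tr (c * D.a q) + D.lg e q := fun q => by
      rw [ex1_empty, dg_v4]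
    have h4 : F4.tr (c * D.toDat.A S) = ∑ q ∈ S, F4.tr (c * D.a q) :=
      K3_2_trs c S fun q => D.a q
    have h6 : D.lG e S = ∑ q ∈ S, D.lg e q := rfl
    rw [Finset.prod_congr rfl fun q _ => congrArg e2 (h3 q), ← e2_sum,
      Finset.sum_add_distrib, ← h4, ← h6]
    rfl
  have h5 : (∑ S ∈ (Sx ι X).filter (fun S => Disjoint S ∅),
      ∏ q ∈ S, e2 ((D4 D).ex1 ∅ (v4 c e) q)) =
      ((∑ S ∈ Sx ι X, sg (F4.tr (c * D.toDat.A S) + D.lG e S) : ℝ) : ℂ) := by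
    rw [Finset.filter_true_of_mem fun S _ => Finset.disjoint_empty_right S,
      Complex.ofReal_sum]
    exact Finset.sum_congr rfl fun S _ => h2 S
  show ‖∑ S ∈ (Sx ι X).filter (fun S => Disjoint S ∅),
      ∏ q ∈ S, e2 ((D4 D).ex1 ∅ (v4 c e) q)‖ ≤ ε * X
  rw [h5, Complex.norm_real, Real.norm_eq_abs]
  exact h1

/-- **K3_2** (medium). The hypotheses of the engine for `D4 D`.
Proof. `tw`: `tw_D4 D hD.rec_`. `an.cheb`, `an.zt`: `hD.cheb`, `hD.zt`.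
`an.bl`: let `C K c` be the constants of `hD.bl`; we show `BL` with `2 * |C|` (or `2 * C`, `C ≥ 0` is not needed if
one uses `|C|`), `K`, `c`. By `ss_D4`: `sg ((D4 D).ss S T) = sg (D.ss S T) * sg ((A S).a * (A T).b)`, and
`sg (x * y) = i₀ x + i₁ x * sg y` with `i₀ x = 1` if `x = 0` and `0` otherwise, `i₁ x = 1 - i₀ x`
(for `x, y : ZMod 2`). So the sum is the sum of the two sums with the coefficients
`(A' S * i₀ (A S).a, B' T)` and `(A' S * i₁ (A S).a, B' T * sg (A T).b)`, both of absolute value at most `1`.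
`cb`: let `C` be the constant of `hD.cb`. By `exists_v4` the class vector is `v4 c e`, and for `q ∉ T`:
`(D4 D).ex1 T (v4 c e) q = F4.tr (c * D.a q) + D.lg e q + ∑ p ∈ T, (D.s q p + (D.a q).a * (D.a p).b)
= F4.tr (c' * D.a q) + D.lg e q + ∑ p ∈ T, D.s q p` with `c' = c + ⟨z, z⟩`... choose `c'` with
`F4.tr (c' * x) = F4.tr (c * x) + z * x.a` where `z = ∑ p ∈ T, (D.a p).b = (A T).b`: `c' = c + ⟨z, z⟩`
(`F4.tr (⟨z, z⟩ * x) = z * x.b + z * x.a + z * x.b = z * x.a`). So `(D4 D).ch T (v4 c e) = D.ch T c' e` (both are `0`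
for `q ∈ T`), and `T ≠ ∅ ∨ v4 c e ≠ 0` implies `T ≠ ∅ ∨ c' ≠ 0 ∨ e ≠ 0` (if `T = ∅` then `z = 0`, `c' = c`;
`v4_eq_zero`).
`mz`: `exists_v4`; `ex1_empty`, `dg_v4`; the filter `Disjoint S ∅` is trivial (`filter_true_of_mem`);
`∏ q ∈ S, e2 (F4.tr (c * a q) + lg e q) = e2 (F4.tr (c * A S) + D.lG e S)` (`e2_sum`, `trD_sum`, `mul_sum`), and
`‖∑ (e2 ..)‖ = |∑ sg ..|` (`e2` is the cast of `sg`: `Complex.ofReal_sum`, `Complex.norm_real`); `hD.h3 c e`. -/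
theorem okt_D4 {D : DatG ι κ} (hD : D.OK) : OKt (D4 D) (w4 κ) := by
  exact ⟨fun p q hpq => tw_D4 D hD.rec_ p q hpq, ⟨hD.cheb, hD.zt, K3_2_bl hD⟩, K3_2_cb hD, K3_2_mz hD⟩

end

end Pool.Agent.Lib.MP_1a91b9_ntDV
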