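import Pool.Agent.Lib.MP_1a91b9_ntDV.K4_0

set_option autoImplicit false
set_option linter.unusedSectionVars false

namespace Pool.Agent.Lib.MP_1a91b9_ntDV.G4

open Finset Pool.Agent.Lib.MP_1a91b9_ntH Pool.Agent.Lib.MP_1a91b9_ntQ Pool.Agent.Lib.MP_1a91b9_ntQ.Da
  Pool.Agent.Lib.MP_1a91b9_ntQ.M Pool.Agent.Lib.MP_1a91b9_ntM Pool.Agent.Lib.MP_1a91b9_ntM.E

noncomputable section

variable {ι : Type} [DecidableEq ι] [PS ι] {G : Type} [AddCommGroup G] [Fintype G]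

open Classical in
/-- One set. -/
private theorem K4_12_pt (cl : ι → G) (γ : G) (F : Finset ι → ℝ) (T : Finset ι) :
    (((if ∑ q ∈ T, cl q = γ then F T - 0 else 0 : ℝ)) : ℂ) * (Fintype.card G : ℂ) =
      ∑ ψ : AddChar G ℂ, ψ (-γ) * ((∏ q ∈ T, ψ (cl q)) * (F T : ℂ)) := by
  have h1 : ∀ ψ : AddChar G ℂ, ψ (-γ) * ((∏ q ∈ T, ψ (cl q)) * (F T : ℂ)) =
      ψ (∑ q ∈ T, cl q - γ) * (F T : ℂ) := by
    intro ψ
    rw [sub_eq_add_neg, AddChar.map_add_eq_mul, ch_sum]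
    ring
  rw [sum_congr rfl fun ψ _ => h1 ψ, ← sum_mul, AddChar.sum_apply_eq_ite]
  by_cases h : ∑ q ∈ T, cl q = γ
  · rw [if_pos h, if_pos (sub_eq_zero.2 h), sub_zero, mul_comm]
  · rw [if_neg h, if_neg fun h' => h (sub_eq_zero.1 h'), zero_mul, Complex.ofReal_zero, zero_mul]

open Classical in
/-- The mean value. -/
private theorem K4_12_avr (cl : ι → G) (γ : G) (F : Finset ι → ℝ) (S : Finset ι) :
    ((avr (fun T => if ∑ q ∈ T, cl q = γ then F T - 0 else 0) S : ℝ) : ℂ) * (Fintype.card G : ℂ) =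
      ∑ ψ : AddChar G ℂ, ψ (-γ) * avg (fun T => (∏ q ∈ T, ψ (cl q)) * (F T : ℂ)) S := by
  have h1 : ∀ ψ : AddChar G ℂ, ψ (-γ) * avg (fun T => (∏ q ∈ T, ψ (cl q)) * (F T : ℂ)) S =
      (∑ T ∈ S.powerset, ψ (-γ) * ((∏ q ∈ T, ψ (cl q)) * (F T : ℂ))) / 2 ^ S.card := by
    intro ψ
    unfold avg
    rw [← mul_div_assoc, mul_sum]
  rw [sum_congr rfl fun ψ _ => h1 ψ, ← sum_div, sum_comm, ← sum_congr rfl fun T _ => K4_12_pt cl γ F T,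
    ← sum_mul]
  unfold avr
  rw [Complex.ofReal_div, Complex.ofReal_sum, div_mul_eq_mul_div, Complex.ofReal_pow, Complex.ofReal_ofNat]

/-- **K4_12** (medium-). **From the characters to a class.**
Proof. Let `N = card G` and `a ψ S = avg (fun T => (∏ q ∈ T, ψ (cl q)) * (F T : ℂ)) S`. For every `T`
`((if ∑ q ∈ T, cl q = γ then F T else 0 : ℝ) : ℂ) * N = ∑ ψ : AddChar G ℂ, ψ (-γ) * ((∏ q ∈ T, ψ (cl q)) * F T)`
(`ch_sum`, `AddChar.map_add_eq_mul`, `AddChar.sum_apply_eq_ite`, exactly as in `sum_SB`,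
MP_1a91b9_ntQ/M/DenW.lean). So with `r S = avr (fun T => if .. then F T - 0 else 0) S` one has
`(r S : ℂ) * N = ∑ ψ, ψ (-γ) * a ψ S`, and `((r S ^ 2 : ℝ) : ℂ) * N ^ 2 = ∑ ψ, ∑ ψ', ψ (-γ) * ψ' (-γ) * (a ψ S * a ψ' S)`
(`sq`, `sum_mul_sum`). Sum over `S ∈ Sx ι X`: the norm of the right side is at most `∑ ψ, ∑ ψ', ε X = N ^ 2 * ε * X`
(`AddChar.norm_apply`, `AddChar.card_eq`; one `X₀` for all the pairs: the sum of the `X₀`), so
`∑ S, r S ^ 2 ≤ ε * X ≤ ε * (card + X)`. -/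
theorem pg_pairs (cl : ι → G) (γ : G) (F : Finset ι → ℝ)
    (h : ∀ (ψ ψ' : AddChar G ℂ) (ε : ℝ), 0 < ε → ∃ X₀ : ℕ, ∀ X : ℕ, X₀ ≤ X →
      ‖∑ S ∈ Sx ι X, avg (fun T => (∏ q ∈ T, ψ (cl q)) * (F T : ℂ)) S *
        avg (fun T => (∏ q ∈ T, ψ' (cl q)) * (F T : ℂ)) S‖ ≤ ε * X) : PG cl γ F 0 := by
  classical
  intro ε hε
  choose X1 h1 using fun p : AddChar G ℂ × AddChar G ℂ => h p.1 p.2 ε hε
  refine ⟨∑ p, X1 p, fun X hX => ?_⟩
  have hX1 : ∀ p, X1 p ≤ X := fun p =>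
    (single_le_sum (fun _ _ => Nat.zero_le _) (mem_univ p)).trans hX
  have hN : (0 : ℝ) < Fintype.card G := Nat.cast_pos.2 Fintype.card_pos
  set r : Finset ι → ℝ := avr (fun T => if ∑ q ∈ T, cl q = γ then F T - 0 else 0) with hr
  set a : AddChar G ℂ → Finset ι → ℂ := fun ψ S => avg (fun T => (∏ q ∈ T, ψ (cl q)) * (F T : ℂ)) S with ha
  have hra : ∀ S, ((r S : ℝ) : ℂ) * (Fintype.card G : ℂ) = ∑ ψ : AddChar G ℂ, ψ (-γ) * a ψ S :=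
    fun S => K4_12_avr cl γ F S
  have hsq : ((∑ S ∈ Sx ι X, r S ^ 2 : ℝ) : ℂ) * (Fintype.card G : ℂ) ^ 2 =
      ∑ p : AddChar G ℂ × AddChar G ℂ, (p.1 (-γ) * p.2 (-γ)) * ∑ S ∈ Sx ι X, a p.1 S * a p.2 S := by
    have h2 : ∀ S, ((r S ^ 2 : ℝ) : ℂ) * (Fintype.card G : ℂ) ^ 2 =
        ∑ p : AddChar G ℂ × AddChar G ℂ, (p.1 (-γ) * p.2 (-γ)) * (a p.1 S * a p.2 S) := by
      intro S
      rw [Complex.ofReal_pow, ← mul_pow, hra, sq, sum_mul_sum, Fintype.sum_prod_type]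
      exact sum_congr rfl fun ψ _ => sum_congr rfl fun ψ' _ => by ring
    rw [Complex.ofReal_sum, sum_mul, sum_congr rfl fun S _ => h2 S, sum_comm]
    exact sum_congr rfl fun p _ => by rw [mul_sum]
  have hnn : 0 ≤ ∑ S ∈ Sx ι X, r S ^ 2 := sum_nonneg fun S _ => sq_nonneg _
  have hbd : (∑ S ∈ Sx ι X, r S ^ 2) * (Fintype.card G : ℝ) ^ 2 ≤
      (Fintype.card G : ℝ) ^ 2 * (ε * X) := by
    have h3 : (∑ S ∈ Sx ι X, r S ^ 2) * (Fintype.card G : ℝ) ^ 2 =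
        ‖((∑ S ∈ Sx ι X, r S ^ 2 : ℝ) : ℂ) * (Fintype.card G : ℂ) ^ 2‖ := by
      rw [norm_mul, Complex.norm_real, Real.norm_of_nonneg hnn, norm_pow, Complex.norm_natCast]
    rw [h3, hsq]
    refine (norm_sum_le _ _).trans ((sum_le_sum fun p _ => (?_ : _ ≤ ε * (X : ℝ))).trans ?_)
    · rw [norm_mul, norm_mul, AddChar.norm_apply, AddChar.norm_apply, one_mul, one_mul]
      exact h1 p X (hX1 p)
    · rw [sum_const, card_univ, Fintype.card_prod, nsmul_eq_mul, AddChar.card_eq, Nat.cast_mul, ← sq]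
  have hfin : ∑ S ∈ Sx ι X, r S ^ 2 ≤ ε * X := by
    rw [mul_comm] at hbd
    exact le_of_mul_le_mul_left hbd (by positivity)
  have hsub : ∑ S ∈ Sx ι X, (r S - 0) ^ 2 = ∑ S ∈ Sx ι X, r S ^ 2 :=
    sum_congr rfl fun S _ => by rw [sub_zero]
  change ∑ S ∈ Sx ι X, (r S - 0) ^ 2 ≤ ε * ((Sx ι X).card + X)
  rw [hsub]
  refine hfin.trans (mul_le_mul_of_nonneg_left ?_ hε.le)
  have : (0 : ℝ) ≤ (Sx ι X).card := Nat.cast_nonneg _
  linarith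

end

end Pool.Agent.Lib.MP_1a91b9_ntDV.G4
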