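import Pool.Agent.Lib.MP_1a91b9_ntV.D.Defs

set_option autoImplicit false
set_option linter.unusedSectionVars false

namespace Pool.Agent.Lib.MP_1a91b9_ntDV

open Finset Pool.Agent.Lib.MP_1a91b9_ntH Pool.Agent.Lib.MP_1a91b9_ntQ Pool.Agent.Lib.MP_1a91b9_ntV

noncomputable section

variable {ι : Type} [DecidableEq ι] [PS ι]

private theorem P5_compare (w : ι → ℝ) (hw : ∀ q, 0 ≤ w q) (x : ℕ) (hx : 2 ≤ x) :
    ∑ S ∈ Sx ι x, (∏ q ∈ S, w q) / nm S ≤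
      Real.exp 1 * ∑ S ∈ Sx ι x, (∏ q ∈ S, w q) * (nm S : ℝ) ^ (-(1 + 1 / Real.log x)) := by
  have hxr : (2 : ℝ) ≤ x := by exact_mod_cast hx
  have hL : 0 < Real.log x := Real.log_pos (by linarith)
  rw [Finset.mul_sum]
  refine Finset.sum_le_sum fun S hS => ?_
  have hn0 : (0 : ℝ) < nm S := by exact_mod_cast one_le_nm S
  have hnx : (nm S : ℝ) ≤ x := by exact_mod_cast mem_Sx.1 hS
  have h4 : (nm S : ℝ) ^ (1 / Real.log x) ≤ Real.exp 1 := by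
    refine (Real.rpow_le_rpow hn0.le hnx (by positivity)).trans (le_of_eq ?_)
    rw [Real.rpow_def_of_pos (by linarith), mul_one_div_cancel hL.ne']
  have h5 : (nm S : ℝ)⁻¹ = (nm S : ℝ) ^ (-(1 + 1 / Real.log x)) * (nm S : ℝ) ^ (1 / Real.log x) := by
    rw [← Real.rpow_add hn0, ← Real.rpow_neg_one]
    congr 1
    ring
  have h6 : 0 ≤ (∏ q ∈ S, w q) * (nm S : ℝ) ^ (-(1 + 1 / Real.log x)) :=
    mul_nonneg (Finset.prod_nonneg fun q _ => hw q) (Real.rpow_nonneg hn0.le _)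
  calc (∏ q ∈ S, w q) / nm S = ((∏ q ∈ S, w q) * (nm S : ℝ) ^ (-(1 + 1 / Real.log x))) *
        (nm S : ℝ) ^ (1 / Real.log x) := by rw [div_eq_mul_inv, h5]; ring
    _ ≤ ((∏ q ∈ S, w q) * (nm S : ℝ) ^ (-(1 + 1 / Real.log x))) * Real.exp 1 :=
        mul_le_mul_of_nonneg_left h4 h6
    _ = _ := by ring

private theorem P5_sigma (x : ℕ) (hx : 2 ≤ x) :
    1 < 1 + 1 / Real.log x ∧ 1 + 1 / Real.log x ≤ 3 := by
  have hxr : (2 : ℝ) ≤ x := by exact_mod_cast hx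
  have hL : 0 < Real.log x := Real.log_pos (by linarith)
  have hL2 : 1 ≤ 2 * Real.log x := by
    have h1 : Real.log 2 ≤ Real.log x := Real.log_le_log (by norm_num) hxr
    have h2 := Real.log_two_gt_d9
    linarith
  refine ⟨by have : 0 < 1 / Real.log x := one_div_pos.2 hL
             linarith, ?_⟩
  have : 1 / Real.log x ≤ 2 := by
    rw [div_le_iff₀ hL]
    exact hL2
  linarith

/-- **P5** (medium-). The number of the finite sets of primes of norm at most `X` is `O(X)`.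
Proof. As the proof of `ub2` (MP_1a91b9_ntV/D/Defs.lean) for the weights `w = 1`: `hall h1 w .. X` gives
`(∑ S, 1) * log X ≤ (C1 + 1) * X * ∑ S ∈ Sx ι X, 1 / nm S`, the private `v_compare` (copy it) gives
`∑ 1 / nm S ≤ e * ∑ S ∈ Sx ι X, (nm S) ^ (-σ)` with `σ = 1 + 1 / log X`, and
`∑ S ∈ Sx ι X, (nm S) ^ (-σ) ≤ ∏ q ∈ pr ι X, (1 + (N q) ^ (-σ))` (`eubD_sum_le` as in `v_euler`)
`≤ ∏ q ∈ pr ι X, (1 - (N q) ^ (-σ))⁻¹ ≤ C2 / (σ - 1) = C2 * log X` (`h2 σ X`, `v_sigma`). Divide by `log X > 0`.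
`C = (C1 + 1) * e * max C2 1` (take the maximum with `1` where a sign is needed). -/
theorem card_Sx_le {C1 C2 : ℝ} (h1 : Cheb ι C1) (h2 : Zt ι C2) :
    ∃ C : ℝ, 0 < C ∧ ∀ X : ℕ, 2 ≤ X → ((Sx ι X).card : ℝ) ≤ C * X := by
  have hD1 : (1 : ℝ) ≤ max C2 1 := le_max_right _ _
  have hE1 : (1 : ℝ) ≤ max (C1 + 1) 1 := le_max_right _ _
  refine ⟨max (C1 + 1) 1 * Real.exp 1 * max C2 1, by positivity, ?_⟩
  intro x hx
  have hxr : (2 : ℝ) ≤ x := by exact_mod_cast hx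
  have hL : 0 < Real.log x := Real.log_pos (by linarith)
  obtain ⟨s1, s2⟩ := P5_sigma x hx
  have hall' := hall h1 (fun _ => (1 : ℝ)) (fun q => ⟨zero_le_one, le_refl _⟩) x (by omega)
  have hcmp := P5_compare (fun _ : ι => (1 : ℝ)) (fun q => zero_le_one) x hx
  have heul := eubD_sum_le (fun _ : ι => (1 : ℝ)) (fun q => zero_le_one) (1 + 1 / Real.log x) x x le_rfl
  have hz := h2 (1 + 1 / Real.log x) x s1 s2
  have e1 : C2 / (1 + 1 / Real.log x - 1) = C2 * Real.log x := by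
    rw [show 1 + 1 / Real.log x - 1 = 1 / Real.log x by ring, div_div_eq_mul_div, div_one]
  rw [e1] at hz
  have hprod : ∏ q ∈ pr ι x, (1 + 1 * (PS.N q : ℝ) ^ (-(1 + 1 / Real.log x))) ≤
      ∏ q ∈ pr ι x, (1 - (PS.N q : ℝ) ^ (-(1 + 1 / Real.log x)))⁻¹ := by
    refine prod_le_prod (fun q _ => ?_) fun q _ => ?_
    · have : 0 ≤ (PS.N q : ℝ) ^ (-(1 + 1 / Real.log x)) := Real.rpow_nonneg (Nat.cast_nonneg _) _
      linarith
    · obtain ⟨ht0, ht⟩ := eubD_rpow_neg q (1 + 1 / Real.log x) s1.le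
      have e2 : 0 < 1 - (PS.N q : ℝ) ^ (-(1 + 1 / Real.log x)) := by linarith
      rw [← one_div, le_div_iff₀ e2]
      nlinarith
  have hS : ∑ S ∈ Sx ι x, (∏ q ∈ S, (1 : ℝ)) * (nm S : ℝ) ^ (-(1 + 1 / Real.log x)) ≤
      max C2 1 * Real.log x := by
    refine heul.trans (hprod.trans (hz.trans ?_))
    exact mul_le_mul_of_nonneg_right (le_max_left _ _) hL.le
  have hsum1 : 0 ≤ ∑ S ∈ Sx ι x, (∏ q ∈ S, (1 : ℝ)) / nm S :=
    Finset.sum_nonneg fun S _ => div_nonneg (Finset.prod_nonneg fun q _ => zero_le_one)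
      (Nat.cast_nonneg _)
  have hcard : ((Sx ι x).card : ℝ) = ∑ S ∈ Sx ι x, ∏ q ∈ S, (1 : ℝ) := by
    simp
  rw [hcard]
  refine le_of_mul_le_mul_right ?_ hL
  refine hall'.trans ?_
  have h9 : (C1 + 1) * x * ∑ S ∈ Sx ι x, (∏ q ∈ S, (1 : ℝ)) / nm S ≤
      max (C1 + 1) 1 * x * ∑ S ∈ Sx ι x, (∏ q ∈ S, (1 : ℝ)) / nm S := by
    refine mul_le_mul_of_nonneg_right ?_ hsum1
    exact mul_le_mul_of_nonneg_right (le_max_left _ _) (Nat.cast_nonneg _)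
  refine h9.trans ?_
  have h10 : max (C1 + 1) 1 * x * ∑ S ∈ Sx ι x, (∏ q ∈ S, (1 : ℝ)) / nm S ≤
      max (C1 + 1) 1 * x * (Real.exp 1 * (max C2 1 * Real.log x)) := by
    refine mul_le_mul_of_nonneg_left ?_ (by positivity)
    exact hcmp.trans (mul_le_mul_of_nonneg_left hS (Real.exp_pos 1).le)
  refine h10.trans (le_of_eq ?_)
  ring

end

end Pool.Agent.Lib.MP_1a91b9_ntDV
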