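import Pool.Agent.Lib.MP_1a91b9_ntDV.E0

/-!
# MP_1a91b9_nt (the divisor law), block E: the rules for the mean squares
-/

set_option autoImplicit false
set_option linter.unusedSectionVars false

namespace Pool.Agent.Lib.MP_1a91b9_ntDV

open Finset Pool.Agent.Lib.MP_1a91b9_ntH Pool.Agent.Lib.MP_1a91b9_ntQ
open Pool.Agent.Lib.MP_1a91b9_ntQ.Da Pool.Agent.Lib.MP_1a91b9_ntV

noncomputable section

variable {ι : Type} [DecidableEq ι] [PS ι]

/-- **E9** (easy+, the whole file). Sums. Proof: `avg (F + G) = avg F + avg G`, `‖a + b‖² ≤ 2 ‖a‖² + 2 ‖b‖²`, and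
`ε / 4` for both. -/
theorem AV.add {F G : Finset ι → ℂ} {v w : ℂ} (hF : AV F v) (hG : AV G w) :
    AV (fun T => F T + G T) (v + w) := by
  intro ε hε
  obtain ⟨X1, h1⟩ := hF (ε / 4) (by positivity)
  obtain ⟨X2, h2⟩ := hG (ε / 4) (by positivity)
  refine ⟨max X1 X2, fun X hX => ?_⟩
  have a1 := h1 X ((le_max_left _ _).trans hX)
  have a2 := h2 X ((le_max_right _ _).trans hX)
  have key : ∑ S ∈ Sx ι X, ‖avg (fun T => F T + G T) S - (v + w)‖ ^ 2 ≤
      ∑ S ∈ Sx ι X, (2 * ‖avg F S - v‖ ^ 2 + 2 * ‖avg G S - w‖ ^ 2) := by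
    refine Finset.sum_le_sum fun S _ => ?_
    have e : avg (fun T => F T + G T) S - (v + w) = (avg F S - v) + (avg G S - w) := by
      unfold avg
      rw [Finset.sum_add_distrib, add_div]
      ring
    rw [e]
    have h3 := norm_add_le (avg F S - v) (avg G S - w)
    have h4 := norm_nonneg ((avg F S - v) + (avg G S - w))
    nlinarith [sq_nonneg (‖avg F S - v‖ - ‖avg G S - w‖), norm_nonneg (avg F S - v), norm_nonneg (avg G S - w)]
  rw [Finset.sum_add_distrib, ← Finset.mul_sum, ← Finset.mul_sum] at key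
  linarith

/-- Scalar multiples: `ε / (‖a‖² + 1)`. -/
theorem AV.smul {F : Finset ι → ℂ} {v : ℂ} (hF : AV F v) (a : ℂ) : AV (fun T => a * F T) (a * v) := by
  intro ε hε
  obtain ⟨X1, h1⟩ := hF (ε / (‖a‖ ^ 2 + 1)) (by positivity)
  refine ⟨X1, fun X hX => ?_⟩
  have a1 := h1 X hX
  have key : ∑ S ∈ Sx ι X, ‖avg (fun T => a * F T) S - a * v‖ ^ 2 =
      ‖a‖ ^ 2 * ∑ S ∈ Sx ι X, ‖avg F S - v‖ ^ 2 := by
    rw [Finset.mul_sum]
    refine Finset.sum_congr rfl fun S _ => ?_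
    have e : avg (fun T => a * F T) S - a * v = a * (avg F S - v) := by
      unfold avg
      rw [← Finset.mul_sum]
      ring
    rw [e, norm_mul, mul_pow]
  rw [key]
  have hN : (0 : ℝ) ≤ ((Sx ι X).card + X : ℝ) := by positivity
  calc ‖a‖ ^ 2 * ∑ S ∈ Sx ι X, ‖avg F S - v‖ ^ 2
      ≤ ‖a‖ ^ 2 * (ε / (‖a‖ ^ 2 + 1) * ((Sx ι X).card + X)) := mul_le_mul_of_nonneg_left a1 (by positivity)
    _ = (‖a‖ ^ 2 / (‖a‖ ^ 2 + 1)) * (ε * ((Sx ι X).card + X)) := by ring
    _ ≤ 1 * (ε * ((Sx ι X).card + X)) := by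
        refine mul_le_mul_of_nonneg_right ?_ (by positivity)
        rw [div_le_one (by positivity)]
        linarith
    _ = ε * ((Sx ι X).card + X) := one_mul _

theorem AV.zero : AV (fun _ : Finset ι => (0 : ℂ)) 0 := by
  intro ε hε
  refine ⟨0, fun X _ => ?_⟩
  have e : ∀ S ∈ Sx ι X, ‖avg (fun _ : Finset ι => (0 : ℂ)) S - 0‖ ^ 2 = 0 := by
    intro S _
    unfold avg
    rw [Finset.sum_const_zero, zero_div, sub_zero, norm_zero]
    ring
  rw [Finset.sum_eq_zero e]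
  positivity

theorem AV.congr {F G : Finset ι → ℂ} {v w : ℂ} (hF : AV F v) (h : ∀ T, G T = F T) (h2 : w = v) :
    AV G w := by
  have e : G = F := funext h
  rw [e, h2]
  exact hF

theorem AV.sum {α : Type} (s : Finset α) {F : α → Finset ι → ℂ} {v : α → ℂ}
    (h : ∀ i ∈ s, AV (F i) (v i)) : AV (fun T => ∑ i ∈ s, F i T) (∑ i ∈ s, v i) := by
  classical
  induction s using Finset.induction_on with
  | empty => exact AV.zero.congr (fun T => by rw [Finset.sum_empty]) (by rw [Finset.sum_empty])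
  | insert a s ha ih =>
    refine ((h a (Finset.mem_insert_self a s)).add (ih fun i hi => h i (Finset.mem_insert_of_mem hi))).congr
      (fun T => ?_) ?_
    · rw [Finset.sum_insert ha]
    · rw [Finset.sum_insert ha]

/-- Real functions. Proof: `avg (fun T => (F T : ℂ)) S = (avr F S : ℂ)` (`push_cast`) and
`‖(x : ℂ) - (v : ℂ)‖ ^ 2 = (x - v) ^ 2` for real `x`, `v`. -/
theorem AVr_iff {F : Finset ι → ℝ} {v : ℝ} : AVr F v ↔ AV (fun T => (F T : ℂ)) (v : ℂ) := by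
  have e : ∀ S : Finset ι, ‖avg (fun T => (F T : ℂ)) S - (v : ℂ)‖ ^ 2 = (avr F S - v) ^ 2 := by
    intro S
    have e1 : avg (fun T => (F T : ℂ)) S = ((avr F S : ℝ) : ℂ) := by
      unfold avg avr
      push_cast
      rfl
    rw [e1, ← Complex.ofReal_sub, Complex.norm_real, Real.norm_eq_abs, sq_abs]
  unfold AVr AV
  simp only [e]

theorem AVr.add {F G : Finset ι → ℝ} {v w : ℝ} (hF : AVr F v) (hG : AVr G w) :
    AVr (fun T => F T + G T) (v + w) := by
  rw [AVr_iff] at hF hG ⊢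
  exact (hF.add hG).congr (fun T => by push_cast; rfl) (by push_cast; rfl)

theorem AVr.smul {F : Finset ι → ℝ} {v : ℝ} (hF : AVr F v) (a : ℝ) :
    AVr (fun T => a * F T) (a * v) := by
  rw [AVr_iff] at hF ⊢
  exact (hF.smul (a : ℂ)).congr (fun T => by push_cast; rfl) (by push_cast; rfl)

theorem AVr.congr {F G : Finset ι → ℝ} {v w : ℝ} (hF : AVr F v) (h : ∀ T, G T = F T)
    (h2 : w = v) : AVr G w := by
  have e : G = F := funext h
  rw [e, h2]
  exact hF

theorem AVr.sum {α : Type} (s : Finset α) {F : α → Finset ι → ℝ} {v : α → ℝ}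
    (h : ∀ i ∈ s, AVr (F i) (v i)) : AVr (fun T => ∑ i ∈ s, F i T) (∑ i ∈ s, v i) := by
  rw [AVr_iff]
  exact (AV.sum s fun i hi => AVr_iff.1 (h i hi)).congr (fun T => by push_cast; rfl) (by push_cast; rfl)

/-- From lower and upper bounds. Proof: for `ε` take `δ` with `8 δ² ≤ ε / 2` and `l, u`; if
`A = avr l S ≤ x = avr F S ≤ B = avr u S` (`avr` is monotone: divide by `2 ^ S.card > 0`) then
`(x - v) ^ 2 ≤ 2 (A - vl) ^ 2 + 2 (B - vu) ^ 2 + 2 δ ^ 2 + 2 δ ^ 2`: if `x ≥ v` then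
`0 ≤ x - v ≤ (B - vu) + δ`, if `x ≤ v` then `0 ≤ v - x ≤ (vl - A) + δ`. Sum over `S`. -/
theorem AVr.of_bounds {F : Finset ι → ℝ} {v : ℝ}
    (h : ∀ δ : ℝ, 0 < δ → ∃ (l u : Finset ι → ℝ) (vl vu : ℝ), AVr l vl ∧ AVr u vu ∧ v - δ ≤ vl ∧
      vu ≤ v + δ ∧ ∀ T, l T ≤ F T ∧ F T ≤ u T) : AVr F v := by
  intro ε hε
  obtain ⟨δ, hδ, hδ2⟩ : ∃ δ : ℝ, 0 < δ ∧ 4 * δ ^ 2 ≤ ε / 2 := by
    refine ⟨min 1 (ε / 8), lt_min one_pos (by positivity), ?_⟩
    have h1 : min 1 (ε / 8) ≤ 1 := min_le_left _ _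
    have h2 : min 1 (ε / 8) ≤ ε / 8 := min_le_right _ _
    have h3 : 0 < min 1 (ε / 8) := lt_min one_pos (by positivity)
    nlinarith
  obtain ⟨l, u, vl, vu, hl, hu, hvl, hvu, hb⟩ := h δ hδ
  obtain ⟨X1, h1⟩ := hl (ε / 8) (by positivity)
  obtain ⟨X2, h2⟩ := hu (ε / 8) (by positivity)
  refine ⟨max X1 X2, fun X hX => ?_⟩
  have a1 := h1 X ((le_max_left _ _).trans hX)
  have a2 := h2 X ((le_max_right _ _).trans hX)
  have key : ∑ S ∈ Sx ι X, (avr F S - v) ^ 2 ≤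
      ∑ S ∈ Sx ι X, (2 * (avr l S - vl) ^ 2 + 2 * (avr u S - vu) ^ 2 + 4 * δ ^ 2) := by
    refine Finset.sum_le_sum fun S _ => ?_
    have hlo : avr l S ≤ avr F S :=
      div_le_div_of_nonneg_right (Finset.sum_le_sum fun T _ => (hb T).1) (by positivity)
    have hup : avr F S ≤ avr u S :=
      div_le_div_of_nonneg_right (Finset.sum_le_sum fun T _ => (hb T).2) (by positivity)
    rcases le_total v (avr F S) with hx | hx
    · have c1 : avr F S - v ≤ (avr u S - vu) + δ := by linarith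
      have c2 : (avr F S - v) ^ 2 ≤ ((avr u S - vu) + δ) ^ 2 := pow_le_pow_left₀ (by linarith) c1 2
      nlinarith [sq_nonneg ((avr u S - vu) - δ), sq_nonneg (avr l S - vl), sq_nonneg δ]
    · have c1 : v - avr F S ≤ (vl - avr l S) + δ := by linarith
      have c2 : (v - avr F S) ^ 2 ≤ ((vl - avr l S) + δ) ^ 2 := pow_le_pow_left₀ (by linarith) c1 2
      nlinarith [sq_nonneg ((vl - avr l S) - δ), sq_nonneg (avr u S - vu), sq_nonneg δ]
  rw [Finset.sum_add_distrib, Finset.sum_add_distrib, ← Finset.mul_sum, ← Finset.mul_sum, Finset.sum_const,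
    nsmul_eq_mul] at key
  have hX0 : (0 : ℝ) ≤ X := Nat.cast_nonneg X
  have hc0 : (0 : ℝ) ≤ (Sx ι X).card := Nat.cast_nonneg _
  have key2 : ((Sx ι X).card : ℝ) * (4 * δ ^ 2) ≤ (Sx ι X).card * (ε / 2) := mul_le_mul_of_nonneg_left hδ2 hc0
  nlinarith

/-- Chebyshev: the `S` with a small mean value are rare. Proof: each of them has
`(avr F S - v) ^ 2 ≥ (v - v') ^ 2`; use `hF (ε * (v - v') ^ 2)` and divide. -/
theorem AVr.rare {F : Finset ι → ℝ} {v : ℝ} (hF : AVr F v) {v' : ℝ} (hv : v' < v) (ε : ℝ)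
    (hε : 0 < ε) : ∃ X₀ : ℕ, ∀ X : ℕ, X₀ ≤ X →
      (((Sx ι X).filter fun S => avr F S < v').card : ℝ) ≤ ε * ((Sx ι X).card + X) := by
  have hd : 0 < v - v' := by linarith
  obtain ⟨X1, h1⟩ := hF (ε * (v - v') ^ 2) (by positivity)
  refine ⟨X1, fun X hX => ?_⟩
  have a1 := h1 X hX
  have key : (((Sx ι X).filter fun S => avr F S < v').card : ℝ) * (v - v') ^ 2 ≤
      ∑ S ∈ Sx ι X, (avr F S - v) ^ 2 := by
    calc (((Sx ι X).filter fun S => avr F S < v').card : ℝ) * (v - v') ^ 2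
        = ∑ S ∈ (Sx ι X).filter fun S => avr F S < v', (v - v') ^ 2 := by
          rw [Finset.sum_const, nsmul_eq_mul]
      _ ≤ ∑ S ∈ (Sx ι X).filter fun S => avr F S < v', (avr F S - v) ^ 2 := by
          refine Finset.sum_le_sum fun S hS => ?_
          have hS2 := (Finset.mem_filter.1 hS).2
          have : v - v' ≤ v - avr F S := by linarith
          calc (v - v') ^ 2 ≤ (v - avr F S) ^ 2 := pow_le_pow_left₀ hd.le this 2
            _ = (avr F S - v) ^ 2 := by ring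
      _ ≤ ∑ S ∈ Sx ι X, (avr F S - v) ^ 2 :=
          Finset.sum_le_sum_of_subset_of_nonneg (Finset.filter_subset _ _) fun S _ _ => sq_nonneg _
  have key2 : (((Sx ι X).filter fun S => avr F S < v').card : ℝ) * (v - v') ^ 2 ≤
      (ε * ((Sx ι X).card + X)) * (v - v') ^ 2 := by
    refine key.trans (a1.trans (le_of_eq ?_))
    ring
  exact le_of_mul_le_mul_right key2 (by positivity)

end

end Pool.Agent.Lib.MP_1a91b9_ntDV
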