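import Pool.Agent.Lib.MP_1a91b9_ntDV.E0

set_option autoImplicit false
set_option linter.unusedSectionVars false

namespace Pool.Agent.Lib.MP_1a91b9_ntDV

open Finset Pool.Agent.Lib.MP_1a91b9_ntH Pool.Agent.Lib.MP_1a91b9_ntQ
open Pool.Agent.Lib.MP_1a91b9_ntQ.Da Pool.Agent.Lib.MP_1a91b9_ntV

noncomputable section

variable {ι : Type} [DecidableEq ι] {κ : Type} [Fintype κ] {L : Type} [Fintype L] [DecidableEq L]

/-- **E3** (easy+). The passage to the one-sided exponents, with the twisted reciprocity law.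
Proof. As in the proof of `genMo_eq` (MP_1a91b9_ntV/DJ/ExpJ.lean, `h6`, `hswap`) and `MoN_eq`
(MP_1a91b9_ntV/D/MomN.lean): `exp_one D tw Phi hdiag T f` (with `al = D.dg w`), `e2_add`,
`four Phi (nl (D.dg w) T f)`, `sum_nl`; then `sum_comm`, and
`∏ j : T, g (f j) j * e2 (ce (f j) * D.dg w j) = (∏ j, g (f j) j) * e2 (∑ j, ce (f j) * D.dg w j)` by
`prod_mul_distrib`, `e2_sum`. -/
theorem BF_one (D : Dat2 ι κ) {w : κ → ZMod 2}
    (tw : ∀ p q, p ≠ q → D.s p q + D.s q p = D.dg w p * D.dg w q) (Phi : L → L → ZMod 2)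
    (hdiag : ∀ l, Phi l l = 0) (g : L → ι → ℂ) (T : Finset ι) :
    BF D Phi g T = ∑ ce : L → ZMod 2, Fh Phi ce *
      BF D (Phi1 Phi) (fun l q => g l q * e2 (ce l * D.dg w q)) T := by
  unfold BF
  have h6 : ∀ f : T → L,
      (∏ j : T, g (f j) j) * e2 (∑ j : T, ∑ l : T, Phi (f j) (f l) * D.s j l) =
      ∑ ce : L → ZMod 2, Fh Phi ce * ((∏ j : T, g (f j) j * e2 (ce (f j) * D.dg w j)) *
        e2 (∑ j : T, ∑ l : T, Phi1 Phi (f j) (f l) * D.s j l)) := by
    intro f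
    rw [exp_one D tw Phi hdiag T f, e2_add, four, mul_sum, mul_sum]
    refine sum_congr rfl fun ce _ => ?_
    rw [sum_nl, prod_mul_distrib, ← e2_sum]
    ring
  simp only [h6]
  rw [sum_comm]
  refine sum_congr rfl fun ce _ => ?_
  rw [mul_sum]

end

end Pool.Agent.Lib.MP_1a91b9_ntDV
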