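import Pool.Agent.Lib.MP_1a91b9_ntDV.E0

set_option autoImplicit false
set_option linter.unusedSectionVars false

namespace Pool.Agent.Lib.MP_1a91b9_ntDV

open Finset Pool.Agent.Lib.MP_1a91b9_ntH Pool.Agent.Lib.MP_1a91b9_ntQ
open Pool.Agent.Lib.MP_1a91b9_ntQ.Da Pool.Agent.Lib.MP_1a91b9_ntV

noncomputable section

variable {κ : Type} [Fintype κ] {L : Type} [Fintype L] [DecidableEq L]

private theorem E4_gen (Phi : L → L → ZMod 2) (U : Finset L)
    (h0 : ∀ a ∈ U, ∀ b ∈ U, Phi a b = 0) (h : (L → ZMod 2) → ℂ)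
    (hU : ∀ (c : L → ZMod 2) (a : L), a ∉ U → h (c + Pi.single a 1) = h c) :
    ∑ ce : L → ZMod 2, Fh Phi ce * h ce = h 0 := by
  have h2 : (2 : ℂ) ^ Fintype.card L ≠ 0 := pow_ne_zero _ (by norm_num)
  have key : ∀ n : L → ZMod 2, e2 (FRc Phi n) * ∑ ce : L → ZMod 2, e2 (ce ⬝ᵥ n) * h ce =
      ∑ ce : L → ZMod 2, e2 (ce ⬝ᵥ n) * h ce := by
    intro n
    by_cases hn : ∀ a, a ∉ U → n a = 0
    · have h3 : FRc Phi n = 0 := by
        unfold FRc
        refine sum_eq_zero fun a _ => sum_eq_zero fun b _ => ?_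
        split_ifs
        · by_cases ha : a ∈ U
          · by_cases hb : b ∈ U
            · rw [h0 b hb a ha, zero_mul]
            · rw [hn b hb, mul_zero, mul_zero]
          · rw [hn a ha, zero_mul, mul_zero]
        · rfl
      rw [h3, e2_zero, one_mul]
    · push Not at hn
      obtain ⟨a, ha, hna⟩ := hn
      have hi1 : n a = 1 := z2_ne hna
      have h4 : ∑ ce : L → ZMod 2, e2 (ce ⬝ᵥ n) * h ce = 0 := by
        have h5 : ∀ c : L → ZMod 2, e2 ((c + Pi.single a 1) ⬝ᵥ n) * h (c + Pi.single a 1) =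
            -(e2 (c ⬝ᵥ n) * h c) := by
          intro c
          rw [hU c a ha, add_dotProduct, single_dotProduct, one_mul, hi1, e2_add, e2_one]
          ring
        have h6 : ∑ c : L → ZMod 2, e2 (c ⬝ᵥ n) * h c =
            ∑ c : L → ZMod 2, -(e2 (c ⬝ᵥ n) * h c) := by
          rw [← Equiv.sum_comp (Equiv.addRight (Pi.single a (1 : ZMod 2)))
            fun c => e2 (c ⬝ᵥ n) * h c]
          exact sum_congr rfl fun c _ => h5 c
        rw [sum_neg_distrib] at h6
        generalize ∑ c : L → ZMod 2, e2 (c ⬝ᵥ n) * h c = x at h6 ⊢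
        linear_combination h6 / 2
      rw [h4, mul_zero]
  have h7 : ∀ ce : L → ZMod 2, Fh Phi ce * h ce =
      (∑ n : L → ZMod 2, e2 (FRc Phi n) * (e2 (ce ⬝ᵥ n) * h ce)) / 2 ^ Fintype.card L := by
    intro ce
    unfold Fh
    rw [div_mul_eq_mul_div, sum_mul]
    congr 1
    refine sum_congr rfl fun n _ => ?_
    rw [e2_add, mul_assoc]
    rfl
  rw [sum_congr rfl fun ce _ => h7 ce, ← sum_div, sum_comm]
  have h8 : ∀ n : L → ZMod 2, ∑ ce : L → ZMod 2, e2 (FRc Phi n) * (e2 (ce ⬝ᵥ n) * h ce) =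
      ∑ ce : L → ZMod 2, e2 (n ⬝ᵥ ce) * h ce := by
    intro n
    rw [← mul_sum, key n]
    exact sum_congr rfl fun ce _ => by rw [dotProduct_comm]
  rw [sum_congr rfl fun n _ => h8 n, sum_comm]
  have h9 : ∀ ce : L → ZMod 2, ∑ n : L → ZMod 2, e2 (n ⬝ᵥ ce) * h ce =
      if ce = 0 then 2 ^ Fintype.card L * h 0 else 0 := by
    intro ce
    rw [← sum_mul, sum_dotE]
    split_ifs with h
    · rw [h]
    · rw [zero_mul]
  rw [sum_congr rfl fun ce _ => h9 ce, sum_ite_eq', if_pos (mem_univ _),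
    mul_div_cancel_left₀ _ h2]

open Classical in
/-- **E4** (medium-). The sum of the Fourier coefficients over the admissible `ce`, for a set `U` where the
exponents are zero.
Proof. Let `Φ = Phi`. For `n : L → ZMod 2` with `n x = 0` outside `U` one has `FRc Φ n = 0` (every term is zero:
either `n a * n b = 0` or `a, b ∈ U` and `Φ b a = 0`), so by `four Φ n`:
`∑ ce, Fh Φ ce * e2 (∑ a, ce a * n a) = 1` (`e2_zero`). (*)
If some `x ∈ U` has `v x ≠ 0` and `v x ≠ w`, the condition on the left is false for all `ce` (if `ce x = 0` then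
`v x + 0 • w = v x ≠ 0`; if `ce x = 1` then `v x + w = 0` gives `v x = w` because `w + w = 0`), and the right side
is `0`. If `w = 0`, the condition is `∀ x ∈ U, v x = 0` for all `ce`, and (*) with `n = 0` gives the claim.
Otherwise `w ≠ 0` and `v x = t x • w` with `t x ∈ {0, 1}` for `x ∈ U`; the condition for `ce` is
`∀ x ∈ U, ce x = t x` (`z2_add_self`), and its indicator is
`2 ^ (-#U) * ∑ n ∈ W, e2 (∑ x, n x * (ce x + t x))` where `W = {n | ∀ x ∉ U, n x = 0}` (product over `x ∈ U` of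
`(1 + e2 (ce x + t x)) / 2`; or use the `n : U → ZMod 2` extended by zero). Insert this, exchange the sums, use
(*) for every `n`: the left side is `2 ^ (-#U) * ∑ n ∈ W, e2 (∑ x, n x * t x)`, which is the indicator of
`∀ x ∈ U, t x = 0` by the same formula (with `ce = 0`). See `sum_dotE` (used in `four`) for
`∑ n, e2 (c ⬝ᵥ n)`. -/
theorem sum_Fh (Phi : L → L → ZMod 2) (U : Finset L) (h0 : ∀ a ∈ U, ∀ b ∈ U, Phi a b = 0)
    (w : κ → ZMod 2) (v : L → κ → ZMod 2) :
    ∑ ce : L → ZMod 2, Fh Phi ce * (if ∀ x ∈ U, v x + ce x • w = 0 then (1 : ℂ) else 0) =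
      if ∀ x ∈ U, v x = 0 then (1 : ℂ) else 0 := by
  have h := E4_gen Phi U h0 (fun ce => if ∀ x ∈ U, v x + ce x • w = 0 then (1 : ℂ) else 0) ?_
  · rw [h]
    congr 1
    apply propext
    refine forall_congr' fun x => forall_congr' fun _ => ?_
    rw [Pi.zero_apply, zero_smul, add_zero]
  · intro c a ha
    have h1 : (∀ x ∈ U, v x + (c + Pi.single a 1 : L → ZMod 2) x • w = 0) ↔ ∀ x ∈ U, v x + c x • w = 0 := by
      refine forall_congr' fun x => forall_congr' fun hx => ?_
      have hxa : x ≠ a := fun e => ha (e ▸ hx)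
      rw [Pi.add_apply, Pi.single_eq_of_ne hxa, add_zero]
    simp only [h1]

end

end Pool.Agent.Lib.MP_1a91b9_ntDV
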