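import Pool.Agent.Lib.MP_1a91b9_ntDV.E6

set_option autoImplicit false
set_option linter.unusedSectionVars false

namespace Pool.Agent.Lib.MP_1a91b9_ntDV

open Finset Pool.Agent.Lib.MP_1a91b9_ntH Pool.Agent.Lib.MP_1a91b9_ntQ
open Pool.Agent.Lib.MP_1a91b9_ntQ.Da Pool.Agent.Lib.MP_1a91b9_ntV

noncomputable section

variable {ι : Type} [DecidableEq ι] {κ : Type} [Fintype κ] [DecidableEq κ] [PS ι] {k k' : ℕ}

private theorem E8_small (δ K B ε : ℝ) (hδ : 0 < δ) (hK : 0 < K) (hB : 1 ≤ B) (hε : 0 < ε) :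
    ∃ X₀ : ℕ, ∀ X : ℕ, X₀ ≤ X → K * X * Real.log X ^ (-δ) * B ^ δ ≤ ε * X := by
  have h1 : Filter.Tendsto (fun X : ℕ => Real.log (X : ℝ) ^ (-δ)) Filter.atTop (nhds 0) :=
    (tendsto_rpow_neg_atTop hδ).comp
      (Real.tendsto_log_atTop.comp tendsto_natCast_atTop_atTop)
  have hP : 0 < K * B ^ δ := mul_pos hK (Real.rpow_pos_of_pos (by linarith) _)
  have h2 : ∀ᶠ X : ℕ in Filter.atTop, Real.log (X : ℝ) ^ (-δ) < ε / (K * B ^ δ) :=
    h1.eventually (gt_mem_nhds (div_pos hε hP))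
  obtain ⟨X₀, h3⟩ := Filter.eventually_atTop.1 h2
  refine ⟨X₀, fun X hX => ?_⟩
  have h4 := h3 X hX
  rw [lt_div_iff₀ hP] at h4
  have h5 : K * X * Real.log X ^ (-δ) * B ^ δ = (Real.log (X : ℝ) ^ (-δ) * (K * B ^ δ)) * X := by
    ring
  rw [h5]
  exact mul_le_mul_of_nonneg_right h4.le (Nat.cast_nonneg X)

private theorem E8_nP (x : LP k k') : 2 / (MP k k' : ℝ) ≤ nP k k' x := by
  have h1 : ∀ (n : ℕ) (o : Option (Lab2 n)), ((2 : ℝ) ^ n)⁻¹ / 2 ≤ hk n o := by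
    intro n o
    cases o with
    | none =>
      show ((2 : ℝ) ^ n)⁻¹ / 2 ≤ 1 / 2
      have h2 : ((2 : ℝ) ^ n)⁻¹ ≤ 1 := inv_le_one_of_one_le₀ (one_le_pow₀ (by norm_num))
      linarith
    | some l => exact le_refl _
  have h2 : 2 / (MP k k' : ℝ) = ((2 : ℝ) ^ k)⁻¹ / 2 * (((2 : ℝ) ^ k')⁻¹ / 2) := by
    unfold MP
    push_cast
    rw [pow_add]
    field_simp
    norm_num
  rw [h2]
  exact mul_le_mul (h1 k _) (h1 k' _) (by positivity) (hk_pos k _).le

private theorem E8_mem {U : Finset (LP k k')} (hU : U ∈ UsP k k') :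
    ((none, none) : LP k k') ∈ U := by
  obtain ⟨A, _, B, _, rfl⟩ := mem_UsP.1 hU
  rw [mem_product]
  exact ⟨mem_io.2 (fun l hl => (Option.some_ne_none l hl.symm).elim),
    mem_io.2 (fun l hl => (Option.some_ne_none l hl.symm).elim)⟩

/-- **E8** (medium). The mean values of the maximal unlinked sets, the analogue of `LN_main`
(MP_1a91b9_ntV/D/SysN.lean).
Proof. If there are `x, x' ∈ U` with `c x ≠ c x'`: `mP c U = 0` (otherwise both are `0`), and with
`c₁ = c x + c x' ≠ 0`: `∑ x ∈ U, g x q = ∑ x ∈ U, (nP x : ℂ) * e2 (D.dg (c x) q)` has norm at most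
`((MP - 1) + D.ch ∅ c₁ q) / MP` and at most `1`, by `norm_wsum` with `a = 2 / MP` and `sum_nP hU`; for this one
needs `2 / MP ≤ nP x` for all `x`: the smallest weight is `((2 ^ k)⁻¹ / 2) * ((2 ^ k')⁻¹ / 2) = 2 / MP`. Then `ub2`
as in `LN_main` (with `hD.cb` for `T = ∅`, `c₁ ≠ 0`, `hD.an.cheb`, `hD.an.zt`; copy the private `v_small`).
Otherwise `c` is constant on `U`, equal to `c₀ = c (none, none)` (`(none, none) ∈ U`), and
`∑ x ∈ U, g x q = e2 (D.dg c₀ q)` by `sum_nP`. If `c₀ = 0` it is `1`, `mP c U = 1` and the difference is `0`. If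
`c₀ ≠ 0`, `mP c U = 0` and `hD.mz c₀` gives the bound (`Mz` with `B = ∅`: the filter is trivial, see the end of
`LN_main`; `ex1_empty`). -/
theorem LPs_main {D : Dat2 ι κ} {w : κ → ZMod 2} (hD : OKt D w) (c : LP k k' → κ → ZMod 2) :
    ∀ U ∈ UsP k k', ∀ ε : ℝ, 0 < ε → ∃ X₀ : ℕ, ∀ X : ℕ, X₀ ≤ X →
      ‖∑ S ∈ Sx ι X, ∏ q ∈ S, ∑ x ∈ U, (LPs D k k' c).g x q - mP c U * ((Sx ι X).card : ℂ)‖ ≤
        ε * X := by
  classical
  intro U hU ε hε
  have hsum := sum_nP hU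
  have hM2 : 2 ≤ MP k k' := by
    unfold MP
    have : 1 ≤ 2 ^ (k + k') := Nat.one_le_two_pow
    omega
  have hm0 : (0 : ℝ) < (MP k k' : ℝ) := by
    exact_mod_cast (by omega : 0 < MP k k')
  have hg : ∀ q, ∑ x ∈ U, (LPs D k k' c).g x q =
      ∑ x ∈ U, (nP k k' x : ℂ) * e2 (D.dg (c x) q) := fun q => rfl
  by_cases hB : ∃ l ∈ U, ∃ l' ∈ U, c l ≠ c l'
  · obtain ⟨l, hl, l', hl', hll⟩ := hB
    have hmP : mP c U = 0 := if_neg fun h => hll ((h l hl).trans (h l' hl').symm)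
    have hne' : l ≠ l' := fun e => hll (by rw [e])
    set c1 : κ → ZMod 2 := c l + c l' with hc
    have hc0 : c1 ≠ 0 := by
      intro h
      apply hll
      funext j
      have := congrFun h j
      have h5 : ∀ x y : ZMod 2, x + y = 0 → x = y := by decide
      exact h5 _ _ this
    obtain ⟨C, hC⟩ := hD.cb
    obtain ⟨C1, hC1⟩ := hD.an.cheb
    obtain ⟨C2, hC2⟩ := hD.an.zt
    have hCB := SumB.of (hC ∅ c1 (Or.inr hc0))
    obtain ⟨K, hK, hub⟩ := ub2 hC1 hC2 (MP k k') hM2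
    obtain ⟨X₀, hX₀⟩ := E8_small (1 / (MP k k' : ℝ)) K
      (C * (1 + Real.log (nm (∅ : Finset ι)))) ε (by positivity) hK hCB.hB hε
    refine ⟨max X₀ 2, fun X hX => ?_⟩
    rw [hmP, zero_mul, sub_zero]
    have hH : ∀ q, ‖∑ x ∈ U, (LPs D k k' c).g x q‖ ≤
        (((MP k k' : ℝ) - 1) + D.ch ∅ c1 q) / (MP k k' : ℝ) := by
      intro q
      rw [hg]
      have hns := norm_wsum U (nP k k') (fun x => (nP_pos x).le) (fun x => D.dg (c x) q)
        (a := 2 / (MP k k' : ℝ)) (by positivity) hl hl' hne' (E8_nP l) (E8_nP l')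
      have hsg : sg (D.dg (c l) q + D.dg (c l') q) = D.ch ∅ c1 q := by
        unfold Dat2.ch
        rw [if_neg (notMem_empty _), ex1_empty, hc, dg_add]
      rw [hsg, hsum] at hns
      refine hns.trans (le_of_eq ?_)
      field_simp
      ring
    have hH1 : ∀ q, ‖∑ x ∈ U, (LPs D k k' c).g x q‖ ≤ 1 := by
      intro q
      refine (norm_sum_le _ _).trans ?_
      simp only [norm_gP]
      exact hsum.le
    have h1 : ‖∑ S ∈ Sx ι X, ∏ q ∈ S, ∑ x ∈ U, (LPs D k k' c).g x q‖ ≤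
        ∑ S ∈ Sx ι X, ∏ q ∈ S, ‖∑ x ∈ U, (LPs D k k' c).g x q‖ := by
      refine (norm_sum_le _ _).trans (sum_le_sum fun S _ => ?_)
      rw [norm_prod]
    have h2 := hub (D.ch ∅ c1) _ hCB (fun q => ‖∑ x ∈ U, (LPs D k k' c).g x q‖)
      (fun q => ⟨norm_nonneg _, hH1 q, hH q⟩) X ((le_max_right _ _).trans hX)
    have h3 := hX₀ X ((le_max_left _ _).trans hX)
    exact h1.trans (h2.trans h3)
  · push Not at hB
    have h0U := E8_mem hU
    have hgc : ∀ q, ∑ x ∈ U, (LPs D k k' c).g x q = e2 (D.ex1 ∅ (c (none, none)) q) := by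
      intro q
      rw [hg, ex1_empty]
      have h1 : ∀ x ∈ U, (nP k k' x : ℂ) * e2 (D.dg (c x) q) =
          (nP k k' x : ℂ) * e2 (D.dg (c (none, none)) q) := by
        intro x hx
        rw [hB x hx _ h0U]
      rw [sum_congr rfl h1, ← sum_mul, ← Complex.ofReal_sum, hsum, Complex.ofReal_one, one_mul]
    simp only [hgc]
    by_cases h0 : c (none, none) = 0
    · have hmP : mP c U = 1 := if_pos fun x hx => (hB x hx _ h0U).trans h0
      refine ⟨0, fun X _ => ?_⟩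
      simp only [h0, ex1_empty, dg_zero, e2_zero, prod_const_one, sum_const, nsmul_eq_mul,
        mul_one, hmP, one_mul, sub_self, norm_zero]
      positivity
    · have hmP : mP c U = 0 := if_neg fun h => h0 (h _ h0U)
      obtain ⟨X₀, hX₀⟩ := hD.mz (c (none, none)) h0 ε hε
      refine ⟨X₀, fun X hX => ?_⟩
      have h1 := hX₀ X hX
      rw [filter_true_of_mem fun S _ => disjoint_empty_right S] at h1
      rw [hmP, zero_mul, sub_zero]
      exact h1

end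

end Pool.Agent.Lib.MP_1a91b9_ntDV
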