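import Pool.Agent.Lib.MP_1a91b9_ntDV.E0
import Pool.Agent.Lib.MP_1a91b9_ntV.DJ.SysJ

set_option autoImplicit false
set_option linter.unusedSectionVars false

namespace Pool.Agent.Lib.MP_1a91b9_ntDV

open Finset Pool.Agent.Lib.MP_1a91b9_ntH Pool.Agent.Lib.MP_1a91b9_ntQ
open Pool.Agent.Lib.MP_1a91b9_ntQ.Da Pool.Agent.Lib.MP_1a91b9_ntV
open Pool.Agent.Lib.MP_1a91b9_ntV.DJ

noncomputable section

variable {ι : Type} [DecidableEq ι] {κ : Type} [Fintype κ] [DecidableEq κ] {K : ℕ} {M : Type}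
  [Fintype M]

/-- **E12** (easy+). The expansion after the reciprocity law, for one set `S`.
Proof. This is the claim `h1` in the proof of `genMo_eq` (MP_1a91b9_ntV/DJ/ExpJ.lean) with the weight
`h = fun q => e2 (D.dg c0 q)` (`∏ q ∈ S, h q = e2 (∑ q ∈ S, D.dg c0 q)`, `e2_sum`), where the factor `h` is put into
the class vector: `h q * (2 ^ K)⁻¹ * e2 (D.dg (ccG cf w 0 m ce l) q) = (2 ^ K)⁻¹ * e2 (D.dg (ccG cf w c0 m ce l) q)`
(`dg_add`, `e2_add`), that is `gk D (ccG cf w c0 m ce) l q`; `BF` is the sum over `f : S → Lab2 K`. Copy that proof. -/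
theorem genMo_pt (D : Dat2 ι κ) {w : κ → ZMod 2}
    (tw : ∀ p q, p ≠ q → D.s p q + D.s q p = D.dg w p * D.dg w q) (rf : M → ZMod 2)
    (cf : M → Lab2 K → κ → ZMod 2) (Kf : Finset ι → ℂ) (W : ℂ)
    (hK : ∀ S : Finset ι, Kf S * (2 ^ K) ^ S.card * W = ∑ m : M, e2 (rf m) * ∑ f : S → Lab2 K,
      e2 (∑ j : S, D.dg (cf m (f j)) j + ∑ j : S, ∑ l : S, PhiQ (f j) (f l) * D.s j l))
    (c0 : κ → ZMod 2) (S : Finset ι) :
    e2 (∑ q ∈ S, D.dg c0 q) * Kf S * W = ∑ m : M, ∑ ce : Lab2 K → ZMod 2,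
      e2 (rf m) * Fh PhiQ ce * BF D (Phi1 PhiQ) (gk D (ccG cf w c0 m ce)) S := by
  have hk : ((2 : ℂ) ^ K) ≠ 0 := pow_ne_zero _ (by norm_num)
  have h5 : ((2 ^ K : ℂ)⁻¹) ^ S.card * (2 ^ K) ^ S.card = 1 := by
    rw [← mul_pow, inv_mul_cancel₀ hk, one_pow]
  have h4 : e2 (∑ q ∈ S, D.dg c0 q) * Kf S * W = ((2 ^ K : ℂ)⁻¹) ^ S.card * e2 (∑ q ∈ S, D.dg c0 q) *
        (Kf S * (2 ^ K) ^ S.card * W) := by
    linear_combination (-(e2 (∑ q ∈ S, D.dg c0 q)) * Kf S * W) * h5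
  rw [h4, hK S, mul_sum]
  refine sum_congr rfl fun m _ => ?_
  have h6 : ∀ f : S → Lab2 K,
      e2 (∑ j : S, D.dg (cf m (f j)) j + ∑ j : S, ∑ l : S, PhiQ (f j) (f l) * D.s j l) =
      ∑ ce : Lab2 K → ZMod 2, Fh PhiQ ce * (e2 (∑ j : S, D.dg (cf m (f j)) j) *
        e2 (∑ j : S, ce (f j) * D.dg w j) *
        e2 (∑ j : S, ∑ l : S, Phi1 PhiQ (f j) (f l) * D.s j l)) := by
    intro f
    rw [exp_one D tw PhiQ PhiQ_self S f, e2_add, e2_add, four, mul_sum, mul_sum]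
    refine sum_congr rfl fun ce _ => ?_
    rw [sum_nl]
    ring
  simp only [h6]
  have hswap : ∑ f : S → Lab2 K, ∑ ce : Lab2 K → ZMod 2, Fh PhiQ ce *
      (e2 (∑ j : S, D.dg (cf m (f j)) j) * e2 (∑ j : S, ce (f j) * D.dg w j) *
        e2 (∑ j : S, ∑ l : S, Phi1 PhiQ (f j) (f l) * D.s j l)) =
    ∑ ce : Lab2 K → ZMod 2, ∑ f : S → Lab2 K, Fh PhiQ ce *
      (e2 (∑ j : S, D.dg (cf m (f j)) j) * e2 (∑ j : S, ce (f j) * D.dg w j) *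
        e2 (∑ j : S, ∑ l : S, Phi1 PhiQ (f j) (f l) * D.s j l)) := sum_comm
  rw [hswap, mul_sum, mul_sum]
  refine sum_congr rfl fun ce _ => ?_
  rw [← mul_sum]
  have h7 : ∀ f : S → Lab2 K, ∏ j : S, gk D (ccG cf w c0 m ce) (f j) j =
      ((2 ^ K : ℂ)⁻¹) ^ S.card * (e2 (∑ q ∈ S, D.dg c0 q) *
        (e2 (∑ j : S, D.dg (cf m (f j)) j) * e2 (∑ j : S, ce (f j) * D.dg w j))) := by
    intro f
    have h8 : ∀ j : S, gk D (ccG cf w c0 m ce) (f j) j = ((2 : ℂ) ^ K)⁻¹ *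
        e2 (D.dg c0 j + (D.dg (cf m (f j)) j + ce (f j) * D.dg w j)) := by
      intro j
      show ((2 : ℂ) ^ K)⁻¹ * e2 (D.dg (ccG cf w c0 m ce (f j)) j) = _
      rw [ccG, dg_add, dg_add, dg_smul, add_assoc]
    rw [prod_congr rfl fun j _ => h8 j, prod_mul_distrib, prod_const, card_univ,
      Fintype.card_coe, ← e2_sum, sum_add_distrib, sum_add_distrib, e2_add, e2_add,
      sum_coe_sort S (fun q => D.dg c0 q)]
  have h9 : ∀ f : S → Lab2 K, (∏ j : S, gk D (ccG cf w c0 m ce) (f j) j) *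
      e2 (∑ j : S, ∑ l : S, Phi1 PhiQ (f j) (f l) * D.s j l) =
      ((2 ^ K : ℂ)⁻¹) ^ S.card * e2 (∑ q ∈ S, D.dg c0 q) *
        (e2 (∑ j : S, D.dg (cf m (f j)) j) * e2 (∑ j : S, ce (f j) * D.dg w j) *
        e2 (∑ j : S, ∑ l : S, Phi1 PhiQ (f j) (f l) * D.s j l)) := by
    intro f
    rw [h7 f]
    ring
  unfold BF
  rw [sum_congr rfl fun f _ => h9 f, ← mul_sum]
  ring

end

end Pool.Agent.Lib.MP_1a91b9_ntDV
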