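import Pool.Agent.Lib.MP_1a91b9_ntV.DJ.LimV

set_option autoImplicit false
set_option linter.unusedSectionVars false

namespace Pool.Agent.Lib.MP_1a91b9_ntDV

open Finset Pool.Agent.Lib.MP_1a91b9_ntH Pool.Agent.Lib.MP_1a91b9_ntQ
open Pool.Agent.Lib.MP_1a91b9_ntQ.Da Pool.Agent.Lib.MP_1a91b9_ntV
open Pool.Agent.Lib.MP_1a91b9_ntM Pool.Agent.Lib.MP_1a91b9_ntV.DS Pool.Agent.Lib.MP_1a91b9_ntV.DJ

noncomputable section

open Filter Topology

variable {β : Type}

/-- A notion of mean value: `P f v` means that the mean value of `f` is `v`. -/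
structure LimP (P : (β → ℝ) → ℝ → Prop) : Prop where
  add : ∀ (f h : β → ℝ) (v w : ℝ), P f v → P h w → P (fun x => f x + h x) (v + w)
  smul : ∀ (f : β → ℝ) (v a : ℝ), P f v → P (fun x => a * f x) (a * v)
  bds : ∀ (f : β → ℝ) (v : ℝ), (∀ δ : ℝ, 0 < δ → ∃ (l u : β → ℝ) (vl vu : ℝ), P l vl ∧ P u vu ∧
    v - δ ≤ vl ∧ vu ≤ v + δ ∧ ∀ b, l b ≤ f b ∧ f b ≤ u b) → P f v

variable {P : (β → ℝ) → ℝ → Prop} {A : Type} [Fintype A] [DecidableEq A]

private structure P1_M (P : (β → ℝ) → ℝ → Prop) (f : β → ℝ) (v : ℝ) : Prop where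
  hP : LimP P
  h0 : P (fun _ => 0) 0
  h : P f v

private theorem P1_M.add {f h : β → ℝ} {v w : ℝ} (hf : P1_M P f v) (hh : P1_M P h w) :
    P1_M P (fun x => f x + h x) (v + w) := ⟨hf.hP, hf.h0, hf.hP.add _ _ _ _ hf.h hh.h⟩

private theorem P1_M.smul {f : β → ℝ} {v : ℝ} (hf : P1_M P f v) (a : ℝ) :
    P1_M P (fun x => a * f x) (a * v) := ⟨hf.hP, hf.h0, hf.hP.smul _ _ _ hf.h⟩

private theorem P1_M.congr {f h : β → ℝ} {v w : ℝ} (hf : P1_M P f v)
    (h1 : ∀ x, h x = f x) (h2 : w = v) : P1_M P h w := by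
  rw [h2, show h = f from funext h1]
  exact hf

private theorem P1_M.sum (hP : LimP P) (h0 : P (fun _ => 0) 0) {ι : Type} {f : ι → β → ℝ} {v : ι → ℝ} (s : Finset ι)
    (h : ∀ i ∈ s, P1_M P (f i) (v i)) : P1_M P (fun x => ∑ i ∈ s, f i x) (∑ i ∈ s, v i) := by
  classical
  induction s using Finset.induction_on with
  | empty => exact (P1_M.mk hP h0 h0).congr (fun _ => rfl) rfl
  | insert a s ha ih =>
    exact ((h a (mem_insert_self _ _)).add (ih fun i hi => h i (mem_insert_of_mem hi))).congr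
      (fun x => sum_insert ha) (sum_insert ha)

/-- **From the mean values of the products of the interpolation polynomials to the density.** -/
private theorem P1_prod (hP : LimP P) (h0 : P (fun _ => 0) 0) {x : A → β → ℕ} (hp : ∀ a b, ∃ r, x a b = 2 ^ r)
    {s : ℕ → ℝ} {c : ℝ} (hs : Tendsto s atTop (𝓝 c))
    (hm : ∀ Kf : A → ℕ, P1_M P (fun b => ∏ a, pK2 (Kf a) (x a b)) (∏ a, s (Kf a))) :
    P (fun b => ∏ a, if x a b = 1 then (1 : ℝ) else 0) (c ^ Fintype.card A) := by
  classical
  set n := Fintype.card A with hn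
  have t1 : Tendsto (fun N : ℕ => 2 * N + 1) atTop atTop :=
    tendsto_atTop_mono (fun N => by show N ≤ 2 * N + 1; omega) tendsto_id
  have t2 : Tendsto (fun N : ℕ => 2 * N) atTop atTop :=
    tendsto_atTop_mono (fun N => by show N ≤ 2 * N; omega) tendsto_id
  have t3 := hs.comp t1
  have t4 := hs.comp t2
  have t5 := ((t3.mul (t4.pow (n - 1))).const_mul (n : ℝ)).sub
    ((t4.pow n).const_mul ((n : ℝ) - 1))
  have t6 : (n : ℝ) * (c * c ^ (n - 1)) - (n - 1) * c ^ n = c ^ n := by
    rcases Nat.eq_zero_or_pos n with h0 | h0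
    · rw [h0]
      simp
    · obtain ⟨m, hm⟩ : ∃ m, n = m + 1 := ⟨n - 1, by omega⟩
      rw [hm, Nat.add_sub_cancel, pow_succ]
      push_cast
      ring
  rw [t6] at t5
  have t7 := t4.pow n
  refine hP.bds _ _ fun δ hδ => ?_
  obtain ⟨N, hN1, hN2⟩ := ((t5.eventually (lt_mem_nhds (by linarith : c ^ n - δ < c ^ n))).and
    (t7.eventually (gt_mem_nhds (by linarith : c ^ n < c ^ n + δ)))).exists
  have hodd : Odd (2 * N + 1) := ⟨N, rfl⟩
  have heven : Even (2 * N) := ⟨N, by ring⟩
  have hA : ∀ a, P1_M P (fun b => pK2 (2 * N + 1) (x a b) * ∏ c ∈ univ.erase a, pK2 (2 * N) (x c b))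
      (s (2 * N + 1) * s (2 * N) ^ (n - 1)) := by
    intro a
    refine (hm fun c => if c = a then 2 * N + 1 else 2 * N).congr (fun b => ?_) ?_
    · rw [← mul_prod_erase univ _ (mem_univ a), if_pos rfl]
      congr 1
      exact prod_congr rfl fun c hc => by rw [if_neg (ne_of_mem_erase hc)]
    · rw [← mul_prod_erase univ _ (mem_univ a), if_pos rfl]
      congr 1
      rw [prod_congr rfl fun c hc => by rw [if_neg (ne_of_mem_erase hc)], prod_const,
        card_erase_of_mem (mem_univ a), card_univ]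
  have hB : P1_M P (fun b => ∏ a, pK2 (2 * N) (x a b)) (s (2 * N) ^ n) := by
    refine (hm fun _ => 2 * N).congr (fun b => rfl) ?_
    rw [prod_const, card_univ]
  have hC := (P1_M.sum hP h0 univ fun a _ => hA a).add (hB.smul (-((n : ℝ) - 1)))
  refine ⟨_, _, _, _, hC.h, hB.h, ?_, hN2.le, fun b => ?_⟩
  · rw [sum_const, card_univ, nsmul_eq_mul]
    have h1 : c ^ n - δ < (n : ℝ) * (s (2 * N + 1) * s (2 * N) ^ (n - 1)) -
        ((n : ℝ) - 1) * s (2 * N) ^ n := hN1
    linarith
  · have hi : ∀ a, (0 : ℝ) ≤ if x a b = 1 then (1 : ℝ) else 0 := fun a => by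
      split_ifs <;> norm_num
    have hu : ∀ a, (if x a b = 1 then (1 : ℝ) else 0) ≤ pK2 (2 * N) (x a b) := by
      intro a
      split_ifs with h
      · rw [h, Nat.cast_one, pK2_one]
      · obtain ⟨r, hr⟩ := hp a b
        have hr0 : r ≠ 0 := by
          intro h0
          rw [h0, pow_zero] at hr
          exact h hr
        rw [hr]
        push_cast
        exact (pK2_pow (2 * N) r hr0).2 heven
    have hl : ∀ a, pK2 (2 * N + 1) (x a b) ≤ if x a b = 1 then (1 : ℝ) else 0 := by
      intro a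
      split_ifs with h
      · rw [h, Nat.cast_one, pK2_one]
      · obtain ⟨r, hr⟩ := hp a b
        have hr0 : r ≠ 0 := by
          intro h0
          rw [h0, pow_zero] at hr
          exact h hr
        rw [hr]
        push_cast
        exact (pK2_pow (2 * N + 1) r hr0).1 hodd
    have h3 := bonf (fun a => pK2 (2 * N) (x a b)) (fun a => if x a b = 1 then (1 : ℝ) else 0)
      (fun a => pK2 (2 * N + 1) (x a b)) hi hu hl
    rw [← hn] at h3
    constructor
    · show ∑ a, pK2 (2 * N + 1) (x a b) * ∏ c ∈ univ.erase a, pK2 (2 * N) (x c b) +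
        -((n : ℝ) - 1) * ∏ a, pK2 (2 * N) (x a b) ≤ _
      linarith
    · exact prod_le_prod (fun a _ => hi a) fun a _ => hu a

/-- The mean values of the products, one variable at a time. -/
private theorem P1_gen {x : A → β → ℝ} {ν s : ℕ → ℝ}
    (hpK : ∀ (f y : β → ℝ) (w : ℝ), (∀ k, P1_M P (fun b => f b * y b ^ k) (w * ν k)) →
      ∀ K, P1_M P (fun b => f b * pK2 K (y b)) (w * s K))
    (hm : ∀ k : A → ℕ, P1_M P (fun b => ∏ a, x a b ^ k a) (∏ a, ν (k a))) (Kf : A → ℕ) :
    P1_M P (fun b => ∏ a, pK2 (Kf a) (x a b)) (∏ a, s (Kf a)) := by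
  have key : ∀ (t : Finset A) (k : A → ℕ), P1_M P
      (fun b => (∏ a ∈ t, pK2 (Kf a) (x a b)) * ∏ a ∈ univ \ t, x a b ^ k a)
      ((∏ a ∈ t, s (Kf a)) * ∏ a ∈ univ \ t, ν (k a)) := by
    intro t
    induction t using Finset.induction_on with
    | empty =>
      intro k
      refine (hm k).congr (fun b => ?_) ?_
      · rw [prod_empty, one_mul, sdiff_empty]
      · rw [prod_empty, one_mul, sdiff_empty]
    | insert a t ha ih =>
      intro k
      have hins : univ \ t = insert a (univ \ insert a t) := by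
        ext b
        rw [Finset.mem_sdiff, Finset.mem_insert, Finset.mem_sdiff, Finset.mem_insert]
        by_cases hb : b = a
        · subst hb
          simp [ha]
        · simp [hb]
      have hna : a ∉ univ \ insert a t := by
        simp
      have h1 : ∀ j : ℕ, P1_M P (fun b => ((∏ a ∈ t, pK2 (Kf a) (x a b)) *
          ∏ a ∈ univ \ insert a t, x a b ^ k a) * x a b ^ j)
          (((∏ a ∈ t, s (Kf a)) * ∏ a ∈ univ \ insert a t, ν (k a)) * ν j) := by
        intro j
        refine (ih (Function.update k a j)).congr (fun b => ?_) ?_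
        · rw [hins, prod_insert hna, Function.update_self]
          have h2 : ∏ c ∈ univ \ insert a t, x c b ^ Function.update k a j c =
              ∏ c ∈ univ \ insert a t, x c b ^ k c :=
            prod_congr rfl fun c hc => by
              have hca : c ≠ a := by
                intro h
                rw [h] at hc
                exact hna hc
              rw [Function.update_of_ne hca]
          rw [h2]
          ring
        · rw [hins, prod_insert hna, Function.update_self]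
          have h2 : ∏ c ∈ univ \ insert a t, ν (Function.update k a j c) =
              ∏ c ∈ univ \ insert a t, ν (k c) :=
            prod_congr rfl fun c hc => by
              have hca : c ≠ a := by
                intro h
                rw [h] at hc
                exact hna hc
              rw [Function.update_of_ne hca]
          rw [h2]
          ring
      refine (hpK _ _ _ h1 (Kf a)).congr (fun b => ?_) ?_
      · rw [prod_insert ha]
        ring
      · rw [prod_insert ha]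
        ring
  refine (key univ fun _ => 0).congr (fun b => ?_) ?_
  · rw [Finset.sdiff_self, prod_empty, mul_one]
  · rw [Finset.sdiff_self, prod_empty, mul_one]

private theorem P1_VFj (f y : β → ℝ) (w : ℝ)
    (hm : ∀ k, P1_M P (fun b => f b * y b ^ k) (w * gN k 0)) (j : ℕ) :
    ∀ m : ℕ, P1_M P (fun b => f b * (y b ^ m * Fj2 j (y b))) (w * gN m j) := by
  induction j with
  | zero =>
    intro m
    refine (hm m).congr (fun x => ?_) rfl
    simp [Fj2]
  | succ j ih =>
    intro m
    refine ((ih (m + 1)).add ((ih m).smul (-(2 ^ j)))).congr (fun x => ?_) ?_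
    · rw [Fj2, prod_range_succ, ← Fj2]
      ring
    · rw [gN_succ]
      push_cast
      ring

private theorem P1_VpK (f y : β → ℝ) (w : ℝ)
    (hm : ∀ k, P1_M P (fun b => f b * y b ^ k) (w * gN k 0)) (K : ℕ) :
    P1_M P (fun b => f b * pK2 K (y b)) (w * sV K) := by
  induction K with
  | zero =>
    refine (hm 0).congr (fun x => ?_) ?_
    · simp [pK2]
    · simp [sV, gN_zero]
  | succ K ih =>
    refine (ih.add ((P1_VFj f y w hm (K + 1) 0).smul
      ((-1) ^ (K + 1) / ∏ i ∈ range (K + 1), (2 ^ (i + 1) - 1)))).congr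
      (fun b => ?_) ?_
    · rw [pK2_succ]
      ring
    · rw [sV, sum_range_succ, ← sV]
      simp [gN_zero]
      ring

private theorem P1_Fj {f : β → ℝ} {x : β → ℝ} {w : ℝ}
    (hm : ∀ k, P1_M P (fun b => f b * x b ^ k) (w * Nk2 k)) (j : ℕ) :
    ∀ m : ℕ, P1_M P (fun b => f b * (x b ^ m * Fj2 j (x b)))
      (w * (Tj2 j * 2 ^ (j * m) * Nk2 m)) := by
  induction j with
  | zero =>
    intro m
    refine (hm m).congr (fun x => ?_) ?_
    · simp [Fj2]
    · simp [Tj2]
  | succ j ih =>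
    intro m
    refine ((ih (m + 1)).add ((ih m).smul (-(2 ^ j)))).congr (fun x => ?_) ?_
    · rw [Fj2, prod_range_succ, ← Fj2]
      ring
    · rw [Nk2_succ']
      have e1 : (2 : ℝ) ^ (j * (m + 1)) = 2 ^ (j * m) * 2 ^ j := by rw [← pow_add]; ring_nf
      have e2 : (2 : ℝ) ^ ((j + 1) * m) = 2 ^ (j * m) * 2 ^ m := by rw [← pow_add]; ring_nf
      have e4 : Tj2 (j + 1) = Tj2 j * 2 ^ j := by rw [Tj2, prod_range_succ, Tj2]
      rw [e1, e2, e4]
      ring

private theorem P1_pK {f : β → ℝ} {x : β → ℝ} {w : ℝ}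
    (hm : ∀ k, P1_M P (fun b => f b * x b ^ k) (w * Nk2 k)) (K : ℕ) :
    P1_M P (fun b => f b * pK2 K (x b)) (w * sK2 K) := by
  induction K with
  | zero =>
    refine (hm 0).congr (fun x => ?_) ?_
    · simp [pK2]
    · simp [sK2, Nk2, Tj2]
  | succ K ih =>
    refine (ih.add ((P1_Fj hm (K + 1) 0).smul
      ((-1) ^ (K + 1) / ∏ i ∈ range (K + 1), (2 ^ (i + 1) - 1)))).congr
      (fun b => ?_) ?_
    · rw [pK2_succ]
      ring
    · rw [sK2, sum_range_succ, ← sK2]
      simp [Nk2]
      ring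

/-- **P1** (medium-, a copy with another notion of mean value; the whole file). Finite sums. -/
theorem LimP.sum (hP : LimP P) {α : Type} (s : Finset α) {f : α → β → ℝ} {v : α → ℝ}
    (h : ∀ i ∈ s, P (f i) (v i)) (h0 : P (fun _ => 0) 0) :
    P (fun x => ∑ i ∈ s, f i x) (∑ i ∈ s, v i) := by
  exact (P1_M.sum hP h0 s fun i hi => ⟨hP, h0, h i hi⟩).h

/-- From the joint moments to the density, `ℚ(√-7)`. Proof: copy `WV_prod`, `MV_prod_gen`, `MVV_Fj`, `MVV_pK`,
`WV_gN` of MP_1a91b9_ntV/DJ/LimV.lean with `P` in place of `MV B` and of `WV B`: they use only `MV.add`,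
`MV.smul`, `MV.sum`, `MV.congr` and `WV.of_bounds`, which are `hP.add`, `hP.smul`, `hP.sum`, rewriting of the
function (`funext`) and `hP.bds`. (`P (fun _ => 0) 0` follows from `hP.smul` with `a = 0` and any `P f v`, for
example the moment `k = 0`.) -/
theorem LimP.gN (hP : LimP P) {x : A → β → ℕ} (hp : ∀ a b, ∃ r, x a b = 2 ^ r)
    (hm : ∀ k : A → ℕ, P (fun b => ∏ a, (x a b : ℝ) ^ k a) (∏ a, (gN (k a) 0 : ℝ))) :
    P (fun b => ∏ a, if x a b = 1 then (1 : ℝ) else 0) (cinfV ^ Fintype.card A) := by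
  have h0 : P (fun _ => 0) 0 := by
    have h1 := hP.smul _ _ 0 (hm fun _ => 0)
    rw [zero_mul, show (fun b => 0 * ∏ a : A, (x a b : ℝ) ^ 0) = (fun _ : β => (0 : ℝ)) from
      funext fun b => zero_mul _] at h1
    exact h1
  exact P1_prod hP h0 hp tendsto_sV fun Kf => P1_gen (ν := fun k => (Pool.Agent.Lib.MP_1a91b9_ntV.DS.gN k 0 : ℝ)) (s := sV) P1_VpK
    (fun k => ⟨hP, h0, hm k⟩) Kf

/-- The same for the moments of the symmetric matrices, `ℚ(√-2)`: copy `WV_Nk` (and `MV_pK`, `MV_Fj` of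
MP_1a91b9_ntM/DJ/Lim.lean). -/
theorem LimP.Nk (hP : LimP P) {x : A → β → ℕ} (hp : ∀ a b, ∃ r, x a b = 2 ^ r)
    (hm : ∀ k : A → ℕ, P (fun b => ∏ a, (x a b : ℝ) ^ k a) (∏ a, (Nk2 (k a) : ℝ))) :
    P (fun b => ∏ a, if x a b = 1 then (1 : ℝ) else 0) (cinf2 ^ Fintype.card A) := by
  have h0 : P (fun _ => 0) 0 := by
    have h1 := hP.smul _ _ 0 (hm fun _ => 0)
    rw [zero_mul, show (fun b => 0 * ∏ a : A, (x a b : ℝ) ^ 0) = (fun _ : β => (0 : ℝ)) from
      funext fun b => zero_mul _] at h1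
    exact h1
  exact P1_prod hP h0 hp tendsto_sK2 fun Kf => P1_gen (ν := fun k => (Nk2 k : ℝ)) (s := sK2)
    (fun f y w h K => P1_pK (f := f) (x := y) (w := w) h K) (fun k => ⟨hP, h0, hm k⟩) Kf

end

end Pool.Agent.Lib.MP_1a91b9_ntDV
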