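import Pool.Agent.Lib.MP_1a91b9_ntV.D.ClsN

/-!
# MP_1a91b9_nt (the divisor law), block E: definitions

For a function `F` on the finite sets of primes, `avg F S` is its mean value over the subsets of `S`. `AV F v`:
the mean square of `avg F S - v` over the `S` with `nm S ≤ X` tends to zero. `BF D Phi g T` is the sum over the
labellings of `T`.
-/

set_option autoImplicit false
set_option linter.unusedSectionVars false

namespace Pool.Agent.Lib.MP_1a91b9_ntDV

open Finset Pool.Agent.Lib.MP_1a91b9_ntH Pool.Agent.Lib.MP_1a91b9_ntQ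
open Pool.Agent.Lib.MP_1a91b9_ntQ.Da Pool.Agent.Lib.MP_1a91b9_ntV

noncomputable section

/-! ### Mean values over the subsets -/

section Avg

variable {ι : Type}

/-- The mean value over the subsets of `S`. -/
def avg (F : Finset ι → ℂ) (S : Finset ι) : ℂ := (∑ T ∈ S.powerset, F T) / 2 ^ S.card

/-- The same for real functions. -/
def avr (F : Finset ι → ℝ) (S : Finset ι) : ℝ := (∑ T ∈ S.powerset, F T) / 2 ^ S.card

variable [DecidableEq ι] [PS ι]

/-- The mean values over the subsets of `S` are `v` for almost all `S`, in the mean square. -/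
def AV (F : Finset ι → ℂ) (v : ℂ) : Prop :=
  ∀ ε : ℝ, 0 < ε → ∃ X₀ : ℕ, ∀ X : ℕ, X₀ ≤ X →
    ∑ S ∈ Sx ι X, ‖avg F S - v‖ ^ 2 ≤ ε * ((Sx ι X).card + X)

/-- The same for real functions. -/
def AVr (F : Finset ι → ℝ) (v : ℝ) : Prop :=
  ∀ ε : ℝ, 0 < ε → ∃ X₀ : ℕ, ∀ X : ℕ, X₀ ≤ X →
    ∑ S ∈ Sx ι X, (avr F S - v) ^ 2 ≤ ε * ((Sx ι X).card + X)

end Avg

/-! ### The sums over the labellings -/

section BF

variable {ι : Type} {κ : Type} {L M : Type} [Fintype L] [Fintype M]

/-- The sum over the labellings of `T`. -/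
def BF [DecidableEq ι] (D : Dat2 ι κ) (Phi : L → L → ZMod 2) (g : L → ι → ℂ) (T : Finset ι) : ℂ :=
  ∑ f : T → L, (∏ j : T, g (f j) j) * e2 (∑ j : T, ∑ l : T, Phi (f j) (f l) * D.s j l)

/-- The exponents with the label `none` (the primes outside of the subset). -/
def Po (Phi : L → L → ZMod 2) : Option L → Option L → ZMod 2
  | some l, some m => Phi l m
  | _, _ => 0

/-- The weights with the label `none`. -/
def go (g : L → ι → ℂ) : Option L → ι → ℂ
  | none, _ => 1 / 2
  | some l, q => g l q / 2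

/-- The exponents of a product. -/
def Px (Phi : L → L → ZMod 2) (Psi : M → M → ZMod 2) (x y : L × M) : ZMod 2 :=
  Phi x.1 y.1 + Psi x.2 y.2

/-- The weights of a product. -/
def gx (g : L → ι → ℂ) (h : M → ι → ℂ) (x : L × M) (q : ι) : ℂ := g x.1 q * h x.2 q

end BF

/-! ### The label system of the second moment -/

variable {ι : Type} {κ : Type} [Fintype κ] {k k' : ℕ}

/-- The weights of the labels `(x, y)`. -/
def gk (D : Dat2 ι κ) (cc : Lab2 k → κ → ZMod 2) (l : Lab2 k) (q : ι) : ℂ :=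
  ((2 : ℂ) ^ k)⁻¹ * e2 (D.dg (cc l) q)

/-- The labels of the second moment. -/
abbrev LP (k k' : ℕ) : Type := Option (Lab2 k) × Option (Lab2 k')

/-- The exponents of the second moment, before the reciprocity law. -/
def PP (k k' : ℕ) : LP k k' → LP k k' → ZMod 2 :=
  Px (Po (Phi1 (PhiQ (k := k)))) (Po (Phi1 (PhiQ (k := k'))))

/-- The size of the weight of a label. -/
def hk (k : ℕ) : Option (Lab2 k) → ℝ
  | none => 1 / 2
  | some _ => ((2 : ℝ) ^ k)⁻¹ / 2

/-- The size of the weight of a pair of labels. -/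
def nP (k k' : ℕ) (x : LP k k') : ℝ := hk k x.1 * hk k' x.2

/-- The label system of the second moment with the class vectors `c`. -/
def LPs (D : Dat2 ι κ) (k k' : ℕ) (c : LP k k' → κ → ZMod 2) : LG (LP k k') ι where
  Phi := Phi1 (PP k k')
  g := fun x q => (nP k k' x : ℂ) * e2 (D.dg (c x) q)

/-- The link of two labels of the first or second kind. -/
def Qo (k : ℕ) : Option (Lab2 k) → Option (Lab2 k) → ZMod 2
  | some l, some m => Q2 (l - m)
  | _, _ => 0

open Classical in
/-- The maximal unlinked sets. -/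
def UsP (k k' : ℕ) : Finset (Finset (LP k k')) :=
  (UsN k ×ˢ UsN k').image fun U => insertNone U.1 ×ˢ insertNone U.2

open Classical in
/-- The mean value of a maximal unlinked set. -/
def mP (c : LP k k' → κ → ZMod 2) (U : Finset (LP k k')) : ℂ := if ∀ x ∈ U, c x = 0 then 1 else 0

/-- The number `M` of the system. -/
def MP (k k' : ℕ) : ℕ := 8 * 2 ^ (k + k')

/-- The class vectors of an option. -/
def co (cc : Lab2 k → κ → ZMod 2) : Option (Lab2 k) → κ → ZMod 2
  | none => 0
  | some l => cc l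

/-- The mean value of the one-sided sum with the class vectors `cc`. -/
def mv (cc : Lab2 k → κ → ZMod 2) : ℂ := ∑ U ∈ UsN k, iN cc U

/-! ### Basic facts -/

theorem PP_self (x : LP k k') : PP k k' x x = 0 := by
  have h : ∀ (n : ℕ) (o : Option (Lab2 n)), Po (Phi1 (PhiQ (k := n))) o o = 0 := by
    intro n o
    cases o with
    | none => rfl
    | some l => exact Phi1_self _ l
  show Po _ x.1 x.1 + Po _ x.2 x.2 = 0
  rw [h, h, add_zero]

theorem PP_lk (x y : LP k k') : PP k k' x y + PP k k' y x = Qo k x.1 y.1 + Qo k' x.2 y.2 := by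
  have h : ∀ (n : ℕ) (o p : Option (Lab2 n)),
      Po (Phi1 (PhiQ (k := n))) o p + Po (Phi1 (PhiQ (k := n))) p o = Qo n o p := by
    intro n o p
    cases o with
    | none => cases p <;> exact add_zero _
    | some l =>
      cases p with
      | none => exact add_zero _
      | some m =>
        show Phi1 PhiQ l m + Phi1 PhiQ m l = Q2 (l - m)
        rw [Phi1_lk, PhiQ_add]
  show (Po _ x.1 y.1 + Po _ x.2 y.2) + (Po _ y.1 x.1 + Po _ y.2 x.2) = _
  rw [← h, ← h]
  ring

theorem LPs_lk (D : Dat2 ι κ) (c : LP k k' → κ → ZMod 2) (x y : LP k k') :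
    (LPs D k k' c).lk x y = Qo k x.1 y.1 + Qo k' x.2 y.2 := by
  show Phi1 (PP k k') x y + Phi1 (PP k k') y x = _
  rw [Phi1_lk, PP_lk]

theorem hk_pos (k : ℕ) (o : Option (Lab2 k)) : 0 < hk k o := by
  cases o with
  | none => show (0 : ℝ) < 1 / 2; norm_num
  | some l => show (0 : ℝ) < ((2 : ℝ) ^ k)⁻¹ / 2; positivity

theorem nP_pos (x : LP k k') : 0 < nP k k' x := mul_pos (hk_pos k _) (hk_pos k' _)

theorem norm_gP (D : Dat2 ι κ) (c : LP k k' → κ → ZMod 2) (x : LP k k') (q : ι) :
    ‖(LPs D k k' c).g x q‖ = nP k k' x := by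
  show ‖(nP k k' x : ℂ) * e2 (D.dg (c x) q)‖ = _
  rw [norm_mul, norm_e2, mul_one, Complex.norm_real, Real.norm_eq_abs, abs_of_pos (nP_pos x)]

theorem mem_UsP {U : Finset (LP k k')} :
    U ∈ UsP k k' ↔ ∃ A ∈ UsN k, ∃ B ∈ UsN k', insertNone A ×ˢ insertNone B = U := by
  classical
  unfold UsP
  rw [mem_image]
  constructor
  · rintro ⟨⟨A, B⟩, h, e⟩
    rw [mem_product] at h
    exact ⟨A, h.1, B, h.2, e⟩
  · rintro ⟨A, hA, B, hB, e⟩
    exact ⟨(A, B), mem_product.2 ⟨hA, hB⟩, e⟩

theorem mem_io {n : ℕ} {A : Finset (Lab2 n)} {o : Option (Lab2 n)} :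
    o ∈ insertNone A ↔ ∀ l, o = some l → l ∈ A := by
  rw [Finset.mem_insertNone]
  exact ⟨fun h l hl => h l (by rw [hl]; exact Option.mem_some_self l), fun h l hl => h l hl⟩

end

end Pool.Agent.Lib.MP_1a91b9_ntDV
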