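import Pool.Agent.Lib.MP_1a91b9_ntDV.E0

set_option autoImplicit false
set_option linter.unusedSectionVars false

namespace Pool.Agent.Lib.MP_1a91b9_ntDV

open Finset Pool.Agent.Lib.MP_1a91b9_ntH Pool.Agent.Lib.MP_1a91b9_ntQ
open Pool.Agent.Lib.MP_1a91b9_ntQ.Da Pool.Agent.Lib.MP_1a91b9_ntV

noncomputable section

variable {ι : Type} [DecidableEq ι] {κ : Type} {L : Type} [Fintype L]

/-- the extension by `none` -/
private def E1_ext (T : Finset ι) (f : T → L) (j : ι) : Option L := if h : j ∈ T then some (f ⟨j, h⟩) else none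

private theorem E1_pos (T : Finset ι) (f : T → L) (j : T) : E1_ext T f j = some (f j) := by
  unfold E1_ext
  rw [dif_pos j.2]

private theorem E1_neg (T : Finset ι) (f : T → L) (j : ι) (h : j ∉ T) : E1_ext T f j = none := by
  unfold E1_ext
  rw [dif_neg h]

private theorem E1_mem (T : Finset ι) (f : T → L) (j : ι) : j ∈ T ↔ E1_ext T f j ≠ none := by
  constructor
  · intro h
    have := E1_pos T f ⟨j, h⟩
    rw [show ((⟨j, h⟩ : T) : ι) = j from rfl] at this
    rw [this]
    exact Option.some_ne_none _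
  · intro h
    by_contra h2
    exact h (E1_neg T f j h2)

private theorem E1_Po_left (Phi : L → L → ZMod 2) (o : Option L) : Po Phi none o = 0 := by
  cases o <;> rfl

private theorem E1_Po_right (Phi : L → L → ZMod 2) (o : Option L) : Po Phi o none = 0 := by
  cases o <;> rfl

private theorem E1_prod (g : L → ι → ℂ) {S T : Finset ι} (hT : T ⊆ S) (f : T → L) :
    ∏ j : S, go g (E1_ext T f j) j = (1 / 2) ^ S.card * ∏ j : T, g (f j) j := by
  obtain ⟨F, hF⟩ : ∃ F : ι → ℂ, F = fun j => if h : j ∈ T then g (f ⟨j, h⟩) j else 1 := ⟨_, rfl⟩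
  have h1 : ∀ j : ι, go g (E1_ext T f j) j = (1 / 2) * F j := by
    intro j
    rw [hF]
    by_cases h : j ∈ T
    · have h2 : E1_ext T f j = some (f ⟨j, h⟩) := E1_pos T f ⟨j, h⟩
      rw [h2]
      show g (f ⟨j, h⟩) j / 2 = 1 / 2 * (if h : j ∈ T then g (f ⟨j, h⟩) j else 1)
      rw [dif_pos h]
      ring
    · rw [E1_neg T f j h]
      show (1 : ℂ) / 2 = 1 / 2 * (if h : j ∈ T then g (f ⟨j, h⟩) j else 1)
      rw [dif_neg h, mul_one]
  have h2 : ∏ j : S, go g (E1_ext T f j) j = ∏ j : S, ((1 / 2) * F j) :=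
    Finset.prod_congr rfl fun j _ => h1 j
  rw [h2, Finset.prod_mul_distrib, Finset.prod_const, Finset.card_univ, Fintype.card_coe]
  congr 1
  rw [Finset.prod_coe_sort S F, ← Finset.prod_subset hT, ← Finset.prod_coe_sort T F]
  · refine Finset.prod_congr rfl fun j _ => ?_
    rw [hF]
    show (if h : (j : ι) ∈ T then g (f ⟨j, h⟩) j else 1) = g (f j) j
    rw [dif_pos j.2]
  · intro j _ h
    rw [hF]
    exact dif_neg h

private theorem E1_sum (D : Dat2 ι κ) (Phi : L → L → ZMod 2) {S T : Finset ι} (hT : T ⊆ S) (f : T → L) :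
    ∑ j : S, ∑ l : S, Po Phi (E1_ext T f j) (E1_ext T f l) * D.s j l =
      ∑ j : T, ∑ l : T, Phi (f j) (f l) * D.s j l := by
  obtain ⟨E, hE⟩ : ∃ E : ι → ι → ZMod 2, E = fun j l => Po Phi (E1_ext T f j) (E1_ext T f l) * D.s j l :=
    ⟨_, rfl⟩
  have h1 : ∀ j : ι, ∑ l : S, E j l = ∑ l ∈ T, E j l := by
    intro j
    rw [Finset.sum_coe_sort S (fun l => E j l)]
    symm
    apply Finset.sum_subset hT
    intro l _ h
    rw [hE]
    show Po Phi (E1_ext T f j) (E1_ext T f l) * D.s j l = 0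
    rw [E1_neg T f l h, E1_Po_right, zero_mul]
  have h2 : ∑ j : S, ∑ l : S, E j l = ∑ j ∈ T, ∑ l ∈ T, E j l := by
    rw [Finset.sum_congr rfl fun (j : S) _ => h1 j, Finset.sum_coe_sort S (fun j => ∑ l ∈ T, E j l)]
    symm
    apply Finset.sum_subset hT
    intro j _ h
    refine Finset.sum_eq_zero fun l _ => ?_
    rw [hE]
    show Po Phi (E1_ext T f j) (E1_ext T f l) * D.s j l = 0
    rw [E1_neg T f j h, E1_Po_left, zero_mul]
  have h3 : ∑ j : T, ∑ l : T, Phi (f j) (f l) * D.s j l = ∑ j ∈ T, ∑ l ∈ T, E j l := by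
    rw [← Finset.sum_coe_sort T (fun j => ∑ l ∈ T, E j l)]
    refine Finset.sum_congr rfl fun j _ => ?_
    rw [← Finset.sum_coe_sort T (fun l => E j l)]
    refine Finset.sum_congr rfl fun l _ => ?_
    rw [hE]
    show Phi (f j) (f l) * D.s j l = Po Phi (E1_ext T f j) (E1_ext T f l) * D.s j l
    rw [E1_pos, E1_pos]
    rfl
  rw [h3, ← h2, hE]

/-- **E1** (medium-). The mean value over the subsets is a sum over the labellings with one more label.
Proof. `BF D (Po Phi) (go g) S` is the sum over `f : S → Option L` of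
`(∏ j : S, go g (f j) j) * e2 (∑ j : S, ∑ l : S, Po Phi (f j) (f l) * D.s j l)`. Sort the `f` by the set
`T = {j ∈ S | f j ≠ none}` (`Finset.sum_fiberwise_of_maps_to` to `S.powerset`). For fixed `T ⊆ S` the `f` are in
bijection with the `f' : T → L` (`Finset.sum_bij'` or an `Equiv`): `f j = some (f' ⟨j, hj⟩)` for `j ∈ T` and
`none` outside. The product is `(1 / 2) ^ S.card * ∏ j : T, g (f' j) j` because every factor has the factor
`1 / 2` (`go g (some l) q = g l q / 2`, `go g none q = 1 / 2`), and in the exponent the terms with `j ∉ T` or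
`l ∉ T` are zero (`Po Phi none _ = 0`). For the passage between sums over `S` (as a type) and `T` use
`Finset.sum_coe_sort`, `Finset.sum_attach` or `Finset.sum_subtype`. It can be easier to extend functions by a
default value: if `L` is empty both sides have only `f` with `T = ∅`. -/
theorem avg_BF (D : Dat2 ι κ) (Phi : L → L → ZMod 2) (g : L → ι → ℂ) (S : Finset ι) :
    avg (BF D Phi g) S = BF D (Po Phi) (go g) S := by
  unfold avg
  have hbij : ∑ T ∈ S.powerset, BF D Phi g T =
      ∑ p ∈ S.powerset.sigma (fun T => (Finset.univ : Finset (T → L))),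
        (∏ j : p.1, g (p.2 j) j) * e2 (∑ j : p.1, ∑ l : p.1, Phi (p.2 j) (p.2 l) * D.s j l) := by
    rw [Finset.sum_sigma]
    rfl
  rw [hbij, Finset.sum_div]
  unfold BF
  refine Finset.sum_bij (fun p _ => fun j : S => E1_ext p.1 p.2 j) (fun p _ => Finset.mem_univ _) ?_ ?_ ?_
  · rintro ⟨T, f⟩ hp ⟨T', f'⟩ hp' h
    rw [Finset.mem_sigma, Finset.mem_powerset] at hp hp'
    have hext : ∀ j ∈ S, E1_ext T f j = E1_ext T' f' j := fun j hj => congrFun h ⟨j, hj⟩
    have hTT : T = T' := by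
      ext j
      constructor
      · intro hj
        rw [E1_mem T' f', ← hext j (hp.1 hj)]
        exact (E1_mem T f j).1 hj
      · intro hj
        rw [E1_mem T f, hext j (hp'.1 hj)]
        exact (E1_mem T' f' j).1 hj
    subst hTT
    have hff : f = f' := by
      funext j
      have h1 := hext j (hp.1 j.2)
      rw [E1_pos, E1_pos] at h1
      exact Option.some.inj h1
    rw [hff]
  · intro f _
    classical
    obtain ⟨T, hTdef⟩ : ∃ T : Finset ι, T =
        ((Finset.univ : Finset S).filter fun j => f j ≠ none).map (Function.Embedding.subtype _) := ⟨_, rfl⟩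
    have hmem : ∀ x, x ∈ T ↔ ∃ h : x ∈ S, f ⟨x, h⟩ ≠ none := by
      intro x
      rw [hTdef, Finset.mem_map]
      constructor
      · rintro ⟨j, hj, rfl⟩
        exact ⟨j.2, (Finset.mem_filter.1 hj).2⟩
      · rintro ⟨h, hx⟩
        exact ⟨⟨x, h⟩, Finset.mem_filter.2 ⟨Finset.mem_univ _, hx⟩, rfl⟩
    have hTS : T ⊆ S := fun x hx => ((hmem x).1 hx).1
    have hch : ∀ j : T, ∃ l, f ⟨j, hTS j.2⟩ = some l := by
      intro j
      exact Option.ne_none_iff_exists'.1 ((hmem j).1 j.2).2
    choose f' hf' using hch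
    refine ⟨⟨T, f'⟩, Finset.mem_sigma.2 ⟨Finset.mem_powerset.2 hTS, Finset.mem_univ _⟩, ?_⟩
    funext j
    show E1_ext T f' j = f j
    by_cases h : (j : ι) ∈ T
    · have h1 := E1_pos T f' ⟨j, h⟩
      rw [← hf' ⟨j, h⟩] at h1
      exact h1
    · rw [E1_neg T f' j h]
      by_contra h2
      exact h ((hmem j).2 ⟨j.2, fun h3 => h2 h3.symm⟩)
  · rintro ⟨T, f⟩ hp
    rw [Finset.mem_sigma, Finset.mem_powerset] at hp
    show (∏ j : T, g (f j) j) * e2 (∑ j : T, ∑ l : T, Phi (f j) (f l) * D.s j l) / 2 ^ S.card =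
      (∏ j : S, go g (E1_ext T f j) j) *
        e2 (∑ j : S, ∑ l : S, Po Phi (E1_ext T f j) (E1_ext T f l) * D.s j l)
    rw [E1_prod g hp.1 f, E1_sum D Phi hp.1 f, one_div, inv_pow]
    ring

end

end Pool.Agent.Lib.MP_1a91b9_ntDV
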