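import Pool.Agent.Lib.MP_1a91b9_ntDV.E9

set_option autoImplicit false
set_option linter.unusedSectionVars false

namespace Pool.Agent.Lib.MP_1a91b9_ntDV

open Finset Pool.Agent.Lib.MP_1a91b9_ntH Pool.Agent.Lib.MP_1a91b9_ntQ
open Pool.Agent.Lib.MP_1a91b9_ntQ.Da Pool.Agent.Lib.MP_1a91b9_ntV

noncomputable section

variable {ι : Type} [DecidableEq ι] [PS ι]

private theorem E10_small (δ K B ε : ℝ) (hδ : 0 < δ) (hK : 0 < K) (hB : 1 ≤ B) (hε : 0 < ε) :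
    ∃ X₀ : ℕ, ∀ X : ℕ, X₀ ≤ X → K * X * Real.log X ^ (-δ) * B ^ δ ≤ ε * X := by
  have h1 : Filter.Tendsto (fun X : ℕ => Real.log (X : ℝ) ^ (-δ)) Filter.atTop (nhds 0) :=
    (tendsto_rpow_neg_atTop hδ).comp
      (Real.tendsto_log_atTop.comp tendsto_natCast_atTop_atTop)
  have hP : 0 < K * B ^ δ := mul_pos hK (Real.rpow_pos_of_pos (by linarith) _)
  have h2 : ∀ᶠ X : ℕ in Filter.atTop, Real.log (X : ℝ) ^ (-δ) < ε / (K * B ^ δ) :=
    h1.eventually (gt_mem_nhds (div_pos hε hP))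
  obtain ⟨X₀, h3⟩ := Filter.eventually_atTop.1 h2
  refine ⟨X₀, fun X hX => ?_⟩
  have h4 := h3 X hX
  rw [lt_div_iff₀ hP] at h4
  have h5 : K * X * Real.log X ^ (-δ) * B ^ δ = (Real.log (X : ℝ) ^ (-δ) * (K * B ^ δ)) * X := by
    ring
  rw [h5]
  exact mul_le_mul_of_nonneg_right h4.le (Nat.cast_nonneg X)

/-- **E10** (medium-). The number of subsets grows for almost all `S`: the mean square of `1 / 2 ^ #S` is small.
Proof. `((1 / 2) ^ #S) ^ 2 = ∏ q ∈ S, 1 / 4`; `ub2 h1 h2 2 le_rfl` (`m = 2`) with `ψ = 0` (`SumB.zero`, `B = 1`) and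
`w = 1 / 4 ≤ ((2 - 1) + 0) / 2`: the sum is at most `K * X * log X ^ (-1 / 2) * 1`, and `log X ^ (-1 / 2) → 0` (see
`v_small` in MP_1a91b9_ntV/D/SysN.lean, private, copy it). -/
theorem sum_quarter {C1 C2 : ℝ} (h1 : Cheb ι C1) (h2 : Zt ι C2) (ε : ℝ) (hε : 0 < ε) :
    ∃ X₀ : ℕ, ∀ X : ℕ, X₀ ≤ X → ∑ S ∈ Sx ι X, (((1 : ℝ) / 2) ^ S.card) ^ 2 ≤ ε * X := by
  obtain ⟨K, hK, hu⟩ := ub2 h1 h2 2 le_rfl
  obtain ⟨X₀, hX₀⟩ := E10_small (1 / ((2 : ℕ) : ℝ)) K 1 ε (by norm_num) hK le_rfl hε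
  refine ⟨max X₀ 2, fun X hX => ?_⟩
  have h3 := hu (fun _ => 0) 1 SumB.zero (fun _ => 1 / 4) (fun q => by norm_num) X
    ((le_max_right _ _).trans hX)
  have h4 := hX₀ X ((le_max_left _ _).trans hX)
  refine le_trans (le_of_eq ?_) (h3.trans h4)
  refine Finset.sum_congr rfl fun S _ => ?_
  rw [Finset.prod_const, ← pow_mul, mul_comm S.card 2, pow_mul]
  norm_num

/-- **E10b** (easy+). Changing the function on finitely many subsets. Proof: `G T = F T + (G T - F T)` and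
`R T = G T - F T` is zero outside of the finite set `Y`; with `M = ∑ T ∈ Y, |R T|` one has
`|avr R S| ≤ M * (1 / 2) ^ S.card`, so `∑ (avr R S) ^ 2 ≤ M ^ 2 * ∑ ((1 / 2) ^ #S) ^ 2` and `sum_quarter` gives
`AVr R 0`; then `AVr.add`. -/
theorem AVr.congr_fin {C1 C2 : ℝ} (h1 : Cheb ι C1) (h2 : Zt ι C2) {F G : Finset ι → ℝ} {v : ℝ}
    (hF : AVr F v) (Y : Finset (Finset ι)) (h : ∀ T, T ∉ Y → G T = F T) : AVr G v := by
  obtain ⟨R, hR⟩ : ∃ R : Finset ι → ℝ, ∀ T, R T = G T - F T := ⟨_, fun _ => rfl⟩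
  obtain ⟨M, hM⟩ : ∃ M : ℝ, M = ∑ T ∈ Y, |R T| := ⟨_, rfl⟩
  have hM0 : 0 ≤ M := by
    rw [hM]
    exact Finset.sum_nonneg fun T _ => abs_nonneg _
  have hzero : ∀ T, T ∉ Y → R T = 0 := by
    intro T hT
    rw [hR, h T hT, sub_self]
  have hle : ∀ S : Finset ι, |avr R S| ≤ M * (1 / 2) ^ S.card := by
    intro S
    have h3 : |∑ T ∈ S.powerset, R T| ≤ M := by
      refine (Finset.abs_sum_le_sum_abs _ _).trans ?_
      calc ∑ T ∈ S.powerset, |R T| ≤ ∑ T ∈ S.powerset ∪ Y, |R T| :=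
            Finset.sum_le_sum_of_subset_of_nonneg Finset.subset_union_left fun _ _ _ => abs_nonneg _
        _ = ∑ T ∈ Y, |R T| := (Finset.sum_subset Finset.subset_union_right fun T _ hT => by
            rw [hzero T hT, abs_zero]).symm
        _ = M := hM.symm
    rw [avr, abs_div, abs_of_pos (by positivity : (0 : ℝ) < 2 ^ S.card), div_eq_mul_inv, one_div, inv_pow]
    exact mul_le_mul_of_nonneg_right h3 (by positivity)
  have hR0 : AVr R 0 := by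
    intro ε hε
    obtain ⟨X₀, hX₀⟩ := sum_quarter h1 h2 (ε / (M ^ 2 + 1)) (div_pos hε (by positivity))
    refine ⟨X₀, fun X hX => ?_⟩
    have h3 := hX₀ X hX
    calc ∑ S ∈ Sx ι X, (avr R S - 0) ^ 2 ≤ ∑ S ∈ Sx ι X, M ^ 2 * (((1 : ℝ) / 2) ^ S.card) ^ 2 := by
          refine Finset.sum_le_sum fun S _ => ?_
          rw [sub_zero, ← sq_abs, ← mul_pow]
          exact pow_le_pow_left₀ (abs_nonneg _) (hle S) 2
      _ = M ^ 2 * ∑ S ∈ Sx ι X, (((1 : ℝ) / 2) ^ S.card) ^ 2 := (Finset.mul_sum _ _ _).symm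
      _ ≤ M ^ 2 * (ε / (M ^ 2 + 1) * X) := mul_le_mul_of_nonneg_left h3 (by positivity)
      _ ≤ ε * X := by
          have h4 : M ^ 2 * (ε / (M ^ 2 + 1) * X) = (M ^ 2 / (M ^ 2 + 1)) * (ε * X) := by
            ring
          rw [h4]
          refine mul_le_of_le_one_left (mul_nonneg hε.le (Nat.cast_nonneg X)) ?_
          rw [div_le_one (by positivity)]
          linarith
      _ ≤ ε * ((Sx ι X).card + X) := by
          refine mul_le_mul_of_nonneg_left ?_ hε.le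
          linarith [(Nat.cast_nonneg (Sx ι X).card : (0 : ℝ) ≤ _)]
  exact AVr.congr (hF.add hR0) (fun T => by rw [hR]; ring) (add_zero v).symm

end

end Pool.Agent.Lib.MP_1a91b9_ntDV
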