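import Pool.Agent.Lib.MP_1a91b9_ntDV.E11
import Pool.Agent.Lib.MP_1a91b9_ntDV.E12

set_option autoImplicit false
set_option linter.unusedSectionVars false

namespace Pool.Agent.Lib.MP_1a91b9_ntDV

open Finset Pool.Agent.Lib.MP_1a91b9_ntH Pool.Agent.Lib.MP_1a91b9_ntQ
open Pool.Agent.Lib.MP_1a91b9_ntQ.Da Pool.Agent.Lib.MP_1a91b9_ntV
open Pool.Agent.Lib.MP_1a91b9_ntV.DJ

noncomputable section

variable {ι : Type} [DecidableEq ι] {κ : Type} [Fintype κ] [DecidableEq κ] {K : ℕ} {M : Type}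
  [Fintype M] [PS ι]

/-- **E13a** (easy+). The mean square of a quantity with an expansion, with a class character. Proof: `genMo_pt`
(divide by `W`), `AV_BF hD (ccG cf w c0 m ce)`, `AV.smul`, `AV.sum` (two sums), `AV.congr`; by definition
`TNG rf cf w c0 = ∑ m, ∑ ce, e2 (rf m) * Fh PhiQ ce * mv (ccG cf w c0 m ce)` (`mv` unfolds to the sum over `UsN K`). -/
theorem AV_gen {D : Dat2 ι κ} {w : κ → ZMod 2} (hD : OKt D w) (rf : M → ZMod 2)
    (cf : M → Lab2 K → κ → ZMod 2) (Kf : Finset ι → ℂ) {W : ℂ} (hW : W ≠ 0)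
    (hK : ∀ S : Finset ι, Kf S * (2 ^ K) ^ S.card * W = ∑ m : M, e2 (rf m) * ∑ f : S → Lab2 K,
      e2 (∑ j : S, D.dg (cf m (f j)) j + ∑ j : S, ∑ l : S, PhiQ (f j) (f l) * D.s j l))
    (c0 : κ → ZMod 2) :
    AV (fun S => e2 (∑ q ∈ S, D.dg c0 q) * Kf S) (TNG rf cf w c0 / W) := by
  have h2 := AV.sum (univ : Finset M)
    (F := fun m S => ∑ ce : Lab2 K → ZMod 2,
      e2 (rf m) * Fh PhiQ ce * BF D (Phi1 PhiQ) (gk D (ccG cf w c0 m ce)) S)
    (v := fun m => ∑ ce : Lab2 K → ZMod 2, e2 (rf m) * Fh PhiQ ce * mv (ccG cf w c0 m ce))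
    (fun m _ => AV.sum univ (fun ce _ =>
      (AV_BF hD (ccG cf w c0 m ce)).smul (e2 (rf m) * Fh PhiQ ce)))
  refine (h2.smul W⁻¹).congr (fun S => ?_) ?_
  · have h3 := genMo_pt D hD.tw rf cf Kf W hK c0 S
    rw [← h3]
    field_simp
  · unfold TNG mv
    rw [div_eq_inv_mul]

open Classical in
/-- **E13b** (easy+). The same in a class. Proof: for every `S`
`(if clN D S = γ then Kf S else 0) * 2 ^ card κ = ∑ c0, e2 (c0 ⬝ᵥ γ) * (e2 (∑ q ∈ S, D.dg c0 q) * Kf S)` by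
`sum_dg`, `dotProduct_add`, `sum_dotE` (exactly as in `sum_SGN`, MP_1a91b9_ntV/D/MomN.lean); then `AV_gen`,
`AV.smul`, `AV.sum`, `AV.congr`. -/
theorem AV_cls {D : Dat2 ι κ} {w : κ → ZMod 2} (hD : OKt D w) (rf : M → ZMod 2)
    (cf : M → Lab2 K → κ → ZMod 2) (Kf : Finset ι → ℂ) {W : ℂ} (hW : W ≠ 0)
    (hK : ∀ S : Finset ι, Kf S * (2 ^ K) ^ S.card * W = ∑ m : M, e2 (rf m) * ∑ f : S → Lab2 K,
      e2 (∑ j : S, D.dg (cf m (f j)) j + ∑ j : S, ∑ l : S, PhiQ (f j) (f l) * D.s j l))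
    (γ : κ → ZMod 2) :
    AV (fun S => if clN D S = γ then Kf S else 0)
      ((∑ c0 : κ → ZMod 2, e2 (c0 ⬝ᵥ γ) * TNG rf cf w c0) / (W * 2 ^ Fintype.card κ)) := by
  have hk : (2 : ℂ) ^ Fintype.card κ ≠ 0 := pow_ne_zero _ two_ne_zero
  have h2 := AV.sum (univ : Finset (κ → ZMod 2))
    (F := fun c0 S => e2 (c0 ⬝ᵥ γ) * (e2 (∑ q ∈ S, D.dg c0 q) * Kf S))
    (v := fun c0 => e2 (c0 ⬝ᵥ γ) * (TNG rf cf w c0 / W))
    (fun c0 _ => (AV_gen hD rf cf Kf hW hK c0).smul (e2 (c0 ⬝ᵥ γ)))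
  refine (h2.smul ((2 : ℂ) ^ Fintype.card κ)⁻¹).congr (fun S => ?_) ?_
  · have h1 : ∀ c0 : κ → ZMod 2, e2 (c0 ⬝ᵥ γ) * (e2 (∑ q ∈ S, D.dg c0 q) * Kf S) =
        e2 (c0 ⬝ᵥ (γ + clN D S)) * Kf S := by
      intro c0
      rw [sum_dg, dotProduct_add, e2_add]
      ring
    rw [sum_congr rfl fun c0 _ => h1 c0, ← sum_mul, sum_dotE]
    by_cases h : clN D S = γ
    · have h3 : γ + clN D S = 0 := by
        rw [h]
        funext j
        exact z2_add_self _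
      rw [if_pos h, if_pos h3]
      field_simp
    · have h3 : γ + clN D S ≠ 0 := by
        intro h3
        apply h
        funext j
        have h4 := congrFun h3 j
        have h5 : ∀ x y : ZMod 2, x + y = 0 → y = x := by decide
        exact h5 _ _ h4
      rw [if_neg h, if_neg h3, zero_mul, mul_zero]
  · rw [sum_div, mul_sum]
    refine sum_congr rfl fun c0 _ => ?_
    field_simp

end

end Pool.Agent.Lib.MP_1a91b9_ntDV
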