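import Pool.Agent.Lib.MP_1a91b9_ntDV.E0

set_option autoImplicit false
set_option linter.unusedSectionVars false

namespace Pool.Agent.Lib.MP_1a91b9_ntDV

open Finset Pool.Agent.Lib.MP_1a91b9_ntH Pool.Agent.Lib.MP_1a91b9_ntQ
open Pool.Agent.Lib.MP_1a91b9_ntQ.Da Pool.Agent.Lib.MP_1a91b9_ntV

noncomputable section

variable {ι : Type} [DecidableEq ι] {κ : Type} {L M : Type} [Fintype L] [Fintype M]

/-- **E2** (easy). The product of two sums over the labellings is the sum over the labellings by pairs.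
Proof. `Finset.sum_mul_sum`, then `(T → L × M) ≃ (T → L) × (T → M)` (`Equiv.arrowProdEquivProdArrow`) and
`Fintype.sum_prod_type`; `Finset.prod_mul_distrib`, `e2_add`, `Finset.sum_add_distrib`, `add_mul`. -/
theorem BF_mul (D : Dat2 ι κ) (Phi : L → L → ZMod 2) (Psi : M → M → ZMod 2) (g : L → ι → ℂ)
    (h : M → ι → ℂ) (T : Finset ι) :
    BF D Phi g T * BF D Psi h T = BF D (Px Phi Psi) (gx g h) T := by
  unfold BF
  rw [Finset.sum_mul_sum, ← Finset.sum_product']
  refine Finset.sum_bij' (fun p _ => fun j => (p.1 j, p.2 j)) (fun f _ => (fun j => (f j).1, fun j => (f j).2))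
    (fun p _ => Finset.mem_univ _) (fun f _ => Finset.mem_product.2 ⟨Finset.mem_univ _, Finset.mem_univ _⟩)
    (fun p _ => rfl) (fun f _ => rfl) fun p _ => ?_
  have h1 : (∏ j : T, gx g h (p.1 j, p.2 j) j) = (∏ j : T, g (p.1 j) j) * ∏ j : T, h (p.2 j) j := by
    rw [← Finset.prod_mul_distrib]
    rfl
  have h2 : (∑ j : T, ∑ l : T, Px Phi Psi (p.1 j, p.2 j) (p.1 l, p.2 l) * D.s j l) =
      (∑ j : T, ∑ l : T, Phi (p.1 j) (p.1 l) * D.s j l) + ∑ j : T, ∑ l : T, Psi (p.2 j) (p.2 l) * D.s j l := by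
    rw [← Finset.sum_add_distrib]
    refine Finset.sum_congr rfl fun j _ => ?_
    rw [← Finset.sum_add_distrib]
    exact Finset.sum_congr rfl fun l _ => add_mul _ _ _
  rw [h1, h2, e2_add]
  ring

end

end Pool.Agent.Lib.MP_1a91b9_ntDV
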