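import Pool.Agent.Lib.MP_1a91b9_ntDV.E0

set_option autoImplicit false
set_option linter.unusedSectionVars false

namespace Pool.Agent.Lib.MP_1a91b9_ntDV

open Finset Pool.Agent.Lib.MP_1a91b9_ntH Pool.Agent.Lib.MP_1a91b9_ntQ
open Pool.Agent.Lib.MP_1a91b9_ntQ.Da Pool.Agent.Lib.MP_1a91b9_ntV

noncomputable section

variable {k k' : ℕ}

/-- the sum over a set of pairs of options, by the kinds of the components -/
private theorem E5_split {α β M : Type} [Fintype α] [Fintype β] [AddCommMonoid M]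
    (Z : Finset (Option α × Option β)) (f : Option α × Option β → M) (z : ℕ) (A : Finset α) (B : Finset β)
    (R : Finset (α × β)) (hz1 : (none, none) ∈ Z → z = 1) (hz0 : (none, none) ∉ Z → z = 0)
    (hA : ∀ l, l ∈ A ↔ (some l, none) ∈ Z) (hB : ∀ l, l ∈ B ↔ (none, some l) ∈ Z)
    (hR : ∀ q, q ∈ R ↔ (some q.1, some q.2) ∈ Z) :
    ∑ x ∈ Z, f x = z • f (none, none) + ∑ l' ∈ B, f (none, some l') +
      (∑ l ∈ A, f (some l, none) + ∑ q ∈ R, f (some q.1, some q.2)) := by
  classical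
  have hA' : A = univ.filter (fun l : α => (some l, none) ∈ Z) := by
    ext l
    rw [hA, mem_filter]
    exact ⟨fun h => ⟨mem_univ _, h⟩, fun h => h.2⟩
  have hB' : B = univ.filter (fun l : β => (none, some l) ∈ Z) := by
    ext l
    rw [hB, mem_filter]
    exact ⟨fun h => ⟨mem_univ _, h⟩, fun h => h.2⟩
  have hR' : R = univ.filter (fun q : α × β => (some q.1, some q.2) ∈ Z) := by
    ext l
    rw [hR, mem_filter]
    exact ⟨fun h => ⟨mem_univ _, h⟩, fun h => h.2⟩
  have hz' : z • f (none, none) = if (none, none) ∈ Z then f (none, none) else 0 := by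
    split_ifs with h
    · rw [hz1 h, one_smul]
    · rw [hz0 h, zero_smul]
  have h1 : ∑ x ∈ Z, f x = ∑ x, if x ∈ Z then f x else 0 := by
    rw [Finset.sum_ite_mem, Finset.univ_inter]
  rw [h1, Fintype.sum_prod_type, Fintype.sum_option, Fintype.sum_option, hA', hB', hR', hz']
  congr 1
  · rw [Finset.sum_filter]
  · rw [Finset.sum_filter, Finset.sum_filter, Fintype.sum_prod_type, ← Finset.sum_add_distrib]
    refine Finset.sum_congr rfl fun l _ => ?_
    rw [Fintype.sum_option]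

private theorem E5_append {n m : ℕ} (l x : Lab2 n) (l' x' : Lab2 m) :
    Q2 (((Fin.append l.1 l'.1, Fin.append l.2 l'.2) : Lab2 (n + m)) -
      ((Fin.append x.1 x'.1, Fin.append x.2 x'.2) : Lab2 (n + m))) = Q2 (l - x) + Q2 (l' - x') := by
  show (∑ i : Fin (n + m), (Fin.append l.1 l'.1 i - Fin.append x.1 x'.1 i) *
    (Fin.append l.2 l'.2 i - Fin.append x.2 x'.2 i)) =
    (∑ i : Fin n, (l.1 i - x.1 i) * (l.2 i - x.2 i)) + ∑ i : Fin m, (l'.1 i - x'.1 i) * (l'.2 i - x'.2 i)
  rw [Fin.sum_univ_add]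
  simp only [Fin.append_left, Fin.append_right]

/-- **E5a** (easy). The weights of a maximal unlinked set have the sum `1`.
Proof. `mem_UsP`: `U = insertNone A ×ˢ insertNone B`; `Finset.sum_product`, `nP` is a product, and
`∑ o ∈ insertNone A, hk k o = 1 / 2 + 2 ^ k * ((2 ^ k)⁻¹ / 2) = 1` (`Finset.sum_insertNone`; `A.card = 2 ^ k` by
`mem_UsN`). -/
theorem sum_nP {U : Finset (LP k k')} (hU : U ∈ UsP k k') : ∑ x ∈ U, nP k k' x = 1 := by
  classical
  have hs : ∀ (n : ℕ) (A : Finset (Lab2 n)), A ∈ UsN n → ∑ o ∈ insertNone A, hk n o = 1 := by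
    intro n A hA
    rw [Finset.sum_insertNone]
    have h1 : ∑ x ∈ A, hk n (some x) = (A.card : ℝ) * (((2 : ℝ) ^ n)⁻¹ / 2) := by
      rw [Finset.sum_congr rfl fun x _ => (show hk n (some x) = ((2 : ℝ) ^ n)⁻¹ / 2 from rfl), Finset.sum_const,
        nsmul_eq_mul]
    rw [h1, (mem_UsN.1 hA).2]
    show (1 : ℝ) / 2 + _ = 1
    push_cast
    have h2 : (2 : ℝ) ^ n ≠ 0 := by positivity
    field_simp
    norm_num
  obtain ⟨A, hA, B, hB, rfl⟩ := mem_UsP.1 hU
  unfold nP
  rw [Finset.sum_product]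
  simp only
  rw [← Finset.sum_mul_sum, hs k A hA, hs k' B hB, one_mul]

/-- **E5b** (medium). An unlinked set which is not in `UsP` has a smaller sum of weights.
Proof. Let `N = 4 * 2 ^ (k + k')`, so `MP k k' = 2 * N`. Split `Z` in the four parts `Z00` (both components
`none`), `Z10` (`(some l, none)`), `Z01` (`(none, some l')`), `Z11` (`(some l, some l')`). The weights times `N`
are `2 ^ (k + k')`, `2 ^ k'`, `2 ^ k` and `1`. The set `A = {l | (some l, none) ∈ Z}` is `Unl2` (the second `Qo` is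
`0`), so `A.card ≤ 2 ^ k` (`K1`); the same for `B = {l' | (none, some l') ∈ Z}`, `B.card ≤ 2 ^ k'`; and the set of
the `(l, l')` with `(some l, some l') ∈ Z` has the injective image `{(Fin.append l.1 l'.1, Fin.append l.2 l'.2)}`
in `Lab2 (k + k')`, which is `Unl2` because `Q2` of a difference of appended labels is
`Q2 (l - m) + Q2 (l' - m')` (`Fin.sum_univ_add`, `Fin.append_left`, `Fin.append_right`; `Q2 l = l.1 ⬝ᵥ l.2`), so it
has at most `2 ^ (k + k')` elements. Hence `N * ∑ = #Z00 * 2 ^ (k + k') + #A * 2 ^ k' + #B * 2 ^ k + #Z11 ≤ N`.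
If it is `< N` (natural numbers) then `∑ ≤ 1 - 1 / N ≤ 1 - 1 / MP`. If it is `N`, all the bounds are equalities:
`(none, none) ∈ Z`, `A ∈ UsN k`, `B ∈ UsN k'`, and for `(some l, some l') ∈ Z` and `m ∈ A` the link with
`(some m, none)` is `Q2 (m - l) + 0 = 0`, so `l ∈ A` by `K2` with the constant `0`; in the same way `l' ∈ B`. So
`Z ⊆ insertNone A ×ˢ insertNone B` and both have the same number of elements
(`1 + 2 ^ k + 2 ^ k' + 2 ^ (k + k')`), so they are equal and `Z ∈ UsP`, a contradiction. -/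
theorem sum_nP_le {Z : Finset (LP k k')}
    (h : ∀ x ∈ Z, ∀ y ∈ Z, Qo k x.1 y.1 + Qo k' x.2 y.2 = 0) (hZ : Z ∉ UsP k k') :
    ∑ x ∈ Z, nP k k' x ≤ 1 - 1 / (MP k k' : ℝ) := by
  classical
  obtain ⟨A, hAd⟩ : ∃ A : Finset (Lab2 k), A = univ.filter (fun l => (some l, none) ∈ Z) := ⟨_, rfl⟩
  obtain ⟨B, hBd⟩ : ∃ B : Finset (Lab2 k'), B = univ.filter (fun l' => (none, some l') ∈ Z) := ⟨_, rfl⟩
  obtain ⟨R, hRd⟩ : ∃ R : Finset (Lab2 k × Lab2 k'), R = univ.filter (fun q => (some q.1, some q.2) ∈ Z) := ⟨_, rfl⟩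
  have mA : ∀ l, l ∈ A ↔ (some l, none) ∈ Z := fun l => by rw [hAd, mem_filter]; exact ⟨fun h => h.2, fun h => ⟨mem_univ _, h⟩⟩
  have mB : ∀ l, l ∈ B ↔ (none, some l) ∈ Z := fun l => by rw [hBd, mem_filter]; exact ⟨fun h => h.2, fun h => ⟨mem_univ _, h⟩⟩
  have mR : ∀ q, q ∈ R ↔ (some q.1, some q.2) ∈ Z := fun q => by
    rw [hRd, mem_filter]; exact ⟨fun h => h.2, fun h => ⟨mem_univ _, h⟩⟩
  have uA : Unl2 A := by
    intro l hl m hm
    have h1 := h _ ((mA l).1 hl) _ ((mA m).1 hm)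
    have h2 : Q2 (l - m) + 0 = 0 := h1
    rwa [add_zero] at h2
  have uB : Unl2 B := by
    intro l hl m hm
    have h1 := h _ ((mB l).1 hl) _ ((mB m).1 hm)
    have h2 : 0 + Q2 (l - m) = 0 := h1
    rwa [zero_add] at h2
  have cA : A.card ≤ 2 ^ k := K1 uA
  have cB : B.card ≤ 2 ^ k' := K1 uB
  have cR : R.card ≤ 2 ^ (k + k') := by
    let φ : Lab2 k × Lab2 k' → Lab2 (k + k') := fun q => (Fin.append q.1.1 q.2.1, Fin.append q.1.2 q.2.2)
    have hφ : Function.Injective φ := by
      intro q q' e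
      have e1 := congrArg Prod.fst e
      have e2 := congrArg Prod.snd e
      refine Prod.ext (Prod.ext ?_ ?_) (Prod.ext ?_ ?_)
      · funext i
        have := congrFun e1 (Fin.castAdd k' i)
        simpa only [φ, Fin.append_left] using this
      · funext i
        have := congrFun e2 (Fin.castAdd k' i)
        simpa only [φ, Fin.append_left] using this
      · funext i
        have := congrFun e1 (Fin.natAdd k i)
        simpa only [φ, Fin.append_right] using this
      · funext i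
        have := congrFun e2 (Fin.natAdd k i)
        simpa only [φ, Fin.append_right] using this
    have h1 : Unl2 (R.image φ) := by
      intro l hl m hm
      obtain ⟨q, hq, rfl⟩ := mem_image.1 hl
      obtain ⟨q', hq', rfl⟩ := mem_image.1 hm
      have h2 := h _ ((mR q).1 hq) _ ((mR q').1 hq')
      rw [E5_append]
      exact h2
    have h2 := K1 h1
    rwa [card_image_of_injective _ hφ] at h2
  obtain ⟨z, hz⟩ : ∃ z : ℕ, z = if (none, none) ∈ Z then 1 else 0 := ⟨_, rfl⟩
  have cz : z ≤ 1 := by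
    rw [hz]
    split_ifs <;> omega
  have hz1 : (none, none) ∈ Z → z = 1 := fun h => by rw [hz, if_pos h]
  have hz0 : (none, none) ∉ Z → z = 0 := fun h => by rw [hz, if_neg h]
  have hsum : ∑ x ∈ Z, nP k k' x = ((z * 2 ^ (k + k') + B.card * 2 ^ k + (A.card * 2 ^ k' + R.card) : ℕ) : ℝ) /
      (4 * 2 ^ (k + k')) := by
    rw [E5_split Z (nP k k') z A B R hz1 hz0 mA mB mR]
    have e00 : z • nP k k' (none, none) = (z : ℝ) * (1 / 4) := by
      rw [nsmul_eq_mul]
      show (z : ℝ) * ((1 / 2 : ℝ) * (1 / 2)) = _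
      norm_num
    have e01 : ∑ l' ∈ B, nP k k' (none, some l') = (B.card : ℝ) * (1 / 2 * (((2 : ℝ) ^ k')⁻¹ / 2)) := by
      rw [Finset.sum_congr rfl fun x _ => (show nP k k' (none, some x) = 1 / 2 * (((2 : ℝ) ^ k')⁻¹ / 2) from rfl),
        Finset.sum_const, nsmul_eq_mul]
    have e10 : ∑ l ∈ A, nP k k' (some l, none) = (A.card : ℝ) * (((2 : ℝ) ^ k)⁻¹ / 2 * (1 / 2)) := by
      rw [Finset.sum_congr rfl fun x _ => (show nP k k' (some x, none) = ((2 : ℝ) ^ k)⁻¹ / 2 * (1 / 2) from rfl),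
        Finset.sum_const, nsmul_eq_mul]
    have e11 : ∑ q ∈ R, nP k k' (some q.1, some q.2) =
        (R.card : ℝ) * (((2 : ℝ) ^ k)⁻¹ / 2 * (((2 : ℝ) ^ k')⁻¹ / 2)) := by
      rw [Finset.sum_congr rfl fun q _ => (show nP k k' (some q.1, some q.2) =
        ((2 : ℝ) ^ k)⁻¹ / 2 * (((2 : ℝ) ^ k')⁻¹ / 2) from rfl), Finset.sum_const, nsmul_eq_mul]
    rw [e00, e01, e10, e11, pow_add]
    push_cast
    have h2 : (2 : ℝ) ^ k ≠ 0 := by positivity
    have h3 : (2 : ℝ) ^ k' ≠ 0 := by positivity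
    field_simp
    ring
  have hN : 0 < (4 * 2 ^ (k + k') : ℝ) := by positivity
  have b0 : z * 2 ^ (k + k') ≤ 2 ^ (k + k') := by
    calc z * 2 ^ (k + k') ≤ 1 * 2 ^ (k + k') := Nat.mul_le_mul_right _ cz
      _ = _ := one_mul _
  have b1 : B.card * 2 ^ k ≤ 2 ^ (k + k') := by
    rw [pow_add, mul_comm (2 ^ k)]
    exact Nat.mul_le_mul_right _ cB
  have b2 : A.card * 2 ^ k' ≤ 2 ^ (k + k') := by
    rw [pow_add]
    exact Nat.mul_le_mul_right _ cA
  by_cases hlt : z * 2 ^ (k + k') + B.card * 2 ^ k + (A.card * 2 ^ k' + R.card) < 4 * 2 ^ (k + k')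
  · have h1 : ((z * 2 ^ (k + k') + B.card * 2 ^ k + (A.card * 2 ^ k' + R.card) : ℕ) : ℝ) + 1 ≤ 4 * 2 ^ (k + k') := by
      exact_mod_cast hlt
    have h2 : ∑ x ∈ Z, nP k k' x ≤ 1 - 1 / (4 * 2 ^ (k + k')) := by
      rw [hsum, div_le_iff₀ hN, sub_mul, one_mul, div_mul_cancel₀ _ hN.ne']
      linarith
    refine h2.trans ?_
    have h3 : (1 : ℝ) / (MP k k' : ℝ) ≤ 1 / (4 * 2 ^ (k + k')) := by
      unfold MP
      push_cast
      apply one_div_le_one_div_of_le hN
      have : (0 : ℝ) < 2 ^ (k + k') := by positivity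
      linarith
    linarith
  · exfalso
    apply hZ
    have p2 : 0 < 2 ^ (k + k') := by positivity
    have pk : 0 < 2 ^ k := by positivity
    have pk' : 0 < 2 ^ k' := by positivity
    have q0 : z * 2 ^ (k + k') = 2 ^ (k + k') := by omega
    have q1 : B.card * 2 ^ k = 2 ^ (k + k') := by omega
    have q2 : A.card * 2 ^ k' = 2 ^ (k + k') := by omega
    have q3 : R.card = 2 ^ (k + k') := by omega
    have z1 : z = 1 := Nat.eq_of_mul_eq_mul_right p2 (by rw [q0, one_mul])
    have hB1 : B.card = 2 ^ k' := by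
      rw [pow_add, mul_comm (2 ^ k)] at q1
      exact Nat.eq_of_mul_eq_mul_right pk q1
    have hA1 : A.card = 2 ^ k := by
      rw [pow_add] at q2
      exact Nat.eq_of_mul_eq_mul_right pk' q2
    refine mem_UsP.2 ⟨A, mem_UsN.2 ⟨uA, hA1⟩, B, mem_UsN.2 ⟨uB, hB1⟩, ?_⟩
    symm
    refine Finset.eq_of_subset_of_card_le ?_ ?_
    · rintro ⟨o, o'⟩ hx
      rw [mem_product]
      constructor
      · refine mem_io.2 fun l hl => ?_
        simp only at hl
        subst hl
        cases o' with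
        | none => exact (mA l).2 hx
        | some l' =>
          refine K2 uA hA1 0 fun m hm => ?_
          have h1 := h _ ((mA m).1 hm) _ hx
          have h2 : Q2 (m - l) + 0 = 0 := h1
          rwa [add_zero] at h2
      · refine mem_io.2 fun l hl => ?_
        simp only at hl
        subst hl
        cases o with
        | none => exact (mB l).2 hx
        | some l' =>
          refine K2 uB hB1 0 fun m hm => ?_
          have h1 := h _ ((mB m).1 hm) _ hx
          have h2 : 0 + Q2 (m - l) = 0 := h1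
          rwa [zero_add] at h2
    · have e1 : Z.card = z + B.card + (A.card + R.card) := by
        have e2 := E5_split Z (fun _ => (1 : ℕ)) z A B R hz1 hz0 mA mB mR
        simpa only [Finset.sum_const, smul_eq_mul, mul_one] using e2
      rw [card_product, Finset.card_insertNone, Finset.card_insertNone, e1, hA1, hB1, q3, z1, pow_add]
      exact le_of_eq (by ring)

end

end Pool.Agent.Lib.MP_1a91b9_ntDV
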