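import Pool.Agent.Lib.MP_1a91b9_ntDV.E5

set_option autoImplicit false
set_option linter.unusedSectionVars false

namespace Pool.Agent.Lib.MP_1a91b9_ntDV

open Finset Pool.Agent.Lib.MP_1a91b9_ntH Pool.Agent.Lib.MP_1a91b9_ntQ
open Pool.Agent.Lib.MP_1a91b9_ntQ.Da Pool.Agent.Lib.MP_1a91b9_ntV

noncomputable section

private theorem norm_add_e2 (a b : ZMod 2) : ‖e2 a + e2 b‖ ≤ 3 / 2 + sg (a + b) / 2 := by
  have h2 : (1 : ZMod 2) + 1 = 0 := by decide
  have h3 : ‖(1 : ℂ) + 1‖ = 2 := by norm_num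
  have h4 : ‖(-1 : ℂ) + -1‖ = 2 := by norm_num
  rcases z2 a with rfl | rfl <;> rcases z2 b with rfl | rfl <;>
    simp only [add_zero, zero_add, h2, sg2_zero, Pool.Agent.Lib.MP_1a91b9_ntQ.sg2_one, e2_zero,
      e2_one, add_neg_cancel,
      neg_add_cancel, norm_zero, h3, h4] <;> norm_num

private theorem norm_cmul_e2 {c : ℝ} (hc : 0 ≤ c) (a : ZMod 2) : ‖(c : ℂ) * e2 a‖ = c := by
  rw [norm_mul, norm_e2, mul_one, Complex.norm_real, Real.norm_of_nonneg hc]

/-- **E6a** (easy+). The bound for a weighted sum of signs with two labels of weight at least `a`.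
Proof. As `v_norm_add`, `v_norm_sum` in MP_1a91b9_ntV/D/SysN.lean (private, copy them): write `n x = a + r`,
`n x' = a + r'`; the sum is `a (e2 (y x) + e2 (y x'))` plus the rest with nonnegative weights of the sum
`∑ n - 2 a`; `‖e2 s + e2 t‖ ≤ 3 / 2 + sg (s + t) / 2` and `2 a - a (3 / 2 + s / 2) = a / 2 * (1 - s)`. -/
theorem norm_wsum {L : Type} [DecidableEq L] (U : Finset L) (n : L → ℝ) (hn : ∀ x, 0 ≤ n x)
    (y : L → ZMod 2) {a : ℝ} (h0 : 0 ≤ a) {x x' : L} (hx : x ∈ U) (hx' : x' ∈ U) (hne : x ≠ x')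
    (ha : a ≤ n x) (ha' : a ≤ n x') :
    ‖∑ z ∈ U, (n z : ℂ) * e2 (y z)‖ ≤ ∑ z ∈ U, n z - a / 2 * (1 - sg (y x + y x')) := by
  have h1 : x' ∈ U.erase x := mem_erase.2 ⟨hne.symm, hx'⟩
  have e1 : ∑ z ∈ U, (n z : ℂ) * e2 (y z) = (a : ℂ) * (e2 (y x) + e2 (y x')) +
      ((((n x - a : ℝ) : ℂ) * e2 (y x) + ((n x' - a : ℝ) : ℂ) * e2 (y x')) +
        ∑ z ∈ (U.erase x).erase x', (n z : ℂ) * e2 (y z)) := by
    rw [← add_sum_erase U _ hx, ← add_sum_erase (U.erase x) _ h1]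
    push_cast
    ring
  have e2' : ∑ z ∈ U, n z = n x + (n x' + ∑ z ∈ (U.erase x).erase x', n z) := by
    rw [← add_sum_erase U _ hx, ← add_sum_erase (U.erase x) _ h1]
  have h2 : ‖∑ z ∈ (U.erase x).erase x', (n z : ℂ) * e2 (y z)‖ ≤ ∑ z ∈ (U.erase x).erase x', n z := by
    refine (norm_sum_le _ _).trans (le_of_eq (sum_congr rfl fun z _ => ?_))
    exact norm_cmul_e2 (hn z) _
  have h3 : ‖(a : ℂ) * (e2 (y x) + e2 (y x'))‖ ≤ a * (3 / 2 + sg (y x + y x') / 2) := by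
    rw [norm_mul, Complex.norm_real, Real.norm_of_nonneg h0]
    exact mul_le_mul_of_nonneg_left (norm_add_e2 _ _) h0
  have h4 : ‖((n x - a : ℝ) : ℂ) * e2 (y x)‖ = n x - a := norm_cmul_e2 (by linarith) _
  have h5 : ‖((n x' - a : ℝ) : ℂ) * e2 (y x')‖ = n x' - a := norm_cmul_e2 (by linarith) _
  rw [e1, e2']
  have h6 := norm_add_le ((a : ℂ) * (e2 (y x) + e2 (y x')))
    ((((n x - a : ℝ) : ℂ) * e2 (y x) + ((n x' - a : ℝ) : ℂ) * e2 (y x')) +
        ∑ z ∈ (U.erase x).erase x', (n z : ℂ) * e2 (y z))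
  have h7 := norm_add_le (((n x - a : ℝ) : ℂ) * e2 (y x) + ((n x' - a : ℝ) : ℂ) * e2 (y x'))
    (∑ z ∈ (U.erase x).erase x', (n z : ℂ) * e2 (y z))
  have h8 := norm_add_le (((n x - a : ℝ) : ℂ) * e2 (y x)) (((n x' - a : ℝ) : ℂ) * e2 (y x'))
  rw [h4, h5] at h8
  linarith

variable {ι : Type} [DecidableEq ι] {κ : Type} [Fintype κ]

/-- **E6b** (easy+). The exponent of the local factor, for every one-sided system. Proof as `xg_eq` in
MP_1a91b9_ntV/D/SysN.lean (there for `LN`), with `Λ.lk l m = Λ.Phi l m + Λ.Phi m l`. -/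
theorem xg_gen {L : Type} [Fintype L] [DecidableEq L] (D : Dat2 ι κ) {w : κ → ZMod 2}
    (tw : ∀ p q, p ≠ q → D.s p q + D.s q p = D.dg w p * D.dg w q) (Λ : LG L ι)
    (b : L → Finset ι) (l : L) (q : ι) (hq : q ∉ uni b) :
    xg D Λ b l q = ∑ m, Λ.lk l m * ∑ p ∈ b m, D.s q p +
      (∑ m, Λ.Phi m l * ∑ p ∈ b m, D.dg w p) * D.dg w q := by
  unfold xg
  rw [sum_mul, ← sum_add_distrib]
  refine sum_congr rfl fun m _ => ?_
  have h1 : D.ss {q} (b m) = ∑ p ∈ b m, D.s q p := sum_singleton _ _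
  have h2 : D.ss (b m) {q} = ∑ p ∈ b m, D.s q p + (∑ p ∈ b m, D.dg w p) * D.dg w q := by
    unfold Dat2.ss
    rw [sum_mul, ← sum_add_distrib]
    refine sum_congr rfl fun p hp => ?_
    rw [sum_singleton]
    have hne : p ≠ q := by
      rintro rfl
      exact hq (mem_uni.2 ⟨m, hp⟩)
    have h3 := tw p q hne
    have h4 : D.s p q = D.s q p + D.dg w p * D.dg w q := by
      rw [← h3, add_comm (D.s p q), ← add_assoc, z2_add_self, zero_add]
    exact h4
  rw [h1, h2]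
  unfold LG.lk
  ring

private theorem exists_one {n : ℕ} {A : Finset (Lab2 n)} (hA : A ∈ UsN n) {o : Option (Lab2 n)}
    (ho : o ∉ insertNone A) : ∃ l ∈ A, ∃ l' ∈ A, Qo n (some l) o ≠ Qo n (some l') o := by
  obtain ⟨hA1, hA2⟩ := mem_UsN.1 hA
  cases o with
  | none => exact absurd (none_mem_insertNone) ho
  | some m =>
    have hm : m ∉ A := fun h => ho (some_mem_insertNone.2 h)
    have hne : A.Nonempty := by
      rw [← card_pos, hA2]
      positivity
    obtain ⟨l0, hl0⟩ := hne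
    by_contra hcon
    push Not at hcon
    exact hm (K2 hA1 hA2 (Q2 (l0 - m)) fun l hl => hcon l hl l0 hl0)

private theorem weight_left {k k' : ℕ} (l : Lab2 k) : 2 / (MP k k' : ℝ) ≤ hk k (some l) * hk k' none := by
  show 2 / (((8 * 2 ^ (k + k') : ℕ)) : ℝ) ≤ ((2 : ℝ) ^ k)⁻¹ / 2 * (1 / 2)
  have h1 : (1 : ℝ) ≤ 2 ^ k' := one_le_pow₀ (by norm_num)
  have h2 : (0 : ℝ) < 2 ^ k := by positivity
  have h3 : ((2 : ℝ) ^ k)⁻¹ / 2 * (1 / 2) = 1 / (4 * 2 ^ k) := by
    field_simp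
    norm_num
  rw [h3]
  push_cast
  rw [pow_add, div_le_div_iff₀ (by positivity) (by positivity)]
  nlinarith

private theorem weight_right {k k' : ℕ} (l : Lab2 k') : 2 / (MP k k' : ℝ) ≤ hk k none * hk k' (some l) := by
  have h := weight_left (k := k') (k' := k) l
  have e : (MP k' k : ℝ) = (MP k k' : ℝ) := by
    unfold MP
    rw [add_comm]
  rw [e] at h
  rw [mul_comm]
  exact h

/-- **E6c** (medium-). For a label outside of a maximal unlinked set there are two labels in the set with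
different links, and weights at least `2 / MP`... precisely `2 / (MP k k') ≤ nP x`.
Proof. `U = insertNone A ×ˢ insertNone B` (`mem_UsP`), `m = (o, o') ∉ U`, so `o ∉ insertNone A` or
`o' ∉ insertNone B`. In the first case `o = some m₁` with `m₁ ∉ A`; by `K2` (contraposition, as in `LN_mid`) there are
`l, l' ∈ A` with `Q2 (l - m₁) ≠ Q2 (l' - m₁)`; take `x = (some l, none)`, `x' = (some l', none)`: the links are
`Q2 (l - m₁) + 0` and `Q2 (l' - m₁) + 0` (`Qo _ none _ = 0`), and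
`nP x = ((2 ^ k)⁻¹ / 2) * (1 / 2) ≥ 2 / (8 * 2 ^ (k + k'))`. The second case is symmetric. -/
theorem exists_two {k k' : ℕ} {U : Finset (LP k k')} (hU : U ∈ UsP k k') {m : LP k k'} (hm : m ∉ U) :
    ∃ x ∈ U, ∃ x' ∈ U, Qo k x.1 m.1 + Qo k' x.2 m.2 ≠ Qo k x'.1 m.1 + Qo k' x'.2 m.2 ∧
      2 / (MP k k' : ℝ) ≤ nP k k' x ∧ 2 / (MP k k' : ℝ) ≤ nP k k' x' := by
  obtain ⟨A, hA, B, hB, rfl⟩ := mem_UsP.1 hU
  have h0 : ∀ (n : ℕ) (o : Option (Lab2 n)), Qo n none o = 0 := fun n o => by cases o <;> rfl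
  by_cases h1 : m.1 ∈ insertNone A
  · have h2 : m.2 ∉ insertNone B := fun h => hm (mem_product.2 ⟨h1, h⟩)
    obtain ⟨l, hl, l', hl', hne⟩ := exists_one hB h2
    refine ⟨(none, some l), mem_product.2 ⟨none_mem_insertNone, some_mem_insertNone.2 hl⟩,
      (none, some l'), mem_product.2 ⟨none_mem_insertNone, some_mem_insertNone.2 hl'⟩, ?_,
      weight_right l, weight_right l'⟩
    simp only [h0, zero_add]
    exact hne
  · obtain ⟨l, hl, l', hl', hne⟩ := exists_one hA h1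
    refine ⟨(some l, none), mem_product.2 ⟨some_mem_insertNone.2 hl, none_mem_insertNone⟩,
      (some l', none), mem_product.2 ⟨some_mem_insertNone.2 hl', none_mem_insertNone⟩, ?_,
      weight_left l, weight_left l'⟩
    simp only [h0, add_zero]
    exact hne

end

end Pool.Agent.Lib.MP_1a91b9_ntDV
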