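import Pool.Agent.Lib.MP_1a91b9_ntDV.E6

set_option autoImplicit false
set_option linter.unusedSectionVars false

namespace Pool.Agent.Lib.MP_1a91b9_ntDV

open Finset Pool.Agent.Lib.MP_1a91b9_ntH Pool.Agent.Lib.MP_1a91b9_ntQ
open Pool.Agent.Lib.MP_1a91b9_ntQ.Da Pool.Agent.Lib.MP_1a91b9_ntV

noncomputable section

variable {ι : Type} [DecidableEq ι] {κ : Type} [Fintype κ] [DecidableEq κ] [PS ι] {k k' : ℕ}

private theorem E7_chabs (D : Dat2 ι κ) (T : Finset ι) (c : κ → ZMod 2) (q : ι) :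
    |D.ch T c q| ≤ 1 := by
  unfold Dat2.ch
  split_ifs
  · simp
  · exact (sg2_abs _).le

private def E7_t {L : Type} [Fintype L] (lk : L → L → ZMod 2) (b : L → Finset ι) (l l' : L)
    (p : ι) : ZMod 2 :=
  ∑ m, if p ∈ b m then lk l m + lk l' m else 0

open Classical in
private def E7_T {L : Type} [Fintype L] (lk : L → L → ZMod 2) (b : L → Finset ι) (l l' : L) :
    Finset ι :=
  (uni b).filter fun p => E7_t lk b l l' p ≠ 0

private theorem E7_sumT {L : Type} [Fintype L] (lk : L → L → ZMod 2) (D : Dat2 ι κ)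
    (b : L → Finset ι) (l l' : L) (q : ι) :
    ∑ m, lk l m * ∑ p ∈ b m, D.s q p + ∑ m, lk l' m * ∑ p ∈ b m, D.s q p =
      ∑ p ∈ E7_T lk b l l', D.s q p := by
  classical
  have h1 : ∑ p ∈ E7_T lk b l l', D.s q p = ∑ p ∈ uni b, E7_t lk b l l' p * D.s q p := by
    unfold E7_T
    rw [sum_filter]
    refine sum_congr rfl fun p _ => ?_
    by_cases h : E7_t lk b l l' p = 0
    · rw [if_neg (not_not.2 h), h, zero_mul]
    · rw [if_pos h, z2_ne h, one_mul]
  rw [h1]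
  unfold E7_t
  rw [sum_congr rfl fun p _ => sum_mul _ _ _, sum_comm, ← sum_add_distrib]
  refine sum_congr rfl fun m _ => ?_
  rw [← add_mul, mul_sum]
  have h4 : ∀ p ∈ b m, (lk l m + lk l' m) * D.s q p =
      (if p ∈ b m then lk l m + lk l' m else 0) * D.s q p := fun p hp => by rw [if_pos hp]
  rw [sum_congr rfl h4]
  refine sum_subset (sub_uni b m) fun p _ hp2 => ?_
  rw [if_neg hp2, zero_mul]

/-- **E7** (medium). The middle estimate of the system, the analogue of `LN_mid` (MP_1a91b9_ntV/D/SysN.lean).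
Proof. `C = |C₀| + 1` with `C₀` from `hD.cb`. Take `p0 ∈ b m0`; `m0 ∉ U`; `exists_two hU` gives `x, x' ∈ U`. Let
`t p = ∑ m, if p ∈ b m then lk x m + lk x' m else 0` (`lk` as in `LPs_lk`), `T = {p ∈ uni b | t p ≠ 0}`
(`p0 ∈ T`, by disjointness only `m0` counts) and `c₁ = c x + c x' + (β x + β x') • w` with
`β x = ∑ m, (LPs D k k' c).Phi m x * ∑ p ∈ b m, D.dg w p`. By `xg_gen` (with `hD.tw`) for `q ∉ uni b`:
`D.dg (c x) q + xg x q + (D.dg (c x') q + xg x' q) = D.ex1 T c₁ q`, as in `LN_mid` (`sum_TN` has the same proof for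
`t`). `HG D (LPs D k k' c) U b q = ∑ x ∈ U, (nP x : ℂ) * e2 (D.dg (c x) q + xg x q)`, so by `norm_wsum` with
`a = 2 / MP` (`exists_two`) and `sum_nP hU`: `‖HG‖ ≤ 1 - (1 - D.ch T c₁ q) / MP = ((MP - 1) + D.ch T c₁ q) / MP`,
and `≤ 1` because `D.ch ≤ 1`. `ψ = D.ch T c₁`, the bound `SumB` as in `LN_mid` (exponent `MP k k' ≥ 1`). -/
theorem LPs_mid {D : Dat2 ι κ} {w : κ → ZMod 2} (hD : OKt D w) (c : LP k k' → κ → ZMod 2) :
    ∃ C : ℝ, ∀ U ∈ UsP k k', ∀ b : LP k k' → Finset ι, PD b → (∀ l ∈ U, b l = ∅) → uni b ≠ ∅ →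
    (∀ l, ∀ q ∈ b l, (LPs D k k' c).g l q ≠ 0) →
    ∃ ψ : ι → ℝ, SumB ψ ((C * (1 + Real.log (nm (uni b)))) ^ (MP k k')) ∧
      (∀ q, 0 ≤ ((MP k k' : ℝ) - 1) + ψ q) ∧ ∀ q, q ∉ uni b →
        ‖HG D (LPs D k k' c) U b q‖ ≤ 1 ∧
          ‖HG D (LPs D k k' c) U b q‖ ≤ (((MP k k' : ℝ) - 1) + ψ q) / (MP k k' : ℝ) := by
  classical
  obtain ⟨C, hC⟩ := hD.cb
  have hMP : (2 : ℝ) ≤ (MP k k' : ℝ) := by
    have h1 : 2 ≤ MP k k' := by
      unfold MP
      have : 1 ≤ 2 ^ (k + k') := Nat.one_le_two_pow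
      omega
    exact_mod_cast h1
  have hMP0 : (0 : ℝ) < (MP k k' : ℝ) := by linarith
  refine ⟨|C| + 1, fun U hU b hb hbU hne _ => ?_⟩
  obtain ⟨p0, hp0⟩ := nonempty_iff_ne_empty.2 hne
  obtain ⟨m0, hm0⟩ := mem_uni.1 hp0
  have hm0U : m0 ∉ U := fun hm => by
    rw [hbU m0 hm] at hm0
    exact absurd hm0 (notMem_empty _)
  obtain ⟨l, hl, l', hl', hll, hnl, hnl'⟩ := exists_two hU hm0U
  have hne' : l ≠ l' := fun e => hll (by rw [e])
  rw [← LPs_lk D c, ← LPs_lk D c] at hll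
  set T := E7_T (LPs D k k' c).lk b l l' with hT
  set c₁ : κ → ZMod 2 := c l + c l' +
    ((∑ m, (LPs D k k' c).Phi m l * ∑ p ∈ b m, D.dg w p) +
      (∑ m, (LPs D k k' c).Phi m l' * ∑ p ∈ b m, D.dg w p)) • w with hc
  have hTs : T ⊆ uni b := filter_subset _ _
  have hTne : T ≠ ∅ := by
    refine nonempty_iff_ne_empty.1 ⟨p0, ?_⟩
    rw [hT, E7_T]
    refine mem_filter.2 ⟨hp0, ?_⟩
    have h1 : E7_t (LPs D k k' c).lk b l l' p0 =
        (LPs D k k' c).lk l m0 + (LPs D k k' c).lk l' m0 := by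
      unfold E7_t
      rw [sum_eq_single m0, if_pos hm0]
      · intro m _ hm
        exact if_neg fun h => (disjoint_left.1 (hb m m0 hm)) h hm0
      · intro h
        exact absurd (mem_univ _) h
    rw [h1]
    intro h
    have h5 : ∀ x y : ZMod 2, x + y = 0 → x = y := by decide
    exact hll (h5 _ _ h)
  have hCT := SumB.of (hC T c₁ (Or.inl hTne))
  have hTn : (1 : ℝ) ≤ nm T := by exact_mod_cast one_le_nm T
  have hlT : 0 ≤ Real.log (nm T) := Real.log_nonneg hTn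
  have hlog : Real.log (nm T) ≤ Real.log (nm (uni b)) := by
    refine Real.log_le_log (by linarith) ?_
    exact_mod_cast Pool.Agent.Lib.MP_1a91b9_ntQ.D.nm_mono hTs
  have hch := fun q => abs_le.1 (E7_chabs D T c₁ q)
  refine ⟨D.ch T c₁, hCT.mono ?_, fun q => ?_, fun q hq => ?_⟩
  · calc C * (1 + Real.log (nm T)) ≤ (|C| + 1) * (1 + Real.log (nm T)) := by
          refine mul_le_mul_of_nonneg_right ?_ (by linarith)
          have := le_abs_self C
          linarith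
      _ ≤ (|C| + 1) * (1 + Real.log (nm (uni b))) :=
          mul_le_mul_of_nonneg_left (by linarith) (by positivity)
      _ ≤ ((|C| + 1) * (1 + Real.log (nm (uni b)))) ^ (MP k k') := by
          refine le_self_pow₀ ?_ ?_
          · have h1 : (1 : ℝ) ≤ |C| + 1 := by linarith [abs_nonneg C]
            have h2 : (1 : ℝ) ≤ 1 + Real.log (nm (uni b)) := by linarith
            nlinarith
          · intro h0
            rw [h0] at hMP0
            simp at hMP0
  · have := (hch q).1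
    linarith
  · -- the bound
    have hH : HG D (LPs D k k' c) U b q =
        ∑ z ∈ U, (nP k k' z : ℂ) * e2 (D.dg (c z) q + xg D (LPs D k k' c) b z q) := by
      unfold HG
      refine sum_congr rfl fun z _ => ?_
      rw [e2_add]
      show (nP k k' z : ℂ) * e2 (D.dg (c z) q) * e2 (xg D (LPs D k k' c) b z q) = _
      ring
    have hTq : q ∉ T := fun h => hq (hTs h)
    have hsg : sg ((D.dg (c l) q + xg D (LPs D k k' c) b l q) +
        (D.dg (c l') q + xg D (LPs D k k' c) b l' q)) = D.ch T c₁ q := by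
      unfold Dat2.ch
      rw [if_neg hTq]
      congr 1
      have h1 : D.ex1 T c₁ q = D.dg c₁ q + ∑ p ∈ T, D.s q p := rfl
      rw [h1, hT, ← E7_sumT (LPs D k k' c).lk D b l l' q, hc, dg_add, dg_add, dg_smul,
        xg_gen D hD.tw (LPs D k k' c) b l q hq, xg_gen D hD.tw (LPs D k k' c) b l' q hq]
      ring
    have hns := norm_wsum U (nP k k') (fun z => (nP_pos z).le)
      (fun z => D.dg (c z) q + xg D (LPs D k k' c) b z q) (a := 2 / (MP k k' : ℝ))
      (by positivity) hl hl' hne' hnl hnl'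
    rw [hsg, sum_nP hU] at hns
    have e1 : 1 - 2 / (MP k k' : ℝ) / 2 * (1 - D.ch T c₁ q) =
        (((MP k k' : ℝ) - 1) + D.ch T c₁ q) / (MP k k' : ℝ) := by
      field_simp
      ring
    rw [← hH, e1] at hns
    refine ⟨hns.trans ?_, hns⟩
    rw [div_le_one hMP0]
    have := (hch q).2
    linarith

end

end Pool.Agent.Lib.MP_1a91b9_ntDV
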