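import Pool.Agent.Lib.MP_1a91b9_ntDV.E1
import Pool.Agent.Lib.MP_1a91b9_ntDV.E2
import Pool.Agent.Lib.MP_1a91b9_ntDV.E3
import Pool.Agent.Lib.MP_1a91b9_ntDV.E4
import Pool.Agent.Lib.MP_1a91b9_ntDV.E7
import Pool.Agent.Lib.MP_1a91b9_ntDV.E8
import Pool.Agent.Lib.MP_1a91b9_ntDV.E9

/-!
# MP_1a91b9_nt (the divisor law), block E: the mean square of the sums over the labellings
-/

set_option autoImplicit false
set_option linter.unusedSectionVars false

namespace Pool.Agent.Lib.MP_1a91b9_ntDV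

open Finset Pool.Agent.Lib.MP_1a91b9_ntH Pool.Agent.Lib.MP_1a91b9_ntQ
open Pool.Agent.Lib.MP_1a91b9_ntQ.Da Pool.Agent.Lib.MP_1a91b9_ntV

noncomputable section

variable {ι : Type} [DecidableEq ι] {κ : Type} [Fintype κ] [DecidableEq κ] {k k' : ℕ}

instance decLP : DecidableEq (LP k k') := inferInstance

instance finLP : Fintype (LP k k' → ZMod 2) := Pi.instFintype

theorem hk_le (k : ℕ) (o : Option (Lab2 k)) : hk k o ≤ 1 / 2 := by
  cases o with
  | none => exact le_rfl
  | some l =>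
    show ((2 : ℝ) ^ k)⁻¹ / 2 ≤ 1 / 2
    have h : ((2 : ℝ) ^ k)⁻¹ ≤ 1 := inv_le_one_of_one_le₀ (one_le_pow₀ (by norm_num))
    linarith

theorem Qo_unl {n : ℕ} {A : Finset (Lab2 n)} (hA : A ∈ UsN n) {o p : Option (Lab2 n)}
    (ho : o ∈ insertNone A) (hp : p ∈ insertNone A) : Qo n o p = 0 := by
  cases o with
  | none => rfl
  | some l =>
    cases p with
    | none => rfl
    | some m => exact (mem_UsN.1 hA).1 l (mem_io.1 ho l rfl) m (mem_io.1 hp m rfl)

theorem Po_unl {n : ℕ} {A : Finset (Lab2 n)} (hA : A ∈ UsN n) {o p : Option (Lab2 n)}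
    (ho : o ∈ insertNone A) (hp : p ∈ insertNone A) : Po (Phi1 (PhiQ (k := n))) o p = 0 := by
  cases o with
  | none => rfl
  | some l =>
    cases p with
    | none => rfl
    | some m =>
      show Phi1 PhiQ l m = 0
      unfold Phi1
      rw [PhiQ_add, (mem_UsN.1 hA).1 l (mem_io.1 ho l rfl) m (mem_io.1 hp m rfl)]
      split_ifs <;> rfl

theorem PP_unl {U : Finset (LP k k')} (hU : U ∈ UsP k k') : ∀ a ∈ U, ∀ b ∈ U, PP k k' a b = 0 := by
  obtain ⟨A, hA, B, hB, rfl⟩ := mem_UsP.1 hU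
  intro a ha b hb
  rw [mem_product] at ha hb
  show Po _ a.1 b.1 + Po _ a.2 b.2 = 0
  rw [Po_unl hA ha.1 hb.1, Po_unl hB ha.2 hb.2, add_zero]

theorem card_UsP {U : Finset (LP k k')} (hU : U ∈ UsP k k') :
    U.card = (2 ^ k + 1) * (2 ^ k' + 1) := by
  obtain ⟨A, hA, B, hB, rfl⟩ := mem_UsP.1 hU
  rw [card_product, card_insertNone, card_insertNone, (mem_UsN.1 hA).2, (mem_UsN.1 hB).2]

variable [PS ι]

theorem LPs_OK {D : Dat2 ι κ} {w : κ → ZMod 2} (hD : OKt D w) (c : LP k k' → κ → ZMod 2) :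
    (LPs D k k' c).OK D (MP k k') (UsP k k') (mP c) fun X => ((Sx ι X).card : ℂ) where
  diag := fun l => Phi1_self _ l
  os := fun l m => Phi1_os _ l m
  nrm := fun l q => by
    rw [norm_gP]
    have h1 := hk_le k l.1
    have h2 := hk_le k' l.2
    have h3 := hk_pos k l.1
    have h4 := hk_pos k' l.2
    show hk k l.1 * hk k' l.2 ≤ 1
    nlinarith
  two := by
    have : 1 ≤ 2 ^ (k + k') := Nat.one_le_two_pow
    show 2 ≤ 8 * 2 ^ (k + k')
    omega
  unl := fun U hU x hx y hy => by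
    obtain ⟨A, hA, B, hB, rfl⟩ := mem_UsP.1 hU
    rw [mem_product] at hx hy
    rw [LPs_lk, Qo_unl hA hx.1 hy.1, Qo_unl hB hx.2 hy.2, add_zero]
  er := fun U hU l hl h => by
    have h1 := card_UsP hU
    have h2 := card_UsP h
    have h3 := card_erase_add_one hl
    omega
  small := by
    refine ⟨1, fun Z hZ hZ2 => ⟨fun _ => 0, SumB.zero, fun q => ?_⟩⟩
    have h1 := sum_nP_le (fun x hx y hy => by
      have := hZ x hx y hy
      rwa [LPs_lk] at this) hZ2
    have hM : (0 : ℝ) < (MP k k' : ℝ) := by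
      show (0 : ℝ) < ((8 * 2 ^ (k + k') : ℕ) : ℝ)
      positivity
    have e1 : ∑ l ∈ Z, ‖(LPs D k k' c).g l q‖ = ∑ l ∈ Z, nP k k' l :=
      sum_congr rfl fun x _ => norm_gP D c x q
    rw [e1]
    constructor
    · refine h1.trans ?_
      have : 0 ≤ 1 / (MP k k' : ℝ) := by positivity
      linarith
    · refine h1.trans (le_of_eq ?_)
      rw [add_zero]
      field_simp
  mid := LPs_mid hD c
  main := LPs_main hD c

/-- The class vectors of a pair of labels. -/
def cP (w : κ → ZMod 2) (cc : Lab2 k → κ → ZMod 2) (cc' : Lab2 k' → κ → ZMod 2)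
    (ce : LP k k' → ZMod 2) (x : LP k k') : κ → ZMod 2 := (co cc x.1 + co cc' x.2) + ce x • w

omit [DecidableEq ι] [DecidableEq κ] [PS ι] in
theorem go_gk (D : Dat2 ι κ) (cc : Lab2 k → κ → ZMod 2) (o : Option (Lab2 k)) (q : ι) :
    go (gk D cc) o q = (hk k o : ℂ) * e2 (D.dg (co cc o) q) := by
  cases o with
  | none =>
    show (1 / 2 : ℂ) = ((1 / 2 : ℝ) : ℂ) * e2 (D.dg 0 q)
    rw [dg_zero, e2_zero]
    push_cast
    ring
  | some l =>
    show ((2 : ℂ) ^ k)⁻¹ * e2 (D.dg (cc l) q) / 2 = ((((2 : ℝ) ^ k)⁻¹ / 2 : ℝ) : ℂ) *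
      e2 (D.dg (cc l) q)
    push_cast
    ring

omit [PS ι] in
/-- The product of two mean values. -/
theorem avg_mul (D : Dat2 ι κ) {w : κ → ZMod 2}
    (tw : ∀ p q, p ≠ q → D.s p q + D.s q p = D.dg w p * D.dg w q)
    (cc : Lab2 k → κ → ZMod 2) (cc' : Lab2 k' → κ → ZMod 2) (S : Finset ι) :
    avg (BF D (Phi1 PhiQ) (gk D cc)) S * avg (BF D (Phi1 PhiQ) (gk D cc')) S =
      ∑ ce : LP k k' → ZMod 2, Fh (PP k k') ce * ∑ f : S → LP k k',
        (∏ j : S, (LPs D k k' (cP w cc cc' ce)).g (f j) j) *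
          e2 (∑ j : S, ∑ l : S, (LPs D k k' (cP w cc cc' ce)).Phi (f j) (f l) * D.s j l) := by
  rw [avg_BF, avg_BF, BF_mul]
  refine (BF_one D tw (PP k k') PP_self _ S).trans (sum_congr rfl fun ce _ => ?_)
  congr 1
  unfold BF
  refine sum_congr rfl fun f _ => ?_
  congr 1
  refine prod_congr rfl fun j _ => ?_
  show go (gk D cc) (f j).1 j * go (gk D cc') (f j).2 j * e2 (ce (f j) * D.dg w j) =
    ((hk k (f j).1 * hk k' (f j).2 : ℝ) : ℂ) * e2 (D.dg (cP w cc cc' ce (f j)) j)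
  rw [go_gk, go_gk, cP, dg_add, dg_add, dg_smul, e2_add, e2_add]
  push_cast
  ring

omit [DecidableEq κ] in
/-- The value of the double sum. -/
theorem sum_mP (w : κ → ZMod 2) (cc : Lab2 k → κ → ZMod 2) (cc' : Lab2 k' → κ → ZMod 2) :
    ∑ ce : LP k k' → ZMod 2, Fh (PP k k') ce * ∑ U ∈ UsP k k', mP (cP w cc cc' ce) U =
      mv cc * mv cc' := by
  classical
  have h1 : ∑ ce : LP k k' → ZMod 2, Fh (PP k k') ce * ∑ U ∈ UsP k k', mP (cP w cc cc' ce) U =
      ∑ U ∈ UsP k k', if ∀ x ∈ U, co cc x.1 + co cc' x.2 = 0 then (1 : ℂ) else 0 := by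
    simp only [mul_sum]
    rw [sum_comm]
    refine sum_congr rfl fun U hU => ?_
    refine Eq.trans (sum_congr rfl fun ce _ => ?_)
      (sum_Fh (PP k k') U (PP_unl hU) w fun x => co cc x.1 + co cc' x.2)
    congr 1
    by_cases h : ∀ x ∈ U, co cc x.1 + co cc' x.2 + ce x • w = 0
    · rw [if_pos h]
      exact if_pos h
    · rw [if_neg h]
      exact if_neg h
  rw [h1]
  have hinj : Set.InjOn (fun U : Finset (Lab2 k) × Finset (Lab2 k') =>
      insertNone U.1 ×ˢ insertNone U.2) ((UsN k ×ˢ UsN k' : Finset _) : Set _) := by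
    rintro ⟨A, B⟩ - ⟨A', B'⟩ - h
    have h2 : insertNone A ×ˢ insertNone B = insertNone A' ×ˢ insertNone B' := h
    have e1 : A = A' := by
      ext l
      have h3 : ((some l, none) : LP k k') ∈ insertNone A ×ˢ insertNone B ↔
          ((some l, none) : LP k k') ∈ insertNone A' ×ˢ insertNone B' := by rw [h2]
      simpa [mem_product] using h3
    have e2 : B = B' := by
      ext l
      have h3 : ((none, some l) : LP k k') ∈ insertNone A ×ˢ insertNone B ↔
          ((none, some l) : LP k k') ∈ insertNone A' ×ˢ insertNone B' := by rw [h2]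
      simpa [mem_product] using h3
    rw [e1, e2]
  have hU : UsP k k' = (UsN k ×ˢ UsN k').image fun U => insertNone U.1 ×ˢ insertNone U.2 := by
    ext U
    rw [mem_UsP, mem_image]
    constructor
    · rintro ⟨A, hA, B, hB, e⟩
      exact ⟨(A, B), mem_product.2 ⟨hA, hB⟩, e⟩
    · rintro ⟨⟨A, B⟩, h, e⟩
      rw [mem_product] at h
      exact ⟨A, h.1, B, h.2, e⟩
  rw [hU, sum_image hinj, sum_product, mv, mv, sum_mul_sum]
  refine sum_congr rfl fun A _ => sum_congr rfl fun B _ => ?_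
  unfold iN
  rw [ite_zero_mul_ite_zero, mul_one]
  refine if_congr ⟨fun h => ⟨fun l hl => ?_, fun l hl => ?_⟩, fun h x hx => ?_⟩ rfl rfl
  · have h3 := h (some l, none) (mem_product.2 ⟨mem_io.2 (fun m hm => (by
      cases hm
      exact hl)), mem_io.2 (fun m hm => (by cases hm))⟩)
    have h4 : co cc (some l) + co cc' none = 0 := h3
    have h5 : cc l + 0 = 0 := h4
    rwa [add_zero] at h5
  · have h3 := h (none, some l) (mem_product.2 ⟨mem_io.2 (fun m hm => (by cases hm)),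
      mem_io.2 (fun m hm => (by
        cases hm
        exact hl))⟩)
    have h4 : co cc none + co cc' (some l) = 0 := h3
    have h5 : 0 + cc' l = 0 := h4
    rwa [zero_add] at h5
  · obtain ⟨o, p⟩ := x
    rw [mem_product] at hx
    have ho : co cc o = 0 := by
      cases o with
      | none => rfl
      | some l => exact h.1 l (mem_io.1 hx.1 l rfl)
    have hp : co cc' p = 0 := by
      cases p with
      | none => rfl
      | some l => exact h.2 l (mem_io.1 hx.2 l rfl)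
    show co cc o + co cc' p = 0
    rw [ho, hp, add_zero]

/-- **The mean value of the product of two mean values over the subsets.** -/
theorem pair_mean {D : Dat2 ι κ} {w : κ → ZMod 2} (hD : OKt D w) (cc : Lab2 k → κ → ZMod 2)
    (cc' : Lab2 k' → κ → ZMod 2) (ε : ℝ) (hε : 0 < ε) : ∃ X₀ : ℕ, ∀ X : ℕ, X₀ ≤ X →
      ‖∑ S ∈ Sx ι X, avg (BF D (Phi1 PhiQ) (gk D cc)) S * avg (BF D (Phi1 PhiQ) (gk D cc')) S -
        mv cc * mv cc' * ((Sx ι X).card : ℂ)‖ ≤ ε * X := by
  have hN : (0 : ℝ) < Fintype.card (LP k k' → ZMod 2) := by exact_mod_cast Fintype.card_pos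
  set ε' : ℝ := ε / Fintype.card (LP k k' → ZMod 2) with hε'
  have hε0 : 0 < ε' := by positivity
  choose X0 h0 using fun ce : LP k k' → ZMod 2 =>
    engineG D hD.an (LPs D k k' (cP w cc cc' ce)) (LPs_OK hD (cP w cc cc' ce)) ε' hε0
  refine ⟨∑ p, X0 p, fun X hX => ?_⟩
  have hXt : ∀ p, X0 p ≤ X := fun p =>
    (single_le_sum (fun _ _ => Nat.zero_le _) (mem_univ p)).trans hX
  rw [sum_congr rfl fun S _ => avg_mul D hD.tw cc cc' S, ← sum_mP w cc cc', sum_comm, sum_mul,
    ← sum_sub_distrib]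
  calc _ ≤ ∑ p : LP k k' → ZMod 2, ε' * X := by
        refine (norm_sum_le _ _).trans (sum_le_sum fun p _ => ?_)
        have h2 := h0 p X (hXt p)
        rw [← mul_sum, mul_assoc, ← mul_sub, norm_mul]
        have h3 := norm_Fh_le (PP k k') p
        calc _ ≤ 1 * _ := mul_le_mul_of_nonneg_right h3 (norm_nonneg _)
          _ ≤ _ := by
            rw [one_mul]
            exact h2
    _ = ε * X := by
        rw [sum_const, card_univ, nsmul_eq_mul, hε']
        field_simp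

end

end Pool.Agent.Lib.MP_1a91b9_ntDV
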