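import Pool.Agent.Lib.MP_1a91b9_ntDV.E13
import Pool.Agent.Lib.MP_1a91b9_ntP.J.Mom

/-!
# MP_1a91b9_nt (the divisor law), the system of `ℚ(√-3)`: definitions

The class of a prime modulo `4` is the element `a p` of `F4` and the reciprocity law is
`s p q + s q p = tr (a p * a q)`. For the symbols `s p q + (a p).a * (a q).b` the reciprocity law has rank one
(`D4`, `w4`), so the results on the mean squares apply.
-/

set_option autoImplicit false
set_option linter.unusedSectionVars false

namespace Pool.Agent.Lib.MP_1a91b9_ntDV

open Finset Pool.Agent.Lib.MP_1a91b9_ntH Pool.Agent.Lib.MP_1a91b9_ntQ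
open Pool.Agent.Lib.MP_1a91b9_ntQ.Da Pool.Agent.Lib.MP_1a91b9_ntV

noncomputable section

/-- The symbols with the reciprocity law of rank one, and the class characters: `true` and `false` are the
coordinates of the class in `F4`. -/
def D4 {ι κ : Type} (D : MP_1a91b9_ntP.DatG ι κ) : Dat2 ι (Bool ⊕ κ) where
  s p q := D.s p q + (D.a p).a * (D.a q).b
  a q := Sum.elim (fun b => if b = true then (D.a q).b else (D.a q).a) (D.g q)

/-- The class vector of the reciprocity law. -/
def w4 (κ : Type) : Bool ⊕ κ → ZMod 2 := Sum.elim (fun b => if b = true then 1 else 0) fun _ => 0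

/-- The class vector of the character `tr (c * a q)` and of the characters `e`. -/
def v4 {κ : Type} (c : F4) (e : κ → ZMod 2) : Bool ⊕ κ → ZMod 2 :=
  Sum.elim (fun b => if b = true then F4.tr (F4.w * c) else F4.tr c) e

/-- The number of the coordinates of the labels. -/
def K4 {A : Type} [Fintype A] (k : A → ℕ) : ℕ := 2 * ∑ a, k a

/-- The sum of the classes of the primes with the label `l`. -/
def cs4 {ι κ : Type} (D : MP_1a91b9_ntP.DatG ι κ) {L : Type} [DecidableEq L] (S : Finset ι)
    (f : S → L) (l : L) : F4 := ∑ j : S, if f j = l then D.a j else 0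

/-- The quadratic function of the sums of the classes. -/
def qd4 {L : Type} [Fintype L] (Phi : L → L → ZMod 2) (B : L → F4) : ZMod 2 :=
  ∑ l, ∑ m, Phi l m * ((B l).a * (B m).b)

open Classical in
/-- The mean value of `f` over the subsets `T` of `S` of the class `α` is `v`, for almost all `S`. -/
def P4 {ι κ : Type} [DecidableEq ι] [PS ι] (D : MP_1a91b9_ntP.DatG ι κ) (α : F4)
    (f : Finset ι → ℝ) (v : ℝ) : Prop :=
  AVr (fun T => if D.toDat.A T = α then f T else 0) (v / 4)

end

end Pool.Agent.Lib.MP_1a91b9_ntDV
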