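import Pool.Agent.Lib.MP_1a91b9_ntDV.K3_0

set_option autoImplicit false
set_option linter.unusedSectionVars false

namespace Pool.Agent.Lib.MP_1a91b9_ntDV

open Finset Pool.Agent.Lib.MP_1a91b9_ntH Pool.Agent.Lib.MP_1a91b9_ntQ
open Pool.Agent.Lib.MP_1a91b9_ntQ.Da Pool.Agent.Lib.MP_1a91b9_ntV
open Pool.Agent.Lib.MP_1a91b9_ntP (DatG LSysG LabJ Bs kJ offG)

noncomputable section

variable {ι : Type} {κ : Type} [Fintype κ]

private theorem K3_1_tr : ∀ c x : F4, F4.tr (F4.w * c) * x.b + F4.tr c * x.a = F4.tr (c * x) := by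
  decide

private theorem K3_1_rec : ∀ x y : F4, F4.tr (x * y) + (x.a * y.b + y.a * x.b) = x.b * y.b := by
  decide

private theorem K3_1_ex : ∀ u v : ZMod 2, F4.tr (F4.w * ⟨u + v, v⟩) = u ∧ F4.tr (⟨u + v, v⟩ : F4) = v := by
  decide

private theorem K3_1_z : ∀ c : F4, F4.tr (F4.w * c) = 0 → F4.tr c = 0 → c = 0 := by
  decide

private theorem K3_1_z0 : F4.tr (F4.w * 0) = 0 ∧ F4.tr 0 = 0 := by
  decide

private theorem K3_1_sum (f : ι → F4) (S : Finset ι) :
    (∑ q ∈ S, f q).a = ∑ q ∈ S, (f q).a ∧ (∑ q ∈ S, f q).b = ∑ q ∈ S, (f q).b := by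
  classical
  induction S using Finset.induction_on with
  | empty => exact ⟨rfl, rfl⟩
  | insert q S hq ih =>
    rw [sum_insert hq, sum_insert hq, sum_insert hq, ← ih.1, ← ih.2]
    exact ⟨rfl, rfl⟩

/-- **K3_1** (easy+, the whole file, 6 small theorems). The character with the class vector `v4 c e`.
Proof. `Dat2.dg` is the sum over `Bool ⊕ κ` (`Fintype.sum_sum_type`, `Fintype.sum_bool`); for `x = D.a q`:
`F4.tr (F4.w * c) * x.b + F4.tr c * x.a = F4.tr (c * x)` (a finite statement on `F4`: `revert`, `decide`), and the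
sum over `κ` is `D.lg e q` by definition. -/
theorem dg_v4 (D : DatG ι κ) (c : F4) (e : κ → ZMod 2) (q : ι) :
    (D4 D).dg (v4 c e) q = F4.tr (c * D.a q) + D.lg e q := by
  unfold Dat2.dg
  rw [Fintype.sum_sum_type, Fintype.sum_bool, ← K3_1_tr]
  rfl

theorem dg_w4 (D : DatG ι κ) (q : ι) : (D4 D).dg (w4 κ) q = (D.a q).b := by
  unfold Dat2.dg
  rw [Fintype.sum_sum_type, Fintype.sum_bool]
  have h1 : ∑ j : κ, w4 κ (Sum.inr j) * (D4 D).a q (Sum.inr j) = 0 :=
    sum_eq_zero fun j _ => zero_mul _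
  rw [h1]
  show 1 * (D.a q).b + 0 * (D.a q).a + 0 = (D.a q).b
  rw [one_mul, zero_mul, add_zero, add_zero]

/-- The reciprocity law of rank one: `F4.tr (x * y) + x.a * y.b + y.a * x.b = x.b * y.b`. -/
theorem tw_D4 (D : DatG ι κ) (h : D.toDat.Rec) (p q : ι) (hpq : p ≠ q) :
    (D4 D).s p q + (D4 D).s q p = (D4 D).dg (w4 κ) p * (D4 D).dg (w4 κ) q := by
  rw [dg_w4, dg_w4, ← K3_1_rec, ← h p q hpq]
  show (D.s p q + (D.a p).a * (D.a q).b) + (D.s q p + (D.a q).a * (D.a p).b) = _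
  ring

/-- Every class vector is a `v4`: `c = ⟨v (inl true) + v (inl false), v (inl false)⟩`. -/
theorem exists_v4 (v : Bool ⊕ κ → ZMod 2) : ∃ (c : F4) (e : κ → ZMod 2), v4 c e = v := by
  refine ⟨⟨v (Sum.inl true) + v (Sum.inl false), v (Sum.inl false)⟩, fun j => v (Sum.inr j), ?_⟩
  obtain ⟨h1, h2⟩ := K3_1_ex (v (Sum.inl true)) (v (Sum.inl false))
  funext x
  rcases x with b | j
  · cases b
    · exact h2
    · exact h1
  · rfl

theorem v4_eq_zero {c : F4} {e : κ → ZMod 2} : v4 c e = 0 ↔ c = 0 ∧ e = 0 := by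
  constructor
  · intro h
    refine ⟨K3_1_z c ?_ ?_, ?_⟩
    · exact congrFun h (Sum.inl true)
    · exact congrFun h (Sum.inl false)
    · funext j
      exact congrFun h (Sum.inr j)
  · rintro ⟨rfl, rfl⟩
    funext x
    rcases x with b | j
    · cases b
      · exact K3_1_z0.2
      · exact K3_1_z0.1
    · rfl

/-- The symbol of two sets: `∑ q ∈ S, ∑ p ∈ T, (a q).a * (a p).b = (A S).a * (A T).b`
(`F4` has the componentwise addition, so `(∑ q ∈ S, x q).a = ∑ q ∈ S, (x q).a`: induction on `S`). -/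
theorem ss_D4 (D : DatG ι κ) (S T : Finset ι) :
    (D4 D).ss S T = D.toDat.ss S T + (D.toDat.A S).a * (D.toDat.A T).b := by
  unfold Dat2.ss Dat.ss Dat.A
  rw [(K3_1_sum _ S).1, (K3_1_sum _ T).2, sum_mul_sum, ← sum_add_distrib]
  refine sum_congr rfl fun q _ => ?_
  rw [← sum_add_distrib]
  rfl

end

end Pool.Agent.Lib.MP_1a91b9_ntDV
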