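import Pool.Agent.Lib.MP_1a91b9_ntH.D.Defs

/-!
# MP_1a91b9_nt (the divisor law), block T: definitions

`SubL B c P`: for almost all the finite sets `S` of primes outside `B` at least the share `c` of the
subsets of `S` has the property `P`. `DivG R m u P c`: for almost all the squarefree `D` in the class of
`u` modulo `m` at least the share `c` of the divisors of `D` has the property `P`, and the number of the
divisors is large.
-/

set_option autoImplicit false
set_option linter.unusedSectionVars false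

namespace Pool.Agent.Lib.MP_1a91b9_ntDV

open Finset
open Pool.Agent.Lib.MP_1a91b9_ntH (PS nm Sx)

noncomputable section

open Classical in
/-- For almost all the finite sets `S` of primes outside `B` at least the share `c` of the subsets of `S`
has the property `P`. -/
def SubL {ι : Type} [DecidableEq ι] [PS ι] (B : Finset ι) (c : ℝ) (P : Finset ι → Prop) : Prop :=
  ∀ ε : ℝ, 0 < ε → ∃ X₀ : ℕ, ∀ X : ℕ, X₀ ≤ X →
    (((Sx ι X).filter fun S => Disjoint S B ∧
      ((S.powerset.filter P).card : ℝ) < (c - ε) * 2 ^ S.card).card : ℝ) ≤ ε * X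

/-- The number of the subsets is large for almost all the finite sets of primes. -/
def FewL (ι : Type) [DecidableEq ι] [PS ι] : Prop :=
  ∀ (M : ℕ) (ε : ℝ), 0 < ε → ∃ X₀ : ℕ, ∀ X : ℕ, X₀ ≤ X →
    (((Sx ι X).filter fun S => 2 ^ S.card < M).card : ℝ) ≤ ε * X

/-- For almost all the squarefree `D` in the class of `u` modulo `m` there are at least `M` divisors, and at
least the share `c` of the divisors has the property `P`. -/
def DivG (R : Type) [CommRing R] (m u : R) (P : R → Prop) (c : ℝ) : Prop :=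
  ∀ (M : ℕ) (ε : ℝ), 0 < ε → ∀ᶠ X : ℝ in Filter.atTop, 1 - ε ≤
    (Nat.card {D : R // Squarefree D ∧ m ∣ D - u ∧ |Algebra.norm ℤ D| ≤ X ∧
      M ≤ Nat.card {d : R // d ∣ D} ∧
      (c - ε) * Nat.card {d : R // d ∣ D} ≤ Nat.card {d : R // d ∣ D ∧ P d}} : ℝ) /
    (Nat.card {D : R // Squarefree D ∧ m ∣ D - u ∧ |Algebra.norm ℤ D| ≤ X} : ℝ)

/-- The squarefree elements in the class of `u` modulo `m` have a positive density. -/
def Pos (R : Type) [CommRing R] (m u : R) : Prop :=
  ∃ κ : ℝ, 0 < κ ∧ ∀ᶠ X : ℝ in Filter.atTop,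
    κ * X ≤ (Nat.card {D : R // Squarefree D ∧ m ∣ D - u ∧ |Algebra.norm ℤ D| ≤ X} : ℝ)

/-- The squarefree elements are the `μ i * ∏ x ∈ S, q x`. -/
structure Rep {R : Type} [CommRing R] {ι : Type} [DecidableEq ι] [PS ι] {I : Type} (q : ι → R)
    (μ : I → R) : Prop where
  prime : ∀ x, Prime (q x)
  nrm : ∀ x, (Algebra.norm ℤ (q x)).natAbs = PS.N x
  ne : ∀ i, Algebra.norm ℤ (μ i) ≠ 0
  sqf : ∀ (i : I) (S : Finset ι), Squarefree (μ i * ∏ x ∈ S, q x)
  inj : ∀ (i j : I) (S T : Finset ι), μ i * ∏ x ∈ S, q x = μ j * ∏ x ∈ T, q x → i = j ∧ S = T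
  surj : ∀ D : R, Squarefree D → ∃ (i : I) (S : Finset ι), D = μ i * ∏ x ∈ S, q x

end

end Pool.Agent.Lib.MP_1a91b9_ntDV
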