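import Pool.Agent.Lib.MP_1a91b9_ntDV.E10
import Pool.Agent.Lib.MP_1a91b9_ntDV.T0
import Pool.Agent.Lib.MP_1a91b9_ntP.J.Mom

set_option autoImplicit false
set_option linter.unusedSectionVars false

namespace Pool.Agent.Lib.MP_1a91b9_ntDV

open Finset Pool.Agent.Lib.MP_1a91b9_ntH Pool.Agent.Lib.MP_1a91b9_ntQ
open Pool.Agent.Lib.MP_1a91b9_ntQ.Da Pool.Agent.Lib.MP_1a91b9_ntV
open Pool.Agent.Lib.MP_1a91b9_ntP (DatG LSysG LabJ Bs kJ offG)

noncomputable section

open Pool.Agent.Lib.MP_1a91b9_ntQ (Off up dn)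

variable {ι : Type} [DecidableEq ι] [PS ι]

open Classical in
/-- **K3_10** (medium-). From the mean square over the primes outside `B` to `SubL`.
Proof. Let `c' = c - ε < c` and `ε' = ε / (|C| + 1)`; `hC` for the sets outside `B`: `(Sx (Off B) X).card ≤ (Sx ι X).card`
(`MP_1a91b9_ntQ.sum_Sx_off` with the function `1`, or `up` is injective and maps `Sx (Off B) X` to `Sx ι X`, `up_mem_Sx`). By
`AVr.rare h (v' := c - ε)` the number of the `S ∈ Sx (Off B) X` with `avr F S < c - ε` is at most
`ε' * ((Sx (Off B) X).card + X) ≤ ε' * (|C| + 1) * X = ε * X`. The map `S ↦ dn B S` maps the set of the `S ∈ Sx ι X` with `Disjoint S B`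
and `#{T ⊆ S | P T} < (c - ε) * 2 ^ #S` injectively to it (`up (dn B S) = S`, `up_dn`; `nm_up`): for `S = up S'` the subsets of
`S` are the `up T'`, `T' ⊆ S'` (`T ↦ dn B T`), so `#{T ⊆ S | P T} = ∑ T' ∈ S'.powerset, if P (up T') then 1 else 0 = avr F S' * 2 ^ #S'`
and `#S = #S'` (`up_injective` ..; see MP_1a91b9_ntQ/D for `up`, `dn`, `Off`). -/
theorem SubL_of_AVr {B : Finset ι} {C : ℝ} (hC : ∀ X : ℕ, ((Sx ι X).card : ℝ) ≤ C * X)
    {P : Finset ι → Prop} {c : ℝ}
    (h : AVr (fun S : Finset (Off B) => if P (up S) then (1 : ℝ) else 0) c) : SubL B c P := by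
  classical
  have hup : ∀ X : ℕ, (Sx (Off B) X).card ≤ (Sx ι X).card := by
    intro X
    refine card_le_card_of_injOn (fun S => up S) ?_ ?_
    · intro S hS
      exact up_mem_Sx.2 hS
    · intro S _ T _ hST
      exact up_injective hST
  have hkey : ∀ (ε : ℝ) (S : Finset ι), Disjoint S B →
      ((S.powerset.filter P).card : ℝ) < (c - ε) * 2 ^ S.card →
      avr (fun S : Finset (Off B) => if P (up S) then (1 : ℝ) else 0) (dn B S) < c - ε := by
    intro ε S hS hlt
    have h1 : up (dn B S) = S := up_dn hS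
    have h2 : (dn B S).card = S.card := by
      have h3 : (up (dn B S)).card = (dn B S).card := card_map _
      rw [← h3, h1]
    have h3 : (∑ T ∈ (dn B S).powerset, if P (up T) then (1 : ℝ) else 0) ≤
        ((S.powerset.filter P).card : ℝ) := by
      rw [sum_boole]
      have h4 : ((dn B S).powerset.filter fun T => P (up T)).card ≤ (S.powerset.filter P).card := by
        refine card_le_card_of_injOn (fun T => up T) ?_ ?_
        · intro T hT
          obtain ⟨h5, h6⟩ := mem_filter.1 hT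
          refine mem_filter.2 ⟨?_, h6⟩
          rw [mem_powerset] at h5 ⊢
          rw [← h1]
          exact map_subset_map.2 h5
        · intro T _ T' _ hTT
          exact up_injective hTT
      exact_mod_cast h4
    have h4 : (0 : ℝ) < 2 ^ S.card := by positivity
    unfold avr
    rw [h2, div_lt_iff₀ h4]
    exact lt_of_le_of_lt h3 hlt
  intro ε hε
  have hC1 : 0 < |C| + 1 := by positivity
  obtain ⟨X₀, hX₀⟩ := AVr.rare h (v' := c - ε) (by linarith) (ε / (|C| + 1)) (div_pos hε hC1)
  refine ⟨X₀, fun X hX => ?_⟩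
  have h1 := hX₀ X hX
  have h2 : ((Sx (Off B) X).card : ℝ) + X ≤ (|C| + 1) * X := by
    have h3 : ((Sx (Off B) X).card : ℝ) ≤ (Sx ι X).card := by exact_mod_cast hup X
    have h4 := hC X
    have h5 : C * X ≤ |C| * X := mul_le_mul_of_nonneg_right (le_abs_self C) (Nat.cast_nonneg X)
    linarith
  have h3 : ε / (|C| + 1) * (((Sx (Off B) X).card : ℝ) + X) ≤ ε * X := by
    calc ε / (|C| + 1) * (((Sx (Off B) X).card : ℝ) + X) ≤ ε / (|C| + 1) * ((|C| + 1) * X) :=
          mul_le_mul_of_nonneg_left h2 (div_pos hε hC1).le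
      _ = ε * X := by field_simp
  refine le_trans ?_ (le_trans h1 h3)
  have h4 : ((Sx ι X).filter fun S => Disjoint S B ∧
      ((S.powerset.filter P).card : ℝ) < (c - ε) * 2 ^ S.card).card ≤
      ((Sx (Off B) X).filter fun S =>
        avr (fun S : Finset (Off B) => if P (up S) then (1 : ℝ) else 0) S < c - ε).card := by
    refine card_le_card_of_injOn (fun S => dn B S) ?_ ?_
    · intro S hS
      obtain ⟨h5, h6, h7⟩ := mem_filter.1 hS
      refine mem_filter.2 ⟨?_, hkey ε S h6 h7⟩
      rw [← up_mem_Sx, up_dn h6]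
      exact h5
    · intro S hS T hT hST
      obtain ⟨_, h6, _⟩ := mem_filter.1 hS
      obtain ⟨_, h7, _⟩ := mem_filter.1 hT
      rw [← up_dn h6, ← up_dn h7]
      exact congrArg up hST
  exact_mod_cast h4

end

end Pool.Agent.Lib.MP_1a91b9_ntDV
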