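import Pool.Agent.Lib.MP_1a91b9_ntDV.K3_0
import Pool.Agent.Lib.MP_1a91b9_ntDV.P1

set_option autoImplicit false
set_option linter.unusedSectionVars false

namespace Pool.Agent.Lib.MP_1a91b9_ntDV

open Finset Pool.Agent.Lib.MP_1a91b9_ntH Pool.Agent.Lib.MP_1a91b9_ntQ
open Pool.Agent.Lib.MP_1a91b9_ntQ.Da Pool.Agent.Lib.MP_1a91b9_ntV
open Pool.Agent.Lib.MP_1a91b9_ntP (DatG LSysG LabJ Bs kJ offG)

noncomputable section

variable {ι : Type} [DecidableEq ι] [PS ι] {κ : Type}

/-- **K3_8a** (easy+). The rules for `P4`. Proof: as `limP_Pcl` (MP_1a91b9_ntDV/P2.lean, in the store as DV_P2.lean), with `4`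
in place of `2 ^ card κ`. -/
theorem limP_P4 (D : DatG ι κ) (α : F4) : LimP (P4 D α) := by
  refine ⟨fun f h v w hf hh => ?_, fun f v a hf => ?_, fun f v hb => ?_⟩
  · refine AVr.congr (AVr.add hf hh) (fun T => ?_) (add_div _ _ _)
    split_ifs
    · rfl
    · rw [add_zero]
  · refine AVr.congr (AVr.smul hf a) (fun T => ?_) (mul_div_assoc _ _ _)
    split_ifs
    · rfl
    · rw [mul_zero]
  · refine AVr.of_bounds fun δ hδ => ?_
    obtain ⟨l, u, vl, vu, hl, hu, h1, h2, h3⟩ := hb δ hδ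
    refine ⟨fun T => if D.toDat.A T = α then l T else 0, fun T => if D.toDat.A T = α then u T else 0,
      vl / 4, vu / 4, hl, hu, by linarith, by linarith, fun T => ?_⟩
    by_cases hc : D.toDat.A T = α
    · simp only [if_pos hc]
      exact h3 T
    · simp only [if_neg hc]
      exact ⟨le_rfl, le_rfl⟩

/-- **K3_8b** (easy+). The mean values in a class from the mean values with the characters.
Proof. For every `S`: `(if A S = α then g S else 0) = ∑ y, (sg (F4.tr (y * α)) / 4) * (g S * sg (F4.tr (y * A S)))`, because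
`∑ y, sg (F4.tr (y * α)) * sg (F4.tr (y * β)) = ∑ y, sg (F4.tr ((α + β) * y)) = if α + β = 0 then 4 else 0`
(see the proof of `sum_class`, MP_1a91b9_ntH/D/Cls.lean; or `decide` is not possible for `sg`, use `MP_1a91b9_ntH.Da.sum_sg_tr`,
MP_1a91b9_ntH/D/K3c.lean; both are in the closure of MP_1a91b9_ntP.J.Mom). Then `AVr.smul`, `AVr.sum univ`, `AVr.congr`: the value
is `∑ y, sg (F4.tr (y * α)) / 4 * (if y = 0 then v else 0) = v / 4`. -/
theorem P4_of (D : DatG ι κ) (α : F4) {g : Finset ι → ℝ} {v : ℝ}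
    (h : ∀ y : F4, AVr (fun S => g S * sg (F4.tr (y * D.toDat.A S))) (if y = 0 then v else 0)) :
    P4 D α g v := by
  unfold P4
  have h1 := AVr.sum univ fun (y : F4) _ => AVr.smul (h y) (sg (F4.tr (y * α)) / 4)
  refine AVr.congr h1 (fun S => ?_) ?_
  · have h2 : ∑ y : F4, sg (F4.tr (y * α)) / 4 * (g S * sg (F4.tr (y * D.toDat.A S))) =
        g S / 4 * ∑ y : F4, sg (F4.tr ((D.toDat.A S + α) * y)) := by
      rw [mul_sum]
      refine sum_congr rfl fun y _ => ?_
      rw [add_mul, F4.tr_add, sg_add, mul_comm (D.toDat.A S) y, mul_comm α y]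
      ring
    rw [h2, MP_1a91b9_ntH.Da.sum_sg_tr]
    have hd : ∀ x y : F4, x + y = 0 ↔ x = y := by decide
    by_cases hc : D.toDat.A S = α
    · rw [if_pos hc, if_pos ((hd _ _).2 hc)]
      ring
    · rw [if_neg hc, if_neg fun h' => hc ((hd _ _).1 h')]
      ring
  · rw [sum_eq_single (0 : F4)]
    · rw [if_pos rfl, zero_mul, show F4.tr (0 : F4) = 0 from by decide, sg_zero]
      ring
    · intro y _ hy
      rw [if_neg hy, mul_zero]
    · intro h
      exact absurd (mem_univ _) h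

/-- **K3_8c** (easy). The sum over the classes. Proof: `AVr.sum univ` over `α : F4` and
`∑ α, (if A T = α then f α T else 0) = f (A T) T` (`Finset.sum_ite_eq`); `∑ α : F4, v / 4 = v` (`F4.card_F4`). -/
theorem AVr_of_P4 (D : DatG ι κ) {f : F4 → Finset ι → ℝ} {v : ℝ} (h : ∀ α, P4 D α (f α) v) :
    AVr (fun T => f (D.toDat.A T) T) v := by
  classical
  have h1 := AVr.sum univ fun (α : F4) _ => h α
  refine AVr.congr h1 (fun T => ?_) ?_
  · rw [Finset.sum_ite_eq, if_pos (mem_univ _)]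
  · rw [Finset.sum_const, Finset.card_univ, F4.card_F4, nsmul_eq_mul]
    push_cast
    ring

end

end Pool.Agent.Lib.MP_1a91b9_ntDV
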