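import Pool.Agent.Lib.MP_1a91b9_ntDV.P1
import Pool.Agent.Lib.MP_1a91b9_ntP.J.Lim
import Pool.Agent.Lib.MP_1a91b9_ntP.J.Mom

set_option autoImplicit false
set_option linter.unusedSectionVars false

namespace Pool.Agent.Lib.MP_1a91b9_ntDV

open Finset Pool.Agent.Lib.MP_1a91b9_ntH Pool.Agent.Lib.MP_1a91b9_ntQ
open Pool.Agent.Lib.MP_1a91b9_ntQ.Da Pool.Agent.Lib.MP_1a91b9_ntV
open Pool.Agent.Lib.MP_1a91b9_ntP (DatG LSysG LabJ Bs kJ offG)

noncomputable section

variable {β : Type} {P : (β → ℝ) → ℝ → Prop} {A : Type} [Fintype A] [DecidableEq A]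

section K3_9_helpers

open Filter Topology
open Pool.Agent.Lib.MP_1a91b9_ntH.Da (Nk Nk_succ' Fj pK pK_succ pK_one pK_pow sK cinf tendsto_sK)

private structure K3_9_M (P : (β → ℝ) → ℝ → Prop) (f : β → ℝ) (v : ℝ) : Prop where
  hP : LimP P
  h0 : P (fun _ => 0) 0
  h : P f v

private theorem K3_9_M.add {f h : β → ℝ} {v w : ℝ} (hf : K3_9_M P f v) (hh : K3_9_M P h w) :
    K3_9_M P (fun x => f x + h x) (v + w) := ⟨hf.hP, hf.h0, hf.hP.add _ _ _ _ hf.h hh.h⟩

private theorem K3_9_M.smul {f : β → ℝ} {v : ℝ} (hf : K3_9_M P f v) (a : ℝ) :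
    K3_9_M P (fun x => a * f x) (a * v) := ⟨hf.hP, hf.h0, hf.hP.smul _ _ _ hf.h⟩

private theorem K3_9_M.congr {f h : β → ℝ} {v w : ℝ} (hf : K3_9_M P f v)
    (h1 : ∀ x, h x = f x) (h2 : w = v) : K3_9_M P h w := by
  rw [h2, show h = f from funext h1]
  exact hf

private theorem K3_9_M.sum (hP : LimP P) (h0 : P (fun _ => 0) 0) {ι : Type} {f : ι → β → ℝ} {v : ι → ℝ}
    (s : Finset ι) (h : ∀ i ∈ s, K3_9_M P (f i) (v i)) :
    K3_9_M P (fun x => ∑ i ∈ s, f i x) (∑ i ∈ s, v i) :=
  ⟨hP, h0, hP.sum s (fun i hi => (h i hi).h) h0⟩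

private theorem K3_9_Fj {f : β → ℝ} {x : β → ℝ} {w : ℝ}
    (hm : ∀ k, K3_9_M P (fun b => f b * x b ^ k) (w * Nk k)) (j : ℕ) :
    ∀ m : ℕ, K3_9_M P (fun b => f b * (x b ^ m * Fj j (x b)))
      (w * (2 ^ (j ^ 2) * 4 ^ (j * m) * Nk m)) := by
  induction j with
  | zero =>
    intro m
    refine (hm m).congr (fun x => ?_) ?_
    · simp [Fj]
    · simp
  | succ j ih =>
    intro m
    refine ((ih (m + 1)).add ((ih m).smul (-(4 ^ j)))).congr (fun x => ?_) ?_
    · rw [Fj, prod_range_succ, ← Fj]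
      ring
    · rw [Nk_succ']
      have e1 : (4 : ℝ) ^ (j * (m + 1)) = 4 ^ (j * m) * 4 ^ j := by rw [← pow_add]; ring_nf
      have e2 : (4 : ℝ) ^ ((j + 1) * m) = 4 ^ (j * m) * 4 ^ m := by rw [← pow_add]; ring_nf
      have e3 : (2 : ℝ) ^ ((j + 1) ^ 2) = 2 ^ (j ^ 2) * 4 ^ j * 2 := by
        have : (4 : ℝ) ^ j = 2 ^ (2 * j) := by rw [pow_mul]; norm_num
        rw [this, ← pow_add, ← pow_succ]
        ring_nf
      rw [e1, e2, e3]
      ring

private theorem K3_9_pK {f : β → ℝ} {x : β → ℝ} {w : ℝ}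
    (hm : ∀ k, K3_9_M P (fun b => f b * x b ^ k) (w * Nk k)) (K : ℕ) :
    K3_9_M P (fun b => f b * pK K (x b)) (w * sK K) := by
  induction K with
  | zero =>
    refine (hm 0).congr (fun x => ?_) ?_
    · simp [pK]
    · simp [sK, Nk]
  | succ K ih =>
    refine (ih.add ((K3_9_Fj hm (K + 1) 0).smul
      ((-1) ^ (K + 1) / ∏ i ∈ range (K + 1), (4 ^ (i + 1) - 1)))).congr
      (fun b => ?_) ?_
    · rw [pK_succ]
      ring
    · rw [sK, sum_range_succ, ← sK]
      simp [Nk]
      ring

private theorem K3_9_prod {x : A → β → ℝ}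
    (hm : ∀ k : A → ℕ, K3_9_M P (fun b => ∏ a, x a b ^ k a) (∏ a, (Nk (k a) : ℝ))) (Kf : A → ℕ) :
    K3_9_M P (fun b => ∏ a, pK (Kf a) (x a b)) (∏ a, sK (Kf a)) := by
  have key : ∀ (s : Finset A) (k : A → ℕ), K3_9_M P
      (fun b => (∏ a ∈ s, pK (Kf a) (x a b)) * ∏ a ∈ univ \ s, x a b ^ k a)
      ((∏ a ∈ s, sK (Kf a)) * ∏ a ∈ univ \ s, (Nk (k a) : ℝ)) := by
    intro s
    induction s using Finset.induction_on with
    | empty =>
      intro k
      refine (hm k).congr (fun b => ?_) ?_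
      · rw [prod_empty, one_mul, sdiff_empty]
      · rw [prod_empty, one_mul, sdiff_empty]
    | insert a s ha ih =>
      intro k
      have hins : univ \ s = insert a (univ \ insert a s) := by
        ext b
        rw [Finset.mem_sdiff, Finset.mem_insert, Finset.mem_sdiff, Finset.mem_insert]
        by_cases hb : b = a
        · subst hb
          simp [ha]
        · simp [hb]
      have hna : a ∉ univ \ insert a s := by
        simp
      have h1 : ∀ j : ℕ, K3_9_M P (fun b => ((∏ a ∈ s, pK (Kf a) (x a b)) *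
          ∏ a ∈ univ \ insert a s, x a b ^ k a) * x a b ^ j)
          (((∏ a ∈ s, sK (Kf a)) * ∏ a ∈ univ \ insert a s, (Nk (k a) : ℝ)) * Nk j) := by
        intro j
        refine (ih (Function.update k a j)).congr (fun b => ?_) ?_
        · rw [hins, prod_insert hna, Function.update_self]
          have h2 : ∏ c ∈ univ \ insert a s, x c b ^ Function.update k a j c =
              ∏ c ∈ univ \ insert a s, x c b ^ k c :=
            prod_congr rfl fun c hc => by
              have hca : c ≠ a := by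
                intro h
                rw [h] at hc
                exact hna hc
              rw [Function.update_of_ne hca]
          rw [h2]
          ring
        · rw [hins, prod_insert hna, Function.update_self]
          have h2 : ∏ c ∈ univ \ insert a s, (Nk (Function.update k a j c) : ℝ) =
              ∏ c ∈ univ \ insert a s, (Nk (k c) : ℝ) :=
            prod_congr rfl fun c hc => by
              have hca : c ≠ a := by
                intro h
                rw [h] at hc
                exact hna hc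
              rw [Function.update_of_ne hca]
          rw [h2]
          ring
      refine (K3_9_pK h1 (Kf a)).congr (fun b => ?_) ?_
      · rw [prod_insert ha]
        ring
      · rw [prod_insert ha]
        ring
  refine (key univ fun _ => 0).congr (fun b => ?_) ?_
  · rw [Finset.sdiff_self, prod_empty, mul_one]
  · rw [Finset.sdiff_self, prod_empty, mul_one]

private theorem K3_9_dens (hP : LimP P) (h0 : P (fun _ => 0) 0) {x : A → β → ℕ}
    (hp : ∀ a b, ∃ r, x a b = 4 ^ r)
    (hm : ∀ Kf : A → ℕ, K3_9_M P (fun b => ∏ a, pK (Kf a) (x a b)) (∏ a, sK (Kf a))) :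
    P (fun b => ∏ a, if x a b = 1 then (1 : ℝ) else 0) (cinf ^ Fintype.card A) := by
  classical
  set n := Fintype.card A with hn
  have t1 : Tendsto (fun N : ℕ => 2 * N + 1) atTop atTop :=
    tendsto_atTop_mono (fun N => by show N ≤ 2 * N + 1; omega) tendsto_id
  have t2 : Tendsto (fun N : ℕ => 2 * N) atTop atTop :=
    tendsto_atTop_mono (fun N => by show N ≤ 2 * N; omega) tendsto_id
  have t3 := tendsto_sK.comp t1
  have t4 := tendsto_sK.comp t2
  have t5 := ((t3.mul (t4.pow (n - 1))).const_mul (n : ℝ)).sub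
    ((t4.pow n).const_mul ((n : ℝ) - 1))
  have t6 : (n : ℝ) * (cinf * cinf ^ (n - 1)) - (n - 1) * cinf ^ n = cinf ^ n := by
    rcases Nat.eq_zero_or_pos n with h0 | h0
    · rw [h0]
      simp
    · obtain ⟨m, hm⟩ : ∃ m, n = m + 1 := ⟨n - 1, by omega⟩
      rw [hm, Nat.add_sub_cancel, pow_succ]
      push_cast
      ring
  rw [t6] at t5
  have t7 := t4.pow n
  refine hP.bds _ _ fun δ hδ => ?_
  obtain ⟨N, hN1, hN2⟩ := ((t5.eventually (lt_mem_nhds (by linarith : cinf ^ n - δ < cinf ^ n))).and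
    (t7.eventually (gt_mem_nhds (by linarith : cinf ^ n < cinf ^ n + δ)))).exists
  have hodd : Odd (2 * N + 1) := ⟨N, rfl⟩
  have heven : Even (2 * N) := ⟨N, by ring⟩
  have hA : ∀ a, K3_9_M P (fun b => pK (2 * N + 1) (x a b) * ∏ c ∈ univ.erase a, pK (2 * N) (x c b))
      (sK (2 * N + 1) * sK (2 * N) ^ (n - 1)) := by
    intro a
    refine (hm fun c => if c = a then 2 * N + 1 else 2 * N).congr (fun b => ?_) ?_
    · rw [← mul_prod_erase univ _ (mem_univ a), if_pos rfl]
      congr 1
      exact prod_congr rfl fun c hc => by rw [if_neg (ne_of_mem_erase hc)]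
    · rw [← mul_prod_erase univ _ (mem_univ a), if_pos rfl]
      congr 1
      rw [prod_congr rfl fun c hc => by rw [if_neg (ne_of_mem_erase hc)], prod_const,
        card_erase_of_mem (mem_univ a), card_univ]
  have hB : K3_9_M P (fun b => ∏ a, pK (2 * N) (x a b)) (sK (2 * N) ^ n) := by
    refine (hm fun _ => 2 * N).congr (fun b => rfl) ?_
    rw [prod_const, card_univ]
  have hC := (K3_9_M.sum hP h0 univ fun a _ => hA a).add (hB.smul (-((n : ℝ) - 1)))
  refine ⟨_, _, _, _, hC.h, hB.h, ?_, hN2.le, fun b => ?_⟩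
  · rw [sum_const, card_univ, nsmul_eq_mul]
    have h1 : cinf ^ n - δ < (n : ℝ) * (sK (2 * N + 1) * sK (2 * N) ^ (n - 1)) -
        ((n : ℝ) - 1) * sK (2 * N) ^ n := hN1
    linarith
  · have hi : ∀ a, (0 : ℝ) ≤ if x a b = 1 then (1 : ℝ) else 0 := fun a => by
      split_ifs <;> norm_num
    have hu : ∀ a, (if x a b = 1 then (1 : ℝ) else 0) ≤ pK (2 * N) (x a b) := by
      intro a
      split_ifs with h
      · rw [h, Nat.cast_one, pK_one]
      · obtain ⟨r, hr⟩ := hp a b
        have hr0 : r ≠ 0 := by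
          intro h0
          rw [h0, pow_zero] at hr
          exact h hr
        rw [hr]
        push_cast
        exact (pK_pow (2 * N) r hr0).2 heven
    have hl : ∀ a, pK (2 * N + 1) (x a b) ≤ if x a b = 1 then (1 : ℝ) else 0 := by
      intro a
      split_ifs with h
      · rw [h, Nat.cast_one, pK_one]
      · obtain ⟨r, hr⟩ := hp a b
        have hr0 : r ≠ 0 := by
          intro h0
          rw [h0, pow_zero] at hr
          exact h hr
        rw [hr]
        push_cast
        exact (pK_pow (2 * N + 1) r hr0).1 hodd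
    have h3 := MP_1a91b9_ntP.bonf (fun a => pK (2 * N) (x a b))
      (fun a => if x a b = 1 then (1 : ℝ) else 0)
      (fun a => pK (2 * N + 1) (x a b)) hi hu hl
    rw [← hn] at h3
    constructor
    · show ∑ a, pK (2 * N + 1) (x a b) * ∏ c ∈ univ.erase a, pK (2 * N) (x c b) +
        -((n : ℝ) - 1) * ∏ a, pK (2 * N) (x a b) ≤ _
      linarith
    · exact prod_le_prod (fun a _ => hi a) fun a _ => hu a

end K3_9_helpers

/-- **K3_9** (medium-, a copy with another notion of mean value). From the joint moments to the density,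
`ℚ(√-3)`. Proof. Copy `MV_Fj`, `MV_pK`, `MV_prod` (the versions for `pK`, `sK`, `Nk`; MP_1a91b9_ntP/J/Lim.lean) with `P` in
place of `MV B`: they use only `MV.add`, `MV.smul`, `MV.sum`, `MV.congr`, which are `hP.add`, `hP.smul`, `hP.sum` and
rewriting of the function (`funext`). For the bounds (`hP.bds`): given `δ`, the lower bound is
`∑ a, pK (2 N + 1) (x a) * ∏ c ≠ a, pK (2 N) (x c) - (n - 1) * ∏ a, pK (2 N) (x a)` with the mean value `vN n N → cinf ^ n`
(`bonf`, `tendsto_vN`; the proof of `dens_prod`, MP_1a91b9_ntP/J/Lim.lean; for `n = 0` the function is `1` and the claim is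
the moment `k = 0`), and the upper bound is `∏ a, pK (2 N) (x a)` with the mean value `sK (2 N) ^ n → cinf ^ n` (the proof
of `dens_upper`, MP_1a91b9_ntP/J/Dens.lean). Model: `LimP.Nk` (in the store as DV_P1.lean). -/
theorem LimP.Nk4 (hP : LimP P) {x : A → β → ℕ} (hp : ∀ a b, ∃ r, x a b = 4 ^ r)
    (hm : ∀ k : A → ℕ, P (fun b => ∏ a, (x a b : ℝ) ^ k a)
      (∏ a, (MP_1a91b9_ntH.Da.Nk (k a) : ℝ))) :
    P (fun b => ∏ a, if x a b = 1 then (1 : ℝ) else 0)
      (MP_1a91b9_ntH.Da.cinf ^ Fintype.card A) := by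
  have h0 : P (fun _ => 0) 0 := by
    have h1 := hP.smul _ _ 0 (hm fun _ => 0)
    rw [zero_mul, show (fun b => 0 * ∏ a : A, (x a b : ℝ) ^ 0) = (fun _ : β => (0 : ℝ)) from
      funext fun b => zero_mul _] at h1
    exact h1
  exact K3_9_dens hP h0 hp fun Kf => K3_9_prod (fun k => ⟨hP, h0, hm k⟩) Kf

end

end Pool.Agent.Lib.MP_1a91b9_ntDV
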