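import Pool.Agent.Lib.MP_1a91b9_ntDV.K3_7
import Pool.Agent.Lib.MP_1a91b9_ntDV.K3_8
import Pool.Agent.Lib.MP_1a91b9_ntDV.K3_9

/-!
# MP_1a91b9_nt (the divisor law), the system of `ℚ(√-3)`: the mean value of the indicator, in a class
-/

set_option autoImplicit false
set_option linter.unusedSectionVars false

namespace Pool.Agent.Lib.MP_1a91b9_ntDV

open Finset Pool.Agent.Lib.MP_1a91b9_ntH Pool.Agent.Lib.MP_1a91b9_ntQ
open Pool.Agent.Lib.MP_1a91b9_ntQ.Da Pool.Agent.Lib.MP_1a91b9_ntV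
open Pool.Agent.Lib.MP_1a91b9_ntP (DatG LSysG LabJ Bs kJ offG)

noncomputable section

open Pool.Agent.Lib.MP_1a91b9_ntQ (Off up dn)

variable {ι : Type} [DecidableEq ι] [PS ι] {D : MP_1a91b9_ntE.DatE ι} {A : Type} [Fintype A]
  [DecidableEq A]

open Classical in
/-- The mean value of the indicator of the good subsets for several labels, in a class: `cinf ^ n`. -/
theorem P4_dens (hD : D.toDat.Rec) (Q : A → Bs D) {B : Finset ι} (hB : (offG D B).OK)
    {T : A → Finset ι} (hT : ∀ a, T a ⊆ B)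
    (hi : Function.Injective fun a => ((Q a).ρ, (Q a).τ, T a)) (α : F4) :
    P4 (offG D B) α (fun S : Finset (Off B) =>
        ∏ a, if (Q a).kz (up S ∪ T a) = 1 then (1 : ℝ) else 0)
      (MP_1a91b9_ntH.Da.cinf ^ Fintype.card A) := by
  refine LimP.Nk4 (limP_P4 (offG D B) α) (x := fun a S => (Q a).kz (up S ∪ T a))
    (fun a S => (Q a).pow _) fun k => P4_of _ α fun y => ?_
  exact AVr_kJ hD Q hB hT hi k y

end

end Pool.Agent.Lib.MP_1a91b9_ntDV
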