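import Pool.Agent.Lib.MP_1a91b9_ntDV.T0

/-!
# MP_1a91b9_nt (the divisor law), block T: the divisors of a squarefree element
-/

set_option autoImplicit false
set_option linter.unusedSectionVars false

namespace Pool.Agent.Lib.MP_1a91b9_ntDV

open Finset
open Pool.Agent.Lib.MP_1a91b9_ntH (PS nm Sx mem_Sx)

noncomputable section

variable {R : Type} [CommRing R] [IsDomain R] {ι : Type} [DecidableEq ι] [PS ι] {I : Type}
  {q : ι → R} {μ : I → R}

omit [DecidableEq ι] [PS ι] in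
private theorem T3_cancel {a b p : R} (hp : Prime p) (ha : ¬ p ∣ a) (h : a ∣ b * p) : a ∣ b := by
  obtain ⟨c, hc⟩ := h
  have h1 : p ∣ a * c := ⟨b, by rw [← hc, mul_comm]⟩
  rcases hp.dvd_or_dvd h1 with h2 | ⟨c', rfl⟩
  · exact absurd h2 ha
  · refine ⟨c', mul_right_cancel₀ hp.ne_zero ?_⟩
    rw [hc]
    ring

private theorem T3_notdvd (h : Rep q μ) (j : I) (x : ι) : ¬ q x ∣ μ j := by
  intro h1
  have h2 : q x * q x ∣ μ j * ∏ y ∈ ({x} : Finset ι), q y := by
    rw [Finset.prod_singleton]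
    exact mul_dvd_mul h1 dvd_rfl
  exact (h.prime x).not_isUnit (h.sqf j {x} (q x) h2)

private theorem T3_remove (h : Rep q μ) (i j : I) (S : Finset ι) (hS : μ j ∣ μ i * ∏ x ∈ S, q x) :
    μ j ∣ μ i := by
  induction S using Finset.induction_on with
  | empty => rwa [Finset.prod_empty, mul_one] at hS
  | insert x S hx ih =>
    rw [Finset.prod_insert hx, mul_comm (q x), ← mul_assoc] at hS
    exact ih (T3_cancel (h.prime x) (T3_notdvd h j x) hS)

/-- **T3a** (easy+). The divisors. Proof. From the right to the left: `mul_dvd_mul`,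
`Finset.prod_dvd_prod_of_subset`. From the left to the right. (1) `T ⊆ S`: let `x ∈ T`, `x ∉ S`; then
`q x ∣ μ i * ∏ S`, so `q x * q x ∣ μ i * ∏ (insert x S)` (`prod_insert`), and by `h.sqf i (insert x S)` `q x` is a
unit, a contradiction to `h.prime x`. (2) `μ j ∣ μ i`: `μ j ∣ μ i * ∏ S`; `q x` does not divide `μ j` (otherwise
`q x * q x ∣ μ j * q x = μ j * ∏ {x}`, again a contradiction to `h.sqf j {x}`); for a prime `p` with `¬ p ∣ a` and
`a ∣ b * p` one has `a ∣ b` (`b * p = a * c`, `p ∣ c`, cancel `p`); remove the primes of `S` one after the other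
(`Finset.induction_on S`). -/
theorem Rep.dvd_iff (h : Rep q μ) {i j : I} {S T : Finset ι} :
    μ j * ∏ x ∈ T, q x ∣ μ i * ∏ x ∈ S, q x ↔ μ j ∣ μ i ∧ T ⊆ S := by
  constructor
  · intro hd
    refine ⟨T3_remove h i j S ((dvd_mul_right _ _).trans hd), ?_⟩
    intro x hx
    by_contra hxS
    have h1 : q x ∣ μ i * ∏ x ∈ S, q x :=
      ((Finset.dvd_prod_of_mem q hx).trans (dvd_mul_left _ _)).trans hd
    have h2 : q x * q x ∣ μ i * ∏ y ∈ insert x S, q y := by
      rw [Finset.prod_insert hxS, mul_left_comm]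
      exact mul_dvd_mul dvd_rfl h1
    exact (h.prime x).not_isUnit (h.sqf i (insert x S) (q x) h2)
  · rintro ⟨h1, h2⟩
    exact mul_dvd_mul h1 (Finset.prod_dvd_prod_of_subset _ _ _ h2)

open Classical in
/-- **T3b** (medium-). The number of the divisors with a property. Proof. A divisor `d` of the squarefree
`D = μ i * ∏ S` is squarefree (`Squarefree.squarefree_of_dvd`), so `d = μ j * ∏ T` (`h.surj`), with unique `j`, `T`
(`h.inj`), and `Rep.dvd_iff`. So the type on the left is equivalent to the sigma type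
`(j : {j // μ j ∣ μ i}) × {T // T ∈ S.powerset.filter fun T => P (μ j * ∏ x ∈ T, q x)}` (`Nat.card_congr`,
`Equiv.ofBijective` as in `Bad.card_all`, MP_1a91b9_ntR/Den.lean), `Nat.card_sigma`, `Finset.sum_subtype` or
`Finset.sum_filter`. -/
theorem Rep.card_dvd [Fintype I] (h : Rep q μ) (i : I) (S : Finset ι) (P : R → Prop) :
    Nat.card {d : R // d ∣ μ i * ∏ x ∈ S, q x ∧ P d} =
      ∑ j ∈ (univ : Finset I).filter (fun j => μ j ∣ μ i),
        (S.powerset.filter fun T => P (μ j * ∏ x ∈ T, q x)).card := by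
  have hf : Function.Bijective (fun z : (Σ j : {j : I // μ j ∣ μ i},
      {T : Finset ι // T ∈ S.powerset.filter fun T => P (μ j.1 * ∏ x ∈ T, q x)}) =>
      (⟨μ z.1.1 * ∏ x ∈ z.2.1, q x, (Rep.dvd_iff h).2 ⟨z.1.2,
        Finset.mem_powerset.1 (Finset.mem_filter.1 z.2.2).1⟩, (Finset.mem_filter.1 z.2.2).2⟩ :
        {d : R // d ∣ μ i * ∏ x ∈ S, q x ∧ P d})) := by
    constructor
    · rintro ⟨⟨j, hj⟩, ⟨T, hT⟩⟩ ⟨⟨j', hj'⟩, ⟨T', hT'⟩⟩ heq
      have h1 := Subtype.ext_iff.1 heq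
      obtain ⟨rfl, rfl⟩ := h.inj _ _ _ _ h1
      rfl
    · rintro ⟨d, hd, hP⟩
      obtain ⟨j, T, hjT⟩ := h.surj d ((h.sqf i S).squarefree_of_dvd hd)
      have h1 : μ j * ∏ x ∈ T, q x ∣ μ i * ∏ x ∈ S, q x := by rw [← hjT]; exact hd
      obtain ⟨h2, h3⟩ := (Rep.dvd_iff h).1 h1
      refine ⟨⟨⟨j, h2⟩, ⟨T, Finset.mem_filter.2 ⟨Finset.mem_powerset.2 h3, ?_⟩⟩⟩, ?_⟩
      · rw [← hjT]; exact hP
      · exact Subtype.ext hjT.symm
  rw [← Nat.card_congr (Equiv.ofBijective _ hf), Nat.card_sigma]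
  rw [Finset.sum_subtype (p := fun j => μ j ∣ μ i) _ (fun j => by simp)]
  refine Finset.sum_congr rfl fun j _ => ?_
  rw [Nat.card_eq_fintype_card, Fintype.card_coe]

open Classical in
/-- **T3c** (easy). The number of the divisors. Proof: `Rep.card_dvd` with `P = fun _ => True`. -/
theorem Rep.card_dvd' [Fintype I] (h : Rep q μ) (i : I) (S : Finset ι) :
    Nat.card {d : R // d ∣ μ i * ∏ x ∈ S, q x} =
      ((univ : Finset I).filter fun j => μ j ∣ μ i).card * 2 ^ S.card := by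
  have h1 := Rep.card_dvd h i S (fun _ => True)
  have h2 : Nat.card {d : R // d ∣ μ i * ∏ x ∈ S, q x} =
      Nat.card {d : R // d ∣ μ i * ∏ x ∈ S, q x ∧ True} :=
    Nat.card_congr (Equiv.subtypeEquivRight fun d => by rw [and_true])
  rw [h2, h1]
  refine Finset.sum_const_nat fun j _ => ?_
  simp only [Finset.filter_true, Finset.card_powerset]

/-- **T3d** (easy). The norm. Proof: `map_mul`, `map_prod`, `Int.natAbs_mul`, `h.nrm`, and
`1 ≤ (Algebra.norm ℤ (μ i)).natAbs` by `h.ne`; `Int.natAbs` of a product of a finite set: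
`map_prod Int.natAbsHom`. -/
theorem Rep.nm_le (h : Rep q μ) (i : I) (S : Finset ι) :
    nm S ≤ (Algebra.norm ℤ (μ i * ∏ x ∈ S, q x)).natAbs := by
  have h1 : (Algebra.norm ℤ (∏ x ∈ S, q x)).natAbs = nm S := by
    have h2 : (Algebra.norm ℤ (∏ x ∈ S, q x)).natAbs =
        Int.natAbsHom (∏ x ∈ S, Algebra.norm ℤ (q x)) := by
      rw [map_prod]
      rfl
    rw [h2, map_prod, Pool.Agent.Lib.MP_1a91b9_ntH.nm]
    exact Finset.prod_congr rfl fun x _ => h.nrm x
  rw [map_mul, Int.natAbs_mul, h1]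
  refine Nat.le_mul_of_pos_left _ ?_
  exact Int.natAbs_pos.2 (h.ne i)

end

end Pool.Agent.Lib.MP_1a91b9_ntDV
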