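import Pool.Agent.Lib.MP_1a91b9_ntDV.T1
import Pool.Agent.Lib.MP_1a91b9_ntDV.T3

/-!
# MP_1a91b9_nt (the divisor law), block T: from the sets of primes to the squarefree elements
-/

set_option autoImplicit false
set_option linter.unusedSectionVars false

namespace Pool.Agent.Lib.MP_1a91b9_ntDV

open Finset
open Pool.Agent.Lib.MP_1a91b9_ntH (PS nm Sx mem_Sx)

noncomputable section

variable {R : Type} [CommRing R] [IsDomain R] {ι : Type} [DecidableEq ι] [PS ι] {I : Type}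
  {q : ι → R} {μ : I → R}

open Classical in
/-- **T4a** (medium-). The exceptional elements. Proof. Every `D` of the set is `μ i * ∏ S` with unique `(i, S)`
(`h.surj`, `h.inj`), and `nm S ≤ |N D| ≤ X` gives `S ∈ Sx ι ⌊X⌋₊` (`h.nm_le`, `Nat.le_floor`,
`Int.abs_eq_natAbs`, `mem_Sx`). `hW` gives a `j` with `S ∈ Y j`. So the map `D ↦ (i, S)` is an injection of the
type into the finset `univ ×ˢ univ.biUnion Y'`, `Y' j = (Sx ι ⌊X⌋₊).filter (Y j)`, and the number of its elements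
is at most `Fintype.card I * ∑ j, (Y' j).card` (`card_product`, `card_biUnion_le`; `Nat.card_le_card_of_injective`
or `Finite.card_le_of_injective`). -/
theorem Rep.card_exc [Fintype I] {J : Type} [Fintype J] (h : Rep q μ) {X : ℝ} (hX : 0 ≤ X)
    (W : R → Prop) (Y : J → Finset ι → Prop)
    (hW : ∀ (i : I) (S : Finset ι), W (μ i * ∏ x ∈ S, q x) → ∃ j, Y j S) :
    Nat.card {D : R // Squarefree D ∧ |Algebra.norm ℤ D| ≤ X ∧ W D} ≤
      Fintype.card I * ∑ j, ((Sx ι ⌊X⌋₊).filter (Y j)).card := by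
  have hex : ∀ D : {D : R // Squarefree D ∧ |Algebra.norm ℤ D| ≤ X ∧ W D},
      ∃ p : I × Finset ι, D.1 = μ p.1 * ∏ x ∈ p.2, q x := by
    intro D
    obtain ⟨i, S, hS⟩ := h.surj D.1 D.2.1
    exact ⟨(i, S), hS⟩
  choose f hf using hex
  have hmem : ∀ D, f D ∈ (univ : Finset I) ×ˢ
      (univ : Finset J).biUnion (fun j => (Sx ι ⌊X⌋₊).filter (Y j)) := by
    intro D
    rw [mem_product]
    refine ⟨mem_univ _, ?_⟩
    rw [mem_biUnion]
    have hWD := D.2.2.2
    rw [hf D] at hWD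
    obtain ⟨j, hj⟩ := hW _ _ hWD
    refine ⟨j, mem_univ _, ?_⟩
    rw [mem_filter, mem_Sx]
    refine ⟨?_, hj⟩
    have h1 := h.nm_le (f D).1 (f D).2
    rw [← hf D] at h1
    refine h1.trans (Nat.le_floor ?_)
    have h2 := D.2.2.1
    rw [Int.abs_eq_natAbs, Int.cast_natCast] at h2
    exact h2
  have hinj : Function.Injective fun D => (⟨f D, hmem D⟩ : {p // p ∈ (univ : Finset I) ×ˢ
      (univ : Finset J).biUnion (fun j => (Sx ι ⌊X⌋₊).filter (Y j))}) := by
    intro D D' hDD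
    have h1 : f D = f D' := congrArg Subtype.val hDD
    apply Subtype.ext
    rw [hf D, hf D', h1]
  have h1 := Nat.card_le_card_of_injective _ hinj
  have h2 : Nat.card {p // p ∈ (univ : Finset I) ×ˢ
      (univ : Finset J).biUnion (fun j => (Sx ι ⌊X⌋₊).filter (Y j))} =
      Fintype.card I * ((univ : Finset J).biUnion (fun j => (Sx ι ⌊X⌋₊).filter (Y j))).card := by
    rw [Nat.card_eq_fintype_card, Fintype.card_coe, card_product, card_univ]
  rw [h2] at h1
  exact h1.trans (Nat.mul_le_mul_left _ card_biUnion_le)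

/-- **T4** (medium). **The law for the divisors.**
Proof. Given `M`, `ε > 0`. Let `κ` be the constant of `hpos` and `n = Fintype.card I`. Choose
`η = min ε (ε * κ / ((n + 1) * (n + 1)))` (`> 0`). Call `D = μ i * ∏ S` (squarefree, in the class, norm at most `X`)
bad if `M ≤ #div` or `(c - ε) * #div ≤ #{d ∣ D | P d}` fails. For `J = Option I` let `Y none S` be
`2 ^ S.card < M` and `Y (some j) S` be `Disjoint S ∅ ∧ #{T ⊆ S | P (μ j * ∏ T)} < (c - η) * 2 ^ S.card`. If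
`¬ Y none S` then `#div = #{j | μ j ∣ μ i} * 2 ^ S.card ≥ M` because `i` is in this set (`Rep.card_dvd'`). If
`¬ Y (some j) S` for all `j` then, summing over the `j` with `μ j ∣ μ i`, `Rep.card_dvd` and `Rep.card_dvd'`,
`(c - ε) * #div ≤ (c - η) * #div ≤ #{d ∣ D | P d}`. So `Rep.card_exc` applies, and with `hfew M η` and `hP j η` at
`⌊X⌋₊` (for large `X`; `⌊X⌋₊ ≤ X`) the number of the bad `D` is at most `n * ((n + 1) * (η * X)) ≤ ε * κ * X`. The
number `N` of all the `D` in the class is at least `κ * X > 0`, so the number of the good ones is at least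
`N - ε * κ * X ≥ (1 - ε) * N` (good and bad together are all: as in `Bad.card_split`, MP_1a91b9_ntR/Den.lean; the
finiteness of the set of the `D` with bounded norm follows from the same injection into `I × Sx ι ⌊X⌋₊`),
`le_div_iff₀`. -/
theorem Rep.law [Fintype I] (h : Rep q μ) (hfew : FewL ι) {m u : R} (hpos : Pos R m u)
    (P : R → Prop) (c : ℝ) (hP : ∀ j : I, SubL ∅ c fun T => P (μ j * ∏ x ∈ T, q x)) :
    DivG R m u P c := by
  classical
  intro M ε hε
  obtain ⟨κ, hκ, hN⟩ := hpos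
  have hn0 : (0 : ℝ) < (Fintype.card I : ℝ) + 1 := by positivity
  have hη : 0 < min ε (ε * κ / (((Fintype.card I : ℝ) + 1) * ((Fintype.card I : ℝ) + 1))) :=
    lt_min hε (by positivity)
  have hηε : min ε (ε * κ / (((Fintype.card I : ℝ) + 1) * ((Fintype.card I : ℝ) + 1))) ≤ ε := min_le_left _ _
  have hηκ : min ε (ε * κ / (((Fintype.card I : ℝ) + 1) * ((Fintype.card I : ℝ) + 1))) *
      (((Fintype.card I : ℝ) + 1) * ((Fintype.card I : ℝ) + 1)) ≤ ε * κ := by
    rw [← le_div_iff₀ (by positivity)]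
    exact min_le_right _ _
  generalize min ε (ε * κ / (((Fintype.card I : ℝ) + 1) * ((Fintype.card I : ℝ) + 1))) = η at hη hηε hηκ
  let Y : Option I → Finset ι → Prop := fun o S => match o with
    | none => 2 ^ S.card < M
    | some j => Disjoint S ∅ ∧ ((S.powerset.filter fun T => P (μ j * ∏ x ∈ T, q x)).card : ℝ) <
        (c - η) * 2 ^ S.card
  have hYb : ∀ o : Option I, ∃ X₀ : ℕ, ∀ X : ℕ, X₀ ≤ X → (((Sx ι X).filter (Y o)).card : ℝ) ≤ η * X := by
    intro o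
    cases o with
    | none =>
      obtain ⟨X₁, h1⟩ := hfew M η hη
      refine ⟨X₁, fun X hX => le_trans (Nat.cast_le.2 (card_le_card fun S hS => ?_)) (h1 X hX)⟩
      have h2 := (@mem_filter _ _ (Classical.decPred _) _ _).1 hS
      exact mem_filter.2 h2
    | some j =>
      obtain ⟨X₁, h1⟩ := hP j η hη
      refine ⟨X₁, fun X hX => le_trans (Nat.cast_le.2 (card_le_card fun S hS => ?_)) (h1 X hX)⟩
      have h2 := (@mem_filter _ _ (Classical.decPred _) _ _).1 hS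
      exact mem_filter.2 h2
  choose X₀ hX₀ using hYb
  have hW : ∀ (i : I) (S : Finset ι), (m ∣ (μ i * ∏ x ∈ S, q x) - u ∧
      ¬ (M ≤ Nat.card {d : R // d ∣ μ i * ∏ x ∈ S, q x} ∧
        (c - ε) * Nat.card {d : R // d ∣ μ i * ∏ x ∈ S, q x} ≤
          Nat.card {d : R // d ∣ μ i * ∏ x ∈ S, q x ∧ P d})) → ∃ j, Y j S := by
    intro i S hWS
    by_contra hcon
    push Not at hcon
    apply hWS.2
    rw [h.card_dvd' i S, h.card_dvd i S P]
    have hpos1 : 1 ≤ ((univ : Finset I).filter fun j => μ j ∣ μ i).card :=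
      card_pos.2 ⟨i, mem_filter.2 ⟨mem_univ _, dvd_refl _⟩⟩
    have h1 : M ≤ 2 ^ S.card := not_lt.1 (hcon none)
    have h2 : ∀ j : I, (c - η) * 2 ^ S.card ≤
        ((S.powerset.filter fun T => P (μ j * ∏ x ∈ T, q x)).card : ℝ) := by
      intro j
      by_contra h3
      exact hcon (some j) ⟨disjoint_empty_right _, not_le.1 h3⟩
    refine ⟨?_, ?_⟩
    · calc M ≤ 1 * 2 ^ S.card := by rw [one_mul]; exact h1
        _ ≤ _ := Nat.mul_le_mul_right _ hpos1
    · push_cast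
      calc (c - ε) * ((((univ : Finset I).filter fun j => μ j ∣ μ i).card : ℝ) * 2 ^ S.card)
          ≤ (c - η) * ((((univ : Finset I).filter fun j => μ j ∣ μ i).card : ℝ) * 2 ^ S.card) :=
            mul_le_mul_of_nonneg_right (by linarith) (by positivity)
        _ = ∑ _j ∈ (univ : Finset I).filter (fun j => μ j ∣ μ i), (c - η) * 2 ^ S.card := by
            rw [sum_const, nsmul_eq_mul]
            ring
        _ ≤ _ := sum_le_sum fun j _ => h2 j
  filter_upwards [hN, Filter.eventually_gt_atTop (0 : ℝ),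
    Filter.eventually_ge_atTop ((((univ : Finset (Option I)).sup X₀ + 1 : ℕ)) : ℝ)] with X hX1 hX2 hX3
  have hfl : ∀ o : Option I, X₀ o ≤ ⌊X⌋₊ := by
    intro o
    have h1 : X₀ o ≤ (univ : Finset (Option I)).sup X₀ := le_sup (mem_univ o)
    refine h1.trans (Nat.le_floor ?_)
    push_cast at hX3
    linarith
  have hflX : (⌊X⌋₊ : ℝ) ≤ X := Nat.floor_le hX2.le
  have hNpos : 0 < (Nat.card {D : R // Squarefree D ∧ m ∣ D - u ∧ |Algebra.norm ℤ D| ≤ X} : ℝ) :=
    lt_of_lt_of_le (by positivity) hX1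
  have hfin : Finite {D : R // Squarefree D ∧ m ∣ D - u ∧ |Algebra.norm ℤ D| ≤ X} := by
    apply Nat.finite_of_card_ne_zero
    intro h0
    rw [h0] at hNpos
    simp at hNpos
  have hbad : (Nat.card {D : R // Squarefree D ∧ |Algebra.norm ℤ D| ≤ X ∧ (m ∣ D - u ∧
      ¬ (M ≤ Nat.card {d : R // d ∣ D} ∧
        (c - ε) * Nat.card {d : R // d ∣ D} ≤ Nat.card {d : R // d ∣ D ∧ P d}))} : ℝ) ≤ ε * κ * X := by
    have h1 := h.card_exc hX2.le (fun D => m ∣ D - u ∧
      ¬ (M ≤ Nat.card {d : R // d ∣ D} ∧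
        (c - ε) * Nat.card {d : R // d ∣ D} ≤ Nat.card {d : R // d ∣ D ∧ P d})) Y hW
    have h2 : ((Fintype.card I * ∑ j, ((Sx ι ⌊X⌋₊).filter (Y j)).card : ℕ) : ℝ) ≤ ε * κ * X := by
      push_cast
      have h3 : ∑ j : Option I, (((Sx ι ⌊X⌋₊).filter (Y j)).card : ℝ) ≤
          ((Fintype.card I : ℝ) + 1) * (η * X) := by
        calc ∑ j : Option I, (((Sx ι ⌊X⌋₊).filter (Y j)).card : ℝ) ≤ ∑ _j : Option I, η * X :=
              sum_le_sum fun j _ => (hX₀ j _ (hfl j)).trans (mul_le_mul_of_nonneg_left hflX hη.le)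
          _ = ((Fintype.card I : ℝ) + 1) * (η * X) := by
              rw [sum_const, nsmul_eq_mul, card_univ, Fintype.card_option]
              push_cast
              ring
      calc (Fintype.card I : ℝ) * ∑ j : Option I, (((Sx ι ⌊X⌋₊).filter (Y j)).card : ℝ)
          ≤ (Fintype.card I : ℝ) * (((Fintype.card I : ℝ) + 1) * (η * X)) :=
            mul_le_mul_of_nonneg_left h3 (by positivity)
        _ ≤ ((Fintype.card I : ℝ) + 1) * (((Fintype.card I : ℝ) + 1) * (η * X)) :=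
            mul_le_mul_of_nonneg_right (by linarith) (by positivity)
        _ = (η * (((Fintype.card I : ℝ) + 1) * ((Fintype.card I : ℝ) + 1))) * X := by ring
        _ ≤ ε * κ * X := mul_le_mul_of_nonneg_right hηκ hX2.le
    exact le_trans (by exact_mod_cast h1) h2
  have e1 : Nat.card {D : R // Squarefree D ∧ m ∣ D - u ∧ |Algebra.norm ℤ D| ≤ X ∧
      M ≤ Nat.card {d : R // d ∣ D} ∧
      (c - ε) * Nat.card {d : R // d ∣ D} ≤ Nat.card {d : R // d ∣ D ∧ P d}} =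
      Nat.card {y : {D : R // Squarefree D ∧ m ∣ D - u ∧ |Algebra.norm ℤ D| ≤ X} //
        M ≤ Nat.card {d : R // d ∣ y.1} ∧
        (c - ε) * Nat.card {d : R // d ∣ y.1} ≤ Nat.card {d : R // d ∣ y.1 ∧ P d}} :=
    Nat.card_congr ⟨fun x => ⟨⟨x.1, x.2.1, x.2.2.1, x.2.2.2.1⟩, x.2.2.2.2⟩,
      fun y => ⟨y.1.1, y.1.2.1, y.1.2.2.1, y.1.2.2.2, y.2⟩, fun _ => rfl, fun _ => rfl⟩
  have e2 : Nat.card {D : R // Squarefree D ∧ |Algebra.norm ℤ D| ≤ X ∧ (m ∣ D - u ∧
      ¬ (M ≤ Nat.card {d : R // d ∣ D} ∧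
        (c - ε) * Nat.card {d : R // d ∣ D} ≤ Nat.card {d : R // d ∣ D ∧ P d}))} =
      Nat.card {y : {D : R // Squarefree D ∧ m ∣ D - u ∧ |Algebra.norm ℤ D| ≤ X} //
        ¬ (M ≤ Nat.card {d : R // d ∣ y.1} ∧
        (c - ε) * Nat.card {d : R // d ∣ y.1} ≤ Nat.card {d : R // d ∣ y.1 ∧ P d})} :=
    Nat.card_congr ⟨fun x => ⟨⟨x.1, x.2.1, x.2.2.2.1, x.2.2.1⟩, x.2.2.2.2⟩,
      fun y => ⟨y.1.1, y.1.2.1, y.1.2.2.2, y.1.2.2.1, y.2⟩, fun _ => rfl, fun _ => rfl⟩
  have e3 : Nat.card {y : {D : R // Squarefree D ∧ m ∣ D - u ∧ |Algebra.norm ℤ D| ≤ X} //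
        M ≤ Nat.card {d : R // d ∣ y.1} ∧
        (c - ε) * Nat.card {d : R // d ∣ y.1} ≤ Nat.card {d : R // d ∣ y.1 ∧ P d}} +
      Nat.card {y : {D : R // Squarefree D ∧ m ∣ D - u ∧ |Algebra.norm ℤ D| ≤ X} //
        ¬ (M ≤ Nat.card {d : R // d ∣ y.1} ∧
        (c - ε) * Nat.card {d : R // d ∣ y.1} ≤ Nat.card {d : R // d ∣ y.1 ∧ P d})} =
      Nat.card {D : R // Squarefree D ∧ m ∣ D - u ∧ |Algebra.norm ℤ D| ≤ X} := by
    rw [← Nat.card_sum]
    exact Nat.card_congr (Equiv.sumCompl fun y :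
      {D : R // Squarefree D ∧ m ∣ D - u ∧ |Algebra.norm ℤ D| ≤ X} =>
        M ≤ Nat.card {d : R // d ∣ y.1} ∧
        (c - ε) * Nat.card {d : R // d ∣ y.1} ≤ Nat.card {d : R // d ∣ y.1 ∧ P d})
  have e4 : (Nat.card {D : R // Squarefree D ∧ m ∣ D - u ∧ |Algebra.norm ℤ D| ≤ X ∧
      M ≤ Nat.card {d : R // d ∣ D} ∧
      (c - ε) * Nat.card {d : R // d ∣ D} ≤ Nat.card {d : R // d ∣ D ∧ P d}} : ℝ) +
      (Nat.card {D : R // Squarefree D ∧ |Algebra.norm ℤ D| ≤ X ∧ (m ∣ D - u ∧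
      ¬ (M ≤ Nat.card {d : R // d ∣ D} ∧
        (c - ε) * Nat.card {d : R // d ∣ D} ≤ Nat.card {d : R // d ∣ D ∧ P d}))} : ℝ) =
      (Nat.card {D : R // Squarefree D ∧ m ∣ D - u ∧ |Algebra.norm ℤ D| ≤ X} : ℝ) := by
    rw [e1, e2]
    exact_mod_cast e3
  rw [le_div_iff₀ hNpos]
  have h5 : ε * (κ * X) ≤
      ε * (Nat.card {D : R // Squarefree D ∧ m ∣ D - u ∧ |Algebra.norm ℤ D| ≤ X} : ℝ) :=
    mul_le_mul_of_nonneg_left hX1 hε.le
  linarith

end

end Pool.Agent.Lib.MP_1a91b9_ntDV
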