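import Pool.Agent.Lib.MP_1a91b9_ntH.D.UB
import Pool.Agent.Lib.MP_1a91b9_ntDV.T0

/-!
# MP_1a91b9_nt (the divisor law), block T: almost all the squarefree elements have many divisors
-/

set_option autoImplicit false
set_option linter.unusedSectionVars false

namespace Pool.Agent.Lib.MP_1a91b9_ntDV

open Finset
open Pool.Agent.Lib.MP_1a91b9_ntH (PS nm Sx mem_Sx Cheb Zt CharB ub)

noncomputable section

variable {ι : Type} [DecidableEq ι] [PS ι]

private theorem T2_char : CharB (fun _ : ι => (0 : ℝ)) 1 := by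
  refine ⟨fun q => by simp, le_refl _, fun σ _ _ => Filter.Eventually.of_forall fun x => ?_⟩
  simp

/-- **T2** (easy+). Proof. `ub h1 h2 2 le_rfl` (MP_1a91b9_ntH/D/UB.lean) with `χ = 0`, `B = 1` (`CharB` for the
zero function: see the private `small_char` in MP_1a91b9_ntQ/D/Small.lean, copy it) and
`w = fun _ => 1 / 2 ≤ ((2 - 1) + 0) / 2`: for `2 ≤ X` one has
`∑ S ∈ Sx ι X, (1 / 2) ^ S.card ≤ K * X * log X ^ (-(1 / 2))` (`prod_const`). For a set with `2 ^ S.card < M` one has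
`1 ≤ M * (1 / 2) ^ S.card`, so the number of these sets is at most `M * K * X * log X ^ (-(1 / 2))`, and
`log X ^ (-(1 / 2)) → 0` (`tendsto_rpow_neg_atTop`, `Real.tendsto_log_atTop`, `tendsto_natCast_atTop_atTop`). -/
theorem few (h1 : ∃ C : ℝ, Cheb ι C) (h2 : ∃ C : ℝ, Zt ι C) : FewL ι := by
  obtain ⟨C1, hC1⟩ := h1
  obtain ⟨C2, hC2⟩ := h2
  obtain ⟨K, hK, hub⟩ := ub hC1 hC2 2 le_rfl
  intro M ε hε
  have hl : Filter.Tendsto (fun X : ℕ => Real.log (X : ℝ) ^ (-(1 / 2 : ℝ))) Filter.atTop (nhds 0) :=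
    (tendsto_rpow_neg_atTop (by norm_num)).comp
      (Real.tendsto_log_atTop.comp tendsto_natCast_atTop_atTop)
  have hl2 : Filter.Tendsto (fun X : ℕ => (M * K) * Real.log (X : ℝ) ^ (-(1 / 2 : ℝ))) Filter.atTop
      (nhds 0) := by
    have h := hl.const_mul ((M : ℝ) * K)
    rwa [mul_zero] at h
  obtain ⟨X₀, hX₀⟩ := Filter.eventually_atTop.1 (hl2.eventually (gt_mem_nhds hε))
  refine ⟨max X₀ 2, fun X hX => ?_⟩
  have hX1 : X₀ ≤ X := (le_max_left _ _).trans hX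
  have hX2 : 2 ≤ X := (le_max_right _ _).trans hX
  have hu := hub (fun _ => (0 : ℝ)) 1 T2_char (fun _ => (1 / 2 : ℝ))
    (fun q => ⟨by norm_num, by norm_num⟩) X hX2
  rw [Real.one_rpow, mul_one, Nat.cast_ofNat] at hu
  have hM : (0 : ℝ) ≤ M := Nat.cast_nonneg M
  calc (((Sx ι X).filter fun S => 2 ^ S.card < M).card : ℝ)
      = ∑ _S ∈ (Sx ι X).filter fun S => 2 ^ S.card < M, (1 : ℝ) := by
        rw [sum_const, nsmul_eq_mul, mul_one]
    _ ≤ ∑ S ∈ (Sx ι X).filter fun S => 2 ^ S.card < M, (M : ℝ) * ∏ _q ∈ S, (1 / 2 : ℝ) := by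
        refine sum_le_sum fun S hS => ?_
        have h3 : ((2 ^ S.card : ℕ) : ℝ) ≤ (M : ℝ) := by
          exact_mod_cast (mem_filter.1 hS).2.le
        rw [prod_const]
        have h4 : (0 : ℝ) < (1 / 2) ^ S.card := by positivity
        have h5 : ((2 ^ S.card : ℕ) : ℝ) * (1 / 2) ^ S.card = 1 := by
          push_cast
          rw [← mul_pow]
          norm_num
        calc (1 : ℝ) = ((2 ^ S.card : ℕ) : ℝ) * (1 / 2) ^ S.card := h5.symm
          _ ≤ (M : ℝ) * (1 / 2) ^ S.card := mul_le_mul_of_nonneg_right h3 h4.le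
    _ ≤ ∑ S ∈ Sx ι X, (M : ℝ) * ∏ _q ∈ S, (1 / 2 : ℝ) :=
        sum_le_sum_of_subset_of_nonneg (filter_subset _ _) fun S _ _ => by positivity
    _ = (M : ℝ) * ∑ S ∈ Sx ι X, ∏ _q ∈ S, (1 / 2 : ℝ) := (mul_sum _ _ _).symm
    _ ≤ (M : ℝ) * (K * X * Real.log X ^ (-(1 / (2 : ℝ)))) := mul_le_mul_of_nonneg_left hu hM
    _ = ((M * K) * Real.log (X : ℝ) ^ (-(1 / 2 : ℝ))) * X := by ring
    _ ≤ ε * X := mul_le_mul_of_nonneg_right (hX₀ X hX1).le (Nat.cast_nonneg X)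

end

end Pool.Agent.Lib.MP_1a91b9_ntDV
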