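import Pool.Agent.Lib.MP_1a91b9_ntR.Cheb
import Pool.Agent.Lib.MP_1a91b9_ntR.DenB
import Pool.Agent.Lib.MP_1a91b9_ntS.G.DenI
import Pool.Agent.Lib.MP_1a91b9_ntDV.T2

/-!
# MP_1a91b9_nt (the divisor law), block T: the representation and the density for the generic rings
-/

set_option autoImplicit false
set_option linter.unusedSectionVars false

namespace Pool.Agent.Lib.MP_1a91b9_ntDV

open Finset
open Pool.Agent.Lib.MP_1a91b9_ntH (PS nm Sx mem_Sx)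
open Pool.Agent.Lib.MP_1a91b9_ntR (Qi Pri Pg DD sys nG GR gc Bad mu)
open Pool.Agent.Lib.MP_1a91b9_ntS.G (FamI CndI)

noncomputable section

variable {R : Type} [CommRing R] [IsDomain R] [IsPrincipalIdealRing R] [Qi R] [Pri R] {Q : R}

/-- **T6a** (easy). Proof: `few`, `Pool.Agent.Lib.MP_1a91b9_ntR.cheb`, `Pool.Agent.Lib.MP_1a91b9_ntR.zt`. -/
theorem fewR : FewL (Pg R) :=
  few Pool.Agent.Lib.MP_1a91b9_ntR.cheb Pool.Agent.Lib.MP_1a91b9_ntR.zt

variable {I : Type} [Fintype I] [DecidableEq I] {μ : I → R}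

/-- **T6b** (easy). Proof: `q.2.1`; `norm_eq_nG` and `PN_eq`; `nG_eq_zero`; the fields of `FamI`
(`DD S = ∏ q ∈ S, q.1` by definition). -/
theorem famI_rep (h : FamI μ) : Rep (fun q : Pg R => q.1) μ := by
  refine ⟨fun q => q.2.1, fun q => ?_, fun i h0 => ?_, h.sqf, h.inj, h.surj⟩
  · rw [Pool.Agent.Lib.MP_1a91b9_ntR.norm_eq_nG, Int.natAbs_natCast, Pool.Agent.Lib.MP_1a91b9_ntR.PN_eq]
  · rw [Pool.Agent.Lib.MP_1a91b9_ntR.norm_eq_nG] at h0
    exact h.ne i (Pool.Agent.Lib.MP_1a91b9_ntR.nG_eq_zero.1 (by exact_mod_cast h0))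

/-- **T6c** (medium-). **The class of `u` has a positive density.** Proof as in `FamI.den`
(MP_1a91b9_ntS/G/DenI.lean): with `i`, `y` of `hne` and `g = gc hQ y hy`, for `S ∈ SR hQ g (NI μ i X)` one has
`Q ∣ DD S - y` (`gc_DD`, `gc_eq_iff`), so `m ∣ μ i * DD S - u`; the elements `μ i * DD S` are squarefree, different,
and of norm at most `X` (`h.sqf`, `h.inj`, `h.nG_le`, `abs_norm_le`). `class_card_ge hQ hQ0 g` and `h.le_NI i` give
`#SR hQ g (NI μ i X) ≥ c * (X / (2 * nG (μ i)))` for large `X`; `κ = c / (2 * nG (μ i))`. For `Nat.card` of the type one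
needs its finiteness: `nG_fin` as in `FamI.card_split`. -/
theorem famI_pos (h : FamI μ) (hQ : (sys R).Mod Q) (hQ0 : Q ≠ 0) {m u : R} (hm : m ∣ Q)
    (hne : ∃ (i : I) (y : R), Pri.In y ∧ m ∣ μ i * y - u) : Pos R m u := by
  classical
  obtain ⟨i, y, hy, h1⟩ := hne
  obtain ⟨c, hc, X₁, hX₁⟩ := Pool.Agent.Lib.MP_1a91b9_ntR.class_card_ge hQ hQ0 (gc hQ y hy)
  have hK1 := h.nG_mu_pos i
  obtain ⟨K, hK⟩ : ∃ K : ℝ, K = 2 * (nG (μ i) : ℝ) := ⟨_, rfl⟩
  have hK0 : 0 < K := by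
    rw [hK]
    linarith
  refine ⟨c / K, by positivity, ?_⟩
  filter_upwards [(h.tendsto_NI i).eventually_ge_atTop X₁, Filter.eventually_ge_atTop K] with X h2 h3
  have hX0 : (0 : ℝ) ≤ X := by linarith
  have e : Nat.card {D : R // Squarefree D ∧ m ∣ D - u ∧ |Algebra.norm ℤ D| ≤ X} =
      Nat.card {x : R // Squarefree x ∧ (nG x : ℝ) ≤ X ∧ m ∣ x - u} :=
    Nat.card_congr (Equiv.subtypeEquivRight fun x => by
      rw [Pool.Agent.Lib.MP_1a91b9_ntR.abs_norm_le]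
      constructor
      · rintro ⟨a, b, c⟩
        exact ⟨a, c, b⟩
      · rintro ⟨a, b, c⟩
        exact ⟨a, c, b⟩)
  rw [e, h.card_all hX0 (fun x => m ∣ x - u)]
  have h4 : ((Pool.Agent.Lib.MP_1a91b9_ntR.SR hQ (gc hQ y hy) (Pool.Agent.Lib.MP_1a91b9_ntS.G.NI μ i X)).card : ℝ) ≤
      ((∑ j : I, ((Sx (Pg R) (Pool.Agent.Lib.MP_1a91b9_ntS.G.NI μ j X)).filter fun S => m ∣ μ j * DD S - u).card : ℕ) : ℝ) := by
    rw [Nat.cast_le]
    have h5 : (Pool.Agent.Lib.MP_1a91b9_ntR.SR hQ (gc hQ y hy) (Pool.Agent.Lib.MP_1a91b9_ntS.G.NI μ i X)).card ≤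
        ((Sx (Pg R) (Pool.Agent.Lib.MP_1a91b9_ntS.G.NI μ i X)).filter fun S => m ∣ μ i * DD S - u).card := by
      refine card_le_card fun S hS => ?_
      rw [Pool.Agent.Lib.MP_1a91b9_ntR.mem_SR] at hS
      rw [mem_filter, mem_Sx]
      refine ⟨hS.1, ?_⟩
      have h6 := hS.2
      rw [← Pool.Agent.Lib.MP_1a91b9_ntR.gc_DD, Pool.Agent.Lib.MP_1a91b9_ntR.gc_eq_iff] at h6
      have h7 : m ∣ μ i * (DD S - y) := (hm.trans h6).mul_left _
      have e2 : μ i * DD S - u = μ i * (DD S - y) + (μ i * y - u) := by ring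
      rw [e2]
      exact dvd_add h7 h1
    refine h5.trans ?_
    exact single_le_sum (f := fun j : I => ((Sx (Pg R) (Pool.Agent.Lib.MP_1a91b9_ntS.G.NI μ j X)).filter fun S => m ∣ μ j * DD S - u).card)
      (fun _ _ => Nat.zero_le _) (mem_univ i)
  refine le_trans ?_ h4
  have h8 := hX₁ _ h2
  have h9 : X / K ≤ (Pool.Agent.Lib.MP_1a91b9_ntS.G.NI μ i X : ℝ) := by
    rw [hK] at h3 ⊢
    exact h.le_NI i h3
  calc c / K * X = c * (X / K) := by ring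
    _ ≤ c * (Pool.Agent.Lib.MP_1a91b9_ntS.G.NI μ i X : ℝ) := mul_le_mul_of_nonneg_left h9 hc.le
    _ ≤ _ := h8

/-- **T6d** (easy). The set of the squarefree elements of bounded norm is finite: `nG_fin`, as in
`FamI.card_split`. -/
theorem finR (X : ℝ) : {D : R | Squarefree D ∧ |Algebra.norm ℤ D| ≤ X}.Finite := by
  refine (Pool.Agent.Lib.MP_1a91b9_ntR.nG_fin (R := R) ⌊X⌋₊).subset ?_
  rintro x ⟨-, h⟩
  rw [Pool.Agent.Lib.MP_1a91b9_ntR.abs_norm_le] at h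
  exact Nat.le_floor h

/-- **T6e** (easy). Proof: the fields are `h.mu_ne`, `h.sqf`, `h.mul_inj`, `h.surj`. -/
theorem bad_famI {A : Type} [Fintype A] [DecidableEq A] {π : A → R} (h : Bad π) : FamI (mu π) :=
  ⟨h.mu_ne, h.sqf, fun _ _ _ _ hST => h.mul_inj hST, fun _ hx => h.surj hx⟩

end

end Pool.Agent.Lib.MP_1a91b9_ntDV
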