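import Pool.Agent.Lib.MP_1a91b9_ntN.G.GDen
import Pool.Agent.Lib.MP_1a91b9_ntH.R.OK
import Pool.Agent.Lib.MP_1a91b9_ntDV.T4
import Pool.Agent.Lib.MP_1a91b9_ntDV.T6

/-!
# MP_1a91b9_nt (the divisor law), block T: the law for the divisors over `ℚ(√-3)`
-/

set_option autoImplicit false
set_option linter.unusedSectionVars false

namespace Pool.Agent.Lib.MP_1a91b9_ntDV

open NumberField Finset Pool.Agent.Lib.MP_1a91b9_ntT Pool.Agent.Lib.MP_1a91b9_ntH
  Pool.Agent.Lib.MP_1a91b9_ntH2 Pool.Agent.Lib.MP_1a91b9_ntE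
open Pool.Agent.Lib.MP_1a91b9_ntP (GdE)
open Pool.Agent.Lib.MP_1a91b9_ntN.G
open Pool.Agent.Lib.MP_1a91b9_ntS.G (FamI mod3 Q3 Q3_ne)

noncomputable section

/-- The joint law for `N` labels over `ℚ(√-3)`, different up to the sign. -/
def JL3 (N : ℕ) : Prop :=
  ∀ (f : Fin N → Bool) (c : Fin N → F4) (T : Fin N → Finset Pq) (B : Finset Pq), (∀ n, T n ⊆ B) →
    Function.Injective (fun n => (f n, F4.tr (c n), T n)) →
    SubL B (Da.cinf ^ N) fun S => ∀ n, GdE (f n) (c n + qd.A S) (S ∪ T n)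

/-- **T10a** (easy). Proof: `few`, `Pool.Agent.Lib.MP_1a91b9_ntH.cheb`, `Pool.Agent.Lib.MP_1a91b9_ntH.zt`. -/
theorem few3 : FewL Pq := by
  exact few Pool.Agent.Lib.MP_1a91b9_ntH.cheb Pool.Agent.Lib.MP_1a91b9_ntH.zt

variable {I : Type} [Fintype I] [DecidableEq I] {μ : I → 𝓞 K} {b : I → Bool} {jj : I → ℕ}
  {cc : I → F4}

/-- **T10b** (easy+). Proof: as `famI_rep` (T6), from `H.fam` (`Pq` and the generic `Pg (𝓞 K)` are the same by
definition; the norm `PS.N` of the instance of `Pq` is the norm of the prime; see `card_SR3` in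
MP_1a91b9_ntN/G/GDen.lean for the passage). -/
theorem rep3 (H : Fm3 μ b jj cc) : Rep (fun q : Pq => q.1) μ := by
  exact {
    prime := fun q => q.2.1
    nrm := fun q => rfl
    ne := fun i => Algebra.norm_ne_zero_iff.2 (H.fam.ne i)
    sqf := fun i S => H.fam.sqf i S
    inj := fun i j S T h => H.fam.inj i j S T h
    surj := fun D hD => H.fam.surj D hD }

/-- **T10c** (easy). Proof: `famI_pos H.fam (mod3 n) (Q3_ne n)` with `H.cls hm hu` and `m ∣ Q3 n` as in `den_core`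
(MP_1a91b9_ntN/G/GDen.lean). -/
theorem pos3 (H : Fm3 μ b jj cc) {m u : 𝓞 K} {n : ℕ} (hm : m ∣ 2 ^ n) (hu : ¬ (4 ∣ m ∧ 4 ∣ u)) :
    Pos (𝓞 K) m u := by
  have hm' : m ∣ Q3 n := hm.trans ⟨2 ^ 2 * s3, by unfold Q3; ring⟩
  refine famI_pos H.fam (mod3 n) (Q3_ne n) hm' ?_
  obtain ⟨i, y, h1, h2⟩ := H.cls hm hu
  exact ⟨i, y, h1, h2⟩

/-- **T10d** (easy). `-1` and the class function. Proof: `qd.A` is additive on disjoint sets (`unfold` / `simp` with
`Finset.sum_union`; see the definition of `qd` and `A`). -/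
theorem A_union {S T : Finset Pq} (h : Disjoint S T) : qd.A (S ∪ T) = qd.A S + qd.A T := by
  exact Pool.Agent.Lib.MP_1a91b9_ntN.G.A_union h

/-- **T10** (medium). **The law for the divisors over `ℚ(√-3)`.** Proof. As `bad_divG` (T8) and `den_core`
and `den_G1` (MP_1a91b9_ntN/G/GDen.lean), `fam_J` (MP_1a91b9_ntN/G/RDen.lean): `exists_sfE` gives
`a i = phE (fk i) (ck i) (T i) * s i ^ 2`, and `(fk i, F4.tr (ck i), T i)` is injective by `hdis` (`tr_eq_iffE`,
`phE_add_one`, as in `den_G1`). `Rep.law (rep3 H) few3 (pos3 H hm hu)`; for the multiplier `j = i` and `B = univ.biUnion T`: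
`SubL.glue`; for `B' ⊆ B` take `hJ` with `f n = xor (b j) (fk n)`, `c n = qd.A B' + cc j + ck n`,
`T n = symmDiff B' (T n)` (injective: `xor_cancelE`, `tr_cancelE`, `symmDiff_cancelE`), and `SubL.mono`: for `S`
disjoint from `B` the element `d = μ j * DD (S ∪ B')` is squarefree and, with `H.lab`, `A_union` and `phE_mul` and
`symm_unionE`, `a n * d = phE (xor (b j) (fk n)) (c n + qd.A S) (S ∪ symmDiff B' (T n)) * t ^ 2` with
`t = t₀ * s n * wO ^ (2 * jj j)` as in `den_core` (`wO_pow_sq`, `wO_pow_ne`). -/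
theorem div3 (H : Fm3 μ b jj cc) {N : ℕ} (hJ : JL3 N) {a : Fin N → 𝓞 K} (hne : ∀ i, a i ≠ 0)
    (hdis : ∀ i i', i ≠ i' →
      ¬ ∃ y : K, y ^ 2 = (a i : K) * a i' ∨ y ^ 2 = -((a i : K) * a i'))
    {m u : 𝓞 K} {n : ℕ} (hm : m ∣ 2 ^ n) (hu : ¬ (4 ∣ m ∧ 4 ∣ u)) (P : 𝓞 K → Prop)
    (hP : ∀ d : 𝓞 K, Squarefree d → (∀ i, ∃ (f : Bool) (c : F4) (S : Finset Pq) (t : 𝓞 K),
      t ≠ 0 ∧ a i * d = phE f c S * t ^ 2 ∧ GdE f c S) → P d) :
    DivG (𝓞 K) m u P (Da.cinf ^ N) := by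
  classical
  have h1 : ∀ i, ∃ (f : Bool) (c : F4) (T : Finset Pq) (s : 𝓞 K), s ≠ 0 ∧
      a i = phE f c T * s ^ 2 := fun i => exists_sfE (a i) (hne i)
  choose fk ck T s hs hT using h1
  have hTB : ∀ i, T i ⊆ univ.biUnion T := fun i => subset_biUnion_of_mem T (mem_univ i)
  have hinj : ∀ i i', fk i = fk i' → F4.tr (ck i) = F4.tr (ck i') → T i = T i' → i = i' := by
    intro i i' e1 e2 e3
    by_contra hii
    apply hdis i i' hii
    refine ⟨((phE (fk i) (ck i') (T i) * (s i * s i') : 𝓞 K) : K), ?_⟩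
    rcases tr_eq_iffE e2 with e4 | e4
    · left
      have h2 : (phE (fk i) (ck i') (T i) * (s i * s i')) ^ 2 = a i * a i' := by
        conv_rhs => rw [hT i, hT i', ← e1, e4, ← e3]
        ring
      exact_mod_cast congrArg (fun z : 𝓞 K => (z : K)) h2
    · right
      have h2 : (phE (fk i) (ck i') (T i) * (s i * s i')) ^ 2 = -(a i * a i') := by
        conv_rhs => rw [hT i, hT i', ← e1, e4, ← e3, phE_add_one]
        ring
      exact_mod_cast congrArg (fun z : 𝓞 K => (z : K)) h2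
  refine (rep3 H).law few3 (pos3 H hm hu) P (Da.cinf ^ N) fun j => ?_
  refine SubL.glue (B := univ.biUnion T) fun B' hB' => ?_
  refine SubL.mono (hJ (fun n => xor (b j) (fk n)) (fun n => qd.A B' + cc j + ck n)
    (fun n => symmDiff B' (T n)) (univ.biUnion T) ?_ ?_) fun S hS h2 => ?_
  · intro i q hq
    rw [mem_symmDiff] at hq
    rcases hq with hq | hq
    · exact hB' hq.1
    · exact hTB i hq.1
  · intro i i' h
    simp only [Prod.mk.injEq] at h
    exact hinj i i' (xor_cancelE h.1) (tr_cancelE h.2.1) (symmDiff_cancelE h.2.2)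
  · refine hP _ (H.fam.sqf j (S ∪ B')) fun k => ?_
    have hd : Disjoint S B' := disjoint_of_subset_right hB' hS
    obtain ⟨t, h3, h4⟩ := phE_mul (b j) (fk k) (qd.A (S ∪ B') + cc j) (ck k) (S ∪ B') (T k)
    have e1 : symmDiff (S ∪ B') (T k) = S ∪ symmDiff B' (T k) := by
      rw [union_comm S B']
      exact symm_unionE (hTB k) hB' hS
    refine ⟨xor (b j) (fk k), qd.A (S ∪ B') + cc j + ck k, S ∪ symmDiff B' (T k),
      t * s k * wO ^ (2 * jj j), mul_ne_zero (mul_ne_zero h3 (hs k)) (wO_pow_ne _), ?_, ?_⟩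
    · have e : μ j * DD (S ∪ B') = wO ^ jj j * phE (b j) (qd.A (S ∪ B') + cc j) (S ∪ B') :=
        H.lab j _
      show a k * (μ j * DD (S ∪ B')) = _
      rw [e, hT k, wO_pow_sq (jj j), mul_pow, mul_pow, ← e1]
      linear_combination (s k) ^ 2 * (wO ^ (2 * jj j)) ^ 2 * h4
    · have e2 : qd.A (S ∪ B') + cc j + ck k = qd.A B' + cc j + ck k + qd.A S := by
        rw [A_union hd]
        abel
      rw [e2]
      exact h2 k

end

end Pool.Agent.Lib.MP_1a91b9_ntDV
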