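import Pool.Agent.Lib.MP_1a91b9_ntDV.K3_10
import Pool.Agent.Lib.MP_1a91b9_ntDV.K3_11
import Pool.Agent.Lib.MP_1a91b9_ntDV.P5
import Pool.Agent.Lib.MP_1a91b9_ntDV.T10
import Pool.Agent.Lib.MP_1a91b9_ntP.J.Dsj

/-!
# MP_1a91b9_nt (the divisor law): the joint law for the labels over `ℚ(√-3)`
-/

set_option autoImplicit false
set_option linter.unusedSectionVars false

namespace Pool.Agent.Lib.MP_1a91b9_ntDV

open Finset Pool.Agent.Lib.MP_1a91b9_ntH Pool.Agent.Lib.MP_1a91b9_ntH2
  Pool.Agent.Lib.MP_1a91b9_ntE Pool.Agent.Lib.MP_1a91b9_ntQ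
open Pool.Agent.Lib.MP_1a91b9_ntP (GdE Bs offG bsQ bsQ_inj bsQ_one qG_OK)

noncomputable section

open Pool.Agent.Lib.MP_1a91b9_ntQ (Off up dn)

/-- The number of the finite sets of primes of norm at most `X` is `O(X)`, for all `X`. -/
theorem card_Sx_le' {ι : Type} [DecidableEq ι] [PS ι] {C1 C2 : ℝ} (h1 : Cheb ι C1)
    (h2 : Zt ι C2) : ∃ C : ℝ, ∀ X : ℕ, ((Sx ι X).card : ℝ) ≤ C * X := by
  obtain ⟨C, hC, h⟩ := card_Sx_le h1 h2
  refine ⟨2 * C, fun X => ?_⟩
  rcases Nat.lt_or_ge X 2 with hX | hX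
  · rcases Nat.eq_zero_or_pos X with h0 | h0
    · have e : Sx ι X = ∅ := by
        rw [Finset.eq_empty_iff_forall_notMem]
        intro S hS
        rw [mem_Sx, h0] at hS
        have := one_le_nm S
        omega
      rw [e, h0]
      simp
    · have h1' : X = 1 := by omega
      have hsub : Sx ι X ⊆ Sx ι 2 := fun S hS => by
        rw [mem_Sx] at hS ⊢
        omega
      have h3 : ((Sx ι X).card : ℝ) ≤ ((Sx ι 2).card : ℝ) := by
        exact_mod_cast Finset.card_le_card hsub
      have h4 := h 2 le_rfl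
      rw [h1']
      rw [h1'] at h3
      push_cast at h4 ⊢
      linarith
  · have h3 := h X hX
    have h4 : (0 : ℝ) ≤ C * X := mul_nonneg hC.le (Nat.cast_nonneg X)
    linarith

/-- The class of a set of primes outside `B`. -/
theorem A_off (B : Finset Pq) (S : Finset (Off B)) :
    (offG qE B).toDat.A S = qd.A (up S) := by
  exact (sum_up S fun q => qd.a q).symm

/-- The indicator for the labels in the class `α`. -/
def ind3 {N : ℕ} (f : Fin N → Bool) (c : Fin N → F4) (T : Fin N → Finset Pq) {B : Finset Pq}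
    (α : F4) (S : Finset (Off B)) : ℝ :=
  ∏ n : Fin N, if (bsQ (f n) (c n + α)).kz (up S ∪ T n) = 1 then (1 : ℝ) else 0

theorem ind3_eq {N : ℕ} (f : Fin N → Bool) (c : Fin N → F4) (T : Fin N → Finset Pq)
    {B : Finset Pq} (S : Finset (Off B))
    (hd : Decidable (∀ n, GdE (f n) (c n + qd.A (up S)) (up S ∪ T n))) :
    ind3 f c T ((offG qE B).toDat.A S) S =
      if (∀ n, GdE (f n) (c n + qd.A (up S)) (up S ∪ T n)) then (1 : ℝ) else 0 := by
  classical
  unfold ind3
  simp only [A_off, bsQ_one]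
  rw [Finset.prod_ite_zero]
  simp

/-- **The joint law for the divisors, for the labels over `ℚ(√-3)`.** -/
theorem jl3 (N : ℕ) : JL3 N := by
  classical
  intro f c T B hT hi
  obtain ⟨C1, h1⟩ := qE_OK.cheb
  obtain ⟨C2, h2⟩ := qE_OK.zt
  obtain ⟨C, hC⟩ := card_Sx_le' h1 h2
  have h3 : AVr (fun S : Finset (Off B) => ind3 f c T ((offG qE B).toDat.A S) S)
      (Da.cinf ^ N) := by
    refine AVr_of_P4 (offG qE B) (f := fun α S => ind3 f c T α S) fun α => ?_
    have hi' : Function.Injective fun n => (f n, F4.tr (c n + α), T n) := by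
      intro n n' h
      apply hi
      simp only [Prod.mk.injEq] at h ⊢
      refine ⟨h.1, ?_, h.2.2⟩
      have h4 := h.2.1
      rw [F4.tr_add, F4.tr_add] at h4
      exact add_right_cancel h4
    have h5 := P4_dens qE_OK.rec_ (fun n => bsQ (f n) (c n + α)) (qG_OK B) hT (bsQ_inj hi') α
    rw [Fintype.card_fin] at h5
    exact h5
  refine SubL_of_AVr hC ?_
  exact (congrArg (fun F => AVr F (Da.cinf ^ N)) (funext fun S => ind3_eq f c T S _)).mp h3

end

end Pool.Agent.Lib.MP_1a91b9_ntDV
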