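import Pool.Agent.Lib.MP_1a91b9_ntDV.K3_12
import Pool.Agent.Lib.MP_1a91b9_ntP.J.Dsp

/-!
# MP_1a91b9_nt (the divisor law): the joint law for the pairs of labels over `ℚ(√-3)`
-/

set_option autoImplicit false
set_option linter.unusedSectionVars false

namespace Pool.Agent.Lib.MP_1a91b9_ntDV

open Finset Pool.Agent.Lib.MP_1a91b9_ntH Pool.Agent.Lib.MP_1a91b9_ntH2
  Pool.Agent.Lib.MP_1a91b9_ntE Pool.Agent.Lib.MP_1a91b9_ntQ
open Pool.Agent.Lib.MP_1a91b9_ntP (GdE Bs offG qG_OK trQ trW trQ_rho trQ_tau trW_sum tr_val)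

noncomputable section

open Pool.Agent.Lib.MP_1a91b9_ntQ (Off up dn)

open Classical in
/-- From the mean square over the primes outside `B` to `SubL`, for a lower bound of the indicator. -/
theorem SubL_of_AVr_le {ι : Type} [DecidableEq ι] [PS ι] {B : Finset ι} {C : ℝ}
    (hC : ∀ X : ℕ, ((Sx ι X).card : ℝ) ≤ C * X) {P : Finset ι → Prop} {c : ℝ}
    {F : Finset (Off B) → ℝ} (hF : ∀ S, F S ≤ if P (up S) then (1 : ℝ) else 0) (h : AVr F c) :
    SubL B c P := by
  classical
  have hup : ∀ X : ℕ, (Sx (Off B) X).card ≤ (Sx ι X).card := by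
    intro X
    refine card_le_card_of_injOn (fun S => up S) ?_ ?_
    · intro S hS
      exact up_mem_Sx.2 hS
    · intro S _ T _ hST
      exact up_injective hST
  have hkey : ∀ (ε : ℝ) (S : Finset ι), Disjoint S B →
      ((S.powerset.filter P).card : ℝ) < (c - ε) * 2 ^ S.card → avr F (dn B S) < c - ε := by
    intro ε S hS hlt
    have h1 : up (dn B S) = S := up_dn hS
    have h2 : (dn B S).card = S.card := by
      have h3 : (up (dn B S)).card = (dn B S).card := card_map _
      rw [← h3, h1]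
    have h3 : (∑ T ∈ (dn B S).powerset, F T) ≤ ((S.powerset.filter P).card : ℝ) := by
      refine le_trans (sum_le_sum fun T _ => hF T) ?_
      rw [sum_boole]
      have h4 : ((dn B S).powerset.filter fun T => P (up T)).card ≤ (S.powerset.filter P).card := by
        refine card_le_card_of_injOn (fun T => up T) ?_ ?_
        · intro T hT
          obtain ⟨h5, h6⟩ := mem_filter.1 hT
          refine mem_filter.2 ⟨?_, h6⟩
          rw [mem_powerset] at h5 ⊢
          rw [← h1]
          exact map_subset_map.2 h5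
        · intro T _ T' _ hTT
          exact up_injective hTT
      exact_mod_cast h4
    have h4 : (0 : ℝ) < 2 ^ S.card := by positivity
    unfold avr
    rw [h2, div_lt_iff₀ h4]
    exact lt_of_le_of_lt h3 hlt
  intro ε hε
  have hC1 : 0 < |C| + 1 := by positivity
  obtain ⟨X₀, hX₀⟩ := AVr.rare h (v' := c - ε) (by linarith) (ε / (|C| + 1)) (div_pos hε hC1)
  refine ⟨X₀, fun X hX => ?_⟩
  have h1 := hX₀ X hX
  have h2 : ((Sx (Off B) X).card : ℝ) + X ≤ (|C| + 1) * X := by
    have h3 : ((Sx (Off B) X).card : ℝ) ≤ (Sx ι X).card := by exact_mod_cast hup X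
    have h4 := hC X
    have h5 : C * X ≤ |C| * X := mul_le_mul_of_nonneg_right (le_abs_self C) (Nat.cast_nonneg X)
    linarith
  have h3 : ε / (|C| + 1) * (((Sx (Off B) X).card : ℝ) + X) ≤ ε * X := by
    calc ε / (|C| + 1) * (((Sx (Off B) X).card : ℝ) + X) ≤ ε / (|C| + 1) * ((|C| + 1) * X) :=
          mul_le_mul_of_nonneg_left h2 (div_pos hε hC1).le
      _ = ε * X := by field_simp
  refine le_trans ?_ (le_trans h1 h3)
  have h4 : ((Sx ι X).filter fun S => Disjoint S B ∧
      ((S.powerset.filter P).card : ℝ) < (c - ε) * 2 ^ S.card).card ≤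
      ((Sx (Off B) X).filter fun S => avr F S < c - ε).card := by
    refine card_le_card_of_injOn (fun S => dn B S) ?_ ?_
    · intro S hS
      obtain ⟨h5, h6, h7⟩ := mem_filter.1 hS
      refine mem_filter.2 ⟨?_, hkey ε S h6 h7⟩
      rw [← up_mem_Sx, up_dn h6]
      exact h5
    · intro S hS T hT hST
      obtain ⟨_, h6, _⟩ := mem_filter.1 hS
      obtain ⟨_, h7, _⟩ := mem_filter.1 hT
      rw [← up_dn h6, ← up_dn h7]
      exact congrArg up hST
  exact_mod_cast h4

open Classical in
/-- The combination of the indicators for one label in the class `α`. -/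
def pr3 (f : Bool) (c : F4) (S : Finset Pq) : ℝ :=
  ∑ j, trW f j * (if (trQ f c j).kz S = 1 then 1 else 0)

/-- **The joint law for the divisors, for the pairs of labels over `ℚ(√-3)`.** -/
theorem jp3 (N : ℕ) (f : Fin N → Bool) (c : Fin N → F4) (T : Fin N → Finset Pq) (B : Finset Pq)
    (hT : ∀ n, T n ⊆ B) (hi : Function.Injective (fun n => (f n, F4.tr (c n), T n))) :
    SubL B (∏ n, if f n = true then Da.cinf / 2 else Da.cinf) fun S =>
      ∀ n, GdE (f n) (c n + qd.A S) (S ∪ T n) ∧ GdE (f n) (c n + 1 + qd.A S) (S ∪ T n) := by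
  classical
  obtain ⟨C1, h1⟩ := qE_OK.cheb
  obtain ⟨C2, h2⟩ := qE_OK.zt
  obtain ⟨C, hC⟩ := card_Sx_le' h1 h2
  have hval : (∏ i, ∑ j, trW (f i) j) * Da.cinf ^ Fintype.card (Fin N) =
      ∏ i, (if f i = true then Da.cinf / 2 else Da.cinf) := by
    rw [← card_univ, ← prod_const, ← prod_mul_distrib]
    refine prod_congr rfl fun i _ => ?_
    rw [trW_sum]
    split_ifs
    · ring
    · ring
  have h3 : AVr (fun S : Finset (Off B) => (fun (α : F4) (S : Finset (Off B)) =>
      ∏ n, pr3 (f n) (c n + α) (up S ∪ T n)) ((offG qE B).toDat.A S) S)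
      (∏ n, if f n = true then Da.cinf / 2 else Da.cinf) := by
    refine AVr_of_P4 (offG qE B) (f := fun (α : F4) (S : Finset (Off B)) =>
      ∏ n, pr3 (f n) (c n + α) (up S ∪ T n)) fun α => ?_
    have hP := limP_P4 (offG qE B) α
    have h4 : ∀ u : Fin N → Fin 3, P4 (offG qE B) α (fun S : Finset (Off B) => ∏ n,
        if (trQ (f n) (c n + α) (u n)).kz (up S ∪ T n) = 1 then (1 : ℝ) else 0)
        (Da.cinf ^ Fintype.card (Fin N)) := by
      intro u
      refine P4_dens qE_OK.rec_ (fun n => trQ (f n) (c n + α) (u n)) (qG_OK B) hT ?_ α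
      intro a a' h
      have e1 : (trQ (f a) (c a + α) (u a)).ρ = (trQ (f a') (c a' + α) (u a')).ρ :=
        congrArg Prod.fst h
      have e2 : (trQ (f a) (c a + α) (u a)).τ = (trQ (f a') (c a' + α) (u a')).τ :=
        congrArg (fun x => x.2.1) h
      have e3 : T a = T a' := congrArg (fun x => x.2.2) h
      rw [trQ_rho, trQ_rho, F4.tr_add, F4.tr_add] at e1
      rw [trQ_tau, trQ_tau] at e2
      have h4 : ∀ x y : Bool, (if x = true then (1 : ZMod 2) else 0) =
          (if y = true then 1 else 0) → x = y := by decide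
      exact hi (Prod.ext (h4 _ _ e2) (Prod.ext (add_right_cancel (add_left_cancel e1)) e3))
    have h0 : P4 (offG qE B) α (fun _ => 0) 0 := by
      have h5 := hP.smul _ _ 0 (h4 fun _ => 0)
      simp only [zero_mul] at h5
      exact h5
    have h6 := hP.sum (univ : Finset (Fin N → Fin 3)) (fun u _ =>
      hP.smul _ _ (∏ n, trW (f n) (u n)) (h4 u)) h0
    have h7 : (fun S : Finset (Off B) => ∑ u : Fin N → Fin 3, (∏ n, trW (f n) (u n)) *
        ∏ n, if (trQ (f n) (c n + α) (u n)).kz (up S ∪ T n) = 1 then (1 : ℝ) else 0) =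
        fun S : Finset (Off B) => ∏ n, pr3 (f n) (c n + α) (up S ∪ T n) := by
      funext S
      unfold pr3
      rw [prod_univ_sum, Fintype.piFinset_univ]
      refine sum_congr rfl fun u _ => ?_
      rw [← prod_mul_distrib]
    have h8 : (∑ u : Fin N → Fin 3, (∏ n, trW (f n) (u n)) * Da.cinf ^ Fintype.card (Fin N)) =
        ∏ n, if f n = true then Da.cinf / 2 else Da.cinf := by
      rw [← sum_mul, ← hval, prod_univ_sum, Fintype.piFinset_univ]
    rw [h8] at h6
    rw [h7] at h6
    exact h6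
  refine SubL_of_AVr_le hC (fun S => ?_) h3
  show ∏ n, pr3 (f n) (c n + (offG qE B).toDat.A S) (up S ∪ T n) ≤ _
  rw [A_off]
  split_ifs with h9
  · exact prod_le_one (fun n _ => (tr_val _ _ _).1) fun n _ => (tr_val _ _ _).2.1
  · rw [not_forall] at h9
    obtain ⟨n, hn⟩ := h9
    refine le_of_eq (prod_eq_zero (mem_univ n) ((tr_val _ _ _).2.2 fun h => ?_))
    refine hn ⟨h.1, ?_⟩
    have e : c n + 1 + qd.A (up S) = c n + qd.A (up S) + 1 := by ring
    rw [e]
    exact h.2

end

end Pool.Agent.Lib.MP_1a91b9_ntDV
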