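import Pool.Agent.Lib.MP_1a91b9_ntDV.K3_13
import Pool.Agent.Lib.MP_1a91b9_ntZ.Bin

/-!
# MP_1a91b9_nt (the divisor law): the binomial law for the blocks of labels over `ℚ(√-3)`
-/

set_option autoImplicit false
set_option linter.unusedSectionVars false

namespace Pool.Agent.Lib.MP_1a91b9_ntDV

open Finset Pool.Agent.Lib.MP_1a91b9_ntH Pool.Agent.Lib.MP_1a91b9_ntH2
  Pool.Agent.Lib.MP_1a91b9_ntE Pool.Agent.Lib.MP_1a91b9_ntQ
open Pool.Agent.Lib.MP_1a91b9_ntP (GdE Bs offG qG_OK trQ trW trQ_rho trQ_tau trW_sum tr_val bsQ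
  bsQ_inj bsQ_one)
open Pool.Agent.Lib.MP_1a91b9_ntZ (Atl bn bts bts_zero bts_empty_succ bts_insert_succ bts_mono
  bts_ind bts_const)

noncomputable section

open Pool.Agent.Lib.MP_1a91b9_ntQ (Off up dn)

/-- The mean values of `bts`, for any notion of mean value. -/
theorem LimP.mean_bts {β : Type} {P : (β → ℝ) → ℝ → Prop} (hP : LimP P) {I : Type}
    [DecidableEq I] {F : I → β → ℝ} {v : I → ℝ} (s : Finset I) :
    ∀ (K : Finset I), Disjoint K s →
      (∀ J : Finset I, J ⊆ K ∪ s → P (fun b => ∏ i ∈ J, F i b) (∏ i ∈ J, v i)) → ∀ t : ℕ,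
      P (fun b => (∏ i ∈ K, F i b) * bts s t fun i => F i b) ((∏ i ∈ K, v i) * bts s t v) := by
  have hcongr : ∀ {f h : β → ℝ} {x y : ℝ}, P f x → (∀ b, h b = f b) → y = x → P h y := by
    intro f h x y h1 h2 h3
    rw [show h = f from funext h2, h3]
    exact h1
  induction s using Finset.induction_on with
  | empty =>
    intro K _ hM t
    rcases t with _ | t
    · refine hcongr (hM K subset_union_left) (fun b => ?_) ?_
      · rw [bts_zero, mul_one]
      · rw [bts_zero, mul_one]
    · have h0 := hP.smul _ _ 0 (hM K subset_union_left)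
      refine hcongr h0 (fun b => ?_) ?_
      · rw [bts_empty_succ]
        ring
      · rw [bts_empty_succ]
        ring
  | insert a s ha ih =>
    intro K hK hM t
    have haK : a ∉ K := fun h => disjoint_left.1 hK h (mem_insert_self _ _)
    have hKs : Disjoint K s := disjoint_of_subset_right (subset_insert _ _) hK
    have hKs' : Disjoint (insert a K) s := by
      rw [disjoint_insert_left]
      exact ⟨ha, hKs⟩
    rcases t with _ | t
    · refine hcongr (hM K subset_union_left) (fun b => ?_) ?_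
      · rw [bts_zero, mul_one]
      · rw [bts_zero, mul_one]
    · have m1 := ih (insert a K) hKs' (fun J hJ => hM J (hJ.trans (by
        intro i hi
        simp only [mem_union, mem_insert] at hi ⊢
        tauto))) t
      have m2 := ih K hKs (fun J hJ => hM J (hJ.trans (union_subset_union_right
        (subset_insert _ _)))) (t + 1)
      have m3 := ih (insert a K) hKs' (fun J hJ => hM J (hJ.trans (by
        intro i hi
        simp only [mem_union, mem_insert] at hi ⊢
        tauto))) (t + 1)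
      refine hcongr (hP.add _ _ _ _ (hP.add _ _ _ _ m1 m2) (hP.smul _ _ (-1) m3))
        (fun b => ?_) ?_
      · rw [bts_insert_succ ha, prod_insert haK]
        ring
      · rw [bts_insert_succ ha, prod_insert haK]
        ring

/-- The labels in the blocks of `s`. -/
abbrev Lb {k : ℕ} (A : Fin k → Type) (s : Finset (Fin k)) : Type := Σ i : {i // i ∈ s}, A i.1

/-- The labels in the blocks of `s` are different. -/
theorem lb_inj {k : ℕ} {A : Fin k → Type} (s : Finset (Fin k)) {Y : Type}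
    {h : (Σ i, A i) → Y} (hi : Function.Injective h) :
    Function.Injective (fun a : Lb A s => h ⟨a.1.1, a.2⟩) := by
  rintro ⟨⟨i, hi1⟩, a⟩ ⟨⟨i', hi2⟩, a'⟩ h1
  have h2 : (⟨i, a⟩ : Σ i, A i) = ⟨i', a'⟩ := hi h1
  cases h2
  rfl

variable {k : ℕ} {A : Fin k → Type} [∀ i, Fintype (A i)] [∀ i, DecidableEq (A i)]

/-- The mean values of the products of combinations, in a class. -/
theorem P4_comb {B : Finset Pq} {Z : Type} [Fintype Z] [DecidableEq Z] {J : Type} [Fintype J]
    [DecidableEq J] (Q : Z → J → Bs qE) (w : Z → J → ℝ) {T : Z → Finset Pq}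
    (hT : ∀ z, T z ⊆ B)
    (hi : ∀ u : Z → J, Function.Injective fun z => ((Q z (u z)).ρ, (Q z (u z)).τ, T z)) (α : F4)
    [Nonempty J] :
    P4 (offG qE B) α (fun S : Finset (Off B) =>
        ∏ z, ∑ j, w z j * (if (Q z j).kz (up S ∪ T z) = 1 then (1 : ℝ) else 0))
      (∏ z, ((∑ j, w z j) * Da.cinf)) := by
  classical
  have hP := limP_P4 (offG qE B) α
  have h4 : ∀ u : Z → J, P4 (offG qE B) α (fun S : Finset (Off B) => ∏ z,
      if (Q z (u z)).kz (up S ∪ T z) = 1 then (1 : ℝ) else 0) (Da.cinf ^ Fintype.card Z) := by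
    intro u
    exact P4_dens qE_OK.rec_ (fun z => Q z (u z)) (qG_OK B) hT (hi u) α
  have h0 : P4 (offG qE B) α (fun _ => 0) 0 := by
    have h5 := hP.smul _ _ 0 (h4 fun _ => Classical.arbitrary J)
    simp only [zero_mul] at h5
    exact h5
  have h6 := hP.sum (univ : Finset (Z → J)) (fun u _ =>
    hP.smul _ _ (∏ z, w z (u z)) (h4 u)) h0
  have h7 : (fun S : Finset (Off B) => ∑ u : Z → J, (∏ z, w z (u z)) *
      ∏ z, if (Q z (u z)).kz (up S ∪ T z) = 1 then (1 : ℝ) else 0) =
      fun S : Finset (Off B) => ∏ z, ∑ j, w z j *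
        (if (Q z j).kz (up S ∪ T z) = 1 then (1 : ℝ) else 0) := by
    funext S
    rw [prod_univ_sum, Fintype.piFinset_univ]
    refine sum_congr rfl fun u _ => ?_
    rw [← prod_mul_distrib]
  have h8 : (∑ u : Z → J, (∏ z, w z (u z)) * Da.cinf ^ Fintype.card Z) =
      ∏ z, ((∑ j, w z j) * Da.cinf) := by
    rw [← sum_mul, prod_mul_distrib, prod_univ_sum, Fintype.piFinset_univ, prod_const, card_univ]
  rw [h8] at h6
  rw [h7] at h6
  exact h6

/-- **The binomial law for the divisors**, for combinations of indicators. -/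
theorem jc3 {J : Type} [Fintype J] [DecidableEq J] [Nonempty J]
    (Q : F4 → ∀ i, A i → J → Bs qE) (w : ∀ i, A i → J → ℝ) (T : ∀ i, A i → Finset Pq)
    (B : Finset Pq) (hT : ∀ i a, T i a ⊆ B)
    (hi : ∀ (α : F4) (u : (Σ i, A i) → J), Function.Injective fun p : (Σ i, A i) =>
      ((Q α p.1 p.2 (u p)).ρ, (Q α p.1 p.2 (u p)).τ, T p.1 p.2))
    (P : F4 → ∀ i, A i → Finset Pq → Prop)
    (h0 : ∀ α i a S, 0 ≤ ∑ j, w i a j * (if (Q α i a j).kz S = 1 then (1 : ℝ) else 0))
    (h1 : ∀ α i a S, ∑ j, w i a j * (if (Q α i a j).kz S = 1 then (1 : ℝ) else 0) ≤ 1)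
    (hP : ∀ α i a S, ¬ P α i a S →
      ∑ j, w i a j * (if (Q α i a j).kz S = 1 then (1 : ℝ) else 0) = 0)
    (hw0 : ∀ i a, 0 ≤ ∑ j, w i a j) (hw1 : ∀ i a, ∑ j, w i a j ≤ 1) {g : ℝ} (hg : 0 ≤ g)
    (hgv : ∀ i, g ≤ ∏ a, ((∑ j, w i a j) * Da.cinf)) (t : ℕ) :
    SubL B (bn k t g) fun S => Atl t fun i => ∀ a, P (qd.A S) i a (S ∪ T i a) := by
  classical
  have hc0 : 0 ≤ Da.cinf := MP_1a91b9_ntN.G.cinf_pos.le
  have hc1 : Da.cinf ≤ 1 := MP_1a91b9_ntN.G.cinf_le.trans (by norm_num)
  obtain ⟨C1, hc⟩ := qE_OK.cheb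
  obtain ⟨C2, hz⟩ := qE_OK.zt
  obtain ⟨C, hC⟩ := card_Sx_le' hc hz
  set F : F4 → Fin k → Finset (Off B) → ℝ := fun α i S =>
    ∏ a, ∑ j, w i a j * (if (Q α i a j).kz (up S ∪ T i a) = 1 then (1 : ℝ) else 0) with hF
  set v : Fin k → ℝ := fun i => ∏ a, ((∑ j, w i a j) * Da.cinf) with hv
  have hM : ∀ (α : F4) (s : Finset (Fin k)), P4 (offG qE B) α (fun S => ∏ i ∈ s, F α i S)
      (∏ i ∈ s, v i) := by
    intro α s
    have hm := P4_comb (B := B) (fun (a : Lb A s) j => Q α a.1.1 a.2 j)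
      (fun a j => w a.1.1 a.2 j) (T := fun a => T a.1.1 a.2) (fun a => hT _ _) (fun u => by
        intro a a' h
        have hj := lb_inj s (hi α fun p : (Σ i, A i) => if hp : p.1 ∈ s then u ⟨⟨p.1, hp⟩, p.2⟩
          else Classical.arbitrary J)
        apply hj
        have e : ∀ a : Lb A s, (if hp : (⟨a.1.1, a.2⟩ : Σ i, A i).1 ∈ s then
            u ⟨⟨(⟨a.1.1, a.2⟩ : Σ i, A i).1, hp⟩, (⟨a.1.1, a.2⟩ : Σ i, A i).2⟩
            else Classical.arbitrary J) = u a := by
          intro a
          rw [dif_pos a.1.2]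
        simp only [e]
        exact h) α
    have e1 : (fun S : Finset (Off B) => ∏ z : Lb A s, ∑ j, w z.1.1 z.2 j *
        (if (Q α z.1.1 z.2 j).kz (up S ∪ T z.1.1 z.2) = 1 then (1 : ℝ) else 0)) =
        fun S => ∏ i ∈ s, F α i S := by
      funext S
      rw [Fintype.prod_sigma]
      exact prod_coe_sort s fun i => F α i S
    have e2 : (∏ z : Lb A s, ((∑ j, w z.1.1 z.2 j) * Da.cinf)) = ∏ i ∈ s, v i := by
      rw [Fintype.prod_sigma]
      exact prod_coe_sort s fun i => v i
    rw [e1, e2] at hm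
    exact hm
  have h3 : AVr (fun S : Finset (Off B) => (fun (α : F4) (S : Finset (Off B)) =>
      bts univ t fun i => F α i S) ((offG qE B).toDat.A S) S) (bts univ t v) := by
    refine AVr_of_P4 (offG qE B) (f := fun (α : F4) (S : Finset (Off B)) =>
      bts univ t fun i => F α i S) fun α => ?_
    have h5 := (limP_P4 (offG qE B) α).mean_bts (F := F α) (v := v) univ ∅
      (disjoint_empty_left _) (fun s _ => hM α s) t
    simp only [prod_empty, one_mul] at h5
    exact h5
  have hle : bn k t g ≤ bts univ t v := by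
    have e := bts_const (univ : Finset (Fin k)) t g
    rw [card_univ, Fintype.card_fin] at e
    rw [← e]
    exact bts_mono univ t (fun _ _ => hg) (fun i _ => hgv i) fun i _ =>
      prod_le_one (fun a _ => mul_nonneg (hw0 i a) hc0)
        fun a _ => mul_le_one₀ (hw1 i a) hc0 hc1
  have h6 : SubL B (bts univ t v) fun S => Atl t fun i => ∀ a, P (qd.A S) i a (S ∪ T i a) := by
    refine SubL_of_AVr_le hC (fun S => ?_) h3
    show bts univ t (fun i => F ((offG qE B).toDat.A S) i S) ≤ _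
    rw [A_off]
    have h8 : (bts univ t fun i => F (qd.A (up S)) i S) ≤
        bts univ t fun i => if ∀ a, P (qd.A (up S)) i a (up S ∪ T i a) then (1 : ℝ) else 0 := by
      refine bts_mono univ t (fun i _ => prod_nonneg fun a _ => h0 _ i a _) (fun i _ => ?_)
        fun i _ => ?_
      · by_cases h : ∀ a, P (qd.A (up S)) i a (up S ∪ T i a)
        · rw [if_pos h]
          exact prod_le_one (fun a _ => h0 _ i a _) fun a _ => h1 _ i a _
        · rw [if_neg h]
          rw [not_forall] at h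
          obtain ⟨a, ha⟩ := h
          exact le_of_eq (prod_eq_zero (mem_univ a) (hP _ i a _ ha))
      · split_ifs
        · exact le_rfl
        · exact zero_le_one
    refine le_trans h8 (le_of_eq ?_)
    have e := bts_ind (fun i => ∀ a, P (qd.A (up S)) i a (up S ∪ T i a)) univ t
    refine Eq.trans ?_ (e.trans ?_)
    · refine congrArg (bts univ t) (funext fun i => ?_)
      split_ifs <;> rfl
    · by_cases h : Atl t fun i => ∀ a, P (qd.A (up S)) i a (up S ∪ T i a)
      · exact (if_pos h).trans (if_pos h).symm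
      · exact (if_neg h).trans (if_neg h).symm
  intro ε hε
  obtain ⟨X0, hX0⟩ := h6 ε hε
  refine ⟨X0, fun X hX => le_trans ?_ (hX0 X hX)⟩
  have h7 : ((Sx Pq X).filter fun S => Disjoint S B ∧
      ((S.powerset.filter fun S => Atl t fun i => ∀ a, P (qd.A S) i a (S ∪ T i a)).card : ℝ) <
        (bn k t g - ε) * 2 ^ S.card) ⊆ ((Sx Pq X).filter fun S => Disjoint S B ∧
      ((S.powerset.filter fun S => Atl t fun i => ∀ a, P (qd.A S) i a (S ∪ T i a)).card : ℝ) <
        (bts univ t v - ε) * 2 ^ S.card) := by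
    intro S hS
    obtain ⟨h8, h9, h10⟩ := mem_filter.1 hS
    refine mem_filter.2 ⟨h8, h9, lt_of_lt_of_le h10 ?_⟩
    have h11 : (0 : ℝ) ≤ 2 ^ S.card := by positivity
    exact mul_le_mul_of_nonneg_right (by linarith) h11
  exact_mod_cast card_le_card h7

end

end Pool.Agent.Lib.MP_1a91b9_ntDV
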