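import Pool.Agent.Lib.MP_1a91b9_ntDV.K3_14

/-!
# MP_1a91b9_nt (the divisor law): the binomial law for the blocks of labels and of pairs of labels over `ℚ(√-3)`
-/

set_option autoImplicit false
set_option linter.unusedSectionVars false

namespace Pool.Agent.Lib.MP_1a91b9_ntDV

open Finset Pool.Agent.Lib.MP_1a91b9_ntH Pool.Agent.Lib.MP_1a91b9_ntH2
  Pool.Agent.Lib.MP_1a91b9_ntE Pool.Agent.Lib.MP_1a91b9_ntQ
open Pool.Agent.Lib.MP_1a91b9_ntP (GdE Bs offG qG_OK trQ trW trQ_rho trQ_tau trW_sum tr_val bsQ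
  bsQ_inj bsQ_one)
open Pool.Agent.Lib.MP_1a91b9_ntZ (Atl bn)

noncomputable section

variable {k : ℕ} {A : Fin k → Type} [∀ i, Fintype (A i)]

/-- **The binomial law for the divisors, for the blocks of labels over `ℚ(√-3)`.** -/
theorem jb3' (f : ∀ i, A i → Bool) (c : ∀ i, A i → F4) (T : ∀ i, A i → Finset Pq) (B : Finset Pq)
    (hT : ∀ i a, T i a ⊆ B)
    (hi : Function.Injective (fun p : (Σ i, A i) => (f p.1 p.2, F4.tr (c p.1 p.2), T p.1 p.2)))
    {g : ℝ} (hg : 0 ≤ g) (hgv : ∀ i, g ≤ Da.cinf ^ Fintype.card (A i)) (t : ℕ) :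
    SubL B (bn k t g) fun S => Atl t fun i => ∀ a, GdE (f i a) (c i a + qd.A S) (S ∪ T i a) := by
  classical
  refine jc3 (J := Unit) (fun α i a _ => bsQ (f i a) (c i a + α)) (fun _ _ _ => 1) T B hT
    (fun α u => bsQ_inj (A := (Σ i, A i)) (f := fun p => f p.1 p.2)
      (c := fun p => c p.1 p.2 + α) (T := fun p => T p.1 p.2) ?_)
    (fun α i a S => GdE (f i a) (c i a + α) S) (fun α i a S => ?_) (fun α i a S => ?_)
    (fun α i a S hS => ?_) (fun i a => by simp) (fun i a => by simp) hg (fun i => ?_) t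
  · intro p p' h
    apply hi
    simp only [Prod.mk.injEq] at h ⊢
    refine ⟨h.1, ?_, h.2.2⟩
    have h4 := h.2.1
    rw [F4.tr_add, F4.tr_add] at h4
    exact add_right_cancel h4
  · rw [sum_const, card_univ, Fintype.card_unit, one_smul, one_mul]
    split_ifs <;> norm_num
  · rw [sum_const, card_univ, Fintype.card_unit, one_smul, one_mul]
    split_ifs <;> norm_num
  · rw [sum_const, card_univ, Fintype.card_unit, one_smul, one_mul,
      if_neg fun h => hS ((bsQ_one _ _ _).1 h)]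
  · refine (hgv i).trans (le_of_eq ?_)
    simp

/-- **The binomial law for the divisors, for the blocks of pairs of labels over `ℚ(√-3)`.** -/
theorem jpb3' (f : ∀ i, A i → Bool) (c : ∀ i, A i → F4) (T : ∀ i, A i → Finset Pq) (B : Finset Pq)
    (hT : ∀ i a, T i a ⊆ B)
    (hi : Function.Injective (fun p : (Σ i, A i) => (f p.1 p.2, F4.tr (c p.1 p.2), T p.1 p.2)))
    {g : ℝ} (hg : 0 ≤ g)
    (hgv : ∀ i, g ≤ ∏ a, (if f i a = true then Da.cinf / 2 else Da.cinf)) (t : ℕ) :
    SubL B (bn k t g) fun S => Atl t fun i => ∀ a,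
      GdE (f i a) (c i a + qd.A S) (S ∪ T i a) ∧ GdE (f i a) (c i a + 1 + qd.A S) (S ∪ T i a) := by
  classical
  have h : SubL B (bn k t g) fun S => Atl t fun i => ∀ a,
      GdE (f i a) (c i a + qd.A S) (S ∪ T i a) ∧
        GdE (f i a) (c i a + qd.A S + 1) (S ∪ T i a) := by
    refine jc3 (J := Fin 3) (fun α i a j => trQ (f i a) (c i a + α) j)
      (fun i a j => trW (f i a) j) T B hT (fun α u => ?_)
      (fun α i a S => GdE (f i a) (c i a + α) S ∧ GdE (f i a) (c i a + α + 1) S)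
      (fun α i a S => (tr_val _ _ S).1) (fun α i a S => (tr_val _ _ S).2.1)
      (fun α i a S hS => (tr_val _ _ S).2.2 hS) (fun i a => ?_) (fun i a => ?_) hg (fun i => ?_) t
    · intro a a' h
      have e1 : (trQ (f a.1 a.2) (c a.1 a.2 + α) (u a)).ρ =
          (trQ (f a'.1 a'.2) (c a'.1 a'.2 + α) (u a')).ρ := congrArg Prod.fst h
      have e2 : (trQ (f a.1 a.2) (c a.1 a.2 + α) (u a)).τ =
          (trQ (f a'.1 a'.2) (c a'.1 a'.2 + α) (u a')).τ := congrArg (fun x => x.2.1) h
      have e3 : T a.1 a.2 = T a'.1 a'.2 := congrArg (fun x => x.2.2) h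
      rw [trQ_rho, trQ_rho, F4.tr_add, F4.tr_add] at e1
      rw [trQ_tau, trQ_tau] at e2
      have h4 : ∀ x y : Bool, (if x = true then (1 : ZMod 2) else 0) =
          (if y = true then 1 else 0) → x = y := by decide
      exact hi (Prod.ext (h4 _ _ e2) (Prod.ext (add_right_cancel (add_left_cancel e1)) e3))
    · rw [trW_sum]
      split_ifs <;> norm_num
    · rw [trW_sum]
      split_ifs <;> norm_num
    · refine (hgv i).trans (le_of_eq (prod_congr rfl fun a _ => ?_))
      rw [trW_sum]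
      split_ifs
      · ring
      · ring
  have e : ∀ (S : Finset Pq) i (a : A i), c i a + qd.A S + 1 = c i a + 1 + qd.A S := by
    intro S i a
    ring
  simp only [e] at h
  exact h

end

end Pool.Agent.Lib.MP_1a91b9_ntDV
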