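import Pool.Agent.Lib.MP_1a91b9_ntQ.R.Density4
import Pool.Agent.Lib.MP_1a91b9_ntQ.R.Cheb4
import Pool.Agent.Lib.MP_1a91b9_ntDV.T2

/-!
# MP_1a91b9_nt (the divisor law), block T: the representation and the density for `ℤ[i]`
-/

set_option autoImplicit false
set_option linter.unusedSectionVars false

namespace Pool.Agent.Lib.MP_1a91b9_ntDV

open NumberField Finset
open Pool.Agent.Lib.MP_1a91b9_ntH (PS nm Sx mem_Sx)
open Pool.Agent.Lib.MP_1a91b9_ntQ (K4 Pg DDq lam iO In4 G4n gcl)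
open Pool.Agent.Lib.MP_1a91b9_ntQ.Den4 (ph)

noncomputable section

/-- The multipliers of `ℤ[i]`. -/
def mu4 (i : ZMod 4 × Fin 2) : 𝓞 K4 := iO ^ i.1.val * lam ^ i.2.val

/-- **T7a** (easy). Proof: `few`, `Pool.Agent.Lib.MP_1a91b9_ntQ.cheb4`, `Pool.Agent.Lib.MP_1a91b9_ntQ.zt4`. -/
theorem few4 : FewL Pg := by
  exact few Pool.Agent.Lib.MP_1a91b9_ntQ.cheb4 Pool.Agent.Lib.MP_1a91b9_ntQ.zt4

/-- **T7b** (easy). Proof: `rfl` (the definitions of `ph`, `mu4`, `DDq`). -/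
theorem ph_mu4 (k : ZMod 4) (j : Fin 2) (S : Finset Pg) :
    ph k j (DDq S) = mu4 (k, j) * ∏ q ∈ S, q.1 := by
  rfl

/-- **T7c** (easy). Proof: `q.2.1`; the norm of a prime (definition of `psPg`, `Nz`); `Nz_eq_zero`; then
`Den4.ph_squarefree`, `sqf_inj`, `exists_sqf` with `ph_mu4` (see `Den4.card_all`,
MP_1a91b9_ntQ/R/Density4.lean). -/
theorem rep4 : Rep (fun q : Pg => q.1) mu4 := by
  refine ⟨fun x => x.2.1, fun x => rfl, ?_, ?_, ?_, ?_⟩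
  · rintro ⟨k, j⟩ h
    have h1 : Squarefree (ph k j (DDq (∅ : Finset Pg))) :=
      Pool.Agent.Lib.MP_1a91b9_ntQ.Den4.ph_squarefree k j ∅
    have e : ph k j (DDq (∅ : Finset Pg)) = mu4 (k, j) := by
      rw [ph_mu4, prod_empty, mul_one]
    rw [e] at h1
    have h2 : Pool.Agent.Lib.MP_1a91b9_ntQ.Nz (mu4 (k, j)) = 0 := by
      rw [Pool.Agent.Lib.MP_1a91b9_ntQ.Nz, h, Int.natAbs_zero]
    exact h1.ne_zero (Pool.Agent.Lib.MP_1a91b9_ntQ.Nz_eq_zero.1 h2)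
  · rintro ⟨k, j⟩ S
    show Squarefree (mu4 (k, j) * ∏ q ∈ S, q.1)
    rw [← ph_mu4]
    exact Pool.Agent.Lib.MP_1a91b9_ntQ.Den4.ph_squarefree k j S
  · rintro ⟨k, j⟩ ⟨k', j'⟩ S T h
    have h1 : mu4 (k, j) * ∏ q ∈ S, q.1 = mu4 (k', j') * ∏ q ∈ T, q.1 := h
    rw [← ph_mu4, ← ph_mu4] at h1
    obtain ⟨rfl, rfl, rfl⟩ := Pool.Agent.Lib.MP_1a91b9_ntQ.sqf_inj h1
    exact ⟨rfl, rfl⟩
  · intro D hD
    obtain ⟨k, j, S, h⟩ := Pool.Agent.Lib.MP_1a91b9_ntQ.exists_sqf hD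
    exact ⟨(k, j), S, h⟩

private theorem T7_fin (X : ℝ) :
    {D : 𝓞 K4 | Squarefree D ∧ ((|Algebra.norm ℤ D| : ℤ) : ℝ) ≤ X}.Finite := by
  refine (Pool.Agent.Lib.MP_1a91b9_ntQ.Nz_fin ⌊X⌋₊).subset ?_
  rintro D ⟨-, h⟩
  have h1 : (Pool.Agent.Lib.MP_1a91b9_ntQ.Nz D : ℝ) ≤ X :=
    (Pool.Agent.Lib.MP_1a91b9_ntQ.Den4.abs_norm_le D X).1 h
  exact Nat.le_floor h1

/-- **T7d** (medium-). **The class of `u` has a positive density.** Proof: `exists_ph` gives `k`, `j`, `y` with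
`u = ph k j y`; with `g = gcl m y`, for `S ∈ Den4.SG m g (Den4.Nj j X)` one has `lam ^ (m + 5) ∣ DDq S - y` (the
proof of `density4` in MP_1a91b9_ntQ/R/Density4.lean has this step), so `M ∣ ph k j (DDq S) - u`; the elements
`ph k j (DDq S)` are squarefree, different and of norm at most `X` (`Den4.Nz_ph_le`, `Den4.abs_norm_le`);
`Den4.class_card_ge m g` and `Den4.le_Nj` give the number: `κ = c / 4`. For `Nat.card` of the type one needs its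
finiteness (`Pool.Agent.Lib.MP_1a91b9_ntW.J.finite_norm_le` has the same proof; or `fin4`). -/
theorem pos4 (m : ℕ) {M u : 𝓞 K4} (hM : M ∣ lam ^ (m + 5)) (hu : ¬ lam ^ 2 ∣ u) :
    Pos (𝓞 K4) M u := by
  classical
  obtain ⟨k, j, y, hy, rfl⟩ := Pool.Agent.Lib.MP_1a91b9_ntQ.Den4.exists_ph hu
  obtain ⟨c, hc, X₁, hX₁⟩ := Pool.Agent.Lib.MP_1a91b9_ntQ.Den4.class_card_ge m (gcl m y hy)
  refine ⟨c / 4, by positivity, ?_⟩
  filter_upwards [(Pool.Agent.Lib.MP_1a91b9_ntQ.Den4.tendsto_Nj j).eventually_ge_atTop X₁,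
    Filter.eventually_ge_atTop (4 : ℝ)] with X hX1 hX4
  have hX0 : (0 : ℝ) ≤ X := by linarith
  have h1 := hX₁ _ hX1
  have h2 : c * (X / 4) ≤ c * (Pool.Agent.Lib.MP_1a91b9_ntQ.Den4.Nj j X : ℝ) :=
    mul_le_mul_of_nonneg_left (Pool.Agent.Lib.MP_1a91b9_ntQ.Den4.le_Nj _ hX4) hc.le
  have hmem : ∀ S ∈ Pool.Agent.Lib.MP_1a91b9_ntQ.Den4.SG m (gcl m y hy)
      (Pool.Agent.Lib.MP_1a91b9_ntQ.Den4.Nj j X),
      Squarefree (ph k j (DDq S)) ∧ M ∣ ph k j (DDq S) - ph k j y ∧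
        ((|Algebra.norm ℤ (ph k j (DDq S))| : ℤ) : ℝ) ≤ X := by
    intro S hS
    rw [Pool.Agent.Lib.MP_1a91b9_ntQ.Den4.mem_SG,
      ← Pool.Agent.Lib.MP_1a91b9_ntQ.gcl_DDq, Pool.Agent.Lib.MP_1a91b9_ntQ.gcl_eq_iff] at hS
    refine ⟨Pool.Agent.Lib.MP_1a91b9_ntQ.Den4.ph_squarefree k j S, ?_, ?_⟩
    · refine (hM.trans hS.2).trans ⟨iO ^ k.val * lam ^ j.val, ?_⟩
      unfold ph
      ring
    · rw [Pool.Agent.Lib.MP_1a91b9_ntQ.Den4.abs_norm_le]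
      exact (Pool.Agent.Lib.MP_1a91b9_ntQ.Den4.Nz_ph_le k j S hX0).2 hS.1
  have hfin : Finite {D : 𝓞 K4 // Squarefree D ∧ M ∣ D - ph k j y ∧
      ((|Algebra.norm ℤ D| : ℤ) : ℝ) ≤ X} := by
    have h3 : {D : 𝓞 K4 | Squarefree D ∧ M ∣ D - ph k j y ∧
        ((|Algebra.norm ℤ D| : ℤ) : ℝ) ≤ X}.Finite :=
      (T7_fin X).subset fun D hD => ⟨hD.1, hD.2.2⟩
    exact h3.to_subtype
  have h3 : (Pool.Agent.Lib.MP_1a91b9_ntQ.Den4.SG m (gcl m y hy)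
      (Pool.Agent.Lib.MP_1a91b9_ntQ.Den4.Nj j X)).card ≤
      Nat.card {D : 𝓞 K4 // Squarefree D ∧ M ∣ D - ph k j y ∧
        ((|Algebra.norm ℤ D| : ℤ) : ℝ) ≤ X} := by
    rw [← Fintype.card_coe, ← Nat.card_eq_fintype_card]
    refine Nat.card_le_card_of_injective
      (fun S => ⟨ph k j (DDq S.1), hmem S.1 S.2⟩) ?_
    rintro ⟨S, hS⟩ ⟨T, hT⟩ h
    have h4 : ph k j (DDq S) = ph k j (DDq T) := congrArg Subtype.val h
    obtain ⟨-, -, rfl⟩ := Pool.Agent.Lib.MP_1a91b9_ntQ.sqf_inj h4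
    rfl
  have h4 : ((Pool.Agent.Lib.MP_1a91b9_ntQ.Den4.SG m (gcl m y hy)
      (Pool.Agent.Lib.MP_1a91b9_ntQ.Den4.Nj j X)).card : ℝ) ≤
      (Nat.card {D : 𝓞 K4 // Squarefree D ∧ M ∣ D - ph k j y ∧
        ((|Algebra.norm ℤ D| : ℤ) : ℝ) ≤ X} : ℝ) := Nat.cast_le.2 h3
  have h5 : c / 4 * X = c * (X / 4) := by ring
  rw [h5]
  exact h2.trans (h1.trans h4)

/-- **T7e** (easy+). The set of the squarefree elements of bounded norm is finite. Proof: every element is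
`mu4 i * ∏ S` with `nm S ≤ X` (`rep4`, `Den4.Nz_ph_le`): the image of a finite set. -/
theorem fin4 (X : ℝ) : {D : 𝓞 K4 | Squarefree D ∧ |Algebra.norm ℤ D| ≤ X}.Finite := by
  exact T7_fin X

end

end Pool.Agent.Lib.MP_1a91b9_ntDV
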