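import Pool.Agent.Lib.MP_1a91b9_ntM.E.DenX
import Pool.Agent.Lib.MP_1a91b9_ntDV.T4
import Pool.Agent.Lib.MP_1a91b9_ntDV.T7

/-!
# MP_1a91b9_nt (the divisor law), block T: the law for the divisors over `ℚ(i)`
-/

set_option autoImplicit false
set_option linter.unusedSectionVars false

namespace Pool.Agent.Lib.MP_1a91b9_ntDV

open NumberField Finset Pool.Agent.Lib.MP_1a91b9_ntQ Pool.Agent.Lib.MP_1a91b9_ntM
  Pool.Agent.Lib.MP_1a91b9_ntM.E Pool.Agent.Lib.MP_1a91b9_ntM.E.RX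
open Pool.Agent.Lib.MP_1a91b9_ntQ.Da (cinf2)

noncomputable section

/-- The joint law for a finite family of labels over `ℚ(i)` which are different modulo fourth powers, also up to
inversion. -/
def JL4 : Prop :=
  ∀ (A : Type) [Fintype A] [DecidableEq A] (x : A → DD8) (f : A → Bool) (P : Finset Pg),
    (∀ i, Dj (x i).S (x i).T (x i).B) → (∀ i, (x i).S ⊆ P ∧ (x i).T ⊆ P ∧ (x i).B ⊆ P) →
    (∀ i, f i = true → ¬ (x i).Sq) → (∀ i i', i ≠ i' → x i ≠ x i' ∧ x i ≠ (x i').inv) →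
    SubL P (∏ a, if f a = true then cinf2 / 2 else cinf2) fun Y =>
      ∀ i, GdX (x i) Y ∧ (f i = true → GdX (x i).inv Y)

/-- **T11** (medium). **The law for the divisors over `ℚ(i)`.** Proof. As `den_allX` (MP_1a91b9_ntM/E/DenX.lean), line by
line up to `key`: `x`, `s`, `P`, `Z k j Y i = (x i).mul k j Y`, `hZd`, `hZe`, `hph`. `Q5.exists_rep hu` gives `u'` with
`¬ lam ^ 2 ∣ u'` and `hMu`; `pos4 (2 * n) (hM.trans (Q5.two_pow_dvd n)) hu'` and `Q5.dvd_sub_iff hMu` give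
`Pos (𝓞 K4) M u` (unfold `Pos`). Then `Rep.law rep4 few4` and `SubL.anti` with `hv`; for the multiplier `(k, j)`:
`SubL.glue` with `B = P`; for `B' ⊆ P` take `hJ A (fun i => Z k j B' i) f P` with the same arguments as for `hJ` in
`den_allX`, and `SubL.mono`: for `Y` disjoint from `P`, `d = mu4 (k, j) * ∏ (Y ∪ B') = ph k j (DDq (Y ∪ B'))`
(`ph_mu4`, `union_comm`) and `hP d` with `Z k j (B' ∪ Y) i` (the two last blocks of `den_allX`: `e1`, `GdX_add`,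
`GdX_add_inv`, and `hPr`). -/
theorem div4 (hJ : JL4) {A : Type} [Fintype A] [DecidableEq A] (a : A → 𝓞 K4) (f : A → Bool)
    (h0 : ∀ i, a i ≠ 0) (hf : ∀ i, f i = true → ¬ ∃ y : K4, y ^ 2 = (a i : K4))
    (hpw : ∀ i i', i ≠ i' → (¬ ∃ y : K4, y ^ 4 * a i = a i') ∧
      ¬ ∃ y : K4, y ^ 4 = (a i : K4) * a i')
    {v : ℝ} (hv : v ≤ ∏ i, (if f i = true then cinf2 / 2 else cinf2))
    {n : ℕ} {M u : 𝓞 K4} (hM : M ∣ 2 ^ n) (hu : ¬ ((2 : 𝓞 K4) ∣ M ∧ (2 : 𝓞 K4) ∣ u))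
    (P : 𝓞 K4 → Prop)
    (hP : ∀ d : 𝓞 K4, Squarefree d → (∀ i, ∃ (z : DD8) (t : 𝓞 K4), t ≠ 0 ∧
      Dj z.S z.T z.B ∧ a i * d ^ 2 = z.el * t ^ 4 ∧ GdX z ∅ ∧ (f i = true → GdX z.inv ∅)) →
      P d) :
    DivG (𝓞 K4) M u P v := by
  classical
  have h1 : ∀ i, ∃ (x : DD8) (s : 𝓞 K4), Dj x.S x.T x.B ∧ s ≠ 0 ∧ a i = x.el * s ^ 4 :=
    fun i => exists_DD8 (h0 i)
  choose x s hx hs hxs using h1
  obtain ⟨Q, hQ⟩ : ∃ Q : Finset Pg, Q = univ.biUnion fun i => (x i).S ∪ (x i).T ∪ (x i).B :=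
    ⟨_, rfl⟩
  have hxP : ∀ i, (x i).S ∪ (x i).T ∪ (x i).B ⊆ Q := fun i => by
    rw [hQ]
    exact subset_biUnion_of_mem (fun i => (x i).S ∪ (x i).T ∪ (x i).B) (mem_univ i)
  have hSP : ∀ i, (x i).S ⊆ Q := fun i =>
    (subset_union_left.trans subset_union_left).trans (hxP i)
  have hTP : ∀ i, (x i).T ⊆ Q := fun i =>
    (subset_union_right.trans subset_union_left).trans (hxP i)
  have hBP : ∀ i, (x i).B ⊆ Q := fun i => subset_union_right.trans (hxP i)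
  obtain ⟨u', hu', hMu⟩ := Q5.exists_rep hu
  obtain ⟨Z, hZ⟩ : ∃ Z : ZMod 4 → Fin 2 → Finset Pg → A → DD8, Z = fun k j Y i =>
      (x i).mul k j Y := ⟨_, rfl⟩
  have hZd : ∀ k j Y i, Dj (Z k j Y i).S (Z k j Y i).T (Z k j Y i).B := fun k j Y i => by
    rw [hZ]
    exact dj_E (hx i) _
  have hZe : ∀ k j Y i, ∃ t : 𝓞 K4, t ≠ 0 ∧
      (x i).el * Pool.Agent.Lib.MP_1a91b9_ntQ.Den4.ph k j (DDq Y) ^ 2 = (Z k j Y i).el * t ^ 4 := fun k j Y i => by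
    rw [hZ]
    exact el_mul (hx i) k j Y
  have hph : ∀ (k : ZMod 4) (j : Fin 2) (Y : Finset Pg),
      Pool.Agent.Lib.MP_1a91b9_ntQ.Den4.ph k j (DDq Y) ≠ 0 := fun k j Y =>
    (Pool.Agent.Lib.MP_1a91b9_ntQ.Den4.ph_squarefree k j Y).ne_zero
  have hpos : Pos (𝓞 K4) M u := by
    have h2 := pos4 (2 * n) (hM.trans (Q5.two_pow_dvd n)) hu'
    unfold Pos at h2 ⊢
    simp only [Q5.dvd_sub_iff hMu] at h2
    exact h2
  refine Rep.law rep4 few4 hpos P v fun kj => ?_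
  obtain ⟨k, j⟩ := kj
  refine SubL.anti (SubL.glue (B := Q) fun B' hB' => ?_) hv
  refine SubL.mono (hJ A (fun i => Z k j B' i) f Q (fun i => hZd k j B' i) (fun i => ?_)
    (fun i hi h => ?_) (fun i i' hii => ?_)) fun Y hY h2 => ?_
  · rw [hZ]
    exact ⟨sE_sub (hSP i) (hTP i), sE_sub (hTP i) (hSP i), bE_sub (hBP i) hB'⟩
  · rw [hZ] at h
    exact hf i hi (Sq_of (hxs i) ((Sq_mul k j B').1 h))
  · obtain ⟨t, ht, e1⟩ := hZe k j B' i
    obtain ⟨t', ht', e1'⟩ := hZe k j B' i'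
    refine ⟨fun h => ?_, fun h => ?_⟩
    · have h2 : Z k j B' i = Z k j B' i' := h
      rw [h2] at e1
      exact (hpw i i' hii).1 (four_of_eq (hph k j B') (hs i) (hxs i) (hxs i') ht e1 e1')
    · have h2 : Z k j B' i = (Z k j B' i').inv := h
      rw [h2] at e1
      obtain ⟨v, _, e2⟩ := el_inv (Z k j B' i')
      exact (hpw i i' hii).2 (four_of_inv (hph k j B') (hxs i) (hxs i') e1 e1' e2)
  · show P (mu4 (k, j) * ∏ x ∈ Y ∪ B', x.1)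
    rw [← ph_mu4, union_comm]
    refine hP _ (Pool.Agent.Lib.MP_1a91b9_ntQ.Den4.ph_squarefree k j _) fun i => ?_
    have h3 := h2 i
    have e1 : Z k j (B' ∪ Y) i = ⟨(Z k j B' i).k, (Z k j B' i).j, (Z k j B' i).S,
        (Z k j B' i).T, (Z k j B' i).B ∪ Y⟩ := by
      rw [hZ, union_comm B' Y]
      simp only [DD8.mul, DD8.mk.injEq, true_and]
      exact ⟨sE_out (hSP i) (hTP i) hY, sE_out (hTP i) (hSP i) hY,
        bE_out (hSP i) (hTP i) (hBP i) hY⟩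
    have h4 : GdX (Z k j (B' ∪ Y) i) ∅ ∧ (f i = true → GdX (Z k j (B' ∪ Y) i).inv ∅) := by
      rw [e1]
      exact ⟨(GdX_add _ _).2 h3.1, fun hi => (GdX_add_inv _ _).2 (h3.2 hi)⟩
    obtain ⟨t, ht, e2⟩ := hZe k j (B' ∪ Y) i
    refine ⟨Z k j (B' ∪ Y) i, t * s i, mul_ne_zero ht (hs i), hZd k j (B' ∪ Y) i, ?_, h4.1, h4.2⟩
    rw [hxs i]
    linear_combination (s i) ^ 4 * e2

end

end Pool.Agent.Lib.MP_1a91b9_ntDV
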