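import Pool.Agent.Lib.MP_1a91b9_ntDV.T4
import Pool.Agent.Lib.MP_1a91b9_ntDV.T6

/-!
# MP_1a91b9_nt (the divisor law), block T: the law for the divisors in the generic rings
-/

set_option autoImplicit false
set_option linter.unusedSectionVars false

namespace Pool.Agent.Lib.MP_1a91b9_ntDV

open Finset
open Pool.Agent.Lib.MP_1a91b9_ntH (PS nm Sx mem_Sx)
open Pool.Agent.Lib.MP_1a91b9_ntR (Qi Pri Pg DD sys nG GR gc Bad mu symm_union symmDiff_cancel)
open Pool.Agent.Lib.MP_1a91b9_ntS.G (FamI CndI)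

noncomputable section

variable {R : Type} [CommRing R] [IsDomain R] [IsPrincipalIdealRing R] [Qi R] [Pri R] {Q : R}
  {A : Type} [Fintype A] [DecidableEq A] {π : A → R}

/-- The joint law for `N` different labels. -/
def DLR (Good : ZMod 2 × (A → ZMod 2) → Finset (Pg R) → Prop) (c : ℝ) (N : ℕ) : Prop :=
  ∀ (i : Fin N → ZMod 2 × (A → ZMod 2)) (T : Fin N → Finset (Pg R)) (B : Finset (Pg R)),
    (∀ n, T n ⊆ B) → Function.Injective (fun n => (i n, T n)) →
    SubL B (c ^ N) fun S => ∀ n, Good (i n) (S ∪ T n)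

/-- **T8** (medium-). **The law for the divisors.** Proof. As in `Bad.den_all` and `lowF_all`
(MP_1a91b9_ntR/DenB.lean): `hB.exists_sf` gives `i n`, `T n`, `s n` with `a n = mu π (i n) * DD (T n) * s n ^ 2`, and
`fun n => (i n, T n)` is injective by `hpw`. Let `B = univ.biUnion T`. Use `Rep.law (famI_rep (bad_famI hB)) fewR`
with `famI_pos (bad_famI hB) hQ hQ0 hm (hB.exists_cls hu)`. For the multiplier `j`: `SubL.glue` with `B`; for
`B' ⊆ B` take `hJ (fun n => j + i n) (fun n => symmDiff B' (T n)) B` (injective by `add_left_cancel`,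
`symmDiff_cancel`) and `SubL.mono`: for `S` disjoint from `B`, `d = mu π j * DD (S ∪ B')` is squarefree (`hB.sqf`), and
`hB.mu_mul j (i n) (S ∪ B') (T n)` with `symm_union` (and `union_comm`) gives
`a n * d = mu π (j + i n) * DD (S ∪ symmDiff B' (T n)) * (t * s n) ^ 2`, so `hP` applies. -/
theorem bad_divG (hB : Bad π) (hQ : (sys R).Mod Q) (hQ0 : Q ≠ 0)
    {Good : ZMod 2 × (A → ZMod 2) → Finset (Pg R) → Prop} {c : ℝ} {N : ℕ} (hJ : DLR Good c N)
    {a : Fin N → R} (hne : ∀ n, a n ≠ 0)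
    (hpw : ∀ n n', n ≠ n' → ¬ ∃ y : R, y ^ 2 = a n * a n') {m u : R} (hm : m ∣ Q)
    (hu : ∀ x, ¬ (π x ^ 2 ∣ m ∧ π x ^ 2 ∣ u)) (P : R → Prop)
    (hP : ∀ d : R, Squarefree d → (∀ n, ∃ (i : ZMod 2 × (A → ZMod 2)) (S : Finset (Pg R)) (t : R),
      t ≠ 0 ∧ a n * d = mu π i * DD S * t ^ 2 ∧ Good i S) → P d) :
    DivG R m u P (c ^ N) := by
  have h1 : ∀ n, ∃ (i : ZMod 2 × (A → ZMod 2)) (T : Finset (Pg R)) (s : R), s ≠ 0 ∧
      a n = mu π i * DD T * s ^ 2 := fun n => hB.exists_sf (a n) (hne n)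
  choose i T s hs hT using h1
  have hinj : Function.Injective fun n => (i n, T n) := by
    intro n n' h
    by_contra hnn
    apply hpw n n' hnn
    simp only [Prod.mk.injEq] at h
    refine ⟨mu π (i n) * DD (T n) * s n * s n', ?_⟩
    rw [hT n, hT n', ← h.1, ← h.2]
    ring
  obtain ⟨B, hBd⟩ : ∃ B : Finset (Pg R), B = univ.biUnion T := ⟨_, rfl⟩
  have hTB : ∀ n, T n ⊆ B := fun n => by
    rw [hBd]
    exact subset_biUnion_of_mem T (mem_univ n)
  refine Rep.law (famI_rep (bad_famI hB)) fewR (famI_pos (bad_famI hB) hQ hQ0 hm (hB.exists_cls hu)) P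
    (c ^ N) fun j => ?_
  refine SubL.glue (B := B) fun B' hB' => ?_
  have h2 := hJ (fun n => j + i n) (fun n => symmDiff B' (T n)) B
    (fun n => by
      intro q hq
      rw [mem_symmDiff] at hq
      rcases hq with hq | hq
      · exact hB' hq.1
      · exact hTB n hq.1)
    (fun n n' h => by
      simp only [Prod.mk.injEq] at h
      apply hinj
      show (i n, T n) = (i n', T n')
      rw [add_left_cancel h.1, symmDiff_cancel h.2])
  refine h2.mono fun S hS h3 => ?_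
  show P (mu π j * DD (S ∪ B'))
  refine hP _ (hB.sqf j _) fun n => ?_
  obtain ⟨t, h5, h6⟩ := hB.mu_mul j (i n) (S ∪ B') (T n)
  have e1 : symmDiff (S ∪ B') (T n) = S ∪ symmDiff B' (T n) := by
    rw [union_comm]
    exact symm_union (hTB n) hB' hS
  refine ⟨j + i n, symmDiff (S ∪ B') (T n), t * s n, mul_ne_zero h5 (hs n), ?_, ?_⟩
  · rw [hT n]
    linear_combination (s n) ^ 2 * h6
  · rw [e1]
    exact h3 n

end

end Pool.Agent.Lib.MP_1a91b9_ntDV
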