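import Pool.Agent.Lib.MP_1a91b9_ntV.R.DenJ7
import Pool.Agent.Lib.MP_1a91b9_ntW.R.DenJ8
import Pool.Agent.Lib.MP_1a91b9_ntDV.T8

/-!
# MP_1a91b9_nt (the divisor law), block T: the law for the divisors over `ℚ(√-7)` and `ℚ(√-2)`
-/

set_option autoImplicit false
set_option linter.unusedSectionVars false

namespace Pool.Agent.Lib.MP_1a91b9_ntDV

open NumberField Finset
open Pool.Agent.Lib.MP_1a91b9_ntQ.Da (cinf2)
open Pool.Agent.Lib.MP_1a91b9_ntV.DS (cinfV)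

noncomputable section

section Seven

open Pool.Agent.Lib.MP_1a91b9_nuT Pool.Agent.Lib.MP_1a91b9_ntV

variable [CD] [hv : V7]

/-- The joint law for `N` labels over `ℚ(√-7)`. -/
def JL7 (N : ℕ) : Prop :=
  ∀ (d0 d1 d2 : Fin N → ZMod 2) (T : Fin N → Finset Pg7) (B : Finset Pg7), (∀ n, T n ⊆ B) →
    Function.Injective (fun n => (d0 n, d1 n, d2 n, T n)) →
    SubL B (cinfV ^ N) fun S => ∀ n, Good7 D7 (S ∪ T n) (d0 n) (d1 n) (d2 n)

/-- **T9a** (easy+). **The law for the divisors over `ℚ(√-7)`.** Proof as `den7_all` and `dsjr7`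
(MP_1a91b9_ntV/R/DenJ7.lean): `bad_divG bad7 (mod7 n) (two_pow_ne7 n)` with `Good = Go7`; `DLR Go7 cinfV N` from `hJ`
as in `dsjr7` (the types `Pg7` and `Pg (𝓞 K)` and the instances are the same by definition). -/
theorem div7 {N : ℕ} (hJ : JL7 N) {a : Fin N → 𝓞 K} (hne : ∀ i, a i ≠ 0)
    (hpw : ∀ i i', i ≠ i' → ¬ ∃ y : K, y ^ 2 = (a i : K) * a i')
    {n : ℕ} {M u : 𝓞 K} (hM : M ∣ 2 ^ n)
    (hu : ∀ p : 𝓞 K, Prime p → ¬ (p ^ 2 ∣ M ∧ p ^ 2 ∣ u)) (P : 𝓞 K → Prop)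
    (hP : ∀ d : 𝓞 K, Squarefree d → (∀ i, ∃ (d0 d1 d2 : ZMod 2) (S : Finset Pg7) (t : 𝓞 K),
      t ≠ 0 ∧ a i * d = (-1) ^ d0.val * ta ^ d1.val * tb ^ d2.val * DD S * t ^ 2 ∧
      Good7 D7 S d0 d1 d2) → P d) :
    DivG (𝓞 K) M u P (cinfV ^ N) := by
  have hm' : M ∣ (2 : 𝓞 K) ^ (n + 3) := hM.trans (pow_dvd_pow _ (by omega))
  have hJ' : DLR Go7 cinfV N := by
    intro i T B hT hinj
    refine hJ (fun a => (i a).1) (fun a => (i a).2 0) (fun a => (i a).2 1) T B hT ?_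
    intro x y hab
    apply hinj
    simp only [Prod.mk.injEq] at hab
    refine Prod.ext (Prod.ext hab.1 ?_) hab.2.2.2
    funext x
    fin_cases x
    · exact hab.2.1
    · exact hab.2.2.1
  refine bad_divG bad7 (mod7 n) (two_pow_ne7 n) hJ' hne ?_ hm' (fun x => hu _ (bad7.prime x)) P ?_
  · intro i i' hii
    rintro ⟨y, hy⟩
    exact hpw i i' hii ⟨(y : K), by exact_mod_cast congrArg (fun z : 𝓞 K => (z : K)) hy⟩
  · intro d hd h
    refine hP d hd fun i => ?_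
    obtain ⟨i, S, t, h1, h2, h3⟩ := h i
    refine ⟨i.1, i.2 0, i.2 1, S, t, h1, ?_, h3⟩
    rw [h2, mu7']
    rfl

end Seven

section Eight

open Pool.Agent.Lib.MP_1a91b9_ntW

/-- The joint law for `N` labels over `ℚ(√-2)`. -/
def JL8 (N : ℕ) : Prop :=
  ∀ (k j : Fin N → ZMod 2) (T : Fin N → Finset Pg) (B : Finset Pg), (∀ n, T n ⊆ B) →
    Function.Injective (fun n => (k n, j n, T n)) →
    SubL B (cinf2 ^ N) fun S => ∀ n, GW (k n) (j n) (S ∪ T n) ≠ 0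

/-- **T9b** (easy+). **The law for the divisors over `ℚ(√-2)`.** Proof as `den8_all` and `dsjr8`
(MP_1a91b9_ntW/R/DenJ8.lean): `bad_divG bad8 (mod8 n) (two_pow_ne n)` with `Good = Go8`; `DLR Go8 cinf2 N` from `hJ`
(the instances of `PS` are equal by `ps_eq`, used in `nm_eq`, MP_1a91b9_ntW/R/Den8.lean). -/
theorem div8 {N : ℕ} (hJ : JL8 N) {a : Fin N → 𝓞 K8} (hne : ∀ i, a i ≠ 0)
    (hpw : ∀ i i', i ≠ i' → ¬ ∃ y : K8, y ^ 2 = (a i : K8) * a i')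
    {n : ℕ} {M u : 𝓞 K8} (hM : M ∣ 2 ^ n) (hu : ¬ ((2 : 𝓞 K8) ∣ M ∧ (2 : 𝓞 K8) ∣ u))
    (P : 𝓞 K8 → Prop)
    (hP : ∀ d : 𝓞 K8, Squarefree d → (∀ i, ∃ (k j : ZMod 2) (S : Finset Pg) (t : 𝓞 K8),
      t ≠ 0 ∧ a i * d = dW k j S * t ^ 2 ∧ GW k j S ≠ 0) → P d) :
    DivG (𝓞 K8) M u P (cinf2 ^ N) := by
  have hm' : M ∣ (2 : 𝓞 K8) ^ (n + 3) := hM.trans (pow_dvd_pow _ (by omega))
  have hJ' : DLR Go8 cinf2 N := by
    intro i T B hT hinj
    have h1 := hJ (fun a => (i a).1) (fun a => (i a).2 () + 1) T B hT (by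
      intro x y hab
      apply hinj
      simp only [Prod.mk.injEq] at hab
      refine Prod.ext (Prod.ext hab.1 ?_) hab.2.2
      funext x
      exact add_right_cancel hab.2.1)
    rw [← ps_eq] at h1
    exact h1
  refine bad_divG bad8 (mod8 n) (two_pow_ne n) hJ' hne ?_ hm'
    (fun x => cls_two hM hu _ (bad8.prime x)) P ?_
  · intro i i' hii
    rintro ⟨y, hy⟩
    exact hpw i i' hii ⟨(y : K8), by exact_mod_cast congrArg (fun z : 𝓞 K8 => (z : K8)) hy⟩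
  · intro d hd h
    refine hP d hd fun i => ?_
    obtain ⟨i, S, t, h1, h2, h3⟩ := h i
    refine ⟨i.1, i.2 () + 1, S, t, h1, ?_, h3⟩
    rw [h2, ← mu8, ← ix8]
    rfl

end Eight

end

end Pool.Agent.Lib.MP_1a91b9_ntDV
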