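import Pool.Agent.Lib.MP_1a91b9_ntZ.Forms
import Pool.Agent.Lib.MP_1a91b9_ntDV.T9
import Pool.Agent.Lib.MP_1a91b9_ntDV.T10
import Pool.Agent.Lib.MP_1a91b9_ntDV.T11

/-!
# MP_1a91b9_nt (the divisor law, binomial form): the forms of the joint laws

`Atl t P`: at least `t` of the `P b` hold. `bn k t g`: the probability of at least `t` successes in `k`
independent trials with the probability `g` (MP_1a91b9_ntZ/Bin.lean).
-/

set_option autoImplicit false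
set_option linter.unusedSectionVars false

namespace Pool.Agent.Lib.MP_1a91b9_ntDV

open NumberField Finset
open Pool.Agent.Lib.MP_1a91b9_ntZ (Atl bn)

noncomputable section

section Ring

open Pool.Agent.Lib.MP_1a91b9_ntR (Qi Pri Pg)

variable {R : Type} [CommRing R] [IsDomain R] [IsPrincipalIdealRing R] [Qi R] [Pri R]
  {A : Type} [Fintype A] [DecidableEq A]

/-- The joint law for blocks of labels. -/
def DLB (Good : ZMod 2 × (A → ZMod 2) → Finset (Pg R) → Prop) (c : ℝ) : Prop :=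
  ∀ (k N : ℕ), 0 < N → ∀ (i : Fin k → Fin N → ZMod 2 × (A → ZMod 2))
    (T : Fin k → Fin N → Finset (Pg R)) (B : Finset (Pg R)), (∀ b n, T b n ⊆ B) →
    (∀ b, Function.Injective fun n => (i b n, T b n)) →
    (∀ b b', b ≠ b' → ∀ n n', ((i b n).2, T b n) ≠ ((i b' n').2, T b' n')) →
    ∀ t : ℕ, SubL B (bn k t (c ^ N)) fun S => Atl t fun b => ∀ n, Good (i b n) (S ∪ T b n)

end Ring

section Seven

open Pool.Agent.Lib.MP_1a91b9_nuT Pool.Agent.Lib.MP_1a91b9_ntV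
open Pool.Agent.Lib.MP_1a91b9_ntV.DS (cinfV)

variable [CD] [hv : V7]

/-- The joint law for blocks of labels over `ℚ(√-7)`. -/
def JB7 : Prop :=
  ∀ (k N : ℕ), 0 < N → ∀ (d0 d1 d2 : Fin k → Fin N → ZMod 2) (T : Fin k → Fin N → Finset Pg7)
    (B : Finset Pg7), (∀ b n, T b n ⊆ B) →
    (∀ b, Function.Injective fun n => (d0 b n, d1 b n, d2 b n, T b n)) →
    (∀ b b', b ≠ b' → ∀ n n', ¬ (d1 b n = d1 b' n' ∧ d2 b n = d2 b' n' ∧ T b n = T b' n')) →
    ∀ t : ℕ, SubL B (bn k t (cinfV ^ N)) fun S => Atl t fun b => ∀ n,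
      Good7 D7 (S ∪ T b n) (d0 b n) (d1 b n) (d2 b n)

end Seven

section Eight

open Pool.Agent.Lib.MP_1a91b9_ntW
open Pool.Agent.Lib.MP_1a91b9_ntQ.Da (cinf2)

/-- The joint law for blocks of labels over `ℚ(√-2)`. -/
def JB8 : Prop :=
  ∀ (k N : ℕ), 0 < N → ∀ (i j : Fin k → Fin N → ZMod 2) (T : Fin k → Fin N → Finset Pg)
    (B : Finset Pg), (∀ b n, T b n ⊆ B) →
    (∀ b, Function.Injective fun n => (i b n, j b n, T b n)) →
    (∀ b b', b ≠ b' → ∀ n n', (j b n, T b n) ≠ (j b' n', T b' n')) →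
    ∀ t : ℕ, SubL B (bn k t (cinf2 ^ N)) fun S => Atl t fun b => ∀ n,
      GW (i b n) (j b n) (S ∪ T b n) ≠ 0

end Eight

section Three

open Pool.Agent.Lib.MP_1a91b9_ntT Pool.Agent.Lib.MP_1a91b9_ntH
  Pool.Agent.Lib.MP_1a91b9_ntH2 Pool.Agent.Lib.MP_1a91b9_ntE
open Pool.Agent.Lib.MP_1a91b9_ntP (GdE)

/-- The joint law for blocks of labels over `ℚ(√-3)`, different up to the sign. -/
def JB3 : Prop :=
  ∀ (k : ℕ) (A : Fin k → Type) [∀ i, Fintype (A i)] [∀ i, Nonempty (A i)] (f : ∀ i, A i → Bool)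
    (c : ∀ i, A i → F4) (T : ∀ i, A i → Finset Pq) (B : Finset Pq), (∀ i a, T i a ⊆ B) →
    Function.Injective (fun p : (Σ i, A i) => (f p.1 p.2, F4.tr (c p.1 p.2), T p.1 p.2)) →
    ∀ g : ℝ, 0 ≤ g → (∀ i, g ≤ Da.cinf ^ Fintype.card (A i)) → ∀ t : ℕ,
    SubL B (bn k t g) fun S => Atl t fun i => ∀ a, GdE (f i a) (c i a + qd.A S) (S ∪ T i a)

/-- The joint law for blocks of pairs of labels over `ℚ(√-3)`. -/
def JP3 : Prop :=
  ∀ (k : ℕ) (A : Fin k → Type) [∀ i, Fintype (A i)] [∀ i, Nonempty (A i)] (f : ∀ i, A i → Bool)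
    (c : ∀ i, A i → F4) (T : ∀ i, A i → Finset Pq) (B : Finset Pq), (∀ i a, T i a ⊆ B) →
    Function.Injective (fun p : (Σ i, A i) => (f p.1 p.2, F4.tr (c p.1 p.2), T p.1 p.2)) →
    ∀ g : ℝ, 0 ≤ g → (∀ i, g ≤ ∏ a, (if f i a = true then Da.cinf / 2 else Da.cinf)) → ∀ t : ℕ,
    SubL B (bn k t g) fun S => Atl t fun i => ∀ a, GdE (f i a) (c i a + qd.A S) (S ∪ T i a) ∧
      GdE (f i a) (c i a + 1 + qd.A S) (S ∪ T i a)

end Three

section Four

open Pool.Agent.Lib.MP_1a91b9_ntQ Pool.Agent.Lib.MP_1a91b9_ntM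
  Pool.Agent.Lib.MP_1a91b9_ntM.E Pool.Agent.Lib.MP_1a91b9_ntM.E.RX
open Pool.Agent.Lib.MP_1a91b9_ntQ.Da (cinf2)

/-- The joint law for blocks of labels over `ℚ(i)`: `bl a` is the block of the label `a`. -/
def JB4 : Prop :=
  ∀ (A : Type) [Fintype A] [DecidableEq A] (I : Type) [Fintype I] [DecidableEq I] (bl : A → I)
    (x : A → DD8) (f : A → Bool) (P : Finset Pg),
    (∀ i, Dj (x i).S (x i).T (x i).B) → (∀ i, (x i).S ⊆ P ∧ (x i).T ⊆ P ∧ (x i).B ⊆ P) →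
    (∀ i, f i = true → ¬ (x i).Sq) → (∀ i i', i ≠ i' → x i ≠ x i' ∧ x i ≠ (x i').inv) →
    ∀ (t : ℕ) (v : ℝ), 0 ≤ v → (∀ b, v ≤ ∏ a ∈ univ.filter (fun a => bl a = b),
      (if f a = true then cinf2 / 2 else cinf2)) →
    SubL P (bn (Fintype.card I) t v) fun Y => Atl t fun b => ∀ i, bl i = b →
      GdX (x i) Y ∧ (f i = true → GdX (x i).inv Y)

end Four

end

end Pool.Agent.Lib.MP_1a91b9_ntDV
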