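import Pool.Agent.Lib.MP_1a91b9_ntDV.K3_15
import Pool.Agent.Lib.MP_1a91b9_ntDV.U0

/-!
# MP_1a91b9_nt (the divisor law): the joint laws over `ℚ(√-3)` in the form of the transfer
-/

set_option autoImplicit false

namespace Pool.Agent.Lib.MP_1a91b9_ntDV

/-- **The joint law for blocks of labels over `ℚ(√-3)`.** -/
theorem jb3 : JB3 := by
  intro k A _ _ f c T B hT hi g hg hgv t
  exact jb3' f c T B hT hi hg hgv t

/-- **The joint law for blocks of pairs of labels over `ℚ(√-3)`.** -/
theorem jp3B : JP3 := by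
  intro k A _ _ f c T B hT hi g hg hgv t
  exact jpb3' f c T B hT hi hg hgv t

end Pool.Agent.Lib.MP_1a91b9_ntDV
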