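import Pool.Agent.Lib.MP_1a91b9_ntDV.K3_0

set_option autoImplicit false
set_option linter.unusedSectionVars false

namespace Pool.Agent.Lib.MP_1a91b9_ntDV

open Finset Pool.Agent.Lib.MP_1a91b9_ntH Pool.Agent.Lib.MP_1a91b9_ntQ
open Pool.Agent.Lib.MP_1a91b9_ntQ.Da Pool.Agent.Lib.MP_1a91b9_ntV
open Pool.Agent.Lib.MP_1a91b9_ntP (DatG LSysG LabJ Bs kJ offG)

noncomputable section

variable {A : Type} [Fintype A] [DecidableEq A]

private theorem K3_3_key (x y z : F4) : F4.tr (x * (y + z)) =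
    F4.tr x * (y.a + z.a) + F4.tr (F4.w * x) * (y.b + z.b) := by
  revert x y z
  decide

private theorem K3_3_inv (x : F4) : (⟨F4.tr x + F4.tr (F4.w * x), F4.tr x⟩ : F4) = x := by
  revert x
  decide

private theorem K3_3_inv1 (u v : ZMod 2) : F4.tr (⟨u + v, u⟩ : F4) = u := by
  revert u v
  decide

private theorem K3_3_inv2 (u v : ZMod 2) : F4.tr (F4.w * (⟨u + v, u⟩ : F4)) = v := by
  revert u v
  decide

private theorem K3_3_tr_sum {α : Type} (s : Finset α) (f : α → F4) :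
    F4.tr (∑ i ∈ s, f i) = ∑ i ∈ s, F4.tr (f i) :=
  map_sum (⟨⟨F4.tr, by decide⟩, by decide⟩ : F4 →+ ZMod 2) f s

/-- the first coordinates -/
private def K3_3_c1 {k : A → ℕ} (l : LabJ k) (q : (Σ a, Fin (k a)) × Bool) : ZMod 2 :=
  if q.2 = true then ((l q.1.1).1 q.1.2).b else ((l q.1.1).1 q.1.2).a

/-- the second coordinates -/
private def K3_3_c2 {k : A → ℕ} (l : LabJ k) (q : (Σ a, Fin (k a)) × Bool) : ZMod 2 :=
  if q.2 = true then F4.tr (F4.w * (l q.1.1).2 q.1.2) else F4.tr ((l q.1.1).2 q.1.2)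

/-- **K3_3** (medium-). The labels over `F4` are the labels over `ZMod 2` with twice as many coordinates.
Proof. `Phi l m = F4.tr (l.2 ⬝ᵥ (l.1 + m.1))` and `PhiQ l m = l.2 ⬝ᵥ (l.1 + m.1)`. For `x, y : F4`:
`F4.tr (x * y) = F4.tr x * y.a + F4.tr (F4.w * x) * y.b` (`decide`). Let `I = (Σ a, Fin (k a)) × Bool` and
`g : I ≃ Fin (K4 k)` (`Fintype.equivFinOfCardEq`; `Fintype.card_sigma`, `Fintype.card_prod`, `Fintype.card_bool`).
Let `e l` have the first coordinates `i ↦ if (g.symm i).2 then ((l a).1 j).b else ((l a).1 j).a` and the second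
coordinates `i ↦ if (g.symm i).2 then F4.tr (F4.w * (l a).2 j) else F4.tr ((l a).2 j)`, where
`(g.symm i).1 = ⟨a, j⟩`. It is bijective: `y ↦ (y.a, y.b)` and `x ↦ (F4.tr x, F4.tr (F4.w * x)) = (x.b, x.a + x.b)`
are bijections `F4 → ZMod 2 × ZMod 2` (injective by the coordinates, and the cardinals are equal:
`Fintype.bijective_iff_injective_and_card`; `Fintype.card (LabJ k) = ∏ a, 4 ^ k a * 4 ^ k a`, or give the inverse).
Then `∑ a, Phi (l a) (m a) = ∑ a, ∑ j, F4.tr ((l a).2 j * ((l a).1 j + (m a).1 j))` is the sum over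
`(Σ a, Fin (k a)) × Bool` (`Fintype.sum_sigma'`, `Fintype.sum_prod_type`, `Fintype.sum_bool`), that is over
`Fin (K4 k)` (`Equiv.sum_comp`). -/
theorem exists_e4 (k : A → ℕ) : ∃ e : LabJ k ≃ Lab2 (K4 k),
    ∀ l m : LabJ k, ∑ a, MP_1a91b9_ntH.Da.Phi (l a) (m a) = PhiQ (e l) (e m) := by
  have hcard : Fintype.card ((Σ a, Fin (k a)) × Bool) = K4 k := by
    rw [Fintype.card_prod, Fintype.card_sigma, Fintype.card_bool, K4, mul_comm]
    simp only [Fintype.card_fin]
  let g : (Σ a, Fin (k a)) × Bool ≃ Fin (K4 k) := Fintype.equivFinOfCardEq hcard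
  let e : LabJ k ≃ Lab2 (K4 k) :=
    { toFun := fun l => (fun i => K3_3_c1 l (g.symm i), fun i => K3_3_c2 l (g.symm i))
      invFun := fun m a => (fun j => ⟨m.1 (g (⟨a, j⟩, false)), m.1 (g (⟨a, j⟩, true))⟩,
        fun j => ⟨m.2 (g (⟨a, j⟩, false)) + m.2 (g (⟨a, j⟩, true)), m.2 (g (⟨a, j⟩, false))⟩)
      left_inv := by
        intro l
        funext a
        refine Prod.ext (funext fun j => ?_) (funext fun j => ?_)
        · show (⟨K3_3_c1 l (g.symm (g (⟨a, j⟩, false))), K3_3_c1 l (g.symm (g (⟨a, j⟩, true)))⟩ : F4) =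
            (l a).1 j
          rw [Equiv.symm_apply_apply, Equiv.symm_apply_apply]
          rfl
        · show (⟨K3_3_c2 l (g.symm (g (⟨a, j⟩, false))) + K3_3_c2 l (g.symm (g (⟨a, j⟩, true))),
            K3_3_c2 l (g.symm (g (⟨a, j⟩, false)))⟩ : F4) = (l a).2 j
          rw [Equiv.symm_apply_apply, Equiv.symm_apply_apply]
          exact K3_3_inv _
      right_inv := by
        intro m
        refine Prod.ext (funext fun i => ?_) (funext fun i => ?_)
        · obtain ⟨⟨⟨a, j⟩, b⟩, rfl⟩ := g.surjective i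
          dsimp only
          rw [Equiv.symm_apply_apply]
          cases b <;> rfl
        · obtain ⟨⟨⟨a, j⟩, b⟩, rfl⟩ := g.surjective i
          dsimp only
          rw [Equiv.symm_apply_apply]
          cases b
          · exact K3_3_inv1 _ _
          · exact K3_3_inv2 _ _ }
  refine ⟨e, fun l m => ?_⟩
  have h1 : PhiQ (e l) (e m) = ∑ i, K3_3_c2 l (g.symm i) *
      (K3_3_c1 l (g.symm i) + K3_3_c1 m (g.symm i)) := rfl
  rw [h1, Equiv.sum_comp g.symm fun q => K3_3_c2 l q * (K3_3_c1 l q + K3_3_c1 m q),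
    Fintype.sum_prod_type, Fintype.sum_sigma]
  refine Finset.sum_congr rfl fun a _ => ?_
  have h2 : MP_1a91b9_ntH.Da.Phi (l a) (m a) =
      F4.tr (∑ j, (l a).2 j * ((l a).1 j + (m a).1 j)) := rfl
  rw [h2, K3_3_tr_sum]
  refine Finset.sum_congr rfl fun j _ => ?_
  rw [K3_3_key, Fintype.sum_bool, add_comm]
  rfl

end

end Pool.Agent.Lib.MP_1a91b9_ntDV
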