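import Pool.Agent.Lib.MP_1a91b9_ntDV.K3_1

set_option autoImplicit false
set_option linter.unusedSectionVars false

namespace Pool.Agent.Lib.MP_1a91b9_ntDV

open Finset Pool.Agent.Lib.MP_1a91b9_ntH Pool.Agent.Lib.MP_1a91b9_ntQ
open Pool.Agent.Lib.MP_1a91b9_ntQ.Da Pool.Agent.Lib.MP_1a91b9_ntV
open Pool.Agent.Lib.MP_1a91b9_ntP (DatG LSysG LabJ Bs kJ offG)

noncomputable section

variable {L : Type} [Fintype L] [DecidableEq L]

private theorem K3_4_sum_e2 (h : L → F4) :
    ∑ A : L → F4, e2 (∑ l, F4.tr (h l * A l)) = if h = 0 then (Fintype.card (L → F4) : ℂ) else 0 := by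
  have h1 := sum_sg (L := L) h
  have h2 : ∑ A : L → F4, e2 (∑ l, F4.tr (h l * A l)) =
      ((∑ A : L → F4, sg (∑ l, F4.tr (h l * A l)) : ℝ) : ℂ) := by
    rw [Complex.ofReal_sum]
    rfl
  rw [h2, h1]
  split_ifs
  · exact Complex.ofReal_natCast _
  · exact Complex.ofReal_zero

private theorem K3_4_add_zero (x y : F4) : x + y = 0 ↔ x = y := by
  revert x y; decide

/-- **K3_4a** (easy+). The expansion of a sign in characters: any function `q` of a vector over `F4`.
Proof. Exchange the sums: the right side is `∑ B', e2 (q B') * ∑ h, e2 (∑ l, F4.tr (h l * (B' l + B l)))`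
(`e2_add`, `mul_add`, `F4.tr_add`), and the inner sum is `card (L → F4)` if `B' + B = 0`, that is `B' = B`, and
`0` otherwise: `MP_1a91b9_ntH.sum_sg` (MP_1a91b9_ntH/D/Fourier.lean, with `mul_comm`; `e2` is the cast of `sg`). -/
theorem four4 (q : (L → F4) → ZMod 2) (B : L → F4) :
    e2 (q B) * (Fintype.card (L → F4) : ℂ) = ∑ p : (L → F4) × (L → F4),
      e2 (q p.2 + ∑ l, F4.tr (p.1 l * p.2 l)) * e2 (∑ l, F4.tr (p.1 l * B l)) := by
  have h1 : ∀ h B' : L → F4, e2 (q B' + ∑ l, F4.tr (h l * B' l)) * e2 (∑ l, F4.tr (h l * B l)) =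
      e2 (q B') * e2 (∑ l, F4.tr ((B' l + B l) * h l)) := by
    intro h B'
    rw [e2_add, mul_assoc, ← e2_add, ← sum_add_distrib]
    have h2 : ∀ l, F4.tr (h l * B' l) + F4.tr (h l * B l) = F4.tr ((B' l + B l) * h l) := by
      intro l
      rw [← F4.tr_add, ← mul_add, mul_comm]
    rw [sum_congr rfl fun l _ => h2 l]
  rw [Fintype.sum_prod_type, sum_comm]
  have h3 : ∀ B' : L → F4, (∑ h : L → F4,
      e2 (q (h, B').2 + ∑ l, F4.tr ((h, B').1 l * (h, B').2 l)) * e2 (∑ l, F4.tr ((h, B').1 l * B l))) =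
      if B' = B then e2 (q B) * (Fintype.card (L → F4) : ℂ) else 0 := by
    intro B'
    rw [sum_congr rfl fun h _ => h1 h B', ← mul_sum, K3_4_sum_e2 (fun l => B' l + B l)]
    have h4 : ((fun l => B' l + B l) = 0) ↔ B' = B := by
      constructor
      · intro h
        funext l
        exact (K3_4_add_zero _ _).1 (congrFun h l)
      · rintro rfl
        funext l
        exact (K3_4_add_zero _ _).2 rfl
    by_cases hB : B' = B
    · rw [if_pos (h4.2 hB), if_pos hB, hB]
    · rw [if_neg (fun h => hB (h4.1 h)), if_neg hB, mul_zero]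
  rw [sum_congr rfl fun B' _ => h3 B', sum_ite_eq', if_pos (mem_univ _)]

variable {ι : Type} [DecidableEq ι] {κ : Type} [Fintype κ]

/-- **K3_4b** (easy). `∑ l, tr (h l * B l)` for the class sums. Proof: as `sum_nl` (MP_1a91b9_ntV/D/OneS.lean). -/
theorem sum_cs4 (D : DatG ι κ) (S : Finset ι) (f : S → L) (h : L → F4) :
    ∑ l, F4.tr (h l * cs4 D S f l) = ∑ j : S, F4.tr (h (f j) * D.a j) := by
  have h0 : ∀ (P : Prop) [Decidable P] (x y : F4), F4.tr (y * (if P then x else 0)) =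
      if P then F4.tr (y * x) else 0 := by
    intro P _ x y
    split_ifs
    · rfl
    · rw [mul_zero]
      rfl
  unfold cs4
  have h1 : ∀ l, F4.tr (h l * ∑ j : S, (if f j = l then D.a j else 0)) =
      ∑ j : S, if f j = l then F4.tr (h l * D.a j) else 0 := by
    intro l
    rw [mul_sum, F4.tr_sum]
    exact sum_congr rfl fun j _ => h0 _ _ _
  rw [sum_congr rfl fun l _ => h1 l, sum_comm]
  refine sum_congr rfl fun j _ => ?_
  rw [sum_ite_eq, if_pos (mem_univ _)]

private def K3_4_aHom : F4 →+ ZMod 2 := ⟨⟨F4.a, rfl⟩, fun _ _ => rfl⟩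
private def K3_4_bHom : F4 →+ ZMod 2 := ⟨⟨F4.b, rfl⟩, fun _ _ => rfl⟩

private theorem K3_4_cs_a (D : DatG ι κ) (S : Finset ι) (f : S → L) (l : L) :
    (cs4 D S f l).a = nl (fun i => (D.a i).a) S f l := by
  unfold cs4 nl
  have h := map_sum K3_4_aHom (fun j : S => if f j = l then D.a j else 0) univ
  refine h.trans (sum_congr rfl fun j _ => ?_)
  show (if f j = l then D.a j else 0 : F4).a = _
  split_ifs <;> rfl

private theorem K3_4_cs_b (D : DatG ι κ) (S : Finset ι) (f : S → L) (l : L) :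
    (cs4 D S f l).b = nl (fun i => (D.a i).b) S f l := by
  unfold cs4 nl
  have h := map_sum K3_4_bHom (fun j : S => if f j = l then D.a j else 0) univ
  refine h.trans (sum_congr rfl fun j _ => ?_)
  show (if f j = l then D.a j else 0 : F4).b = _
  split_ifs <;> rfl

private theorem K3_4_qd (Phi : L → L → ZMod 2) (D : DatG ι κ) (S : Finset ι) (f : S → L) :
    qd4 Phi (cs4 D S f) = ∑ i : S, ∑ j : S, Phi (f i) (f j) * ((D.a i).a * (D.a j).b) := by
  unfold qd4
  simp only [K3_4_cs_a, K3_4_cs_b]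
  have h1 : ∀ l m : L, Phi l m * (nl (fun i => (D.a i).a) S f l * nl (fun i => (D.a i).b) S f m) =
      Phi l m * nl (fun i => (D.a i).b) S f m * nl (fun i => (D.a i).a) S f l := by
    intro l m
    ring
  simp only [h1]
  have h2 : ∀ l : L, ∑ m, Phi l m * nl (fun i => (D.a i).b) S f m * nl (fun i => (D.a i).a) S f l =
      (∑ j : S, Phi l (f j) * (D.a j).b) * nl (fun i => (D.a i).a) S f l := by
    intro l
    rw [← sum_mul, sum_nl (fun i => (D.a i).b) S f (fun m => Phi l m)]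
  simp only [h2]
  rw [sum_nl (fun i => (D.a i).a) S f (fun l => ∑ j : S, Phi l (f j) * (D.a j).b)]
  refine sum_congr rfl fun i _ => ?_
  rw [sum_mul]
  refine sum_congr rfl fun j _ => ?_
  ring

/-- **K3_4c** (medium-). The exponent of a labelling for `D4 D`.
Proof. By definition `D.eS Λ S f = ∑ j, F4.tr (gam (f j) * a j) + ∑ i, ∑ j, Phi (f i) (f j) * s i j +
∑ j, D.lg (del (f j)) j`; `dg_v4` gives the linear terms. For the symbols:
`(D4 D).s i j = D.s i j + (a i).a * (a j).b`, and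
`∑ i, ∑ j, Phi (f i) (f j) * ((a i).a * (a j).b) = qd4 Phi (cs4 D S f)`: `(cs4 D S f l).a = ∑ j, if f j = l then
(a j).a else 0` (additivity of the coordinates), expand and exchange the sums as in `FRc_nl`
(MP_1a91b9_ntV/D/OneS.lean); two equal terms cancel in `ZMod 2` (`z2_add_self`). -/
theorem eS_D4 (D : DatG ι κ) (Λ : LSysG L κ) (S : Finset ι) (f : S → L) :
    D.eS Λ S f = ∑ j : S, (D4 D).dg (v4 (Λ.gam (f j)) (Λ.del (f j))) j +
      ∑ i : S, ∑ j : S, Λ.Phi (f i) (f j) * (D4 D).s i j + qd4 Λ.Phi (cs4 D S f) := by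
  have h1 : ∀ j : S, (D4 D).dg (v4 (Λ.gam (f j)) (Λ.del (f j))) j =
      F4.tr (Λ.gam (f j) * D.a j) + D.lg (Λ.del (f j)) j := fun j => dg_v4 D _ _ _
  have h2 : ∀ i j : S, Λ.Phi (f i) (f j) * (D4 D).s i j =
      Λ.Phi (f i) (f j) * D.s i j + Λ.Phi (f i) (f j) * ((D.a i).a * (D.a j).b) := by
    intro i j
    show Λ.Phi (f i) (f j) * (D.s i j + (D.a i).a * (D.a j).b) = _
    rw [mul_add]
  have h3 : ∑ i : S, ∑ j : S, Λ.Phi (f i) (f j) * (D4 D).s i j =
      ∑ i : S, ∑ j : S, Λ.Phi (f i) (f j) * D.s i j + qd4 Λ.Phi (cs4 D S f) := by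
    rw [K3_4_qd, ← sum_add_distrib]
    refine sum_congr rfl fun i _ => ?_
    rw [← sum_add_distrib]
    exact sum_congr rfl fun j _ => h2 i j
  rw [h3, sum_congr rfl fun j _ => h1 j, sum_add_distrib]
  unfold DatG.eS Dat.eS
  have h4 := z2_add_self (qd4 Λ.Phi (cs4 D S f))
  linear_combination (-1 : ZMod 2) * h4

end

end Pool.Agent.Lib.MP_1a91b9_ntDV
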