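import Pool.Agent.Lib.MP_1a91b9_ntDV.K3_3
import Pool.Agent.Lib.MP_1a91b9_ntDV.K3_4

set_option autoImplicit false
set_option linter.unusedSectionVars false

namespace Pool.Agent.Lib.MP_1a91b9_ntDV

open Finset Pool.Agent.Lib.MP_1a91b9_ntH Pool.Agent.Lib.MP_1a91b9_ntQ
open Pool.Agent.Lib.MP_1a91b9_ntQ.Da Pool.Agent.Lib.MP_1a91b9_ntV
open Pool.Agent.Lib.MP_1a91b9_ntP (DatG LSysG LabJ Bs kJ offG)

noncomputable section

variable {ι : Type} [DecidableEq ι] {κ : Type} [Fintype κ] {A : Type} [Fintype A] [DecidableEq A]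

private theorem K3_5_card (k : A → ℕ) : (((∏ a, 4 ^ k a : ℕ) : ℝ) : ℂ) = 2 ^ K4 k := by
  unfold K4
  push_cast
  rw [Finset.prod_pow_eq_pow_sum, pow_mul]
  norm_num

private theorem K3_5_one (D : DatG ι κ) {k : A → ℕ} (e : LabJ k ≃ Lab2 (K4 k))
    (Φ : LabJ k → LabJ k → ZMod 2) (he : ∀ l m, Φ l m = PhiQ (e l) (e m))
    (Λ : LSysG (LabJ k) κ) (hΦ : Λ.Phi = Φ) (S : Finset ι) :
    (∑ f : S → LabJ k, e2 (D.eS Λ S f)) * (Fintype.card (LabJ k → F4) : ℂ) =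
      ∑ p : (LabJ k → F4) × (LabJ k → F4), e2 (qd4 Φ p.2 + ∑ l, F4.tr (p.1 l * p.2 l)) *
        ∑ f : S → Lab2 (K4 k), e2 (∑ j : S, (D4 D).dg (v4 (Λ.gam (e.symm (f j)) +
          p.1 (e.symm (f j))) (Λ.del (e.symm (f j)))) j +
          ∑ i : S, ∑ j : S, PhiQ (f i) (f j) * (D4 D).s i j) := by
  have h1 : ∀ f : S → LabJ k, e2 (D.eS Λ S f) * (Fintype.card (LabJ k → F4) : ℂ) =
      ∑ p : (LabJ k → F4) × (LabJ k → F4), e2 (qd4 Φ p.2 + ∑ l, F4.tr (p.1 l * p.2 l)) *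
        e2 (∑ j : S, (D4 D).dg (v4 (Λ.gam (f j) + p.1 (f j)) (Λ.del (f j))) j +
          ∑ i : S, ∑ j : S, Φ (f i) (f j) * (D4 D).s i j) := by
    intro f
    rw [eS_D4, hΦ, e2_add, mul_assoc, four4 (qd4 Φ) (cs4 D S f), mul_sum]
    refine sum_congr rfl fun p _ => ?_
    rw [sum_cs4, mul_left_comm, ← e2_add]
    have h2 : ∀ j : S, (D4 D).dg (v4 (Λ.gam (f j) + p.1 (f j)) (Λ.del (f j))) j =
        (D4 D).dg (v4 (Λ.gam (f j)) (Λ.del (f j))) j + F4.tr (p.1 (f j) * D.a j) := by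
      intro j
      rw [dg_v4, dg_v4, add_mul, F4.tr_add]
      ring
    rw [sum_congr rfl fun j _ => h2 j, sum_add_distrib]
    congr 2
    ring
  rw [sum_mul, sum_congr rfl fun f _ => h1 f, sum_comm]
  refine sum_congr rfl fun p _ => ?_
  rw [← mul_sum, ← Equiv.sum_comp ((Equiv.refl S).arrowCongr e)]
  refine congrArg _ (sum_congr rfl fun f _ => ?_)
  have h3 : ∀ j : S, ((Equiv.refl S).arrowCongr e f) j = e (f j) := fun j => rfl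
  simp only [h3, Equiv.symm_apply_apply, he]

/-- **K3_5** (medium). The expansion over the labels `Lab2 (K4 k)`, for one set `S`.
Proof. Let `L = LabJ k`, `e`, `he` from `exists_e4 k`, `M = W × ((L → F4) × (L → F4))`. By `hPhi` all the `Λ w` have the
same `Phi`, call it `Φ`. Take
`rf m = e0 m.1 + (qd4 Φ m.2.2 + ∑ l, F4.tr (m.2.1 l * m.2.2 l))` and
`cf m x = v4 ((Λ m.1).gam (e.symm x) + m.2.1 (e.symm x)) ((Λ m.1).del (e.symm x))`.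
By `hexp` (cast to `ℂ`, `e2` is the cast of `sg`; `((∏ a, 4 ^ k a : ℕ) : ℝ) = 2 ^ K4 k`: `pow_mul`, `Finset.prod_pow_eq_pow_sum`)
the left side is `∑ w, e2 (e0 w) * ∑ f : S → L, e2 (D.eS (Λ w) S f) * card (L → F4)`. By `eS_D4`, `e2_add` and `four4`
(for `q = qd4 Φ`, `B = cs4 D S f`), `sum_cs4`:
`e2 (D.eS (Λ w) S f) * card = ∑ p, e2 (qd4 Φ p.2 + ∑ l, ..) * e2 (∑ j, (D4 D).dg (v4 (gam (f j)) (del (f j))) j +
∑ j, F4.tr (p.1 (f j) * a j) + ∑ i, ∑ j, Φ (f i) (f j) * (D4 D).s i j)`, and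
`(D4 D).dg (v4 c e) q + F4.tr (h * a q) = (D4 D).dg (v4 (c + h) e) q` (`dg_v4`, `add_mul`, `F4.tr_add`). Exchange the sums
over `f` and `p` and replace `f : S → L` by `e ∘ f : S → Lab2 (K4 k)` (`Equiv.sum_comp` with
`Equiv.arrowCongr (Equiv.refl S) e` or `(Equiv.refl _).arrowCongr e`); `Φ (f i) (f j) = PhiQ (e (f i)) (e (f j))`. -/
theorem exp4 (D : DatG ι κ) (k : A → ℕ) {W : Type} [Fintype W] (Λ : W → LSysG (LabJ k) κ)
    (hPhi : ∀ w l m, (Λ w).Phi l m = ∑ a, MP_1a91b9_ntH.Da.Phi (l a) (m a)) (e0 : W → ZMod 2)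
    (Kf : Finset ι → ℝ) (C : ℝ)
    (hexp : ∀ S : Finset ι, Kf S * (C * ((∏ a, 4 ^ k a : ℕ) : ℝ) ^ S.card) =
      ∑ w, sg (e0 w) * ∑ f : S → LabJ k, sg (D.eS (Λ w) S f)) :
    ∃ (M : Type) (_ : Fintype M) (rf : M → ZMod 2) (cf : M → Lab2 (K4 k) → Bool ⊕ κ → ZMod 2),
      ∀ S : Finset ι, (Kf S : ℂ) * (2 ^ K4 k) ^ S.card * ((C : ℂ) * Fintype.card (LabJ k → F4)) =
        ∑ m : M, e2 (rf m) * ∑ f : S → Lab2 (K4 k), e2 (∑ j : S, (D4 D).dg (cf m (f j)) j +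
          ∑ i : S, ∑ j : S, PhiQ (f i) (f j) * (D4 D).s i j) := by
  classical
  obtain ⟨e, he⟩ := exists_e4 k
  refine ⟨W × ((LabJ k → F4) × (LabJ k → F4)), inferInstance,
    fun m => e0 m.1 + (qd4 (fun l m => ∑ a, MP_1a91b9_ntH.Da.Phi (l a) (m a)) m.2.2 +
      ∑ l, F4.tr (m.2.1 l * m.2.2 l)),
    fun m x => v4 ((Λ m.1).gam (e.symm x) + m.2.1 (e.symm x)) ((Λ m.1).del (e.symm x)),
    fun S => ?_⟩
  have hc := congrArg (fun x : ℝ => (x : ℂ)) (hexp S)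
  simp only [Complex.ofReal_mul, Complex.ofReal_sum, Complex.ofReal_pow] at hc
  rw [K3_5_card] at hc
  have h0 : (Kf S : ℂ) * (2 ^ K4 k) ^ S.card * ((C : ℂ) * Fintype.card (LabJ k → F4)) =
      (∑ w, e2 (e0 w) * ∑ f : S → LabJ k, e2 (D.eS (Λ w) S f)) *
        (Fintype.card (LabJ k → F4) : ℂ) := by
    have h4 : (∑ w, e2 (e0 w) * ∑ f : S → LabJ k, e2 (D.eS (Λ w) S f)) =
        (Kf S : ℂ) * ((C : ℂ) * (2 ^ K4 k) ^ S.card) := hc.symm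
    rw [h4]
    ring
  rw [h0, sum_mul, Fintype.sum_prod_type]
  refine sum_congr rfl fun w _ => ?_
  rw [mul_assoc, K3_5_one D e (fun l m => ∑ a, MP_1a91b9_ntH.Da.Phi (l a) (m a)) he (Λ w)
    (funext fun l => funext fun m => hPhi w l m) S, mul_sum]
  refine sum_congr rfl fun p _ => ?_
  rw [← mul_assoc, ← e2_add]

end

end Pool.Agent.Lib.MP_1a91b9_ntDV
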