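import Pool.Agent.Lib.MP_1a91b9_ntDV.K3_0

set_option autoImplicit false
set_option linter.unusedSectionVars false

namespace Pool.Agent.Lib.MP_1a91b9_ntDV

open Finset Pool.Agent.Lib.MP_1a91b9_ntH Pool.Agent.Lib.MP_1a91b9_ntQ
open Pool.Agent.Lib.MP_1a91b9_ntQ.Da Pool.Agent.Lib.MP_1a91b9_ntV
open Pool.Agent.Lib.MP_1a91b9_ntP (DatG LSysG LabJ Bs kJ offG)

noncomputable section

variable {ι : Type} [DecidableEq ι] [PS ι]

/-- **K3_6** (easy+). The value may be changed if the change is `o (X)` on the mean.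
Proof. `‖x - v'‖ ^ 2 ≤ 2 * ‖x - v‖ ^ 2 + 2 * ‖v - v'‖ ^ 2`; sum over `S ∈ Sx ι X`:
`∑ ‖avg F S - v'‖ ^ 2 ≤ 2 * (ε / 4 * (card + X)) + 2 * ‖v - v'‖ * (‖v - v'‖ * card)`, and the last term is at most
`2 * ‖v - v'‖ * (ε' * X)` with `ε' = ε / (4 * (‖v - v'‖ + 1))`. -/
theorem AV.change {F : Finset ι → ℂ} {v v' : ℂ} (hF : AV F v)
    (h : ∀ ε : ℝ, 0 < ε → ∃ X₀ : ℕ, ∀ X : ℕ, X₀ ≤ X → ‖v - v'‖ * (Sx ι X).card ≤ ε * X) :
    AV F v' := by
  intro ε hε
  obtain ⟨d, hd⟩ : ∃ d : ℝ, d = ‖v - v'‖ := ⟨_, rfl⟩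
  have hd0 : 0 ≤ d := by
    rw [hd]
    exact norm_nonneg _
  obtain ⟨X1, h1⟩ := hF (ε / 4) (by positivity)
  obtain ⟨X2, h2⟩ := h (ε / (4 * (d + 1))) (by positivity)
  refine ⟨X1 + X2, fun X hX => ?_⟩
  have g1 := h1 X (by omega)
  have g2 := h2 X (by omega)
  rw [← hd] at g2
  have h3 : ∀ S ∈ Sx ι X, ‖avg F S - v'‖ ^ 2 ≤ 2 * ‖avg F S - v‖ ^ 2 + 2 * d ^ 2 := by
    intro S _
    have h4 : ‖avg F S - v'‖ ≤ ‖avg F S - v‖ + d := by
      rw [hd]
      have e : avg F S - v' = (avg F S - v) + (v - v') := by ring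
      rw [e]
      exact norm_add_le _ _
    have h5 : ‖avg F S - v'‖ ^ 2 ≤ (‖avg F S - v‖ + d) ^ 2 :=
      pow_le_pow_left₀ (norm_nonneg _) h4 2
    nlinarith [sq_nonneg (‖avg F S - v‖ - d)]
  refine (sum_le_sum h3).trans ?_
  rw [sum_add_distrib, ← mul_sum, sum_const, nsmul_eq_mul]
  have hN : (0 : ℝ) ≤ (Sx ι X).card := Nat.cast_nonneg _
  have hX0 : (0 : ℝ) ≤ X := Nat.cast_nonneg _
  have h6 : d * (d * (Sx ι X).card) ≤ ε / 4 * X := by
    have h7 : d * (d * ((Sx ι X).card : ℝ)) ≤ d * (ε / (4 * (d + 1)) * X) :=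
      mul_le_mul_of_nonneg_left g2 hd0
    have h8 : d * (ε / (4 * (d + 1)) * X) ≤ ε / 4 * X := by
      have h9 : d * (ε / (4 * (d + 1)) * X) = ε / 4 * X * (d / (d + 1)) := by
        field_simp
      rw [h9]
      have h10 : d / (d + 1) ≤ 1 := by
        rw [div_le_one (by positivity)]
        linarith
      exact mul_le_of_le_one_right (by positivity) h10
    exact h7.trans h8
  nlinarith

variable {κ : Type} [Fintype κ] [DecidableEq κ]

omit [DecidableEq κ] [PS ι] in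
private theorem K3_6_BF (D : Dat2 ι κ) (c : κ → ZMod 2) (T : Finset ι) :
    BF D (Phi1 (PhiQ (k := 0))) (gk D (fun _ : Lab2 0 => c)) T = e2 (∑ q ∈ T, D.dg c q) := by
  unfold BF
  have h : ∀ f : T → Lab2 0, (∏ j : T, gk D (fun _ : Lab2 0 => c) (f j) j) *
      e2 (∑ j : T, ∑ l : T, Phi1 PhiQ (f j) (f l) * D.s j l) = e2 (∑ q ∈ T, D.dg c q) := by
    intro f
    have h1 : ∀ j : T, gk D (fun _ : Lab2 0 => c) (f j) j = e2 (D.dg c j) := fun j => by
      show ((2 : ℂ) ^ 0)⁻¹ * e2 (D.dg c j) = _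
      rw [pow_zero, inv_one, one_mul]
    have h2 : ∀ j l : T, Phi1 PhiQ (f j) (f l) = 0 := fun j l => by
      rw [Subsingleton.elim (f l) (f j), Phi1_self]
    have h3 : ∑ j : T, ∑ l : T, Phi1 PhiQ (f j) (f l) * D.s j l = 0 :=
      sum_eq_zero fun j _ => sum_eq_zero fun l _ => by rw [h2, zero_mul]
    rw [h3, e2_zero, mul_one, Finset.prod_congr rfl (fun j _ => h1 j), e2_sum]
    exact Finset.prod_coe_sort T fun q => e2 (D.dg c q)
  rw [sum_congr rfl fun f _ => h f, sum_const, card_univ, nsmul_eq_mul]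
  have h4 : Fintype.card (T → Lab2 0) = 1 := by
    rw [Fintype.card_eq_one_iff]
    exact ⟨fun _ => 0, fun f => Subsingleton.elim _ _⟩
  rw [h4, Nat.cast_one, one_mul]

private theorem K3_6_UsN : UsN 0 = {univ} := by
  ext U
  rw [mem_UsN, mem_singleton]
  constructor
  · rintro ⟨-, h2⟩
    have h3 : (univ : Finset (Lab2 0)).card ≤ U.card := by
      rw [h2, card_univ, pow_zero]
      exact Fintype.card_le_one_iff_subsingleton.2 inferInstance
    exact eq_of_subset_of_card_le (subset_univ _) h3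
  · rintro rfl
    refine ⟨fun l _ m _ => ?_, ?_⟩
    · rw [Subsingleton.elim m l, sub_self]
      simp [Q2]
    · rw [card_univ, pow_zero, Fintype.card_eq_one_iff]
      exact ⟨0, fun f => Subsingleton.elim _ _⟩

open Classical in
/-- **K3_6b** (easy+). The class characters.
Proof. `AV_BF hD (cc := fun _ => c)` for `k = 0`: `Lab2 0` has exactly one element `l` (`Unique`; functions on
`Fin 0`), `Phi1 PhiQ l l = 0` (`Phi1_self`), and `gk D (fun _ => c) l q = ((2 : ℂ) ^ 0)⁻¹ * e2 (D.dg c q) = e2 (D.dg c q)`, so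
`BF D (Phi1 PhiQ) (gk D fun _ => c) T = ∏ j : T, e2 (D.dg c j) = e2 (∑ q ∈ T, D.dg c q)` (`e2_sum`,
`Finset.prod_coe_sort`; the sum over `f : T → Lab2 0` has one term). `mv (fun _ => c) = ∑ U ∈ UsN 0, iN (fun _ => c) U`:
`UsN 0 = {univ}` (the card is `2 ^ 0 = 1`, so `U = univ`, and `univ` is `Unl2`: `Q2 (l - l) = 0`), and `iN (fun _ => c) univ` is `1`
if `c = 0` and `0` otherwise. (The same is done for `c = 0` in the proof of `AV_BF`, E11.) -/
theorem AV_ch {D : Dat2 ι κ} {w : κ → ZMod 2} (hD : OKt D w) (c : κ → ZMod 2) :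
    AV (fun T => e2 (∑ q ∈ T, D.dg c q)) (if c = 0 then 1 else 0) := by
  have h := AV_BF hD (k := 0) (fun _ => c)
  have e1 : BF D (Phi1 (PhiQ (k := 0))) (gk D (fun _ : Lab2 0 => c)) =
      fun T => e2 (∑ q ∈ T, D.dg c q) := funext fun T => K3_6_BF D c T
  have e2' : mv (fun _ : Lab2 0 => c) = if c = 0 then 1 else 0 := by
    unfold mv
    rw [K3_6_UsN, sum_singleton]
    unfold iN
    by_cases hc : c = 0
    · rw [if_pos hc, if_pos fun _ _ => hc]
    · rw [if_neg hc, if_neg fun h0 => hc (h0 0 (mem_univ _))]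
  rw [e1, e2'] at h
  exact h

end

end Pool.Agent.Lib.MP_1a91b9_ntDV
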