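import Pool.Agent.Lib.MP_1a91b9_ntDV.K3_2
import Pool.Agent.Lib.MP_1a91b9_ntDV.K3_5
import Pool.Agent.Lib.MP_1a91b9_ntDV.K3_6

set_option autoImplicit false
set_option linter.unusedSectionVars false

namespace Pool.Agent.Lib.MP_1a91b9_ntDV

open Finset Pool.Agent.Lib.MP_1a91b9_ntH Pool.Agent.Lib.MP_1a91b9_ntQ
open Pool.Agent.Lib.MP_1a91b9_ntQ.Da Pool.Agent.Lib.MP_1a91b9_ntV
open Pool.Agent.Lib.MP_1a91b9_ntP (DatG LSysG LabJ Bs kJ offG)

noncomputable section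

open Pool.Agent.Lib.MP_1a91b9_ntV.DJ
open Pool.Agent.Lib.MP_1a91b9_ntQ (Off)

section

variable {ι : Type} [DecidableEq ι] {A : Type}

/-- The character of the class. -/
private theorem K3_7_ch (E : DatG ι A) [Fintype A] (y : F4) (S : Finset ι) :
    e2 (∑ q ∈ S, (D4 E).dg (v4 y 0) q) = ((sg (F4.tr (y * E.toDat.A S)) : ℝ) : ℂ) := by
  have h1 : ∀ q, (D4 E).dg (v4 y 0) q = F4.tr (y * E.a q) := fun q => by
    rw [dg_v4, MP_1a91b9_ntP.lg_zero, add_zero]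
  have h2 : ∑ q ∈ S, (D4 E).dg (v4 y 0) q = F4.tr (y * E.toDat.A S) := by
    rw [sum_congr rfl fun q _ => h1 q, ← trD_sum, ← mul_sum]
    rfl
  rw [h2]
  rfl

/-- The comparison of the two values. -/
private theorem K3_7_nrm {T W V A N : ℂ} (hW : W ≠ 0) {x y : ℝ} (h1 : ‖A * W - T * N‖ ≤ x)
    (h2 : ‖A - V * N‖ ≤ y) : ‖T / W - V‖ * ‖N‖ ≤ x / ‖W‖ + y := by
  have e : (T / W - V) * N = (A - V * N) - (A * W - T * N) / W := by
    field_simp
    ring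
  rw [← norm_mul, e]
  refine (norm_sub_le _ _).trans ?_
  rw [norm_div, add_comm]
  have hW' : 0 < ‖W‖ := norm_pos_iff.2 hW
  exact add_le_add (div_le_div_of_nonneg_right h1 hW'.le) h2

end

variable {ι : Type} [DecidableEq ι] [PS ι] {D : MP_1a91b9_ntE.DatE ι} {A : Type} [Fintype A]
  [DecidableEq A]

/-- **K3_7** (medium). The mean square of the joint moments with a character.
Proof. `E = offG D B`, `hE = okt_D4 hB : OKt (D4 E) (w4 _)`, `V = if y = 0 then ∏ a, Nk (k a) else 0`.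
By `dg_v4` (`D.lg 0 q = 0`, `lg_zero`) `e2 (∑ q ∈ S, (D4 E).dg (v4 y 0) q) = (sg (F4.tr (y * E.A S)) : ℂ)` (`trD_sum`,
`mul_sum`).
Case `K4 k = 0`: all `k a = 0`, so `kJ Q T k S = 1` (`pow_zero`), `Nk 0 = 1`; the claim is
`AV_ch hE (v4 y 0)` (`v4_eq_zero`: `v4 y 0 = 0 ↔ y = 0`) and `AVr_iff`.
Case `1 ≤ K4 k`: `MP_1a91b9_ntP.exp_J hD Q hT k 0 S` (with `sg (F4.tr (0 * _)) = 1`) is the hypothesis `hexp` of `exp4` for
`Λ w = LJ (PJ Q B T k) 0 w`, `e0 w = ∑ a, (PJ Q B T k a).e0 (w a)`, `C = bJ Q T k`, `Kf = kJ Q T k` (`hPhi` holds by `rfl`;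
`WJ` is the type of the coordinates). So we get `M, rf, cf, hK`, with `W = bJ * card (LabJ k → F4) ≠ 0` (`bJ_pos`).
`AV_gen hE rf cf (fun S => (kJ Q T k S : ℂ)) hW hK (v4 y 0)` is the claim with the value `TNG rf cf w (v4 y 0) / W`; change the value
with `AV.change`: `genMo_lim hE rf cf _ W hK (wt_dg hE (v4 y 0)) hk` (MP_1a91b9_ntV/DJ/ExpJ.lean, `wt_dg` in
MP_1a91b9_ntV/D/MomN.lean; `∑ c0 ∈ univ.filter (fun c => c = v4 y 0), TNG .. c0 = TNG .. (v4 y 0)`; `∏ q ∈ S, e2 (dg q) = e2 (∑ ..)`)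
says `‖(∑ S, χ S * kJ S) * W - TNG * N‖ ≤ ε₁ * X`, and `MP_1a91b9_ntP.momJ hD Q hB hT hi k y` says
`|∑ S, kJ S * χ S - V * N| ≤ ε₂ * X` (`N = (Sx (Off B) X).card`); so
`‖TNG / W - V‖ * N ≤ (ε₁ / ‖W‖ + ε₂) * X`. At the end `AVr_iff` (`push_cast`). -/
theorem AVr_kJ (hD : D.toDat.Rec) (Q : A → Bs D) {B : Finset ι} (hB : (offG D B).OK)
    {T : A → Finset ι} (hT : ∀ a, T a ⊆ B)
    (hi : Function.Injective fun a => ((Q a).ρ, (Q a).τ, T a)) (k : A → ℕ) (y : F4) :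
    AVr (fun S : Finset (Off B) => kJ Q T k S * sg (F4.tr (y * (offG D B).toDat.A S)))
      (if y = 0 then ∏ a, (MP_1a91b9_ntH.Da.Nk (k a) : ℝ) else 0) := by
  have hO : OKt (D4 (offG D B)) (w4 _) := okt_D4 hB
  rcases Nat.eq_zero_or_pos (K4 k) with h0 | h0
  · have hk0 : ∀ a, k a = 0 := by
      intro a
      unfold K4 at h0
      have h2 : ∑ a, k a = 0 := by omega
      exact (sum_eq_zero_iff.1 h2) a (mem_univ a)
    have h1 : ∀ S : Finset (Off B), kJ Q T k S = 1 := fun S =>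
      prod_eq_one fun a _ => by rw [hk0 a, pow_zero]
    have h2 : ∏ a, (MP_1a91b9_ntH.Da.Nk (k a) : ℝ) = 1 := prod_eq_one fun a _ => by
      rw [hk0 a]
      simp [MP_1a91b9_ntH.Da.Nk]
    rw [AVr_iff]
    refine AV.congr (AV_ch hO (v4 y 0)) (fun S => ?_) ?_
    · rw [K3_7_ch, h1, one_mul]
    · rw [h2]
      by_cases hy : y = 0
      · rw [if_pos hy, if_pos (v4_eq_zero.2 ⟨hy, rfl⟩), Complex.ofReal_one]
      · rw [if_neg hy, if_neg (fun h => hy (v4_eq_zero.1 h).1), Complex.ofReal_zero]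
  · have hexp : ∀ S : Finset (Off B),
        kJ Q T k S * (MP_1a91b9_ntP.bJ Q T k * ((∏ a, 4 ^ k a : ℕ) : ℝ) ^ S.card) =
        ∑ w : ∀ a, MP_1a91b9_ntP.WJ Q T k a, sg (∑ a, (MP_1a91b9_ntP.PJ Q B T k a).e0 (w a)) *
          ∑ f : S → LabJ k, sg ((offG D B).eS (MP_1a91b9_ntP.LJ (MP_1a91b9_ntP.PJ Q B T k) 0 w) S f) := by
      intro S
      have h1 := MP_1a91b9_ntP.exp_J hD Q hT k 0 S
      have h2 : sg (F4.tr (0 * (offG D B).toDat.A S)) = 1 := by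
        rw [zero_mul]
        exact MP_1a91b9_ntH.Da.sg_zero
      rw [h2, mul_one] at h1
      exact h1
    obtain ⟨M, hM, rf, cf, hK⟩ := exp4 (offG D B) k
      (fun w => MP_1a91b9_ntP.LJ (MP_1a91b9_ntP.PJ Q B T k) 0 w) (fun w l m => rfl)
      (fun w => ∑ a, (MP_1a91b9_ntP.PJ Q B T k a).e0 (w a)) (fun S => kJ Q T k S)
      (MP_1a91b9_ntP.bJ Q T k) hexp
    have hW0 : ((MP_1a91b9_ntP.bJ Q T k : ℝ) : ℂ) * (Fintype.card (LabJ k → F4) : ℂ) ≠ 0 := by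
      refine mul_ne_zero ?_ ?_
      · exact Complex.ofReal_ne_zero.2 (MP_1a91b9_ntP.bJ_pos Q T k).ne'
      · exact Nat.cast_ne_zero.2 Fintype.card_ne_zero
    have h1 := AV_gen hO rf cf (fun S => (kJ Q T k S : ℂ)) hW0 hK (v4 y 0)
    rw [AVr_iff]
    refine AV.congr (AV.change (v' := (((if y = 0 then ∏ a, (MP_1a91b9_ntH.Da.Nk (k a) : ℝ)
      else 0 : ℝ)) : ℂ)) h1 ?_) (fun S => ?_) rfl
    · intro ε hε
      have hWp := norm_pos_iff.2 hW0
      obtain ⟨X1, hX1⟩ := genMo_lim hO rf cf (fun S => (kJ Q T k S : ℂ)) _ hK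
        (wt_dg hO (v4 y 0)) h0 (ε / 2 * ‖((MP_1a91b9_ntP.bJ Q T k : ℝ) : ℂ) *
          (Fintype.card (LabJ k → F4) : ℂ)‖) (by positivity)
      obtain ⟨X2, hX2⟩ := MP_1a91b9_ntP.momJ hD Q hB hT hi k y (ε / 2) (by positivity)
      refine ⟨max X1 X2, fun X hX => ?_⟩
      have g1 := hX1 X ((le_max_left _ _).trans hX)
      have g2 := hX2 X ((le_max_right _ _).trans hX)
      have e1 : ∑ S ∈ Sx (Off B) X, (∏ q ∈ S, e2 ((D4 (offG D B)).dg (v4 y 0) q)) *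
          (kJ Q T k S : ℂ) = ((∑ S ∈ Sx (Off B) X, kJ Q T k S *
            sg (F4.tr (y * (offG D B).toDat.A S)) : ℝ) : ℂ) := by
        rw [Complex.ofReal_sum]
        refine sum_congr rfl fun S _ => ?_
        rw [← e2_sum, K3_7_ch, Complex.ofReal_mul, mul_comm]
      have e3 : ∀ s : Finset (Bool ⊕ (Unit ⊕ B) → ZMod 2), (∀ c, c ∈ s ↔ c = v4 y 0) →
          ∑ c0 ∈ s, TNG rf cf (w4 _) c0 = TNG rf cf (w4 _) (v4 y 0) := by
        intro s hs
        exact sum_eq_single_of_mem (v4 y 0) ((hs _).2 rfl) fun c hc hne =>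
          absurd ((hs c).1 hc) hne
      rw [e1, e3] at g1
      swap
      · intro c
        simp only [mem_filter, mem_univ, true_and]
      have g3 : ‖((∑ S ∈ Sx (Off B) X, kJ Q T k S *
            sg (F4.tr (y * (offG D B).toDat.A S)) : ℝ) : ℂ) -
            (((if y = 0 then ∏ a, (MP_1a91b9_ntH.Da.Nk (k a) : ℝ) else 0 : ℝ)) : ℂ) *
              ((Sx (Off B) X).card : ℂ)‖ ≤ ε / 2 * X := by
        rw [← Complex.ofReal_natCast, ← Complex.ofReal_mul, ← Complex.ofReal_sub,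
          Complex.norm_real, Real.norm_eq_abs]
        exact g2
      have g4 := K3_7_nrm hW0 g1 g3
      rw [Complex.norm_natCast] at g4
      refine g4.trans (le_of_eq ?_)
      field_simp
      ring
    · show ((kJ Q T k S * sg (F4.tr (y * (offG D B).toDat.A S)) : ℝ) : ℂ) = _
      rw [K3_7_ch, Complex.ofReal_mul, mul_comm]

end

end Pool.Agent.Lib.MP_1a91b9_ntDV
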