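import Pool.Agent.Lib.MP_1a91b9_ntM.E.XFin
import Pool.Agent.Lib.MP_1a91b9_ntDV.E0

/-!
# MP_1a91b9_nt (the divisor law), block K4 (`ℚ(i)`): definitions

The second moment over the subsets is a sum over the labellings with the labels `Option L × Option L'`
(`none`: the prime is not in the subset). `L2x Λ Λ'` is the label system of the products, `w2x` its weights;
`wu` is the weight of a label, with a factor `u` of absolute value at most `1` which depends on the label and the
prime, and with the class vectors.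
-/

set_option autoImplicit false
set_option linter.unusedSectionVars false

namespace Pool.Agent.Lib.MP_1a91b9_ntDV.G4

open Finset Pool.Agent.Lib.MP_1a91b9_ntH Pool.Agent.Lib.MP_1a91b9_ntQ Pool.Agent.Lib.MP_1a91b9_ntQ.Da
  Pool.Agent.Lib.MP_1a91b9_ntQ.M Pool.Agent.Lib.MP_1a91b9_ntM Pool.Agent.Lib.MP_1a91b9_ntM.E

noncomputable section

/-! ### The weights and the engine -/

section Eng

variable {ι : Type} {κ : Type} [Fintype κ] {L : Type}

/-- The weights without the class vectors. -/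
def hU (D : Dat2 ι κ) (w : L → (κ → ZMod 2) → ℝ) (u : L → ι → ℂ) (l : L) (q : ι) : ℂ :=
  ((w l (D.a q) : ℝ) : ℂ) * u l q

/-- The weights with the class vectors `c`. -/
def wu (D : Dat2 ι κ) (c : L → κ → ZMod 2) (w : L → (κ → ZMod 2) → ℝ) (u : L → ι → ℂ) (l : L)
    (q : ι) : ℂ :=
  ((w l (D.a q) : ℝ) : ℂ) * u l q * e2 (∑ j, c l j * D.a q j)

variable [DecidableEq ι] [DecidableEq κ] [Fintype L] [DecidableEq L]

/-- What the engine needs: the conditions on the weights `w` and on the factors `u`. -/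
structure UOK (Λ : LS2 L ι κ) (w : L → (κ → ZMod 2) → ℝ) (u : L → ι → ℂ) : Prop where
  ok : Λ.OK
  B : Λ.B = ∅
  w0 : ∀ l φ, 0 ≤ w l φ
  wz : ∀ l, 0 < w l 0
  wU : ∀ U, Λ.Unl U → ∀ φ, ∑ l ∈ U, w l φ ≤ 1
  sm : ∀ U, Λ.Unl U → U.card < Λ.m → ∃ φ, ∑ l ∈ U, w l φ < 1
  u1 : ∀ l q, ‖u l q‖ ≤ 1
  pr : ∀ U ∈ FullW Λ w, ∀ x, x ∉ U → ∃ l ∈ U, ∃ l' ∈ U, Λ.lk l x ≠ Λ.lk l' x ∧
    ∀ q, u l q = u l' q

end Eng

/-! ### Products of label systems -/

section Prod

variable {ι : Type} {κ : Type} {L L' : Type}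

/-- The weights with the label `none`. -/
def wo (w : L → (κ → ZMod 2) → ℝ) : Option L → (κ → ZMod 2) → ℝ
  | none, _ => 1 / 2
  | some l, φ => w l φ / 2

/-- The class vectors with the label `none`. -/
def cO (c : L → κ → ZMod 2) : Option L → κ → ZMod 2
  | none => 0
  | some l => c l

/-- The factors with the label `none`. -/
def uO (u : L → ι → ℂ) : Option L → ι → ℂ
  | none, _ => 1
  | some l, q => u l q

/-- The label system of the products. -/
def L2x (Λ : LS2 L ι κ) (Λ' : LS2 L' ι κ) : LS2 (Option L × Option L') ι κ where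
  Phi := Px (Po Λ.Phi) (Po Λ'.Phi)
  c := fun x => cO Λ.c x.1 + cO Λ'.c x.2
  t := fun _ _ => 0
  B := ∅
  m := (Λ.m + 1) * (Λ'.m + 1)

/-- The weights of the products. -/
def w2x (w : L → (κ → ZMod 2) → ℝ) (w' : L' → (κ → ZMod 2) → ℝ) (x : Option L × Option L')
    (φ : κ → ZMod 2) : ℝ := wo w x.1 φ * wo w' x.2 φ

/-- The factors of the products. -/
def u2x (u : Option L → ι → ℂ) (u' : Option L' → ι → ℂ) (x : Option L × Option L') (q : ι) : ℂ :=
  u x.1 q * u' x.2 q

variable [Fintype L] [DecidableEq L] [Fintype L'] [DecidableEq L']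

/-- What is used about one system with weights. -/
structure QOK (Λ : LS2 L ι κ) (w : L → (κ → ZMod 2) → ℝ) : Prop where
  diag : ∀ l, Λ.Phi l l = 0
  mpos : 1 ≤ Λ.m
  k1 : ∀ U : Finset L, Λ.Unl U → U.card ≤ Λ.m
  k2 : ∀ U : Finset L, Λ.Unl U → U.card = Λ.m → ∀ (x : L) (c : ZMod 2),
    (∀ l ∈ U, Λ.lk l x = c) → x ∈ U
  w0 : ∀ l φ, 0 ≤ w l φ
  wz : ∀ l, w l 0 = (Λ.m : ℝ)⁻¹
  wU : ∀ U, Λ.Unl U → ∀ φ, ∑ l ∈ U, w l φ ≤ 1

/-- What is used about two systems with weights. -/
def JU (Λ : LS2 L ι κ) (Λ' : LS2 L' ι κ) (w : L → (κ → ZMod 2) → ℝ)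
    (w' : L' → (κ → ZMod 2) → ℝ) : Prop :=
  ∀ Z : Finset (L × L'), (∀ x ∈ Z, ∀ y ∈ Z, Λ.lk x.1 y.1 + Λ'.lk x.2 y.2 = 0) →
    ∀ φ, ∑ x ∈ Z, w x.1 φ * w' x.2 φ ≤ 1

/-- The links with the label `none`. -/
def lo (Λ : LS2 L ι κ) : Option L → Option L → ZMod 2
  | some l, some m => Λ.lk l m
  | _, _ => 0

theorem Po_add (Λ : LS2 L ι κ) (o p : Option L) : Po Λ.Phi o p + Po Λ.Phi p o = lo Λ o p := by
  cases o with
  | none => cases p <;> exact add_zero _
  | some l =>
    cases p with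
    | none => exact add_zero _
    | some m => rfl

theorem L2x_lk (Λ : LS2 L ι κ) (Λ' : LS2 L' ι κ) (x y : Option L × Option L') :
    (L2x Λ Λ').lk x y = lo Λ x.1 y.1 + lo Λ' x.2 y.2 := by
  show (Po Λ.Phi x.1 y.1 + Po Λ'.Phi x.2 y.2) + (Po Λ.Phi y.1 x.1 + Po Λ'.Phi y.2 x.2) = _
  rw [← Po_add, ← Po_add]
  ring

/-! ### The parts of a set of pairs of labels -/

/-- the labels `(l, none)` -/
def z10 (Z : Finset (Option L × Option L')) : Finset L :=
  univ.filter fun l => ((some l, none) : Option L × Option L') ∈ Z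

/-- the labels `(none, l)` -/
def z01 (Z : Finset (Option L × Option L')) : Finset L' :=
  univ.filter fun l => ((none, some l) : Option L × Option L') ∈ Z

/-- the labels `(l, l')` -/
def z11 (Z : Finset (Option L × Option L')) : Finset (L × L') :=
  univ.filter fun x => ((some x.1, some x.2) : Option L × Option L') ∈ Z

/-- the label `(none, none)` -/
def z00 (Z : Finset (Option L × Option L')) : ℕ :=
  if ((none, none) : Option L × Option L') ∈ Z then 1 else 0

theorem mem_z10 {Z : Finset (Option L × Option L')} {l : L} :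
    l ∈ z10 Z ↔ ((some l, none) : Option L × Option L') ∈ Z := by
  simp [z10]

theorem mem_z01 {Z : Finset (Option L × Option L')} {l : L'} :
    l ∈ z01 Z ↔ ((none, some l) : Option L × Option L') ∈ Z := by
  simp [z01]

theorem mem_z11 {Z : Finset (Option L × Option L')} {x : L × L'} :
    x ∈ z11 Z ↔ ((some x.1, some x.2) : Option L × Option L') ∈ Z := by
  simp [z11]

end Prod

/-! ### The local factors -/

section Loc

variable {ι : Type} {κ : Type} [Fintype κ] {L : Type}

/-- The local factor of a set of labels, with the label `none`. -/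
def hO (D : Dat2 ι κ) (c : L → κ → ZMod 2) (w : L → (κ → ZMod 2) → ℝ) (u : Option L → ι → ℂ)
    (U : Finset L) (q : ι) : ℂ := ∑ o ∈ insertNone U, wu D (cO c) (wo w) u o q

theorem go_wu (D : Dat2 ι κ) (c : L → κ → ZMod 2) (w : L → (κ → ZMod 2) → ℝ) (u : L → ι → ℂ) :
    go (wu D c w u) = wu D (cO c) (wo w) (uO u) := by
  funext o q
  cases o with
  | none =>
    have h : ∑ j, cO c none j * D.a q j = 0 := sum_eq_zero fun j _ => by
      show (0 : ZMod 2) * D.a q j = 0
      rw [zero_mul]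
    show (1 / 2 : ℂ) = (((1 / 2 : ℝ) : ℂ)) * 1 * e2 (∑ j, cO c none j * D.a q j)
    rw [h, e2_zero]
    push_cast
    ring
  | some l =>
    show ((w l (D.a q) : ℝ) : ℂ) * u l q * e2 (∑ j, c l j * D.a q j) / 2 =
      (((w l (D.a q) / 2 : ℝ)) : ℂ) * u l q * e2 (∑ j, c l j * D.a q j)
    push_cast
    ring

end Loc

/-! ### The quantities of the family -/

section Fam

variable {A : Type} [Fintype A] [DecidableEq A] {k : A → ℕ} {ι : Type} [DecidableEq ι]
  {κ : Type} [Fintype κ] [DecidableEq κ] {E : A → Type} [∀ a, Fintype (E a)]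
  [∀ a, DecidableEq (E a)]

/-- The factors of the labels, with a multiplicative function `g`. -/
def uX (ρ : (κ → ZMod 2) → ι → ZMod 2) (cA : A → κ → ZMod 2) (g : ι → ℂ) (l : LabP k) (q : ι) : ℂ :=
  g q * e2 (qX ρ cA l q)

/-- The sum over the labellings of `T`, for fixed labels `m` of the border, with the factor
`∏ q ∈ T, g q`. -/
def PhX (D : Dat2 ι κ) (ρ : (κ → ZMod 2) → ι → ZMod 2) (cA σ : A → κ → ZMod 2)
    (P : ∀ a, κ → E a → ZMod 2) (m : ∀ a, E a → Lab2 (k a)) (g : ι → ℂ) (T : Finset ι) : ℂ :=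
  BF D (PhiP (k := k)) (wu D (cP σ P m) (wX k cA) (uX ρ cA g)) T

/-- Its main term. -/
def PsX (D : Dat2 ι κ) (cA σ : A → κ → ZMod 2) (P : ∀ a, κ → E a → ZMod 2)
    (m : ∀ a, E a → Lab2 (k a)) (g : ι → ℂ) (T : Finset ι) : ℂ :=
  ∑ U ∈ FullW (LSP ι k σ P m) (wX k cA), ∏ q ∈ T, g q * TotW (LSP ι k σ P m) (wX k cA) U (D.a q)

/-- The difference of the joint moment and of its main term, with the factor `∏ q ∈ T, g q`. -/
def DeX (D : Dat2 ι κ) (ρ : (κ → ZMod 2) → ι → ZMod 2) (cA σ : A → κ → ZMod 2)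
    (P : ∀ a, κ → E a → ZMod 2) (R : ∀ a, Matrix (E a) (E a) (ZMod 2)) (k : A → ℕ) (g : ι → ℂ)
    (T : Finset ι) : ℂ :=
  ∑ m : (∀ a, E a → Lab2 (k a)), (∏ a, e2 (RF (R a) (m a))) *
    (PhX D ρ cA σ P m g T - PsX D cA σ P m g T)

/-- The local factor of a mean value over the subsets. -/
def hT (D : Dat2 ι κ) (cA σ : A → κ → ZMod 2) (P : ∀ a, κ → E a → ZMod 2)
    (m : ∀ a, E a → Lab2 (k a)) (g : ι → ℂ) (U : Finset (LabP k)) (q : ι) : ℂ :=
  (1 + g q * TotW (LSP ι k σ P m) (wX k cA) U (D.a q)) / 2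

end Fam

/-! ### The empty family -/

/-- the empty family, the numbers -/
def k0 : Empty → ℕ := fun _ => 0

/-- the empty family, the class vectors -/
def cE (κ : Type) : Empty → κ → ZMod 2 := fun a => a.elim

/-- the empty family, the borders -/
def PE (κ : Type) : Empty → κ → Unit → ZMod 2 := fun a => a.elim

/-- the empty family, the labels of the borders -/
def mE : ∀ a : Empty, Unit → Lab2 (k0 a) := fun a => a.elim

/-- The label system of the empty family: one label, no links. -/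
def LS0 (ι κ : Type) : LS2 (LabP k0) ι κ := LSP (E := fun _ => Unit) ι k0 (cE κ) (PE κ) mE

/-! ### Mean values in a class -/

section Cls

variable {ι : Type} [DecidableEq ι] {κ : Type} [PS ι] {G : Type} [AddCommGroup G]

open Classical in
/-- The mean value of `f` over the subsets of the class `γ` is `v`, for almost all sets (relative to the number
of the subsets in the class). -/
def PG (cl : ι → G) (γ : G) (f : Finset ι → ℝ) (v : ℝ) : Prop :=
  AVr (fun T => if ∑ q ∈ T, cl q = γ then f T - v else 0) 0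

end Cls

end

end Pool.Agent.Lib.MP_1a91b9_ntDV.G4
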