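import Pool.Agent.Lib.MP_1a91b9_ntDV.K4_0

set_option autoImplicit false
set_option linter.unusedSectionVars false

namespace Pool.Agent.Lib.MP_1a91b9_ntDV.G4

open Finset Pool.Agent.Lib.MP_1a91b9_ntH Pool.Agent.Lib.MP_1a91b9_ntQ Pool.Agent.Lib.MP_1a91b9_ntQ.Da
  Pool.Agent.Lib.MP_1a91b9_ntQ.M Pool.Agent.Lib.MP_1a91b9_ntM Pool.Agent.Lib.MP_1a91b9_ntM.E
open Pool.Agent.Lib.MP_1a91b9_ntQ.D Pool.Agent.Lib.MP_1a91b9_ntQ.DW

noncomputable section

variable {ι : Type} [DecidableEq ι] {L : Type} [Fintype L] [DecidableEq L] {κ : Type} [Fintype κ]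
  [DecidableEq κ]

private theorem K4_1_two {a b θ : ℝ} (ha : θ ≤ a) (hb : θ ≤ b) (hθ : 0 < θ) (x y : ZMod 2) :
    ‖(a : ℂ) * e2 x + (b : ℂ) * e2 y‖ ≤ a + b - θ * (1 - sg (x - y)) := by
  have h : ∀ x : ZMod 2, x = 0 ∨ x = 1 := by decide
  have h2 : (0 : ZMod 2) - 1 = 1 := by decide
  have hn : ∀ t : ℝ, ‖(t : ℂ)‖ = |t| := fun t => by rw [Complex.norm_real, Real.norm_eq_abs]
  rcases h x with rfl | rfl <;> rcases h y with rfl | rfl
  · have e : (a : ℂ) * e2 0 + (b : ℂ) * e2 0 = ((a + b : ℝ) : ℂ) := by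
      rw [e2_zero]
      push_cast
      ring
    rw [e, hn, sub_self, sg2_zero, abs_of_nonneg (by linarith)]
    linarith
  · have e : (a : ℂ) * e2 0 + (b : ℂ) * e2 1 = ((a - b : ℝ) : ℂ) := by
      rw [e2_zero, e2_one]
      push_cast
      ring
    rw [e, hn, h2, MP_1a91b9_ntQ.sg2_one, abs_le]
    constructor <;> linarith
  · have e : (a : ℂ) * e2 1 + (b : ℂ) * e2 0 = ((b - a : ℝ) : ℂ) := by
      rw [e2_zero, e2_one]
      push_cast
      ring
    rw [e, hn, sub_zero, MP_1a91b9_ntQ.sg2_one, abs_le]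
    constructor <;> linarith
  · have e : (a : ℂ) * e2 1 + (b : ℂ) * e2 1 = ((-(a + b) : ℝ) : ℂ) := by
      rw [e2_one]
      push_cast
      ring
    rw [e, hn, sub_self, sg2_zero, abs_neg, abs_of_nonneg (by linarith)]
    linarith

/-- **K4_1a** (easy). Proof: `norm_mul`, `Complex.norm_real`, `abs_of_nonneg`, `mul_le_of_le_one_right`. -/
theorem hU_norm (D : Dat2 ι κ) {w : L → (κ → ZMod 2) → ℝ} (hw0 : ∀ l φ, 0 ≤ w l φ)
    {u : L → ι → ℂ} (hu : ∀ l q, ‖u l q‖ ≤ 1) (l : L) (q : ι) : ‖hU D w u l q‖ ≤ w l (D.a q) := by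
  unfold hU
  rw [norm_mul, Complex.norm_real, Real.norm_eq_abs, abs_of_nonneg (hw0 l _)]
  exact mul_le_of_le_one_right (hw0 l _) (hu l q)

/-- **K4_1b** (easy). Proof as `HX_le` (MP_1a91b9_ntQ/DW/XW.lean), with `hU_norm`. -/
theorem HU_le (D : Dat2 ι κ) (Λ : LS2 L ι κ) {w : L → (κ → ZMod 2) → ℝ}
    (hw0 : ∀ l φ, 0 ≤ w l φ) {u : L → ι → ℂ} (hu : ∀ l q, ‖u l q‖ ≤ 1)
    (U : Finset L) (b : L → Finset ι) (q : ι) :
    ‖HG D Λ (hU D w u) U b q‖ ≤ ∑ l ∈ U, w l (D.a q) := by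
  unfold HG
  refine (norm_sum_le _ _).trans ?_
  refine sum_le_sum fun l _ => ?_
  rw [norm_mul, norm_e2, mul_one]
  exact hU_norm D hw0 hu l q

/-- **K4_1c** (medium-). The bound for the local factor, the analogue of `HX_bd` (MP_1a91b9_ntQ/DW/XW.lean); now
the weights at `0` are only at least `θ`, and the two labels have the same factor `u`.
Proof. `chB_sum D Λ b l l' q hT` and `xq_sub D hD Λ b l l' q hq` as there (`hT` from `TT_sub` and `hB`); so with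
`s = sg (xq D Λ b l q - xq D Λ b l' q)` the right side is `((M - 1) + (1 - if D.a q = 0 then 2 ^ card κ * (1 - s)
else 0)) / M`. If `D.a q ≠ 0` it is `1`, and `HU_le`, `hU1` give the claim. If `D.a q = 0` it is
`1 - (2 ^ card κ / M) * (1 - s) ≥ 1 - θ * (1 - s)` (`hMθ`, `0 ≤ 1 - s`). The sum `HG` is the sum of the terms of
`l`, `l'` and of the rest (`add_sum_erase` twice, as in the private `xw_norm_sum`), the rest is at most the sum of
the `w k 0` over the rest in absolute value, and the two terms together are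
`u l q * (w l 0 * e2 (xq l) + w l' 0 * e2 (xq l'))` (`hul`), of absolute value at most
`|w l 0 * sg (xq l) + w l' 0 * sg (xq l')| ≤ w l 0 + w l' 0 - θ * (1 - s)` (`e2 x = (sg x : ℂ)` by definition; if
`xq l = xq l'` then `s = 1`; otherwise `s = -1`, the two signs are opposite, and
`|w l 0 - w l' 0| ≤ w l 0 + w l' 0 - 2 θ` because both are at least `θ`). The sum of all the weights is at most
`1`. -/
theorem HU_bd (D : Dat2 ι κ) (hD : D.Sym) (Λ : LS2 L ι κ) (hB : Λ.B = ∅)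
    {w : L → (κ → ZMod 2) → ℝ} (hw0 : ∀ l φ, 0 ≤ w l φ) {θ : ℝ} (hθ : 0 < θ)
    (hwz : ∀ l, θ ≤ w l 0) {u : L → ι → ℂ} (hu : ∀ l q, ‖u l q‖ ≤ 1)
    (U : Finset L) (hU1 : ∀ φ, ∑ l ∈ U, w l φ ≤ 1) {M : ℕ} (hM : 1 ≤ M)
    (hMθ : 2 ^ Fintype.card κ / (M : ℝ) ≤ θ) (b : L → Finset ι) (l l' : L) (hl : l ∈ U)
    (hl' : l' ∈ U) (hne : l ≠ l') (hul : ∀ q, u l q = u l' q) (q : ι) (hq : q ∉ uni b) :
    ‖HG D Λ (hU D w u) U b q‖ ≤ ((M - 1 : ℝ) + ∑ i, chB D Λ b l l' i q) / M := by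
  have hM0 : (0 : ℝ) < M := by exact_mod_cast (by omega : 0 < M)
  have hT : q ∉ TT Λ b l l' := fun h1 => by
    rcases mem_union.1 (TT_sub Λ b l l' h1) with h2 | h2
    · rw [hB] at h2
      exact absurd h2 (notMem_empty _)
    · exact hq h2
  have hx := xq_sub D hD Λ b l l' q hq
  rw [chB_sum D Λ b l l' q hT, ← hx, le_div_iff₀ hM0]
  split_ifs with h0
  · have hl1 : l' ∈ U.erase l := mem_erase.2 ⟨hne.symm, hl'⟩
    obtain ⟨s, hs⟩ : ∃ s : ℝ, s = sg (xq D Λ b l q - xq D Λ b l' q) := ⟨_, rfl⟩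
    have hs1 : 0 ≤ 1 - s := by
      have h2 : ∀ x : ZMod 2, x = 0 ∨ x = 1 := by decide
      rw [hs]
      rcases h2 (xq D Λ b l q - xq D Λ b l' q) with h3 | h3
      · rw [h3, sg2_zero]
        norm_num
      · rw [h3, MP_1a91b9_ntQ.sg2_one]
        norm_num
    have hsum : w l 0 + (w l' 0 + ∑ k ∈ (U.erase l).erase l', w k 0) ≤ 1 := by
      rw [add_sum_erase (U.erase l) (fun k => w k 0) hl1, add_sum_erase U (fun k => w k 0) hl]
      exact hU1 0
    have e1 : HG D Λ (hU D w u) U b q = u l q * (((w l 0 : ℝ) : ℂ) * e2 (xq D Λ b l q) +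
        ((w l' 0 : ℝ) : ℂ) * e2 (xq D Λ b l' q)) +
        ∑ k ∈ (U.erase l).erase l', hU D w u k q * e2 (xq D Λ b k q) := by
      unfold HG
      rw [← add_sum_erase U _ hl, ← add_sum_erase (U.erase l) _ hl1, ← add_assoc]
      refine congrArg (fun z => z + ∑ k ∈ (U.erase l).erase l', hU D w u k q * e2 (xq D Λ b k q)) ?_
      unfold hU
      rw [h0, ← hul q]
      ring
    have h2 : ‖∑ k ∈ (U.erase l).erase l', hU D w u k q * e2 (xq D Λ b k q)‖ ≤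
        ∑ k ∈ (U.erase l).erase l', w k 0 := by
      refine (norm_sum_le _ _).trans (sum_le_sum fun k _ => ?_)
      rw [norm_mul, norm_e2, mul_one]
      have h3 := hU_norm D hw0 hu k q
      rw [h0] at h3
      exact h3
    have h3 := K4_1_two (hwz l) (hwz l') hθ (xq D Λ b l q) (xq D Λ b l' q)
    rw [← hs] at h3
    have h4 : ‖u l q * (((w l 0 : ℝ) : ℂ) * e2 (xq D Λ b l q) +
        ((w l' 0 : ℝ) : ℂ) * e2 (xq D Λ b l' q))‖ ≤ w l 0 + w l' 0 - θ * (1 - s) := by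
      rw [norm_mul]
      exact (mul_le_of_le_one_left (norm_nonneg _) (hu l q)).trans h3
    have h5 : ‖HG D Λ (hU D w u) U b q‖ ≤ 1 - θ * (1 - s) := by
      rw [e1]
      have h6 := norm_add_le (u l q * (((w l 0 : ℝ) : ℂ) * e2 (xq D Λ b l q) +
        ((w l' 0 : ℝ) : ℂ) * e2 (xq D Λ b l' q)))
        (∑ k ∈ (U.erase l).erase l', hU D w u k q * e2 (xq D Λ b k q))
      linarith
    have h6 : (2 : ℝ) ^ Fintype.card κ ≤ θ * M := by
      rwa [div_le_iff₀ hM0] at hMθ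
    have h7 : ‖HG D Λ (hU D w u) U b q‖ * M ≤ (1 - θ * (1 - s)) * M :=
      mul_le_mul_of_nonneg_right h5 hM0.le
    have h8 : (2 : ℝ) ^ Fintype.card κ * (1 - s) ≤ θ * M * (1 - s) :=
      mul_le_mul_of_nonneg_right h6 hs1
    rw [← hs]
    linarith
  · have h3 : ‖HG D Λ (hU D w u) U b q‖ ≤ 1 := (HU_le D Λ hw0 hu U b q).trans (hU1 _)
    have h5 : ‖HG D Λ (hU D w u) U b q‖ * M ≤ 1 * M := mul_le_mul_of_nonneg_right h3 hM0.le
    linarith

end

end Pool.Agent.Lib.MP_1a91b9_ntDV.G4
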