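import Pool.Agent.Lib.MP_1a91b9_ntDV.E1
import Pool.Agent.Lib.MP_1a91b9_ntDV.K4_0

set_option autoImplicit false
set_option linter.unusedSectionVars false

namespace Pool.Agent.Lib.MP_1a91b9_ntDV.G4

open Finset Pool.Agent.Lib.MP_1a91b9_ntH Pool.Agent.Lib.MP_1a91b9_ntQ Pool.Agent.Lib.MP_1a91b9_ntQ.Da
  Pool.Agent.Lib.MP_1a91b9_ntQ.M Pool.Agent.Lib.MP_1a91b9_ntM Pool.Agent.Lib.MP_1a91b9_ntM.E

noncomputable section

variable {A : Type} [Fintype A] [DecidableEq A] {k : A → ℕ} {ι : Type} [DecidableEq ι]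
  {κ : Type} [Fintype κ] [DecidableEq κ] {E : A → Type} [∀ a, Fintype (E a)]
  [∀ a, DecidableEq (E a)] {A' : Type} [Fintype A'] [DecidableEq A'] {k' : A' → ℕ}
  {E' : A' → Type} [∀ a, Fintype (E' a)] [∀ a, DecidableEq (E' a)]

/-- **K4_7a** (easy). Proof: `diag` is `PhiP_self`; `mpos`: the product of the `2 ^ k a` is positive; `k1` is `K1P`,
`k2` is `K2P` (with `LSP_Unl`, `LSP_lk`); `w0`, `wz`, `wU` are the fields of `wtX cA σ P m`
(MP_1a91b9_ntM/E/XLab.lean). -/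
theorem qok_X (cA σ : A → κ → ZMod 2) (P : ∀ a, κ → E a → ZMod 2) (m : ∀ a, E a → Lab2 (k a)) :
    QOK (LSP ι k σ P m) (wX k cA) := by
  have hw := wtX (ι := ι) cA σ P m
  have hm : 1 ≤ ∏ a, 2 ^ k a := Nat.one_le_iff_ne_zero.2 (prod_ne_zero_iff.2 fun a _ => by positivity)
  refine
    { diag := PhiP_self
      mpos := hm
      k1 := fun U hU => K1P ((LSP_Unl σ P m U).1 hU)
      k2 := fun U hU hc x c hx => K2P ((LSP_Unl σ P m U).1 hU) hc c fun l hl => ?_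
      w0 := hw.nonneg
      wz := hw.at_zero
      wU := hw.le_one }
  have h := hx l hl
  rwa [LSP_lk] at h

private def K4_7_jn (x : LabP k × LabP k') : LabP (Sum.elim k k') := fun s =>
  match s with
  | Sum.inl a => x.1 a
  | Sum.inr a => x.2 a

private theorem K4_7_inj {x y : LabP k × LabP k'} (h : K4_7_jn x = K4_7_jn y) : x = y := by
  refine Prod.ext ?_ ?_
  · funext a
    exact congrFun h (Sum.inl a)
  · funext a
    exact congrFun h (Sum.inr a)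

private theorem K4_7_QP (x y : LabP k × LabP k') :
    QP (K4_7_jn x - K4_7_jn y) = QP (x.1 - y.1) + QP (x.2 - y.2) := by
  unfold QP
  rw [Fintype.sum_sum_type]
  rfl

private theorem K4_7_wX (cA : A → κ → ZMod 2) (cA' : A' → κ → ZMod 2) (x : LabP k × LabP k')
    (φ : κ → ZMod 2) : wX (Sum.elim k k') (Sum.elim cA cA') (K4_7_jn x) φ =
      wX k cA x.1 φ * wX k' cA' x.2 φ := by
  unfold wX
  rw [Fintype.prod_sum_type]
  rfl

/-- **K4_7b** (medium-). Two systems. Proof. Let `kk := Sum.elim k k' : A ⊕ A' → ℕ` and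
`cc := Sum.elim cA cA'`. A pair `x = (l, l')` gives the label `jn x : LabP kk` with `jn x (Sum.inl a) = l a` and
`jn x (Sum.inr a) = l' a` (`Sum.rec`); `jn` is injective. For `Z` as in the hypothesis the set `Z.image jn` is
`UnlP`: `QP (jn x - jn y) = QP (x.1 - y.1) + QP (x.2 - y.2)` (`Fintype.sum_sum_type`), and `LSP_lk` for the two
links. The weight is `wX kk cc (jn x) φ = wX k cA x.1 φ * wX k' cA' x.2 φ` (`Fintype.prod_sum_type`). So the claim is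
`sum_wX_le cc hU φ` (MP_1a91b9_ntM/E/XLab.lean) with `sum_image`. -/
theorem ju_X (cA σ : A → κ → ZMod 2) (P : ∀ a, κ → E a → ZMod 2) (m : ∀ a, E a → Lab2 (k a))
    (cA' σ' : A' → κ → ZMod 2) (P' : ∀ a, κ → E' a → ZMod 2) (m' : ∀ a, E' a → Lab2 (k' a)) :
    JU (LSP ι k σ P m) (LSP ι k' σ' P' m') (wX k cA) (wX k' cA') := by
  intro Z hZ φ
  have hU : UnlP (Z.image (K4_7_jn (k := k) (k' := k'))) := by
    intro p hp q hq
    rw [mem_image] at hp hq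
    obtain ⟨x, hx, rfl⟩ := hp
    obtain ⟨y, hy, rfl⟩ := hq
    rw [K4_7_QP]
    have h := hZ x hx y hy
    rwa [LSP_lk, LSP_lk] at h
  have h1 := sum_wX_le (Sum.elim cA cA') hU φ
  rw [sum_image fun x _ y _ h => K4_7_inj h] at h1
  refine le_trans (le_of_eq (sum_congr rfl fun x _ => ?_)) h1
  exact (K4_7_wX cA cA' x φ).symm

/-- **K4_7c** (easy). On a full set the factor of a label is `g q`. Proof: `qX ρ cA l q = ∑ a, Q2 (l a) * ρ (cA a) q`
is `0` by `fullX_rho hU hl h0 q`; `e2_zero`. -/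
theorem uX_full {ρ : (κ → ZMod 2) → ι → ZMod 2} (h0 : ρ 0 = 0) {cA σ : A → κ → ZMod 2}
    {P : ∀ a, κ → E a → ZMod 2} {m : ∀ a, E a → Lab2 (k a)} (g : ι → ℂ) {U : Finset (LabP k)}
    (hU : U ∈ FullW (LSP ι k σ P m) (wX k cA)) {l : LabP k} (hl : l ∈ U) (q : ι) :
    uX ρ cA g l q = g q := by
  have h : qX ρ cA l q = 0 := fullX_rho hU hl h0 q
  show g q * e2 (qX ρ cA l q) = g q
  rw [h, e2_zero, mul_one]

/-- **K4_7d** (easy). Proof: `‖e2 x‖ = 1` (`norm_e2`). -/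
theorem norm_uX {ρ : (κ → ZMod 2) → ι → ZMod 2} {cA : A → κ → ZMod 2} {g : ι → ℂ}
    (hg : ∀ q, ‖g q‖ ≤ 1) (o : Option (LabP k)) (q : ι) : ‖uO (uX ρ cA g) o q‖ ≤ 1 := by
  cases o with
  | none =>
    show ‖(1 : ℂ)‖ ≤ 1
    rw [norm_one]
  | some l =>
    show ‖g q * e2 (qX ρ cA l q)‖ ≤ 1
    rw [norm_mul, norm_e2, mul_one]
    exact hg q

/-- **K4_7e** (easy). Proof: `norm_TotW_le (wtX cA σ P m) hU φ` (MP_1a91b9_ntM/E/XMom.lean), `norm_add_le`. -/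
theorem norm_hT {D : Dat2 ι κ} {cA σ : A → κ → ZMod 2} {P : ∀ a, κ → E a → ZMod 2}
    {m : ∀ a, E a → Lab2 (k a)} {g : ι → ℂ} (hg : ∀ q, ‖g q‖ ≤ 1) {U : Finset (LabP k)}
    (hU : U ∈ FullW (LSP ι k σ P m) (wX k cA)) (q : ι) : ‖hT D cA σ P m g U q‖ ≤ 1 := by
  have h1 := norm_TotW_le (wtX cA σ P m) hU (D.a q)
  have h2 : ‖g q * TotW (LSP ι k σ P m) (wX k cA) U (D.a q)‖ ≤ 1 := by
    rw [norm_mul]
    exact mul_le_one₀ (hg q) (norm_nonneg _) h1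
  have h3 := norm_add_le (1 : ℂ) (g q * TotW (LSP ι k σ P m) (wX k cA) U (D.a q))
  rw [norm_one] at h3
  show ‖(1 + g q * TotW (LSP ι k σ P m) (wX k cA) U (D.a q)) / 2‖ ≤ 1
  rw [norm_div, Complex.norm_ofNat]
  linarith

/-- **K4_7f** (easy+). Proof: `Finset.sum_insertNone`; the term of `none` is `1 / 2`, the term of `some l` is
`w l / 2 * g q * e2 (∑ j, c l j * D.a q j)` by `uX_full`; `TotW` is the sum of the `w l * e2 (..)`
(`(LSP ι k σ P m).c = cP σ P m` by definition); `mul_sum`, `push_cast`, `ring`. With a factor `G q` for all the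
labels the sum is multiplied by `G q`. -/
theorem hO_X {ρ : (κ → ZMod 2) → ι → ZMod 2} (h0 : ρ 0 = 0) (D : Dat2 ι κ)
    {cA σ : A → κ → ZMod 2} {P : ∀ a, κ → E a → ZMod 2} {m : ∀ a, E a → Lab2 (k a)} (g : ι → ℂ)
    {U : Finset (LabP k)} (hU : U ∈ FullW (LSP ι k σ P m) (wX k cA)) (q : ι) :
    hO D (LSP ι k σ P m).c (wX k cA) (uO (uX ρ cA g)) U q = hT D cA σ P m g U q := by
  have h1 : ∑ j, cO (LSP ι k σ P m).c none j * D.a q j = 0 := sum_eq_zero fun j _ => by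
    show (0 : ZMod 2) * D.a q j = 0
    rw [zero_mul]
  have h2 : wu D (cO (LSP ι k σ P m).c) (wo (wX k cA)) (uO (uX ρ cA g)) none q = 1 / 2 := by
    show (((1 / 2 : ℝ) : ℂ)) * 1 * e2 (∑ j, cO (LSP ι k σ P m).c none j * D.a q j) = 1 / 2
    rw [h1, e2_zero]
    push_cast
    ring
  have h3 : ∀ l ∈ U, wu D (cO (LSP ι k σ P m).c) (wo (wX k cA)) (uO (uX ρ cA g)) (some l) q =
      g q / 2 * (((wX k cA l (D.a q) : ℝ) : ℂ) * e2 (∑ j, (LSP ι k σ P m).c l j * D.a q j)) := by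
    intro l hl
    show (((wX k cA l (D.a q) / 2 : ℝ)) : ℂ) * uX ρ cA g l q *
      e2 (∑ j, (LSP ι k σ P m).c l j * D.a q j) = _
    rw [uX_full h0 g hU hl q]
    push_cast
    ring
  show ∑ o ∈ insertNone U, wu D (cO (LSP ι k σ P m).c) (wo (wX k cA)) (uO (uX ρ cA g)) o q =
    (1 + g q * TotW (LSP ι k σ P m) (wX k cA) U (D.a q)) / 2
  rw [sum_insertNone, h2, sum_congr rfl h3, ← mul_sum]
  have h4 : TotW (LSP ι k σ P m) (wX k cA) U (D.a q) =
      ∑ l ∈ U, ((wX k cA l (D.a q) : ℝ) : ℂ) * e2 (∑ j, (LSP ι k σ P m).c l j * D.a q j) := rfl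
  rw [← h4]
  ring

/-- **K4_7g** (easy). Proof: `avg_BF` (E1) and `go_wu`. -/
theorem avg_PhX (D : Dat2 ι κ) (ρ : (κ → ZMod 2) → ι → ZMod 2) (cA σ : A → κ → ZMod 2)
    (P : ∀ a, κ → E a → ZMod 2) (m : ∀ a, E a → Lab2 (k a)) (g : ι → ℂ) (S : Finset ι) :
    avg (PhX D ρ cA σ P m g) S =
      BF D (Po (LSP ι k σ P m).Phi) (wu D (cO (LSP ι k σ P m).c) (wo (wX k cA)) (uO (uX ρ cA g)))
        S := by
  have h := avg_BF D (PhiP (k := k)) (wu D (cP σ P m) (wX k cA) (uX ρ cA g)) S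
  rw [go_wu] at h
  exact h

/-- **K4_7h** (easy+). Proof: `avg` of a sum is the sum (`sum_comm`, `sum_div`), and
`∑ T ∈ S.powerset, ∏ q ∈ T, h q = ∏ q ∈ S, (1 + h q)` (`Finset.prod_one_add` or `Finset.prod_add`), divided by
`2 ^ S.card = ∏ q ∈ S, 2` (`prod_div_distrib`). -/
theorem avg_PsX (D : Dat2 ι κ) (cA σ : A → κ → ZMod 2)
    (P : ∀ a, κ → E a → ZMod 2) (m : ∀ a, E a → Lab2 (k a)) (g : ι → ℂ) (S : Finset ι) :
    avg (PsX D cA σ P m g) S = ∑ U ∈ FullW (LSP ι k σ P m) (wX k cA),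
      ∏ q ∈ S, hT D cA σ P m g U q := by
  show (∑ T ∈ S.powerset, ∑ U ∈ FullW (LSP ι k σ P m) (wX k cA),
    ∏ q ∈ T, g q * TotW (LSP ι k σ P m) (wX k cA) U (D.a q)) / 2 ^ S.card = _
  rw [sum_comm, sum_div]
  refine sum_congr rfl fun U _ => ?_
  rw [← prod_one_add, ← prod_const, ← prod_div_distrib]
  rfl

end

end Pool.Agent.Lib.MP_1a91b9_ntDV.G4
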