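import Pool.Agent.Lib.MP_1a91b9_ntDV.K4_6
import Pool.Agent.Lib.MP_1a91b9_ntDV.K4_7

set_option autoImplicit false
set_option linter.unusedSectionVars false

namespace Pool.Agent.Lib.MP_1a91b9_ntDV.G4

open Finset Pool.Agent.Lib.MP_1a91b9_ntH Pool.Agent.Lib.MP_1a91b9_ntQ Pool.Agent.Lib.MP_1a91b9_ntQ.Da
  Pool.Agent.Lib.MP_1a91b9_ntQ.M Pool.Agent.Lib.MP_1a91b9_ntM Pool.Agent.Lib.MP_1a91b9_ntM.E

noncomputable section

variable {A : Type} [Fintype A] [DecidableEq A] {k : A → ℕ} {ι : Type} [DecidableEq ι]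
  {κ : Type} [Fintype κ] [DecidableEq κ] {E : A → Type} [∀ a, Fintype (E a)]
  [∀ a, DecidableEq (E a)] [PS ι]

private theorem K4_9_Po (o p : Option (LabP k0)) : Po (LS0 ι κ).Phi o p = 0 := by
  cases o with
  | none => cases p <;> rfl
  | some l =>
    cases p with
    | none => rfl
    | some m =>
      show ∑ a : Empty, PhiQ (l a) (m a) = 0
      exact Fintype.sum_empty _

private theorem K4_9_wX (l : LabP k0) (φ : κ → ZMod 2) : wX k0 (cE κ) l φ = 1 := by
  show (∏ a : Empty, _ : ℝ) = 1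
  exact Fintype.prod_empty _

private theorem K4_9_c (o : Option (LabP k0)) (j : κ) : cO (LS0 ι κ).c o j = 0 := by
  cases o with
  | none => rfl
  | some l =>
    show cP (cE κ) (PE κ) mE l j = 0
    unfold cP
    exact Fintype.sum_empty _

private theorem K4_9_wu (D : Dat2 ι κ) (G : ι → ℂ) (o : Option (LabP k0)) (q : ι) :
    wu D (cO (LS0 ι κ).c) (wo (wX k0 (cE κ))) (fun _ q => G q) o q = G q / 2 := by
  have h1 : ∑ j, cO (LS0 ι κ).c o j * D.a q j = 0 := sum_eq_zero fun j _ => by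
    rw [K4_9_c, zero_mul]
  have h2 : wo (wX k0 (cE κ)) o (D.a q) = 1 / 2 := by
    cases o with
    | none => rfl
    | some l =>
      show wX k0 (cE κ) l (D.a q) / 2 = 1 / 2
      rw [K4_9_wX]
  show ((wo (wX k0 (cE κ)) o (D.a q) : ℝ) : ℂ) * G q *
    e2 (∑ j, cO (LS0 ι κ).c o j * D.a q j) = G q / 2
  rw [h1, h2, e2_zero]
  push_cast
  ring

/-- **K4_9a** (easy+). The system of the empty family: one label, no links. Proof. `LabP k0` has exactly one element
(`Pi.uniqueOfIsEmpty`); `(LS0 ι κ).Phi = PhiP = 0`, `(LS0 ι κ).c = cP .. = 0` and `wX k0 (cE κ) l φ = 1` because the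
sums and products over `Empty` are empty. So the exponent of `BF` is `0`, every weight is `1 / 2 * G q` (both for
`none` and for `some l`), and `∑ f : S → Option _, ∏ j, ... = ∏ j : S, (1 / 2 * G j + 1 / 2 * G j)`
(`Finset.prod_univ_sum`, `Fintype.piFinset_univ`, `Fintype.sum_option`), that is `∏ q ∈ S, G q`
(`prod_coe_sort`). -/
theorem BF_triv (D : Dat2 ι κ) (G : ι → ℂ) (S : Finset ι) :
    BF D (Po (LS0 ι κ).Phi) (wu D (cO (LS0 ι κ).c) (wo (wX k0 (cE κ))) fun _ q => G q) S =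
      ∏ q ∈ S, G q := by
  unfold BF
  simp only [K4_9_Po, K4_9_wu, zero_mul, sum_const_zero, e2_zero, mul_one]
  rw [sum_const, card_univ, Fintype.card_fun, Fintype.card_option, Fintype.card_unique,
    Fintype.card_coe, nsmul_eq_mul, prod_div_distrib, prod_const, card_univ, Fintype.card_coe,
    prod_coe_sort S G]
  push_cast
  field_simp

/-- **K4_9b** (easy+). Its sets of labels. Proof: `FullW (LS0 ι κ) (wX k0 (cE κ)) = {univ}`: `mem_FullW`,
`LS2.mem_Us`, an unlinked set with `∏ a : Empty, _ = 1` elements is `univ` (one label), and the sum of its weights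
is `1`; `hO` for `univ` is `1 / 2 * G q + 1 / 2 * G q` (`sum_insertNone`, `univ_unique`), so the function is `G`. -/
theorem full_triv {M : Type} [AddCommMonoid M] (D : Dat2 ι κ) (G : ι → ℂ) (F : (ι → ℂ) → M) :
    ∑ V ∈ FullW (LS0 ι κ) (wX k0 (cE κ)),
      F (hO D (LS0 ι κ).c (wX k0 (cE κ)) (fun _ q => G q) V) = F G := by
  have hF : FullW (LS0 ι κ) (wX k0 (cE κ)) = {univ} := by
    ext U
    rw [mem_FullW, LS2.mem_Us, mem_singleton]
    constructor
    · rintro ⟨⟨-, h1⟩, -⟩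
      refine (card_eq_iff_eq_univ U).1 ?_
      rw [h1, Fintype.card_unique]
      show ∏ a : Empty, 2 ^ k0 a = 1
      exact Fintype.prod_empty _
    · rintro rfl
      refine ⟨⟨fun l _ l' _ => ?_, ?_⟩, fun φ => ?_⟩
      · have h1 := K4_9_Po (ι := ι) (κ := κ) (some l) (some l')
        have h2 := K4_9_Po (ι := ι) (κ := κ) (some l') (some l)
        show (LS0 ι κ).Phi l l' + (LS0 ι κ).Phi l' l = 0
        have h1' : (LS0 ι κ).Phi l l' = 0 := h1
        have h2' : (LS0 ι κ).Phi l' l = 0 := h2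
        rw [h1', h2', add_zero]
      · rw [card_univ, Fintype.card_unique]
        show 1 = ∏ a : Empty, 2 ^ k0 a
        exact (Fintype.prod_empty _).symm
      · simp only [K4_9_wX]
        rw [sum_const, card_univ, Fintype.card_unique, one_smul]
  rw [hF, sum_singleton]
  congr 1
  funext q
  unfold hO
  simp only [K4_9_wu]
  rw [sum_const, card_insertNone, card_univ, Fintype.card_unique, nsmul_eq_mul]
  push_cast
  ring

/-- **K4_9c** (medium-). **The mean value with a multiplicative function.** Proof: `avg_PhX`, and `BF_triv` for the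
product `∏ q ∈ S, G q`; `pe` with `Λ = LSP ι k σ P m` and `Λ' = LS0 ι κ`, `u' = fun _ q => G q` (`qok_X` and `ju_X`
for the empty family: `LS0` is `LSP` of it by definition; the hypothesis `hu'` is `rfl`); the inner sum over the
sets of labels of `Λ'` is `full_triv D G (fun h => ∑ S ∈ Sx ι X, ∏ q ∈ S, (hO .. U q * h q))`, and `hO_X` for the
first factor. -/
theorem cross_X {D : Dat2 ι κ} (hD : D.OK) (hN : D.NV1) {ρ : (κ → ZMod 2) → ι → ZMod 2}
    (h0 : ρ 0 = 0) (cA σ : A → κ → ZMod 2) (P : ∀ a, κ → E a → ZMod 2)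
    (m : ∀ a, E a → Lab2 (k a)) {g G : ι → ℂ} (hg : ∀ q, ‖g q‖ ≤ 1) (hG : ∀ q, ‖G q‖ ≤ 1)
    (ε : ℝ) (hε : 0 < ε) : ∃ X₀ : ℕ, ∀ X : ℕ, X₀ ≤ X →
      ‖∑ S ∈ Sx ι X, avg (PhX D ρ cA σ P m g) S * ∏ q ∈ S, G q -
        ∑ U ∈ FullW (LSP ι k σ P m) (wX k cA),
          ∑ S ∈ Sx ι X, ∏ q ∈ S, (hT D cA σ P m g U q * G q)‖ ≤ ε * X := by
  obtain ⟨X₀, hX₀⟩ := pe hD hN (qok_X (ι := ι) cA σ P m)
    (qok_X (ι := ι) (cE κ) (cE κ) (PE κ) mE)
    (ju_X (ι := ι) cA σ P m (cE κ) (cE κ) (PE κ) mE) (u := uO (uX ρ cA g))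
    (u' := fun _ q => G q) (norm_uX hg) (fun _ q => hG q)
    (fun U hU l hl l' hl' q => by
      show uX ρ cA g l q = uX ρ cA g l' q
      rw [uX_full h0 g hU hl q, uX_full h0 g hU hl' q])
    (fun _ _ _ _ _ _ _ => rfl) ε hε
  refine ⟨X₀, fun X hX => ?_⟩
  refine le_of_eq_of_le ?_ (hX₀ X hX)
  congr 2
  · refine sum_congr rfl fun S _ => ?_
    rw [avg_PhX, ← BF_triv D G S]
    rfl
  · refine sum_congr rfl fun U hU => ?_
    have h1 := full_triv D G (fun h => ∑ S ∈ Sx ι X, ∏ q ∈ S,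
      (hO D (LSP ι k σ P m).c (wX k cA) (uO (uX ρ cA g)) U q * h q))
    refine Eq.trans ?_ h1.symm
    refine sum_congr rfl fun S _ => prod_congr rfl fun q _ => ?_
    rw [hO_X h0 D g hU q]

end

end Pool.Agent.Lib.MP_1a91b9_ntDV.G4
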