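import Pool.Agent.Lib.MP_1a91b9_ntDV.K4_8
import Pool.Agent.Lib.MP_1a91b9_ntDV.K4_9

set_option autoImplicit false
set_option linter.unusedSectionVars false

namespace Pool.Agent.Lib.MP_1a91b9_ntDV.G4

open Finset Pool.Agent.Lib.MP_1a91b9_ntH Pool.Agent.Lib.MP_1a91b9_ntQ Pool.Agent.Lib.MP_1a91b9_ntQ.Da
  Pool.Agent.Lib.MP_1a91b9_ntQ.M Pool.Agent.Lib.MP_1a91b9_ntM Pool.Agent.Lib.MP_1a91b9_ntM.E

noncomputable section

variable {A : Type} [Fintype A] [DecidableEq A] {k : A → ℕ} {ι : Type} [DecidableEq ι]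
  {κ : Type} [Fintype κ] [DecidableEq κ] {E : A → Type} [∀ a, Fintype (E a)]
  [∀ a, DecidableEq (E a)] [PS ι]

private theorem K4_10_max {V : Type} (F : Finset V) (p : V → ℕ → Prop)
    (h : ∀ v ∈ F, ∃ X₀ : ℕ, ∀ X : ℕ, X₀ ≤ X → p v X) :
    ∃ X₀ : ℕ, ∀ X : ℕ, X₀ ≤ X → ∀ v ∈ F, p v X := by
  choose! f hf using h
  exact ⟨F.sup f, fun X hX v hv => hf v hv X ((Finset.le_sup hv).trans hX)⟩

omit [DecidableEq ι] [PS ι] in
private theorem K4_10_sub (F G : Finset ι → ℂ) (S : Finset ι) :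
    avg (fun T => F T - G T) S = avg F S - avg G S := by
  unfold avg
  rw [sum_sub_distrib, sub_div]

omit [DecidableEq ι] [PS ι] in
private theorem K4_10_lin {M : Type} [Fintype M] (c : M → ℂ) (F : M → Finset ι → ℂ) (S : Finset ι) :
    avg (fun T => ∑ m, c m * F m T) S = ∑ m, c m * avg (F m) S := by
  unfold avg
  rw [sum_comm, sum_div]
  refine sum_congr rfl fun m _ => ?_
  rw [← mul_sum, mul_div_assoc]

/-- **K4_10a** (medium-). **The difference, for fixed labels of the border.** Proof. `avg` is linear, so with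
`a S = avg (PhX .. m g) S`, `b S = avg (PsX .. m g) S = ∑ U, ∏ q ∈ S, hT .. m g U q` (`avg_PsX`) and `a'`, `b'` for
`m'`, `g'` the sum is `∑ S, (a a' - a b' - b a' + b b')`. With `N = ∑ U, ∑ V, ∑ S, ∏ q ∈ S, (hT U q * hT' V q)`:
`∑ S, b S * b' S = N` exactly (`sum_mul_sum`, `prod_mul_distrib`, `sum_comm`), `∑ S, a a' = N + O(ε' X)` (`sq_X`),
`∑ S, a S * b' S = ∑ V, ∑ S, a S * ∏ q ∈ S, hT' V q = N + O(ε' X)` (`cross_X` with `G = hT' V`, `norm_hT`, one `X₀`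
for all `V`: the sum of the `X₀`, as in `MoX_lim`), the same for `b a'` with the roles exchanged (`mul_comm`).
`N - N - N + N = 0`. Take `ε' = ε / (3 * (1 + number of all the sets of labels))` or similar. -/
theorem de_pair {D : Dat2 ι κ} (hD : D.OK) (hN : D.NV1) {ρ : (κ → ZMod 2) → ι → ZMod 2}
    (h0 : ρ 0 = 0) (cA σ : A → κ → ZMod 2) (P : ∀ a, κ → E a → ZMod 2)
    (m m' : ∀ a, E a → Lab2 (k a)) {g g' : ι → ℂ} (hg : ∀ q, ‖g q‖ ≤ 1) (hg' : ∀ q, ‖g' q‖ ≤ 1)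
    (ε : ℝ) (hε : 0 < ε) : ∃ X₀ : ℕ, ∀ X : ℕ, X₀ ≤ X →
      ‖∑ S ∈ Sx ι X, avg (fun T => PhX D ρ cA σ P m g T - PsX D cA σ P m g T) S *
        avg (fun T => PhX D ρ cA σ P m' g' T - PsX D cA σ P m' g' T) S‖ ≤ ε * X := by
  obtain ⟨F, hF⟩ : ∃ F, F = FullW (LSP ι k σ P m) (wX k cA) := ⟨_, rfl⟩
  obtain ⟨F', hF'⟩ : ∃ F', F' = FullW (LSP ι k σ P m') (wX k cA) := ⟨_, rfl⟩
  obtain ⟨η, hη⟩ : ∃ η : ℝ, η = ε / (1 + F.card + F'.card) := ⟨_, rfl⟩
  have hpos : (0 : ℝ) < 1 + F.card + F'.card := by positivity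
  have hη0 : 0 < η := by
    rw [hη]
    exact div_pos hε hpos
  obtain ⟨X₁, h1⟩ := sq_X hD hN h0 cA σ P m m' hg hg' η hη0
  obtain ⟨X₂, h2⟩ := K4_10_max F' (fun V X => ‖∑ S ∈ Sx ι X, avg (PhX D ρ cA σ P m g) S *
      ∏ q ∈ S, hT D cA σ P m' g' V q - ∑ U ∈ F, ∑ S ∈ Sx ι X,
        ∏ q ∈ S, (hT D cA σ P m g U q * hT D cA σ P m' g' V q)‖ ≤ η * X) (by
    intro V hV
    rw [hF'] at hV
    rw [hF]
    exact cross_X hD hN h0 cA σ P m hg (fun q => norm_hT hg' hV q) η hη0)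
  obtain ⟨X₃, h3⟩ := K4_10_max F (fun U X => ‖∑ S ∈ Sx ι X, avg (PhX D ρ cA σ P m' g') S *
      ∏ q ∈ S, hT D cA σ P m g U q - ∑ V ∈ F', ∑ S ∈ Sx ι X,
        ∏ q ∈ S, (hT D cA σ P m' g' V q * hT D cA σ P m g U q)‖ ≤ η * X) (by
    intro U hU
    rw [hF] at hU
    rw [hF']
    exact cross_X hD hN h0 cA σ P m' hg' (fun q => norm_hT hg hU q) η hη0)
  refine ⟨X₁ + X₂ + X₃, fun X hX => ?_⟩
  have e1 := h1 X (by omega)
  have e2' := h2 X (by omega)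
  have e3 := h3 X (by omega)
  rw [← hF, ← hF'] at e1
  obtain ⟨N, hNdef⟩ : ∃ N : ℂ, N = ∑ U ∈ F, ∑ V ∈ F', ∑ S ∈ Sx ι X,
    ∏ q ∈ S, (hT D cA σ P m g U q * hT D cA σ P m' g' V q) := ⟨_, rfl⟩
  rw [← hNdef] at e1
  -- the mixed terms
  have hb : ∀ S, avg (PsX D cA σ P m g) S = ∑ U ∈ F, ∏ q ∈ S, hT D cA σ P m g U q := by
    intro S
    rw [avg_PsX, hF]
  have hb' : ∀ S, avg (PsX D cA σ P m' g') S = ∑ V ∈ F', ∏ q ∈ S, hT D cA σ P m' g' V q := by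
    intro S
    rw [avg_PsX, hF']
  have k2 : ‖∑ S ∈ Sx ι X, avg (PhX D ρ cA σ P m g) S * avg (PsX D cA σ P m' g') S - N‖ ≤
      F'.card * (η * X) := by
    have h4 : ∑ S ∈ Sx ι X, avg (PhX D ρ cA σ P m g) S * avg (PsX D cA σ P m' g') S - N =
        ∑ V ∈ F', (∑ S ∈ Sx ι X, avg (PhX D ρ cA σ P m g) S *
          ∏ q ∈ S, hT D cA σ P m' g' V q - ∑ U ∈ F, ∑ S ∈ Sx ι X,
            ∏ q ∈ S, (hT D cA σ P m g U q * hT D cA σ P m' g' V q)) := by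
      rw [sum_sub_distrib, hNdef]
      congr 1
      · rw [sum_comm]
        refine sum_congr rfl fun S _ => ?_
        rw [hb', mul_sum]
      · exact sum_comm
    rw [h4]
    refine (norm_sum_le _ _).trans ((sum_le_sum e2').trans (le_of_eq ?_))
    rw [sum_const, nsmul_eq_mul]
  have k3 : ‖∑ S ∈ Sx ι X, avg (PsX D cA σ P m g) S * avg (PhX D ρ cA σ P m' g') S - N‖ ≤
      F.card * (η * X) := by
    have h4 : ∑ S ∈ Sx ι X, avg (PsX D cA σ P m g) S * avg (PhX D ρ cA σ P m' g') S - N =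
        ∑ U ∈ F, (∑ S ∈ Sx ι X, avg (PhX D ρ cA σ P m' g') S *
          ∏ q ∈ S, hT D cA σ P m g U q - ∑ V ∈ F', ∑ S ∈ Sx ι X,
            ∏ q ∈ S, (hT D cA σ P m' g' V q * hT D cA σ P m g U q)) := by
      rw [sum_sub_distrib, hNdef]
      congr 1
      · rw [sum_comm]
        refine sum_congr rfl fun S _ => ?_
        rw [hb, mul_comm, mul_sum]
      · refine sum_congr rfl fun U _ => sum_congr rfl fun V _ => sum_congr rfl fun S _ =>
          prod_congr rfl fun q _ => mul_comm _ _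
    rw [h4]
    refine (norm_sum_le _ _).trans ((sum_le_sum e3).trans (le_of_eq ?_))
    rw [sum_const, nsmul_eq_mul]
  have k4 : ∑ S ∈ Sx ι X, avg (PsX D cA σ P m g) S * avg (PsX D cA σ P m' g') S = N := by
    rw [hNdef]
    have h5 : ∀ S, avg (PsX D cA σ P m g) S * avg (PsX D cA σ P m' g') S = ∑ U ∈ F, ∑ V ∈ F',
        ∏ q ∈ S, (hT D cA σ P m g U q * hT D cA σ P m' g' V q) := by
      intro S
      rw [hb, hb', sum_mul_sum]
      refine sum_congr rfl fun U _ => sum_congr rfl fun V _ => ?_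
      rw [prod_mul_distrib]
    rw [sum_congr rfl fun S _ => h5 S, sum_comm]
    refine sum_congr rfl fun U _ => ?_
    rw [sum_comm]
  have hsplit : ∑ S ∈ Sx ι X, avg (fun T => PhX D ρ cA σ P m g T - PsX D cA σ P m g T) S *
      avg (fun T => PhX D ρ cA σ P m' g' T - PsX D cA σ P m' g' T) S =
      (∑ S ∈ Sx ι X, avg (PhX D ρ cA σ P m g) S * avg (PhX D ρ cA σ P m' g') S - N) -
      (∑ S ∈ Sx ι X, avg (PhX D ρ cA σ P m g) S * avg (PsX D cA σ P m' g') S - N) -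
      (∑ S ∈ Sx ι X, avg (PsX D cA σ P m g) S * avg (PhX D ρ cA σ P m' g') S - N) := by
    have h6 : ∑ S ∈ Sx ι X, avg (fun T => PhX D ρ cA σ P m g T - PsX D cA σ P m g T) S *
        avg (fun T => PhX D ρ cA σ P m' g' T - PsX D cA σ P m' g' T) S =
        ∑ S ∈ Sx ι X, avg (PhX D ρ cA σ P m g) S * avg (PhX D ρ cA σ P m' g') S -
        ∑ S ∈ Sx ι X, avg (PhX D ρ cA σ P m g) S * avg (PsX D cA σ P m' g') S -
        ∑ S ∈ Sx ι X, avg (PsX D cA σ P m g) S * avg (PhX D ρ cA σ P m' g') S +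
        ∑ S ∈ Sx ι X, avg (PsX D cA σ P m g) S * avg (PsX D cA σ P m' g') S := by
      rw [← sum_sub_distrib, ← sum_sub_distrib, ← sum_add_distrib]
      refine sum_congr rfl fun S _ => ?_
      rw [K4_10_sub, K4_10_sub]
      ring
    rw [h6, k4]
    ring
  rw [hsplit]
  refine (norm_sub_le _ _).trans ((add_le_add (norm_sub_le _ _) k3).trans ?_)
  refine (add_le_add (add_le_add e1 k2) le_rfl).trans (le_of_eq ?_)
  have h7 : η * (1 + F.card + F'.card) = ε := by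
    rw [hη]
    exact div_mul_cancel₀ _ hpos.ne'
  rw [← h7]
  ring

/-- **K4_10b** (easy+). Proof: `DeX` is a sum over `m` with the signs `∏ a, e2 (..)` (absolute value `1`), `avg` is
linear; the product of the two mean values is a double sum over `m`, `m'`; `de_pair` with
`ε / (card ^ 2)`, one `X₀` for all the pairs. -/
theorem de_all {D : Dat2 ι κ} (hD : D.OK) (hN : D.NV1) {ρ : (κ → ZMod 2) → ι → ZMod 2}
    (h0 : ρ 0 = 0) (cA σ : A → κ → ZMod 2) (P : ∀ a, κ → E a → ZMod 2)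
    (R : ∀ a, Matrix (E a) (E a) (ZMod 2)) {g g' : ι → ℂ} (hg : ∀ q, ‖g q‖ ≤ 1)
    (hg' : ∀ q, ‖g' q‖ ≤ 1)
    (ε : ℝ) (hε : 0 < ε) : ∃ X₀ : ℕ, ∀ X : ℕ, X₀ ≤ X →
      ‖∑ S ∈ Sx ι X, avg (DeX D ρ cA σ P R k g) S * avg (DeX D ρ cA σ P R k g') S‖ ≤ ε * X := by
  obtain ⟨c, hc⟩ : ∃ c : (∀ a, E a → Lab2 (k a)) → ℂ, c = fun m => ∏ a, e2 (RF (R a) (m a)) := ⟨_, rfl⟩
  have hc1 : ∀ m, ‖c m‖ = 1 := by
    intro m
    rw [hc, norm_prod]
    exact prod_eq_one fun a _ => norm_e2 _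
  obtain ⟨n, hn⟩ : ∃ n : ℕ, n = Fintype.card (∀ a, E a → Lab2 (k a)) := ⟨_, rfl⟩
  obtain ⟨η, hη⟩ : ∃ η : ℝ, η = ε / ((n : ℝ) * n + 1) := ⟨_, rfl⟩
  have hpos : (0 : ℝ) < (n : ℝ) * n + 1 := by positivity
  have hη0 : 0 < η := by
    rw [hη]
    exact div_pos hε hpos
  obtain ⟨X₀, h1⟩ := K4_10_max (univ : Finset ((∀ a, E a → Lab2 (k a)) × (∀ a, E a → Lab2 (k a))))
    (fun x X => ‖∑ S ∈ Sx ι X, avg (fun T => PhX D ρ cA σ P x.1 g T - PsX D cA σ P x.1 g T) S *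
      avg (fun T => PhX D ρ cA σ P x.2 g' T - PsX D cA σ P x.2 g' T) S‖ ≤ η * X) (by
    intro x _
    exact de_pair hD hN h0 cA σ P x.1 x.2 hg hg' η hη0)
  refine ⟨X₀, fun X hX => ?_⟩
  have h2 := h1 X hX
  have hexp : ∀ (g : ι → ℂ) (S : Finset ι), avg (DeX D ρ cA σ P R k g) S =
      ∑ m, c m * avg (fun T => PhX D ρ cA σ P m g T - PsX D cA σ P m g T) S := by
    intro g S
    rw [hc, ← K4_10_lin]
    rfl
  have h3 : ∑ S ∈ Sx ι X, avg (DeX D ρ cA σ P R k g) S * avg (DeX D ρ cA σ P R k g') S =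
      ∑ m, ∑ m', c m * c m' *
        ∑ S ∈ Sx ι X, avg (fun T => PhX D ρ cA σ P m g T - PsX D cA σ P m g T) S *
          avg (fun T => PhX D ρ cA σ P m' g' T - PsX D cA σ P m' g' T) S := by
    have h4 : ∀ S, avg (DeX D ρ cA σ P R k g) S * avg (DeX D ρ cA σ P R k g') S =
        ∑ m, ∑ m', c m * c m' *
          (avg (fun T => PhX D ρ cA σ P m g T - PsX D cA σ P m g T) S *
            avg (fun T => PhX D ρ cA σ P m' g' T - PsX D cA σ P m' g' T) S) := by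
      intro S
      rw [hexp, hexp, sum_mul_sum]
      refine sum_congr rfl fun m _ => sum_congr rfl fun m' _ => ?_
      ring
    rw [sum_congr rfl fun S _ => h4 S, sum_comm]
    refine sum_congr rfl fun m _ => ?_
    rw [sum_comm]
    refine sum_congr rfl fun m' _ => ?_
    rw [mul_sum]
  rw [h3]
  have h5 : ∀ m m', ‖c m * c m' *
      ∑ S ∈ Sx ι X, avg (fun T => PhX D ρ cA σ P m g T - PsX D cA σ P m g T) S *
        avg (fun T => PhX D ρ cA σ P m' g' T - PsX D cA σ P m' g' T) S‖ ≤ η * X := by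
    intro m m'
    rw [norm_mul, norm_mul, hc1, hc1, one_mul, one_mul]
    exact h2 (m, m') (mem_univ _)
  refine (norm_sum_le _ _).trans ?_
  refine (sum_le_sum fun m _ => (norm_sum_le _ _).trans (sum_le_sum fun m' _ => h5 m m')).trans ?_
  rw [sum_const, sum_const, card_univ, ← hn, nsmul_eq_mul, nsmul_eq_mul]
  have h7 : ((n : ℝ) * n + 1) * η = ε := by
    rw [hη]
    exact mul_div_cancel₀ _ hpos.ne'
  rw [← h7]
  have h8 : 0 ≤ η * (X : ℝ) := by positivity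
  nlinarith

end

end Pool.Agent.Lib.MP_1a91b9_ntDV.G4
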