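import Pool.Agent.Lib.MP_1a91b9_ntDV.K4_0

set_option autoImplicit false
set_option linter.unusedSectionVars false

namespace Pool.Agent.Lib.MP_1a91b9_ntDV.G4

open Finset Pool.Agent.Lib.MP_1a91b9_ntH Pool.Agent.Lib.MP_1a91b9_ntQ Pool.Agent.Lib.MP_1a91b9_ntQ.Da
  Pool.Agent.Lib.MP_1a91b9_ntQ.M Pool.Agent.Lib.MP_1a91b9_ntM Pool.Agent.Lib.MP_1a91b9_ntM.E

noncomputable section

variable {A : Type} [Fintype A] [DecidableEq A] {ι : Type} [DecidableEq ι]
  {κ : Type} [Fintype κ] [DecidableEq κ] {E : A → Type} [∀ a, Fintype (E a)]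
  [∀ a, DecidableEq (E a)]

/-- **K4_11a** (easy). Proof: `BF`, `wu`, `uX`: every weight has the factor `g j`; `prod_mul_distrib`,
`prod_coe_sort`, `mul_sum`. -/
theorem PhX_mul {k : A → ℕ} (D : Dat2 ι κ) (ρ : (κ → ZMod 2) → ι → ZMod 2)
    (cA σ : A → κ → ZMod 2) (P : ∀ a, κ → E a → ZMod 2) (m : ∀ a, E a → Lab2 (k a)) (g : ι → ℂ)
    (T : Finset ι) :
    PhX D ρ cA σ P m g T = (∏ q ∈ T, g q) * PhX D ρ cA σ P m (fun _ => 1) T := by
  unfold PhX BF
  rw [mul_sum]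
  refine sum_congr rfl fun f _ => ?_
  have h1 : ∀ j : T, wu D (cP σ P m) (wX k cA) (uX ρ cA g) (f j) j =
      g j * wu D (cP σ P m) (wX k cA) (uX ρ cA fun _ => 1) (f j) j := fun j => by
    unfold wu uX
    ring
  rw [prod_congr rfl fun j _ => h1 j, prod_mul_distrib, prod_coe_sort T g, mul_assoc]

/-- **K4_11b** (easy). Proof: `prod_mul_distrib`, `mul_sum`. -/
theorem PsX_mul {k : A → ℕ} (D : Dat2 ι κ)
    (cA σ : A → κ → ZMod 2) (P : ∀ a, κ → E a → ZMod 2) (m : ∀ a, E a → Lab2 (k a)) (g : ι → ℂ)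
    (T : Finset ι) :
    PsX D cA σ P m g T = (∏ q ∈ T, g q) * PsX D cA σ P m (fun _ => 1) T := by
  unfold PsX
  rw [mul_sum]
  refine sum_congr rfl fun U _ => ?_
  rw [prod_mul_distrib, prod_mul_distrib, prod_const_one, one_mul]

/-- **K4_11c** (easy). Proof: `PhX_mul`, `PsX_mul`. -/
theorem DeX_mul (D : Dat2 ι κ) (ρ : (κ → ZMod 2) → ι → ZMod 2)
    (cA σ : A → κ → ZMod 2) (P : ∀ a, κ → E a → ZMod 2) (R : ∀ a, Matrix (E a) (E a) (ZMod 2))
    (k : A → ℕ) (g : ι → ℂ) (T : Finset ι) :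
    DeX D ρ cA σ P R k g T = (∏ q ∈ T, g q) * DeX D ρ cA σ P R k (fun _ => 1) T := by
  unfold DeX
  rw [mul_sum]
  refine sum_congr rfl fun m _ => ?_
  rw [PhX_mul D ρ cA σ P m g T, PsX_mul D cA σ P m g T]
  ring

/-- **K4_11d** (easy+). The product of the powers of the sizes of the kernels. Proof: `kX_prod hs` (MP_1a91b9_ntM/E/
XExp.lean) and, for every `m`, `∑ f : T → LabP k, (∏ j, wX ..) * e2 (D.eS (LSP ι k σ P m) T f + ∑ j, qX ρ cA (f j) j)
= PhX D ρ cA σ P m (fun _ => 1) T`: `D.eS` is `∑ j : T, D.lin .. (f j) j + ∑ j, ∑ l, PhiP (f j) (f l) * D.s j l`,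
`D.lin (LSP ι k σ P m) l q = ∑ j, cP σ P m l j * D.a q j` (the set `B` is empty; see `ex_lin` in EngX.lean), `e2_add`,
`e2_sum`, `prod_mul_distrib`. Then `mul_sub`, `sum_sub_distrib`. -/
theorem DeX_kX {D : Dat2 ι κ} (hs : D.Sym) (ρ : (κ → ZMod 2) → ι → ZMod 2)
    (cA σ : A → κ → ZMod 2) (P : ∀ a, κ → E a → ZMod 2) (R : ∀ a, Matrix (E a) (E a) (ZMod 2))
    (k : A → ℕ) (T : Finset ι) :
    DeX D ρ cA σ P R k (fun _ => 1) T =
      (∏ a, (kX D ρ cA σ P R a T : ℂ) ^ k a) * (∏ a, ((2 : ℂ) ^ k a) ^ Fintype.card (E a)) -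
        ∑ m : (∀ a, E a → Lab2 (k a)), (∏ a, e2 (RF (R a) (m a))) *
          PsX D cA σ P m (fun _ => 1) T := by
  have h1 : ∀ m : (∀ a, E a → Lab2 (k a)), ∑ f : T → LabP k, (∏ j : T, ((wX k cA (f j) (D.a j) : ℝ) : ℂ)) *
      e2 (D.eS (LSP ι k σ P m) T f + ∑ j : T, qX ρ cA (f j) j) = PhX D ρ cA σ P m (fun _ => 1) T := by
    intro m
    unfold PhX BF
    refine sum_congr rfl fun f _ => ?_
    have h2 : ∀ j : T, wu D (cP σ P m) (wX k cA) (uX ρ cA fun _ => 1) (f j) j =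
        ((wX k cA (f j) (D.a j) : ℝ) : ℂ) * (e2 (qX ρ cA (f j) j) * e2 (D.lin (LSP ι k σ P m) (f j) j)) := fun j => by
      have h3 : D.lin (LSP ι k σ P m) (f j) j = ∑ i, cP σ P m (f j) i * D.a j i := by
        unfold Dat2.lin Dat2.ex
        show _ + ∑ p ∈ (∅ : Finset ι), _ = _
        rw [sum_empty, add_zero]
        rfl
      unfold wu uX
      rw [h3]
      ring
    rw [prod_congr rfl fun j _ => h2 j, prod_mul_distrib, prod_mul_distrib]
    unfold Dat2.eS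
    rw [e2_add, e2_add, e2_sum univ (fun j : T => D.lin (LSP ι k σ P m) (f j) j),
      e2_sum univ (fun j : T => qX ρ cA (f j) j)]
    show _ = (∏ j : T, ((wX k cA (f j) (D.a j) : ℝ) : ℂ)) *
      ((∏ j : T, e2 (qX ρ cA (f j) j)) * ∏ j : T, e2 (D.lin (LSP ι k σ P m) (f j) j)) *
      e2 (∑ j : T, ∑ l : T, (LSP ι k σ P m).Phi (f j) (f l) * D.s j l)
    ring
  rw [kX_prod hs ρ cA σ P R T]
  unfold DeX
  rw [← sum_sub_distrib]
  refine sum_congr rfl fun m _ => ?_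
  rw [h1 m, mul_sub]

/-- **K4_11e** (easy+). The value is real. Proof: `DeX_kX`; all the terms are casts of real numbers: `e2 x` is
`((sg x : ℝ) : ℂ)` by definition, and `TotW` is a sum of products of real weights and `e2`. For example show for
every `m`, `U`, `φ` that `TotW .. U φ = ((∑ l ∈ U, wX k cA l φ * sg (..) : ℝ) : ℂ)` and use `Complex.ofReal_im`
after `push_cast` (or show `(starRingEnd ℂ) z = z` with `map_sum`, `map_prod`, `map_mul`, `Complex.conj_ofReal`,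
and `Complex.conj_eq_iff_im`). -/
theorem DeX_im {D : Dat2 ι κ} (hs : D.Sym) (ρ : (κ → ZMod 2) → ι → ZMod 2)
    (cA σ : A → κ → ZMod 2) (P : ∀ a, κ → E a → ZMod 2) (R : ∀ a, Matrix (E a) (E a) (ZMod 2))
    (k : A → ℕ) (T : Finset ι) : (DeX D ρ cA σ P R k (fun _ => 1) T).im = 0 := by
  rw [← Complex.conj_eq_iff_im, DeX_kX hs]
  have h1 : ∀ x : ZMod 2, (starRingEnd ℂ) (e2 x) = e2 x := fun x => Complex.conj_ofReal _
  unfold PsX TotW
  simp only [map_sub, map_mul, map_prod, map_sum, map_pow, Complex.conj_natCast, map_one, h1, Complex.conj_ofReal,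
    Complex.conj_ofNat]

end

end Pool.Agent.Lib.MP_1a91b9_ntDV.G4
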