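import Pool.Agent.Lib.MP_1a91b9_ntDV.E10
import Pool.Agent.Lib.MP_1a91b9_ntDV.P1
import Pool.Agent.Lib.MP_1a91b9_ntDV.K4_0

set_option autoImplicit false
set_option linter.unusedSectionVars false

namespace Pool.Agent.Lib.MP_1a91b9_ntDV.G4

open Finset Pool.Agent.Lib.MP_1a91b9_ntH Pool.Agent.Lib.MP_1a91b9_ntQ Pool.Agent.Lib.MP_1a91b9_ntQ.Da
  Pool.Agent.Lib.MP_1a91b9_ntQ.M Pool.Agent.Lib.MP_1a91b9_ntM Pool.Agent.Lib.MP_1a91b9_ntM.E

noncomputable section

variable {ι : Type} [DecidableEq ι] [PS ι] {G : Type} [AddCommGroup G] {cl : ι → G} {γ : G}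

private theorem K413_const (c : ℝ) : AVr (fun _ : Finset ι => c) c := by
  intro ε hε
  refine ⟨0, fun X _ => ?_⟩
  have h1 : ∀ S : Finset ι, avr (fun _ : Finset ι => c) S = c := by
    intro S
    unfold avr
    rw [sum_const, card_powerset, nsmul_eq_mul]
    push_cast
    rw [mul_comm, mul_div_assoc, div_self (by positivity), mul_one]
  simp only [h1, sub_self]
  rw [sum_eq_zero fun S _ => by norm_num]
  positivity

/-- **K4_13a** (easy+). The rules. Proof: `add` and `smul` are `AVr.add`, `AVr.smul`, `AVr.congr` (E9):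
`(f + h) - (v + w) = (f - v) + (h - w)`, `a * f - a * v = a * (f - v)`, cases for the `if`. `bds`:
`AVr.of_bounds` (E9): for `δ` take `l`, `u`, `vl`, `vu` of the hypothesis for `δ / 2` and the functions
`T ↦ (if .. then l T - vl else 0) + (-(δ / 2))` with the mean value `0 + (-(δ / 2))` and
`T ↦ (if .. then u T - vu else 0) + δ / 2` with the mean value `0 + δ / 2` (a constant function `c` has the mean
value `c` exactly: `avr (fun _ => c) S = c` by `Finset.card_powerset`, so `AVr (fun _ => c) c`); in the class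
`f T - v ≥ l T - v ≥ (l T - vl) - δ / 2` because `v - δ / 2 ≤ vl`, and so on. -/
theorem limP_PG (cl : ι → G) (γ : G) : LimP (PG cl γ) := by
  classical
  refine ⟨fun f h v w hf hh => ?_, fun f v a hf => ?_, fun f v H => ?_⟩
  · refine (AVr.add hf hh).congr (fun T => ?_) (by ring)
    split_ifs <;> ring
  · refine (AVr.smul hf a).congr (fun T => ?_) (by ring)
    split_ifs <;> ring
  · refine AVr.of_bounds fun δ hδ => ?_
    obtain ⟨l, u, vl, vu, hl, hu, h1, h2, h3⟩ := H (δ / 2) (by positivity)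
    refine ⟨_, _, _, _, AVr.add hl (K413_const (-(δ / 2))), AVr.add hu (K413_const (δ / 2)), ?_, ?_, fun T => ?_⟩
    · linarith
    · linarith
    · have h4 := h3 T
      constructor
      · split_ifs
        · linarith [h4.1]
        · linarith
      · split_ifs
        · linarith [h4.2]
        · linarith

/-- **K4_13b** (easy). Constants: the function is `0`. Proof: `sub_self`, `ite_self`, `AVr` of `0` (`avr 0 = 0`). -/
theorem pg_const (cl : ι → G) (γ : G) (c : ℝ) : PG cl γ (fun _ => c) c := by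
  refine (K413_const (0 : ℝ)).congr (fun T => ?_) rfl
  rw [sub_self, ite_self]

/-- **K4_13c** (easy). Only the nonempty sets of the class count. Proof: `AVr.congr_fin h1 h2` (E10) for `Y = {∅}`. -/
theorem PG.congr {C1 C2 : ℝ} (h1 : Cheb ι C1) (h2 : Zt ι C2) {f h : Finset ι → ℝ} {v v' : ℝ}
    (hf : PG cl γ f v) (hh : ∀ T : Finset ι, ∑ q ∈ T, cl q = γ → T ≠ ∅ → h T = f T)
    (hv : v' = v) : PG cl γ h v' := by
  refine AVr.congr_fin h1 h2 hf {∅} fun T hT => ?_
  have hT' : T ≠ ∅ := fun h0 => hT (by rw [h0]; exact mem_singleton_self _)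
  subst hv
  by_cases hc : ∑ q ∈ T, cl q = γ
  · rw [if_pos hc, if_pos hc, hh T hc hT']
  · rw [if_neg hc, if_neg hc]

/-- **K4_13d** (easy). Proof: `(limP_PG cl γ).sum` needs `PG cl γ (fun _ => 0) 0`, which is `pg_const`. -/
theorem PG.sum {α : Type} (s : Finset α) {f : α → Finset ι → ℝ} {v : α → ℝ}
    (h : ∀ i ∈ s, PG cl γ (f i) (v i)) : PG cl γ (fun T => ∑ i ∈ s, f i T) (∑ i ∈ s, v i) := by
  exact (limP_PG cl γ).sum s h (pg_const cl γ 0)

/-- **K4_13e** (easy+). **The products which are small.** Proof. Let `p S = ∏ q ∈ S, (1 + ‖η (D.a q)‖) / 2`, so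
`0 ≤ p S ≤ 1`. The absolute value of the mean value over the subsets of `S` of
`if .. then (∏ q ∈ T, η (D.a q)).re - 0 else 0` is at most `(∑ T ∈ S.powerset, ∏ q ∈ T, ‖η (D.a q)‖) / 2 ^ #S = p S`
(`Complex.abs_re_le_norm`, `norm_prod`, `Finset.prod_one_add`), and its square is at most `p S`. `hB` with the
function `φ ↦ (1 + ‖η φ‖) / 2` gives `∑ S, p S ≤ ε * X ≤ ε * (card + X)`. -/
theorem pg_bad {κ : Type} [Fintype κ] [DecidableEq κ] {D : Dat2 ι κ} (hB : BadX D) (cl : ι → G)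
    (γ : G) (η : (κ → ZMod 2) → ℂ) (h1 : ∀ φ, ‖η φ‖ ≤ 1) (h2 : ∃ φ, ‖η φ‖ < 1) :
    PG cl γ (fun T => (∏ q ∈ T, η (D.a q)).re) 0 := by
  classical
  intro ε hε
  obtain ⟨X₀, hX₀⟩ := hB (fun φ => (1 + ‖η φ‖) / 2) (fun φ => by positivity)
    (fun φ => by have := h1 φ; linarith) (by
      obtain ⟨φ, hφ⟩ := h2
      exact ⟨φ, by linarith⟩) ε hε
  refine ⟨X₀, fun X hX => ?_⟩
  have hb := hX₀ X hX
  have h3 : ∀ S : Finset ι, (avr (fun T => if ∑ q ∈ T, cl q = γ then (∏ q ∈ T, η (D.a q)).re - 0 else 0) S - 0) ^ 2 ≤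
      ∏ q ∈ S, (1 + ‖η (D.a q)‖) / 2 := by
    intro S
    have hF : ∀ T : Finset ι, |if ∑ q ∈ T, cl q = γ then (∏ q ∈ T, η (D.a q)).re - 0 else 0| ≤
        ∏ q ∈ T, ‖η (D.a q)‖ := by
      intro T
      split_ifs
      · rw [sub_zero, ← norm_prod]
        exact Complex.abs_re_le_norm _
      · rw [abs_zero]
        exact prod_nonneg fun q _ => norm_nonneg _
    have hp : |avr (fun T => if ∑ q ∈ T, cl q = γ then (∏ q ∈ T, η (D.a q)).re - 0 else 0) S| ≤
        ∏ q ∈ S, (1 + ‖η (D.a q)‖) / 2 := by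
      unfold avr
      rw [abs_div, abs_of_pos (by positivity : (0 : ℝ) < 2 ^ S.card), prod_div_distrib, prod_const]
      refine div_le_div_of_nonneg_right ?_ (by positivity)
      rw [prod_one_add]
      exact (abs_sum_le_sum_abs _ _).trans (sum_le_sum fun T _ => hF T)
    have hp0 : 0 ≤ ∏ q ∈ S, (1 + ‖η (D.a q)‖) / 2 := prod_nonneg fun q _ => by positivity
    have hp1 : ∏ q ∈ S, (1 + ‖η (D.a q)‖) / 2 ≤ 1 := prod_le_one (fun q _ => by positivity) fun q _ => by
      have := h1 (D.a q)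
      linarith
    rw [sub_zero, ← sq_abs]
    calc |avr (fun T => if ∑ q ∈ T, cl q = γ then (∏ q ∈ T, η (D.a q)).re - 0 else 0) S| ^ 2 ≤
        (∏ q ∈ S, (1 + ‖η (D.a q)‖) / 2) ^ 2 := pow_le_pow_left₀ (abs_nonneg _) hp 2
      _ ≤ ∏ q ∈ S, (1 + ‖η (D.a q)‖) / 2 := by nlinarith
  refine (sum_le_sum fun S _ => h3 S).trans (hb.trans ?_)
  have h4 : (X : ℝ) ≤ ((Sx ι X).card : ℝ) + X := by
    have : (0 : ℝ) ≤ ((Sx ι X).card : ℝ) := Nat.cast_nonneg _
    linarith
  exact mul_le_mul_of_nonneg_left h4 hε.le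

end

end Pool.Agent.Lib.MP_1a91b9_ntDV.G4
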