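import Pool.Agent.Lib.MP_1a91b9_ntDV.K4_10
import Pool.Agent.Lib.MP_1a91b9_ntDV.K4_11
import Pool.Agent.Lib.MP_1a91b9_ntDV.K4_12
import Pool.Agent.Lib.MP_1a91b9_ntDV.K4_13

set_option autoImplicit false
set_option linter.unusedSectionVars false

namespace Pool.Agent.Lib.MP_1a91b9_ntDV.G4

open Finset Pool.Agent.Lib.MP_1a91b9_ntH Pool.Agent.Lib.MP_1a91b9_ntQ Pool.Agent.Lib.MP_1a91b9_ntQ.Da
  Pool.Agent.Lib.MP_1a91b9_ntQ.M Pool.Agent.Lib.MP_1a91b9_ntM Pool.Agent.Lib.MP_1a91b9_ntM.E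

noncomputable section

variable {A : Type} [Fintype A] [DecidableEq A] {ι : Type} [DecidableEq ι] [PS ι]
  {κ : Type} [Fintype κ] [DecidableEq κ] {E : A → Type} [∀ a, Fintype (E a)]
  [∀ a, DecidableEq (E a)] {G : Type} [AddCommGroup G] [Fintype G]

/-- **K4_14a** (easy+). The difference, in a class. Proof: `pg_pairs` for `F T = (DeX .. (fun _ => 1) T).re`: by
`DeX_im` `(F T : ℂ) = DeX .. (fun _ => 1) T`, so `(∏ q ∈ T, ψ (C.cl q)) * (F T : ℂ) = DeX .. (fun q => ψ (C.cl q)) T`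
(`DeX_mul`), and `de_all hD hN h0 cA σ P R` with `g = fun q => ψ (C.cl q)`, `g' = fun q => ψ' (C.cl q)`
(`AddChar.norm_apply`). -/
theorem pg_DeX {D : Dat2 ι κ} (hD : D.OK) (hN : D.NV1) {ρ : (κ → ZMod 2) → ι → ZMod 2}
    (h0 : ρ 0 = 0) (cA σ : A → κ → ZMod 2) (P : ∀ a, κ → E a → ZMod 2)
    (R : ∀ a, Matrix (E a) (E a) (ZMod 2)) (k : A → ℕ) (C : Cl2 D G) (γ : G) :
    PG C.cl γ (fun T => (DeX D ρ cA σ P R k (fun _ => 1) T).re) 0 := by
  refine pg_pairs C.cl γ _ fun ψ ψ' ε hε => ?_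
  have hre : ∀ T, (((DeX D ρ cA σ P R k (fun _ => 1) T).re : ℝ) : ℂ) = DeX D ρ cA σ P R k (fun _ => 1) T := by
    intro T
    refine Complex.ext (Complex.ofReal_re _) ?_
    rw [Complex.ofReal_im, DeX_im hD.sym]
  have h1 : ∀ χ : AddChar G ℂ, (fun T : Finset ι => (∏ q ∈ T, χ (C.cl q)) *
      (((DeX D ρ cA σ P R k (fun _ => 1) T).re : ℝ) : ℂ)) = DeX D ρ cA σ P R k (fun q => χ (C.cl q)) := by
    intro χ
    funext T
    rw [hre, ← DeX_mul]
  obtain ⟨X₀, h⟩ := de_all (k := k) hD hN h0 cA σ P R (g := fun q => ψ (C.cl q)) (g' := fun q => ψ' (C.cl q))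
    (fun q => (AddChar.norm_apply ψ _).le) (fun q => (AddChar.norm_apply ψ' _).le) ε hε
  refine ⟨X₀, fun X hX => ?_⟩
  rw [h1, h1]
  exact h X hX

/-- `∏ kX ^ k` in a class, exactly. -/
private theorem K414_exact {D : Dat2 ι κ} (hs : D.Sym) {ρ : (κ → ZMod 2) → ι → ZMod 2}
    {cA σ : A → κ → ZMod 2} {P : ∀ a, κ → E a → ZMod 2}
    {R : ∀ a, Matrix (E a) (E a) (ZMod 2)} {k : A → ℕ} (hC : CntX ι k cA σ P R) (C : Cl2 D G)
    (γ : G) (gd : (∀ a, E a → Lab2 (k a)) → Finset (LabP k) → Prop) [∀ m U, Decidable (gd m U)]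
    (hgd : ∀ m U, gd m U ↔ ∃ c : κ → ZMod 2, ∀ φ, TotW (LSP ι k σ P m) (wX k cA) U φ = e2 (∑ j, c j * φ j))
    (T : Finset ι) (hT : ∑ q ∈ T, C.cl q = γ) :
    (∏ a, (kX D ρ cA σ P R a T : ℂ) ^ k a) * (∏ a, ((2 : ℂ) ^ k a) ^ Fintype.card (E a)) =
      DeX D ρ cA σ P R k (fun _ => 1) T +
        (∏ a, ((Nk2 (k a) : ℂ) * (tX cA σ P R (fun j => C.A j γ) a : ℂ) ^ k a *
          ((2 : ℂ) ^ k a) ^ Fintype.card (E a))) +
        ∑ m : (∀ a, E a → Lab2 (k a)), ∑ U ∈ FullW (LSP ι k σ P m) (wX k cA),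
          (∏ a, e2 (RF (R a) (m a))) * (if gd m U then 0 else
            ∏ q ∈ T, TotW (LSP ι k σ P m) (wX k cA) U (D.a q)) := by
  classical
  have hPs : ∀ m : (∀ a, E a → Lab2 (k a)), PsX D cA σ P m (fun _ => 1) T =
      (∑ U ∈ FullW (LSP ι k σ P m) (wX k cA), ∑ c ∈ GcX (TotW (LSP ι k σ P m) (wX k cA) U),
        e2 (∑ j, c j * C.A j γ)) +
      ∑ U ∈ FullW (LSP ι k σ P m) (wX k cA), (if gd m U then 0 else
        ∏ q ∈ T, TotW (LSP ι k σ P m) (wX k cA) U (D.a q)) := by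
    intro m
    unfold PsX
    rw [← sum_add_distrib]
    refine sum_congr rfl fun U _ => ?_
    rw [prod_congr rfl fun q _ => one_mul (TotW (LSP ι k σ P m) (wX k cA) U (D.a q))]
    by_cases hg : gd m U
    · obtain ⟨c, hc⟩ := (hgd m U).1 hg
      have h3 : GcX (TotW (LSP ι k σ P m) (wX k cA) U) = {c} := by
        ext c'
        rw [mem_GcX, mem_singleton]
        constructor
        · intro h4
          exact e2_ext fun φ => by rw [← h4 φ, hc φ]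
        · rintro rfl
          exact hc
      rw [if_pos hg, add_zero, h3, sum_singleton, prod_congr rfl fun q _ => hc (D.a q), ← e2_sum, sum_comm]
      congr 1
      refine sum_congr rfl fun j _ => ?_
      rw [← mul_sum, ← hT, map_sum]
      congr 1
      exact sum_congr rfl fun q _ => C.ha q j
    · have h3 : GcX (TotW (LSP ι k σ P m) (wX k cA) U) = ∅ := by
        rw [eq_empty_iff_forall_notMem]
        exact fun c hc => hg ((hgd m U).2 ⟨c, mem_GcX.1 hc⟩)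
      rw [if_neg hg, h3, sum_empty, zero_add]
  rw [DeX_kX hs, ← hC.cnt]
  have h5 : ∑ m : (∀ a, E a → Lab2 (k a)), (∏ a, e2 (RF (R a) (m a))) * PsX D cA σ P m (fun _ => 1) T =
      (∑ m : (∀ a, E a → Lab2 (k a)), (∏ a, e2 (RF (R a) (m a))) *
        ∑ U ∈ FullW (LSP ι k σ P m) (wX k cA), ∑ c ∈ GcX (TotW (LSP ι k σ P m) (wX k cA) U),
          e2 (∑ j, c j * C.A j γ)) +
      ∑ m : (∀ a, E a → Lab2 (k a)), ∑ U ∈ FullW (LSP ι k σ P m) (wX k cA),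
          (∏ a, e2 (RF (R a) (m a))) * (if gd m U then 0 else
            ∏ q ∈ T, TotW (LSP ι k σ P m) (wX k cA) U (D.a q)) := by
    rw [← sum_add_distrib]
    refine sum_congr rfl fun m _ => ?_
    rw [hPs m, mul_add, mul_sum (s := FullW (LSP ι k σ P m) (wX k cA))
      (f := fun U => if gd m U then (0 : ℂ) else ∏ q ∈ T, TotW (LSP ι k σ P m) (wX k cA) U (D.a q))]
  rw [h5]
  ring

/-- **K4_14b** (medium). **The joint moments of the sizes of the kernels, in a class.**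
Proof, as for `sum_kX` (MP_1a91b9_ntM/E/XMom.lean). `hC := cntXI k ι hF` (MP_1a91b9_ntM/E/XCntI.lean), `α j = C.A j γ`,
`W = ∏ a, (2 ^ k a) ^ card (E a)` (real, `≥ 1`), `t = ∏ a, tX .. α a ^ k a`, `N = ∏ a, Nk2 (k a)`, `T₀ m U φ = TotW
(LSP ι k σ P m) (wX k cA) U φ`. A set `U ∈ FullW ..` is good if `∃ c, ∀ φ, T₀ m U φ = e2 (∑ j, c j * φ j)`, otherwise
`∃ φ, ‖T₀ m U φ‖ < 1` (`hC.dich`). For `T` in the class `γ`: for a good `U` the product `∏ q ∈ T, T₀ m U (D.a q)` is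
`e2 (∑ j, c j * α j) = ∑ c ∈ GcX (T₀ m U), e2 (∑ j, c j * α j)` (proof as `prod_good`; `GcX = {c}` by `e2_ext`), and
for a bad `U` `GcX (T₀ m U) = ∅`. So by `hC.cnt α` and `DeX_kX hD.sym` (real parts; the sign `∏ a, e2 (..)` is real):
`(DeX .. (fun _ => 1) T).re = W * ∏ kX ^ k - W * (t * N) - ∑ m, ∑ U bad, sgn m * (∏ q ∈ T, T₀ m U (D.a q)).re`
(`sgn m = ∏ a, sg (RF (R a) (m a))`; in the main term of `PsX` the factor `(fun _ => 1) q` is `1`). `pg_bad (badX hD hN)`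
for the bad sets (`norm_TotW_le (hC.wt m)`), `(limP_PG _ _).smul`, `PG.sum`, `.add`, `pg_DeX`, `pg_const`: the mean
value of `W * ∏ kX ^ k` is `W * (t * N)`; then `smul` with `W⁻¹`. To rewrite the function use `PG.congr` (with
`hD.cheb`, `hD.zt`): only `T` in the class count. -/
theorem pg_kX {D : Dat2 ι κ} (hD : D.OK) (hN : D.NV1) {ρ : (κ → ZMod 2) → ι → ZMod 2}
    (h0 : ρ 0 = 0) {cA σ : A → κ → ZMod 2} {P : ∀ a, κ → E a → ZMod 2}
    {R : ∀ a, Matrix (E a) (E a) (ZMod 2)} (hF : FamX cA σ P R) (k : A → ℕ) (C : Cl2 D G)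
    (γ : G) : PG C.cl γ (fun T => ∏ a, (kX D ρ cA σ P R a T : ℝ) ^ k a)
      ((∏ a, (tX cA σ P R (fun j => C.A j γ) a : ℝ) ^ k a) * ∏ a, (Nk2 (k a) : ℝ)) := by
  classical
  obtain ⟨C1, hC1⟩ := hD.cheb
  obtain ⟨C2, hC2⟩ := hD.zt
  have hC := cntXI k ι hF
  obtain ⟨t, ht⟩ : ∃ t : ℝ, t = (∏ a, (tX cA σ P R (fun j => C.A j γ) a : ℝ) ^ k a) * ∏ a, (Nk2 (k a) : ℝ) :=
    ⟨_, rfl⟩
  obtain ⟨W, hW⟩ : ∃ W : ℝ, W = ∏ a, ((2 : ℝ) ^ k a) ^ Fintype.card (E a) := ⟨_, rfl⟩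
  have hW0 : W ≠ 0 := by
    rw [hW]
    exact prod_ne_zero_iff.2 fun a _ => pow_ne_zero _ (pow_ne_zero _ two_ne_zero)
  have hWc : ((W : ℝ) : ℂ) = ∏ a, ((2 : ℂ) ^ k a) ^ Fintype.card (E a) := by
    rw [hW]
    push_cast
    rfl
  obtain ⟨gd, hgd⟩ : ∃ gd : (∀ a, E a → Lab2 (k a)) → Finset (LabP k) → Prop,
      ∀ m U, gd m U ↔ ∃ c : κ → ZMod 2, ∀ φ, TotW (LSP ι k σ P m) (wX k cA) U φ = e2 (∑ j, c j * φ j) :=
    ⟨_, fun _ _ => Iff.rfl⟩
  obtain ⟨sgn, hsgn⟩ : ∃ sgn : (∀ a, E a → Lab2 (k a)) → ℝ,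
      ∀ m, ((sgn m : ℝ) : ℂ) = ∏ a, e2 (RF (R a) (m a)) := by
    refine ⟨fun m => ∏ a, sg (RF (R a) (m a)), fun m => ?_⟩
    rw [Complex.ofReal_prod]
    rfl
  obtain ⟨bad, hbad⟩ : ∃ bad : (∀ a, E a → Lab2 (k a)) → Finset (LabP k) → Finset ι → ℝ,
      ∀ m U T, bad m U T = if gd m U then 0 else
        (∏ q ∈ T, TotW (LSP ι k σ P m) (wX k cA) U (D.a q)).re := ⟨_, fun _ _ _ => rfl⟩
  -- the mean value of the right side
  have h1 : PG C.cl γ (fun T => W * t + (DeX D ρ cA σ P R k (fun _ => 1) T).re +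
      ∑ m : (∀ a, E a → Lab2 (k a)), ∑ U ∈ FullW (LSP ι k σ P m) (wX k cA), sgn m * bad m U T)
      (W * t + 0 + ∑ m : (∀ a, E a → Lab2 (k a)), ∑ U ∈ FullW (LSP ι k σ P m) (wX k cA), 0) := by
    refine (limP_PG C.cl γ).add _ _ _ _ ((limP_PG C.cl γ).add _ _ _ _ (pg_const C.cl γ _)
      (pg_DeX hD hN h0 cA σ P R k C γ)) (PG.sum _ fun m _ => PG.sum _ fun U hU => ?_)
    have h2 : PG C.cl γ (bad m U) 0 := by
      by_cases hg : gd m U
      · have h3 : bad m U = fun _ => 0 := by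
          funext T
          rw [hbad, if_pos hg]
        rw [h3]
        exact pg_const C.cl γ 0
      · have h3 : bad m U = fun T => (∏ q ∈ T, TotW (LSP ι k σ P m) (wX k cA) U (D.a q)).re := by
          funext T
          rw [hbad, if_neg hg]
        rw [h3]
        exact pg_bad (badX hD hN) C.cl γ _ (fun φ => norm_TotW_le (hC.wt m) hU φ)
          ((hC.dich m U hU).resolve_left fun h => hg ((hgd m U).2 h))
    have h4 := (limP_PG C.cl γ).smul _ _ (sgn m) h2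
    rw [mul_zero] at h4
    exact h4
  have h5 : PG C.cl γ (fun T => W * ∏ a, (kX D ρ cA σ P R a T : ℝ) ^ k a) (W * t) := by
    refine PG.congr hC1 hC2 h1 (fun T hT _ => ?_) ?_
    · have h6 := K414_exact hD.sym hC (ρ := ρ) C γ gd hgd T hT
      have h7 : (∏ a, ((Nk2 (k a) : ℂ) * (tX cA σ P R (fun j => C.A j γ) a : ℂ) ^ k a *
          ((2 : ℂ) ^ k a) ^ Fintype.card (E a))) = ((W * t : ℝ) : ℂ) := by
        rw [prod_mul_distrib, prod_mul_distrib, ← hWc, ht]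
        push_cast
        ring
      have h8 : (∏ a, (kX D ρ cA σ P R a T : ℂ) ^ k a) * (∏ a, ((2 : ℂ) ^ k a) ^ Fintype.card (E a)) =
          ((W * ∏ a, (kX D ρ cA σ P R a T : ℝ) ^ k a : ℝ) : ℂ) := by
        rw [← hWc]
        push_cast
        ring
      rw [h7, h8] at h6
      have h9 := congrArg Complex.re h6
      rw [Complex.ofReal_re, Complex.add_re, Complex.add_re, Complex.ofReal_re, Complex.re_sum] at h9
      rw [h9, add_comm (W * t)]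
      congr 1
      refine sum_congr rfl fun m _ => ?_
      rw [Complex.re_sum]
      refine sum_congr rfl fun U _ => ?_
      rw [← hsgn m, Complex.re_ofReal_mul, hbad]
      split_ifs
      · rw [Complex.zero_re]
      · rfl
    · rw [sum_eq_zero fun m _ => sum_const_zero, add_zero, add_zero]
  have h10 := (limP_PG C.cl γ).smul _ _ W⁻¹ h5
  have h11 : (fun T => W⁻¹ * (W * ∏ a, (kX D ρ cA σ P R a T : ℝ) ^ k a)) =
      fun T => ∏ a, (kX D ρ cA σ P R a T : ℝ) ^ k a := by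
    funext T
    exact inv_mul_cancel_left₀ hW0 _
  rw [h11, inv_mul_cancel_left₀ hW0, ht] at h10
  exact h10

/-- **K4_14c** (easy+). **The normalised sizes.** Proof: for `T ≠ ∅` in the class `kX = tX * nX` (`kX_mul h0 .. a hT hα`,
with `hα` as in `mvX`, MP_1a91b9_ntM/E/XMom.lean), so `∏ kX ^ k = t * ∏ nX ^ k` with `t = ∏ tX ^ k ≠ 0`; `PG.congr` and
`smul` with `t⁻¹`. -/
theorem pg_nX {D : Dat2 ι κ} (hD : D.OK) (hN : D.NV1) {ρ : (κ → ZMod 2) → ι → ZMod 2}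
    (h0 : ρ 0 = 0) {cA σ : A → κ → ZMod 2} {P : ∀ a, κ → E a → ZMod 2}
    {R : ∀ a, Matrix (E a) (E a) (ZMod 2)} (hF : FamX cA σ P R) (k : A → ℕ) (C : Cl2 D G)
    (γ : G) : PG C.cl γ
      (fun T => ∏ a, (nX D ρ cA σ P R (fun j => C.A j γ) a T : ℝ) ^ k a)
      (∏ a, (Nk2 (k a) : ℝ)) := by
  classical
  obtain ⟨C1, hC1⟩ := hD.cheb
  obtain ⟨C2, hC2⟩ := hD.zt
  obtain ⟨t, ht⟩ : ∃ t : ℝ, t = ∏ a, (tX cA σ P R (fun j => C.A j γ) a : ℝ) ^ k a := ⟨_, rfl⟩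
  have ht0 : t ≠ 0 := by
    rw [ht]
    refine prod_ne_zero_iff.2 fun a _ => pow_ne_zero _ ?_
    rcases tX_cases cA σ P R (fun j => C.A j γ) a with h | h <;> rw [h] <;> norm_num
  have h1 := pg_kX hD hN h0 hF k C γ
  rw [← ht] at h1
  have h2 : PG C.cl γ (fun T => t * ∏ a, (nX D ρ cA σ P R (fun j => C.A j γ) a T : ℝ) ^ k a)
      (t * ∏ a, (Nk2 (k a) : ℝ)) := by
    refine PG.congr hC1 hC2 h1 (fun T hT hne => ?_) rfl
    rw [ht, ← prod_mul_distrib]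
    refine prod_congr rfl fun a _ => ?_
    have h3 : ∀ j, ∑ q ∈ T, D.a q j = C.A j γ := by
      intro j
      rw [← hT, map_sum]
      exact sum_congr rfl fun q _ => C.ha q j
    rw [kX_mul h0 cA σ P R (α := fun j => C.A j γ) a hne h3]
    push_cast
    rw [mul_pow]
  have h10 := (limP_PG C.cl γ).smul _ _ t⁻¹ h2
  have h11 : (fun T => t⁻¹ * (t * ∏ a, (nX D ρ cA σ P R (fun j => C.A j γ) a T : ℝ) ^ k a)) =
      fun T => ∏ a, (nX D ρ cA σ P R (fun j => C.A j γ) a T : ℝ) ^ k a := by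
    funext T
    exact inv_mul_cancel_left₀ ht0 _
  rw [h11, inv_mul_cancel_left₀ ht0] at h10
  exact h10

/-- **K4_14d** (easy). **The probability that all the matrices are nonsingular.** Proof: `(limP_PG _ _).Nk` (P1) with
`nX_pow` and `pg_nX`. -/
theorem pg_one {D : Dat2 ι κ} (hD : D.OK) (hN : D.NV1) {ρ : (κ → ZMod 2) → ι → ZMod 2}
    (h0 : ρ 0 = 0) {cA σ : A → κ → ZMod 2} {P : ∀ a, κ → E a → ZMod 2}
    {R : ∀ a, Matrix (E a) (E a) (ZMod 2)} (hF : FamX cA σ P R) (C : Cl2 D G)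
    (γ : G) : PG C.cl γ
      (fun T => ∏ a, if nX D ρ cA σ P R (fun j => C.A j γ) a T = 1 then (1 : ℝ) else 0)
      (cinf2 ^ Fintype.card A) := by
  exact (limP_PG C.cl γ).Nk (x := fun a T => nX D ρ cA σ P R (fun j => C.A j γ) a T)
    (fun a T => nX_pow D ρ cA σ P R (fun j => C.A j γ) a T) fun k => pg_nX hD hN h0 hF k C γ

end

end Pool.Agent.Lib.MP_1a91b9_ntDV.G4
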