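import Pool.Agent.Lib.MP_1a91b9_ntDV.K4_14

set_option autoImplicit false
set_option linter.unusedSectionVars false

namespace Pool.Agent.Lib.MP_1a91b9_ntDV.G4

open Finset Pool.Agent.Lib.MP_1a91b9_ntH Pool.Agent.Lib.MP_1a91b9_ntQ Pool.Agent.Lib.MP_1a91b9_ntQ.Da
  Pool.Agent.Lib.MP_1a91b9_ntQ.M Pool.Agent.Lib.MP_1a91b9_ntM Pool.Agent.Lib.MP_1a91b9_ntM.E

noncomputable section

variable {A : Type} [Fintype A] [DecidableEq A] {ι : Type} [DecidableEq ι] [PS ι]
  {κ : Type} [Fintype κ] [DecidableEq κ] {E : A → Type} [∀ a, Fintype (E a)]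
  [∀ a, DecidableEq (E a)] {G : Type} [AddCommGroup G] [Fintype G]

open Classical in
/-- **K4_15** (medium, a copy). **The joint densities with the second matrices.**
Proof. As `ml_sy` and `densX` (MP_1a91b9_ntM/E/XDen.lean), with `PG C.cl γ` in place of `ML (SB ∅ C.cl γ)`: `h1` is
`pg_one hD hN h0` for the family of the systems `sy3 (P a) (R a) (z a) (s a)` (`⟨hF.sg, bd, sym⟩` from `sy3_OK`), `h2`
is `PG.sum` and `(limP_PG _ _).smul`, `h3`, `h4`, `h5` are the same; at the end `h3` and `h5` say that the function is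
the indicator (`prod_eq_one`, `prod_eq_zero`, as in the proof of `h8`); `Nonempty A` is not needed. -/
theorem pg_dens {D : Dat2 ι κ} (hD : D.OK) (hN : D.NV1) {ρ : (κ → ZMod 2) → ι → ZMod 2}
    (h0 : ρ 0 = 0) {cA σ : A → κ → ZMod 2} {P : ∀ a, κ → E a → ZMod 2}
    {R : ∀ a, Matrix (E a) (E a) (ZMod 2)} (hF : FamX cA σ P R) (z : ∀ a, Option (E a))
    (b : A → Bool) (hz : ∀ a, (z a).isSome = true → cA a ≠ 0) (C : Cl2 D G) (γ : G) :
    PG C.cl γ
      (fun T => if ∀ a, nX D ρ cA σ P R (fun j => C.A j γ) a T = 1 ∧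
        ∀ e, z a = some e → k2X D ρ cA σ P R b a e T = 1 then (1 : ℝ) else 0)
      (∏ a, if (z a).isSome = true then cinf2 / 2 else cinf2) := by
  set α : κ → ZMod 2 := fun j => C.A j γ with hα
  set I : (A → Fin 3) → A → Finset ι → ℝ := fun s a B =>
    if nX D ρ cA σ (fun a => (sy3 (P a) (R a) (z a) (s a)).P)
      (fun a => (sy3 (P a) (R a) (z a) (s a)).R) α a B = 1 then (1 : ℝ) else 0 with hI
  set J : (a : A) → Fin 3 → Finset ι → ℝ := fun a i B => I (fun _ => i) a B with hJ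
  have hIJ : ∀ s a B, I s a B = J a (s a) B := fun s a B => rfl
  have h1 : ∀ s : A → Fin 3, PG C.cl γ (fun B => ∏ a, J a (s a) B)
      (cinf2 ^ Fintype.card A) := fun s =>
    pg_one hD hN h0 (E := fun a => (sy3 (P a) (R a) (z a) (s a)).W)
      (P := fun a => (sy3 (P a) (R a) (z a) (s a)).P) (R := fun a => (sy3 (P a) (R a) (z a) (s a)).R)
      ⟨hF.sg, fun a => (sy3_OK (hF.bd a) (hF.sym a) (z a) (s a)).bd,
        fun a => (sy3_OK (hF.bd a) (hF.sym a) (z a) (s a)).sym⟩ C γ
  have h2 : PG C.cl γ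
      (fun B => ∑ s : A → Fin 3, (∏ a, wz (z a).isSome (b a) (s a)) * ∏ a, J a (s a) B)
      (∑ s : A → Fin 3, (∏ a, wz (z a).isSome (b a) (s a)) * cinf2 ^ Fintype.card A) :=
    PG.sum univ fun s _ => (limP_PG C.cl γ).smul _ _ _ (h1 s)
  -- the event
  have h3 : ∀ B, ∑ s : A → Fin 3, (∏ a, wz (z a).isSome (b a) (s a)) * ∏ a, J a (s a) B =
      ∏ a, ∑ i, wz (z a).isSome (b a) i * J a i B := by
    intro B
    rw [Finset.prod_univ_sum, Fintype.piFinset_univ]
    exact sum_congr rfl fun s _ => (prod_mul_distrib).symm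
  have h4 : ∑ s : A → Fin 3, (∏ a, wz (z a).isSome (b a) (s a)) * cinf2 ^ Fintype.card A =
      ∏ a, (if (z a).isSome = true then cinf2 / 2 else cinf2) := by
    rw [← sum_mul]
    have h5 : ∑ s : A → Fin 3, ∏ a, wz (z a).isSome (b a) (s a) =
        ∏ a, ∑ i, wz (z a).isSome (b a) i := by
      rw [Finset.prod_univ_sum, Fintype.piFinset_univ]
    rw [h5, ← card_univ, ← prod_const, ← prod_mul_distrib]
    refine prod_congr rfl fun a _ => ?_
    rw [sum_wz]
    split_ifs <;> ring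
  have h5 : ∀ a B, ∑ i, wz (z a).isSome (b a) i * J a i B =
      if nX D ρ cA σ P R α a B = 1 ∧ ∀ e, z a = some e → k2X D ρ cA σ P R b a e B = 1
      then (1 : ℝ) else 0 := by
    intro a B
    rcases hza : z a with _ | e
    · have e0 : J a 0 B = if nX D ρ cA σ P R α a B = 1 then (1 : ℝ) else 0 := by
        show (if nX D ρ cA σ (fun a => (sy3 (P a) (R a) (z a) 0).P)
          (fun a => (sy3 (P a) (R a) (z a) 0).R) α a B = 1 then (1 : ℝ) else 0) = _
        have e1 : nX D ρ cA σ (fun a => (sy3 (P a) (R a) (z a) 0).P)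
            (fun a => (sy3 (P a) (R a) (z a) 0).R) α a B = nX D ρ cA σ P R α a B := by
          unfold MP_1a91b9_ntM.E.nX MP_1a91b9_ntM.E.kX MP_1a91b9_ntM.E.tX
          beta_reduce
          rw [hza]
          rfl
        rw [e1]
      rw [Fin.sum_univ_three, e0]
      simp [wz]
    · have hc : cA a ≠ 0 := hz a (by rw [hza]; rfl)
      have hk : ∀ i, J a i B = if (sy3 (P a) (R a) (some e) i).kw D (cA a)
          (rho D (ρ (cA a)) (σ a)) B = 1 then (1 : ℝ) else 0 := by
        intro i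
        show (if nX D ρ cA σ (fun a => (sy3 (P a) (R a) (z a) i).P)
          (fun a => (sy3 (P a) (R a) (z a) i).R) α a B = 1 then (1 : ℝ) else 0) = _
        rw [nX_eq_kX hc, ← hza]
        rfl
      have e1 := pencil_id D (cA a) (P a) (R a) (rho D (ρ (cA a)) (σ a)) B e (b a)
      have e2 : ∑ i, wz (some e).isSome (b a) i * J a i B =
          (1 / 2) * (if kW D (cA a) (P a) (R a) (rho D (ρ (cA a)) (σ a)) ∅ B = 1
            then (1 : ℝ) else 0) +
          (if b a = true then (1 / 2 : ℝ) else -(1 / 2)) *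
            (if kW D (cA a) (P a) (R a + Matrix.single e e 1) (rho D (ρ (cA a)) (σ a)) ∅ B = 1
              then (1 : ℝ) else 0) +
          (if b a = true then -(1 / 2 : ℝ) else 1 / 2) *
            (if kW D (cA a) (Pz (P a) e) (Rz (R a) e) (rho D (ρ (cA a)) (σ a)) ∅ B = 1
              then (1 : ℝ) else 0) := by
        rw [Fin.sum_univ_three, hk 0, hk 1, hk 2]
        rfl
      rw [e2, ← e1, nX_eq_kX hc]
      have e3 : (∀ e', some e = some e' → k2X D ρ cA σ P R b a e' B = 1) ↔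
          k2X D ρ cA σ P R b a e B = 1 :=
        ⟨fun h => h e rfl, fun h e' he' => by
          rw [← Option.some.inj he']
          exact h⟩
      have e4 : k2X D ρ cA σ P R b a e B =
          if b a = true then kW D (cA a) (P a) (R a + Matrix.single e e 1)
            (rho D (ρ (cA a)) (σ a)) ∅ B
          else kW D (cA a) (Pz (P a) e) (Rz (R a) e) (rho D (ρ (cA a)) (σ a)) ∅ B := rfl
      rw [← e4]
      by_cases g0 : kW D (cA a) (P a) (R a) (rho D (ρ (cA a)) (σ a)) ∅ B = 1 <;>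
        by_cases g1 : k2X D ρ cA σ P R b a e B = 1
      · rw [if_pos g0, if_pos g1, if_pos ⟨g0, e3.2 g1⟩, one_mul]
      · rw [if_neg g1, mul_zero, if_neg fun h => g1 (e3.1 h.2)]
      · rw [if_neg g0, zero_mul, if_neg fun h => g0 h.1]
      · rw [if_neg g0, zero_mul, if_neg fun h => g0 h.1]
  have h8 : (fun B => ∑ s : A → Fin 3, (∏ a, wz (z a).isSome (b a) (s a)) * ∏ a, J a (s a) B) =
      fun B => if ∀ a, nX D ρ cA σ P R α a B = 1 ∧
        ∀ e, z a = some e → k2X D ρ cA σ P R b a e B = 1 then (1 : ℝ) else 0 := by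
    funext B
    rw [h3 B, prod_congr rfl fun a _ => h5 a B]
    split_ifs with h
    · exact prod_eq_one fun a _ => if_pos (h a)
    · push Not at h
      obtain ⟨a, ha⟩ := h
      refine prod_eq_zero (mem_univ a) (if_neg fun h9 => ?_)
      obtain ⟨e, he, he2⟩ := ha h9.1
      exact he2 (h9.2 e he)
  rw [h4, h8] at h2
  exact h2

end

end Pool.Agent.Lib.MP_1a91b9_ntDV.G4
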