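import Pool.Agent.Lib.MP_1a91b9_ntDV.E10
import Pool.Agent.Lib.MP_1a91b9_ntDV.T0
import Pool.Agent.Lib.MP_1a91b9_ntDV.K4_0

set_option autoImplicit false
set_option linter.unusedSectionVars false

namespace Pool.Agent.Lib.MP_1a91b9_ntDV.G4

open Finset Pool.Agent.Lib.MP_1a91b9_ntH Pool.Agent.Lib.MP_1a91b9_ntQ Pool.Agent.Lib.MP_1a91b9_ntQ.Da
  Pool.Agent.Lib.MP_1a91b9_ntQ.M Pool.Agent.Lib.MP_1a91b9_ntM Pool.Agent.Lib.MP_1a91b9_ntM.E

noncomputable section

/-- **K4_16a** (easy+). The number of the sets. Proof. `X = 0`: `Sx ι 0 = ∅` (`one_le_nm`); `X = 1`: the only set is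
`∅` (`nm S ≥ 2` otherwise; or bound the card by a constant: `(Sx ι 1).card`). For `2 ≤ X` `hall h1` with `w = 1` and
`harm h2` (`∑ S ∈ Sx ι X, 1 / nm S ≤ K * (1 + log X)`) give
`card * log X ≤ (C1 + 1) * X * (K * (1 + log X))`, and `1 ≤ 2 * log X` because `log 2 ≥ 1 / 2`
(`Real.log_two_gt_d9`), so `card ≤ 3 * (C1 + 1) * K * X`. -/
theorem card_Sx_le {ι : Type} [DecidableEq ι] [PS ι] {C1 C2 : ℝ} (h1 : Cheb ι C1) (h2 : Zt ι C2) :
    ∃ C : ℝ, 0 < C ∧ ∀ X : ℕ, ((Sx ι X).card : ℝ) ≤ C * X := by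
  have hC : 0 ≤ C1 := by
    have h3 := h1 1
    have h4 : 0 ≤ ∑ q ∈ pr ι 1, Real.log (PS.N q) := sum_nonneg fun q _ => Real.log_natCast_nonneg _
    push_cast at h3
    linarith
  obtain ⟨K, hK1, hK⟩ := harm h2
  have hCK : 0 < 3 * (C1 + 1) * K := by positivity
  refine ⟨3 * (C1 + 1) * K + (Sx ι 1).card, by positivity, fun X => ?_⟩
  have hc0 : (0 : ℝ) ≤ (Sx ι 1).card := Nat.cast_nonneg _
  rcases Nat.lt_or_ge X 2 with hX | hX
  · obtain rfl | rfl : X = 0 ∨ X = 1 := by omega
    · have h5 : Sx ι 0 = ∅ := by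
        ext S
        rw [mem_Sx]
        constructor
        · intro h
          have := one_le_nm S
          omega
        · intro h
          exact absurd h (notMem_empty _)
      rw [h5, card_empty, Nat.cast_zero, mul_zero]
    · rw [Nat.cast_one, mul_one]
      linarith
  · have h3 := hall h1 (fun _ => 1) (fun _ => ⟨zero_le_one, le_rfl⟩) X (by omega)
    have h4 := hK X (by omega)
    simp only [prod_const_one, sum_const, nsmul_eq_mul, mul_one] at h3
    have h5 : Real.log 2 ≤ Real.log X := Real.log_le_log (by norm_num) (by exact_mod_cast hX)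
    have h6 := Real.log_two_gt_d9
    have hl : 0 < Real.log X := by linarith
    have hX0 : (0 : ℝ) ≤ X := Nat.cast_nonneg X
    have h7 : ((Sx ι X).card : ℝ) * Real.log X ≤ 3 * (C1 + 1) * K * X * Real.log X := by
      calc ((Sx ι X).card : ℝ) * Real.log X ≤ (C1 + 1) * X * ∑ S ∈ Sx ι X, (1 : ℝ) / nm S := h3
        _ ≤ (C1 + 1) * X * (K * (1 + Real.log X)) := mul_le_mul_of_nonneg_left h4 (by positivity)
        _ ≤ (C1 + 1) * X * (K * (3 * Real.log X)) := by
            refine mul_le_mul_of_nonneg_left ?_ (by positivity)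
            refine mul_le_mul_of_nonneg_left ?_ (by linarith)
            linarith
        _ = 3 * (C1 + 1) * K * X * Real.log X := by ring
    have h8 := le_of_mul_le_mul_right h7 hl
    have h9 : 0 ≤ (((Sx ι 1).card : ℕ) : ℝ) * X := mul_nonneg hc0 hX0
    nlinarith

variable {ι : Type} [DecidableEq ι] [PS ι] {B : Finset ι} {G : Type} [AddCommGroup G] [Fintype G]

open Classical in
/-- **K4_16b** (medium-). **From the classes to the shares, for the primes outside of `B`.**
Proof. Choose `I γ`, `vγ γ`. Let `F T = ∑ γ, if ∑ q ∈ T, cl q = γ then I γ T - vγ γ else 0`; by `AVr.sum` (E9) `AVr F 0`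
(unfold `PG`). Let `F' T = F T` for `T ≠ ∅` and `F' ∅ = -v`; `AVr F' 0` by `AVr.congr_fin h1 h2` (E10), `Y = {∅}`.
For every `T`: `F' T + v ≤ if Q (up T) then 1 else 0`: for `T = ∅` the left side is `0`; for `T ≠ ∅` with the class `γ`
it is `I γ T - vγ γ + v ≤ I γ T` (`Finset.sum_ite_eq`). So for every `S`
`avr F' S + v ≤ #{T ⊆ S | Q (up T)} / 2 ^ #S` (sum over `S.powerset`, `card_powerset`, `sum_boole`). If
`#{T ⊆ S | Q (up T)} < (v - ε) * 2 ^ #S` then `avr F' S < -ε`. `card_Sx_le h1 h2` gives `C`; `AVr.rare` (E9) with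
`v' = -ε < 0` and `ε / (C + 1)` gives the bound `ε / (C + 1) * (card + X) ≤ ε * X`. -/
theorem off_PG {C1 C2 : ℝ} (h1 : Cheb (Off B) C1) (h2 : Zt (Off B) C2) (cl : Off B → G)
    {v : ℝ} {Q : Finset ι → Prop}
    (h : ∀ γ : G, ∃ (I : Finset (Off B) → ℝ) (vγ : ℝ), PG cl γ I vγ ∧ v ≤ vγ ∧
      ∀ T : Finset (Off B), T ≠ ∅ → ∑ q ∈ T, cl q = γ → I T ≤ if Q (up T) then 1 else 0)
    (ε : ℝ) (hε : 0 < ε) : ∃ X₀ : ℕ, ∀ X : ℕ, X₀ ≤ X →
      (((Sx (Off B) X).filter fun S =>
        ((S.powerset.filter fun T => Q (up T)).card : ℝ) < (v - ε) * 2 ^ S.card).card : ℝ) ≤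
        ε * X := by
  choose I vg hPG hv hI using h
  obtain ⟨F, hFd⟩ : ∃ F : Finset (Off B) → ℝ, F = fun T => ∑ γ ∈ (univ : Finset G),
      if ∑ q ∈ T, cl q = γ then I γ T - vg γ else 0 := ⟨_, rfl⟩
  have hF : AVr F 0 := by
    have h3 := AVr.sum (univ : Finset G) (fun γ _ => hPG γ)
    rw [sum_const_zero] at h3
    rw [hFd]
    exact h3
  obtain ⟨F', hF'd⟩ : ∃ F' : Finset (Off B) → ℝ, F' = fun T => if T = ∅ then -v else F T := ⟨_, rfl⟩
  have hF' : AVr F' 0 := by
    refine AVr.congr_fin h1 h2 hF {∅} fun T hT => ?_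
    rw [mem_singleton] at hT
    rw [hF'd]
    exact if_neg hT
  have hpt : ∀ T : Finset (Off B), F' T + v ≤ if Q (up T) then 1 else 0 := by
    intro T
    by_cases hT : T = ∅
    · have h3 : F' T = -v := by
        rw [hF'd]
        exact if_pos hT
      rw [h3, neg_add_cancel]
      split_ifs
      · exact zero_le_one
      · exact le_rfl
    · have h3 : F' T = I (∑ q ∈ T, cl q) T - vg (∑ q ∈ T, cl q) := by
        have h4 : F' T = F T := by
          rw [hF'd]
          exact if_neg hT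
        rw [h4, hFd]
        show (∑ γ ∈ (univ : Finset G), if ∑ q ∈ T, cl q = γ then I γ T - vg γ else 0) = _
        rw [sum_ite_eq, if_pos (mem_univ _)]
      have h5 := hv (∑ q ∈ T, cl q)
      have h6 := hI (∑ q ∈ T, cl q) T hT rfl
      rw [h3]
      linarith
  obtain ⟨C, hC0, hC⟩ := card_Sx_le h1 h2
  obtain ⟨X₀, hX₀⟩ := AVr.rare hF' (v' := -ε) (by linarith) (ε / (C + 1)) (by positivity)
  refine ⟨X₀, fun X hx => ?_⟩
  have h7 : (((Sx (Off B) X).filter fun S =>
      ((S.powerset.filter fun T => Q (up T)).card : ℝ) < (v - ε) * 2 ^ S.card).card : ℝ) ≤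
      ((Sx (Off B) X).filter fun S => avr F' S < -ε).card := by
    refine Nat.cast_le.2 (card_le_card fun S hS => ?_)
    rw [mem_filter] at hS ⊢
    refine ⟨hS.1, ?_⟩
    have hp : (0 : ℝ) < 2 ^ S.card := by positivity
    have h8 : (∑ T ∈ S.powerset, F' T) + v * 2 ^ S.card ≤ ((S.powerset.filter fun T => Q (up T)).card : ℝ) := by
      calc (∑ T ∈ S.powerset, F' T) + v * 2 ^ S.card = ∑ T ∈ S.powerset, (F' T + v) := by
            rw [sum_add_distrib, sum_const, card_powerset, nsmul_eq_mul]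
            push_cast
            ring
        _ ≤ ∑ T ∈ S.powerset, if Q (up T) then (1 : ℝ) else 0 := sum_le_sum fun T _ => hpt T
        _ = ((S.powerset.filter fun T => Q (up T)).card : ℝ) := sum_boole _ _
    unfold avr
    rw [div_lt_iff₀ hp]
    have h9 := hS.2
    nlinarith
  refine h7.trans ((hX₀ X hx).trans ?_)
  have h10 : ((Sx (Off B) X).card : ℝ) + X ≤ (C + 1) * X := by
    have := hC X
    linarith
  calc ε / (C + 1) * (((Sx (Off B) X).card : ℝ) + X) ≤ ε / (C + 1) * ((C + 1) * X) :=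
        mul_le_mul_of_nonneg_left h10 (by positivity)
    _ = ε * X := by
        field_simp

open Classical in
private theorem K416_card {ι : Type} [DecidableEq ι] {B : Finset ι} (S : Finset (Off B)) (Q : Finset ι → Prop) :
    (S.powerset.filter fun T => Q (up T)).card = ((up S).powerset.filter Q).card := by
  refine card_bij (fun T _ => up T) (fun T hT => ?_) (fun T _ T' _ h => up_injective h) (fun T' hT' => ?_)
  · rw [mem_filter, mem_powerset] at hT ⊢
    exact ⟨map_subset_map.2 hT.1, hT.2⟩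
  · rw [mem_filter, mem_powerset] at hT'
    have hd : Disjoint T' B := disjoint_of_subset_left hT'.1 (disj_up S)
    have h1 := up_dn hd
    refine ⟨dn B T', ?_, h1⟩
    rw [mem_filter, mem_powerset]
    refine ⟨fun q hq => ?_, ?_⟩
    · have h2 := hT'.1 (mem_dn.1 hq)
      obtain ⟨_, h3⟩ := mem_up.1 h2
      exact h3
    · rw [h1]
      exact hT'.2

open Classical in
/-- **K4_16c** (easy+). The same as sets of primes of `ι`. Proof. `off_PG` with the same `ε`. The map `up` is a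
bijection of the `S` counted there to the sets counted in `SubL` (`up_mem_Sx`, `disj_up`, `up_dn`, `dn_up`,
MP_1a91b9_ntQ/D/ExtB.lean): `(up S).card = S.card` (`card_map`), and `T ↦ up T` is a bijection of
`S.powerset.filter (Q ∘ up)` to `(up S).powerset.filter Q` (a subset `T'` of `up S` is disjoint from `B`, so
`T' = up (dn B T')`, `dn B T' ⊆ S`). So `card_le_card_of_injOn` with `dn B` (or `card_bij`). The decidability
instances in `SubL` are classical. -/
theorem subL_PG {C1 C2 : ℝ} (h1 : Cheb (Off B) C1) (h2 : Zt (Off B) C2) (cl : Off B → G)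
    {v : ℝ} {Q : Finset ι → Prop}
    (h : ∀ γ : G, ∃ (I : Finset (Off B) → ℝ) (vγ : ℝ), PG cl γ I vγ ∧ v ≤ vγ ∧
      ∀ T : Finset (Off B), T ≠ ∅ → ∑ q ∈ T, cl q = γ → I T ≤ if Q (up T) then 1 else 0) :
    SubL B v Q := by
  intro ε hε
  obtain ⟨X₀, hX₀⟩ := off_PG h1 h2 cl h ε hε
  refine ⟨X₀, fun X hx => le_trans ?_ (hX₀ X hx)⟩
  refine Nat.cast_le.2 (card_le_card_of_injOn (dn B) (fun S hS => ?_) ?_)
  · rw [mem_coe, mem_filter] at hS
    obtain ⟨hS1, hS2, hS3⟩ := hS
    have h3 := up_dn hS2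
    rw [mem_coe, mem_filter]
    refine ⟨up_mem_Sx.1 (by rw [h3]; exact hS1), ?_⟩
    have h4 : (dn B S).card = S.card := by
      have h5 : (up (dn B S)).card = (dn B S).card := card_map _
      rw [← h5, h3]
    rw [K416_card (dn B S) Q, h3, h4]
    exact hS3
  · intro S hS S' hS' hSS
    rw [mem_coe, mem_filter] at hS hS'
    rw [← up_dn hS.2.1, ← up_dn hS'.2.1, hSS]

end

end Pool.Agent.Lib.MP_1a91b9_ntDV.G4
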