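import Pool.Agent.Lib.MP_1a91b9_ntZ.J4Den
import Pool.Agent.Lib.MP_1a91b9_ntDV.K4_15

/-!
# MP_1a91b9_nt (the divisor law), block K4 (`ℚ(i)`): at least `t` of the blocks of labels

The mean values of the products of the events over the subsets are known (`pg_dens`), so the mean value of the
probability of at least `t` of the blocks is known (`mean_bts`), and `pg_atl` bounds it from below.
-/

set_option autoImplicit false
set_option linter.unusedSectionVars false

namespace Pool.Agent.Lib.MP_1a91b9_ntDV.G4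

open Finset Pool.Agent.Lib.MP_1a91b9_ntH Pool.Agent.Lib.MP_1a91b9_ntQ Pool.Agent.Lib.MP_1a91b9_ntQ.Da
  Pool.Agent.Lib.MP_1a91b9_ntQ.M Pool.Agent.Lib.MP_1a91b9_ntM Pool.Agent.Lib.MP_1a91b9_ntM.E
open Pool.Agent.Lib.MP_1a91b9_ntZ (Atl bn bts bts_zero bts_empty_succ bts_insert_succ bts_mono
  bts_ind bts_const)
open Pool.Agent.Lib.MP_1a91b9_ntZ.J4 (indX indX_nonneg indX_le_one)

noncomputable section

/-- The mean values of `bts`, for any notion of mean value. -/
theorem mean_bts {β : Type} {P : (β → ℝ) → ℝ → Prop} (hP : LimP P) {I : Type}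
    [DecidableEq I] {F : I → β → ℝ} {v : I → ℝ} (s : Finset I) :
    ∀ (K : Finset I), Disjoint K s →
      (∀ J : Finset I, J ⊆ K ∪ s → P (fun b => ∏ i ∈ J, F i b) (∏ i ∈ J, v i)) → ∀ t : ℕ,
      P (fun b => (∏ i ∈ K, F i b) * bts s t fun i => F i b) ((∏ i ∈ K, v i) * bts s t v) := by
  have hcongr : ∀ {f h : β → ℝ} {x y : ℝ}, P f x → (∀ b, h b = f b) → y = x → P h y := by
    intro f h x y h1 h2 h3
    rw [show h = f from funext h2, h3]
    exact h1
  induction s using Finset.induction_on with
  | empty =>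
    intro K _ hM t
    rcases t with _ | t
    · refine hcongr (hM K subset_union_left) (fun b => ?_) ?_
      · rw [bts_zero, mul_one]
      · rw [bts_zero, mul_one]
    · have h0 := hP.smul _ _ 0 (hM K subset_union_left)
      refine hcongr h0 (fun b => ?_) ?_
      · rw [bts_empty_succ]
        ring
      · rw [bts_empty_succ]
        ring
  | insert a s ha ih =>
    intro K hK hM t
    have haK : a ∉ K := fun h => disjoint_left.1 hK h (mem_insert_self _ _)
    have hKs : Disjoint K s := disjoint_of_subset_right (subset_insert _ _) hK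
    have hKs' : Disjoint (insert a K) s := by
      rw [disjoint_insert_left]
      exact ⟨ha, hKs⟩
    rcases t with _ | t
    · refine hcongr (hM K subset_union_left) (fun b => ?_) ?_
      · rw [bts_zero, mul_one]
      · rw [bts_zero, mul_one]
    · have m1 := ih (insert a K) hKs' (fun J hJ => hM J (hJ.trans (by
        intro i hi
        simp only [mem_union, mem_insert] at hi ⊢
        tauto))) t
      have m2 := ih K hKs (fun J hJ => hM J (hJ.trans (union_subset_union_right
        (subset_insert _ _)))) (t + 1)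
      have m3 := ih (insert a K) hKs' (fun J hJ => hM J (hJ.trans (by
        intro i hi
        simp only [mem_union, mem_insert] at hi ⊢
        tauto))) (t + 1)
      refine hcongr (hP.add _ _ _ _ (hP.add _ _ _ _ m1 m2) (hP.smul _ _ (-1) m3))
        (fun b => ?_) ?_
      · rw [bts_insert_succ ha, prod_insert haK]
        ring
      · rw [bts_insert_succ ha, prod_insert haK]
        ring

variable {A : Type} [Fintype A] [DecidableEq A] {ι : Type} [DecidableEq ι] [PS ι]
  {κ : Type} [Fintype κ] [DecidableEq κ] {E : A → Type} [∀ a, Fintype (E a)]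
  [∀ a, DecidableEq (E a)] {G : Type} [AddCommGroup G] [Fintype G]

open Classical in
/-- The mean value of the indicator of the events of a set of blocks. -/
theorem pg_blocks {D : Dat2 ι κ} (hD : D.OK) (hN : D.NV1) {ρ : (κ → ZMod 2) → ι → ZMod 2}
    (h0 : ρ 0 = 0) {cA σ : A → κ → ZMod 2} {P : ∀ a, κ → E a → ZMod 2}
    {R : ∀ a, Matrix (E a) (E a) (ZMod 2)} (hF : FamX cA σ P R) (z : ∀ a, Option (E a))
    (b : A → Bool) (hz : ∀ a, (z a).isSome = true → cA a ≠ 0) (C : Cl2 D G) (γ : G)
    {I : Type} [DecidableEq I] (bl : A → I) (J : Finset I) :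
    PG C.cl γ
      (fun T => ∏ i ∈ J, ∏ a ∈ univ.filter (fun a => bl a = i),
        indX D ρ cA σ P R z b (fun j => C.A j γ) a T)
      (∏ i ∈ J, ∏ a ∈ univ.filter (fun a => bl a = i),
        if (z a).isSome = true then cinf2 / 2 else cinf2) := by
  have hfib : ∀ w : A → ℝ, ∏ i ∈ J, ∏ a ∈ univ.filter (fun a => bl a = i), w a =
      ∏ a : {a // bl a ∈ J}, w a.1 := by
    intro w
    rw [← Finset.prod_subtype (univ.filter fun a => bl a ∈ J) (p := fun a => bl a ∈ J)
      (fun a => by simp) w]
    rw [← Finset.prod_fiberwise_of_maps_to (s := univ.filter fun a => bl a ∈ J) (t := J)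
      (g := bl) (fun a ha => (mem_filter.1 ha).2) w]
    refine prod_congr rfl fun i hi => prod_congr ?_ fun a _ => rfl
    ext a
    simp only [mem_filter, mem_univ, true_and]
    constructor
    · rintro rfl
      exact ⟨hi, rfl⟩
    · exact fun h => h.2
  have h1 := pg_dens hD hN h0 (A := {a // bl a ∈ J}) (E := fun a => E a.1)
    (cA := fun a => cA a.1) (σ := fun a => σ a.1) (P := fun a => P a.1) (R := fun a => R a.1)
    ⟨fun a a' h => hF.sg a.1 a'.1 fun h' => h (Subtype.ext h'), fun a => hF.bd a.1,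
      fun a => hF.sym a.1⟩ (fun a => z a.1) (fun a => b a.1) (fun a => hz a.1) C γ
  rw [hfib]
  have h2 : (fun T => ∏ i ∈ J, ∏ a ∈ univ.filter (fun a => bl a = i),
      indX D ρ cA σ P R z b (fun j => C.A j γ) a T) = fun T =>
      if ∀ a : {a // bl a ∈ J}, nX D ρ (fun a : {a // bl a ∈ J} => cA a.1) (fun a => σ a.1)
          (fun a => P a.1) (fun a => R a.1) (fun j => C.A j γ) a T = 1 ∧
        ∀ e, z a.1 = some e → k2X D ρ (fun a : {a // bl a ∈ J} => cA a.1) (fun a => σ a.1)
          (fun a => P a.1) (fun a => R a.1) (fun a => b a.1) a e T = 1 then (1 : ℝ) else 0 := by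
    funext T
    rw [hfib fun a => indX D ρ cA σ P R z b (fun j => C.A j γ) a T]
    split_ifs with h
    · exact prod_eq_one fun a _ => if_pos (h a)
    · push Not at h
      obtain ⟨a, ha⟩ := h
      refine prod_eq_zero (mem_univ a) (if_neg fun h9 => ?_)
      obtain ⟨e, he, he2⟩ := ha h9.1
      exact he2 (h9.2 e he)
  rw [h2]
  exact h1

open Classical in
/-- **K4_18. At least `t` of the blocks of labels, over the subsets.** -/
theorem pg_atl {D : Dat2 ι κ} (hD : D.OK) (hN : D.NV1) {ρ : (κ → ZMod 2) → ι → ZMod 2}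
    (h0 : ρ 0 = 0) {cA σ : A → κ → ZMod 2} {P : ∀ a, κ → E a → ZMod 2}
    {R : ∀ a, Matrix (E a) (E a) (ZMod 2)} (hF : FamX cA σ P R) (z : ∀ a, Option (E a))
    (b : A → Bool) (hz : ∀ a, (z a).isSome = true → cA a ≠ 0) (C : Cl2 D G) (γ : G)
    (hc1 : cinf2 ≤ 1) {I : Type} [Fintype I] [DecidableEq I] (bl : A → I) (t : ℕ) {v : ℝ}
    (hv0 : 0 ≤ v)
    (hv : ∀ i, v ≤ ∏ a ∈ univ.filter (fun a => bl a = i),
      (if (z a).isSome = true then cinf2 / 2 else cinf2)) :
    ∃ (F : Finset ι → ℝ) (w : ℝ), PG C.cl γ F w ∧ bn (Fintype.card I) t v ≤ w ∧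
      ∀ T, F T ≤ if Atl t (fun i => ∀ a, bl a = i →
        (nX D ρ cA σ P R (fun j => C.A j γ) a T = 1 ∧
          ∀ e, z a = some e → k2X D ρ cA σ P R b a e T = 1)) then 1 else 0 := by
  have hc0 : 0 ≤ cinf2 := cinf2_posX.le
  have hw0 : ∀ a, 0 ≤ (if (z a).isSome = true then cinf2 / 2 else cinf2) := fun a => by
    split_ifs <;> linarith
  have hw1 : ∀ a, (if (z a).isSome = true then cinf2 / 2 else cinf2) ≤ 1 := fun a => by
    split_ifs <;> linarith
  have hm := mean_bts (limP_PG C.cl γ) (F := fun i T => ∏ a ∈ univ.filter (fun a => bl a = i),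
      indX D ρ cA σ P R z b (fun j => C.A j γ) a T)
    (v := fun i => ∏ a ∈ univ.filter (fun a => bl a = i),
      (if (z a).isSome = true then cinf2 / 2 else cinf2)) (univ : Finset I) ∅
    (disjoint_empty_left _) (fun J _ => pg_blocks hD hN h0 hF z b hz C γ bl J) t
  simp only [prod_empty, one_mul] at hm
  refine ⟨_, _, hm, ?_, fun T => ?_⟩
  · rw [← card_univ, ← bts_const univ t v]
    exact bts_mono univ t (fun _ _ => hv0) (fun i _ => hv i) fun i _ =>
      prod_le_one (fun a _ => hw0 a) fun a _ => hw1 a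
  · have h8 : (bts univ t fun i => ∏ a ∈ univ.filter (fun a => bl a = i),
        indX D ρ cA σ P R z b (fun j => C.A j γ) a T) ≤
        bts univ t fun i => if ∀ a, bl a = i → (nX D ρ cA σ P R (fun j => C.A j γ) a T = 1 ∧
          ∀ e, z a = some e → k2X D ρ cA σ P R b a e T = 1) then (1 : ℝ) else 0 := by
      refine bts_mono univ t (fun i _ => prod_nonneg fun a _ =>
        indX_nonneg _ _ _ _ _ _ _ _ _ _ _) (fun i _ => ?_) fun i _ => ?_
      · by_cases h : ∀ a, bl a = i → (nX D ρ cA σ P R (fun j => C.A j γ) a T = 1 ∧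
          ∀ e, z a = some e → k2X D ρ cA σ P R b a e T = 1)
        · rw [if_pos h]
          exact prod_le_one (fun a _ => indX_nonneg _ _ _ _ _ _ _ _ _ _ _)
            fun a _ => indX_le_one _ _ _ _ _ _ _ _ _ _ _
        · rw [if_neg h]
          push Not at h
          obtain ⟨a, ha, h1⟩ := h
          refine le_of_eq (prod_eq_zero (mem_filter.2 ⟨mem_univ a, ha⟩) (if_neg fun h2 => ?_))
          obtain ⟨e, he, he2⟩ := h1 h2.1
          exact he2 (h2.2 e he)
      · split_ifs
        · exact le_rfl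
        · exact zero_le_one
    refine le_trans h8 (le_of_eq ?_)
    have e := bts_ind (fun i => ∀ a, bl a = i → (nX D ρ cA σ P R (fun j => C.A j γ) a T = 1 ∧
          ∀ e, z a = some e → k2X D ρ cA σ P R b a e T = 1)) univ t
    refine Eq.trans ?_ (e.trans ?_)
    · refine congrArg (bts univ t) (funext fun i => ?_)
      split_ifs <;> rfl
    · by_cases h : Atl t fun i => ∀ a, bl a = i →
          (nX D ρ cA σ P R (fun j => C.A j γ) a T = 1 ∧
          ∀ e, z a = some e → k2X D ρ cA σ P R b a e T = 1)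
      · exact (if_pos h).trans (if_pos h).symm
      · exact (if_neg h).trans (if_neg h).symm

end

end Pool.Agent.Lib.MP_1a91b9_ntDV.G4
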