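import Pool.Agent.Lib.MP_1a91b9_ntM.E.Main8X
import Pool.Agent.Lib.MP_1a91b9_ntDV.U0
import Pool.Agent.Lib.MP_1a91b9_ntDV.K4_16
import Pool.Agent.Lib.MP_1a91b9_ntDV.K4_18

/-!
# MP_1a91b9_nt (the divisor law), block K4 (`ℚ(i)`): the binomial law for the blocks of labels
-/

set_option autoImplicit false
set_option linter.unusedSectionVars false

namespace Pool.Agent.Lib.MP_1a91b9_ntDV.G4

open Finset NumberField Pool.Agent.Lib.MP_1a91b9_ntH Pool.Agent.Lib.MP_1a91b9_ntQ
  Pool.Agent.Lib.MP_1a91b9_ntQ.Da Pool.Agent.Lib.MP_1a91b9_ntQ.M Pool.Agent.Lib.MP_1a91b9_ntM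
  Pool.Agent.Lib.MP_1a91b9_ntM.E
open Pool.Agent.Lib.MP_1a91b9_ntZ (Atl bn)

noncomputable section

/-- **K4_19. The binomial law for the blocks of labels over `ℚ(i)`.** -/
theorem jb4 : JB4 := by
  classical
  obtain ⟨m, h0⟩ := oneX trX1 trX2 trSq
  intro A _ _ I _ _ bl x f P hdj hP hf hpw t v hv0 hv
  obtain ⟨C1, hC1⟩ := (OK_off d4_OK P).cheb
  obtain ⟨C2, hC2⟩ := (OK_off d4_OK P).zt
  refine subL_PG (B := P) hC1 hC2 (CclB m P).cl fun γ => ?_
  choose E i1 i2 Pm R z b hb hR hz hzf hX using fun i : A =>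
    h0 m le_rfl P (x i) (f i) (hdj i) (hP i) (hf i) γ
  have hF : FamX (fun i => cX P (x i)) (fun i => sX P (x i)) Pm R := by
    refine ⟨fun i i' hii hc => ⟨fun hs => ?_, fun hs => ?_⟩, hb, hR⟩
    · refine (hpw i i' hii).1 (sX_inj (hdj i) (hP i) (hdj i') (hP i') hc ?_)
      funext j
      have h4 := congrFun hs j
      simp only [Pi.add_apply, Pi.zero_apply] at h4
      have h5 := eq_neg_of_add_eq_zero_left h4
      rw [z2_neg] at h5
      exact h5
    · exact (hpw i i' hii).2 (sX_inv (hdj i) (hP i) (hdj i') (hP i') hc hs)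
  have hcp := cinf2_posX
  have hv' : ∀ c, v ≤ ∏ a ∈ univ.filter (fun a => bl a = c),
      (if (z a).isSome = true then cinf2 / 2 else cinf2) := by
    intro c
    refine (hv c).trans (prod_le_prod (fun i _ => ?_) fun i _ => ?_)
    · split_ifs <;> linarith
    · by_cases h5 : (z i).isSome = true
      · rw [if_pos h5, if_pos (hzf i h5)]
      · rw [if_neg h5]
        split_ifs <;> linarith
  obtain ⟨F, w, hPG, hw, hle⟩ := pg_atl (OK_off d4_OK P) (nv_off d4_nv P) (ρX_zero P) hF z b hz
    (CclB m P) γ (cinf2_le_half.trans (by norm_num)) bl t hv0 hv'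
  refine ⟨F, w, hPG, hw, fun T hT hγ => (hle T).trans ?_⟩
  have hα : ∀ j, ∑ q ∈ T, (d4.off P).a q j = (fun j => (CclB m P).A j γ) j := by
    intro j
    show _ = (CclB m P).A j γ
    rw [← hγ, map_sum]
    exact sum_congr rfl fun q _ => (CclB m P).ha q j
  by_cases hev : Atl t (fun c => ∀ a, bl a = c →
      (nX (d4.off P) (ρX P) (fun i => cX P (x i)) (fun i => sX P (x i)) Pm R
        (fun j => (CclB m P).A j γ) a T = 1 ∧
        ∀ e, z a = some e → k2X (d4.off P) (ρX P) (fun i => cX P (x i)) (fun i => sX P (x i))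
          Pm R b a e T = 1))
  · have hQ : Atl t fun c => ∀ i, bl i = c →
        GdX (x i) (up T) ∧ (f i = true → GdX (x i).inv (up T)) := by
      refine Atl.mono (fun c hc i hi => ?_) hev
      obtain ⟨h4, h5⟩ := hc i hi
      have h6 := kX_mul (D := d4.off P) (ρ := ρX P) (ρX_zero P) (fun i => cX P (x i))
        (fun i => sX P (x i)) Pm R (α := fun j => (CclB m P).A j γ) i hT hα
      rw [h4, mul_one] at h6
      refine hX i T hT hγ (tX (fun i => cX P (x i)) (fun i => sX P (x i)) Pm R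
        (fun j => (CclB m P).A j γ) i) (fun h7 => ?_) (fun h7 => ?_) h6 fun e he => ?_
      · by_contra h8
        unfold tX at h7
        rw [if_neg h8] at h7
        exact absurd h7 (by decide)
      · have h8 := (tX_cases (fun i => cX P (x i)) (fun i => sX P (x i)) Pm R
          (fun j => (CclB m P).A j γ) i).resolve_right h7
        refine ⟨h8, fun h9 => ?_⟩
        unfold tX at h7
        exact h7 (if_pos h9)
      · have h7 := h5 e he
        unfold k2X at h7
        exact h7
    rw [if_pos hQ]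
    split_ifs <;> norm_num
  · refine (le_of_eq (if_neg hev)).trans ?_
    split_ifs <;> norm_num

end

end Pool.Agent.Lib.MP_1a91b9_ntDV.G4
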