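import Pool.Agent.Lib.MP_1a91b9_ntDV.K4_2

set_option autoImplicit false
set_option linter.unusedSectionVars false

namespace Pool.Agent.Lib.MP_1a91b9_ntDV.G4

open Finset Pool.Agent.Lib.MP_1a91b9_ntH Pool.Agent.Lib.MP_1a91b9_ntQ Pool.Agent.Lib.MP_1a91b9_ntQ.Da
  Pool.Agent.Lib.MP_1a91b9_ntQ.M Pool.Agent.Lib.MP_1a91b9_ntM Pool.Agent.Lib.MP_1a91b9_ntM.E
open Pool.Agent.Lib.MP_1a91b9_ntQ.D Pool.Agent.Lib.MP_1a91b9_ntQ.DW

noncomputable section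

variable {ι : Type} [DecidableEq ι] [PS ι] {L : Type} [Fintype L] [DecidableEq L] {κ : Type}
  [Fintype κ] [DecidableEq κ]

/-- A sum over the box of the families which are small outside `U`, with a saving in the small
families different from the empty one. -/
private theorem K43_boxX {G : (L → Finset ι) → ℂ} {D : Dat2 ι κ} (hD : D.OK) (U : Finset L) (M n : ℕ)
    (hM : 1 ≤ M) (C1 : ℝ) (hC1 : 0 < C1)
    (hin : ∀ V : ℕ, 1 ≤ V → ∀ b ∈ SmB ι V U, uni b ≠ ∅ → ∀ Y : ℕ, 2 ≤ Y →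
      ‖∑ S ∈ (Sx ι Y).filter (fun S => Disjoint S (uni b)), ∑ d ∈ FamU U S,
        G (fun l => b l ∪ d l)‖ ≤
        C1 * Y * Real.log Y ^ (-(1 / (M : ℝ))) * (1 + Real.log V) ^ n) :
    ∃ C : ℝ, 0 < C ∧ ∀ X V : ℕ, 16 ≤ X → 1 ≤ V → V ^ (2 * Fintype.card L) ≤ X →
      ‖∑ d ∈ BoxS ι X V U, G d - ∑ S ∈ Sx ι X, ∑ d ∈ FamU U S, G d‖ ≤
        C * X * Real.log X ^ (-(1 / (M : ℝ))) * (1 + Real.log V) ^ (Fintype.card L + n) := by
  classical
  obtain ⟨C2, hzt⟩ := hD.zt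
  obtain ⟨K, hK1, hharm⟩ := harm hzt
  have hK0 : (0 : ℝ) < K := by linarith
  refine ⟨4 * C1 * K ^ Fintype.card L, by positivity, ?_⟩
  intro X V hX16 hV hVX
  have hm1 : (1 : ℝ) ≤ M := by exact_mod_cast hM
  have hδ0 : (0 : ℝ) < 1 / (M : ℝ) := by positivity
  have hδ1 : 1 / (M : ℝ) ≤ 1 := by
    rw [div_le_one (by linarith)]
    linarith
  have hlV : 0 ≤ Real.log V := Real.log_nonneg (by exact_mod_cast hV)
  have hlX : 0 ≤ Real.log X ^ (-(1 / (M : ℝ))) :=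
    Real.rpow_nonneg (Real.log_nonneg (by exact_mod_cast (by omega : 1 ≤ X))) _
  have hb0 : (fun _ : L => (∅ : Finset ι)) ∈ SmB ι V U := by
    rw [mem_SmB]
    refine ⟨fun l => ?_, fun l m _ => ?_, fun l _ => rfl⟩
    · rw [nm_empty]
      exact hV
    · exact disjoint_empty_left _
  have hn0 : nmf (fun _ : L => (∅ : Finset ι)) = 1 := by
    unfold nmf
    simp [nm_empty]
  rw [sum_splitC X V hV U G, ← add_sum_erase _ _ hb0]
  have hT0 : ∑ S ∈ (Sx ι (X / nmf (fun _ : L => (∅ : Finset ι)))).filter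
      (fun S => Disjoint S (uni (fun _ : L => (∅ : Finset ι)))),
      ∑ d ∈ FamU U S, G (fun l => (fun _ : L => (∅ : Finset ι)) l ∪ d l) =
      ∑ S ∈ Sx ι X, ∑ d ∈ FamU U S, G d := by
    rw [hn0, Nat.div_one, uni_empty, filter_true_of_mem fun S _ => disjoint_empty_right S]
    refine sum_congr rfl fun S _ => sum_congr rfl fun d _ => ?_
    have : (fun l => (fun _ : L => (∅ : Finset ι)) l ∪ d l) = d := by
      funext l
      exact empty_union _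
    rw [this]
  rw [hT0, add_sub_cancel_left]
  have hterm : ∀ b ∈ (SmB ι V U).erase (fun _ : L => (∅ : Finset ι)),
      ‖∑ S ∈ (Sx ι (X / nmf b)).filter (fun S => Disjoint S (uni b)),
        ∑ d ∈ FamU U S, G (fun l => b l ∪ d l)‖ ≤
      4 * C1 * X * Real.log X ^ (-(1 / (M : ℝ))) * (1 + Real.log V) ^ n * (1 / nmf b) := by
    intro b hb
    obtain ⟨hne, hb'⟩ := mem_erase.1 hb
    have hub : uni b ≠ ∅ := by
      intro h
      apply hne
      funext l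
      exact subset_empty.1 (h ▸ sub_uni b l)
    have hP1 := one_le_nmf b
    have hP2 : nmf b ^ 2 ≤ X := by
      refine le_trans ?_ hVX
      calc nmf b ^ 2 ≤ (V ^ Fintype.card L) ^ 2 := Nat.pow_le_pow_left (nmf_le_pow hb') 2
        _ = V ^ (2 * Fintype.card L) := by rw [← pow_mul, mul_comm]
    obtain ⟨hY2, hYle, hYlog⟩ := div_log X (nmf b) (1 / (M : ℝ)) hX16 hP1 hP2 hδ0 hδ1
    refine (hin V hV b hb' hub _ hY2).trans ?_
    have hlY : 0 ≤ Real.log ((X / nmf b : ℕ) : ℝ) ^ (-(1 / (M : ℝ))) :=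
      Real.rpow_nonneg (Real.log_nonneg (by exact_mod_cast (by omega : 1 ≤ X / nmf b))) _
    have hP0 : (0 : ℝ) ≤ 1 / nmf b := by positivity
    calc C1 * ((X / nmf b : ℕ) : ℝ) * Real.log ((X / nmf b : ℕ) : ℝ) ^ (-(1 / (M : ℝ))) *
          (1 + Real.log V) ^ n
        = C1 * (1 + Real.log V) ^ n * (((X / nmf b : ℕ) : ℝ) *
          Real.log ((X / nmf b : ℕ) : ℝ) ^ (-(1 / (M : ℝ)))) := by ring
      _ ≤ C1 * (1 + Real.log V) ^ n * ((X * (1 / nmf b)) *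
          (4 * Real.log X ^ (-(1 / (M : ℝ))))) := by
          apply mul_le_mul_of_nonneg_left _ (by positivity)
          exact mul_le_mul hYle hYlog hlY (by positivity)
      _ = 4 * C1 * X * Real.log X ^ (-(1 / (M : ℝ))) * (1 + Real.log V) ^ n * (1 / nmf b) := by
          ring
  calc ‖∑ b ∈ (SmB ι V U).erase (fun _ : L => (∅ : Finset ι)),
        ∑ S ∈ (Sx ι (X / nmf b)).filter (fun S => Disjoint S (uni b)),
          ∑ d ∈ FamU U S, G (fun l => b l ∪ d l)‖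
      ≤ ∑ b ∈ (SmB ι V U).erase (fun _ : L => (∅ : Finset ι)),
        ‖∑ S ∈ (Sx ι (X / nmf b)).filter (fun S => Disjoint S (uni b)),
          ∑ d ∈ FamU U S, G (fun l => b l ∪ d l)‖ := norm_sum_le _ _
    _ ≤ ∑ b ∈ (SmB ι V U).erase (fun _ : L => (∅ : Finset ι)),
        4 * C1 * X * Real.log X ^ (-(1 / (M : ℝ))) * (1 + Real.log V) ^ n * (1 / nmf b) :=
        sum_le_sum hterm
    _ ≤ ∑ b ∈ SmB ι V U,
        4 * C1 * X * Real.log X ^ (-(1 / (M : ℝ))) * (1 + Real.log V) ^ n * (1 / nmf b) :=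
        sum_le_sum_of_subset_of_nonneg (erase_subset _ _) fun b _ _ => by positivity
    _ = 4 * C1 * X * Real.log X ^ (-(1 / (M : ℝ))) * (1 + Real.log V) ^ n *
        ∑ b ∈ SmB ι V U, (1 : ℝ) / nmf b := by rw [mul_sum]
    _ ≤ 4 * C1 * X * Real.log X ^ (-(1 / (M : ℝ))) * (1 + Real.log V) ^ n *
        (K ^ Fintype.card L * (1 + Real.log V) ^ Fintype.card L) :=
        mul_le_mul_of_nonneg_left (harm_fam hK1 hharm V hV U) (by positivity)
    _ = 4 * C1 * K ^ Fintype.card L * X * Real.log X ^ (-(1 / (M : ℝ))) *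
        (1 + Real.log V) ^ (Fintype.card L + n) := by
        rw [pow_add]
        ring

private theorem K43_part (X V : ℕ) (G : (L → Finset ι) → ℂ) :
    ∑ d ∈ Box ι L X, G d = ∑ Z : Finset L, ∑ d ∈ BoxZ ι X V Z, G d := by
  classical
  rw [← Finset.sum_fiberwise (Box ι L X) (fun d => univ.filter fun l => V < nm (d l)) G]
  refine Finset.sum_congr rfl fun Z _ => Finset.sum_congr ?_ fun _ _ => rfl
  ext d
  rw [mem_filter, mem_Box, mem_BoxZ, and_assoc]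
  refine and_congr_right fun _ => and_congr_right fun _ => ?_
  constructor
  · rintro rfl l
    simp
  · intro h
    ext l
    rw [mem_filter]
    exact ⟨fun hl => (h l).2 hl.2, fun hl => ⟨mem_univ _, (h l).1 hl⟩⟩

private theorem K43_small (G : (L → Finset ι) → ℂ) (X V : ℕ) (Z : Finset L) :
    ∑ d ∈ BoxZ ι X V Z, ‖G d‖ ≤ ∑ d ∈ BoxS ι X V Z, ‖G d‖ := by
  refine Finset.sum_le_sum_of_subset_of_nonneg ?_ fun _ _ _ => norm_nonneg _
  intro d hd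
  rw [mem_BoxZ] at hd
  rw [mem_BoxS]
  refine ⟨hd.1, hd.2.1, fun l hl => ?_⟩
  by_contra h
  push Not at h
  exact hl ((hd.2.2 l).2 h)

private theorem K43_biUnion {α β : Type} [DecidableEq α] [DecidableEq β] (U : Finset α)
    (T : α → Finset β) (f : β → ℝ) (hf : ∀ x, 0 ≤ f x) :
    ∑ x ∈ U.biUnion T, f x ≤ ∑ l ∈ U, ∑ x ∈ T l, f x := by
  induction U using Finset.induction_on with
  | empty => simp
  | insert a U ha ih =>
    rw [Finset.biUnion_insert, Finset.sum_insert ha]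
    have h := Finset.sum_union_inter (s₁ := T a) (s₂ := U.biUnion T) (f := f)
    have h0 : 0 ≤ ∑ x ∈ T a ∩ U.biUnion T, f x := Finset.sum_nonneg fun x _ => hf x
    linarith

private theorem K43_exact (G : (L → Finset ι) → ℂ) (X V : ℕ) (U : Finset L) :
    ‖∑ d ∈ BoxZ ι X V U, G d - ∑ d ∈ BoxS ι X V U, G d‖ ≤
      ∑ l ∈ U, ∑ d ∈ BoxS ι X V (U.erase l), ‖G d‖ := by
  classical
  have hsub : BoxZ ι X V U ⊆ BoxS ι X V U := by
    intro d hd
    rw [mem_BoxZ] at hd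
    rw [mem_BoxS]
    refine ⟨hd.1, hd.2.1, fun l hl => ?_⟩
    by_contra h
    push Not at h
    exact hl ((hd.2.2 l).2 h)
  have h1 : ∑ d ∈ BoxS ι X V U, G d = ∑ d ∈ BoxS ι X V U \ BoxZ ι X V U, G d +
      ∑ d ∈ BoxZ ι X V U, G d := (Finset.sum_sdiff hsub).symm
  rw [h1]
  have h2 : ∑ d ∈ BoxZ ι X V U, G d - (∑ d ∈ BoxS ι X V U \ BoxZ ι X V U, G d +
      ∑ d ∈ BoxZ ι X V U, G d) = - ∑ d ∈ BoxS ι X V U \ BoxZ ι X V U, G d := by ring
  rw [h2, norm_neg]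
  refine (norm_sum_le _ _).trans ?_
  have hsub2 : BoxS ι X V U \ BoxZ ι X V U ⊆ U.biUnion fun l => BoxS ι X V (U.erase l) := by
    intro d hd
    rw [mem_sdiff, mem_BoxS, mem_BoxZ] at hd
    obtain ⟨⟨hd1, hd2, hd3⟩, hd4⟩ := hd
    have : ∃ l ∈ U, nm (d l) ≤ V := by
      by_contra hcon
      push Not at hcon
      refine hd4 ⟨hd1, hd2, fun l => ⟨fun hl => hcon l hl, fun hl => ?_⟩⟩
      by_contra hl2
      have := hd3 l hl2
      omega
    obtain ⟨l, hl, hl2⟩ := this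
    rw [mem_biUnion]
    refine ⟨l, hl, ?_⟩
    rw [mem_BoxS]
    refine ⟨hd1, hd2, fun l' hl' => ?_⟩
    by_cases h : l' = l
    · rw [h]; exact hl2
    · refine hd3 l' fun h' => hl' (mem_erase.2 ⟨h, h'⟩)
  refine (Finset.sum_le_sum_of_subset_of_nonneg hsub2 fun _ _ _ => norm_nonneg _).trans ?_
  exact K43_biUnion U (fun l => BoxS ι X V (U.erase l)) _ fun _ => norm_nonneg _

private theorem K43_Qb_mono {C C' δ δ' : ℝ} {n n' X V : ℕ} (hC : 0 ≤ C) (hCC : C ≤ C') (hδ : δ' ≤ δ)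
    (hn : n ≤ n') (hX : 16 ≤ X) (hV : 1 ≤ V) : Qb C δ n X V ≤ Qb C' δ' n' X V := by
  have hlogX1 : 1 ≤ Real.log X := by
    have h3 : (16 : ℝ) ≤ X := by exact_mod_cast hX
    have h1 : Real.exp 1 ≤ X := by
      have h2 := Real.exp_one_lt_d9
      linarith
    rw [Real.le_log_iff_exp_le (by linarith)]
    exact h1
  have hlogV : 0 ≤ Real.log V := Real.log_nonneg (by exact_mod_cast hV)
  have hX0 : (0 : ℝ) ≤ X := Nat.cast_nonneg X
  have h1 : Real.log X ^ (-δ) ≤ Real.log X ^ (-δ') :=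
    Real.rpow_le_rpow_of_exponent_le hlogX1 (by linarith)
  have h2 : (1 + Real.log V) ^ n ≤ (1 + Real.log V) ^ n' := pow_le_pow_right₀ (by linarith) hn
  have h3 : 0 ≤ Real.log X ^ (-δ) := Real.rpow_nonneg (by linarith) _
  unfold Qb
  refine mul_le_mul (mul_le_mul (mul_le_mul_of_nonneg_right hCC hX0) h1 h3 ?_) h2
    (by positivity) ?_
  · exact mul_nonneg (hC.trans hCC) hX0
  · exact mul_nonneg (mul_nonneg (hC.trans hCC) hX0) (h3.trans h1)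

private theorem K43_theta {Λ : LS2 L ι κ} {w : L → (κ → ZMod 2) → ℝ} {u : L → ι → ℂ} (h : UOK Λ w u) :
    ∃ θ : ℝ, 0 < θ ∧ θ ≤ 1 / 2 ∧ ∀ l, θ ≤ w l 0 := by
  refine ⟨(univ : Finset (Option L)).inf' ⟨none, mem_univ _⟩ (fun o => o.elim (1 / 2) fun l => w l 0), ?_, ?_, ?_⟩
  · rw [lt_inf'_iff]
    rintro (_ | l) _
    · show (0 : ℝ) < 1 / 2
      norm_num
    · exact h.wz l
  · exact inf'_le (fun o : Option L => o.elim (1 / 2 : ℝ) fun l => w l 0) (mem_univ none)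
  · exact fun l => inf'_le (fun o : Option L => o.elim (1 / 2 : ℝ) fun l => w l 0) (mem_univ (some l))

private theorem K43_wu (D : Dat2 ι κ) {Λ : LS2 L ι κ} (hB : Λ.B = ∅) (w : L → (κ → ZMod 2) → ℝ)
    (u : L → ι → ℂ) (l : L) (q : ι) : wu D Λ.c w u l q = hU D w u l q * e2 (D.lin Λ l q) := by
  have h1 : D.lin Λ l q = ∑ j, Λ.c l j * D.a q j := by
    unfold Dat2.lin Dat2.ex
    rw [hB, sum_empty, add_zero]
  rw [h1]
  rfl

private theorem K43_eng {D : Dat2 ι κ} (hD : D.OK) (hN : D.NV1) {Λ : LS2 L ι κ}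
    {w : L → (κ → ZMod 2) → ℝ} {u : L → ι → ℂ} (h : UOK Λ w u) (ε : ℝ) (hε : 0 < ε) :
    ∃ X₀ : ℕ, ∀ X : ℕ, X₀ ≤ X →
      ‖∑ d ∈ Box ι L X, FG D Λ (hU D w u) d -
        ∑ U ∈ FullW Λ w, ∑ S ∈ Sx ι X, ∏ q ∈ S, HG D Λ (hU D w u) U (fun _ => ∅) q‖ ≤ ε * X := by
  classical
  have hΛ := h.ok
  have hw0 := h.w0
  have hwU := h.wU
  have hw1 : ∀ l φ, w l φ ≤ 1 := by
    intro l φ
    have h1 := hwU {l} (fun a ha b hb => by
      rw [mem_singleton.1 ha, mem_singleton.1 hb]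
      unfold LS2.lk
      rw [hΛ.diag, add_zero]) φ
    rwa [sum_singleton] at h1
  have hh1 : ∀ l q, ‖hU D w u l q‖ ≤ 1 := fun l q => by
    exact (hU_norm D hw0 h.u1 l q).trans (hw1 l _)
  obtain ⟨C1, K1, c1, hC1, hc1, hlin⟩ := linkedW D hD Λ hΛ
  -- the sets which are not full
  have hsmall : ∀ Z : Finset L, Λ.Unl Z → (∃ φ, ∑ l ∈ Z, w l φ < 1) →
      ∃ C δ : ℝ, 0 < C ∧ 0 < δ ∧ ∀ X V : ℕ, 16 ≤ X → 1 ≤ V → V ^ (2 * Fintype.card L) ≤ X →
        ∑ d ∈ BoxS ι X V Z, ‖FG D Λ (hU D w u) d‖ ≤ Qb C δ (Fintype.card L) X V := by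
    rintro Z hZ ⟨φ, hφ⟩
    obtain ⟨M, hM1, hM⟩ := exM κ (1 - ∑ l ∈ Z, w l φ) (by linarith)
    obtain ⟨BN, hBN⟩ := chN_CB hD (fun c hc => hN ∅ c (Or.inr hc)) φ
    obtain ⟨C, hC, hs⟩ := smallW D hD Λ M hM1 (chN D φ) BN hBN
    have hM0 : (0 : ℝ) < M := by exact_mod_cast (by omega : 0 < M)
    refine ⟨C, 1 / M, hC, by positivity, fun X V hx hV hVX => ?_⟩
    refine hs (hU D w u) hh1 X V Z hx hV hVX fun q => ?_
    have e1 : ∑ l ∈ Z, ‖hU D w u l q‖ ≤ ∑ l ∈ Z, w l (D.a q) :=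
      sum_le_sum fun l _ => hU_norm D hw0 h.u1 l q
    refine ⟨e1.trans (hwU Z hZ _), chN_bd D φ q hM1 (e1.trans (hwU Z hZ _)) fun h1 => ?_⟩
    refine e1.trans ?_
    rw [h1]
    linarith
  -- the full sets
  obtain ⟨θ, hθ, hθ2, hwz⟩ := K43_theta h
  obtain ⟨M, hM1, hM⟩ := exM κ θ hθ
  obtain ⟨C3, hC3, hin⟩ := inbU hD hN h hθ hθ2 hwz hM1 hM
  have hfull : ∀ U : Finset L, U ∈ Λ.Us → (∀ φ, ∑ l ∈ U, w l φ = 1) →
      ∃ C δ : ℝ, 0 < C ∧ 0 < δ ∧ ∀ X V : ℕ, 16 ≤ X → 1 ≤ V → V ^ (2 * Fintype.card L) ≤ X →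
        ‖∑ d ∈ BoxS ι X V U, FG D Λ (hU D w u) d -
          ∑ S ∈ Sx ι X, ∏ q ∈ S, HG D Λ (hU D w u) U (fun _ => ∅) q‖ ≤
          Qb C δ (Fintype.card L + 2 ^ Fintype.card κ) X V := by
    intro U hUl hUf
    obtain ⟨C, hC, hb⟩ := K43_boxX hD U M (2 ^ Fintype.card κ) hM1 C3 hC3
      (hin U (mem_FullW.2 ⟨hUl, hUf⟩))
    refine ⟨C, 1 / (M : ℝ), hC, ?_, fun X V hx hV hVX => ?_⟩
    · exact one_div_pos.2 (by exact_mod_cast (by omega : 0 < M))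
    · have h1 : ∑ S ∈ Sx ι X, ∏ q ∈ S, HG D Λ (hU D w u) U (fun _ => ∅) q =
          ∑ S ∈ Sx ι X, ∑ d ∈ FamU U S, FG D Λ (hU D w u) d := by
        refine sum_congr rfl fun S _ => ?_
        have h2 := innerW D hD.sym Λ hΛ (hU D w u) U ((Λ.mem_Us U).1 hUl).1 (fun _ => ∅) S
          (by rw [uni_empty]; exact disjoint_empty_right _)
        rw [ee_empty, e2_zero, mul_one] at h2
        simp only [prod_empty, prod_const_one, one_mul, empty_union] at h2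
        exact h2.symm
      rw [h1]
      exact hb X V hx hV hVX
  -- one bound for all the sets
  set n := Fintype.card L with hn
  set N : ℕ := n + 2 ^ Fintype.card κ with hN'
  have hall : ∀ Z : Finset L, ∃ C δ : ℝ, 0 < C ∧ 0 < δ ∧
      ((Λ.Unl Z → (∃ φ, ∑ l ∈ Z, w l φ < 1) → ∀ X V : ℕ, 16 ≤ X → 1 ≤ V →
        V ^ (2 * n) ≤ X → ∑ d ∈ BoxS ι X V Z, ‖FG D Λ (hU D w u) d‖ ≤ Qb C δ N X V) ∧
      (Z ∈ Λ.Us → (∀ φ, ∑ l ∈ Z, w l φ = 1) → ∀ X V : ℕ, 16 ≤ X → 1 ≤ V → V ^ (2 * n) ≤ X →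
        ‖∑ d ∈ BoxS ι X V Z, FG D Λ (hU D w u) d -
          ∑ S ∈ Sx ι X, ∏ q ∈ S, HG D Λ (hU D w u) Z (fun _ => ∅) q‖ ≤ Qb C δ N X V)) := by
    intro Z
    by_cases h1 : Λ.Unl Z ∧ ∃ φ, ∑ l ∈ Z, w l φ < 1
    · obtain ⟨C, δ, hC, hδ, hb⟩ := hsmall Z h1.1 h1.2
      refine ⟨C, δ, hC, hδ, fun _ _ X V hx hV hVX => (hb X V hx hV hVX).trans
        (K43_Qb_mono hC.le le_rfl le_rfl (Nat.le_add_right _ _) hx hV), fun _ h2 => ?_⟩
      obtain ⟨φ, hφ⟩ := h1.2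
      exact absurd (h2 φ) (ne_of_lt hφ)
    · by_cases h2 : Z ∈ Λ.Us ∧ ∀ φ, ∑ l ∈ Z, w l φ = 1
      · obtain ⟨C, δ, hC, hδ, hb⟩ := hfull Z h2.1 h2.2
        exact ⟨C, δ, hC, hδ, fun h3 h4 => absurd ⟨h3, h4⟩ h1, fun _ _ => hb⟩
      · exact ⟨1, 1, one_pos, one_pos, fun h3 h4 => absurd ⟨h3, h4⟩ h1,
          fun h3 h4 => absurd ⟨h3, h4⟩ h2⟩
  choose Cf δf hCf hδf hbf using hall
  obtain ⟨CC, hCC⟩ : ∃ CC : ℝ, CC = C1 + (n + 1) * ∑ Z : Finset L, Cf Z := ⟨_, rfl⟩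
  have hsumC : ∀ Z : Finset L, Cf Z ≤ ∑ Z : Finset L, Cf Z := fun Z =>
    single_le_sum (fun Z _ => (hCf Z).le) (mem_univ Z)
  obtain ⟨δ, hδ0, hδ⟩ : ∃ δ : ℝ, 0 < δ ∧ ∀ Z : Finset L, δ ≤ δf Z := by
    refine ⟨(univ : Finset (Finset L)).inf' ⟨∅, mem_univ _⟩ δf, ?_, fun Z =>
      inf'_le _ (mem_univ Z)⟩
    rw [lt_inf'_iff]
    exact fun Z _ => hδf Z
  have h2n : (0 : ℝ) < 2 ^ n := by positivity
  set e1 : ℝ := ε / (4 * 2 ^ n) with he1
  have he1p : 0 < e1 := by positivity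
  obtain ⟨X2, hX2⟩ := chooseV CC K1 N (2 * n) c1 δ e1 hc1 hδ0 he1p
  refine ⟨max X2 16, fun X hx => ?_⟩
  have hXX2 : X2 ≤ X := (le_max_left _ _).trans hx
  have hX16 : 16 ≤ X := (le_max_right _ _).trans hx
  obtain ⟨V, hV1, hVn, hVa, hVb⟩ := hX2 X hXX2
  have hXr : (0 : ℝ) ≤ X := Nat.cast_nonneg X
  have hlogX : 0 ≤ Real.log X := Real.log_natCast_nonneg X
  have hVr : (1 : ℝ) ≤ V := by exact_mod_cast hV1
  have hlogV : 0 ≤ Real.log V := Real.log_nonneg hVr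
  have hn0 : (0 : ℝ) ≤ n := Nat.cast_nonneg n
  have hS0 : 0 ≤ ∑ Z : Finset L, Cf Z := sum_nonneg fun Z _ => (hCf Z).le
  have hC1C : C1 ≤ CC := by
    rw [hCC]
    nlinarith
  set P : ℝ := (1 + Real.log X) ^ K1 * (V : ℝ) ^ (-c1) with hP
  have hP0 : 0 ≤ P := by positivity
  have hPe : CC * P ≤ e1 := by rw [hP, ← mul_assoc]; exact hVa
  set Q : ℝ := Real.log X ^ (-δ) * (1 + Real.log V) ^ N with hQ
  have hQ0 : 0 ≤ Q := by positivity
  have hQe : CC * Q ≤ e1 := by rw [hQ, ← mul_assoc]; exact hVb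
  have hQb : ∀ Z : Finset L, Qb (Cf Z) (δf Z) N X V ≤ (∑ Z : Finset L, Cf Z) * Q * X := by
    intro Z
    refine (K43_Qb_mono (hCf Z).le (hsumC Z) (hδ Z) le_rfl hX16 hV1).trans (le_of_eq ?_)
    unfold Qb
    rw [hQ]
    ring
  have hsub : ∀ Z Z' : Finset L, Z' ⊆ Z → Λ.Unl Z → Λ.Unl Z' := fun Z Z' hs hZ l hl m hm =>
    hZ l (hs hl) m (hs hm)
  have hcard := h.sm
  have hsm' : ∀ Z : Finset L, Λ.Unl Z → (∃ φ, ∑ l ∈ Z, w l φ < 1) →
      ∑ d ∈ BoxS ι X V Z, ‖FG D Λ (hU D w u) d‖ ≤ (∑ Z : Finset L, Cf Z) * Q * X :=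
    fun Z hZ hφ => ((hbf Z).1 hZ hφ X V hX16 hV1 hVn).trans (hQb Z)
  have hSQ : (∑ Z : Finset L, Cf Z) * Q * X ≤ e1 * X := by
    refine mul_le_mul_of_nonneg_right (le_trans ?_ hQe) hXr
    refine mul_le_mul_of_nonneg_right ?_ hQ0
    rw [hCC]
    nlinarith
  -- the target for each pattern
  set t : Finset L → ℂ := fun Z => if Z ∈ Λ.Us ∧ ∀ φ, ∑ l ∈ Z, w l φ = 1 then
    ∑ S ∈ Sx ι X, ∏ q ∈ S, HG D Λ (hU D w u) Z (fun _ => ∅) q else 0 with ht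
  have hbound : ∀ Z : Finset L, ‖∑ d ∈ BoxZ ι X V Z, FG D Λ (hU D w u) d - t Z‖ ≤
      2 * e1 * X := by
    intro Z
    by_cases hUl : Λ.Unl Z
    · by_cases hc : Z ∈ Λ.Us ∧ ∀ φ, ∑ l ∈ Z, w l φ = 1
      · have h1 : t Z = ∑ S ∈ Sx ι X, ∏ q ∈ S, HG D Λ (hU D w u) Z (fun _ => ∅) q := if_pos hc
        rw [h1]
        have h2 := ((hbf Z).2 hc.1 hc.2 X V hX16 hV1 hVn).trans (hQb Z)
        have h3 := K43_exact (FG D Λ (hU D w u)) X V Z
        have hZm := ((Λ.mem_Us Z).1 hc.1).2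
        have h4 : ∑ l ∈ Z, ∑ d ∈ BoxS ι X V (Z.erase l), ‖FG D Λ (hU D w u) d‖ ≤
            n * ((∑ Z : Finset L, Cf Z) * Q * X) := by
          have h5 : (Z.card : ℝ) ≤ n := by
            rw [hn]
            exact_mod_cast Finset.card_le_univ Z
          calc ∑ l ∈ Z, ∑ d ∈ BoxS ι X V (Z.erase l), ‖FG D Λ (hU D w u) d‖
              ≤ Z.card • ((∑ Z : Finset L, Cf Z) * Q * X) := by
                refine Finset.sum_le_card_nsmul _ _ _ fun l hl => ?_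
                refine hsm' _ (hsub Z _ (erase_subset l Z) hUl)
                  (hcard _ (hsub Z _ (erase_subset l Z) hUl) ?_)
                rw [← hZm]
                exact Finset.card_erase_lt_of_mem hl
            _ = Z.card * ((∑ Z : Finset L, Cf Z) * Q * X) := nsmul_eq_mul _ _
            _ ≤ n * ((∑ Z : Finset L, Cf Z) * Q * X) :=
                mul_le_mul_of_nonneg_right h5 (by positivity)
        have h6 : ∑ d ∈ BoxZ ι X V Z, FG D Λ (hU D w u) d -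
            ∑ S ∈ Sx ι X, ∏ q ∈ S, HG D Λ (hU D w u) Z (fun _ => ∅) q =
            (∑ d ∈ BoxZ ι X V Z, FG D Λ (hU D w u) d -
              ∑ d ∈ BoxS ι X V Z, FG D Λ (hU D w u) d) +
            (∑ d ∈ BoxS ι X V Z, FG D Λ (hU D w u) d -
              ∑ S ∈ Sx ι X, ∏ q ∈ S, HG D Λ (hU D w u) Z (fun _ => ∅) q) := by ring
        rw [h6]
        refine (norm_add_le _ _).trans ((add_le_add (h3.trans h4) h2).trans ?_)
        calc n * ((∑ Z : Finset L, Cf Z) * Q * X) + (∑ Z : Finset L, Cf Z) * Q * X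
            = ((n + 1) * ∑ Z : Finset L, Cf Z) * Q * X := by ring
          _ ≤ CC * Q * X := by
              refine mul_le_mul_of_nonneg_right (mul_le_mul_of_nonneg_right ?_ hQ0) hXr
              rw [hCC]
              linarith
          _ ≤ e1 * X := mul_le_mul_of_nonneg_right hQe hXr
          _ ≤ 2 * e1 * X := by nlinarith
      · have h1 : t Z = 0 := if_neg hc
        rw [h1, sub_zero]
        have hφ : ∃ φ, ∑ l ∈ Z, w l φ < 1 := by
          by_cases h2 : Z.card = Λ.m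
          · by_contra h3
            push Not at h3
            exact hc ⟨(Λ.mem_Us Z).2 ⟨hUl, h2⟩, fun φ => le_antisymm (hwU Z hUl φ) (h3 φ)⟩
          · exact hcard Z hUl (lt_of_le_of_ne (hΛ.k1 Z hUl) h2)
        have h2 := (norm_sum_le (BoxZ ι X V Z) (fun d => FG D Λ (hU D w u) d)).trans
          ((K43_small (FG D Λ (hU D w u)) X V Z).trans (hsm' Z hUl hφ))
        refine h2.trans (hSQ.trans ?_)
        nlinarith
    · have hc : ¬ (Z ∈ Λ.Us ∧ ∀ φ, ∑ l ∈ Z, w l φ = 1) := fun h => hUl ((Λ.mem_Us Z).1 h.1).1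
      have h1 : t Z = 0 := if_neg hc
      rw [h1, sub_zero]
      unfold LS2.Unl at hUl
      push Not at hUl
      obtain ⟨l0, hl0, l1, hl1, hl⟩ := hUl
      refine (hlin (hU D w u) hh1 X V Z l0 l1 (by omega) hV1 hl0 hl1 hl).trans ?_
      calc C1 * X * (1 + Real.log X) ^ K1 * (V : ℝ) ^ (-c1) = (C1 * P) * X := by rw [hP]; ring
        _ ≤ (CC * P) * X := by
            refine mul_le_mul_of_nonneg_right ?_ hXr
            exact mul_le_mul_of_nonneg_right hC1C hP0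
        _ ≤ e1 * X := mul_le_mul_of_nonneg_right hPe hXr
        _ ≤ 2 * e1 * X := by nlinarith
  have ht2 : ∑ Z : Finset L, t Z =
      ∑ U ∈ FullW Λ w, ∑ S ∈ Sx ι X, ∏ q ∈ S, HG D Λ (hU D w u) U (fun _ => ∅) q := by
    have hF : FullW Λ w = univ.filter (fun U : Finset L => U ∈ Λ.Us ∧ ∀ φ, ∑ l ∈ U, w l φ = 1) := by
      ext U
      rw [mem_FullW, mem_filter]
      exact ⟨fun h => ⟨mem_univ _, h⟩, fun h => h.2⟩
    rw [hF, sum_filter]
  rw [K43_part X V, ← ht2, ← Finset.sum_sub_distrib]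
  refine (norm_sum_le _ _).trans ((Finset.sum_le_sum fun Z _ => hbound Z).trans ?_)
  rw [Finset.sum_const, Finset.card_univ, Fintype.card_finset, nsmul_eq_mul, he1]
  push_cast
  have : (2 : ℝ) ^ Fintype.card L * (2 * (ε / (4 * 2 ^ n)) * X) = ε / 2 * X := by
    rw [← hn]
    field_simp
    ring
  rw [this]
  nlinarith

/-- **K4_3** (medium, a copy with changes). **The engine, with factors which depend on the label.**
Proof. (1) The first sum is `∑ d ∈ Box ι L X, FG D Λ (hU D w u) d`: by `expandW D Λ (hU D w u) X` this is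
`∑ S ∈ Sx ι X, ∑ f : S → L, (∏ j : S, hU D w u (f j) j) * e2 (D.eS Λ S f)`; `D.eS Λ S f` is
`∑ j : S, D.lin Λ (f j) j + ∑ j, ∑ k, Λ.Phi (f j) (f k) * D.s j k`, `D.lin Λ l q = ∑ j, Λ.c l j * D.a q j` because
`Λ.B = ∅` (see `ex_lin` in MP_1a91b9_ntM/E/EngX.lean), and `e2_add`, `e2_sum`, `prod_mul_distrib` give `BF` of
`wu D Λ.c w u`. In the same way `∑ l ∈ U, wu D Λ.c w u l q = HG D Λ (hU D w u) U (fun _ => ∅) q` (`xq_empty`; see
the proof of `engX` in MP_1a91b9_ntM/E/EngX.lean).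
(2) For the sum over the box copy the proof of `engineX` (MP_1a91b9_ntQ/DW/XEng.lean, with its private lemmas
`boxX`, `engx_part`, `engx_small`, `engx_biUnion`, `engx_exact`, `Qb_mono`; `Qb` is public) with these changes:
`hX D w h g` becomes `hU D w u`; the norms are `‖hU D w u l q‖ ≤ w l (D.a q)` (`hU_norm`, in `hsmall` `sum_le_sum`
in place of `sum_congr`); `2 * Λ.m * 2 ^ card κ` becomes the `M` of `exM κ θ hθ`, where `0 < θ ≤ 1 / 2` and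
`θ ≤ w l 0` for all `l` (`L` is finite, `h.wz`; for example `θ = min (1 / 2) (inf)`, or
`Finset.exists_min_image` / induction); `inbX` becomes `inbU hD hN h hθ hθ2 hwz hM1 hM`; the set
`univ.filter (fun U => U ∈ Λ.Us ∧ ∀ φ, ...)` is `FullW Λ w` (`mem_FullW`); `hN` for `chN_CB` is
`fun c hc => hN ∅ c (Or.inr hc)`; `hcard` (an unlinked set with fewer than `Λ.m` elements has a sum `< 1` for some
`φ`) is `h.sm`. -/
theorem engineU {D : Dat2 ι κ} (hD : D.OK) (hN : D.NV1) {Λ : LS2 L ι κ}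
    {w : L → (κ → ZMod 2) → ℝ} {u : L → ι → ℂ} (h : UOK Λ w u) (ε : ℝ) (hε : 0 < ε) :
    ∃ X₀ : ℕ, ∀ X : ℕ, X₀ ≤ X →
      ‖∑ S ∈ Sx ι X, BF D Λ.Phi (wu D Λ.c w u) S -
        ∑ U ∈ FullW Λ w, ∑ S ∈ Sx ι X, ∏ q ∈ S, ∑ l ∈ U, wu D Λ.c w u l q‖ ≤ ε * X := by
  obtain ⟨X₀, hX₀⟩ := K43_eng hD hN h ε hε
  refine ⟨X₀, fun X hx => ?_⟩
  have h1 : ∑ S ∈ Sx ι X, BF D Λ.Phi (wu D Λ.c w u) S = ∑ d ∈ Box ι L X, FG D Λ (hU D w u) d := by
    rw [← expandW D Λ (hU D w u) X]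
    unfold BF
    refine sum_congr rfl fun S _ => sum_congr rfl fun f _ => ?_
    unfold Dat2.eS
    have e1 : ∏ j : S, wu D Λ.c w u (f j) j =
        (∏ j : S, hU D w u (f j) j) * e2 (∑ j : S, D.lin Λ (f j) j) := by
      rw [e2_sum, ← prod_mul_distrib]
      exact prod_congr rfl fun j _ => K43_wu D h.B w u (f j) j
    rw [e1, e2_add, mul_assoc]
  have h2 : ∑ U ∈ FullW Λ w, ∑ S ∈ Sx ι X, ∏ q ∈ S, ∑ l ∈ U, wu D Λ.c w u l q =
      ∑ U ∈ FullW Λ w, ∑ S ∈ Sx ι X, ∏ q ∈ S, HG D Λ (hU D w u) U (fun _ => ∅) q := by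
    refine sum_congr rfl fun U _ => sum_congr rfl fun S _ => prod_congr rfl fun q _ => ?_
    unfold HG
    refine sum_congr rfl fun l _ => ?_
    rw [xq_empty, K43_wu D h.B]
  rw [h1, h2]
  exact hX₀ X hx

end

end Pool.Agent.Lib.MP_1a91b9_ntDV.G4
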