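import Pool.Agent.Lib.MP_1a91b9_ntDV.K4_0

set_option autoImplicit false
set_option linter.unusedSectionVars false

namespace Pool.Agent.Lib.MP_1a91b9_ntDV.G4

open Finset Pool.Agent.Lib.MP_1a91b9_ntH Pool.Agent.Lib.MP_1a91b9_ntQ Pool.Agent.Lib.MP_1a91b9_ntQ.Da
  Pool.Agent.Lib.MP_1a91b9_ntQ.M Pool.Agent.Lib.MP_1a91b9_ntM Pool.Agent.Lib.MP_1a91b9_ntM.E

noncomputable section

variable {ι : Type} [DecidableEq ι] {κ : Type} [Fintype κ] [DecidableEq κ] {L L' : Type}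
  [Fintype L] [DecidableEq L] [Fintype L'] [DecidableEq L']

/-- **K4_4a** (easy+). The splitting of a sum over a set of pairs of labels. Proof: `Z` is the disjoint union of its
four parts. For example `∑ x ∈ Z, F x = ∑ x : Option L × Option L', if x ∈ Z then F x else 0`, then
`Fintype.sum_prod_type`, `Fintype.sum_option` (twice), `mem_z10` and so on with `Finset.sum_filter`, and
`Fintype.sum_prod_type` for the last part. -/
theorem sum_z {M : Type} [AddCommMonoid M] (Z : Finset (Option L × Option L'))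
    (F : Option L × Option L' → M) :
    ∑ x ∈ Z, F x = z00 Z • F (none, none) + ∑ l ∈ z10 Z, F (some l, none) +
      ∑ l ∈ z01 Z, F (none, some l) + ∑ x ∈ z11 Z, F (some x.1, some x.2) := by
  have h0 : ∑ x ∈ Z, F x = ∑ x : Option L × Option L', if x ∈ Z then F x else 0 := by
    rw [← Finset.sum_filter, Finset.filter_mem_eq_inter, Finset.univ_inter]
  have h1 : z00 Z • F (none, none) =
      if ((none, none) : Option L × Option L') ∈ Z then F (none, none) else 0 := by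
    unfold z00
    split_ifs
    · exact one_nsmul _
    · exact zero_nsmul _
  have h2 : ∑ x : L × L', (if ((some x.1, some x.2) : Option L × Option L') ∈ Z then
      F (some x.1, some x.2) else 0) =
      ∑ l : L, ∑ l' : L', if ((some l, some l') : Option L × Option L') ∈ Z then
        F (some l, some l') else 0 := Fintype.sum_prod_type _
  have h3 : ∀ o : Option L, ∑ p : Option L', (if ((o, p) : Option L × Option L') ∈ Z then
      F (o, p) else 0) = (if ((o, none) : Option L × Option L') ∈ Z then F (o, none) else 0) +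
      ∑ l' : L', if ((o, some l') : Option L × Option L') ∈ Z then F (o, some l') else 0 :=
    fun o => Fintype.sum_option _
  rw [h0, h1, z10, z01, z11, Finset.sum_filter, Finset.sum_filter, Finset.sum_filter, h2]
  have h4 : (∑ x : Option L × Option L', if x ∈ Z then F x else 0) =
      ∑ o : Option L, ∑ p : Option L', if ((o, p) : Option L × Option L') ∈ Z then
        F (o, p) else 0 := Fintype.sum_prod_type _
  rw [h4, Fintype.sum_option, h3, Finset.sum_congr rfl fun l _ => h3 (some l),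
    Finset.sum_add_distrib]
  abel

/-- **K4_4b** (easy). Proof: `sum_z` with `F = fun _ => 1` (`card_eq_sum_ones`). -/
theorem card_z (Z : Finset (Option L × Option L')) :
    Z.card = z00 Z + (z10 Z).card + (z01 Z).card + (z11 Z).card := by
  have h := sum_z Z (fun _ => (1 : ℕ))
  rw [← Finset.card_eq_sum_ones, ← Finset.card_eq_sum_ones, ← Finset.card_eq_sum_ones,
    ← Finset.card_eq_sum_ones, smul_eq_mul, mul_one] at h
  exact h

variable {Λ : LS2 L ι κ} {Λ' : LS2 L' ι κ} {w : L → (κ → ZMod 2) → ℝ} {w' : L' → (κ → ZMod 2) → ℝ}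

/-- **K4_4c** (easy). Proof: `L2x_lk`; the link of `(some l, none)` and `(some m, none)` is `Λ.lk l m + 0`. -/
theorem unl_z {Z : Finset (Option L × Option L')} (hZ : (L2x Λ Λ').Unl Z) :
    Λ.Unl (z10 Z) ∧ Λ'.Unl (z01 Z) ∧
      ∀ x ∈ z11 Z, ∀ y ∈ z11 Z, Λ.lk x.1 y.1 + Λ'.lk x.2 y.2 = 0 := by
  refine ⟨fun l hl m hm => ?_, fun l hl m hm => ?_, fun x hx y hy => ?_⟩
  · have h := hZ _ (mem_z10.1 hl) _ (mem_z10.1 hm)
    rw [L2x_lk] at h
    exact (add_zero (Λ.lk l m)).symm.trans h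
  · have h := hZ _ (mem_z01.1 hl) _ (mem_z01.1 hm)
    rw [L2x_lk] at h
    exact (zero_add (Λ'.lk l m)).symm.trans h
  · have h := hZ _ (mem_z11.1 hx) _ (mem_z11.1 hy)
    rw [L2x_lk] at h
    exact h

/-- **K4_4d** (easy+). Proof: `hj (z11 Z) (unl_z hZ).2.2 0`, where all the weights are `(Λ.m)⁻¹ * (Λ'.m)⁻¹` (`h.wz`,
`h'.wz`), so `card * ((Λ.m)⁻¹ * (Λ'.m)⁻¹) ≤ 1` and `1 ≤ Λ.m`, `1 ≤ Λ'.m`. -/
theorem card_z11 (h : QOK Λ w) (h' : QOK Λ' w') (hj : JU Λ Λ' w w')
    {Z : Finset (Option L × Option L')} (hZ : (L2x Λ Λ').Unl Z) :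
    (z11 Z).card ≤ Λ.m * Λ'.m := by
  have h1 := hj (z11 Z) (unl_z hZ).2.2 0
  have hm : (0 : ℝ) < Λ.m := by exact_mod_cast (h.mpos : 0 < Λ.m)
  have hm' : (0 : ℝ) < Λ'.m := by exact_mod_cast (h'.mpos : 0 < Λ'.m)
  rw [Finset.sum_congr rfl fun x _ => by rw [h.wz, h'.wz], Finset.sum_const, nsmul_eq_mul] at h1
  have h2 : ((z11 Z).card : ℝ) ≤ Λ.m * Λ'.m := by
    have h3 := mul_le_mul_of_nonneg_right h1 (mul_pos hm hm').le
    rw [one_mul, mul_assoc] at h3
    have h4 : ((Λ.m : ℝ)⁻¹ * (Λ'.m : ℝ)⁻¹) * ((Λ.m : ℝ) * Λ'.m) = 1 := by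
      field_simp
    rwa [h4, mul_one] at h3
  exact_mod_cast h2

/-- **K4_4e** (easy). Proof: `card_z`, `z00 Z ≤ 1`, `h.k1`, `h'.k1`, `card_z11`, and
`(m + 1) * (m' + 1) = 1 + m + m' + m * m'`. -/
theorem k1_2x (h : QOK Λ w) (h' : QOK Λ' w') (hj : JU Λ Λ' w w')
    {Z : Finset (Option L × Option L')} (hZ : (L2x Λ Λ').Unl Z) :
    Z.card ≤ (Λ.m + 1) * (Λ'.m + 1) := by
  have h1 := h.k1 _ (unl_z hZ).1
  have h2 := h'.k1 _ (unl_z hZ).2.1
  have h3 := card_z11 h h' hj hZ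
  have h4 : z00 Z ≤ 1 := by
    unfold z00
    split_ifs
    · exact le_rfl
    · exact Nat.zero_le 1
  rw [card_z]
  have h5 : (Λ.m + 1) * (Λ'.m + 1) = 1 + Λ.m + Λ'.m + Λ.m * Λ'.m := by ring
  rw [h5]
  omega

/-- **K4_4f** (easy+). Proof: `sum_z`; the four parts are at most `1 / 4`: `w2x (none, none) = 1 / 2 * (1 / 2)`,
`w2x (some l, none) = w l φ / 2 * (1 / 2)` (`h.wU`), the same for `z01`, and
`w2x (some l, some l') = w l φ / 2 * (w' l' φ / 2)` (`hj`). -/
theorem wU_2x (h : QOK Λ w) (h' : QOK Λ' w') (hj : JU Λ Λ' w w')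
    {Z : Finset (Option L × Option L')} (hZ : (L2x Λ Λ').Unl Z) (φ : κ → ZMod 2) :
    ∑ x ∈ Z, w2x w w' x φ ≤ 1 := by
  have h1 := h.wU _ (unl_z hZ).1 φ
  have h2 := h'.wU _ (unl_z hZ).2.1 φ
  have h3 := hj (z11 Z) (unl_z hZ).2.2 φ
  have h4 : (z00 Z : ℝ) ≤ 1 := by
    unfold z00
    split_ifs
    · exact_mod_cast le_rfl
    · exact_mod_cast Nat.zero_le 1
  have e1 : ∑ l ∈ z10 Z, w2x w w' ((some l, none) : Option L × Option L') φ =
      (∑ l ∈ z10 Z, w l φ) / 4 := by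
    rw [Finset.sum_div]
    refine Finset.sum_congr rfl fun l _ => ?_
    show w l φ / 2 * (1 / 2) = w l φ / 4
    ring
  have e2 : ∑ l ∈ z01 Z, w2x w w' ((none, some l) : Option L × Option L') φ =
      (∑ l ∈ z01 Z, w' l φ) / 4 := by
    rw [Finset.sum_div]
    refine Finset.sum_congr rfl fun l _ => ?_
    show 1 / 2 * (w' l φ / 2) = w' l φ / 4
    ring
  have e3 : ∑ x ∈ z11 Z, w2x w w' ((some x.1, some x.2) : Option L × Option L') φ =
      (∑ x ∈ z11 Z, w x.1 φ * w' x.2 φ) / 4 := by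
    rw [Finset.sum_div]
    refine Finset.sum_congr rfl fun x _ => ?_
    show w x.1 φ / 2 * (w' x.2 φ / 2) = w x.1 φ * w' x.2 φ / 4
    ring
  have e0 : w2x w w' ((none, none) : Option L × Option L') φ = 1 / 4 := by
    show (1 / 2 : ℝ) * (1 / 2) = 1 / 4
    norm_num
  rw [sum_z Z (fun x => w2x w w' x φ)]
  rw [e0, e1, e2, e3, nsmul_eq_mul]
  linarith

/-- **K4_4g** (easy+). Proof: `φ = 0`: by `sum_z`, `h.wz`, `h'.wz` the sum is
`(z00 + #z10 / m + #z01 / m' + #z11 / (m * m')) / 4`, where each of the four terms is at most `1`. If it were `1`,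
all of them would be `1`, so `Z.card = 1 + m + m' + m * m'` by `card_z`, a contradiction. (For example: multiply by
`m * m'` and use that `z00 = 1`, `#z10 = m` and so on follow from the equality of the sum, because all the
inequalities are known.) -/
theorem sm_2x (h : QOK Λ w) (h' : QOK Λ' w') (hj : JU Λ Λ' w w')
    {Z : Finset (Option L × Option L')} (hZ : (L2x Λ Λ').Unl Z)
    (hc : Z.card < (Λ.m + 1) * (Λ'.m + 1)) : ∃ φ, ∑ x ∈ Z, w2x w w' x φ < 1 := by
  have hm : (0 : ℝ) < Λ.m := by exact_mod_cast (h.mpos : 0 < Λ.m)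
  have hm' : (0 : ℝ) < Λ'.m := by exact_mod_cast (h'.mpos : 0 < Λ'.m)
  have h1 := h.k1 _ (unl_z hZ).1
  have h2 := h'.k1 _ (unl_z hZ).2.1
  have h3 := card_z11 h h' hj hZ
  have h4 : z00 Z ≤ 1 := by
    unfold z00
    split_ifs
    · exact le_rfl
    · exact Nat.zero_le 1
  have e1 : ∑ l ∈ z10 Z, w2x w w' ((some l, none) : Option L × Option L') 0 =
      ((z10 Z).card / Λ.m : ℝ) / 4 := by
    rw [Finset.sum_congr rfl fun l _ => show w2x w w' ((some l, none) : Option L × Option L') 0 =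
      (Λ.m : ℝ)⁻¹ / 2 * (1 / 2) by rw [← h.wz l]; rfl, Finset.sum_const, nsmul_eq_mul]
    ring
  have e2 : ∑ l ∈ z01 Z, w2x w w' ((none, some l) : Option L × Option L') 0 =
      ((z01 Z).card / Λ'.m : ℝ) / 4 := by
    rw [Finset.sum_congr rfl fun l _ => show w2x w w' ((none, some l) : Option L × Option L') 0 =
      1 / 2 * ((Λ'.m : ℝ)⁻¹ / 2) by rw [← h'.wz l]; rfl, Finset.sum_const, nsmul_eq_mul]
    ring
  have e3 : ∑ x ∈ z11 Z, w2x w w' ((some x.1, some x.2) : Option L × Option L') 0 =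
      ((z11 Z).card / (Λ.m * Λ'.m) : ℝ) / 4 := by
    rw [Finset.sum_congr rfl fun x _ => show
      w2x w w' ((some x.1, some x.2) : Option L × Option L') 0 =
      (Λ.m : ℝ)⁻¹ / 2 * ((Λ'.m : ℝ)⁻¹ / 2) by rw [← h.wz x.1, ← h'.wz x.2]; rfl,
      Finset.sum_const, nsmul_eq_mul]
    field_simp
    norm_num
  have e0 : w2x w w' ((none, none) : Option L × Option L') 0 = 1 / 4 := by
    show (1 / 2 : ℝ) * (1 / 2) = 1 / 4
    norm_num
  refine ⟨0, ?_⟩
  by_contra hlt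
  rw [not_lt, sum_z Z (fun x => w2x w w' x 0)] at hlt
  rw [e0, e1, e2, e3, nsmul_eq_mul] at hlt
  have r0 : (z00 Z : ℝ) ≤ 1 := by exact_mod_cast h4
  have r1 : ((z10 Z).card / Λ.m : ℝ) ≤ 1 := by
    rw [div_le_one hm]
    exact_mod_cast h1
  have r2 : ((z01 Z).card / Λ'.m : ℝ) ≤ 1 := by
    rw [div_le_one hm']
    exact_mod_cast h2
  have r3 : ((z11 Z).card / (Λ.m * Λ'.m) : ℝ) ≤ 1 := by
    rw [div_le_one (mul_pos hm hm')]
    exact_mod_cast h3
  have s0 : (1 : ℝ) ≤ z00 Z := by linarith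
  have s1 : (1 : ℝ) ≤ (z10 Z).card / Λ.m := by linarith
  have s2 : (1 : ℝ) ≤ (z01 Z).card / Λ'.m := by linarith
  have s3 : (1 : ℝ) ≤ (z11 Z).card / (Λ.m * Λ'.m) := by linarith
  rw [one_le_div hm] at s1
  rw [one_le_div hm'] at s2
  rw [one_le_div (mul_pos hm hm')] at s3
  have t0 : 1 ≤ z00 Z := by exact_mod_cast s0
  have t1 : Λ.m ≤ (z10 Z).card := by exact_mod_cast s1
  have t2 : Λ'.m ≤ (z01 Z).card := by exact_mod_cast s2
  have t3 : Λ.m * Λ'.m ≤ (z11 Z).card := by exact_mod_cast s3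
  have h5 : (Λ.m + 1) * (Λ'.m + 1) = 1 + Λ.m + Λ'.m + Λ.m * Λ'.m := by ring
  rw [card_z, h5] at hc
  omega

end

end Pool.Agent.Lib.MP_1a91b9_ntDV.G4
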