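import Pool.Agent.Lib.MP_1a91b9_ntDV.K4_4

set_option autoImplicit false
set_option linter.unusedSectionVars false

namespace Pool.Agent.Lib.MP_1a91b9_ntDV.G4

open Finset Pool.Agent.Lib.MP_1a91b9_ntH Pool.Agent.Lib.MP_1a91b9_ntQ Pool.Agent.Lib.MP_1a91b9_ntQ.Da
  Pool.Agent.Lib.MP_1a91b9_ntQ.M Pool.Agent.Lib.MP_1a91b9_ntM Pool.Agent.Lib.MP_1a91b9_ntM.E

noncomputable section

variable {ι : Type} [DecidableEq ι] {κ : Type} [Fintype κ] [DecidableEq κ] {L L' : Type}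
  [Fintype L] [DecidableEq L] [Fintype L'] [DecidableEq L']
  {Λ : LS2 L ι κ} {Λ' : LS2 L' ι κ} {w : L → (κ → ZMod 2) → ℝ} {w' : L' → (κ → ZMod 2) → ℝ}

private theorem K4_5_lo {A : Finset L} (hA : Λ.Unl A) {o p : Option L} (ho : o ∈ insertNone A)
    (hp : p ∈ insertNone A) : lo Λ o p = 0 := by
  cases o with
  | none => cases p <;> rfl
  | some l =>
    cases p with
    | none => rfl
    | some m => exact hA l (some_mem_insertNone.1 ho) m (some_mem_insertNone.1 hp)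

private theorem K4_5_wo (w : L → (κ → ZMod 2) → ℝ) (A : Finset L) (φ : κ → ZMod 2) :
    ∑ o ∈ insertNone A, wo w o φ = (1 + ∑ l ∈ A, w l φ) / 2 := by
  rw [Finset.sum_insertNone]
  show (1 / 2 : ℝ) + ∑ l ∈ A, w l φ / 2 = _
  rw [← sum_div]
  ring

private theorem K4_5_one {s t : ℝ} (hs0 : 0 ≤ s) (hs : s ≤ 1) (_ht0 : 0 ≤ t) (ht : t ≤ 1)
    (h : ((1 + s) / 2) * ((1 + t) / 2) = 1) : s = 1 ∧ t = 1 := by
  constructor
  · nlinarith
  · nlinarith

/-- **K4_5a** (medium-). The structure of the maximal unlinked sets.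
Proof. By `card_z`, `z00 Z ≤ 1`, `h.k1`, `h'.k1` and `card_z11` all the parts have their maximal size: `z00 Z = 1`,
`#z10 = Λ.m`, `#z01 = Λ'.m`, `#z11 = Λ.m * Λ'.m`. If `(l, l') ∈ z11 Z`, then for every `a ∈ z10 Z` the link of
`(some a, none)` and `(some l, some l')` is `Λ.lk a l + lo Λ' none (some l') = Λ.lk a l + 0`, so it is `0`, and
`h.k2` with the constant `0` gives `l ∈ z10 Z`; in the same way `l' ∈ z01 Z`. So `Z ⊆ insertNone (z10 Z) ×ˢ
insertNone (z01 Z)` (`Finset.mem_insertNone`, cases), and both sets have `(Λ.m + 1) * (Λ'.m + 1)` elements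
(`card_product`, `card_insertNone`): `Finset.eq_of_subset_of_card_le`. -/
theorem str_2x (h : QOK Λ w) (h' : QOK Λ' w') (hj : JU Λ Λ' w w')
    {Z : Finset (Option L × Option L')} (hZ : (L2x Λ Λ').Unl Z)
    (hc : Z.card = (Λ.m + 1) * (Λ'.m + 1)) :
    Λ.Unl (z10 Z) ∧ (z10 Z).card = Λ.m ∧ Λ'.Unl (z01 Z) ∧ (z01 Z).card = Λ'.m ∧
      Z = insertNone (z10 Z) ×ˢ insertNone (z01 Z) := by
  obtain ⟨h10, h01, -⟩ := unl_z hZ
  have c00 : z00 Z ≤ 1 := by
    unfold z00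
    split_ifs <;> omega
  have c10 := h.k1 _ h10
  have c01 := h'.k1 _ h01
  have c11 := card_z11 h h' hj hZ
  have hs := card_z Z
  have he : (Λ.m + 1) * (Λ'.m + 1) = 1 + Λ.m + Λ'.m + Λ.m * Λ'.m := by ring
  rw [hc, he] at hs
  have d10 : (z10 Z).card = Λ.m := by omega
  have d01 : (z01 Z).card = Λ'.m := by omega
  refine ⟨h10, d10, h01, d01, ?_⟩
  have hsub : Z ⊆ insertNone (z10 Z) ×ˢ insertNone (z01 Z) := by
    rintro ⟨o, p⟩ hx
    rw [mem_product]
    cases o with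
    | none =>
      cases p with
      | none => exact ⟨none_mem_insertNone, none_mem_insertNone⟩
      | some l' => exact ⟨none_mem_insertNone, some_mem_insertNone.2 (mem_z01.2 hx)⟩
    | some l =>
      cases p with
      | none => exact ⟨some_mem_insertNone.2 (mem_z10.2 hx), none_mem_insertNone⟩
      | some l' =>
        refine ⟨some_mem_insertNone.2 (h.k2 _ h10 d10 l 0 fun a ha => ?_),
          some_mem_insertNone.2 (h'.k2 _ h01 d01 l' 0 fun b hb => ?_)⟩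
        · have h1 := hZ _ (mem_z10.1 ha) _ hx
          rw [L2x_lk] at h1
          exact (add_zero _).symm.trans h1
        · have h1 := hZ _ (mem_z01.1 hb) _ hx
          rw [L2x_lk] at h1
          exact (zero_add _).symm.trans h1
  refine eq_of_subset_of_card_le hsub ?_
  rw [card_product, card_insertNone, card_insertNone, d10, d01, hc]

/-- **K4_5b** (easy). Proof: `L2x_lk`, `lo Λ o p = 0` for `o, p ∈ insertNone A` (cases), `card_product`,
`card_insertNone`. -/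
theorem str_conv {A : Finset L} {B : Finset L'} (hA : Λ.Unl A) (hA' : A.card = Λ.m)
    (hB : Λ'.Unl B) (hB' : B.card = Λ'.m) :
    (L2x Λ Λ').Unl (insertNone A ×ˢ insertNone B) ∧
      (insertNone A ×ˢ insertNone B).card = (Λ.m + 1) * (Λ'.m + 1) := by
  constructor
  · intro x hx y hy
    rw [mem_product] at hx hy
    rw [L2x_lk, K4_5_lo hA hx.1 hy.1, K4_5_lo hB hx.2 hy.2, add_zero]
  · rw [card_product, card_insertNone, card_insertNone, hA', hB']

/-- **K4_5c** (easy). Proof: `Finset.sum_product`, `w2x` is a product (`sum_mul_sum`), `Finset.sum_insertNone`. -/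
theorem sum_w2x (w : L → (κ → ZMod 2) → ℝ) (w' : L' → (κ → ZMod 2) → ℝ) (A : Finset L)
    (B : Finset L') (φ : κ → ZMod 2) :
    ∑ x ∈ insertNone A ×ˢ insertNone B, w2x w w' x φ =
      ((1 + ∑ l ∈ A, w l φ) / 2) * ((1 + ∑ l ∈ B, w' l φ) / 2) := by
  rw [← K4_5_wo w A φ, ← K4_5_wo w' B φ, sum_mul_sum, sum_product]
  rfl

/-- **K4_5d** (easy). Proof: `z10 (insertNone A ×ˢ insertNone B) = A` by `mem_z10`, `mem_product`,
`Finset.mem_insertNone` (`none ∈ insertNone B`); the same for `z01`. -/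
theorem z_prod (A : Finset L) (B : Finset L') :
    z10 (insertNone A ×ˢ insertNone B) = A ∧ z01 (insertNone A ×ˢ insertNone B) = B := by
  constructor
  · ext l
    rw [mem_z10, mem_product]
    exact ⟨fun h => some_mem_insertNone.1 h.1, fun h => ⟨some_mem_insertNone.2 h, none_mem_insertNone⟩⟩
  · ext l
    rw [mem_z01, mem_product]
    exact ⟨fun h => some_mem_insertNone.1 h.2, fun h => ⟨none_mem_insertNone, some_mem_insertNone.2 h⟩⟩

/-- **K4_5e** (easy+). The sets of the main terms. Proof: `mem_FullW`, `LS2.mem_Us`. If `U` is on the left, `str_2x`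
gives the form, and `sum_w2x` with `∑ ≤ 1` for both (`h.wU`, `h'.wU`) and `((1 + s) / 2) * ((1 + t) / 2) = 1`,
`0 ≤ s, t ≤ 1` gives `s = t = 1`. The converse is `str_conv` and `sum_w2x`. -/
theorem mem_FullW_2x (h : QOK Λ w) (h' : QOK Λ' w') (hj : JU Λ Λ' w w')
    {U : Finset (Option L × Option L')} : U ∈ FullW (L2x Λ Λ') (w2x w w') ↔
      ∃ A ∈ FullW Λ w, ∃ B ∈ FullW Λ' w', U = insertNone A ×ˢ insertNone B := by
  constructor
  · intro hU
    rw [mem_FullW, LS2.mem_Us] at hU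
    obtain ⟨⟨hU1, hU2⟩, hU3⟩ := hU
    obtain ⟨hA, hA', hB, hB', he⟩ := str_2x h h' hj hU1 hU2
    have key : ∀ φ, ∑ l ∈ z10 U, w l φ = 1 ∧ ∑ l ∈ z01 U, w' l φ = 1 := by
      intro φ
      have h1 := hU3 φ
      rw [he, sum_w2x] at h1
      exact K4_5_one (sum_nonneg fun l _ => h.w0 l φ) (h.wU _ hA φ)
        (sum_nonneg fun l _ => h'.w0 l φ) (h'.wU _ hB φ) h1
    exact ⟨z10 U, mem_FullW.2 ⟨(LS2.mem_Us _ _).2 ⟨hA, hA'⟩, fun φ => (key φ).1⟩,
      z01 U, mem_FullW.2 ⟨(LS2.mem_Us _ _).2 ⟨hB, hB'⟩, fun φ => (key φ).2⟩, he⟩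
  · rintro ⟨A, hA, B, hB, rfl⟩
    rw [mem_FullW, LS2.mem_Us] at hA hB
    obtain ⟨⟨hA1, hA2⟩, hA3⟩ := hA
    obtain ⟨⟨hB1, hB2⟩, hB3⟩ := hB
    rw [mem_FullW, LS2.mem_Us]
    refine ⟨str_conv hA1 hA2 hB1 hB2, fun φ => ?_⟩
    rw [sum_w2x, hA3, hB3]
    norm_num

/-- **K4_5f** (easy+). Proof: by `mem_FullW_2x` the set on the left is the image of `FullW Λ w ×ˢ FullW Λ' w'` under
the map `(A, B) ↦ insertNone A ×ˢ insertNone B`, which is injective by `z_prod`; `sum_image`, `sum_product`. -/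
theorem sum_FullW_2x (h : QOK Λ w) (h' : QOK Λ' w') (hj : JU Λ Λ' w w') {M : Type}
    [AddCommMonoid M] (F : Finset (Option L × Option L') → M) :
    ∑ U ∈ FullW (L2x Λ Λ') (w2x w w'), F U =
      ∑ A ∈ FullW Λ w, ∑ B ∈ FullW Λ' w', F (insertNone A ×ˢ insertNone B) := by
  have e : FullW (L2x Λ Λ') (w2x w w') = (FullW Λ w ×ˢ FullW Λ' w').image
      fun p => insertNone p.1 ×ˢ insertNone p.2 := by
    ext U
    rw [mem_FullW_2x h h' hj, mem_image]
    constructor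
    · rintro ⟨A, hA, B, hB, rfl⟩
      exact ⟨(A, B), mem_product.2 ⟨hA, hB⟩, rfl⟩
    · rintro ⟨⟨A, B⟩, hp, rfl⟩
      exact ⟨A, (mem_product.1 hp).1, B, (mem_product.1 hp).2, rfl⟩
  rw [e, sum_image, sum_product]
  rintro ⟨A, B⟩ _ ⟨A', B'⟩ _ hAB
  have h1 := z_prod A B
  have h2 := z_prod A' B'
  have h3 : insertNone A ×ˢ insertNone B = insertNone A' ×ˢ insertNone B' := hAB
  rw [h3] at h1
  exact Prod.ext (h1.1.symm.trans h2.1) (h1.2.symm.trans h2.2)

end

end Pool.Agent.Lib.MP_1a91b9_ntDV.G4
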