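import Pool.Agent.Lib.MP_1a91b9_ntDV.E2
import Pool.Agent.Lib.MP_1a91b9_ntDV.K4_3
import Pool.Agent.Lib.MP_1a91b9_ntDV.K4_5

set_option autoImplicit false
set_option linter.unusedSectionVars false

namespace Pool.Agent.Lib.MP_1a91b9_ntDV.G4

open Finset Pool.Agent.Lib.MP_1a91b9_ntH Pool.Agent.Lib.MP_1a91b9_ntQ Pool.Agent.Lib.MP_1a91b9_ntQ.Da
  Pool.Agent.Lib.MP_1a91b9_ntQ.M Pool.Agent.Lib.MP_1a91b9_ntM Pool.Agent.Lib.MP_1a91b9_ntM.E

noncomputable section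

variable {ι : Type} [DecidableEq ι] {κ : Type} [Fintype κ] [DecidableEq κ] {L L' : Type}
  [Fintype L] [DecidableEq L] [Fintype L'] [DecidableEq L']
  {Λ : LS2 L ι κ} {Λ' : LS2 L' ι κ} {w : L → (κ → ZMod 2) → ℝ} {w' : L' → (κ → ZMod 2) → ℝ}

/-- **K4_6a** (easy+). Two labels with different links. Proof: `A` is not empty (`A.card = Λ.m ≥ 1`), take `a₀ ∈ A`
and use the contraposition of `h.k2` with the constant `Λ.lk a₀ x`. -/
theorem two_lab (h : QOK Λ w) {A : Finset L} (hA : Λ.Unl A) (hA' : A.card = Λ.m) {x : L}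
    (hx : x ∉ A) : ∃ l ∈ A, ∃ l' ∈ A, Λ.lk l x ≠ Λ.lk l' x := by
  have h1 : 0 < A.card := by
    rw [hA']
    exact h.mpos
  obtain ⟨a₀, ha₀⟩ := card_pos.1 h1
  by_contra hc
  refine hx (h.k2 A hA hA' x (Λ.lk a₀ x) fun l hl => ?_)
  by_contra hne
  exact hc ⟨l, hl, a₀, ha₀, hne⟩

private theorem K4_6_l1 (a : L) (x : Option L × Option L') :
    (L2x Λ Λ').lk (some a, none) x = lo Λ (some a) x.1 := by
  rw [L2x_lk]
  have h0 : lo Λ' none x.2 = 0 := rfl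
  show lo Λ (some a) x.1 + lo Λ' none x.2 = _
  rw [h0, add_zero]

private theorem K4_6_l2 (b : L') (x : Option L × Option L') :
    (L2x Λ Λ').lk (none, some b) x = lo Λ' (some b) x.2 := by
  rw [L2x_lk]
  have h0 : lo Λ none x.1 = 0 := rfl
  show lo Λ none x.1 + lo Λ' (some b) x.2 = _
  rw [h0, zero_add]

private theorem K4_6_two (h : QOK Λ w) (h' : QOK Λ' w') {A : Finset L} {B : Finset L'}
    (hA : Λ.Unl A) (hA' : A.card = Λ.m) (hB : Λ'.Unl B) (hB' : B.card = Λ'.m)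
    {x : Option L × Option L'} (hx : x ∉ insertNone A ×ˢ insertNone B) :
    (∃ a ∈ A, ∃ a' ∈ A, (L2x Λ Λ').lk (some a, none) x ≠ (L2x Λ Λ').lk (some a', none) x) ∨
      (∃ b ∈ B, ∃ b' ∈ B,
        (L2x Λ Λ').lk (none, some b) x ≠ (L2x Λ Λ').lk (none, some b') x) := by
  obtain ⟨o, o'⟩ := x
  rw [mem_product, not_and_or] at hx
  rcases hx with hx | hx
  · left
    cases o with
    | none => exact absurd none_mem_insertNone hx
    | some m =>
      have hm : m ∉ A := fun hm => hx (some_mem_insertNone.2 hm)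
      obtain ⟨l, hl, l', hl', hne⟩ := two_lab h hA hA' hm
      refine ⟨l, hl, l', hl', ?_⟩
      rw [K4_6_l1, K4_6_l1]
      exact hne
  · right
    cases o' with
    | none => exact absurd none_mem_insertNone hx
    | some m =>
      have hm : m ∉ B := fun hm => hx (some_mem_insertNone.2 hm)
      obtain ⟨l, hl, l', hl', hne⟩ := two_lab h' hB hB' hm
      refine ⟨l, hl, l', hl', ?_⟩
      rw [K4_6_l2, K4_6_l2]
      exact hne

private theorem K4_6_m1 {A : Finset L} {B : Finset L'} {a : L} (ha : a ∈ A) :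
    ((some a, none) : Option L × Option L') ∈ insertNone A ×ˢ insertNone B :=
  mem_product.2 ⟨some_mem_insertNone.2 ha, none_mem_insertNone⟩

private theorem K4_6_m2 {A : Finset L} {B : Finset L'} {b : L'} (hb : b ∈ B) :
    ((none, some b) : Option L × Option L') ∈ insertNone A ×ˢ insertNone B :=
  mem_product.2 ⟨none_mem_insertNone, some_mem_insertNone.2 hb⟩

private theorem K4_6_wo0 {w : L → (κ → ZMod 2) → ℝ} (hw : ∀ l φ, 0 ≤ w l φ) (o : Option L)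
    (φ : κ → ZMod 2) : 0 ≤ wo w o φ := by
  cases o with
  | none =>
    show (0 : ℝ) ≤ 1 / 2
    norm_num
  | some l =>
    show (0 : ℝ) ≤ w l φ / 2
    exact div_nonneg (hw l φ) (by norm_num)

private theorem K4_6_woz {w : L → (κ → ZMod 2) → ℝ} (hw : ∀ l, 0 < w l 0) (o : Option L) :
    0 < wo w o 0 := by
  cases o with
  | none =>
    show (0 : ℝ) < 1 / 2
    norm_num
  | some l =>
    show (0 : ℝ) < w l 0 / 2
    exact div_pos (hw l) (by norm_num)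

private theorem K4_6_wz (h : QOK Λ w) (l : L) : 0 < w l 0 := by
  rw [h.wz]
  have h1 : (0 : ℝ) < (Λ.m : ℝ) := by exact_mod_cast h.mpos
  exact inv_pos.2 h1

private theorem K4_6_Po (h : QOK Λ w) (o : Option L) : Po Λ.Phi o o = 0 := by
  cases o with
  | none => rfl
  | some l => exact h.diag l

/-- **K4_6b** (medium-). Proof. The fields of `LS2.OK`: `diag` from `h.diag`, `h'.diag` (`Po Φ o o = 0` for both cases
of `o`); `two`: `2 ≤ (m + 1) * (m' + 1)` because `1 ≤ m, m'`; `k1` is `k1_2x`; `k2`: `str_2x` gives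
`U = insertNone A ×ˢ insertNone B`, and `x = (o, o') ∉ U`, so `o ∉ insertNone A` or `o' ∉ insertNone B`. In the
first case `o = some m₀` with `m₀ ∉ A`; take `l, l' ∈ A` of `two_lab` and the labels `(some l, none)`,
`(some l', none)`; their links with `x` are `Λ.lk l m₀ + 0` and `Λ.lk l' m₀ + 0` (`L2x_lk`). The second case is
symmetric. The fields of `UOK`: `B` is `rfl`, `w0`, `wz` from `h.w0`, `h.wz` (the inverses are positive), `wU` is
`wU_2x`, `sm` is `sm_2x`, `u1` from `hu1`, `hu1'` (`norm_mul`, `mul_le_one₀`), and `pr`: by `mem_FullW_2x` the set is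
`insertNone A ×ˢ insertNone B` with `A ∈ FullW Λ w`, `B ∈ FullW Λ' w'`; the same labels as for `k2`, and
`u (some l) q * u' none q = u (some l') q * u' none q` by `hu`. -/
theorem uok_2x (h : QOK Λ w) (h' : QOK Λ' w') (hj : JU Λ Λ' w w') {u : Option L → ι → ℂ}
    {u' : Option L' → ι → ℂ} (hu1 : ∀ o q, ‖u o q‖ ≤ 1) (hu1' : ∀ o q, ‖u' o q‖ ≤ 1)
    (hu : ∀ U ∈ FullW Λ w, ∀ l ∈ U, ∀ l' ∈ U, ∀ q, u (some l) q = u (some l') q)
    (hu' : ∀ U ∈ FullW Λ' w', ∀ l ∈ U, ∀ l' ∈ U, ∀ q, u' (some l) q = u' (some l') q) :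
    UOK (L2x Λ Λ') (w2x w w') (u2x u u') := by
  refine ⟨⟨?_, ?_, ?_, ?_⟩, rfl, ?_, ?_, ?_, ?_, ?_, ?_⟩
  · intro x
    show Po Λ.Phi x.1 x.1 + Po Λ'.Phi x.2 x.2 = 0
    rw [K4_6_Po h, K4_6_Po h', add_zero]
  · show 2 ≤ (Λ.m + 1) * (Λ'.m + 1)
    have h1 := h.mpos
    have h2 := h'.mpos
    nlinarith
  · intro U hU
    exact k1_2x h h' hj hU
  · intro U hU hc x hx
    obtain ⟨hA, hA', hB, hB', e⟩ := str_2x h h' hj hU hc
    rw [e] at hx
    rcases K4_6_two h h' hA hA' hB hB' hx with ⟨a, ha, a', ha', hne⟩ | ⟨b, hb, b', hb', hne⟩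
    · refine ⟨(some a, none), ?_, (some a', none), ?_, hne⟩
      · rw [e]
        exact K4_6_m1 ha
      · rw [e]
        exact K4_6_m1 ha'
    · refine ⟨(none, some b), ?_, (none, some b'), ?_, hne⟩
      · rw [e]
        exact K4_6_m2 hb
      · rw [e]
        exact K4_6_m2 hb'
  · intro x φ
    exact mul_nonneg (K4_6_wo0 h.w0 x.1 φ) (K4_6_wo0 h'.w0 x.2 φ)
  · intro x
    exact mul_pos (K4_6_woz (K4_6_wz h) x.1) (K4_6_woz (K4_6_wz h') x.2)
  · intro U hU φ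
    exact wU_2x h h' hj hU φ
  · intro U hU hc
    exact sm_2x h h' hj hU hc
  · intro x q
    show ‖u x.1 q * u' x.2 q‖ ≤ 1
    rw [norm_mul]
    exact mul_le_one₀ (hu1 _ _) (norm_nonneg _) (hu1' _ _)
  · intro U hU x hx
    obtain ⟨A, hA, B, hB, e⟩ := (mem_FullW_2x h h' hj).1 hU
    have hA2 := (Λ.mem_Us A).1 (mem_FullW.1 hA).1
    have hB2 := (Λ'.mem_Us B).1 (mem_FullW.1 hB).1
    subst e
    rcases K4_6_two h h' hA2.1 hA2.2 hB2.1 hB2.2 hx with
      ⟨a, ha, a', ha', hne⟩ | ⟨b, hb, b', hb', hne⟩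
    · refine ⟨(some a, none), K4_6_m1 ha, (some a', none), K4_6_m1 ha', hne, fun q => ?_⟩
      show u (some a) q * u' none q = u (some a') q * u' none q
      rw [hu A hA a ha a' ha' q]
    · refine ⟨(none, some b), K4_6_m2 hb, (none, some b'), K4_6_m2 hb', hne, fun q => ?_⟩
      show u none q * u' (some b) q = u none q * u' (some b') q
      rw [hu' B hB b hb b' hb' q]

private theorem K4_6_gx (D : Dat2 ι κ) (c : L → κ → ZMod 2) (c' : L' → κ → ZMod 2)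
    (w : L → (κ → ZMod 2) → ℝ) (w' : L' → (κ → ZMod 2) → ℝ) (u : Option L → ι → ℂ)
    (u' : Option L' → ι → ℂ) (x : Option L × Option L') (q : ι) :
    wu D (fun x : Option L × Option L' => cO c x.1 + cO c' x.2) (w2x w w') (u2x u u') x q =
      wu D (cO c) (wo w) u x.1 q * wu D (cO c') (wo w') u' x.2 q := by
  have h1 : ∑ j, (cO c x.1 + cO c' x.2) j * D.a q j =
      (∑ j, cO c x.1 j * D.a q j) + ∑ j, cO c' x.2 j * D.a q j := by
    rw [← sum_add_distrib]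
    refine sum_congr rfl fun j _ => ?_
    rw [Pi.add_apply, add_mul]
  show (((wo w x.1 (D.a q) * wo w' x.2 (D.a q) : ℝ)) : ℂ) * (u x.1 q * u' x.2 q) *
      e2 (∑ j, (cO c x.1 + cO c' x.2) j * D.a q j) =
    ((wo w x.1 (D.a q) : ℝ) : ℂ) * u x.1 q * e2 (∑ j, cO c x.1 j * D.a q j) *
      (((wo w' x.2 (D.a q) : ℝ) : ℂ) * u' x.2 q * e2 (∑ j, cO c' x.2 j * D.a q j))
  rw [h1, e2_add]
  push_cast
  ring

private theorem K4_6_sum (D : Dat2 ι κ) (c : L → κ → ZMod 2) (c' : L' → κ → ZMod 2)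
    (w : L → (κ → ZMod 2) → ℝ) (w' : L' → (κ → ZMod 2) → ℝ) (u : Option L → ι → ℂ)
    (u' : Option L' → ι → ℂ) (A : Finset L) (B : Finset L') (q : ι) :
    ∑ x ∈ insertNone A ×ˢ insertNone B,
      wu D (fun x : Option L × Option L' => cO c x.1 + cO c' x.2) (w2x w w') (u2x u u') x q =
      hO D c w u A q * hO D c' w' u' B q := by
  unfold hO
  rw [sum_mul_sum, sum_product]
  refine sum_congr rfl fun x _ => sum_congr rfl fun y _ => ?_
  exact K4_6_gx D c c' w w' u u' (x, y) q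

variable [PS ι]

/-- **K4_6c** (medium-). **The mean value of the product of two mean values over the subsets.**
Proof. `BF_mul` (E2): the product is `BF D (Px (Po Λ.Phi) (Po Λ'.Phi)) (gx (wu ..) (wu ..)) S`; the exponents are
`(L2x Λ Λ').Phi` by definition, and `gx (wu D (cO Λ.c) (wo w) u) (wu D (cO Λ'.c) (wo w') u') x q =
wu D (L2x Λ Λ').c (w2x w w') (u2x u u') x q` (`w2x`, `u2x` are products, `add_mul`, `sum_add_distrib`, `e2_add`,
`push_cast`, `ring`). Then `engineU hD hN (uok_2x ..) ε hε`, `sum_FullW_2x`, and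
`∑ x ∈ insertNone A ×ˢ insertNone B, wu D (L2x Λ Λ').c (w2x w w') (u2x u u') x q = hO .. A q * hO .. B q`
(`sum_product`, `sum_mul_sum`). -/
theorem pe {D : Dat2 ι κ} (hD : D.OK) (hN : D.NV1) (h : QOK Λ w) (h' : QOK Λ' w')
    (hj : JU Λ Λ' w w') {u : Option L → ι → ℂ}
    {u' : Option L' → ι → ℂ} (hu1 : ∀ o q, ‖u o q‖ ≤ 1) (hu1' : ∀ o q, ‖u' o q‖ ≤ 1)
    (hu : ∀ U ∈ FullW Λ w, ∀ l ∈ U, ∀ l' ∈ U, ∀ q, u (some l) q = u (some l') q)
    (hu' : ∀ U ∈ FullW Λ' w', ∀ l ∈ U, ∀ l' ∈ U, ∀ q, u' (some l) q = u' (some l') q)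
    (ε : ℝ) (hε : 0 < ε) : ∃ X₀ : ℕ, ∀ X : ℕ, X₀ ≤ X →
      ‖∑ S ∈ Sx ι X, BF D (Po Λ.Phi) (wu D (cO Λ.c) (wo w) u) S *
          BF D (Po Λ'.Phi) (wu D (cO Λ'.c) (wo w') u') S -
        ∑ A ∈ FullW Λ w, ∑ B ∈ FullW Λ' w', ∑ S ∈ Sx ι X,
          ∏ q ∈ S, (hO D Λ.c w u A q * hO D Λ'.c w' u' B q)‖ ≤ ε * X := by
  obtain ⟨X₀, hX⟩ := engineU hD hN (uok_2x h h' hj hu1 hu1' hu hu') ε hε
  refine ⟨X₀, fun X hXX => ?_⟩
  have h1 : ∀ S : Finset ι, BF D (Po Λ.Phi) (wu D (cO Λ.c) (wo w) u) S *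
      BF D (Po Λ'.Phi) (wu D (cO Λ'.c) (wo w') u') S =
      BF D (L2x Λ Λ').Phi (wu D (L2x Λ Λ').c (w2x w w') (u2x u u')) S := by
    intro S
    rw [BF_mul]
    have e : gx (wu D (cO Λ.c) (wo w) u) (wu D (cO Λ'.c) (wo w') u') =
        wu D (L2x Λ Λ').c (w2x w w') (u2x u u') := by
      funext x q
      exact (K4_6_gx D Λ.c Λ'.c w w' u u' x q).symm
    rw [e]
    rfl
  have h2 : ∑ U ∈ FullW (L2x Λ Λ') (w2x w w'), ∑ S ∈ Sx ι X,
      ∏ q ∈ S, ∑ x ∈ U, wu D (L2x Λ Λ').c (w2x w w') (u2x u u') x q =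
      ∑ A ∈ FullW Λ w, ∑ B ∈ FullW Λ' w', ∑ S ∈ Sx ι X,
          ∏ q ∈ S, (hO D Λ.c w u A q * hO D Λ'.c w' u' B q) := by
    rw [sum_FullW_2x h h' hj]
    refine sum_congr rfl fun A _ => sum_congr rfl fun B _ => sum_congr rfl fun S _ =>
      prod_congr rfl fun q _ => ?_
    exact K4_6_sum D Λ.c Λ'.c w w' u u' A B q
  have h3 := hX X hXX
  rw [h2] at h3
  rw [sum_congr rfl fun S _ => h1 S]
  exact h3

end

end Pool.Agent.Lib.MP_1a91b9_ntDV.G4
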