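import Pool.Agent.Lib.MP_1a91b9_ntDV.K4_6
import Pool.Agent.Lib.MP_1a91b9_ntDV.K4_7

set_option autoImplicit false
set_option linter.unusedSectionVars false

namespace Pool.Agent.Lib.MP_1a91b9_ntDV.G4

open Finset Pool.Agent.Lib.MP_1a91b9_ntH Pool.Agent.Lib.MP_1a91b9_ntQ Pool.Agent.Lib.MP_1a91b9_ntQ.Da
  Pool.Agent.Lib.MP_1a91b9_ntQ.M Pool.Agent.Lib.MP_1a91b9_ntM Pool.Agent.Lib.MP_1a91b9_ntM.E

noncomputable section

variable {A : Type} [Fintype A] [DecidableEq A] {k : A → ℕ} {ι : Type} [DecidableEq ι]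
  {κ : Type} [Fintype κ] [DecidableEq κ] {E : A → Type} [∀ a, Fintype (E a)]
  [∀ a, DecidableEq (E a)] [PS ι]

/-- **K4_8** (easy+). **The product of two sums over the labellings.** Proof: `avg_PhX` for both, `pe` with
`Λ = LSP ι k σ P m`, `Λ' = LSP ι k σ P m'`, `qok_X`, `ju_X`, `norm_uX`, and `uX_full` for the two last hypotheses
(both sides are `g q`); `hO_X h0 D g hU q` for the local factors (`prod_congr`, `sum_congr`). -/
theorem sq_X {D : Dat2 ι κ} (hD : D.OK) (hN : D.NV1) {ρ : (κ → ZMod 2) → ι → ZMod 2}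
    (h0 : ρ 0 = 0) (cA σ : A → κ → ZMod 2) (P : ∀ a, κ → E a → ZMod 2)
    (m m' : ∀ a, E a → Lab2 (k a)) {g g' : ι → ℂ} (hg : ∀ q, ‖g q‖ ≤ 1) (hg' : ∀ q, ‖g' q‖ ≤ 1)
    (ε : ℝ) (hε : 0 < ε) : ∃ X₀ : ℕ, ∀ X : ℕ, X₀ ≤ X →
      ‖∑ S ∈ Sx ι X, avg (PhX D ρ cA σ P m g) S * avg (PhX D ρ cA σ P m' g') S -
        ∑ U ∈ FullW (LSP ι k σ P m) (wX k cA), ∑ V ∈ FullW (LSP ι k σ P m') (wX k cA),
          ∑ S ∈ Sx ι X, ∏ q ∈ S, (hT D cA σ P m g U q * hT D cA σ P m' g' V q)‖ ≤ ε * X := by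
  obtain ⟨X₀, hX₀⟩ := pe hD hN (qok_X (ι := ι) cA σ P m) (qok_X (ι := ι) cA σ P m')
    (ju_X cA σ P m cA σ P m') (u := uO (uX ρ cA g)) (u' := uO (uX ρ cA g'))
    (fun o q => norm_uX hg o q) (fun o q => norm_uX hg' o q)
    (fun U hU l hl l' hl' q => by
      show uX ρ cA g l q = uX ρ cA g l' q
      rw [uX_full h0 g hU hl q, uX_full h0 g hU hl' q])
    (fun U hU l hl l' hl' q => by
      show uX ρ cA g' l q = uX ρ cA g' l' q
      rw [uX_full h0 g' hU hl q, uX_full h0 g' hU hl' q]) ε hε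
  refine ⟨X₀, fun X hX => ?_⟩
  have h1 := hX₀ X hX
  have h2 : ∑ S ∈ Sx ι X, avg (PhX D ρ cA σ P m g) S * avg (PhX D ρ cA σ P m' g') S =
      ∑ S ∈ Sx ι X, BF D (Po (LSP ι k σ P m).Phi)
        (wu D (cO (LSP ι k σ P m).c) (wo (wX k cA)) (uO (uX ρ cA g))) S *
        BF D (Po (LSP ι k σ P m').Phi)
        (wu D (cO (LSP ι k σ P m').c) (wo (wX k cA)) (uO (uX ρ cA g'))) S :=
    sum_congr rfl fun S _ => by rw [avg_PhX, avg_PhX]
  have h3 : ∑ U ∈ FullW (LSP ι k σ P m) (wX k cA), ∑ V ∈ FullW (LSP ι k σ P m') (wX k cA),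
          ∑ S ∈ Sx ι X, ∏ q ∈ S, (hT D cA σ P m g U q * hT D cA σ P m' g' V q) =
      ∑ U ∈ FullW (LSP ι k σ P m) (wX k cA), ∑ V ∈ FullW (LSP ι k σ P m') (wX k cA),
          ∑ S ∈ Sx ι X, ∏ q ∈ S, (hO D (LSP ι k σ P m).c (wX k cA) (uO (uX ρ cA g)) U q *
            hO D (LSP ι k σ P m').c (wX k cA) (uO (uX ρ cA g')) V q) :=
    sum_congr rfl fun U hU => sum_congr rfl fun V hV => sum_congr rfl fun S _ =>
      prod_congr rfl fun q _ => by rw [hO_X h0 D g hU q, hO_X h0 D g' hV q]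
  rw [h2, h3]
  exact h1

end

end Pool.Agent.Lib.MP_1a91b9_ntDV.G4
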