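import Pool.Agent.Lib.MP_1a91b9_ntDV.E10
import Pool.Agent.Lib.MP_1a91b9_ntDV.E13
import Pool.Agent.Lib.MP_1a91b9_ntDV.P1
import Pool.Agent.Lib.MP_1a91b9_ntV.DJ.DenJ

set_option autoImplicit false
set_option linter.unusedSectionVars false

namespace Pool.Agent.Lib.MP_1a91b9_ntDV

open Finset Pool.Agent.Lib.MP_1a91b9_ntH Pool.Agent.Lib.MP_1a91b9_ntQ
open Pool.Agent.Lib.MP_1a91b9_ntQ.Da Pool.Agent.Lib.MP_1a91b9_ntV
open Pool.Agent.Lib.MP_1a91b9_ntM Pool.Agent.Lib.MP_1a91b9_ntV.DS Pool.Agent.Lib.MP_1a91b9_ntV.DJ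

noncomputable section

variable {ι : Type} [DecidableEq ι] {κ : Type} [Fintype κ] [DecidableEq κ] [PS ι]

open Classical in
/-- The mean value of `f` over the subsets `T` of `S` of the class `γ` is `v`, for almost all `S`. -/
def Pcl (D : Dat2 ι κ) (γ : κ → ZMod 2) (f : Finset ι → ℝ) (v : ℝ) : Prop :=
  AVr (fun T => if clN D T = γ then f T else 0) (v / 2 ^ Fintype.card κ)

/-- **P2a** (easy+). Proof: `AVr.add`, `AVr.smul`, `AVr.congr`; for `bds`: `AVr.of_bounds` with `δ` (the bounds for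
`v` are divided by `2 ^ card κ ≥ 1`). -/
theorem limP_Pcl (D : Dat2 ι κ) (γ : κ → ZMod 2) : LimP (Pcl D γ) := by
  refine ⟨fun f h v w hf hh => ?_, fun f v a hf => ?_, fun f v hb => ?_⟩
  · refine AVr.congr (AVr.add hf hh) (fun T => ?_) (add_div _ _ _)
    split_ifs
    · rfl
    · rw [add_zero]
  · refine AVr.congr (AVr.smul hf a) (fun T => ?_) (mul_div_assoc _ _ _)
    split_ifs
    · rfl
    · rw [mul_zero]
  · refine AVr.of_bounds fun δ hδ => ?_
    obtain ⟨l, u, vl, vu, hl, hu, h1, h2, h3⟩ := hb δ hδ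
    have hn : (1 : ℝ) ≤ 2 ^ Fintype.card κ := one_le_pow₀ (by norm_num)
    have hn0 : (0 : ℝ) < 2 ^ Fintype.card κ := by positivity
    have hdn : δ / 2 ^ Fintype.card κ ≤ δ := div_le_self hδ.le hn
    refine ⟨fun T => if clN D T = γ then l T else 0, fun T => if clN D T = γ then u T else 0,
      vl / 2 ^ Fintype.card κ, vu / 2 ^ Fintype.card κ, hl, hu, ?_, ?_, fun T => ?_⟩
    · have h4 : (v - δ) / 2 ^ Fintype.card κ ≤ vl / 2 ^ Fintype.card κ :=
        div_le_div_of_nonneg_right h1 hn0.le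
      rw [sub_div] at h4
      linarith
    · have h4 : vu / 2 ^ Fintype.card κ ≤ (v + δ) / 2 ^ Fintype.card κ :=
        div_le_div_of_nonneg_right h2 hn0.le
      rw [add_div] at h4
      linarith
    · by_cases hc : clN D T = γ
      · simp only [if_pos hc]
        exact h3 T
      · simp only [if_neg hc]
        exact ⟨le_rfl, le_rfl⟩

/-- **P2b** (easy+). Only the nonempty sets of the class `γ` count. Proof: `AVr.congr_fin` (with `hD.an.cheb`,
`hD.an.zt`) for `Y = {∅}`. -/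
theorem Pcl.congr {D : Dat2 ι κ} {w : κ → ZMod 2} (hD : OKt D w) {γ : κ → ZMod 2}
    {f h : Finset ι → ℝ} {v v' : ℝ} (hf : Pcl D γ f v)
    (hh : ∀ T : Finset ι, clN D T = γ → T ≠ ∅ → h T = f T) (hv : v' = v) : Pcl D γ h v' := by
  obtain ⟨C1, h1⟩ := hD.an.cheb
  obtain ⟨C2, h2⟩ := hD.an.zt
  have h3 := AVr.congr_fin h1 h2 hf {∅} (G := fun T => if clN D T = γ then h T else 0)
    (fun T hT => by
      have hne : T ≠ ∅ := fun h0 => hT (Finset.mem_singleton.2 h0)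
      by_cases hc : clN D T = γ
      · rw [if_pos hc, if_pos hc]
        exact hh T hc hne
      · rw [if_neg hc, if_neg hc])
  exact AVr.congr h3 (fun _ => rfl) (by rw [hv])

/-- **P2c** (easy+). The sum over the classes. Proof: `f T = ∑ γ, if clN D T = γ then f T else 0`
(`Finset.sum_ite_eq`), `AVr.sum` over `univ`, and `∑ γ : κ → ZMod 2, v / 2 ^ card κ = v`
(`Fintype.card_fun`, `ZMod.card`). -/
theorem AVr_of_Pcl {D : Dat2 ι κ} {f : Finset ι → ℝ} {v : ℝ} (h : ∀ γ, Pcl D γ f v) : AVr f v := by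
  classical
  have h1 := AVr.sum univ fun γ _ => h γ
  refine AVr.congr h1 (fun T => ?_) ?_
  · rw [Finset.sum_ite_eq, if_pos (mem_univ _)]
  · rw [sum_const, card_univ, Fintype.card_fun, ZMod.card, nsmul_eq_mul]
    push_cast
    rw [mul_div_cancel₀ _ (by positivity)]

variable {A : Type} [Fintype A] [DecidableEq A] {E F : A → Type} [∀ a, Fintype (E a)]
  [∀ a, DecidableEq (E a)] [∀ a, Fintype (F a)] [∀ a, DecidableEq (F a)]

/-- **P2d** (easy+). The joint moments of the sizes of the kernels. Proof: `AV_cls hD (RGJ (k := k) P) (cL P)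
(fun S => (kJ D P k S : ℂ))` with `W = ∏ a, ((2 : ℂ) ^ k a) ^ card (F a) ≠ 0` and `kJ_mul D P`
(MP_1a91b9_ntV/DJ/SysJ.lean); the sum is `TGJ k P w γ` by definition (`TNJ`), and `hv` gives
`TGJ / (W * 2 ^ card κ) = v / 2 ^ card κ`; then `AVr_iff` (`push_cast`, `apply_ite`). -/
theorem Pcl_kJ {D : Dat2 ι κ} {w : κ → ZMod 2} (hD : OKt D w) (P : ∀ a, BD κ (E a) (F a))
    (k : A → ℕ) (γ : κ → ZMod 2) (v : ℝ)
    (hv : TGJ k P w γ = v * ∏ a, ((2 : ℂ) ^ k a) ^ Fintype.card (F a)) :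
    Pcl D γ (fun S => (kJ D P k S : ℝ)) v := by
  have hW : (∏ a, ((2 : ℂ) ^ k a) ^ Fintype.card (F a)) ≠ 0 :=
    prod_ne_zero_iff.2 fun a _ => pow_ne_zero _ (pow_ne_zero _ two_ne_zero)
  have h1 := AV_cls hD (RGJ (k := k) P) (cL P) (fun S => (kJ D P k S : ℂ)) hW (kJ_mul D P) γ
  have h2 : (∑ c0 : κ → ZMod 2, e2 (c0 ⬝ᵥ γ) * TNG (RGJ (k := k) P) (cL P) w c0) =
      v * ∏ a, ((2 : ℂ) ^ k a) ^ Fintype.card (F a) := hv
  rw [h2] at h1
  refine AVr_iff.2 (AV.congr h1 (fun T => ?_) ?_)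
  · split_ifs
    · push_cast
      rfl
    · exact Complex.ofReal_zero
  · push_cast
    rw [mul_comm (v : ℂ), mul_div_mul_left _ _ hW]

/-- **P2e** (medium-). The joint moments of the normalised sizes. Proof: as `mom_kV` (MP_1a91b9_ntV/DJ/DenJ.lean):
with `t a = tv (P a) γ` (a power of `2`, `tcn_pow`) and `T = ∏ t a ^ k a` one has `kJ D P k S = T * ∏ kV ^ k` for
`S ≠ ∅` of the class `γ` (`tcn_le D (P a) hne`, `kV_mul`); `TGJ_eq k P hw hS γ hT` gives the hypothesis of `Pcl_kJ`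
with `v = T * ∏ gN (k a) 0`; then `Pcl.congr` and `(limP_Pcl D γ).smul` with `a = T⁻¹`. -/
theorem Pcl_kV {D : Dat2 ι κ} {w : κ → ZMod 2} (hD : OKt D w) (hw : w ≠ 0)
    (P : ∀ a, BD κ (E a) (F a)) (hS : Sep w fun a => (P a).kap) (γ : κ → ZMod 2)
    (hT : ∀ a, Bal (P a) w γ) (k : A → ℕ) :
    Pcl D γ (fun S => ∏ a, (kV D (P a) (tv (P a) γ) S : ℝ) ^ k a) (∏ a, (gN (k a) 0 : ℝ)) := by
  classical
  obtain ⟨t, ht⟩ : ∃ t : A → ℕ, ∀ a, t a = tv (P a) γ := ⟨_, fun _ => rfl⟩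
  have ht2 : ∀ a, ∃ r, t a = 2 ^ r := fun a => by
    rw [ht]
    exact tcn_pow _ _
  simp only [← ht]
  set T : ℝ := ∏ a, (t a : ℝ) ^ k a with hTd
  have hT0 : T ≠ 0 := by
    rw [hTd]
    refine prod_ne_zero_iff.2 fun a _ => pow_ne_zero _ ?_
    obtain ⟨r, hr⟩ := ht2 a
    rw [hr]
    push_cast
    positivity
  have hnu : ((∏ a, (tcn (Lc (P a)) (MMt (P a) γ) ^ k a * gN (k a) 0) : ℕ) : ℝ) =
      T * ∏ a, (gN (k a) 0 : ℝ) := by
    rw [hTd, ← prod_mul_distrib]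
    push_cast
    exact prod_congr rfl fun a _ => by rw [ht]; rfl
  have h0 := Pcl_kJ (k := k) hD P γ
    ((∏ a, (tcn (Lc (P a)) (MMt (P a) γ) ^ k a * gN (k a) 0) : ℕ) : ℝ) (by
      rw [TGJ_eq k P hw hS _ hT]
      push_cast
      rfl)
  rw [hnu] at h0
  have h1 := (limP_Pcl D γ).smul _ _ T⁻¹ h0
  refine Pcl.congr hD h1 (fun S hc hne => ?_) (by rw [← mul_assoc, inv_mul_cancel₀ hT0, one_mul])
  have h2 : (kJ D P k S : ℝ) = T * ∏ a, (kV D (P a) (t a) S : ℝ) ^ k a := by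
    rw [kJ, Nat.cast_prod, hTd, ← prod_mul_distrib]
    refine prod_congr rfl fun a _ => ?_
    have h6 : t a ≤ kM D (P a) S := by
      rw [ht, tv, ← hc]
      exact tcn_le D (P a) hne
    rw [kV_mul D (P a) (ht2 a) h6]
    push_cast
    rw [mul_pow]
  rw [h2, ← mul_assoc, inv_mul_cancel₀ hT0, one_mul]

end

end Pool.Agent.Lib.MP_1a91b9_ntDV
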