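import Pool.Agent.Lib.MP_1a91b9_ntDV.P2

set_option autoImplicit false
set_option linter.unusedSectionVars false

namespace Pool.Agent.Lib.MP_1a91b9_ntDV

open Finset Pool.Agent.Lib.MP_1a91b9_ntH Pool.Agent.Lib.MP_1a91b9_ntQ
open Pool.Agent.Lib.MP_1a91b9_ntQ.Da Pool.Agent.Lib.MP_1a91b9_ntV
open Pool.Agent.Lib.MP_1a91b9_ntM Pool.Agent.Lib.MP_1a91b9_ntV.DS Pool.Agent.Lib.MP_1a91b9_ntV.DJ

noncomputable section

variable {ι : Type} [DecidableEq ι] {κ : Type} [Fintype κ] [DecidableEq κ] [PS ι]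

/-- **P3a** (easy+). The joint density in a class. Proof: as `dens_J` (MP_1a91b9_ntV/DJ/DenJ.lean) with
`(limP_Pcl D γ).gN`, `Pcl_kV` and `Pcl.congr` in place of `WV_gN`, `mom_kV` and `WV.congr_ne`; the class of `S` is
`γ` (hypothesis of `Pcl.congr`), no `cls_SG`. -/
theorem Pcl_dens {A : Type} [Fintype A] [DecidableEq A] {E F : A → Type} [∀ a, Fintype (E a)]
    [∀ a, DecidableEq (E a)] [∀ a, Fintype (F a)] [∀ a, DecidableEq (F a)]
    {D : Dat2 ι κ} {w : κ → ZMod 2} (hD : OKt D w) (hw : w ≠ 0)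
    (P : ∀ a, BD κ (E a) (F a)) (hS : Sep w fun a => (P a).kap) (γ : κ → ZMod 2)
    (hT : ∀ a, Bal (P a) w γ) :
    Pcl D γ (fun S => ∏ a, gd D (P a) γ S) (cinfV ^ Fintype.card A) := by
  have h1 := (limP_Pcl D γ).gN (x := fun a S => kV D (P a) (tv (P a) γ) S)
    (fun a S => ⟨_, rfl⟩) fun k => Pcl_kV hD hw P hS γ hT k
  refine h1.congr hD (fun S hS hne => ?_) rfl
  refine prod_congr rfl fun a _ => ?_
  have h6 : tv (P a) γ ≤ kM D (P a) S := by
    rw [tv, ← hS]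
    exact tcn_le D (P a) hne
  have h7 : kM D (P a) S = tv (P a) γ * kV D (P a) (tv (P a) γ) S :=
    kV_mul D (P a) (tcn_pow _ _) h6
  obtain ⟨r, hr⟩ : ∃ r, tv (P a) γ = 2 ^ r := tcn_pow _ _
  have h8 : 0 < tv (P a) γ := by
    rw [hr]
    positivity
  rw [gd]
  refine if_congr ⟨fun h => ?_, fun h => ?_⟩ rfl rfl
  · have h9 : tv (P a) γ * kV D (P a) (tv (P a) γ) S = tv (P a) γ * 1 := by
      rw [← h7, mul_one]
      exact h
    exact Nat.eq_of_mul_eq_mul_left h8 h9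
  · rw [h7, h, mul_one]

private theorem Pcl_zero' (D : Dat2 ι κ) (γ : κ → ZMod 2) : Pcl D γ (fun _ => 0) 0 := by
  intro ε hε
  refine ⟨0, fun X _ => ?_⟩
  have h1 : ∀ S : Finset ι, avr (fun T => if clN D T = γ then (0 : ℝ) else 0) S = 0 := by
    intro S
    unfold avr
    simp only [ite_self, sum_const_zero, zero_div]
  have h2 : ∑ S ∈ Sx ι X, (avr (fun T => if clN D T = γ then (0 : ℝ) else 0) S -
      0 / 2 ^ Fintype.card κ) ^ 2 = 0 :=
    sum_eq_zero fun S _ => by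
      rw [h1, zero_div, sub_zero]
      norm_num
  have h3 : (0 : ℝ) ≤ ε * ((Sx ι X).card + X) := by positivity
  exact h2.le.trans h3

/-- **P3b** (medium-). Products of linear combinations of the indicators. Proof: as `dens_lin`
(MP_1a91b9_ntV/DJ/DenJ.lean) with `Pcl_dens`, `(limP_Pcl D γ).smul`, `(limP_Pcl D γ).sum` and `Pcl.congr`. (The
hypothesis `P (fun _ => 0) 0` of `LimP.sum`: `smul` with `a = 0`, or directly from `AVr`.) -/
theorem Pcl_lin {B : Type} [Fintype B] [DecidableEq B] {I : B → Type} [∀ b, Fintype (I b)]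
    [∀ b, DecidableEq (I b)] {E F : ∀ b, I b → Type} [∀ b i, Fintype (E b i)]
    [∀ b i, DecidableEq (E b i)] [∀ b i, Fintype (F b i)] [∀ b i, DecidableEq (F b i)]
    {D : Dat2 ι κ} {w : κ → ZMod 2} (hD : OKt D w) (hw : w ≠ 0)
    (P : ∀ b i, BD κ (E b i) (F b i))
    (hS : ∀ b b', b ≠ b' → ∀ i i', (P b i).kap + (P b' i').kap ≠ 0 ∧
      (P b i).kap + (P b' i').kap ≠ w) (γ : κ → ZMod 2)
    (hT : ∀ b i, Bal (P b i) w γ) (ε : ∀ b, I b → ℝ)
    (f : B → Finset ι → ℝ) (hf : ∀ S : Finset ι, clN D S = γ → S ≠ ∅ → ∀ b,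
      f b S = ∑ i, ε b i * gd D (P b i) γ S) :
    Pcl D γ (fun S => ∏ b, f b S) (∏ b, ((∑ i, ε b i) * cinfV)) := by
  classical
  have h1 : ∀ σ : ∀ b, I b, Pcl D γ
      (fun S => (∏ b, ε b (σ b)) * ∏ b, gd D (P b (σ b)) γ S)
      ((∏ b, ε b (σ b)) * cinfV ^ Fintype.card B) := fun σ =>
    (limP_Pcl D γ).smul _ _ _ (Pcl_dens hD hw (fun b => P b (σ b)) (fun a b hab => hS a b hab _ _) γ
      fun b => hT b (σ b))
  have h2 := (limP_Pcl D γ).sum univ (fun σ _ => h1 σ) (Pcl_zero' D γ)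
  refine h2.congr hD (fun S hS hne => ?_) ?_
  · rw [prod_congr rfl fun b _ => hf S hS hne b, Finset.prod_univ_sum, Fintype.piFinset_univ]
    exact sum_congr rfl fun σ _ => prod_mul_distrib
  · rw [← sum_mul]
    have h4 : ∑ σ : (∀ b, I b), ∏ b, ε b (σ b) = ∏ b, ∑ i, ε b i := by
      rw [Finset.prod_univ_sum, Fintype.piFinset_univ]
    rw [h4, prod_mul_distrib, prod_const, card_univ]

end

end Pool.Agent.Lib.MP_1a91b9_ntDV
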