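import Pool.Agent.Lib.MP_1a91b9_ntDV.P3
import Pool.Agent.Lib.MP_1a91b9_ntZ.J7.Cls

set_option autoImplicit false
set_option linter.unusedSectionVars false

namespace Pool.Agent.Lib.MP_1a91b9_ntDV

open Finset Pool.Agent.Lib.MP_1a91b9_ntH Pool.Agent.Lib.MP_1a91b9_ntQ
open Pool.Agent.Lib.MP_1a91b9_ntQ.Da Pool.Agent.Lib.MP_1a91b9_ntV
open Pool.Agent.Lib.MP_1a91b9_ntM Pool.Agent.Lib.MP_1a91b9_ntV.DS Pool.Agent.Lib.MP_1a91b9_ntV.DJ
open Pool.Agent.Lib.MP_1a91b9_ntV.Pn (P7 tcn_P7 trn_P7 good_P7_0 good_P7_1 pencil_P7)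
open Pool.Agent.Lib.MP_1a91b9_ntZ.J7 (vb fb vb_ge fb_eq)

noncomputable section

variable {ι : Type} [DecidableEq ι] [PS ι] {N : ℕ}

/-- **P4** (medium). The mean value of the indicator of a good block of labels, in a class.
Proof. This is `wvJ7` (MP_1a91b9_ntZ/J7/Cls.lean) for one block of labels (`k = 1`, no `Fin k`), with `Pcl_lin` in
place of `dens_lin`, the class `γ'` in place of `fun j => C.A j g`: index type `Bks d1 d2 T` instead of
`Σ b : J, Bks ..`, `I = fun _ => Fin 3`, systems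
`PB D γ' (T (rep d1 d2 T β)) (d0 (rep ..)) (d1 (rep ..)) (d2 (rep ..)) i`, separation by `sep7` (two labels of
different blocks: `rep_spec`), `bal7 γ' tw`, coefficients `co d1 d2 T β`, functions
`fun S => ∏ a ∈ mem d1 d2 T β, gi D (T a) (d0 a) (d1 a) (d2 a) S`; the case distinction `block_cases hinj β` with
`gi_one`, `gi_two` is literally the same (`hcl : clN (D.off B) S = γ'` and `hne : S ≠ ∅` are now the hypotheses of
`Pcl_lin`). At the end `prod_blocks` for the function and `rfl` for the value (`vb`). `w7B B ≠ 0`: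
`fun h => one_ne_zero (congrFun h (Sum.inl 0))`. If the rewriting of the function needs it, use
`Pcl.congr hD .. (fun T _ _ => ..) rfl`. -/
theorem Pcl_7 {D : Dat2 ι (Fin 3)} (tw : Tw7 D) {B : Finset ι} (hD : OKt (D.off B) (w7B B))
    {d0 d1 d2 : Fin N → ZMod 2} {T : Fin N → Finset ι} (hT : ∀ n, T n ⊆ B)
    (hinj : Function.Injective fun n => (d0 n, d1 n, d2 n, T n)) (γ' : Fin 3 ⊕ B → ZMod 2) :
    Pcl (D.off B) γ' (fb D d0 d1 d2 T) (vb d1 d2 T) := by
  classical
  have hw : w7B B ≠ 0 := fun h => one_ne_zero (congrFun h (Sum.inl 0))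
  have hlab : ∀ n n', lab d1 d2 T n = lab d1 d2 T n' → d1 n = d1 n' ∧ d2 n = d2 n' ∧ T n = T n' := by
    intro n n' h
    unfold lab at h
    simp only [Prod.mk.injEq] at h
    exact ⟨h.1.1, h.1.2, h.2⟩
  have h1 := Pcl_lin (B := Bks d1 d2 T) (I := fun _ => Fin 3) hD hw
    (fun β i => PB D γ' (T (rep d1 d2 T β)) (d0 (rep d1 d2 T β)) (d1 (rep d1 d2 T β))
      (d2 (rep d1 d2 T β)) i)
    (by
      intro β β' hbb i i'
      refine sep7 γ' (hT _) (hT _) i i' ?_
      rintro ⟨h1, h2, h3⟩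
      apply hbb
      apply Subtype.ext
      rw [← rep_spec d1 d2 T β, ← rep_spec d1 d2 T β']
      unfold lab
      rw [h1, h2, h3])
    γ' (fun β i => bal7 γ' tw (hT _) _ _ _ i)
    (fun β => Pool.Agent.Lib.MP_1a91b9_ntV.DJ.co d1 d2 T β)
    (fun β S => ∏ a ∈ mem d1 d2 T β, gi D (T a) (d0 a) (d1 a) (d2 a) S)
    (by
      intro S hcl hne β
      rw [Fin.sum_univ_three]
      rcases block_cases hinj β with h | ⟨a, ha, h0, h⟩
      · unfold Pool.Agent.Lib.MP_1a91b9_ntV.DJ.co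
        rw [if_pos h, if_pos h, if_pos h, h, prod_singleton,
          gi_one γ' tw hne (hT _) hcl]
        show _ = 1 * _ + 0 * _ + 0 * _
        ring
      · have hn : ¬ mem d1 d2 T β = {rep d1 d2 T β} := by
          intro h'
          have h2 : a ∈ ({rep d1 d2 T β} : Finset (Fin N)) := by
            rw [← h', h]
            exact mem_insert_of_mem (mem_singleton_self a)
          exact ha (mem_singleton.1 h2)
        have hab : lab d1 d2 T a = lab d1 d2 T (rep d1 d2 T β) := by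
          rw [rep_spec, ← mem_mem, h]
          exact mem_insert_of_mem (mem_singleton_self a)
        obtain ⟨e1, e2, e3⟩ := hlab a _ hab
        unfold Pool.Agent.Lib.MP_1a91b9_ntV.DJ.co
        rw [if_neg hn, if_neg hn, if_neg hn, h, prod_pair ha.symm, e1, e2, e3, h0,
          gi_two γ' tw hne (hT _) hcl]
        show _ = 1 / 2 * _ + 1 / 2 * _ + -(1 / 2) * _
        ring)
  exact Pcl.congr hD h1 (fun S _ _ => prod_blocks d1 d2 T _) rfl

/-- The same without the class: `AVr_of_Pcl`. -/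
theorem AVr_7 {D : Dat2 ι (Fin 3)} (tw : Tw7 D) {B : Finset ι} (hD : OKt (D.off B) (w7B B))
    {d0 d1 d2 : Fin N → ZMod 2} {T : Fin N → Finset ι} (hT : ∀ n, T n ⊆ B)
    (hinj : Function.Injective fun n => (d0 n, d1 n, d2 n, T n)) :
    AVr (fb D (B := B) d0 d1 d2 T) (vb d1 d2 T) :=
  AVr_of_Pcl fun γ => Pcl_7 tw hD hT hinj γ

end

end Pool.Agent.Lib.MP_1a91b9_ntDV
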