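import Pool.Agent.Lib.MP_1a91b9_ntDV.P4
import Pool.Agent.Lib.MP_1a91b9_ntDV.P5
import Pool.Agent.Lib.MP_1a91b9_ntDV.T0
import Pool.Agent.Lib.MP_1a91b9_ntV.DJ.Dsj7

set_option autoImplicit false
set_option linter.unusedSectionVars false

namespace Pool.Agent.Lib.MP_1a91b9_ntDV

open NumberField Finset Pool.Agent.Lib.MP_1a91b9_nuT Pool.Agent.Lib.MP_1a91b9_ntQ
open Pool.Agent.Lib.MP_1a91b9_ntV
open Pool.Agent.Lib.MP_1a91b9_ntV.DS (cinfV)
open Pool.Agent.Lib.MP_1a91b9_ntV.DJ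
open Pool.Agent.Lib.MP_1a91b9_ntH (PS nm Sx mem_Sx Cheb Zt)
open Pool.Agent.Lib.MP_1a91b9_ntZ.J7 (vb fb vb_ge fb_eq)

noncomputable section

open Classical in
/-- **P6a** (medium-). From the mean square outside `B` to `SubL`.
Proof. The sets `S ∈ Sx ι X` disjoint from `B` are the `up S₀` with `S₀ ∈ Sx (Off B) X` (see `sum_Sx_off`, `mem_up`,
`nm_up` or how they are used in `card_off`, MP_1a91b9_ntZ/J7/Cls.lean, and in MP_1a91b9_ntQ/D/ExtB.lean), with the
same norm and the same number of elements, and the subsets of `up S₀` are the `up U` with `U ⊆ S₀`, so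
`avr f S₀ = #{U' ⊆ up S₀ | Q U'} / 2 ^ #S₀` by `hf`. So the number in `SubL B c Q` for `ε` is the number of the
`S₀ ∈ Sx (Off B) X` with `avr f S₀ < c - ε`, and `c - ε < v`: by `AVr.rare` for `ε / (C + 1)` it is at most
`ε / (C + 1) * (card (Sx (Off B) X) + X) ≤ ε * X`, because `card (Sx (Off B) X) ≤ card (Sx ι X) ≤ C * X`
(`card_Sx_le h1 h2`, for `X ≥ 2`). -/
theorem AVr.subL {ι : Type} [DecidableEq ι] [PS ι] {C1 C2 : ℝ} (h1 : Cheb ι C1) (h2 : Zt ι C2)
    {B : Finset ι} {Q : Finset ι → Prop} {c v : ℝ} (hcv : c ≤ v) {f : Finset (Off B) → ℝ}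
    (hf : ∀ S, f S = if Q (up S) then 1 else 0) (h : AVr f v) : SubL B c Q := by
  obtain ⟨C, hC, hcard⟩ := card_Sx_le h1 h2
  have hup : ∀ S₀ : Finset (Off B), (up S₀).card = S₀.card := fun S₀ => card_map _
  have hcnt : ∀ S₀ : Finset (Off B), ∑ T ∈ S₀.powerset, f T =
      (((up S₀).powerset.filter Q).card : ℝ) := by
    intro S₀
    have e1 : ∑ T ∈ S₀.powerset, f T = ((S₀.powerset.filter fun T => Q (up T)).card : ℝ) := by
      rw [sum_congr rfl fun T _ => hf T, ← sum_filter, sum_const, nsmul_eq_mul, mul_one]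
    rw [e1]
    refine congrArg (fun n : ℕ => (n : ℝ)) ?_
    refine card_bij (fun T _ => up T) ?_ ?_ ?_
    · intro T hT
      obtain ⟨hT1, hT2⟩ := mem_filter.1 hT
      refine mem_filter.2 ⟨mem_powerset.2 ?_, hT2⟩
      intro q hq
      obtain ⟨hq1, hq2⟩ := mem_up.1 hq
      exact mem_up.2 ⟨hq1, mem_powerset.1 hT1 hq2⟩
    · intro T _ T' _ hTT
      exact up_injective hTT
    · intro U hU
      obtain ⟨hU1, hU2⟩ := mem_filter.1 hU
      have hU3 : U ⊆ up S₀ := mem_powerset.1 hU1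
      have hU4 : Disjoint U B := disjoint_of_subset_left hU3 (disj_up S₀)
      refine ⟨dn B U, mem_filter.2 ⟨mem_powerset.2 ?_, ?_⟩, up_dn hU4⟩
      · intro q hq
        obtain ⟨_, hq2⟩ := mem_up.1 (hU3 (mem_dn.1 hq))
        exact hq2
      · rw [up_dn hU4]
        exact hU2
  intro ε hε
  obtain ⟨X1, hX1⟩ := AVr.rare h (v' := c - ε) (by linarith) (ε / (C + 1)) (by positivity)
  refine ⟨max X1 2, fun X hX => ?_⟩
  have hX2 : 2 ≤ X := (le_max_right _ _).trans hX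
  have h3 := hX1 X ((le_max_left _ _).trans hX)
  have h4 : (((Sx ι X).filter fun S => Disjoint S B ∧
      ((S.powerset.filter Q).card : ℝ) < (c - ε) * 2 ^ S.card).card : ℝ) ≤
      (((Sx (Off B) X).filter fun S => avr f S < c - ε).card : ℝ) := by
    refine Nat.cast_le.2 ?_
    refine le_trans (card_le_card (t := ((Sx (Off B) X).filter fun S => avr f S < c - ε).image
      fun S => up S) ?_) card_image_le
    intro S hS
    obtain ⟨hS1, hS2, hS3⟩ := mem_filter.1 hS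
    refine mem_image.2 ⟨dn B S, mem_filter.2 ⟨?_, ?_⟩, up_dn hS2⟩
    · rw [← up_mem_Sx, up_dn hS2]
      exact hS1
    · unfold avr
      rw [hcnt, ← hup, up_dn hS2, div_lt_iff₀ (by positivity)]
      exact hS3
  have h5 : ((Sx (Off B) X).card : ℝ) ≤ (Sx ι X).card := by
    refine Nat.cast_le.2 ?_
    refine card_le_card_of_injOn (fun S => up S) ?_ (up_injective.injOn)
    intro S hS
    exact up_mem_Sx.2 hS
  have h6 := hcard X hX2
  have hX0 : (0 : ℝ) ≤ X := Nat.cast_nonneg X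
  refine h4.trans (h3.trans ?_)
  calc ε / (C + 1) * ((Sx (Off B) X).card + X) ≤ ε / (C + 1) * (C * X + X) := by
        refine mul_le_mul_of_nonneg_left ?_ (by positivity)
        linarith
    _ = ε * X := by
        field_simp

variable [CD] [hv : V7]

/-- **P6b** (easy+). **The joint law for the subsets, `ℚ(√-7)`.** Proof: choose any `n` (for example `0`);
`okt7B n B : OKt (D7.off B) (w7B B)`, `tw7D : Tw7 D7` (MP_1a91b9_ntV/DJ/Dsj7.lean);
`AVr_7 tw7D (okt7B n B) hT hinj : AVr (fb D7 d0 d1 d2 T) (vb d1 d2 T)`, `vb_ge hinj : cinfV ^ N ≤ vb d1 d2 T`,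
`fb_eq` for the indicator (with `Q S = ∀ n, Good7 D7 (S ∪ T n) (d0 n) (d1 n) (d2 n)`); `Cheb` and `Zt` for `Pg7`
from `okt7d.an` (`okt7d : OKt D7 w7`, used in `tw7D`). -/
theorem jl7' (N : ℕ) (d0 d1 d2 : Fin N → ZMod 2) (T : Fin N → Finset Pg7) (B : Finset Pg7)
    (hT : ∀ n, T n ⊆ B) (hinj : Function.Injective (fun n => (d0 n, d1 n, d2 n, T n))) :
    SubL B (cinfV ^ N) fun S => ∀ n, Good7 D7 (S ∪ T n) (d0 n) (d1 n) (d2 n) := by
  classical
  obtain ⟨C1, h1⟩ := okt7d.an.cheb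
  obtain ⟨C2, h2⟩ := okt7d.an.zt
  refine AVr.subL h1 h2 (vb_ge hinj) (fun S => ?_) (AVr_7 tw7D (okt7B 0 B) hT hinj)
  rw [fb_eq D7 d0 d1 d2 T S]
  by_cases h3 : ∀ n, Good7 D7 (up S ∪ T n) (d0 n) (d1 n) (d2 n)
  · rw [if_pos h3, if_pos h3]
  · rw [if_neg h3, if_neg h3]

end

end Pool.Agent.Lib.MP_1a91b9_ntDV
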