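import Pool.Agent.Lib.MP_1a91b9_ntDV.P1
import Pool.Agent.Lib.MP_1a91b9_ntDV.P2
import Pool.Agent.Lib.MP_1a91b9_ntW.DJ.Joint

set_option autoImplicit false
set_option linter.unusedSectionVars false

namespace Pool.Agent.Lib.MP_1a91b9_ntDV

open Finset Pool.Agent.Lib.MP_1a91b9_ntH Pool.Agent.Lib.MP_1a91b9_ntQ
open Pool.Agent.Lib.MP_1a91b9_ntQ.Da Pool.Agent.Lib.MP_1a91b9_ntV
open Pool.Agent.Lib.MP_1a91b9_ntW

noncomputable section

/-- **W7a** (easy+). Products of linear combinations of the indicators, for a notion of mean value. Proof: as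
`ind_sum` (MP_1a91b9_ntW/DJ/Dens.lean) with `hP.Nk` in place of `ind_prod`, `hP.smul`, `hP.sum` (the hypothesis
`P (fun _ => 0) 0` from `hP.smul` with `a = 0`). -/
theorem LimP.ind_sum {β : Type} {P : (β → ℝ) → ℝ → Prop} (hP : LimP P) {A : Type} [Fintype A]
    [DecidableEq A] {I : Type} [Fintype I] [DecidableEq I] [Nonempty I] {x : A → I → β → ℕ}
    (hp : ∀ a i b, ∃ r, x a i b = 2 ^ r)
    (hm : ∀ (i : A → I) (k : A → ℕ), P (fun b => ∏ a, (x a (i a) b : ℝ) ^ k a)
      (∏ a, (Nk2 (k a) : ℝ))) (u : A → I → ℝ) :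
    P (fun b => ∏ a, ∑ i, u a i * if x a i b = 1 then (1 : ℝ) else 0)
      (cinf2 ^ Fintype.card A * ∏ a, ∑ i, u a i) := by
  classical
  have h0 : P (fun _ => 0) 0 := by
    have h1 := hP.smul _ _ 0 (hm (fun _ => Classical.arbitrary I) fun _ => 0)
    rw [zero_mul, show (fun b => 0 * ∏ a : A, (x a (Classical.arbitrary I) b : ℝ) ^ 0) =
      (fun _ : β => (0 : ℝ)) from funext fun b => zero_mul _] at h1
    exact h1
  have h1 : ∀ i : A → I, P (fun b => (∏ a, u a (i a)) *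
      ∏ a, if x a (i a) b = 1 then (1 : ℝ) else 0)
      ((∏ a, u a (i a)) * cinf2 ^ Fintype.card A) := fun i =>
    hP.smul _ _ _ (hP.Nk (x := fun a => x a (i a)) (fun a b => hp a (i a) b) (hm i))
  have h2 := hP.sum univ (fun i _ => h1 i) h0
  have h3 : (fun b => ∏ a, ∑ i, u a i * if x a i b = 1 then (1 : ℝ) else 0) =
      fun b => ∑ i : A → I, (∏ a, u a (i a)) * ∏ a, if x a (i a) b = 1 then (1 : ℝ) else 0 := by
    funext b
    rw [Finset.prod_univ_sum, Fintype.piFinset_univ]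
    exact sum_congr rfl fun i _ => prod_mul_distrib
  have h4 : cinf2 ^ Fintype.card A * ∏ a, ∑ i, u a i =
      ∑ i : A → I, (∏ a, u a (i a)) * cinf2 ^ Fintype.card A := by
    rw [Finset.prod_univ_sum, Fintype.piFinset_univ, mul_comm, sum_mul]
  rw [h3, h4]
  exact h2

/-- **W7b** (easy+). From the classes to all the sets, with a value which depends on the class. Proof: as
`AVr_of_Pcl` (leaf P2, proved in P2.lean). -/
theorem AVr_of_Pcl' {ι : Type} [DecidableEq ι] {κ : Type} [Fintype κ] [DecidableEq κ] [PS ι]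
    {D : Dat2 ι κ} {f : Finset ι → ℝ} {v : (κ → ZMod 2) → ℝ} (h : ∀ γ, Pcl D γ f (v γ)) :
    AVr f ((∑ γ, v γ) / 2 ^ Fintype.card κ) := by
  classical
  have h1 := AVr.sum univ fun γ _ => h γ
  refine AVr.congr h1 (fun T => ?_) (Finset.sum_div _ _ _)
  rw [Finset.sum_ite_eq, if_pos (mem_univ _)]

end

end Pool.Agent.Lib.MP_1a91b9_ntDV
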