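import Pool.Agent.Lib.MP_1a91b9_ntDV.P6
import Pool.Agent.Lib.MP_1a91b9_ntDV.W7
import Pool.Agent.Lib.MP_1a91b9_ntDV.K3_14
import Pool.Agent.Lib.MP_1a91b9_ntDV.U0

/-!
# MP_1a91b9_nt (the divisor law, binomial form): the joint law for blocks of labels over `ℚ(√-7)`
-/

set_option autoImplicit false
set_option linter.unusedSectionVars false

namespace Pool.Agent.Lib.MP_1a91b9_ntDV

open Finset Pool.Agent.Lib.MP_1a91b9_ntH Pool.Agent.Lib.MP_1a91b9_ntQ
open Pool.Agent.Lib.MP_1a91b9_ntQ.Da Pool.Agent.Lib.MP_1a91b9_ntV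
open Pool.Agent.Lib.MP_1a91b9_ntM Pool.Agent.Lib.MP_1a91b9_ntV.DS Pool.Agent.Lib.MP_1a91b9_ntV.DJ
open Pool.Agent.Lib.MP_1a91b9_ntV.Pn (P7 tcn_P7 trn_P7 good_P7_0 good_P7_1 pencil_P7)
open Pool.Agent.Lib.MP_1a91b9_ntZ (Atl bn bts bts_zero bts_empty_succ bts_insert_succ bts_mono
  bts_ind bts_const)
open Pool.Agent.Lib.MP_1a91b9_ntZ.J7 (vb fb vb_ge vb_le fb_eq)

noncomputable section

variable {ι : Type} [DecidableEq ι] [PS ι] {k N : ℕ}

/-- The mean value of the products of the indicators of the good blocks of labels, in a class (as `wvJ7`). -/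
theorem Pcl_7J {D : Dat2 ι (Fin 3)} (tw : Tw7 D) {B : Finset ι} (hD : OKt (D.off B) (w7B B))
    {d0 d1 d2 : Fin k → Fin N → ZMod 2} {T : Fin k → Fin N → Finset ι} (hT : ∀ b n, T b n ⊆ B)
    (hinj : ∀ b, Function.Injective fun n => (d0 b n, d1 b n, d2 b n, T b n))
    (hdis : ∀ b b', b ≠ b' → ∀ n n', ¬ (d1 b n = d1 b' n' ∧ d2 b n = d2 b' n' ∧ T b n = T b' n'))
    (γ' : Fin 3 ⊕ B → ZMod 2) (J : Finset (Fin k)) :
    Pcl (D.off B) γ' (fun S => ∏ b ∈ J, fb D (d0 b) (d1 b) (d2 b) (T b) S)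
      (∏ b ∈ J, vb (d1 b) (d2 b) (T b)) := by
  classical
  have hw : w7B B ≠ 0 := fun h => one_ne_zero (congrFun h (Sum.inl 0))
  have hlab : ∀ b : Fin k, ∀ n n', lab (d1 b) (d2 b) (T b) n = lab (d1 b) (d2 b) (T b) n' →
      d1 b n = d1 b n' ∧ d2 b n = d2 b n' ∧ T b n = T b n' := by
    intro b n n' h
    unfold lab at h
    simp only [Prod.mk.injEq] at h
    exact ⟨h.1.1, h.1.2, h.2⟩
  have h1 := Pcl_lin (B := Σ b : J, Bks (d1 b) (d2 b) (T b)) (I := fun _ => Fin 3) hD hw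
    (fun b i => PB D γ' (T b.1 (rep (d1 b.1) (d2 b.1) (T b.1) b.2))
      (d0 b.1 (rep (d1 b.1) (d2 b.1) (T b.1) b.2)) (d1 b.1 (rep (d1 b.1) (d2 b.1) (T b.1) b.2))
      (d2 b.1 (rep (d1 b.1) (d2 b.1) (T b.1) b.2)) i)
    (by
      rintro ⟨b, β⟩ ⟨b', β'⟩ hbb i i'
      refine sep7 γ' (hT _ _) (hT _ _) i i' ?_
      rintro ⟨h1, h2, h3⟩
      by_cases hb : b = b'
      · subst hb
        apply hbb
        have : β = β' := by
          apply Subtype.ext
          rw [← rep_spec (d1 b) (d2 b) (T b) β, ← rep_spec (d1 b) (d2 b) (T b) β']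
          unfold lab
          rw [h1, h2, h3]
        rw [this]
      · exact hdis b b' (fun h => hb (Subtype.ext h)) _ _ ⟨h1, h2, h3⟩)
    γ' (fun b i => bal7 γ' tw (hT _ _) _ _ _ i)
    (fun b => Pool.Agent.Lib.MP_1a91b9_ntV.DJ.co (d1 b.1) (d2 b.1) (T b.1) b.2)
    (fun b S => ∏ a ∈ mem (d1 b.1) (d2 b.1) (T b.1) b.2,
      gi D (T b.1 a) (d0 b.1 a) (d1 b.1 a) (d2 b.1 a) S)
    (by
      rintro S hcl hne ⟨b, β⟩
      rw [Fin.sum_univ_three]
      rcases block_cases (hinj b) β with h | ⟨a, ha, h0, h⟩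
      · unfold Pool.Agent.Lib.MP_1a91b9_ntV.DJ.co
        rw [if_pos h, if_pos h, if_pos h, h, prod_singleton,
          gi_one γ' tw hne (hT _ _) hcl]
        show _ = 1 * _ + 0 * _ + 0 * _
        ring
      · have hn : ¬ mem (d1 b) (d2 b) (T b) β = {rep (d1 b) (d2 b) (T b) β} := by
          intro h'
          have h2 : a ∈ ({rep (d1 b) (d2 b) (T b) β} : Finset (Fin N)) := by
            rw [← h', h]
            exact mem_insert_of_mem (mem_singleton_self a)
          exact ha (mem_singleton.1 h2)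
        have hab : lab (d1 b) (d2 b) (T b) a =
            lab (d1 b) (d2 b) (T b) (rep (d1 b) (d2 b) (T b) β) := by
          rw [rep_spec, ← mem_mem, h]
          exact mem_insert_of_mem (mem_singleton_self a)
        obtain ⟨e1, e2, e3⟩ := hlab b a _ hab
        unfold Pool.Agent.Lib.MP_1a91b9_ntV.DJ.co
        rw [if_neg hn, if_neg hn, if_neg hn, h, prod_pair ha.symm, e1, e2, e3, h0,
          gi_two γ' tw hne (hT _ _) hcl]
        show _ = 1 / 2 * _ + 1 / 2 * _ + -(1 / 2) * _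
        ring)
  refine Pcl.congr hD h1 (fun S _ _ => ?_) ?_
  · rw [Fintype.prod_sigma, ← prod_coe_sort J]
    exact prod_congr rfl fun b _ => prod_blocks (d1 b) (d2 b) (T b) _
  · rw [Fintype.prod_sigma, ← prod_coe_sort J]
    rfl

open Classical in
/-- At least `t` of the blocks of labels: the mean value over the subsets. -/
theorem AVr_7J {D : Dat2 ι (Fin 3)} (tw : Tw7 D) {B : Finset ι} (hD : OKt (D.off B) (w7B B))
    {d0 d1 d2 : Fin k → Fin N → ZMod 2} {T : Fin k → Fin N → Finset ι} (hT : ∀ b n, T b n ⊆ B)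
    (hinj : ∀ b, Function.Injective fun n => (d0 b n, d1 b n, d2 b n, T b n))
    (hdis : ∀ b b', b ≠ b' → ∀ n n', ¬ (d1 b n = d1 b' n' ∧ d2 b n = d2 b' n' ∧ T b n = T b' n'))
    (t : ℕ) :
    AVr (fun S : Finset (Off B) => bts univ t fun b : Fin k => fb D (d0 b) (d1 b) (d2 b) (T b) S)
      (bts univ t fun b : Fin k => vb (d1 b) (d2 b) (T b)) := by
  refine AVr_of_Pcl (D := D.off B) fun γ => ?_
  have h := (limP_Pcl (D.off B) γ).mean_bts
    (F := fun (b : Fin k) (S : Finset (Off B)) => fb D (d0 b) (d1 b) (d2 b) (T b) S)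
    (v := fun b => vb (d1 b) (d2 b) (T b)) univ ∅ (disjoint_empty_left _)
    (fun J _ => Pcl_7J tw hD hT hinj hdis γ J) t
  simp only [prod_empty, one_mul] at h
  exact h

variable [Pool.Agent.Lib.MP_1a91b9_nuT.CD] [hv : V7]

/-- **The joint law for blocks of labels, `ℚ(√-7)`.** -/
theorem jb7 : JB7 := by
  classical
  intro k N _ d0 d1 d2 T B hT hinj hdis t
  obtain ⟨C1, h1⟩ := okt7d.an.cheb
  obtain ⟨C2, h2⟩ := okt7d.an.zt
  have hle : bn k t (cinfV ^ N) ≤ bts univ t fun b : Fin k => vb (d1 b) (d2 b) (T b) := by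
    have e := bts_const (univ : Finset (Fin k)) t (cinfV ^ N)
    rw [card_univ, Fintype.card_fin] at e
    rw [← e]
    exact bts_mono univ t (fun _ _ => pow_nonneg cinfV_nn N) (fun b _ => vb_ge (hinj b))
      fun b _ => vb_le (hinj b)
  refine AVr.subL h1 h2 hle (fun S => ?_)
    (AVr_7J tw7D (okt7B (⟨0, by omega⟩ : Fin 1) B) hT hinj hdis t)
  have e := bts_ind (fun b : Fin k => ∀ n, Good7 D7 (up S ∪ T b n) (d0 b n) (d1 b n) (d2 b n)) univ t
  refine Eq.trans ?_ (e.trans ?_)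
  · refine congrArg (bts univ t) (funext fun b => ?_)
    rw [fb_eq]
    by_cases h : ∀ n, Good7 D7 (up S ∪ T b n) (d0 b n) (d1 b n) (d2 b n)
    · exact (if_pos h).trans (if_pos h).symm
    · exact (if_neg h).trans (if_neg h).symm
  · by_cases h : Atl t fun b => ∀ n, Good7 D7 (up S ∪ T b n) (d0 b n) (d1 b n) (d2 b n)
    · exact (if_pos h).trans (if_pos h).symm
    · exact (if_neg h).trans (if_neg h).symm

end

end Pool.Agent.Lib.MP_1a91b9_ntDV
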