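import Pool.Agent.Lib.MP_1a91b9_ntDV.T0

/-!
# MP_1a91b9_nt (the divisor law), block T: the rules for `SubL`
-/

set_option autoImplicit false
set_option linter.unusedSectionVars false

namespace Pool.Agent.Lib.MP_1a91b9_ntDV

open Finset
open Pool.Agent.Lib.MP_1a91b9_ntH (PS nm Sx mem_Sx nm_union one_le_nm)

noncomputable section

variable {ι : Type} [DecidableEq ι] [PS ι]

/-- **T1a** (easy). Monotonicity. Proof: same `X₀`. If `S` is disjoint from `B`, every `S' ⊆ S` is disjoint from
`B`, so `S.powerset.filter P ⊆ S.powerset.filter Q` (`card_le_card`, `Nat.cast_le`); hence the bad sets for `Q`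
are bad for `P`. -/
theorem SubL.mono {B : Finset ι} {c : ℝ} {P Q : Finset ι → Prop} (h : SubL B c P)
    (hPQ : ∀ S, Disjoint S B → P S → Q S) : SubL B c Q := by
  classical
  intro ε hε
  obtain ⟨X₀, hX₀⟩ := h ε hε
  refine ⟨X₀, fun X hX => le_trans ?_ (hX₀ X hX)⟩
  refine Nat.cast_le.2 (card_le_card fun S hS => ?_)
  rw [mem_filter] at hS ⊢
  refine ⟨hS.1, hS.2.1, lt_of_le_of_lt ?_ hS.2.2⟩
  refine Nat.cast_le.2 (card_le_card fun T hT => ?_)
  rw [mem_filter] at hT ⊢
  exact ⟨hT.1, hPQ T (Disjoint.mono_left (mem_powerset.1 hT.1) hS.2.1) hT.2⟩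

/-- **T1b** (easy). A smaller share. Proof: `(c' - ε) * 2 ^ S.card ≤ (c - ε) * 2 ^ S.card`. -/
theorem SubL.anti {B : Finset ι} {c c' : ℝ} {P : Finset ι → Prop} (h : SubL B c P) (hc : c' ≤ c) :
    SubL B c' P := by
  classical
  intro ε hε
  obtain ⟨X₀, hX₀⟩ := h ε hε
  refine ⟨X₀, fun X hX => le_trans ?_ (hX₀ X hX)⟩
  refine Nat.cast_le.2 (card_le_card fun S hS => ?_)
  rw [mem_filter] at hS ⊢
  refine ⟨hS.1, hS.2.1, lt_of_lt_of_le hS.2.2 ?_⟩
  exact mul_le_mul_of_nonneg_right (by linarith) (by positivity)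

/-- **T1c** (medium). From the sets outside `B` to all the sets.
Proof. Given `ε > 0`. Let `η = ε / 4 ^ B.card` (so `0 < η ≤ ε`), and let `X₀` be larger than the `X₀` of
`h B'' _ η` for all `B'' ⊆ B` (`choose`, sum over `B.powerset` or `Finset.sup`). Let `X₀ ≤ X`. For `S ∈ Sx ι X`
write `S = (S \ B) ∪ (S ∩ B)`, `B' = S ∩ B ⊆ B`, `U = S \ B`, `Disjoint U B`, `nm U ≤ nm S ≤ X`
(`nm S = nm U * nm B'`, `nm_union`, `one_le_nm`). The subsets of `U ∪ B'` are the `V ∪ B''` with `V ⊆ U` and
`B'' ⊆ B'` (bijection `W ↦ (W \ B, W ∩ B)`), so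
`#{W ⊆ S | P W} = ∑ B'' ∈ B'.powerset, #{V ⊆ U | P (V ∪ B'')}`. If for every `B'' ⊆ B'` one had
`(c - η) * 2 ^ U.card ≤ #{V ⊆ U | P (V ∪ B'')}` then, summing over the `2 ^ B'.card` sets `B''`,
`(c - ε) * 2 ^ S.card ≤ (c - η) * 2 ^ (U.card + B'.card) ≤ #{W ⊆ S | P W}`, and `S` is not bad. So for a bad
`S` there is `B'' ⊆ B'` such that `U` is in the bad set of `h B'' _ η`. The map `S ↦ (S ∩ B, S \ B)` is injective,
so the number of the bad `S` is at most
`∑ B' ∈ B.powerset, ∑ B'' ∈ B.powerset, #bad(B'') ≤ 2 ^ B.card * 2 ^ B.card * (η * X) = ε * X`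
(`card_le_card_of_injOn` into `B.powerset ×ˢ (B.powerset.biUnion bad)`, `card_biUnion_le`, `card_product`). -/
theorem SubL.glue {B : Finset ι} {c : ℝ} {P : Finset ι → Prop}
    (h : ∀ B' ⊆ B, SubL B c fun S => P (S ∪ B')) : SubL ∅ c P := by
  classical
  intro ε hε
  obtain ⟨η, hη⟩ : ∃ η : ℝ, η = ε / 4 ^ B.card := ⟨_, rfl⟩
  have hη0 : 0 < η := by
    rw [hη]
    positivity
  have hηε : η ≤ ε := by
    rw [hη]
    exact div_le_self hε.le (one_le_pow₀ (by norm_num))
  have hη4 : 4 ^ B.card * η = ε := by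
    rw [hη]
    field_simp
  choose X₀ hX₀ using fun (B' : Finset ι) (hB' : B' ⊆ B) => h B' hB' η hη0
  refine ⟨∑ B' ∈ B.powerset.attach, X₀ B'.1 (mem_powerset.1 B'.2), fun X hX => ?_⟩
  have hbad : ∀ (B'' : Finset ι), B'' ⊆ B → (((Sx ι X).filter fun S => Disjoint S B ∧
      ((S.powerset.filter fun S => P (S ∪ B'')).card : ℝ) < (c - η) * 2 ^ S.card).card : ℝ) ≤ η * X := by
    intro B'' hB''
    refine hX₀ B'' hB'' X (le_trans ?_ hX)
    exact Finset.single_le_sum (f := fun B' : B.powerset => X₀ B'.1 (mem_powerset.1 B'.2))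
      (fun _ _ => Nat.zero_le _) (mem_attach _ ⟨B'', mem_powerset.2 hB''⟩)
  obtain ⟨bad, hbad'⟩ : ∃ bad : Finset ι → Finset (Finset ι), bad = fun B'' => (Sx ι X).filter fun S => Disjoint S B ∧
      ((S.powerset.filter fun S => P (S ∪ B'')).card : ℝ) < (c - η) * 2 ^ S.card := ⟨_, rfl⟩
  have hb : ∀ B'' ⊆ B, ((bad B'').card : ℝ) ≤ η * X := by
    intro B'' hB''
    rw [hbad']
    exact hbad B'' hB''
  have h1 : (((Sx ι X).filter fun S => Disjoint S ∅ ∧
      ((S.powerset.filter P).card : ℝ) < (c - ε) * 2 ^ S.card).card) ≤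
      (B.powerset ×ˢ (B.powerset.biUnion bad)).card := by
    refine card_le_card_of_injOn (fun S => (S ∩ B, S \ B)) (fun S hS => ?_) fun S _ T _ hST => ?_
    · obtain ⟨hS1, -, hS2⟩ := mem_filter.1 (mem_coe.1 hS)
      refine mem_coe.2 (mem_product.2 ⟨mem_powerset.2 inter_subset_right, ?_⟩)
      by_contra hcon
      rw [mem_biUnion] at hcon
      push Not at hcon
      have h2 : ∀ B'' ∈ (S ∩ B).powerset, (c - η) * 2 ^ (S \ B).card ≤
          (((S \ B).powerset.filter fun V => P (V ∪ B'')).card : ℝ) := by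
        intro B'' hB''
        have h3 := hcon B'' (mem_powerset.2 ((mem_powerset.1 hB'').trans inter_subset_right))
        rw [hbad', mem_filter] at h3
        by_contra h4
        refine h3 ⟨?_, disjoint_sdiff_self_left, not_le.1 h4⟩
        rw [mem_Sx] at hS1 ⊢
        refine le_trans ?_ hS1
        have h5 : S = (S \ B) ∪ (S ∩ B) := (sdiff_union_inter S B).symm
        have h6 : nm S = nm (S \ B) * nm (S ∩ B) := by
          rw [← nm_union (disjoint_sdiff_inter S B), sdiff_union_inter]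
        rw [h6]
        exact Nat.le_mul_of_pos_right _ (one_le_nm _)
      have h7 : ∑ B'' ∈ (S ∩ B).powerset, ((S \ B).powerset.filter fun V => P (V ∪ B'')).card ≤
          (S.powerset.filter P).card := by
        rw [← card_sigma]
        refine card_le_card_of_injOn (fun p => p.2 ∪ p.1) (fun p hp => ?_) fun p hp q hq hpq => ?_
        · obtain ⟨hp1, hp2⟩ := mem_sigma.1 (mem_coe.1 hp)
          rw [mem_filter, mem_powerset] at hp2
          rw [mem_powerset] at hp1
          refine mem_coe.2 (mem_filter.2 ⟨mem_powerset.2 (union_subset (hp2.1.trans sdiff_subset)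
            (hp1.trans inter_subset_left)), hp2.2⟩)
        · obtain ⟨hp1, hp2⟩ := mem_sigma.1 (mem_coe.1 hp)
          obtain ⟨hq1, hq2⟩ := mem_sigma.1 (mem_coe.1 hq)
          rw [mem_filter, mem_powerset] at hp2 hq2
          rw [mem_powerset] at hp1 hq1
          have key : ∀ V W : Finset ι, V ⊆ S \ B → W ⊆ S ∩ B → (V ∪ W) ∩ B = W ∧ (V ∪ W) \ B = V := by
            intro V W hV hW
            constructor
            · ext x
              rw [mem_inter, mem_union]
              refine ⟨fun hx => ?_, fun hx => ⟨Or.inr hx, (mem_inter.1 (hW hx)).2⟩⟩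
              rcases hx.1 with h8 | h8
              · exact absurd hx.2 (mem_sdiff.1 (hV h8)).2
              · exact h8
            · ext x
              rw [mem_sdiff, mem_union]
              refine ⟨fun hx => ?_, fun hx => ⟨Or.inl hx, (mem_sdiff.1 (hV hx)).2⟩⟩
              rcases hx.1 with h8 | h8
              · exact h8
              · exact absurd (mem_inter.1 (hW h8)).2 hx.2
          have hp3 := key p.2 p.1 hp2.1 hp1
          have hq3 := key q.2 q.1 hq2.1 hq1
          have hpq' : p.2 ∪ p.1 = q.2 ∪ q.1 := hpq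
          have h9 : p.1 = q.1 := by rw [← hp3.1, ← hq3.1, hpq']
          have h10 : p.2 = q.2 := by rw [← hp3.2, ← hq3.2, hpq']
          exact Sigma.ext h9 (heq_of_eq h10)
      have h11 : (c - ε) * 2 ^ S.card ≤ ((S.powerset.filter P).card : ℝ) := by
        have h12 : (∑ B'' ∈ (S ∩ B).powerset,
            (((S \ B).powerset.filter fun V => P (V ∪ B'')).card : ℝ)) ≤ ((S.powerset.filter P).card : ℝ) := by
          exact_mod_cast h7
        refine le_trans ?_ h12
        refine le_trans ?_ (sum_le_sum h2)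
        rw [sum_const, card_powerset, nsmul_eq_mul, ← card_sdiff_add_card_inter S B, pow_add]
        push_cast
        have h13 : (0 : ℝ) ≤ 2 ^ (S \ B).card * 2 ^ (S ∩ B).card := by positivity
        nlinarith [mul_le_mul_of_nonneg_right (show c - ε ≤ c - η by linarith) h13]
      exact absurd hS2 (not_lt.2 h11)
    · have h14 := congrArg Prod.fst hST
      have h15 := congrArg Prod.snd hST
      have h16 : S ∩ B = T ∩ B := h14
      have h17 : S \ B = T \ B := h15
      rw [← sdiff_union_inter S B, ← sdiff_union_inter T B, h16, h17]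
  refine le_trans (Nat.cast_le.2 h1) ?_
  rw [card_product, card_powerset]
  have h18 : ((B.powerset.biUnion bad).card : ℝ) ≤ 2 ^ B.card * (η * X) := by
    refine le_trans (Nat.cast_le.2 card_biUnion_le) ?_
    rw [Nat.cast_sum]
    refine le_trans (sum_le_sum fun B'' hB'' => hb B'' (mem_powerset.1 hB'')) ?_
    rw [sum_const, card_powerset, nsmul_eq_mul]
    push_cast
    exact le_rfl
  push_cast
  calc (2 : ℝ) ^ B.card * ((B.powerset.biUnion bad).card : ℝ) ≤ 2 ^ B.card * (2 ^ B.card * (η * X)) :=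
        mul_le_mul_of_nonneg_left h18 (by positivity)
    _ = (4 ^ B.card * η) * X := by
        rw [show (4 : ℝ) = 2 * 2 by norm_num, mul_pow]
        ring
    _ = ε * X := by rw [hη4]

end

end Pool.Agent.Lib.MP_1a91b9_ntDV
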