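import Pool.Agent.Lib.MP_1a91b9_ntW.J.TrK
import Pool.Agent.Lib.MP_1a91b9_ntDV.T0

/-!
# MP_1a91b9_nt (the divisor law), block T: the rules for `DivG`
-/

set_option autoImplicit false
set_option linter.unusedSectionVars false

namespace Pool.Agent.Lib.MP_1a91b9_ntDV

open NumberField
open Pool.Agent.Lib.MP_1a91b9_ntW.J (norm_mapRingEquiv squarefree_equiv)

noncomputable section

/-- **T5a** (medium-). A change of the property on a finite set. Proof. Let `E` be the number of the elements of the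
finite set of the squarefree `d` with `P d` and `¬ Q d`. Given `M` and `ε`, use `h M' (ε / 2)` with `M' = M + 1 + ⌈2 * E / ε⌉₊`. Let
`D` be counted there, and let `n = Nat.card {d // d ∣ D} ≥ M'`. Then `n ≠ 0`, so the type of the divisors is
finite (`Nat.finite_of_card_ne_zero`). The divisors of `D` are squarefree, so
`{d ∣ D | P d} ⊆ {d ∣ D | Q d} ∪ E`, and `#{d ∣ D | Q d} ≥ #{d ∣ D | P d} - E ≥ (c - ε / 2) * n - E ≥ (c - ε) * n`,
because `E ≤ ε / 2 * n`. So every `D` counted in `h M' (ε / 2)` is counted in the claim; `1 - ε ≤ 1 - ε / 2`, and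
`Nat.card` of the first type is at most `Nat.card` of the second: this needs that the second type is finite:
`hfin` gives it. -/
theorem DivG.fin {R : Type} [CommRing R] [IsDomain R] {m u : R} {P Q : R → Prop} {c : ℝ}
    (hfin : ∀ X : ℝ, {D : R | Squarefree D ∧ |Algebra.norm ℤ D| ≤ X}.Finite) (h : DivG R m u P c)
    (hPQ : {d : R | Squarefree d ∧ P d ∧ ¬ Q d}.Finite) : DivG R m u Q c := by
  intro M ε hε
  obtain ⟨E, hE⟩ : ∃ E : ℕ, E = {d : R | Squarefree d ∧ P d ∧ ¬ Q d}.ncard := ⟨_, rfl⟩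
  obtain ⟨M', hM'⟩ : ∃ M' : ℕ, M' = M + 1 + ⌈2 * (E : ℝ) / ε⌉₊ := ⟨_, rfl⟩
  filter_upwards [h M' (ε / 2) (by positivity)] with X hX
  have hsub : {D : R | Squarefree D ∧ m ∣ D - u ∧ |Algebra.norm ℤ D| ≤ X ∧
      M' ≤ Nat.card {d : R // d ∣ D} ∧
      (c - ε / 2) * Nat.card {d : R // d ∣ D} ≤ Nat.card {d : R // d ∣ D ∧ P d}} ⊆
      {D : R | Squarefree D ∧ m ∣ D - u ∧ |Algebra.norm ℤ D| ≤ X ∧
      M ≤ Nat.card {d : R // d ∣ D} ∧
      (c - ε) * Nat.card {d : R // d ∣ D} ≤ Nat.card {d : R // d ∣ D ∧ Q d}} := by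
    rintro D ⟨h1, h2, h3, h4, h5⟩
    refine ⟨h1, h2, h3, by omega, ?_⟩
    have hn : Nat.card {d : R // d ∣ D} ≠ 0 := by omega
    have hfd : {d : R | d ∣ D}.Finite := Set.finite_coe_iff.1 (Nat.finite_of_card_ne_zero hn)
    have hA : Nat.card {d : R // d ∣ D ∧ P d} ≤ Nat.card {d : R // d ∣ D ∧ Q d} + E := by
      have h6 : {d : R | d ∣ D ∧ P d} ⊆
          {d : R | d ∣ D ∧ Q d} ∪ {d : R | Squarefree d ∧ P d ∧ ¬ Q d} := by
        rintro d ⟨hd, hp⟩
        by_cases hq : Q d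
        · exact Or.inl ⟨hd, hq⟩
        · exact Or.inr ⟨h1.squarefree_of_dvd hd, hp, hq⟩
      have h7 : ({d : R | d ∣ D ∧ Q d} ∪ {d : R | Squarefree d ∧ P d ∧ ¬ Q d}).Finite :=
        (hfd.subset fun d hd => hd.1).union hPQ
      have h8 := (Set.ncard_le_ncard h6 h7).trans (Set.ncard_union_le _ _)
      rw [← hE] at h8
      exact h8
    have hEn : (E : ℝ) ≤ ε / 2 * (Nat.card {d : R // d ∣ D} : ℝ) := by
      have h6 : 2 * (E : ℝ) / ε ≤ (Nat.card {d : R // d ∣ D} : ℝ) :=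
        (Nat.le_ceil _).trans (Nat.cast_le.2 (by omega))
      rw [div_le_iff₀ hε] at h6
      linarith
    have hA' : (Nat.card {d : R // d ∣ D ∧ P d} : ℝ) ≤ (Nat.card {d : R // d ∣ D ∧ Q d} : ℝ) + E := by
      exact_mod_cast hA
    have h9 : (c - ε) * (Nat.card {d : R // d ∣ D} : ℝ) =
        (c - ε / 2) * (Nat.card {d : R // d ∣ D} : ℝ) - ε / 2 * (Nat.card {d : R // d ∣ D} : ℝ) := by
      ring
    rw [h9]
    linarith
  have hcard : (Nat.card {D : R // Squarefree D ∧ m ∣ D - u ∧ |Algebra.norm ℤ D| ≤ X ∧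
      M' ≤ Nat.card {d : R // d ∣ D} ∧
      (c - ε / 2) * Nat.card {d : R // d ∣ D} ≤ Nat.card {d : R // d ∣ D ∧ P d}} : ℝ) ≤
      (Nat.card {D : R // Squarefree D ∧ m ∣ D - u ∧ |Algebra.norm ℤ D| ≤ X ∧
      M ≤ Nat.card {d : R // d ∣ D} ∧
      (c - ε) * Nat.card {d : R // d ∣ D} ≤ Nat.card {d : R // d ∣ D ∧ Q d}} : ℝ) :=
    Nat.cast_le.2 (Set.ncard_le_ncard hsub ((hfin X).subset fun D hD => ⟨hD.1, hD.2.2.1⟩))
  calc 1 - ε ≤ 1 - ε / 2 := by linarith
    _ ≤ _ := hX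
    _ ≤ _ := div_le_div_of_nonneg_right hcard (Nat.cast_nonneg _)

/-- **T5b** (easy). Monotonicity. Proof: `DivG.fin`, the exceptional set is empty. -/
theorem DivG.mono {R : Type} [CommRing R] [IsDomain R] {m u : R} {P Q : R → Prop} {c : ℝ}
    (hfin : ∀ X : ℝ, {D : R | Squarefree D ∧ |Algebra.norm ℤ D| ≤ X}.Finite) (h : DivG R m u P c)
    (hPQ : ∀ d : R, Squarefree d → P d → Q d) : DivG R m u Q c := by
  refine h.fin hfin ?_
  have h1 : {d : R | Squarefree d ∧ P d ∧ ¬ Q d} = ∅ := by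
    rw [Set.eq_empty_iff_forall_notMem]
    rintro d ⟨h1, h2, h3⟩
    exact h3 (hPQ d h1 h2)
  rw [h1]
  exact Set.finite_empty

/-- **T5c** (easy+). **Transport.** Proof as `PropGE.tr` (MP_1a91b9_ntW/J/TrK.lean): with
`f = RingOfIntegers.mapRingEquiv e`, `D ↦ f D` is an equivalence of the types counted, because
`d ∣ D ↔ f d ∣ f D` (`map_dvd_iff` or `map_dvd` for `f` and `f.symm`) gives
`Nat.card {d // d ∣ D} = Nat.card {d // d ∣ f D}` and the same with `P (f d)` (`Nat.card_congr` with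
`f.toEquiv.subtypeEquiv`). -/
theorem DivG.tr {K K' : Type} [Field K] [NumberField K] [Field K'] [NumberField K']
    (e : K' ≃+* K) {m u : 𝓞 K} {P : 𝓞 K → Prop} {c : ℝ}
    (h : DivG (𝓞 K') ((RingOfIntegers.mapRingEquiv e).symm m)
      ((RingOfIntegers.mapRingEquiv e).symm u)
      (fun d => P (RingOfIntegers.mapRingEquiv e d)) c) : DivG (𝓞 K) m u P c := by
  intro M ε hε
  filter_upwards [h M ε hε] with X hX
  have key : ∀ d : 𝓞 K', (Squarefree d ∧ (RingOfIntegers.mapRingEquiv e).symm m ∣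
      d - (RingOfIntegers.mapRingEquiv e).symm u ∧ |Algebra.norm ℤ d| ≤ X) ↔
      (Squarefree (RingOfIntegers.mapRingEquiv e d) ∧ m ∣ RingOfIntegers.mapRingEquiv e d - u ∧
        |Algebra.norm ℤ (RingOfIntegers.mapRingEquiv e d)| ≤ X) := by
    intro d
    rw [squarefree_equiv, norm_mapRingEquiv]
    refine and_congr_right fun _ => and_congr_left fun _ => ?_
    constructor
    · intro h
      have h1 := map_dvd (RingOfIntegers.mapRingEquiv e) h
      rwa [map_sub, RingEquiv.apply_symm_apply, RingEquiv.apply_symm_apply] at h1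
    · intro h
      have h1 := map_dvd (RingOfIntegers.mapRingEquiv e).symm h
      rwa [map_sub, RingEquiv.symm_apply_apply] at h1
  have hdvd : ∀ d D : 𝓞 K', d ∣ D ↔
      RingOfIntegers.mapRingEquiv e d ∣ RingOfIntegers.mapRingEquiv e D := by
    intro d D
    constructor
    · intro h
      exact map_dvd (RingOfIntegers.mapRingEquiv e) h
    · intro h
      have h1 := map_dvd (RingOfIntegers.mapRingEquiv e).symm h
      rwa [RingEquiv.symm_apply_apply, RingEquiv.symm_apply_apply] at h1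
  have hc1 : ∀ D : 𝓞 K', Nat.card {d : 𝓞 K' // d ∣ D} =
      Nat.card {d : 𝓞 K // d ∣ RingOfIntegers.mapRingEquiv e D} := fun D =>
    Nat.card_congr ((RingOfIntegers.mapRingEquiv e).toEquiv.subtypeEquiv fun d => hdvd d D)
  have hc2 : ∀ D : 𝓞 K', Nat.card {d : 𝓞 K' // d ∣ D ∧ P (RingOfIntegers.mapRingEquiv e d)} =
      Nat.card {d : 𝓞 K // d ∣ RingOfIntegers.mapRingEquiv e D ∧ P d} := fun D =>
    Nat.card_congr ((RingOfIntegers.mapRingEquiv e).toEquiv.subtypeEquiv fun d =>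
      and_congr (hdvd d D) Iff.rfl)
  have h1 : Nat.card {d : 𝓞 K' // Squarefree d ∧ (RingOfIntegers.mapRingEquiv e).symm m ∣
      d - (RingOfIntegers.mapRingEquiv e).symm u ∧ |Algebra.norm ℤ d| ≤ X} =
      Nat.card {d : 𝓞 K // Squarefree d ∧ m ∣ d - u ∧ |Algebra.norm ℤ d| ≤ X} :=
    Nat.card_congr ((RingOfIntegers.mapRingEquiv e).toEquiv.subtypeEquiv fun d => key d)
  have h2 : Nat.card {D : 𝓞 K' // Squarefree D ∧ (RingOfIntegers.mapRingEquiv e).symm m ∣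
      D - (RingOfIntegers.mapRingEquiv e).symm u ∧ |Algebra.norm ℤ D| ≤ X ∧
      M ≤ Nat.card {d : 𝓞 K' // d ∣ D} ∧
      (c - ε) * Nat.card {d : 𝓞 K' // d ∣ D} ≤
        Nat.card {d : 𝓞 K' // d ∣ D ∧ P (RingOfIntegers.mapRingEquiv e d)}} =
      Nat.card {D : 𝓞 K // Squarefree D ∧ m ∣ D - u ∧ |Algebra.norm ℤ D| ≤ X ∧
      M ≤ Nat.card {d : 𝓞 K // d ∣ D} ∧
      (c - ε) * Nat.card {d : 𝓞 K // d ∣ D} ≤ Nat.card {d : 𝓞 K // d ∣ D ∧ P d}} := by
    refine Nat.card_congr ((RingOfIntegers.mapRingEquiv e).toEquiv.subtypeEquiv fun D => ?_)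
    have h3 := key D
    rw [hc1 D, hc2 D]
    constructor
    · rintro ⟨a, b, c, p⟩
      obtain ⟨a', b', c'⟩ := h3.1 ⟨a, b, c⟩
      exact ⟨a', b', c', p⟩
    · rintro ⟨a, b, c, p⟩
      obtain ⟨a', b', c'⟩ := h3.2 ⟨a, b, c⟩
      exact ⟨a', b', c', p⟩
  rw [h1, h2] at hX
  exact hX

end

end Pool.Agent.Lib.MP_1a91b9_ntDV
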