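import Pool.Agent.Lib.MP_1a91b9_ntW.J.KStG
import Pool.Agent.Lib.MP_1a91b9_ntDV.T5

/-!
# MP_1a91b9_nt (the divisor law), block T: the statements over the extensions, transport
-/

set_option autoImplicit false

namespace Pool.Agent.Lib.MP_1a91b9_ntDV

open NumberField WeierstrassCurve
open Pool.Agent.Lib.MP_1a91b9_ntW.J (RkZ Cls2 ClsN twd)

noncomputable section

/-- The law for the divisors over the extensions generated by `l`-th roots, `H` is the condition on the
classes. -/
def DQG (K : Type) [Field K] [NumberField K] (l : ℕ)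
    (H : (F : Type) → [Field F] → 𝓞 K → 𝓞 K → Prop) (a b : K) (c : ℝ) : Prop :=
  ∀ (F : Type) [Field F] [NumberField F] [Algebra K F],
    IntermediateField.adjoin K {x : F | ∃ c : K, x ^ l = algebraMap K F c} = ⊤ →
    ∀ m u : 𝓞 K, H F m u →
    DivG (𝓞 K) m u (fun d => RkZ (⟨0, algebraMap K F (d * a), 0, algebraMap K F ((d : K) ^ 2 * b),
      0⟩ : WeierstrassCurve F)) (c ^ Module.finrank K F)

/-- **Transport of the result.** -/
theorem DQG.tr {K K' : Type} [Field K] [NumberField K] [Field K'] [NumberField K']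
    (e : K' ≃+* K) {l : ℕ} {H' : (F : Type) → [Field F] → 𝓞 K' → 𝓞 K' → Prop}
    {H : (F : Type) → [Field F] → 𝓞 K → 𝓞 K → Prop}
    (hH : ∀ (F : Type) [Field F] (m u : 𝓞 K), H F m u → H' F ((RingOfIntegers.mapRingEquiv e).symm m)
      ((RingOfIntegers.mapRingEquiv e).symm u))
    {a b : K'} {c : ℝ} (h : DQG K' l H' a b c) : DQG K l H (e a) (e b) c := by
  intro F _ _ _ hF m u hmu
  let _ : Algebra K' F := ((algebraMap K F).comp (e : K' →+* K)).toAlgebra
  have hal : ∀ y : K', algebraMap K' F y = algebraMap K F (e y) := fun _ => rfl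
  have hF' : IntermediateField.adjoin K' {x : F | ∃ c : K', x ^ l = algebraMap K' F c} = ⊤ := by
    have hset : {x : F | ∃ c : K', x ^ l = algebraMap K' F c} =
        {x : F | ∃ c : K, x ^ l = algebraMap K F c} := by
      ext x
      constructor
      · rintro ⟨c, hc⟩
        exact ⟨e c, hc⟩
      · rintro ⟨c, hc⟩
        refine ⟨e.symm c, ?_⟩
        rw [hal, e.apply_symm_apply, hc]
    rw [eq_top_iff]
    intro x _
    have hx : x ∈ IntermediateField.adjoin K {x : F | ∃ c : K, x ^ l = algebraMap K F c} := by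
      rw [hF]
      exact IntermediateField.mem_top
    rw [hset]
    rw [← IntermediateField.mem_toSubfield, IntermediateField.adjoin_toSubfield] at hx ⊢
    have hr : Set.range (algebraMap K' F) = Set.range (algebraMap K F) := by
      ext y
      constructor
      · rintro ⟨z, rfl⟩
        exact ⟨e z, rfl⟩
      · rintro ⟨z, rfl⟩
        exact ⟨e.symm z, by rw [hal, e.apply_symm_apply]⟩
    rw [hr]
    exact hx
  have hfin : Module.finrank K' F = Module.finrank K F := by
    have h1 : Module.finrank ℚ K' * Module.finrank K' F = Module.finrank ℚ F :=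
      Module.finrank_mul_finrank ℚ K' F
    have h2 : Module.finrank ℚ K * Module.finrank K F = Module.finrank ℚ F :=
      Module.finrank_mul_finrank ℚ K F
    have h3 : Module.finrank ℚ K' = Module.finrank ℚ K :=
      (RingEquiv.toRatAlgEquiv e).toLinearEquiv.finrank_eq
    rw [← h2, ← h3] at h1
    exact Nat.eq_of_mul_eq_mul_left Module.finrank_pos h1
  have h1 := h F hF' ((RingOfIntegers.mapRingEquiv e).symm m)
    ((RingOfIntegers.mapRingEquiv e).symm u) (hH F m u hmu)
  rw [hfin] at h1
  refine DivG.tr e ?_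
  have e1 : ∀ d : 𝓞 K', (⟨0, algebraMap K' F (d * a), 0, algebraMap K' F ((d : K') ^ 2 * b), 0⟩ :
      WeierstrassCurve F) = ⟨0, algebraMap K F ((RingOfIntegers.mapRingEquiv e d : 𝓞 K) * e a), 0,
        algebraMap K F (((RingOfIntegers.mapRingEquiv e d : 𝓞 K) : K) ^ 2 * e b), 0⟩ := by
    intro d
    rw [hal, hal, map_mul e, map_mul e, map_pow e, RingOfIntegers.mapRingEquiv_apply]
  have e2 : (fun d : 𝓞 K' => RkZ (⟨0, algebraMap K F ((RingOfIntegers.mapRingEquiv e d : 𝓞 K) * e a),
      0, algebraMap K F (((RingOfIntegers.mapRingEquiv e d : 𝓞 K) : K) ^ 2 * e b), 0⟩ :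
        WeierstrassCurve F)) = fun d : 𝓞 K' => RkZ (⟨0, algebraMap K' F (d * a), 0,
          algebraMap K' F ((d : K') ^ 2 * b), 0⟩ : WeierstrassCurve F) := by
    funext d
    rw [e1]
  have e3 := h1
  rw [← e2] at e3
  exact e3

/-- square roots are fourth roots -/
theorem DQG.two_of_four {K : Type} [Field K] [NumberField K]
    {H : (F : Type) → [Field F] → 𝓞 K → 𝓞 K → Prop} {a b : K} {c : ℝ} (h : DQG K 4 H a b c) :
    DQG K 2 H a b c := by
  intro F _ _ _ hF m u hmu
  refine h F ?_ m u hmu
  rw [eq_top_iff, ← hF]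
  refine IntermediateField.adjoin.mono K _ _ ?_
  rintro x ⟨a, ha⟩
  refine ⟨a ^ 2, ?_⟩
  rw [map_pow, ← ha]
  ring

/-- The law for the twists of `W` over a fixed extension. -/
def DQF {K : Type} [Field K] [NumberField K] (F : Type) [Field F] [NumberField F] [Algebra K F]
    (m u : 𝓞 K) (c : ℝ) (W : WeierstrassCurve K) : Prop :=
  DivG (𝓞 K) m u (fun d => RkZ ((twd W (d : K)).map (algebraMap K F))) c

end

end Pool.Agent.Lib.MP_1a91b9_ntDV
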