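import Pool.Agent.Lib.MP_1a91b9_ntB.S.KStB
import Pool.Agent.Lib.MP_1a91b9_ntDV.T12

/-!
# MP_1a91b9_nt (the divisor law), block T: from the standard models to all the curves
-/

set_option autoImplicit false

namespace Pool.Agent.Lib.MP_1a91b9_ntDV

open NumberField WeierstrassCurve
open Pool.Agent.Lib.MP_1a91b9_ntW.J (RkZ Cls2 ClsN twd twd_vc twd_crv twd_hasJ hasJ_map Inv2
  cR cS cI cJ to_int iso_K4 crv_disc hasJ_crv_iff RkZ.vc)
open Pool.Agent.Lib.MP_1a91b9_nuI (HasJ)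
open Pool.Agent.Lib.MP_1a91b9_ntL (crv)
open Pool.Agent.Lib.MP_1a91b9_ntI (excl1 excl2 excl3 excl4 excl5 excl6 th7 nsf_i nsf_s sf_t np_t
  prime_w emp_t K3 iso_w3)
open Pool.Agent.Lib.MP_1a91b9_ntQ (K4)
open Pool.Agent.Lib.MP_1a91b9_ntY (CMK Pt2)
open Pool.Agent.Lib.MP_1a91b9_ntW (K8 lam8 lam8_sq)
open Pool.Agent.Lib.MP_1a91b9_ntV (K7 t7)
open Pool.Agent.Lib.MP_1a91b9_ntB (exists_iso3 crv21)

noncomputable section

section
variable {K : Type} [Field K] [NumberField K]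

/-- for `y² = x³ + a x² + b x` -/
theorem dqf_crv {F : Type} [Field F] [NumberField F] [Algebra K F] {m u : 𝓞 K} {c : ℝ} {a b : K} :
    DQF F m u c (crv a b) ↔ DivG (𝓞 K) m u (fun d => RkZ (⟨0, algebraMap K F (d * a), 0,
      algebraMap K F ((d : K) ^ 2 * b), 0⟩ : WeierstrassCurve F)) c := by
  have e : (fun d : 𝓞 K => RkZ ((twd (crv a b) (d : K)).map (algebraMap K F))) =
      fun d : 𝓞 K => RkZ (⟨0, algebraMap K F (d * a), 0, algebraMap K F ((d : K) ^ 2 * b), 0⟩ :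
        WeierstrassCurve F) := by
    funext d
    rw [twd_crv]
    congr 1
    exact WeierstrassCurve.ext (map_zero _) rfl (map_zero _) rfl (map_zero _)
  unfold DQF
  rw [e]

theorem inv2_dqf (F : Type) [Field F] [NumberField F] [Algebra K F] (m u : 𝓞 K) (c : ℝ) :
    Inv2 (DQF F m u c : WeierstrassCurve K → Prop) where
  vc := by
    intro W j hj C h1
    have e : (fun d : 𝓞 K => RkZ ((twd (C • W) (d : K)).map (algebraMap K F))) =
        fun d : 𝓞 K => RkZ ((twd W (d : K)).map (algebraMap K F)) := by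
      funext d
      rw [← twd_vc W C, ← WeierstrassCurve.map_variableChange]
      exact propext (RkZ.vc (hasJ_map _ (twd_hasJ hj _)) _)
    unfold DQF at h1 ⊢
    rw [e] at h1
    exact h1
  isg := by
    intro a b j j' hb hb' hj hj' h1
    rw [dqf_crv] at h1 ⊢
    have e : (fun d : 𝓞 K => RkZ (⟨0, algebraMap K F (d * (-2 * a)), 0,
        algebraMap K F ((d : K) ^ 2 * (a ^ 2 - 4 * b)), 0⟩ : WeierstrassCurve F)) =
        fun d : 𝓞 K => RkZ (⟨0, algebraMap K F (d * a), 0, algebraMap K F ((d : K) ^ 2 * b), 0⟩ :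
          WeierstrassCurve F) := by
      funext d
      by_cases hd : (d : K) = 0
      · rw [hd]
        simp only [zero_mul, ne_eq, OfNat.ofNat_ne_zero, not_false_eq_true, zero_pow]
      have e1 : ∀ x y : K, (⟨0, algebraMap K F (d * x), 0, algebraMap K F ((d : K) ^ 2 * y), 0⟩ :
          WeierstrassCurve F) = Pool.Agent.Lib.MP_1a91b9_nuI.E2 (algebraMap K F (d * x))
            (algebraMap K F ((d : K) ^ 2 * y)) := fun _ _ => rfl
      have e2 : ∀ x y : K, Pool.Agent.Lib.MP_1a91b9_nuI.E2 (algebraMap K F (d * x))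
          (algebraMap K F ((d : K) ^ 2 * y)) = (twd (crv x y) (d : K)).map (algebraMap K F) := by
        intro x y
        rw [twd_crv]
        exact WeierstrassCurve.ext (map_zero _).symm rfl (map_zero _).symm rfl (map_zero _).symm
      have e3 : Pool.Agent.Lib.MP_1a91b9_nuI.E2 (algebraMap K F (d * (-2 * a)))
          (algebraMap K F ((d : K) ^ 2 * (a ^ 2 - 4 * b))) =
          Pool.Agent.Lib.MP_1a91b9_nuI.E2 (-2 * algebraMap K F (d * a))
            (algebraMap K F (d * a) ^ 2 - 4 * algebraMap K F ((d : K) ^ 2 * b)) := by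
        congr 1
        · simp only [map_mul, map_neg, map_ofNat]
          ring
        · simp only [map_mul, map_sub, map_pow, map_ofNat]
          ring
      have k1 : HasJ (Pool.Agent.Lib.MP_1a91b9_nuI.E2 (algebraMap K F (d * a))
          (algebraMap K F ((d : K) ^ 2 * b))) j := by
        rw [e2]
        exact hasJ_map _ (twd_hasJ hj _)
      have k2 : HasJ (Pool.Agent.Lib.MP_1a91b9_nuI.E2 (-2 * algebraMap K F (d * a))
          (algebraMap K F (d * a) ^ 2 - 4 * algebraMap K F ((d : K) ^ 2 * b))) j' := by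
        rw [← e3, e2]
        exact hasJ_map _ (twd_hasJ hj' _)
      have k3 : algebraMap K F ((d : K) ^ 2 * b) ≠ 0 :=
        (map_ne_zero _).2 (mul_ne_zero (pow_ne_zero 2 hd) hb)
      have k4 : algebraMap K F (d * a) ^ 2 - 4 * algebraMap K F ((d : K) ^ 2 * b) ≠ 0 := by
        have h5 : algebraMap K F (d * a) ^ 2 - 4 * algebraMap K F ((d : K) ^ 2 * b) =
            algebraMap K F ((d : K) ^ 2 * (a ^ 2 - 4 * b)) := by
          simp only [map_mul, map_sub, map_pow, map_ofNat]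
          ring
        rw [h5]
        exact (map_ne_zero _).2 (mul_ne_zero (pow_ne_zero 2 hd) hb')
      rw [e1, e1, e3]
      exact propext (Pool.Agent.Lib.MP_1a91b9_ntY.RkZ.two k3 k4 k1 k2)
    rw [e]
    exact h1

end

/-! ### From the standard models -/

/-- over a field generated by a square root of `-1` -/
theorem d4_of (h : ∀ {b : K4}, b ≠ 0 → DQG K4 4 (fun _ => Cls2 K4) 0 b cR) {K : Type} [Field K]
    [NumberField K] (hK : Module.finrank ℚ K = 2) {i : K} (hi : i ^ 2 = -1) {b : K} (hb : b ≠ 0) :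
    DQG K 4 (fun _ => Cls2 K) 0 b cR := by
  obtain ⟨e⟩ := iso_K4 hK hi
  have h1 : DQG K4 4 (fun _ => Cls2 K4) 0 (e.symm b) cR := by
    refine h ?_
    rw [Ne, map_eq_zero_iff _ e.symm.injective]
    exact hb
  have h2 := DQG.tr e (H := fun _ => Cls2 K) (fun _ _ => Cls2.tr e) h1
  rw [map_zero, e.apply_symm_apply] at h2
  exact h2

/-- over a field generated by a square root of `-3`, for the extensions without square root of `-1` -/
theorem d3N_of (h : ∀ {e : K3}, e ≠ 0 → DQG K3 2 (fun F _ => ClsN K3 F) (-3 * e) (3 * e ^ 2) cI)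
    {K : Type} [Field K] [NumberField K] (hK : Module.finrank ℚ K = 2) {s : K} (hs : s ^ 2 = -3)
    {e : K} (he : e ≠ 0) : DQG K 2 (fun F _ => ClsN K F) (-3 * e) (3 * e ^ 2) cI := by
  obtain ⟨f⟩ := exists_iso3 hK hs
  have h1 : DQG K3 2 (fun F _ => ClsN K3 F) (-3 * f.symm e) (3 * (f.symm e) ^ 2) cI := by
    refine h ?_
    rw [Ne, map_eq_zero_iff _ f.symm.injective]
    exact he
  have h2 := DQG.tr f (H := fun F _ => ClsN K F) (ClsN.tr f) h1
  rwa [map_mul, map_mul, map_neg, map_pow, map_ofNat, f.apply_symm_apply] at h2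

/-- over a field generated by a square root of `-3` -/
theorem d3J_of (h : ∀ {e : K3}, e ≠ 0 → DQG K3 2 (fun _ => Cls2 K3) (-3 * e) (3 * e ^ 2) cJ)
    {K : Type} [Field K] [NumberField K] (hK : Module.finrank ℚ K = 2) {s : K} (hs : s ^ 2 = -3)
    {e : K} (he : e ≠ 0) : DQG K 2 (fun _ => Cls2 K) (-3 * e) (3 * e ^ 2) cJ := by
  obtain ⟨f⟩ := exists_iso3 hK hs
  have h1 : DQG K3 2 (fun _ => Cls2 K3) (-3 * f.symm e) (3 * (f.symm e) ^ 2) cJ := by
    refine h ?_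
    rw [Ne, map_eq_zero_iff _ f.symm.injective]
    exact he
  have h2 := DQG.tr f (H := fun _ => Cls2 K) (fun _ _ => Cls2.tr f) h1
  rwa [map_mul, map_mul, map_neg, map_pow, map_ofNat, f.apply_symm_apply] at h2

/-- over a field generated by a square root of `-2` -/
theorem d8_of (h : ∀ {e : K8}, e ≠ 0 → DQG K8 2 (fun _ => Cls2 K8) (4 * e) (2 * e ^ 2) cR)
    {K : Type} [Field K] [NumberField K] (hK : Module.finrank ℚ K = 2) {s : K} (hs : s ^ 2 = -2)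
    {e : K} (he : e ≠ 0) : DQG K 2 (fun _ => Cls2 K) (4 * e) (2 * e ^ 2) cR := by
  have hl : (lam8 : K8) ^ 2 = -2 := by
    have h1 := congrArg (fun x : 𝓞 K8 => (x : K8)) lam8_sq
    push_cast at h1
    exact h1
  obtain ⟨f⟩ := Pool.Agent.Lib.MP_1a91b9_ntI.exists_iso_pq
    Pool.Agent.Lib.MP_1a91b9_ntW.T.finrank_K8 hK (t := 0) (n := 2) (by norm_num) (s := (lam8 : K8))
    (by rw [hl]; push_cast; ring) (s' := s) (by rw [hs]; push_cast; ring)
  have h1 : DQG K8 2 (fun _ => Cls2 K8) (4 * f.symm e) (2 * (f.symm e) ^ 2) cR := by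
    refine h ?_
    rw [Ne, map_eq_zero_iff _ f.symm.injective]
    exact he
  have h2 := DQG.tr f (H := fun _ => Cls2 K) (fun _ _ => Cls2.tr f) h1
  rwa [map_mul, map_mul, map_pow, map_ofNat, map_ofNat, f.apply_symm_apply] at h2

/-- over a field generated by a root of `θ² = θ - 2` -/
theorem d7_of (h : ∀ {d₀ : K7}, d₀ ≠ 0 → DQG K7 2 (fun _ => Cls2 K7)
      (d₀ * (1 + (1 - (t7 : K7)) ^ 4)) (d₀ ^ 2 * (1 - (t7 : K7)) ^ 4) cS)
    {K : Type} [Field K] [NumberField K] (hK : Module.finrank ℚ K = 2) {θ : K}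
    (hθ : θ ^ 2 = θ - 2) {d₀ : K} (hd₀ : d₀ ≠ 0) :
    DQG K 2 (fun _ => Cls2 K) (d₀ * (1 + (1 - θ) ^ 4)) (d₀ ^ 2 * (1 - θ) ^ 4) cS := by
  obtain ⟨e, he⟩ := Pool.Agent.Lib.MP_1a91b9_ntI.iso_th
    (K := K7) (@Pool.Agent.Lib.MP_1a91b9_nuT.finrank_K Pool.Agent.Lib.MP_1a91b9_ntV.cd7) hK
    Pool.Agent.Lib.MP_1a91b9_ntV.J.t7_sq' hθ
  have h0 : e.symm d₀ ≠ 0 := by
    rw [Ne, map_eq_zero_iff _ e.symm.injective]
    exact hd₀
  have h2 := DQG.tr e (H := fun _ => Cls2 K) (fun _ _ => Cls2.tr e) (h h0)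
  have e1 : e (e.symm d₀ * (1 + (1 - (t7 : K7)) ^ 4)) = d₀ * (1 + (1 - θ) ^ 4) := by
    rw [map_mul, e.apply_symm_apply, map_add, map_one, map_pow, map_sub, map_one, he]
  have e2 : e (e.symm d₀ ^ 2 * (1 - (t7 : K7)) ^ 4) = d₀ ^ 2 * (1 - θ) ^ 4 := by
    rw [map_mul, map_pow, e.apply_symm_apply, map_pow, map_sub, map_one, he]
  rwa [e1, e2] at h2

section
variable {K : Type} [Field K] [NumberField K]

/-- **The assembly**, from the results for the four families. -/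
theorem dstar_of
    (H4 : ∀ {K : Type} [Field K] [NumberField K], Module.finrank ℚ K = 2 → ∀ {i : K}, i ^ 2 = -1 →
      ∀ {b : K}, b ≠ 0 → DQG K 4 (fun _ => Cls2 K) 0 b cR)
    (H8 : ∀ {K : Type} [Field K] [NumberField K], Module.finrank ℚ K = 2 → ∀ {s : K}, s ^ 2 = -2 →
      ∀ {e : K}, e ≠ 0 → DQG K 2 (fun _ => Cls2 K) (4 * e) (2 * e ^ 2) cR)
    (H7 : ∀ {K : Type} [Field K] [NumberField K], Module.finrank ℚ K = 2 → ∀ {θ : K},
      θ ^ 2 = θ - 2 → ∀ {d₀ : K}, d₀ ≠ 0 →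
        DQG K 2 (fun _ => Cls2 K) (d₀ * (1 + (1 - θ) ^ 4)) (d₀ ^ 2 * (1 - θ) ^ 4) cS)
    (H3 : ∀ {K : Type} [Field K] [NumberField K], Module.finrank ℚ K = 2 → ∀ {s : K}, s ^ 2 = -3 →
      ∀ {e : K}, e ≠ 0 → DQG K 2 (fun F _ => ClsN K F) (-3 * e) (3 * e ^ 2) cI)
    (H3' : ∀ {K : Type} [Field K] [NumberField K], Module.finrank ℚ K = 2 → ∀ {s : K}, s ^ 2 = -3 →
      ∀ {e : K}, e ≠ 0 → DQG K 2 (fun _ => Cls2 K) (-3 * e) (3 * e ^ 2) cJ)
    (hK : Module.finrank ℚ K = 2) {l : ℕ} (hl : l = 2 ∨ l = 4 ∧ ∃ i : K, i ^ 2 = -1)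
    (F : Type) [Field F] [NumberField F] [Algebra K F]
    (hF : IntermediateField.adjoin K {x : F | ∃ c : K, x ^ l = algebraMap K F c} = ⊤) {c : ℝ}
    (hI : Prime (2 : 𝓞 K) → (¬ ∃ x : F, x ^ 2 = -1) → c = cI)
    (hJ : Prime (2 : 𝓞 K) → (∃ x : F, x ^ 2 = -1) → c = cJ)
    (hS : ¬ Prime (2 : 𝓞 K) → Squarefree (2 : 𝓞 K) → c = cS)
    (hR : ¬ Squarefree (2 : 𝓞 K) → c = cR) {W : WeierstrassCurve K} (hW : CMK W) (hP : Pt2 W)
    {m u : 𝓞 K} (hmu : Cls2 K m u) :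
    DQF F m u (c ^ Module.finrank K F) W := by
  refine (inv2_dqf F m u (c ^ Module.finrank K F)).star hK ?_ ?_ ?_ ?_ hW hP
  · rintro ⟨i, hi⟩ b hb
    obtain ⟨i', -, hi'⟩ := to_int (x := i) (t := 0) (n := 1) (by rw [hi]; push_cast; ring)
    have hi2 : i' ^ 2 = -1 := by rw [hi']; push_cast; ring
    rw [hR (nsf_i hK hi2)]
    rcases hl with rfl | ⟨rfl, -⟩
    · exact dqf_crv.2 ((H4 hK hi hb).two_of_four F hF m u hmu)
    · exact dqf_crv.2 (H4 hK hi hb F hF m u hmu)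
  · rintro ⟨s, hs⟩ e he
    obtain ⟨s', -, hs'⟩ := to_int (x := s) (t := 0) (n := 2) (by rw [hs]; push_cast; ring)
    have hs2 : s' ^ 2 = -2 := by rw [hs']; push_cast; ring
    rw [hR (nsf_s hK hs2)]
    rcases hl with rfl | ⟨-, i, hi⟩
    · exact dqf_crv.2 (H8 hK hs he F hF m u hmu)
    · exact (excl1 hK hs hi).elim
  · rintro ⟨s, hs⟩ e he
    obtain ⟨w, hw⟩ : ∃ w : K, w = (1 + s) / 2 := ⟨_, rfl⟩
    have hsw : s = 2 * w - 1 := by
      rw [hw, mul_div_cancel₀ _ (two_ne_zero' K)]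
      ring
    have hw2 : w ^ 2 = w - 1 := by
      have h4 : (4 : K) ≠ 0 := by norm_num
      have hs2 := hs
      rw [hsw] at hs2
      refine mul_left_cancel₀ h4 ?_
      linear_combination hs2
    obtain ⟨θ', -, hθ'⟩ := to_int (x := w) (t := 1) (n := 1) (by rw [hw2]; push_cast; ring)
    have hθ2 : θ' ^ 2 = θ' - 1 := by rw [hθ']; push_cast; ring
    rcases hl with rfl | ⟨-, i, hi⟩
    · by_cases hi : ∃ x : F, x ^ 2 = -1
      · rw [hJ (prime_w hK hθ2) hi]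
        exact dqf_crv.2 (H3' hK hs he F hF m u hmu)
      · rw [hI (prime_w hK hθ2) hi]
        exact dqf_crv.2 (H3 hK hs he F hF m u ⟨hmu, hi⟩)
    · exact (excl6 hK hi hs).elim
  · rintro ⟨s, hs⟩ e he
    have hs0 : s ≠ 0 := by
      rintro rfl
      norm_num at hs
    obtain ⟨θ, hθd⟩ : ∃ θ : K, θ = (1 + s) / 2 := ⟨_, rfl⟩
    have hsθ : s = 2 * θ - 1 := by
      rw [hθd, mul_div_cancel₀ _ (two_ne_zero' K)]
      ring
    have hθ : θ ^ 2 = θ - 2 := by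
      have hs2 := hs
      rw [hsθ] at hs2
      refine mul_left_cancel₀ (show (4 : K) ≠ 0 by norm_num) ?_
      linear_combination hs2
    obtain ⟨θ', -, hθ'⟩ := to_int (x := θ) (t := 1) (n := 2) (by rw [hθ]; push_cast; ring)
    have hθ2 : θ' ^ 2 = θ' - 2 := by rw [hθ']; push_cast; ring
    rw [hS (np_t hK hθ2) (sf_t hK (emp_t hθ2) hθ2)]
    rcases hl with rfl | ⟨-, i, hi⟩
    · have h2 := dqf_crv.2 (H7 hK hθ (d₀ := s * e) (mul_ne_zero hs0 he) F hF m u hmu)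
      refine (inv2_dqf F m u _).of_vc h2 (Pool.Agent.Lib.MP_1a91b9_ntV.J.hasJ_crv7 hθ _)
        (C := ⟨1, (θ - 11) * e, 0, 0⟩) ?_
      exact crv21 hθ hsθ e
    · exact (excl3 hK (th7 hθ) hi).elim

open Classical in
/-- **The law for the divisors, the rank part**, from the results over the standard models. -/
theorem dstar_std
    (H4 : ∀ {b : K4}, b ≠ 0 → DQG K4 4 (fun _ => Cls2 K4) 0 b cR)
    (H8 : ∀ {e : K8}, e ≠ 0 → DQG K8 2 (fun _ => Cls2 K8) (4 * e) (2 * e ^ 2) cR)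
    (H7 : ∀ {d₀ : K7}, d₀ ≠ 0 → DQG K7 2 (fun _ => Cls2 K7)
      (d₀ * (1 + (1 - (t7 : K7)) ^ 4)) (d₀ ^ 2 * (1 - (t7 : K7)) ^ 4) cS)
    (H3 : ∀ {e : K3}, e ≠ 0 → DQG K3 2 (fun F _ => ClsN K3 F) (-3 * e) (3 * e ^ 2) cI)
    (H3' : ∀ {e : K3}, e ≠ 0 → DQG K3 2 (fun _ => Cls2 K3) (-3 * e) (3 * e ^ 2) cJ)
    (hK : Module.finrank ℚ K = 2) (a b : K) (hE : b * (a ^ 2 - 4 * b) ≠ 0) (j D : ℤ)
    (hjD : (j, D) ∈ Pool.Agent.Lib.MP_1a91b9_ntY.cmList)
    (hj : 256 * (a ^ 2 - 3 * b) ^ 3 = j * (b ^ 2 * (a ^ 2 - 4 * b))) (hD : ∃ s : K, s ^ 2 = D)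
    (l : ℕ) (hl : l = 2 ∨ l = 4 ∧ ∃ i : K, i ^ 2 = -1)
    (F : Type) [Field F] [NumberField F] [Algebra K F]
    (hF : IntermediateField.adjoin K {x : F | ∃ c : K, x ^ l = algebraMap K F c} = ⊤)
    (n : ℕ) (m u : 𝓞 K) (hm : m ∣ 2 ^ n) (hu : ∀ p, Prime p → ¬ (p ^ 2 ∣ m ∧ p ^ 2 ∣ u))
    (c : ℝ)
    (hc : c = if Prime (2 : 𝓞 K) then (if ∃ x : F, x ^ 2 = -1 then
        √((∏' i : ℕ, (1 + 1 / (2 : ℝ) ^ (2 * i + 1))⁻¹) / 2) else
        ∏' i : ℕ, (1 + 1 / (2 : ℝ) ^ (2 * i + 1))⁻¹) else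
      if Squarefree (2 : 𝓞 K) then ∏' i : ℕ, (1 - 1 / (2 : ℝ) ^ (i + 1)) else
      ∏' i : ℕ, (1 + 1 / (2 : ℝ) ^ (i + 1))⁻¹) :
    DivG (𝓞 K) m u (fun d => RkZ (⟨0, algebraMap K F (d * a), 0,
      algebraMap K F ((d : K) ^ 2 * b), 0⟩ : WeierstrassCurve F)) (c ^ Module.finrank K F) := by
  have hdisc : (crv a b).Δ ≠ 0 := by
    rw [crv_disc]
    have e : b ^ 2 * (a ^ 2 - 4 * b) = b * (b * (a ^ 2 - 4 * b)) := by ring
    rw [e]
    exact mul_ne_zero (by norm_num) (mul_ne_zero (left_ne_zero_of_mul hE) hE)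
  obtain ⟨s, hs⟩ := hD
  have hW : CMK (crv a b) := ⟨hdisc, j, D, s, hjD, hs, hasJ_crv_iff.2 hj⟩
  have hP : Pt2 (crv a b) := by
    refine ⟨0, ?_⟩
    unfold crv WeierstrassCurve.b₂ WeierstrassCurve.b₄ WeierstrassCurve.b₆
    ring
  have hps : Prime (2 : 𝓞 K) → Squarefree (2 : 𝓞 K) := fun h => h.irreducible.squarefree
  refine dqf_crv.1 (dstar_of (fun hK _ hi _ hb => d4_of H4 hK hi hb)
    (fun hK _ hs _ he => d8_of H8 hK hs he) (fun hK _ hs _ he => d7_of H7 hK hs he)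
    (fun hK _ hs _ he => d3N_of H3 hK hs he) (fun hK _ hs _ he => d3J_of H3' hK hs he)
    hK hl F hF (fun h h' => ?_) (fun h h' => ?_) (fun h h' => ?_)
      (fun h => ?_) hW hP ⟨⟨n, hm⟩, hu⟩)
  · rw [hc, if_pos h, if_neg h']
    rfl
  · rw [hc, if_pos h, if_pos h']
    rfl
  · rw [hc, if_neg h, if_pos h']
    rfl
  · rw [hc, if_neg (mt hps h), if_neg h]
    rfl

end

end

end Pool.Agent.Lib.MP_1a91b9_ntDV
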