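import Pool.Agent.Lib.MP_1a91b9_ntC.StabT
import Pool.Agent.Lib.MP_1a91b9_ntDV.T13

/-!
# MP_1a91b9_nt (the divisor law), block T: all the properties of the twists
-/

set_option autoImplicit false

namespace Pool.Agent.Lib.MP_1a91b9_ntDV

open NumberField WeierstrassCurve
open Pool.Agent.Lib.MP_1a91b9_nuI (HasJ)
open Pool.Agent.Lib.MP_1a91b9_ntL (crv)
open Pool.Agent.Lib.MP_1a91b9_ntJ (TowP)
open Pool.Agent.Lib.MP_1a91b9_ntW.J (RkZ)
open Pool.Agent.Lib.MP_1a91b9_ntC (StbTw no_new fin_ex stbN_step star2 ql_all pid_of)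

noncomputable section

/-- The properties of the twist of `y² = x³ + a x² + b x` by `√d` over `F`. -/
def TwP {K : Type} [Field K] [NumberField K] (a b : K) (F : Type) [Field F] [NumberField F]
    [Algebra K F] (d : K) : Prop :=
  StbTw a b F d ∧
    TowP K (⟨0, algebraMap K F (d * a), 0, algebraMap K F (d ^ 2 * b), 0⟩ : WeierstrassCurve F)

open Classical in
/-- **The law for the divisors**, from the law for the rank zero twists. -/
theorem dstab (K : Type) [Field K] [NumberField K] (hK : Module.finrank ℚ K = 2)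
    (a b : K) (hE : b * (a ^ 2 - 4 * b) ≠ 0) (j D : ℤ)
    (hjD : (j, D) ∈ Pool.Agent.Lib.MP_1a91b9_ntY.cmList)
    (hj : 256 * (a ^ 2 - 3 * b) ^ 3 = j * (b ^ 2 * (a ^ 2 - 4 * b))) (hD : ∃ s : K, s ^ 2 = D)
    (l : ℕ) (hl : l = 2 ∨ l = 4 ∧ ∃ i : K, i ^ 2 = -1)
    (F : Type) [Field F] [NumberField F] [Algebra K F]
    (hF : IntermediateField.adjoin K {x : F | ∃ c : K, x ^ l = algebraMap K F c} = ⊤)
    (δ : 𝓞 K) (hδ : δ ≠ 0) (m u : 𝓞 K) (c : ℝ)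
    (h : DivG (𝓞 K) m u (fun d => RkZ (⟨0, algebraMap K F ((δ : K) * (d : K) * a), 0,
      algebraMap K F (((δ : K) * (d : K)) ^ 2 * b), 0⟩ : WeierstrassCurve F)) c) :
    DivG (𝓞 K) m u (fun d => TwP a b F ((δ : K) * (d : K))) c := by
  have hneg : D < 0 := by
    unfold Pool.Agent.Lib.MP_1a91b9_ntY.cmList at hjD
    simp only [List.mem_cons, Prod.mk.injEq, List.not_mem_nil, or_false] at hjD
    rcases hjD with ⟨-, rfl⟩ | ⟨-, rfl⟩ | ⟨-, rfl⟩ | ⟨-, rfl⟩ | ⟨-, rfl⟩ | ⟨-, rfl⟩ | ⟨-, rfl⟩ |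
      ⟨-, rfl⟩ | ⟨-, rfl⟩ | ⟨-, rfl⟩ | ⟨-, rfl⟩ | ⟨-, rfl⟩ | ⟨-, rfl⟩ <;> norm_num
  obtain ⟨s, hs⟩ := hD
  have hfu : Finite (𝓞 K)ˣ := Pool.Agent.Lib.MP_1a91b9_ntW.J.finite_units hK
    (Pool.Agent.Lib.MP_1a91b9_ntW.J.no_real hs hneg)
  have hb : b ≠ 0 := left_ne_zero_of_mul hE
  have hb' : a ^ 2 - 4 * b ≠ 0 := right_ne_zero_of_mul hE
  have hJ : HasJ (crv a b) j := by
    refine Pool.Agent.Lib.MP_1a91b9_ntY.hasJ_crv ?_
    linear_combination 16 * hj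
  have hW : Pool.Agent.Lib.MP_1a91b9_ntY.CMK (crv a b) := by
    refine ⟨?_, j, D, s, hjD, hs, hJ⟩
    rw [Pool.Agent.Lib.MP_1a91b9_ntY.crv_Δ]
    exact mul_ne_zero (mul_ne_zero (by norm_num) (pow_ne_zero 2 hb)) hb'
  have hP : Pool.Agent.Lib.MP_1a91b9_ntY.Pt2 (crv a b) := by
    refine ⟨0, ?_⟩
    unfold crv WeierstrassCurve.b₂ WeierstrassCurve.b₄ WeierstrassCurve.b₆
    ring
  have hQ := ql_all hK hW hP
  have hpi : IsPrincipalIdealRing (𝓞 K) := pid_of hK hW hP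
  have hEF : algebraMap K F b * (algebraMap K F a ^ 2 - 4 * algebraMap K F b) ≠ 0 := by
    have h1 := (map_ne_zero (algebraMap K F)).2 hE
    rwa [map_mul, map_sub, map_mul, map_pow, map_ofNat] at h1
  obtain ⟨B₀, hB0', hB'⟩ := no_new hEF
  obtain ⟨B, hBd⟩ : ∃ B : Finset F, B = insert 1 B₀ := ⟨_, rfl⟩
  have hB0 : ∀ β ∈ B, β ≠ 0 := by
    intro β hβ
    rw [hBd, Finset.mem_insert] at hβ
    rcases hβ with rfl | hβ
    · exact one_ne_zero
    · exact hB0' β hβ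
  refine h.fin (fun X => ?_) ?_
  · refine (Pool.Agent.Lib.MP_1a91b9_ntW.J.finite_norm_le (K := K) X).subset ?_
    rintro d ⟨h1, h2⟩
    exact ⟨h1.ne_zero, h2⟩
  · have hex : (⋃ β ∈ (B : Set F), {d : 𝓞 K | Squarefree d ∧
        IsSquare (algebraMap K F ((δ : K) * (d : K)) * β)}).Finite := by
      refine Set.Finite.biUnion B.finite_toSet fun β hβ => ?_
      exact fin_ex hδ (hB0 β hβ)
    refine hex.subset ?_
    rintro d ⟨hd, hRk, h3⟩
    by_contra hcon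
    refine h3 ?_
    have hδ0 : (δ : K) ≠ 0 := by
      intro h
      exact hδ (by exact_mod_cast h)
    have hd0 : (d : K) ≠ 0 := by exact_mod_cast hd.ne_zero
    have hns : ∀ β ∈ B, ¬ IsSquare (algebraMap K F ((δ : K) * (d : K)) * β) := fun β hβ hsq =>
      hcon (Set.mem_biUnion (Finset.mem_coe.2 hβ) ⟨hd, hsq⟩)
    have hsq : ¬ IsSquare (algebraMap K F ((δ : K) * (d : K))) := by
      have h1 := hns 1 (by rw [hBd]; exact Finset.mem_insert_self _ _)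
      rwa [mul_one] at h1
    have hδd : δ * d ≠ 0 := mul_ne_zero hδ hd.ne_zero
    have h5 := star2 hK hW hl hF hδd hRk
    exact ⟨⟨stbN_step hQ hJ hB' (mul_ne_zero hδ0 hd0) hRk fun β hβ =>
      hns β (by rw [hBd]; exact Finset.mem_insert_of_mem hβ),
      Pool.Agent.Lib.MP_1a91b9_ntC.Sh.tow_step hE hQ hJ hs hneg hδd hsq h5⟩, h5⟩

end

end Pool.Agent.Lib.MP_1a91b9_ntDV
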