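import Pool.Agent.Lib.MP_1a91b9_ntC.FinT
import Pool.Agent.Lib.MP_1a91b9_ntDV.T18

/-!
# MP_1a91b9_nt (the divisor law): the result, from the joint laws
-/

set_option autoImplicit false

namespace Pool.Agent.Lib.MP_1a91b9_ntDV

open NumberField WeierstrassCurve IsDedekindDomain
open Pool.Agent.Lib.MP_1a91b9_ntL (crv)
open Pool.Agent.Lib.MP_1a91b9_ntI (K3)
open Pool.Agent.Lib.MP_1a91b9_ntQ (K4)
open Pool.Agent.Lib.MP_1a91b9_ntW (K8)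
open Pool.Agent.Lib.MP_1a91b9_ntV (K7 t7)
open Pool.Agent.Lib.MP_1a91b9_ntW.J (RkZ Cls2 ClsN cR cS cI cJ)
open Pool.Agent.Lib.MP_1a91b9_ntC (Stb NoNew E0 E0_map s2_of R2_K r2_K8)

noncomputable section

open Classical in
/-- **The law for the divisors**, from the joint laws: all the properties of the twists. -/
theorem div_law
    (H4 : ∀ {b : K4}, b ≠ 0 → DQG K4 4 (fun _ => Cls2 K4) 0 b cR)
    (H8 : ∀ {e : K8}, e ≠ 0 → DQG K8 2 (fun _ => Cls2 K8) (4 * e) (2 * e ^ 2) cR)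
    (H7 : ∀ {d₀ : K7}, d₀ ≠ 0 → DQG K7 2 (fun _ => Cls2 K7)
      (d₀ * (1 + (1 - (t7 : K7)) ^ 4)) (d₀ ^ 2 * (1 - (t7 : K7)) ^ 4) cS)
    (H3 : ∀ {e : K3}, e ≠ 0 → DQG K3 2 (fun F _ => ClsN K3 F) (-3 * e) (3 * e ^ 2) cI)
    (H3' : ∀ {e : K3}, e ≠ 0 → DQG K3 2 (fun _ => Cls2 K3) (-3 * e) (3 * e ^ 2) cJ)
    (K : Type) [Field K] [NumberField K] (hK : Module.finrank ℚ K = 2)
    (a b : K) (hE : b * (a ^ 2 - 4 * b) ≠ 0) (j D : ℤ)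
    (hjD : (j, D) ∈ Pool.Agent.Lib.MP_1a91b9_ntY.cmList)
    (hj : 256 * (a ^ 2 - 3 * b) ^ 3 = j * (b ^ 2 * (a ^ 2 - 4 * b))) (hD : ∃ s : K, s ^ 2 = D)
    (l : ℕ) (hl : l = 2 ∨ l = 4 ∧ ∃ i : K, i ^ 2 = -1)
    (F : Type) [Field F] [NumberField F] [Algebra K F]
    (hF : IntermediateField.adjoin K {x : F | ∃ c : K, x ^ l = algebraMap K F c} = ⊤)
    (δ : 𝓞 K) (hδ : δ ≠ 0)
    (n : ℕ) (m u : 𝓞 K) (hm : m ∣ 2 ^ n) (hu : ∀ p, Prime p → ¬ (p ^ 2 ∣ m ∧ p ^ 2 ∣ u))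
    (c : ℝ)
    (hc : c = if Prime (2 : 𝓞 K) then (if ∃ x : F, x ^ 2 = -1 then
        √((∏' i : ℕ, (1 + 1 / (2 : ℝ) ^ (2 * i + 1))⁻¹) / 2) else
        ∏' i : ℕ, (1 + 1 / (2 : ℝ) ^ (2 * i + 1))⁻¹) else
      if Squarefree (2 : 𝓞 K) then ∏' i : ℕ, (1 - 1 / (2 : ℝ) ^ (i + 1)) else
      ∏' i : ℕ, (1 + 1 / (2 : ℝ) ^ (i + 1))⁻¹) :
    DivG (𝓞 K) m u (fun d => TwP a b F ((δ : K) * (d : K))) (c ^ Module.finrank K F) := by
  refine dstab K hK a b hE j D hjD hj hD l hl F hF δ hδ m u _ ?_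
  have hδ0 : (δ : K) ≠ 0 := by
    intro h
    exact hδ (by exact_mod_cast h)
  have h := dstar_std H4 H8 H7 H3 H3' hK ((δ : K) * a) ((δ : K) ^ 2 * b) (by
      have e : (δ : K) ^ 2 * b * (((δ : K) * a) ^ 2 - 4 * ((δ : K) ^ 2 * b)) =
          (δ : K) ^ 4 * (b * (a ^ 2 - 4 * b)) := by ring
      rw [e]
      exact mul_ne_zero (pow_ne_zero 4 hδ0) hE) j D hjD (by
      linear_combination (δ : K) ^ 6 * hj) hD l hl F hF n m u hm hu c hc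
  have e1 : (fun d : 𝓞 K => RkZ (⟨0, algebraMap K F (d * ((δ : K) * a)), 0,
      algebraMap K F ((d : K) ^ 2 * ((δ : K) ^ 2 * b)), 0⟩ : WeierstrassCurve F)) =
      fun d : 𝓞 K => RkZ (⟨0, algebraMap K F ((δ : K) * (d : K) * a), 0,
        algebraMap K F (((δ : K) * (d : K)) ^ 2 * b), 0⟩ : WeierstrassCurve F) := by
    funext d
    have e2 : (d : K) * ((δ : K) * a) = (δ : K) * (d : K) * a := by ring
    have e3 : (d : K) ^ 2 * ((δ : K) ^ 2 * b) = ((δ : K) * (d : K)) ^ 2 * b := by ring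
    rw [e2, e3]
  rw [e1] at h
  exact h

end

end Pool.Agent.Lib.MP_1a91b9_ntDV
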