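import Pool.Agent.Lib.MP_1a91b9_ntZ.DenR
import Pool.Agent.Lib.MP_1a91b9_ntDV.T8
import Pool.Agent.Lib.MP_1a91b9_ntDV.U0

/-!
# MP_1a91b9_nt (the divisor law, binomial form): the law for the divisors in the generic rings
-/

set_option autoImplicit false
set_option linter.unusedSectionVars false

namespace Pool.Agent.Lib.MP_1a91b9_ntDV

open Finset
open Pool.Agent.Lib.MP_1a91b9_ntH (PS nm Sx mem_Sx)
open Pool.Agent.Lib.MP_1a91b9_ntR (Qi Pri Pg DD sys nG GR gc Bad mu pb symm_union symmDiff_cancel)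
open Pool.Agent.Lib.MP_1a91b9_ntS.G (FamI CndI)
open Pool.Agent.Lib.MP_1a91b9_ntZ (Atl bn)

noncomputable section

variable {R : Type} [CommRing R] [IsDomain R] [IsPrincipalIdealRing R] [Qi R] [Pri R] {Q : R}
  {A : Type} [Fintype A] [DecidableEq A] {π : A → R}

/-- **The law for the divisors, at least `t` of the blocks.** -/
theorem bad_divB (hB : Bad π) (hQ : (sys R).Mod Q) (hQ0 : Q ≠ 0)
    {Good : ZMod 2 × (A → ZMod 2) → Finset (Pg R) → Prop} {c : ℝ} (hJ : DLB Good c)
    {k N : ℕ} (hN : 0 < N) {a : Fin k → Fin N → R} (hne : ∀ b n, a b n ≠ 0)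
    (hin : ∀ b n n', n ≠ n' → ¬ ∃ y : R, y ^ 2 = a b n * a b n')
    (hcr : ∀ b b', b ≠ b' → ∀ n n', ¬ ∃ y : R, y ^ 2 = a b n * a b' n' ∨ y ^ 2 = -(a b n * a b' n'))
    {m u : R} (hm : m ∣ Q) (hu : ∀ x, ¬ (π x ^ 2 ∣ m ∧ π x ^ 2 ∣ u)) (P : Fin k → R → Prop)
    (hP : ∀ b (d : R), Squarefree d → (∀ n, ∃ (i : ZMod 2 × (A → ZMod 2)) (S : Finset (Pg R))
      (s : R), s ≠ 0 ∧ a b n * d = mu π i * DD S * s ^ 2 ∧ Good i S) → P b d)
    (t : ℕ) : DivG R m u (fun d => Atl t fun b => P b d) (bn k t (c ^ N)) := by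
  have h1 : ∀ b n, ∃ (i : ZMod 2 × (A → ZMod 2)) (T : Finset (Pg R)) (s : R), s ≠ 0 ∧
      a b n = mu π i * DD T * s ^ 2 := fun b n => hB.exists_sf (a b n) (hne b n)
  choose i T s hs hT using h1
  have hinj : ∀ b, Function.Injective fun n => (i b n, T b n) := by
    intro b n n' h
    by_contra hnn
    apply hin b n n' hnn
    simp only [Prod.mk.injEq] at h
    refine ⟨mu π (i b n) * DD (T b n) * s b n * s b n', ?_⟩
    rw [hT b n, hT b n', ← h.1, ← h.2]
    ring
  have hdis : ∀ b b', b ≠ b' → ∀ n n', ((i b n).2, T b n) ≠ ((i b' n').2, T b' n') := by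
    intro b b' hbb n n' h
    simp only [Prod.mk.injEq] at h
    apply hcr b b' hbb n n'
    refine ⟨pb π (i b n).2 * DD (T b n) * s b n * s b' n', ?_⟩
    have h2 : ((-1 : R) ^ (i b n).1.val * (-1) ^ (i b' n').1.val) = 1 ∨
        ((-1 : R) ^ (i b n).1.val * (-1) ^ (i b' n').1.val) = -1 := by
      rcases neg_one_pow_eq_or R (i b n).1.val with h3 | h3 <;>
        rcases neg_one_pow_eq_or R (i b' n').1.val with h4 | h4 <;> rw [h3, h4]
      · left; ring
      · right; ring
      · right; ring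
      · left; ring
    have h3 : a b n * a b' n' = ((-1 : R) ^ (i b n).1.val * (-1) ^ (i b' n').1.val) *
        (pb π (i b n).2 * DD (T b n) * s b n * s b' n') ^ 2 := by
      rw [hT b n, hT b' n']
      unfold mu
      rw [← h.1, ← h.2]
      ring
    rcases h2 with h2 | h2
    · left
      rw [h3, h2, one_mul]
    · right
      rw [h3, h2]
      ring
  obtain ⟨B, hBd⟩ : ∃ B : Finset (Pg R),
      B = (univ : Finset (Fin k × Fin N)).biUnion fun x => T x.1 x.2 := ⟨_, rfl⟩
  have hTB : ∀ b n, T b n ⊆ B := fun b n => by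
    rw [hBd]
    exact subset_biUnion_of_mem (fun x : Fin k × Fin N => T x.1 x.2) (mem_univ (b, n))
  refine Rep.law (famI_rep (bad_famI hB)) fewR (famI_pos (bad_famI hB) hQ hQ0 hm (hB.exists_cls hu))
    (fun d => Atl t fun b => P b d) (bn k t (c ^ N)) fun j => ?_
  refine SubL.glue (B := B) fun B' hB' => ?_
  have h2 := hJ k N hN (fun b n => j + i b n) (fun b n => symmDiff B' (T b n)) B
    (fun b n => by
      intro q hq
      rw [mem_symmDiff] at hq
      rcases hq with hq | hq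
      · exact hB' hq.1
      · exact hTB b n hq.1)
    (fun b n n' h => by
      simp only [Prod.mk.injEq] at h
      apply hinj b
      show (i b n, T b n) = (i b n', T b n')
      rw [add_left_cancel h.1, symmDiff_cancel h.2])
    (fun b b' hbb n n' h => by
      simp only [Prod.mk.injEq, Prod.snd_add] at h
      apply hdis b b' hbb n n'
      rw [add_left_cancel h.1, symmDiff_cancel h.2]) t
  refine h2.mono fun S hS h3 => h3.mono fun b h3 => ?_
  show P b (mu π j * DD (S ∪ B'))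
  refine hP b _ (hB.sqf j _) fun n => ?_
  obtain ⟨t, h5, h6⟩ := hB.mu_mul j (i b n) (S ∪ B') (T b n)
  have e1 : symmDiff (S ∪ B') (T b n) = S ∪ symmDiff B' (T b n) := by
    rw [union_comm]
    exact symm_union (hTB b n) hB' hS
  refine ⟨j + i b n, symmDiff (S ∪ B') (T b n), t * s b n, mul_ne_zero h5 (hs b n), ?_, ?_⟩
  · rw [hT b n]
    linear_combination (s b n) ^ 2 * h6
  · rw [e1]
    exact h3 n

end

end Pool.Agent.Lib.MP_1a91b9_ntDV
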