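import Pool.Agent.Lib.MP_1a91b9_ntDV.U9

/-!
# MP_1a91b9_nt (the divisor law, binomial form): the assembly, from the results over the standard models
-/

set_option autoImplicit false

namespace Pool.Agent.Lib.MP_1a91b9_ntDV

open NumberField WeierstrassCurve
open Pool.Agent.Lib.MP_1a91b9_ntW.J (RkZ Cls2 ClsN cR cS cI cJ)
open Pool.Agent.Lib.MP_1a91b9_ntI (K3)
open Pool.Agent.Lib.MP_1a91b9_ntQ (K4)
open Pool.Agent.Lib.MP_1a91b9_ntZ (bn)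
open Pool.Agent.Lib.MP_1a91b9_ntW (K8)
open Pool.Agent.Lib.MP_1a91b9_ntV (K7 t7)

open Classical in
/-- **The result**, from the results over the standard models. -/
theorem dbinK_std
    (H4 : ∀ {b : K4}, b ≠ 0 → DBG K4 4 (fun _ => Cls2 K4) {1, b} 0 b cR)
    (H8 : ∀ {e : K8}, e ≠ 0 → DBG K8 2 (fun _ => Cls2 K8) {1, -1} (4 * e) (2 * e ^ 2) cR)
    (H7 : ∀ {d₀ : K7}, d₀ ≠ 0 → DBG K7 2 (fun _ => Cls2 K7) {1, -1}
      (d₀ * (1 + (1 - (t7 : K7)) ^ 4)) (d₀ ^ 2 * (1 - (t7 : K7)) ^ 4) cS)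
    (H3 : ∀ {e : K3}, e ≠ 0 → DBG K3 2 (fun F _ => ClsN K3 F) {1, -1} (-3 * e) (3 * e ^ 2) cI)
    (H3' : ∀ {e : K3}, e ≠ 0 → DBG K3 2 (fun _ => Cls2 K3) {1, -1} (-3 * e) (3 * e ^ 2) cJ)
    {K : Type} [Field K] [NumberField K]
    (hK : Module.finrank ℚ K = 2) (a b : K) (hE : b * (a ^ 2 - 4 * b) ≠ 0) (j D : ℤ)
    (hjD : (j, D) ∈ Pool.Agent.Lib.MP_1a91b9_ntY.cmList)
    (hj : 256 * (a ^ 2 - 3 * b) ^ 3 = j * (b ^ 2 * (a ^ 2 - 4 * b))) (hD : ∃ s : K, s ^ 2 = D)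
    (l : ℕ) (hl : l = 2 ∨ l = 4 ∧ ∃ i : K, i ^ 2 = -1)
    (F : Type) [Field F] [NumberField F] [Algebra K F]
    (hF : IntermediateField.adjoin K {x : F | ∃ c : K, x ^ l = algebraMap K F c} = ⊤)
    (Δ : Finset (𝓞 K)) (h0 : ∀ δ ∈ Δ, δ ≠ 0)
    (hΔ : ∀ δ ∈ Δ, ∀ δ' ∈ Δ, δ ≠ δ' → ∀ e ∈ ({1, -1, b, -b} : Set K),
      ¬ ∃ x : F, x ^ 2 = algebraMap K F (e * ((δ : K) * (δ' : K)))) (t : ℕ)
    (n : ℕ) (m u : 𝓞 K) (hm : m ∣ 2 ^ n) (hu : ∀ p, Prime p → ¬ (p ^ 2 ∣ m ∧ p ^ 2 ∣ u))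
    (c : ℝ)
    (hc : c = if Prime (2 : 𝓞 K) then (if ∃ x : F, x ^ 2 = -1 then
        √((∏' i : ℕ, (1 + 1 / (2 : ℝ) ^ (2 * i + 1))⁻¹) / 2) else
        ∏' i : ℕ, (1 + 1 / (2 : ℝ) ^ (2 * i + 1))⁻¹) else
      if Squarefree (2 : 𝓞 K) then ∏' i : ℕ, (1 - 1 / (2 : ℝ) ^ (i + 1)) else
      ∏' i : ℕ, (1 + 1 / (2 : ℝ) ^ (i + 1))⁻¹) :
    DivG (𝓞 K) m u (fun d => t ≤ (Δ.filter fun δ : 𝓞 K => RkZ (⟨0,
      algebraMap K F ((δ : K) * (d : K) * a), 0,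
        algebraMap K F (((δ : K) * (d : K)) ^ 2 * b), 0⟩ : WeierstrassCurve F)).card)
      (bn Δ.card t (c ^ Module.finrank K F)) := by
  have k1 : ∀ {K : Type} [Field K] (b : K), ∀ e ∈ ({1, -1} : Set K),
      e = 1 ∨ e = -1 ∨ e = b ∨ e = -b := by
    intro K _ b e he
    rcases he with rfl | he
    · exact Or.inl rfl
    · exact Or.inr (Or.inl he)
  refine dbinK_expl (fun hK _ hi _ hb => db4_of (fun hb => DMB.of_dbg ?_ (H4 hb)) hK hi hb)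
    (fun hK _ hs _ he => db8_of (fun he => DMB.of_dbg (k1 _) (H8 he)) hK hs he)
    (fun hK _ hs _ he => db7_of (fun he => DMB.of_dbg (k1 _) (H7 he)) hK hs he)
    (fun hK _ hs _ he => db3N_of (fun he => DMB.of_dbg (k1 _) (H3 he)) hK hs he)
    (fun hK _ hs _ he => db3J_of (fun he => DMB.of_dbg (k1 _) (H3' he)) hK hs he)
    hK a b hE j D hjD hj hD l hl F hF Δ h0 hΔ t n m u hm hu c hc
  intro e he
  rcases he with rfl | he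
  · exact Or.inl rfl
  · exact Or.inr (Or.inr (Or.inl he))

end Pool.Agent.Lib.MP_1a91b9_ntDV
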