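import Pool.Agent.Lib.MP_1a91b9_ntC.StabT
import Pool.Agent.Lib.MP_1a91b9_ntZ.Hund
import Pool.Agent.Lib.MP_1a91b9_ntDV.T18
import Pool.Agent.Lib.MP_1a91b9_ntDV.U10

/-!
# MP_1a91b9_nt (the divisor law, binomial form): all the properties of the twists, sets of multipliers
-/

set_option autoImplicit false

namespace Pool.Agent.Lib.MP_1a91b9_ntDV

open NumberField WeierstrassCurve Filter
open Pool.Agent.Lib.MP_1a91b9_nuI (HasJ)
open Pool.Agent.Lib.MP_1a91b9_ntL (crv)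
open Pool.Agent.Lib.MP_1a91b9_ntJ (TowP)
open Pool.Agent.Lib.MP_1a91b9_ntW.J (RkZ)
open Pool.Agent.Lib.MP_1a91b9_ntC (StbTw no_new fin_ex stbN_step star2 ql_all pid_of)
open Pool.Agent.Lib.MP_1a91b9_ntZ (bn bn_tendsto CB cb_two)

noncomputable section

open Classical in
/-- **From the rank part to all the properties**, at least `t` of the multipliers. -/
theorem dstabB (K : Type) [Field K] [NumberField K] (hK : Module.finrank ℚ K = 2)
    (a b : K) (hE : b * (a ^ 2 - 4 * b) ≠ 0) (j D : ℤ)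
    (hjD : (j, D) ∈ Pool.Agent.Lib.MP_1a91b9_ntY.cmList)
    (hj : 256 * (a ^ 2 - 3 * b) ^ 3 = j * (b ^ 2 * (a ^ 2 - 4 * b))) (hD : ∃ s : K, s ^ 2 = D)
    (l : ℕ) (hl : l = 2 ∨ l = 4 ∧ ∃ i : K, i ^ 2 = -1)
    (F : Type) [Field F] [NumberField F] [Algebra K F]
    (hF : IntermediateField.adjoin K {x : F | ∃ c : K, x ^ l = algebraMap K F c} = ⊤)
    (S : Finset (𝓞 K)) (h0 : ∀ δ ∈ S, δ ≠ 0) (m u : 𝓞 K) (c : ℝ) (t : ℕ)
    (h : DivG (𝓞 K) m u (fun d => t ≤ (S.filter fun δ : 𝓞 K => RkZ (⟨0,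
      algebraMap K F ((δ : K) * (d : K) * a), 0,
        algebraMap K F (((δ : K) * (d : K)) ^ 2 * b), 0⟩ : WeierstrassCurve F)).card) c) :
    DivG (𝓞 K) m u (fun d => t ≤ (S.filter fun δ : 𝓞 K => TwP a b F ((δ : K) * (d : K))).card)
      c := by
  have hneg : D < 0 := by
    unfold Pool.Agent.Lib.MP_1a91b9_ntY.cmList at hjD
    simp only [List.mem_cons, Prod.mk.injEq, List.not_mem_nil, or_false] at hjD
    rcases hjD with ⟨-, rfl⟩ | ⟨-, rfl⟩ | ⟨-, rfl⟩ | ⟨-, rfl⟩ | ⟨-, rfl⟩ | ⟨-, rfl⟩ | ⟨-, rfl⟩ |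
      ⟨-, rfl⟩ | ⟨-, rfl⟩ | ⟨-, rfl⟩ | ⟨-, rfl⟩ | ⟨-, rfl⟩ | ⟨-, rfl⟩ <;> norm_num
  obtain ⟨s, hs⟩ := hD
  have hfu : Finite (𝓞 K)ˣ := Pool.Agent.Lib.MP_1a91b9_ntW.J.finite_units hK
    (Pool.Agent.Lib.MP_1a91b9_ntW.J.no_real hs hneg)
  have hb : b ≠ 0 := left_ne_zero_of_mul hE
  have hb' : a ^ 2 - 4 * b ≠ 0 := right_ne_zero_of_mul hE
  have hJ : HasJ (crv a b) j := by
    refine Pool.Agent.Lib.MP_1a91b9_ntY.hasJ_crv ?_
    linear_combination 16 * hj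
  have hW : Pool.Agent.Lib.MP_1a91b9_ntY.CMK (crv a b) := by
    refine ⟨?_, j, D, s, hjD, hs, hJ⟩
    rw [Pool.Agent.Lib.MP_1a91b9_ntY.crv_Δ]
    exact mul_ne_zero (mul_ne_zero (by norm_num) (pow_ne_zero 2 hb)) hb'
  have hP : Pool.Agent.Lib.MP_1a91b9_ntY.Pt2 (crv a b) := by
    refine ⟨0, ?_⟩
    unfold crv WeierstrassCurve.b₂ WeierstrassCurve.b₄ WeierstrassCurve.b₆
    ring
  have hQ := ql_all hK hW hP
  have hpi : IsPrincipalIdealRing (𝓞 K) := pid_of hK hW hP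
  have hEF : algebraMap K F b * (algebraMap K F a ^ 2 - 4 * algebraMap K F b) ≠ 0 := by
    have h1 := (map_ne_zero (algebraMap K F)).2 hE
    rwa [map_mul, map_sub, map_mul, map_pow, map_ofNat] at h1
  obtain ⟨B₀, hB0', hB'⟩ := no_new hEF
  obtain ⟨B, hBd⟩ : ∃ B : Finset F, B = insert 1 B₀ := ⟨_, rfl⟩
  have hB0 : ∀ β ∈ B, β ≠ 0 := by
    intro β hβ
    rw [hBd, Finset.mem_insert] at hβ
    rcases hβ with rfl | hβ
    · exact one_ne_zero
    · exact hB0' β hβ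
  refine h.fin (fun X => ?_) ?_
  · refine (Pool.Agent.Lib.MP_1a91b9_ntW.J.finite_norm_le (K := K) X).subset ?_
    rintro d ⟨h1, h2⟩
    exact ⟨h1.ne_zero, h2⟩
  · have hex : (⋃ δ ∈ (S : Set (𝓞 K)), ⋃ β ∈ (B : Set F), {d : 𝓞 K | Squarefree d ∧
        IsSquare (algebraMap K F ((δ : K) * (d : K)) * β)}).Finite := by
      refine Set.Finite.biUnion S.finite_toSet fun δ hδ => ?_
      refine Set.Finite.biUnion B.finite_toSet fun β hβ => ?_
      exact fin_ex (h0 δ hδ) (hB0 β hβ)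
    refine hex.subset ?_
    rintro d ⟨hd, h2, h3⟩
    by_contra hcon
    refine h3 (h2.trans (Finset.card_le_card fun δ hδ => ?_))
    rw [Finset.mem_filter] at hδ ⊢
    refine ⟨hδ.1, ?_⟩
    have hδ0 : (δ : K) ≠ 0 := by
      intro h
      exact h0 δ hδ.1 (by exact_mod_cast h)
    have hd0 : (d : K) ≠ 0 := by exact_mod_cast hd.ne_zero
    have hns : ∀ β ∈ B, ¬ IsSquare (algebraMap K F ((δ : K) * (d : K)) * β) := fun β hβ hsq =>
      hcon (Set.mem_biUnion (Finset.mem_coe.2 hδ.1)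
        (Set.mem_biUnion (Finset.mem_coe.2 hβ) ⟨hd, hsq⟩))
    have hsq : ¬ IsSquare (algebraMap K F ((δ : K) * (d : K))) := by
      have h1 := hns 1 (by rw [hBd]; exact Finset.mem_insert_self _ _)
      rwa [mul_one] at h1
    have hRk := hδ.2
    have hδd : δ * d ≠ 0 := mul_ne_zero (h0 δ hδ.1) hd.ne_zero
    have h5 := star2 hK hW hl hF hδd hRk
    exact ⟨⟨stbN_step hQ hJ hB' (mul_ne_zero hδ0 hd0) hRk fun β hβ =>
      hns β (by rw [hBd]; exact Finset.mem_insert_of_mem hβ),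
      Pool.Agent.Lib.MP_1a91b9_ntC.Sh.tow_step hE hQ hJ hs hneg hδd hsq h5⟩, h5⟩

open Classical in
/-- **From finite sets to sets of multipliers.** -/
theorem set_div {R α : Type} [CommRing R] [IsDomain R] {m u : R}
    (hfin : ∀ X : ℝ, {D : R | Squarefree D ∧ |Algebra.norm ℤ D| ≤ X}.Finite) {Q : α → R → Prop}
    {T : Set α} {t : ℕ} {g v : ℝ} (hg0 : 0 < g) (hg1 : g ≤ 1)
    (hv : v = if T.Infinite then 1 else bn T.ncard t g)
    (h : ∀ S : Finset α, (S : Set α) ⊆ T →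
      DivG R m u (fun d => t ≤ (S.filter fun δ => Q δ d).card) (bn S.card t g)) :
    DivG R m u (fun d => (t : ℕ∞) ≤ {δ ∈ T | Q δ d}.encard) v := by
  have hle : ∀ (S : Finset α) (d : R), (S : Set α) ⊆ T → t ≤ (S.filter fun δ => Q δ d).card →
      (t : ℕ∞) ≤ {δ ∈ T | Q δ d}.encard := by
    intro S d hS h1
    have h2 : (((S.filter fun δ => Q δ d) : Finset α) : Set α) ⊆ {δ ∈ T | Q δ d} := by
      intro δ hδ
      have h3 := Finset.mem_filter.1 (Finset.mem_coe.1 hδ)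
      exact ⟨hS (Finset.mem_coe.2 h3.1), h3.2⟩
    have h4 := Set.encard_le_encard h2
    rw [Set.encard_coe_eq_coe_finsetCard] at h4
    exact le_trans (by exact_mod_cast h1) h4
  rcases T.finite_or_infinite with hT | hT
  · have hv' : v = bn T.ncard t g := by rw [hv, if_neg (Set.not_infinite.2 hT)]
    have h1 := h hT.toFinset (by rw [hT.coe_toFinset])
    rw [← Set.ncard_eq_toFinset_card T hT, ← hv'] at h1
    exact h1.mono hfin fun d _ h2 => hle _ d (by rw [hT.coe_toFinset]) h2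
  · have hv' : v = 1 := by rw [hv, if_pos hT]
    intro M ε hε
    obtain ⟨k, hk⟩ := ((bn_tendsto hg0 hg1 t).eventually
      (lt_mem_nhds (show 1 - ε / 2 < 1 by linarith))).exists
    obtain ⟨S, hST, hSk⟩ := hT.exists_subset_card_eq k
    have h1 := (h S hST).mono hfin fun d _ h2 => hle S d hST h2
    rw [hSk] at h1
    filter_upwards [h1 M (ε / 2) (by positivity)] with X hX
    refine le_trans (by linarith) (hX.trans (div_le_div_of_nonneg_right (Nat.cast_le.2 ?_)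
      (Nat.cast_nonneg _)))
    refine Nat.card_mono ((hfin X).subset ?_) ?_
    · rintro D ⟨h1, -, h2, -⟩
      exact ⟨h1, h2⟩
    · rintro D ⟨h1, h2, h3, h4, h5⟩
      refine ⟨h1, h2, h3, h4, le_trans ?_ h5⟩
      refine mul_le_mul_of_nonneg_right ?_ (Nat.cast_nonneg _)
      rw [hv']
      linarith

end

end Pool.Agent.Lib.MP_1a91b9_ntDV
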