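import Pool.Agent.Lib.MP_1a91b9_ntZ.Forms
import Pool.Agent.Lib.MP_1a91b9_ntDV.T5

/-!
# MP_1a91b9_nt (the divisor law, binomial form): the statements of the rank part over `F`
-/

set_option autoImplicit false

namespace Pool.Agent.Lib.MP_1a91b9_ntDV

open NumberField WeierstrassCurve
open Pool.Agent.Lib.MP_1a91b9_ntW.J (RkZ twd)
open Pool.Agent.Lib.MP_1a91b9_ntZ (Atl bn SepF)

/-- The binomial law for the divisors over the extensions generated by `l`-th roots, `H` is the condition on
the classes. -/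
def DBG (K : Type) [Field K] [NumberField K] (l : ℕ)
    (H : (F : Type) → [Field F] → 𝓞 K → 𝓞 K → Prop) (E : Set K) (a b : K) (c : ℝ) : Prop :=
  ∀ (F : Type) [Field F] [NumberField F] [Algebra K F],
    IntermediateField.adjoin K {x : F | ∃ c : K, x ^ l = algebraMap K F c} = ⊤ →
    ∀ m u : 𝓞 K, H F m u → ∀ (k : ℕ) (δ : Fin k → K), SepF K F E δ → ∀ t : ℕ,
    DivG (𝓞 K) m u (fun d => Atl t fun i => RkZ (⟨0, algebraMap K F (δ i * d * a), 0,
      algebraMap K F ((δ i * d) ^ 2 * b), 0⟩ : WeierstrassCurve F))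
      (bn k t (c ^ Module.finrank K F))

end Pool.Agent.Lib.MP_1a91b9_ntDV
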