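import Pool.Agent.Lib.MP_1a91b9_ntZ.J4Main
import Pool.Agent.Lib.MP_1a91b9_ntDV.U0
import Pool.Agent.Lib.MP_1a91b9_ntDV.U2

/-!
# MP_1a91b9_nt (the divisor law, binomial form), `ℚ(i)`
-/

set_option autoImplicit false
set_option linter.unusedSectionVars false

namespace Pool.Agent.Lib.MP_1a91b9_ntDV

section D

open NumberField Finset Pool.Agent.Lib.MP_1a91b9_ntQ Pool.Agent.Lib.MP_1a91b9_ntM
  Pool.Agent.Lib.MP_1a91b9_ntM.E Pool.Agent.Lib.MP_1a91b9_ntM.E.RX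
open Pool.Agent.Lib.MP_1a91b9_ntQ.Da (cinf2)
open Pool.Agent.Lib.MP_1a91b9_ntZ (Atl bn)

noncomputable section

/-- **The law for the divisors over `ℚ(i)`, at least `t` of the blocks.** -/
theorem div4B (hJ : JB4) {A : Type} [Fintype A] [DecidableEq A] {I : Type} [Fintype I] [DecidableEq I]
    (bl : A → I) (a : A → 𝓞 K4) (f : A → Bool)
    (h0 : ∀ i, a i ≠ 0) (hf : ∀ i, f i = true → ¬ ∃ y : K4, y ^ 2 = (a i : K4))
    (hpw : ∀ i i', i ≠ i' → (¬ ∃ y : K4, y ^ 4 * a i = a i') ∧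
      ¬ ∃ y : K4, y ^ 4 = (a i : K4) * a i')
    (t : ℕ) {v : ℝ} (hv0 : 0 ≤ v)
    (hv : ∀ b, v ≤ ∏ a ∈ univ.filter (fun a => bl a = b),
      (if f a = true then cinf2 / 2 else cinf2))
    {n : ℕ} {M u : 𝓞 K4} (hM : M ∣ 2 ^ n) (hu : ¬ ((2 : 𝓞 K4) ∣ M ∧ (2 : 𝓞 K4) ∣ u))
    (P : I → 𝓞 K4 → Prop)
    (hP : ∀ d : 𝓞 K4, Squarefree d → ∀ b, (∀ i, bl i = b → ∃ (z : DD8) (t : 𝓞 K4), t ≠ 0 ∧
      Dj z.S z.T z.B ∧ a i * d ^ 2 = z.el * t ^ 4 ∧ GdX z ∅ ∧ (f i = true → GdX z.inv ∅)) →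
      P b d) :
    DivG (𝓞 K4) M u (fun d => Atl t fun b => P b d) (bn (Fintype.card I) t v) := by
  classical
  have h1 : ∀ i, ∃ (x : DD8) (s : 𝓞 K4), Dj x.S x.T x.B ∧ s ≠ 0 ∧ a i = x.el * s ^ 4 :=
    fun i => exists_DD8 (h0 i)
  choose x s hx hs hxs using h1
  obtain ⟨Q, hQ⟩ : ∃ Q : Finset Pg, Q = univ.biUnion fun i => (x i).S ∪ (x i).T ∪ (x i).B :=
    ⟨_, rfl⟩
  have hxP : ∀ i, (x i).S ∪ (x i).T ∪ (x i).B ⊆ Q := fun i => by
    rw [hQ]
    exact subset_biUnion_of_mem (fun i => (x i).S ∪ (x i).T ∪ (x i).B) (mem_univ i)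
  have hSP : ∀ i, (x i).S ⊆ Q := fun i =>
    (subset_union_left.trans subset_union_left).trans (hxP i)
  have hTP : ∀ i, (x i).T ⊆ Q := fun i =>
    (subset_union_right.trans subset_union_left).trans (hxP i)
  have hBP : ∀ i, (x i).B ⊆ Q := fun i => subset_union_right.trans (hxP i)
  obtain ⟨u', hu', hMu⟩ := Q5.exists_rep hu
  obtain ⟨Z, hZ⟩ : ∃ Z : ZMod 4 → Fin 2 → Finset Pg → A → DD8, Z = fun k j Y i =>
      (x i).mul k j Y := ⟨_, rfl⟩
  have hZd : ∀ k j Y i, Dj (Z k j Y i).S (Z k j Y i).T (Z k j Y i).B := fun k j Y i => by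
    rw [hZ]
    exact dj_E (hx i) _
  have hZe : ∀ k j Y i, ∃ t : 𝓞 K4, t ≠ 0 ∧
      (x i).el * Pool.Agent.Lib.MP_1a91b9_ntQ.Den4.ph k j (DDq Y) ^ 2 = (Z k j Y i).el * t ^ 4 := fun k j Y i => by
    rw [hZ]
    exact el_mul (hx i) k j Y
  have hph : ∀ (k : ZMod 4) (j : Fin 2) (Y : Finset Pg),
      Pool.Agent.Lib.MP_1a91b9_ntQ.Den4.ph k j (DDq Y) ≠ 0 := fun k j Y =>
    (Pool.Agent.Lib.MP_1a91b9_ntQ.Den4.ph_squarefree k j Y).ne_zero
  have hpos : Pos (𝓞 K4) M u := by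
    have h2 := pos4 (2 * n) (hM.trans (Q5.two_pow_dvd n)) hu'
    unfold Pos at h2 ⊢
    simp only [Q5.dvd_sub_iff hMu] at h2
    exact h2
  refine Rep.law rep4 few4 hpos (fun d => Atl t fun b => P b d) (bn (Fintype.card I) t v)
    fun kj => ?_
  obtain ⟨k, j⟩ := kj
  refine SubL.glue (B := Q) fun B' hB' => ?_
  refine SubL.mono (hJ A I bl (fun i => Z k j B' i) f Q (fun i => hZd k j B' i) (fun i => ?_)
    (fun i hi h => ?_) (fun i i' hii => ?_) t v hv0 hv) fun Y hY h2 => ?_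
  · rw [hZ]
    exact ⟨sE_sub (hSP i) (hTP i), sE_sub (hTP i) (hSP i), bE_sub (hBP i) hB'⟩
  · rw [hZ] at h
    exact hf i hi (Sq_of (hxs i) ((Sq_mul k j B').1 h))
  · obtain ⟨t, ht, e1⟩ := hZe k j B' i
    obtain ⟨t', ht', e1'⟩ := hZe k j B' i'
    refine ⟨fun h => ?_, fun h => ?_⟩
    · have h2 : Z k j B' i = Z k j B' i' := h
      rw [h2] at e1
      exact (hpw i i' hii).1 (four_of_eq (hph k j B') (hs i) (hxs i) (hxs i') ht e1 e1')
    · have h2 : Z k j B' i = (Z k j B' i').inv := h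
      rw [h2] at e1
      obtain ⟨v, _, e2⟩ := Pool.Agent.Lib.MP_1a91b9_ntM.E.RX.el_inv (Z k j B' i')
      exact (hpw i i' hii).2 (four_of_inv (hph k j B') (hxs i) (hxs i') e1 e1' e2)
  · refine h2.mono fun b h2 => ?_
    show P b (mu4 (k, j) * ∏ x ∈ Y ∪ B', x.1)
    rw [← ph_mu4, union_comm]
    refine hP _ (Pool.Agent.Lib.MP_1a91b9_ntQ.Den4.ph_squarefree k j _) b fun i hib => ?_
    have h3 := h2 i hib
    have e1 : Z k j (B' ∪ Y) i = ⟨(Z k j B' i).k, (Z k j B' i).j, (Z k j B' i).S,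
        (Z k j B' i).T, (Z k j B' i).B ∪ Y⟩ := by
      rw [hZ, union_comm B' Y]
      simp only [DD8.mul, DD8.mk.injEq, true_and]
      exact ⟨sE_out (hSP i) (hTP i) hY, sE_out (hTP i) (hSP i) hY,
        bE_out (hSP i) (hTP i) (hBP i) hY⟩
    have h4 : GdX (Z k j (B' ∪ Y) i) ∅ ∧ (f i = true → GdX (Z k j (B' ∪ Y) i).inv ∅) := by
      rw [e1]
      exact ⟨(GdX_add _ _).2 h3.1, fun hi => (GdX_add_inv _ _).2 (h3.2 hi)⟩
    obtain ⟨t, ht, e2⟩ := hZe k j (B' ∪ Y) i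
    refine ⟨Z k j (B' ∪ Y) i, t * s i, mul_ne_zero ht (hs i), hZd k j (B' ∪ Y) i, ?_, h4.1, h4.2⟩
    rw [hxs i]
    linear_combination (s i) ^ 4 * e2

end

end D

open NumberField Finset WeierstrassCurve
open Pool.Agent.Lib.MP_1a91b9_ntM.E Pool.Agent.Lib.MP_1a91b9_ntY Pool.Agent.Lib.MP_1a91b9_ntZ
open Pool.Agent.Lib.MP_1a91b9_ntQ (K4 WD4)
open Pool.Agent.Lib.MP_1a91b9_ntL (crv)
open Pool.Agent.Lib.MP_1a91b9_ntW.J (RkZ Cls2 cR c4_fourth cls4 exists_fourth_mul4)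

open Pool.Agent.Lib.MP_1a91b9_ntZ.J4 (sep4 prod_blk)

noncomputable section

attribute [local instance 5000] Pool.Agent.Lib.MP_1a91b9_ntQ.cd4

/-- **The binomial law for the curves `y² = x³ + b x` over `ℚ(i)`.** -/
theorem dbg4 (hJ : JB4) {b : K4} (hb : b ≠ 0) : DBG K4 4 (fun _ _ => Cls2 K4) {1, b} 0 b cR := by
  classical
  intro F _ _ _ hF m u hmu k δ hδ t
  obtain ⟨n, hn⟩ := hmu.1
  obtain ⟨A, hA⟩ := EX4.exists_of hF
  have hA0 : A ≠ [] := by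
    rintro rfl
    have h1 := hA.len
    rw [List.length_nil] at h1
    exact absurd h1.symm (Module.finrank_pos (R := K4) (M := F)).ne'
  have hD : ∀ i : Fin k, ∃ (D ν : 𝓞 K4), ν ≠ 0 ∧ (D : K4) = -(b * δ i ^ 2) * (ν : K4) ^ 4 :=
    fun i => exists_fourth_mul4
  choose D ν hν hD using hD
  have hD0 : ∀ i, D i ≠ 0 := by
    intro i h0
    have hν' : (ν i : K4) ≠ 0 := by exact_mod_cast hν i
    have h1 := hD i
    rw [h0] at h1
    have h2 : -(b * δ i ^ 2) * (ν i : K4) ^ 4 = 0 := by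
      rw [← h1]
      exact map_zero (algebraMap (𝓞 K4) K4)
    exact (mul_ne_zero (neg_ne_zero.2 (mul_ne_zero hb (pow_ne_zero 2 (hδ.1 i))))
      (pow_ne_zero 4 hν')) h2
  choose N a f hN ha0 hae hf hpw hcov hc using fun i => exists_rep hA0 hA.ne hA.pw (hD0 i)
  have hcR : cR = MP_1a91b9_ntQ.Da.cinf2 := MP_1a91b9_ntQ.cinf2_form
  have key := div4B hJ (A := Σ i : Fin k, Fin (N i)) (I := Fin k) Sigma.fst
    (fun p => a p.1 p.2) (fun p => f p.1 p.2) (fun p => ha0 p.1 p.2) (fun p => hf p.1 p.2)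
    (fun p p' hpp => by
      obtain ⟨i, j⟩ := p
      obtain ⟨i', j'⟩ := p'
      by_cases hii : i = i'
      · subst hii
        exact hpw i j j' fun h => hpp (by rw [h])
      · obtain ⟨e, he, h1⟩ := hae i j
        obtain ⟨e', he', h1'⟩ := hae i' j'
        show (¬ ∃ y : K4, y ^ 4 * (a i j : K4) = (a i' j' : K4)) ∧
          ¬ ∃ y : K4, y ^ 4 = (a i j : K4) * (a i' j' : K4)
        rw [h1, h1']
        exact sep4 hb (hν i) (hν i') (hD i) (hD i') (hA.pow e he) (hA.pow e' he') (hA.ne e he)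
          (hA.ne e' he') (hδ.2 i i' hii 1 (Set.mem_insert _ _))
          (hδ.2 i i' hii b (Set.mem_insert_of_mem _ (Set.mem_singleton b))))
    t (v := cR ^ Module.finrank K4 F) (by
      rw [hcR]
      exact pow_nonneg MP_1a91b9_ntQ.cinf2_pos5.le _) (fun i => by
      rw [prod_blk, hcR, ← hA.len]
      exact hc i _ MP_1a91b9_ntQ.cinf2_pos5.le cinf2_le_half) hn (cls4 hmu)
    (fun i d => RkZ (⟨0, algebraMap K4 F (δ i * d * 0), 0,
      algebraMap K4 F ((δ i * d) ^ 2 * b), 0⟩ : WeierstrassCurve F)) (fun d hd i h => ?_)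
  · rw [Fintype.card_fin] at key
    exact key
  · have h1 := chainX hA _ (oc_ne (mul_ne_zero (hD0 i) (pow_ne_zero 2 hd.ne_zero))) fun e he => by
      obtain ⟨j, hj⟩ := hcov i e he
      rw [WD4_mk]
      exact good_rep (hD0 i) (hA.ne e he) hd.ne_zero (h ⟨i, j⟩ rfl) hj
    have hν' : (ν i : K4) ≠ 0 := by exact_mod_cast hν i
    have e1 : (⟨0, 0, 0, -algebraMap K4 F ((D i * d ^ 2 : 𝓞 K4) : K4), 0⟩ : WeierstrassCurve F) =
        crv 0 (algebraMap K4 F ((δ i * d) ^ 2 * b) * (algebraMap K4 F (ν i : K4)) ^ 4) := by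
      refine WeierstrassCurve.ext rfl rfl rfl ?_ rfl
      show -algebraMap K4 F ((D i * d ^ 2 : 𝓞 K4) : K4) =
        algebraMap K4 F ((δ i * d) ^ 2 * b) * (algebraMap K4 F (ν i : K4)) ^ 4
      rw [oc_mul, oc_pow, hD i, ← map_pow (algebraMap K4 F), ← map_mul (algebraMap K4 F),
        ← map_neg (algebraMap K4 F)]
      congr 1
      ring
    have e3 : (⟨0, algebraMap K4 F (δ i * d * 0), 0, algebraMap K4 F ((δ i * d) ^ 2 * b), 0⟩ :
        WeierstrassCurve F) = crv 0 (algebraMap K4 F ((δ i * d) ^ 2 * b)) := by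
      refine WeierstrassCurve.ext rfl ?_ rfl rfl rfl
      show algebraMap K4 F (δ i * d * 0) = 0
      rw [mul_zero, map_zero]
    rw [e3, ← c4_fourth (algebraMap K4 F ((δ i * d) ^ 2 * b)) (t := algebraMap K4 F (ν i : K4))
      (by rw [Ne, map_eq_zero]; exact hν'), ← e1]
    exact h1

end

end Pool.Agent.Lib.MP_1a91b9_ntDV
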