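import Pool.Agent.Lib.MP_1a91b9_ntDV.W9
import Pool.Agent.Lib.MP_1a91b9_ntDV.K3_14
import Pool.Agent.Lib.MP_1a91b9_ntDV.U0

/-!
# MP_1a91b9_nt (the divisor law, binomial form): the joint law for blocks of labels over `ℚ(√-2)`
-/

set_option autoImplicit false
set_option linter.unusedSectionVars false

namespace Pool.Agent.Lib.MP_1a91b9_ntDV

open Finset Pool.Agent.Lib.MP_1a91b9_ntH
open Pool.Agent.Lib.MP_1a91b9_ntQ hiding Pg
open Pool.Agent.Lib.MP_1a91b9_ntQ.Da Pool.Agent.Lib.MP_1a91b9_ntV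
open Pool.Agent.Lib.MP_1a91b9_ntW
open Pool.Agent.Lib.MP_1a91b9_ntZ (Atl bn bts bts_mono bts_ind bts_const)

noncomputable section

private theorem W11_cls {κ : Type} [Fintype κ] [DecidableEq κ] {D : Dat2 Pg κ} {B : Finset Pg}
    {γ' : κ ⊕ B → ZMod 2} (v : κ → ZMod 2) {S : Finset (Off B)} (hS : clN (D.off B) S = γ') :
    ∑ q ∈ up S, D.dg v q = ∑ i, v i * γ' (Sum.inl i) := by
  rw [sum_up]
  unfold Dat2.dg
  rw [sum_comm]
  refine sum_congr rfl fun i _ => ?_
  rw [← mul_sum, ← hS]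
  rfl

private theorem W11_sum_le (p : Prop) [Decidable p] {K : Finset (ZMod 2)} (hK : K.Nonempty) :
    cinf2 * ∑ i, uuJ p K i ≤ 1 := by
  have h0 := cinf2_pos'
  have h1 := cinf2_half
  rw [Fin.sum_univ_three]
  unfold uuJ
  by_cases hp : p
  · rw [if_pos hp]
    change cinf2 * (0 + 0 + 1) ≤ 1
    linarith
  · rw [if_neg hp]
    rcases K_cases K hK with ⟨h2, h3, h4⟩ | ⟨h2, h3, h4⟩ | ⟨h2, h3, h4⟩
    · rw [if_pos h2, if_pos h3]
      change cinf2 * (1 / 2 + 1 / 2 + -1 / 2) ≤ 1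
      linarith
    · rw [if_pos h2, if_neg h3]
      change cinf2 * (1 + 0 + 0) ≤ 1
      linarith
    · rw [if_neg h2]
      change cinf2 * (0 + 1 + 0) ≤ 1
      linarith

open Classical in
/-- The mean values of the products of the indicators of the good blocks of labels, in a class of the primes
outside `B` (as `GWJ_bin`). -/
theorem Pcl_GWJ {κ : Type} [Fintype κ] [DecidableEq κ] {D : Dat2 Pg κ} {w l : κ → ZMod 2}
    (h : Id8 D w l) (hD : OKw D w) {B : Finset Pg}
    (hB : ∀ (T : Finset Pg) (c : κ → ZMod 2), T ⊆ B → (T ≠ ∅ ∨ c ≠ 0) →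
      Mz B (fun q => e2 (D.ex1 T c q))) {n N : ℕ} (k j : Fin n → Fin N → ZMod 2)
    (T : Fin n → Fin N → Finset Pg) (hT : ∀ b i, T b i ⊆ B)
    (hinj : ∀ b, Function.Injective fun i => (k b i, j b i, T b i))
    (hdis : ∀ b b', b ≠ b' → ∀ i i', (j b i, T b i) ≠ (j b' i', T b' i'))
    (γ' : κ ⊕ B → ZMod 2) :
    ∃ v : Fin n → ℝ, (∀ b, cinf2 ^ N ≤ v b ∧ v b ≤ 1) ∧ ∀ J : Finset (Fin n),
      Pcl (D.off B) γ' (fun S => ∏ b ∈ J,
        if ∀ i, GW (k b i) (j b i) (up S ∪ T b i) ≠ 0 then (1 : ℝ) else 0) (∏ b ∈ J, v b) := by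
  set f : Fin n → Fin N → ZMod 2 × Finset Pg := fun b i => (j b i, T b i) with hf
  set K : ZMod 2 × Finset Pg → Finset (ZMod 2) := fun a =>
    (univ.filter fun x : Fin n × Fin N => f x.1 x.2 = a).image fun x => k x.1 x.2 with hKdef
  set I : Fin n → Finset (ZMod 2 × Finset Pg) := fun b => univ.image (f b) with hI
  have hKb : ∀ b, ∀ a ∈ I b, K a = (univ.filter fun i => f b i = a).image (k b) := by
    intro b a ha
    obtain ⟨i0, -, hi0⟩ := mem_image.1 ha
    ext z
    simp only [hKdef, mem_image, mem_filter, mem_univ, true_and]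
    constructor
    · rintro ⟨⟨b', i⟩, h1, rfl⟩
      by_cases hbb : b = b'
      · subst hbb
        exact ⟨i, h1, rfl⟩
      · exact absurd (hi0.trans h1.symm) (hdis b b' hbb i0 i)
    · rintro ⟨i, h1, rfl⟩
      exact ⟨(b, i), h1, rfl⟩
  have hK : ∀ b, ∀ a ∈ I b, (K a).Nonempty := by
    intro b a ha
    rw [hKb b a ha]
    obtain ⟨i, -, hi⟩ := mem_image.1 ha
    exact ⟨k b i, mem_image_of_mem (k b) (mem_filter.2 ⟨mem_univ i, hi⟩)⟩
  have hcard : ∀ b, ∑ a ∈ I b, (K a).card = N := by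
    intro b
    have h1 : ∀ a ∈ I b, (K a).card = (univ.filter fun i => f b i = a).card := by
      intro a ha
      rw [hKb b a ha]
      refine card_image_of_injOn fun i hi i' hi' hii => hinj b ?_
      have e1 : f b i = a := (mem_filter.1 (mem_coe.1 hi)).2
      have e2 : f b i' = a := (mem_filter.1 (mem_coe.1 hi')).2
      have e3 : f b i = f b i' := e1.trans e2.symm
      exact Prod.ext hii e3
    rw [sum_congr rfl h1, ← card_eq_sum_card_image, card_univ, Fintype.card_fin]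
  have hIT : ∀ b, ∀ a ∈ I b, a.2 ⊆ B := by
    intro b a ha
    obtain ⟨i, -, hi⟩ := mem_image.1 ha
    rw [← hi]
    exact hT b i
  have hIdis : ∀ b b', b ≠ b' → Disjoint (I b) (I b') := by
    intro b b' hbb
    rw [disjoint_left]
    intro a ha ha'
    obtain ⟨i, -, hi⟩ := mem_image.1 ha
    obtain ⟨i', -, hi'⟩ := mem_image.1 ha'
    exact hdis b b' hbb i i' (hi.trans hi'.symm)
  set αw : ZMod 2 := ∑ i, w i * γ' (Sum.inl i) with hαw
  set αl : ZMod 2 := ∑ i, l i * γ' (Sum.inl i) with hαl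
  set u : ZMod 2 × Finset Pg → Fin 3 → ℝ := fun a => uuJ (a.1 = 0 ∨ αw + AS a.2 = 1) (K a) with hu
  -- the functions and their mean values
  set F : Fin n → Finset (Off B) → ℝ := fun b S =>
    if ∀ i, GW (k b i) (j b i) (up S ∪ T b i) ≠ 0 then 1 else 0 with hF
  set v : Fin n → ℝ := fun b => ∏ a ∈ I b, (cinf2 * ∑ i, u a i) with hv
  have hFS : ∀ S : Finset (Off B), clN (D.off B) S = γ' → ∀ b, F b S = ∏ a ∈ I b, ∑ i, u a i *
      if dt D w l (fun q => rr q.1) a.1 (αl + lS a.2) (up S ∪ a.2) i ≠ 0 then (1 : ℝ) else 0 := by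
    intro S hS b
    have hprod : ∀ a ∈ I b, (∑ i, u a i *
        if dt D w l (fun q => rr q.1) a.1 (αl + lS a.2) (up S ∪ a.2) i ≠ 0
          then (1 : ℝ) else 0) =
        if ∀ kk ∈ K a, GW kk a.1 (up S ∪ a.2) ≠ 0 then 1 else 0 := by
      intro a ha
      have hds : Disjoint (up S) a.2 := disjoint_of_subset_right (hIT b a ha) (disj_up S)
      have hA : AS (up S ∪ a.2) = αw + AS a.2 := by
        rw [AS_union hds, hαw, ← W11_cls w hS]
        congr 1
        exact sum_congr rfl fun q _ => (h.ew q).symm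
      have hL : lS (up S ∪ a.2) = αl + lS a.2 := by
        rw [lS_union hds, hαl, ← W11_cls l hS]
        congr 1
        exact sum_congr rfl fun q _ => (h.el q).symm
      refine uuJ_ind _ (hK b a ha) (G := fun kk => GW kk a.1 (up S ∪ a.2)) (fun hp kk => ?_)
        (fun hp => ?_) (dt_add ..)
      · exact GW_two h (by rw [hA]; exact hp)
      · have hp' : ¬ (a.1 = 0 ∨ AS (up S ∪ a.2) = 1) := by
          rw [hA]
          exact hp
        have h1 := GW_zero h hp'
        have h2 := GW_one h hp'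
        rw [hL] at h1 h2
        exact ⟨h1, h2⟩
    rw [prod_congr rfl hprod]
    have hiff : (∀ i, GW (k b i) (j b i) (up S ∪ T b i) ≠ 0) ↔
        ∀ a ∈ I b, ∀ kk ∈ K a, GW kk a.1 (up S ∪ a.2) ≠ 0 := by
      constructor
      · intro h1 a ha kk hkk
        rw [hKb b a ha] at hkk
        obtain ⟨i, hi, rfl⟩ := mem_image.1 hkk
        have h2 : f b i = a := (mem_filter.1 hi).2
        rw [← h2]
        exact h1 i
      · intro h1 i
        have hm : f b i ∈ I b := mem_image_of_mem (f b) (mem_univ i)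
        refine h1 (f b i) hm (k b i) ?_
        rw [hKb b _ hm]
        exact mem_image_of_mem (k b) (mem_filter.2 ⟨mem_univ i, rfl⟩)
    simp only [hF]
    by_cases hall : ∀ i, GW (k b i) (j b i) (up S ∪ T b i) ≠ 0
    · rw [prod_eq_one fun a ha => if_pos (hiff.1 hall a ha)]
      exact if_pos hall
    · have h1 : ∃ a ∈ I b, ¬ ∀ kk ∈ K a, GW kk a.1 (up S ∪ a.2) ≠ 0 := by
        by_contra hcon
        exact hall (hiff.2 fun a ha => not_not.1 fun h2 => hcon ⟨a, ha, h2⟩)
      obtain ⟨a, ha, ha'⟩ := h1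
      rw [prod_eq_zero ha (if_neg ha')]
      exact if_neg hall
  have hc0 : 0 ≤ cinf2 := cinf2_pos'.le
  refine ⟨v, fun b => ⟨?_, ?_⟩, fun J => ?_⟩
  · have h9 : cinf2 ^ N = ∏ a ∈ I b, cinf2 ^ (K a).card :=
      (congrArg (fun n => cinf2 ^ n) (hcard b)).symm.trans (prod_pow_eq_pow_sum _ _ _).symm
    refine (le_of_eq h9).trans ?_
    exact prod_le_prod (fun a _ => pow_nonneg hc0 _) fun a ha => uuJ_sum _ (hK b a ha)
  · refine prod_le_one (fun a ha => ?_) fun a ha => W11_sum_le _ (hK b a ha)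
    exact (pow_nonneg hc0 _).trans (uuJ_sum _ (hK b a ha))
  · obtain ⟨AJ, hAJ⟩ : ∃ AJ : Finset (ZMod 2 × Finset Pg), AJ = J.biUnion I := ⟨_, rfl⟩
    have hmem : ∀ a ∈ AJ, ∃ b ∈ J, a ∈ I b := by
      intro a ha
      rw [hAJ] at ha
      exact mem_biUnion.1 ha
    have hTA : ∀ a : AJ, a.1.2 ⊆ B := by
      intro a
      obtain ⟨b, -, hb⟩ := hmem a.1 a.2
      exact hIT b _ hb
    have hm := Pcl_jd hD h.l0 h.lw hB (fun q => rr q.1) (A := AJ) (fun a => a.1.1)
      (T := fun a => a.1.2) hTA (fun a b h1 h2 => Subtype.ext (Prod.ext h1 h2))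
      (fun a => αl + lS a.1.2) γ' (fun a => u a.1)
    have hpw : (J : Set (Fin n)).PairwiseDisjoint I := fun b _ b' _ hbb => hIdis b b' hbb
    refine Pcl.congr (OKw_off hD hB).toOKt hm (fun S hS _ => ?_) ?_
    · rw [prod_congr rfl fun b _ => hFS S hS b, ← prod_biUnion hpw, ← hAJ]
      exact (prod_coe_sort AJ fun a => ∑ i, u a i *
        if dt D w l (fun q => rr q.1) a.1 (αl + lS a.2) (up S ∪ a.2) i ≠ 0
          then (1 : ℝ) else 0).symm
    · simp only [hv]
      rw [← prod_biUnion hpw, ← hAJ, prod_mul_distrib, prod_const, Fintype.card_coe]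
      congr 1
      exact (prod_coe_sort AJ fun a => ∑ i, u a i).symm

/-- **The joint law for blocks of labels, `ℚ(√-2)`.** -/
theorem jb8 : JB8 := by
  classical
  intro n N _ k j T B hT hinj hdis t
  choose v hv hP using Pcl_GWJ id8 okw8 (fun T c h1 h2 => mz8 B T c h1 h2) k j T hT hinj hdis
  obtain ⟨C1, h1⟩ := okw8.toOKt.an.cheb
  obtain ⟨C2, h2⟩ := okw8.toOKt.an.zt
  have hc0 : 0 ≤ cinf2 := cinf2_pos'.le
  have h3 : ∀ γ, Pcl (D8.off B) γ (fun S => bts univ t fun b : Fin n =>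
      if ∀ i, GW (k b i) (j b i) (up S ∪ T b i) ≠ 0 then (1 : ℝ) else 0)
      (bts univ t fun b => v γ b) := by
    intro γ
    have h := (limP_Pcl (D8.off B) γ).mean_bts
      (F := fun (b : Fin n) (S : Finset (Off B)) =>
        if ∀ i, GW (k b i) (j b i) (up S ∪ T b i) ≠ 0 then (1 : ℝ) else 0)
      (v := v γ) univ ∅ (disjoint_empty_left _) (fun J _ => hP γ J) t
    simp only [prod_empty, one_mul] at h
    exact h
  have h4 : ∀ γ, bn n t (cinf2 ^ N) ≤ bts univ t fun b : Fin n => v γ b := by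
    intro γ
    have e := bts_const (univ : Finset (Fin n)) t (cinf2 ^ N)
    rw [card_univ, Fintype.card_fin] at e
    rw [← e]
    exact bts_mono univ t (fun _ _ => pow_nonneg hc0 N) (fun b _ => (hv γ b).1)
      fun b _ => (hv γ b).2
  have h5 := AVr_of_Pcl' h3
  have h6 : bn n t (cinf2 ^ N) ≤
      (∑ γ, bts univ t fun b : Fin n => v γ b) / 2 ^ Fintype.card (Fin 2 ⊕ B) := by
    rw [le_div_iff₀ (by positivity)]
    calc bn n t (cinf2 ^ N) * 2 ^ Fintype.card (Fin 2 ⊕ B) =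
          ∑ _γ : (Fin 2 ⊕ B → ZMod 2), bn n t (cinf2 ^ N) := by
          rw [sum_const, card_univ, nsmul_eq_mul, Fintype.card_fun, ZMod.card, mul_comm]
          push_cast
          rfl
      _ ≤ ∑ γ, bts univ t fun b : Fin n => v γ b := sum_le_sum fun γ _ => h4 γ
  refine AVr.subL h1 h2 h6 (fun S => ?_) h5
  have e := bts_ind (fun b : Fin n => ∀ i, GW (k b i) (j b i) (up S ∪ T b i) ≠ 0) univ t
  refine Eq.trans ?_ (e.trans ?_)
  · refine congrArg (bts univ t) (funext fun b => ?_)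
    by_cases h : ∀ i, GW (k b i) (j b i) (up S ∪ T b i) ≠ 0
    · exact (if_pos h).trans (if_pos h).symm
    · exact (if_neg h).trans (if_neg h).symm
  · by_cases h : Atl t fun b => ∀ i, GW (k b i) (j b i) (up S ∪ T b i) ≠ 0
    · exact (if_pos h).trans (if_pos h).symm
    · exact (if_neg h).trans (if_neg h).symm

end

end Pool.Agent.Lib.MP_1a91b9_ntDV
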