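import Pool.Agent.Lib.MP_1a91b9_ntDV.P7
import Pool.Agent.Lib.MP_1a91b9_ntDV.W11
import Pool.Agent.Lib.MP_1a91b9_ntDV.K3_16
import Pool.Agent.Lib.MP_1a91b9_ntDV.K4_19
import Pool.Agent.Lib.MP_1a91b9_ntDV.U3
import Pool.Agent.Lib.MP_1a91b9_ntDV.U4
import Pool.Agent.Lib.MP_1a91b9_ntDV.U6
import Pool.Agent.Lib.MP_1a91b9_ntDV.U7
import Pool.Agent.Lib.MP_1a91b9_ntDV.U12

/-!
# MP_1a91b9_nt (the divisor law, binomial form): the laws over the four fields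
-/

set_option autoImplicit false

namespace Pool.Agent.Lib.MP_1a91b9_ntDV.Fin

open NumberField
open Pool.Agent.Lib.MP_1a91b9_ntI (K3)
open Pool.Agent.Lib.MP_1a91b9_ntW (K8)
open Pool.Agent.Lib.MP_1a91b9_ntV (K7 t7)
open Pool.Agent.Lib.MP_1a91b9_ntW.J (Cls2 ClsN cR cS cI cJ)

section
attribute [local instance 5000] Pool.Agent.Lib.MP_1a91b9_ntV.cd7

theorem law7 {d₀ : K7} (h : d₀ ≠ 0) : DBG K7 2 (fun _ => Cls2 K7) {1, -1}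
    (d₀ * (1 + (1 - (t7 : K7)) ^ 4)) (d₀ ^ 2 * (1 - (t7 : K7)) ^ 4) cS := dbg7 jb7 h

end

section
attribute [local instance 5000] Pool.Agent.Lib.MP_1a91b9_ntQ.cd4

theorem law4 {b : Pool.Agent.Lib.MP_1a91b9_ntQ.K4} (h : b ≠ 0) :
    DBG Pool.Agent.Lib.MP_1a91b9_ntQ.K4 4 (fun _ => Cls2 Pool.Agent.Lib.MP_1a91b9_ntQ.K4) {1, b} 0 b
      cR := dbg4 G4.jb4 h

end

section
attribute [local instance 5000] Pool.Agent.Lib.MP_1a91b9_ntW.cd8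

theorem law8 {e : K8} (he : e ≠ 0) :
    DBG K8 2 (fun _ => Cls2 K8) {1, -1} (4 * e) (2 * e ^ 2) cR :=
  dbg8 jb8 (by ring) (mul_ne_zero two_ne_zero (pow_ne_zero 2 he))

end

theorem law3 {e : K3} (he : e ≠ 0) :
    DBG K3 2 (fun F _ => ClsN K3 F) {1, -1} (-3 * e) (3 * e ^ 2) cI := dbg3b jb3 he

theorem law3' {e : K3} (he : e ≠ 0) :
    DBG K3 2 (fun _ => Cls2 K3) {1, -1} (-3 * e) (3 * e ^ 2) cJ := dbg3a jb3 jp3B he

end Pool.Agent.Lib.MP_1a91b9_ntDV.Fin
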