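import Pool.Agent.Lib.MP_1a91b9_ntDV.U13

/-!
# MP_1a91b9_nt (the divisor law, binomial form): the result
-/

set_option autoImplicit false

namespace Pool.Agent.Lib.MP_1a91b9_ntDV.Fin

open NumberField

open Classical in
/-- **The result.** -/
theorem fin_law (K : Type) [Field K] [NumberField K] (hK : Module.finrank ℚ K = 2)
    (E : WeierstrassCurve K) (hE : E.a₁ = 0 ∧ E.a₃ = 0 ∧ E.a₆ = 0) (hΔ : E.Δ ≠ 0) (j D : ℤ)
    (hjD : (j, D) ∈ [(0, -3), (54000, -3), (-12288000, -3), (1728, -4), (287496, -4), (-3375, -7),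
      (16581375, -7), (8000, -8), (-32768, -11), (-884736, -19), (-884736000, -43),
      (-147197952000, -67), (-262537412640768000, -163)])
    (hj : E.c₄ ^ 3 = j * E.Δ) (hD : ∃ s : K, s ^ 2 = D)
    (l : ℕ) (hl : l = 2 ∨ l = 4 ∧ ∃ i : K, i ^ 2 = -1)
    (F : Type) [Field F] [NumberField F] [Algebra K F]
    (hF : IntermediateField.adjoin K {x : F | ∃ c : K, x ^ l = algebraMap K F c} = ⊤)
    (T : Set (𝓞 K)) (h0 : 0 ∉ T)
    (hT : ∀ δ ∈ T, ∀ δ' ∈ T, δ ≠ δ' → ∀ e ∈ ({1, -1, E.a₄, -E.a₄} : Set K), ∀ x : F, x ≠ 0 →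
      x ^ 2 * algebraMap K F δ' ≠ algebraMap K F (e * δ))
    (n : ℕ) (m u : 𝓞 K) (hm : m ∣ 2 ^ n) (hu : ∀ q, Prime q → ¬ (q ^ 2 ∣ m ∧ q ^ 2 ∣ u)) (c : ℝ)
    (hc : c = cst K F) (t : ℕ) (v : ℝ)
    (hv : v = if T.Infinite then 1 else ∑ j ∈ Finset.Icc t T.ncard, (T.ncard.choose j : ℝ) *
      (c ^ Module.finrank K F) ^ j * (1 - c ^ Module.finrank K F) ^ (T.ncard - j))
    (ε : ℝ) (hε : 0 < ε) :
    ∀ᶠ X : ℝ in Filter.atTop, 1 - ε ≤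
      (Nat.card {A : 𝓞 K // Squarefree A ∧ m ∣ A - u ∧ |Algebra.norm ℤ A| ≤ X ∧
        (v - ε) * Nat.card {d : 𝓞 K // d ∣ A} ≤
          Nat.card {d : 𝓞 K // d ∣ A ∧ t ≤ {δ ∈ T | PropR E F (δ * d)}.encard}} : ℝ) /
        (Nat.card {A : 𝓞 K // Squarefree A ∧ m ∣ A - u ∧ |Algebra.norm ℤ A| ≤ X} : ℝ) :=
  fin_divB (fun h => law4 h) (fun h => law8 h) (fun h => law7 h) (fun h => law3 h) (fun h => law3' h)
    K hK E hE hΔ j D hjD hj hD l hl F hF T h0 hT n m u hm hu c hc t v hv ε hε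

end Pool.Agent.Lib.MP_1a91b9_ntDV.Fin
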