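import Pool.Agent.Lib.MP_1a91b9_ntZ.D3Q
import Pool.Agent.Lib.MP_1a91b9_ntDV.U0
import Pool.Agent.Lib.MP_1a91b9_ntDV.U2

/-!
# MP_1a91b9_nt (the divisor law, binomial form), `ℚ(√-3)`: the law for the divisors
-/

set_option autoImplicit false
set_option linter.unusedSectionVars false

namespace Pool.Agent.Lib.MP_1a91b9_ntDV

open NumberField Finset Pool.Agent.Lib.MP_1a91b9_ntT Pool.Agent.Lib.MP_1a91b9_ntH
  Pool.Agent.Lib.MP_1a91b9_ntH2 Pool.Agent.Lib.MP_1a91b9_ntE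
open Pool.Agent.Lib.MP_1a91b9_ntP (GdE)
open Pool.Agent.Lib.MP_1a91b9_ntN.G
open Pool.Agent.Lib.MP_1a91b9_ntS.G (FamI)
open Pool.Agent.Lib.MP_1a91b9_ntZ (Atl bn)
open Pool.Agent.Lib.MP_1a91b9_ntZ.D3 (exists_lab)

noncomputable section

variable {I : Type} [Fintype I] [DecidableEq I] {μ : I → 𝓞 K} {b : I → Bool} {jj : I → ℕ}
  {cc : I → F4}

/-- The label of `a * d`. -/
theorem lab3 (H : Fm3 μ b jj cc) (j : I) {a s : 𝓞 K} {f : Bool} {c : F4} {T B' B S : Finset Pq}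
    (hT : a = phE f c T * s ^ 2) (hs : s ≠ 0) (hTB : T ⊆ B) (hB' : B' ⊆ B) (hS : Disjoint S B)
    (h : GdE (xor (b j) f) (qd.A B' + cc j + c + qd.A S) (S ∪ symmDiff B' T)) :
    ∃ (f : Bool) (c : F4) (U : Finset Pq) (r : 𝓞 K), r ≠ 0 ∧
      a * (μ j * DD (S ∪ B')) = phE f c U * r ^ 2 ∧ GdE f c U := by
  have hd : Disjoint S B' := disjoint_of_subset_right hB' hS
  obtain ⟨t, h3, h4⟩ := phE_mul (b j) f (qd.A (S ∪ B') + cc j) c (S ∪ B') T
  have e1 : symmDiff (S ∪ B') T = S ∪ symmDiff B' T := by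
    rw [union_comm S B']
    exact symm_unionE hTB hB' hS
  refine ⟨xor (b j) f, qd.A (S ∪ B') + cc j + c, S ∪ symmDiff B' T,
    t * s * wO ^ (2 * jj j), mul_ne_zero (mul_ne_zero h3 hs) (wO_pow_ne _), ?_, ?_⟩
  · have e : μ j * DD (S ∪ B') = wO ^ jj j * phE (b j) (qd.A (S ∪ B') + cc j) (S ∪ B') :=
      H.lab j _
    rw [e, hT, wO_pow_sq (jj j), mul_pow, mul_pow, ← e1]
    linear_combination s ^ 2 * (wO ^ (2 * jj j)) ^ 2 * h4
  · have e2 : qd.A (S ∪ B') + cc j + c = qd.A B' + cc j + c + qd.A S := by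
      rw [A_union hd]
      abel
    rw [e2]
    exact h

/-- **No two of the `a` are equal up to sign modulo squares.** -/
theorem div3B (H : Fm3 μ b jj cc) (hJ : JB3) {k N : ℕ} (hN : 0 < N)
    {a : Fin k → Fin N → 𝓞 K} (hne : ∀ i n, a i n ≠ 0)
    (hdis : ∀ i n i' n', (i, n) ≠ (i', n') →
      ¬ ∃ y : K, y ^ 2 = (a i n : K) * a i' n' ∨ y ^ 2 = -((a i n : K) * a i' n'))
    {m u : 𝓞 K} {n : ℕ} (hm : m ∣ 2 ^ n) (hu : ¬ (4 ∣ m ∧ 4 ∣ u)) (t : ℕ) (Pr : 𝓞 K → Prop)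
    (hPr : ∀ d : 𝓞 K, Squarefree d → (Atl t fun i => ∀ n, ∃ (f : Bool) (c : F4) (S : Finset Pq)
      (r : 𝓞 K), r ≠ 0 ∧ a i n * d = phE f c S * r ^ 2 ∧ GdE f c S) → Pr d)
    : DivG (𝓞 K) m u Pr (bn k t (Da.cinf ^ N)) := by
  classical
  obtain ⟨fk, ck, T, s, hs, hT⟩ := exists_lab hne
  have hTB : ∀ i n, T i n ⊆ univ.biUnion fun i => univ.biUnion (T i) := fun i n =>
    (subset_biUnion_of_mem (T i) (mem_univ n)).trans
      (subset_biUnion_of_mem (fun i => univ.biUnion (T i)) (mem_univ i))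
  have hinj : ∀ i n i' n', fk i n = fk i' n' → F4.tr (ck i n) = F4.tr (ck i' n') →
      T i n = T i' n' → (i, n) = (i', n') := by
    intro i n i' n' e1 e2 e3
    by_contra hii
    apply hdis i n i' n' hii
    refine ⟨((phE (fk i n) (ck i' n') (T i n) * (s i n * s i' n') : 𝓞 K) : K), ?_⟩
    rcases tr_eq_iffE e2 with e4 | e4
    · left
      have h2 : (phE (fk i n) (ck i' n') (T i n) * (s i n * s i' n')) ^ 2 = a i n * a i' n' := by
        conv_rhs => rw [hT i n, hT i' n', ← e1, e4, ← e3]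
        ring
      exact_mod_cast congrArg (fun z : 𝓞 K => (z : K)) h2
    · right
      have h2 : (phE (fk i n) (ck i' n') (T i n) * (s i n * s i' n')) ^ 2 =
          -(a i n * a i' n') := by
        conv_rhs => rw [hT i n, hT i' n', ← e1, e4, ← e3, phE_add_one]
        ring
      exact_mod_cast congrArg (fun z : 𝓞 K => (z : K)) h2
  have hne0 : Nonempty (Fin N) := ⟨⟨0, hN⟩⟩
  refine (rep3 H).law few3 (pos3 H hm hu) Pr (bn k t (Da.cinf ^ N)) fun j => ?_
  refine SubL.glue (B := univ.biUnion fun i => univ.biUnion (T i)) fun B' hB' => ?_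
  refine SubL.mono (hJ k (fun _ => Fin N) (fun i n => xor (b j) (fk i n))
    (fun i n => qd.A B' + cc j + ck i n) (fun i n => symmDiff B' (T i n))
    (univ.biUnion fun i => univ.biUnion (T i)) (fun i n => ?_) ?_ (Da.cinf ^ N)
    (pow_nonneg cinf_pos.le _) (fun i => by rw [Fintype.card_fin]) t) fun S hS h2 => ?_
  · intro q hq
    rw [mem_symmDiff] at hq
    rcases hq with hq | hq
    · exact hB' hq.1
    · exact hTB i n hq.1
  · rintro ⟨i, n⟩ ⟨i', n'⟩ h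
    simp only [Prod.mk.injEq] at h
    have h5 := hinj i n i' n' (xor_cancelE h.1) (tr_cancelE h.2.1) (symmDiff_cancelE h.2.2)
    simp only [Prod.mk.injEq] at h5
    obtain ⟨rfl, rfl⟩ := h5
    rfl
  · refine hPr _ (H.fam.sqf j (S ∪ B')) (h2.mono fun i h2 k => ?_)
    exact lab3 H j (hT i k) (hs i k) (hTB i k) hB' hS (h2 k)

/-- **The blocks of the `a` are closed under the multiplication by `-1` modulo squares.** -/
theorem div3P (H : Fm3 μ b jj cc) (hP : JP3) {k N : ℕ} (hN : 0 < N)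
    {a : Fin k → Fin N → 𝓞 K} (hne : ∀ i n, a i n ≠ 0)
    (hdis : ∀ i n i' n', (i, n) ≠ (i', n') → ¬ ∃ y : K, y ^ 2 = (a i n : K) * a i' n')
    (hneg : ∀ i n, ∃ (n' : Fin N) (z : K), z ≠ 0 ∧ -(a i n : K) = a i n' * z ^ 2)
    {m u : 𝓞 K} {n : ℕ} (hm : m ∣ 2 ^ n) (hu : ¬ (4 ∣ m ∧ 4 ∣ u)) (t : ℕ) (Pr : 𝓞 K → Prop)
    (hPr : ∀ d : 𝓞 K, Squarefree d → (Atl t fun i => ∀ n, ∃ (f : Bool) (c : F4) (S : Finset Pq)
      (r : 𝓞 K), r ≠ 0 ∧ a i n * d = phE f c S * r ^ 2 ∧ GdE f c S) → Pr d)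
    : DivG (𝓞 K) m u Pr (bn k t (cS3 ^ N)) := by
  classical
  obtain ⟨fk, ck, T, s, hs, hT⟩ := exists_lab hne
  have hTB : ∀ i n, T i n ⊆ univ.biUnion fun i => univ.biUnion (T i) := fun i n =>
    (subset_biUnion_of_mem (T i) (mem_univ n)).trans
      (subset_biUnion_of_mem (fun i => univ.biUnion (T i)) (mem_univ i))
  have hsK : ∀ i n, ((s i n : 𝓞 K) : K) ≠ 0 := fun i n => by exact_mod_cast hs i n
  have hTK : ∀ i n, ((a i n : 𝓞 K) : K) =
      ((phE (fk i n) (ck i n) (T i n) : 𝓞 K) : K) * ((s i n : 𝓞 K) : K) ^ 2 := by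
    intro i n
    exact_mod_cast congrArg (fun z : 𝓞 K => (z : K)) (hT i n)
  have hsame : ∀ i n i' n', fk i n = fk i' n' → ck i n = ck i' n' → T i n = T i' n' →
      (i, n) = (i', n') := by
    intro i n i' n' e1 e2 e3
    by_contra hii
    apply hdis i n i' n' hii
    refine ⟨((phE (fk i n) (ck i n) (T i n) * (s i n * s i' n') : 𝓞 K) : K), ?_⟩
    have h2 : (phE (fk i n) (ck i n) (T i n) * (s i n * s i' n')) ^ 2 = a i n * a i' n' := by
      conv_rhs => rw [hT i n, hT i' n', ← e1, ← e2, ← e3]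
      ring
    exact_mod_cast congrArg (fun z : 𝓞 K => (z : K)) h2
  have hlab : ∀ i, LabS (fk i) (ck i) (T i) := by
    intro i
    refine ⟨fun n n' e1 e2 e3 => congrArg Prod.snd (hsame i n i n' e1 e2 e3), ?_⟩
    intro n
    obtain ⟨l, z, hz, h2⟩ := hneg i n
    have h3 : ((phE (fk i n) (ck i n + 1) (T i n) : 𝓞 K) : K) *
        (((s i n : 𝓞 K) : K) / (((s i l : 𝓞 K) : K) * z)) ^ 2 =
        ((phE (fk i l) (ck i l) (T i l) : 𝓞 K) : K) := by
      have e0 : ((phE (fk i n) (ck i n + 1) (T i n) : 𝓞 K) : K) =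
          -((phE (fk i n) (ck i n) (T i n) : 𝓞 K) : K) := by
        rw [phE_add_one]
        push_cast
        ring
      rw [hTK i n, hTK i l] at h2
      rw [e0, div_pow, ← mul_div_assoc, div_eq_iff (pow_ne_zero 2 (mul_ne_zero (hsK i l) hz))]
      linear_combination h2
    obtain ⟨h4, h5, h6⟩ := phE_uniq h3
    exact ⟨l, h4.symm, h5.symm, h6.symm⟩
  have hX : ∀ i i' n n', i ≠ i' → ¬ (fk i n = fk i' n' ∧ ck i n = ck i' n' ∧ T i n = T i' n') :=
    fun i i' n n' hii h => hii (congrArg Prod.fst (hsame i n i' n' h.1 h.2.1 h.2.2))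
  have hc0 : 0 ≤ cS3 ^ N := pow_nonneg (Real.sqrt_nonneg _) _
  have hne0 : ∀ i, Nonempty (Rp (ck i)) := fun i => by
    have h1 := (hlab i).card
    exact Fintype.card_pos_iff.1 (by omega)
  choose σ g1 g2 g3 using fun i => (hlab i).sgn
  refine (rep3 H).law few3 (pos3 H hm hu) Pr (bn k t (cS3 ^ N)) fun j => ?_
  refine SubL.glue (B := univ.biUnion fun i => univ.biUnion (T i)) fun B' hB' => ?_
  refine SubL.mono (hP k (fun i => Rp (ck i)) (fun i n => xor (b j) (fk i n.1))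
    (fun i n => qd.A B' + cc j + ck i n.1) (fun i n => symmDiff B' (T i n.1))
    (univ.biUnion fun i => univ.biUnion (T i)) (fun i n => ?_) ?_ (cS3 ^ N) hc0
    (fun i => (hlab i).le_PiP (b j)) t) fun S hS h2 => ?_
  · intro q hq
    rw [mem_symmDiff] at hq
    rcases hq with hq | hq
    · exact hB' hq.1
    · exact hTB i _ hq.1
  · rintro ⟨i, n⟩ ⟨i', n'⟩ h4
    simp only [Prod.mk.injEq] at h4
    have h5 := tr_cancelE h4.2.1
    have h6 := (f4_a n.2 n'.2).2.2 h5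
    have h7 := xor_cancelE h4.1
    have h8 := symmDiff_cancelE h4.2.2
    by_cases hii : i = i'
    · subst hii
      have h9 : n = n' := Subtype.ext ((hlab i).inj _ _ h7 h6 h8)
      rw [h9]
    · exact absurd ⟨h7, h6, h8⟩ (hX i i' n.1 n'.1 hii)
  · refine hPr _ (H.fam.sqf j (S ∪ B')) (h2.mono fun i h2 n => ?_)
    refine lab3 H j (hT i n) (hs i n) (hTB i n) hB' hS ?_
    by_cases hi : (ck i n).a = 0
    · exact (h2 ⟨n, hi⟩).1
    · have hi' : (ck i (σ i n)).a = 0 := by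
        rw [g2]
        exact f4_b hi
      have h6 := (h2 ⟨σ i n, hi'⟩).2
      simp only at h6
      rw [g1, g2, g3] at h6
      have e : qd.A B' + cc j + (ck i n + 1) + 1 + qd.A S = qd.A B' + cc j + ck i n + qd.A S := by
        have h7 := f4_c (ck i n)
        calc qd.A B' + cc j + (ck i n + 1) + 1 + qd.A S
            = qd.A B' + cc j + (ck i n + 1 + 1) + qd.A S := by abel
          _ = _ := by rw [h7]
      rw [e] at h6
      exact h6

end

end Pool.Agent.Lib.MP_1a91b9_ntDV
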