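import Pool.Agent.Lib.MP_1a91b9_ntB.S.Brg
import Pool.Agent.Lib.MP_1a91b9_ntDV.U2

/-!
# MP_1a91b9_nt (the divisor law, binomial form): finite sets of multipliers, transport
-/

set_option autoImplicit false

namespace Pool.Agent.Lib.MP_1a91b9_ntDV

open NumberField
open Pool.Agent.Lib.MP_1a91b9_ntW.J (RkZ Cls2)
open Pool.Agent.Lib.MP_1a91b9_ntZ (bn Atl SepF)
open Pool.Agent.Lib.MP_1a91b9_ntB (SepU Sep crF mapΔ mem_mapΔ card_mapΔ filter_mapΔ)

noncomputable section

open Classical in
/-- The result for the multiples by the elements of finite sets, over the extensions generated by `l`-th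
roots, for classes which may depend on the extension. -/
def DMB (K : Type) [Field K] [NumberField K] (l : ℕ)
    (H : (F : Type) → [Field F] → 𝓞 K → 𝓞 K → Prop) (a b : K) (c : ℝ) : Prop :=
  ∀ (F : Type) [Field F] [NumberField F] [Algebra K F],
    IntermediateField.adjoin K {x : F | ∃ c : K, x ^ l = algebraMap K F c} = ⊤ →
    ∀ Δ : Finset (𝓞 K), Sep F b Δ → ∀ (t : ℕ) (m u : 𝓞 K), H F m u →
    DivG (𝓞 K) m u (fun d => t ≤ (Δ.filter fun δ => RkZ (crF F a b (d * δ))).card)
      (bn Δ.card t (c ^ Module.finrank K F))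

open Classical in
/-- **Transport of the result.** -/
theorem DMB.tr {K K' : Type} [Field K] [NumberField K] [Field K'] [NumberField K']
    (e : K' ≃+* K) {l : ℕ} {H' : (F : Type) → [Field F] → 𝓞 K' → 𝓞 K' → Prop}
    {H : (F : Type) → [Field F] → 𝓞 K → 𝓞 K → Prop}
    (hH : ∀ (F : Type) [Field F] (m u : 𝓞 K), H F m u → H' F ((RingOfIntegers.mapRingEquiv e).symm m)
      ((RingOfIntegers.mapRingEquiv e).symm u))
    {a b : K'} {c : ℝ} (h : DMB K' l H' a b c) : DMB K l H (e a) (e b) c := by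
  intro F _ _ _ hF Δ hΔ t m u hmu
  let _ : Algebra K' F := ((algebraMap K F).comp (e : K' →+* K)).toAlgebra
  have hal : ∀ y : K', algebraMap K' F y = algebraMap K F (e y) := fun _ => rfl
  have hF' : IntermediateField.adjoin K' {x : F | ∃ c : K', x ^ l = algebraMap K' F c} = ⊤ := by
    have hset : {x : F | ∃ c : K', x ^ l = algebraMap K' F c} =
        {x : F | ∃ c : K, x ^ l = algebraMap K F c} := by
      ext x
      constructor
      · rintro ⟨c, hc⟩
        exact ⟨e c, hc⟩
      · rintro ⟨c, hc⟩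
        refine ⟨e.symm c, ?_⟩
        rw [hal, e.apply_symm_apply, hc]
    rw [eq_top_iff]
    intro x _
    have hx : x ∈ IntermediateField.adjoin K {x : F | ∃ c : K, x ^ l = algebraMap K F c} := by
      rw [hF]
      exact IntermediateField.mem_top
    rw [hset]
    rw [← IntermediateField.mem_toSubfield, IntermediateField.adjoin_toSubfield] at hx ⊢
    have hr : Set.range (algebraMap K' F) = Set.range (algebraMap K F) := by
      ext y
      constructor
      · rintro ⟨z, rfl⟩
        exact ⟨e z, rfl⟩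
      · rintro ⟨z, rfl⟩
        exact ⟨e.symm z, by rw [hal, e.apply_symm_apply]⟩
    rw [hr]
    exact hx
  have hfin : Module.finrank K' F = Module.finrank K F := by
    have h1 : Module.finrank ℚ K' * Module.finrank K' F = Module.finrank ℚ F :=
      Module.finrank_mul_finrank ℚ K' F
    have h2 : Module.finrank ℚ K * Module.finrank K F = Module.finrank ℚ F :=
      Module.finrank_mul_finrank ℚ K F
    have h3 : Module.finrank ℚ K' = Module.finrank ℚ K :=
      (RingEquiv.toRatAlgEquiv e).toLinearEquiv.finrank_eq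
    rw [← h2, ← h3] at h1
    exact Nat.eq_of_mul_eq_mul_left Module.finrank_pos h1
  obtain ⟨e', he'⟩ : ∃ e' : K ≃+* K', e' = e.symm := ⟨_, rfl⟩
  have hre : ∀ x : 𝓞 K, RingOfIntegers.mapRingEquiv e (RingOfIntegers.mapRingEquiv e' x) = x := by
    intro x
    apply RingOfIntegers.ext
    rw [RingOfIntegers.mapRingEquiv_apply, RingOfIntegers.mapRingEquiv_apply, he',
      e.apply_symm_apply]
  have hU : ∀ x : K', SepU F (e x) Δ → SepU F x (mapΔ e' Δ) := by
    intro x hx δ₁ h1 δ₂ h2 hne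
    obtain ⟨δ, hδ, rfl⟩ := (mem_mapΔ e').1 h1
    obtain ⟨δ', hδ', rfl⟩ := (mem_mapΔ e').1 h2
    have hne' : δ ≠ δ' := fun h => hne (by rw [h])
    have h3 := hx δ hδ δ' hδ' hne'
    have e1 : e (x * ((RingOfIntegers.mapRingEquiv e' δ * RingOfIntegers.mapRingEquiv e' δ' :
        𝓞 K') : K')) = e x * ((δ * δ' : 𝓞 K) : K) := by
      rw [map_mul, ← map_mul (RingOfIntegers.mapRingEquiv e'), RingOfIntegers.mapRingEquiv_apply,
        he', e.apply_symm_apply]
    rw [hal, hal, map_neg e, e1]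
    exact h3
  have hΔ' : Sep F b (mapΔ e' Δ) := by
    refine ⟨fun δ₁ h1 h0 => ?_, hU 1 ?_, hU b hΔ.mul⟩
    · obtain ⟨δ, hδ, rfl⟩ := (mem_mapΔ e').1 h1
      exact hΔ.ne δ hδ ((map_eq_zero_iff _ (RingOfIntegers.mapRingEquiv e').injective).1 h0)
    · rw [map_one]
      exact hΔ.one
  have h1 := h F hF' (mapΔ e' Δ) hΔ' t ((RingOfIntegers.mapRingEquiv e).symm m)
    ((RingOfIntegers.mapRingEquiv e).symm u) (hH F m u hmu)
  rw [hfin, card_mapΔ] at h1
  refine DivG.tr e ?_
  have e2 : (fun d : 𝓞 K' => t ≤ (Δ.filter fun δ => RkZ (crF F (e a) (e b)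
        (RingOfIntegers.mapRingEquiv e d * δ))).card) =
      fun d : 𝓞 K' => t ≤ ((mapΔ e' Δ).filter fun δ => RkZ (crF F a b (d * δ))).card := by
    funext d
    rw [filter_mapΔ]
    have e3 : ∀ δ : 𝓞 K, crF F (e a) (e b) (RingOfIntegers.mapRingEquiv e d * δ) =
        crF F a b (d * RingOfIntegers.mapRingEquiv e' δ) := by
      intro δ
      have e4 : ((RingOfIntegers.mapRingEquiv e d * δ : 𝓞 K) : K) =
          e ((d * RingOfIntegers.mapRingEquiv e' δ : 𝓞 K') : K') := by
        rw [← RingOfIntegers.mapRingEquiv_apply, map_mul (RingOfIntegers.mapRingEquiv e), hre]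
      unfold crF
      rw [hal, hal, e4, map_mul e, map_mul e, map_pow e]
    simp only [e3]
  rw [e2]
  exact h1

open Classical in
/-- **From families to finite sets.** -/
theorem DMB.of_dbg {K : Type} [Field K] [NumberField K] {l : ℕ}
    {H : (F : Type) → [Field F] → 𝓞 K → 𝓞 K → Prop} {E : Set K} {a b : K} {c : ℝ}
    (hE : ∀ e ∈ E, e = 1 ∨ e = -1 ∨ e = b ∨ e = -b) (h : DBG K l H E a b c) :
    DMB K l H a b c := by
  intro F _ _ _ hF Δ hΔ t m u hmu
  obtain ⟨g, hg⟩ : ∃ g : Fin Δ.card ≃ Δ, g = Δ.equivFin.symm := ⟨_, rfl⟩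
  have hsep : SepF K F E (fun i : Fin Δ.card => ((g i : 𝓞 K) : K)) := by
    refine ⟨fun i h0 => hΔ.ne _ (g i).2 (RingOfIntegers.coe_eq_zero_iff.1 h0),
      fun i j hij e he => ?_⟩
    have hne : ((g i : 𝓞 K)) ≠ ((g j : 𝓞 K)) := fun h1 => hij (g.injective (Subtype.ext h1))
    have e1 : ((g i : 𝓞 K) : K) * ((g j : 𝓞 K) : K) = (((g i : 𝓞 K) * (g j : 𝓞 K) : 𝓞 K) : K) := by
      push_cast
      rfl
    rintro ⟨x, hx⟩
    have hx' : IsSquare (algebraMap K F (e * (((g i : 𝓞 K) * (g j : 𝓞 K) : 𝓞 K) : K))) :=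
      ⟨x, by rw [← e1, ← hx, sq]⟩
    have k1 := hΔ.one _ (g i).2 _ (g j).2 hne
    have k2 := hΔ.mul _ (g i).2 _ (g j).2 hne
    rcases hE e he with rfl | rfl | rfl | rfl
    · exact k1.1 hx'
    · rw [neg_one_mul] at hx'
      rw [one_mul] at k1
      exact k1.2 hx'
    · exact k2.1 hx'
    · rw [neg_mul] at hx'
      exact k2.2 hx'
  have h1 := h F hF m u hmu Δ.card (fun i => ((g i : 𝓞 K) : K)) hsep t
  have e2 : (fun d : 𝓞 K => t ≤ (Δ.filter fun δ => RkZ (crF F a b (d * δ))).card) =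
      fun d : 𝓞 K => Atl t fun i : Fin Δ.card => RkZ (⟨0, algebraMap K F (((g i : 𝓞 K) : K) * d * a),
        0, algebraMap K F ((((g i : 𝓞 K) : K) * d) ^ 2 * b), 0⟩ : WeierstrassCurve F) := by
    funext d
    unfold Atl
    have e3 : (Δ.filter fun δ => RkZ (crF F a b (d * δ))).card =
        (Finset.univ.filter fun i : Fin Δ.card => RkZ (⟨0, algebraMap K F (((g i : 𝓞 K) : K) * d * a),
          0, algebraMap K F ((((g i : 𝓞 K) : K) * d) ^ 2 * b), 0⟩ : WeierstrassCurve F)).card := by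
      symm
      refine Finset.card_bij (fun i _ => ((g i : Δ) : 𝓞 K)) (fun i hi => ?_) (fun i _ j _ hij => ?_)
        (fun δ hδ => ?_)
      · rw [Finset.mem_filter] at hi ⊢
        refine ⟨(g i).2, ?_⟩
        have e4 : crF F a b (d * (g i : 𝓞 K)) = ⟨0, algebraMap K F (((g i : 𝓞 K) : K) * d * a), 0,
            algebraMap K F ((((g i : 𝓞 K) : K) * d) ^ 2 * b), 0⟩ := by
          unfold crF
          have e5 : ((d * (g i : 𝓞 K) : 𝓞 K) : K) = ((g i : 𝓞 K) : K) * d := by
            push_cast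
            ring
          rw [e5]
        rw [e4]
        exact hi.2
      · exact g.injective (Subtype.ext hij)
      · rw [Finset.mem_filter] at hδ
        refine ⟨g.symm ⟨δ, hδ.1⟩, ?_, ?_⟩
        · rw [Finset.mem_filter]
          refine ⟨Finset.mem_univ _, ?_⟩
          rw [Equiv.apply_symm_apply]
          have e4 : crF F a b (d * δ) = ⟨0, algebraMap K F ((δ : K) * d * a), 0,
              algebraMap K F (((δ : K) * d) ^ 2 * b), 0⟩ := by
            unfold crF
            have e5 : ((d * δ : 𝓞 K) : K) = (δ : K) * d := by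
              push_cast
              ring
            rw [e5]
          rw [← e4]
          exact hδ.2
        · rw [Equiv.apply_symm_apply]
    rw [e3]
  rw [e2]
  exact h1

end

end Pool.Agent.Lib.MP_1a91b9_ntDV
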