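import Pool.Agent.Lib.MP_1a91b9_ntB.S.KStB
import Pool.Agent.Lib.MP_1a91b9_ntDV.U8

/-!
# MP_1a91b9_nt (the divisor law, binomial form): from the standard models to all the curves
-/

set_option autoImplicit false

namespace Pool.Agent.Lib.MP_1a91b9_ntDV

open NumberField WeierstrassCurve
open Pool.Agent.Lib.MP_1a91b9_ntW.J (RkZ Cls2 ClsN twd twd_vc twd_crv twd_hasJ hasJ_map Inv2
  cR cS cI cJ to_int iso_K4 crv_disc hasJ_crv_iff)
open Pool.Agent.Lib.MP_1a91b9_nuI (HasJ)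
open Pool.Agent.Lib.MP_1a91b9_ntL (crv)
open Pool.Agent.Lib.MP_1a91b9_ntI (excl1 excl2 excl3 excl4 excl5 excl6 th7 nsf_i nsf_s sf_t np_t
  prime_w emp_t K3 iso_w3)
open Pool.Agent.Lib.MP_1a91b9_ntQ (K4)
open Pool.Agent.Lib.MP_1a91b9_ntY (CMK Pt2)
open Pool.Agent.Lib.MP_1a91b9_ntZ (bn)
open Pool.Agent.Lib.MP_1a91b9_ntW (K8 lam8 lam8_sq)
open Pool.Agent.Lib.MP_1a91b9_ntV (K7 t7)

open Pool.Agent.Lib.MP_1a91b9_ntB (SepU Sep crF crF_eq mapΔ mem_mapΔ card_mapΔ filter_mapΔ cntB cntB_crv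
  SepU.congr SepU.of_eq crv_zero_cases rk_isg exists_iso3 crv21)

noncomputable section

section
variable {K : Type} [Field K] [NumberField K]

/-- The property of `W`. The condition on `Δ` for the curves `y² = x³ + b x`. -/
def DQB (F : Type) [Field F] [NumberField F] [Algebra K F] (Δ : Finset (𝓞 K)) (t : ℕ) (m u : 𝓞 K)
    (c : ℝ) (W : WeierstrassCurve K) : Prop :=
  (∀ (C : VariableChange K) (b : K), b ≠ 0 → C • W = crv 0 b → SepU F b Δ) →
    DivG (𝓞 K) m u (fun d => t ≤ cntB F Δ W d) c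

open Classical in
/-- **The property is invariant.** -/
theorem inv2_DQB (F : Type) [Field F] [NumberField F] [Algebra K F] {Δ : Finset (𝓞 K)}
    (hΔ : SepU F (1 : K) Δ) (t : ℕ) (m u : 𝓞 K) (c : ℝ) :
    Inv2 (DQB F Δ t m u c : WeierstrassCurve K → Prop) where
  vc := by
    intro W j hj C h1 h0
    have h2 := h1 (fun C' b hb hC' => h0 (C' * C) b hb (by rw [mul_smul]; exact hC'))
    have e : (fun d : 𝓞 K => t ≤ cntB F Δ (C • W) d) = fun d : 𝓞 K => t ≤ cntB F Δ W d := by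
      funext d
      have e1 : cntB F Δ (C • W) d = cntB F Δ W d := by
        unfold cntB
        refine congrArg Finset.card (Finset.filter_congr fun δ _ => ?_)
        rw [← twd_vc W C, ← WeierstrassCurve.map_variableChange]
        exact Pool.Agent.Lib.MP_1a91b9_ntW.J.RkZ.vc (hasJ_map _ (twd_hasJ hj _)) _
      rw [e1]
    rw [e] at h2
    exact h2
  isg := by
    intro a b j j' hb hb' hj hj' h1 h0
    have h2 := h1 (fun C' b₀ hb₀ hC' => by
      rcases crv_zero_cases hC' with ⟨ha, z, hz, hbz⟩ | ⟨z, hz⟩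
      · subst ha
        have h3 := h0 1 ((0 : K) ^ 2 - 4 * b) hb' (by rw [one_smul, mul_zero])
        refine h3.of_eq (z := 2 * z) (mul_ne_zero two_ne_zero hz) ?_
        right
        rw [hbz]
        ring
      · have hz0 : z ≠ 0 := by
          rintro rfl
          exact hb₀ (by rw [hz]; ring)
        refine hΔ.congr hz0 ?_
        right
        rw [hz]
        ring)
    have e : (fun d : 𝓞 K => t ≤ cntB F Δ (crv (-2 * a) (a ^ 2 - 4 * b)) d) =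
        fun d : 𝓞 K => t ≤ cntB F Δ (crv a b) d := by
      funext d
      have e1 : cntB F Δ (crv (-2 * a) (a ^ 2 - 4 * b)) d = cntB F Δ (crv a b) d := by
        rw [cntB_crv, cntB_crv]
        refine congrArg Finset.card (Finset.filter_congr fun δ _ => ?_)
        exact rk_isg F hb hb' hj hj' _
      rw [e1]
    rw [e]
    exact h2

end

/-- square roots are fourth roots -/
theorem DMB.two_of_four {K : Type} [Field K] [NumberField K]
    {H : (F : Type) → [Field F] → 𝓞 K → 𝓞 K → Prop} {a b : K} {c : ℝ} (h : DMB K 4 H a b c) :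
    DMB K 2 H a b c := by
  intro F _ _ _ hF Δ hΔ t m u hmu
  refine h F ?_ Δ hΔ t m u hmu
  rw [eq_top_iff, ← hF]
  refine IntermediateField.adjoin.mono K _ _ ?_
  rintro x ⟨a, ha⟩
  refine ⟨a ^ 2, ?_⟩
  rw [map_pow, ← ha]
  ring

/-! ### From the standard models -/

/-- over a field generated by a square root of `-1` -/
theorem db4_of (h : ∀ {b : K4}, b ≠ 0 → DMB K4 4 (fun _ => Cls2 K4) 0 b cR) {K : Type} [Field K]
    [NumberField K] (hK : Module.finrank ℚ K = 2) {i : K} (hi : i ^ 2 = -1) {b : K} (hb : b ≠ 0) :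
    DMB K 4 (fun _ => Cls2 K) 0 b cR := by
  obtain ⟨e⟩ := iso_K4 hK hi
  have h1 : DMB K4 4 (fun _ => Cls2 K4) 0 (e.symm b) cR := by
    refine h ?_
    rw [Ne, map_eq_zero_iff _ e.symm.injective]
    exact hb
  have h2 := DMB.tr e (H := fun _ => Cls2 K) (fun _ _ => Cls2.tr e) h1
  rw [map_zero, e.apply_symm_apply] at h2
  exact h2

/-- over a field generated by a square root of `-3`, for the extensions without square root of `-1` -/
theorem db3N_of (h : ∀ {e : K3}, e ≠ 0 → DMB K3 2 (fun F _ => ClsN K3 F) (-3 * e) (3 * e ^ 2) cI)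
    {K : Type} [Field K] [NumberField K] (hK : Module.finrank ℚ K = 2) {s : K} (hs : s ^ 2 = -3)
    {e : K} (he : e ≠ 0) : DMB K 2 (fun F _ => ClsN K F) (-3 * e) (3 * e ^ 2) cI := by
  obtain ⟨f⟩ := exists_iso3 hK hs
  have h1 : DMB K3 2 (fun F _ => ClsN K3 F) (-3 * f.symm e) (3 * (f.symm e) ^ 2) cI := by
    refine h ?_
    rw [Ne, map_eq_zero_iff _ f.symm.injective]
    exact he
  have h2 := DMB.tr f (H := fun F _ => ClsN K F) (ClsN.tr f) h1
  rwa [map_mul, map_mul, map_neg, map_pow, map_ofNat, f.apply_symm_apply] at h2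

/-- over a field generated by a square root of `-3` -/
theorem db3J_of (h : ∀ {e : K3}, e ≠ 0 → DMB K3 2 (fun _ => Cls2 K3) (-3 * e) (3 * e ^ 2) cJ)
    {K : Type} [Field K] [NumberField K] (hK : Module.finrank ℚ K = 2) {s : K} (hs : s ^ 2 = -3)
    {e : K} (he : e ≠ 0) : DMB K 2 (fun _ => Cls2 K) (-3 * e) (3 * e ^ 2) cJ := by
  obtain ⟨f⟩ := exists_iso3 hK hs
  have h1 : DMB K3 2 (fun _ => Cls2 K3) (-3 * f.symm e) (3 * (f.symm e) ^ 2) cJ := by
    refine h ?_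
    rw [Ne, map_eq_zero_iff _ f.symm.injective]
    exact he
  have h2 := DMB.tr f (H := fun _ => Cls2 K) (fun _ _ => Cls2.tr f) h1
  rwa [map_mul, map_mul, map_neg, map_pow, map_ofNat, f.apply_symm_apply] at h2

/-- over a field generated by a square root of `-2` -/
theorem db8_of (h : ∀ {e : K8}, e ≠ 0 → DMB K8 2 (fun _ => Cls2 K8) (4 * e) (2 * e ^ 2) cR)
    {K : Type} [Field K] [NumberField K] (hK : Module.finrank ℚ K = 2) {s : K} (hs : s ^ 2 = -2)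
    {e : K} (he : e ≠ 0) : DMB K 2 (fun _ => Cls2 K) (4 * e) (2 * e ^ 2) cR := by
  have hl : (lam8 : K8) ^ 2 = -2 := by
    have h1 := congrArg (fun x : 𝓞 K8 => (x : K8)) lam8_sq
    push_cast at h1
    exact h1
  obtain ⟨f⟩ := Pool.Agent.Lib.MP_1a91b9_ntI.exists_iso_pq
    Pool.Agent.Lib.MP_1a91b9_ntW.T.finrank_K8 hK (t := 0) (n := 2) (by norm_num) (s := (lam8 : K8))
    (by rw [hl]; push_cast; ring) (s' := s) (by rw [hs]; push_cast; ring)
  have h1 : DMB K8 2 (fun _ => Cls2 K8) (4 * f.symm e) (2 * (f.symm e) ^ 2) cR := by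
    refine h ?_
    rw [Ne, map_eq_zero_iff _ f.symm.injective]
    exact he
  have h2 := DMB.tr f (H := fun _ => Cls2 K) (fun _ _ => Cls2.tr f) h1
  rwa [map_mul, map_mul, map_pow, map_ofNat, map_ofNat, f.apply_symm_apply] at h2

/-- over a field generated by a root of `θ² = θ - 2` -/
theorem db7_of (h : ∀ {d₀ : K7}, d₀ ≠ 0 → DMB K7 2 (fun _ => Cls2 K7)
      (d₀ * (1 + (1 - (t7 : K7)) ^ 4)) (d₀ ^ 2 * (1 - (t7 : K7)) ^ 4) cS)
    {K : Type} [Field K] [NumberField K] (hK : Module.finrank ℚ K = 2) {θ : K}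
    (hθ : θ ^ 2 = θ - 2) {d₀ : K} (hd₀ : d₀ ≠ 0) :
    DMB K 2 (fun _ => Cls2 K) (d₀ * (1 + (1 - θ) ^ 4)) (d₀ ^ 2 * (1 - θ) ^ 4) cS := by
  obtain ⟨e, he⟩ := Pool.Agent.Lib.MP_1a91b9_ntI.iso_th
    (K := K7) (@Pool.Agent.Lib.MP_1a91b9_nuT.finrank_K Pool.Agent.Lib.MP_1a91b9_ntV.cd7) hK
    Pool.Agent.Lib.MP_1a91b9_ntV.J.t7_sq' hθ
  have h0 : e.symm d₀ ≠ 0 := by
    rw [Ne, map_eq_zero_iff _ e.symm.injective]
    exact hd₀
  have h2 := DMB.tr e (H := fun _ => Cls2 K) (fun _ _ => Cls2.tr e) (h h0)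
  have e1 : e (e.symm d₀ * (1 + (1 - (t7 : K7)) ^ 4)) = d₀ * (1 + (1 - θ) ^ 4) := by
    rw [map_mul, e.apply_symm_apply, map_add, map_one, map_pow, map_sub, map_one, he]
  have e2 : e (e.symm d₀ ^ 2 * (1 - (t7 : K7)) ^ 4) = d₀ ^ 2 * (1 - θ) ^ 4 := by
    rw [map_mul, map_pow, e.apply_symm_apply, map_pow, map_sub, map_one, he]
  rwa [e1, e2] at h2

section
variable {K : Type} [Field K] [NumberField K]

/-- the property of the curve, from the result over the extensions -/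
theorem DQB.of_dmb {l : ℕ} {H : (F : Type) → [Field F] → 𝓞 K → 𝓞 K → Prop} {a b : K} {c : ℝ}
    (h : DMB K l H a b c) {F : Type} [Field F] [NumberField F] [Algebra K F]
    (hF : IntermediateField.adjoin K {x : F | ∃ c : K, x ^ l = algebraMap K F c} = ⊤)
    {Δ : Finset (𝓞 K)} (hne : ∀ δ ∈ Δ, δ ≠ 0) (h1 : SepU F (1 : K) Δ)
    (hb : (∀ (C : VariableChange K) (b' : K), b' ≠ 0 → C • crv a b = crv 0 b' → SepU F b' Δ) →
      SepU F b Δ) {t : ℕ} {m u : 𝓞 K} (hmu : H F m u) :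
    DQB F Δ t m u (bn Δ.card t (c ^ Module.finrank K F)) (crv a b) := by
  intro h0
  have h2 := h F hF Δ ⟨hne, h1, hb h0⟩ t m u hmu
  simp only [cntB_crv]
  exact h2

/-- **The assembly**, from the results for the four families. -/
theorem dbinK_of
    (H4 : ∀ {K : Type} [Field K] [NumberField K], Module.finrank ℚ K = 2 → ∀ {i : K}, i ^ 2 = -1 →
      ∀ {b : K}, b ≠ 0 → DMB K 4 (fun _ => Cls2 K) 0 b cR)
    (H8 : ∀ {K : Type} [Field K] [NumberField K], Module.finrank ℚ K = 2 → ∀ {s : K}, s ^ 2 = -2 →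
      ∀ {e : K}, e ≠ 0 → DMB K 2 (fun _ => Cls2 K) (4 * e) (2 * e ^ 2) cR)
    (H7 : ∀ {K : Type} [Field K] [NumberField K], Module.finrank ℚ K = 2 → ∀ {θ : K},
      θ ^ 2 = θ - 2 → ∀ {d₀ : K}, d₀ ≠ 0 →
        DMB K 2 (fun _ => Cls2 K) (d₀ * (1 + (1 - θ) ^ 4)) (d₀ ^ 2 * (1 - θ) ^ 4) cS)
    (H3 : ∀ {K : Type} [Field K] [NumberField K], Module.finrank ℚ K = 2 → ∀ {s : K}, s ^ 2 = -3 →
      ∀ {e : K}, e ≠ 0 → DMB K 2 (fun F _ => ClsN K F) (-3 * e) (3 * e ^ 2) cI)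
    (H3' : ∀ {K : Type} [Field K] [NumberField K], Module.finrank ℚ K = 2 → ∀ {s : K}, s ^ 2 = -3 →
      ∀ {e : K}, e ≠ 0 → DMB K 2 (fun _ => Cls2 K) (-3 * e) (3 * e ^ 2) cJ)
    (hK : Module.finrank ℚ K = 2) {l : ℕ} (hl : l = 2 ∨ l = 4 ∧ ∃ i : K, i ^ 2 = -1)
    (F : Type) [Field F] [NumberField F] [Algebra K F]
    (hF : IntermediateField.adjoin K {x : F | ∃ c : K, x ^ l = algebraMap K F c} = ⊤) {c : ℝ}
    (hI : Prime (2 : 𝓞 K) → (¬ ∃ x : F, x ^ 2 = -1) → c = cI)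
    (hJ : Prime (2 : 𝓞 K) → (∃ x : F, x ^ 2 = -1) → c = cJ)
    (hS : ¬ Prime (2 : 𝓞 K) → Squarefree (2 : 𝓞 K) → c = cS)
    (hR : ¬ Squarefree (2 : 𝓞 K) → c = cR) {Δ : Finset (𝓞 K)} (hne : ∀ δ ∈ Δ, δ ≠ 0)
    (h1 : SepU F (1 : K) Δ) (t : ℕ) {W : WeierstrassCurve K} (hW : CMK W) (hP : Pt2 W)
    {m u : 𝓞 K} (hmu : Cls2 K m u) :
    DQB F Δ t m u (bn Δ.card t (c ^ Module.finrank K F)) W := by
  refine (inv2_DQB F h1 t m u _).star hK ?_ ?_ ?_ ?_ hW hP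
  · rintro ⟨i, hi⟩ b hb
    obtain ⟨i', -, hi'⟩ := to_int (x := i) (t := 0) (n := 1) (by rw [hi]; push_cast; ring)
    have hi2 : i' ^ 2 = -1 := by rw [hi']; push_cast; ring
    rw [hR (nsf_i hK hi2)]
    have hb' : (∀ (C : VariableChange K) (b' : K), b' ≠ 0 → C • crv 0 b = crv 0 b' →
        SepU F b' Δ) → SepU F b Δ := fun h0 => h0 1 b hb (one_smul _ _)
    rcases hl with rfl | ⟨rfl, -⟩
    · exact DQB.of_dmb (H4 hK hi hb).two_of_four hF hne h1 hb' hmu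
    · exact DQB.of_dmb (H4 hK hi hb) hF hne h1 hb' hmu
  · rintro ⟨s, hs⟩ e he
    obtain ⟨s', -, hs'⟩ := to_int (x := s) (t := 0) (n := 2) (by rw [hs]; push_cast; ring)
    have hs2 : s' ^ 2 = -2 := by rw [hs']; push_cast; ring
    have hs0 : s ≠ 0 := by
      rintro rfl
      norm_num at hs
    rw [hR (nsf_s hK hs2)]
    rcases hl with rfl | ⟨-, i, hi⟩
    · refine DQB.of_dmb (H8 hK hs he) hF hne h1 (fun _ => h1.congr (z := s * e)
        (mul_ne_zero hs0 he) (Or.inr ?_)) hmu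
      rw [mul_pow, hs]
      ring
    · exact (excl1 hK hs hi).elim
  · rintro ⟨s, hs⟩ e he
    obtain ⟨w, hw⟩ : ∃ w : K, w = (1 + s) / 2 := ⟨_, rfl⟩
    have hs0 : s ≠ 0 := by
      rintro rfl
      norm_num at hs
    have hsw : s = 2 * w - 1 := by
      rw [hw, mul_div_cancel₀ _ (two_ne_zero' K)]
      ring
    have hw2 : w ^ 2 = w - 1 := by
      have h4 : (4 : K) ≠ 0 := by norm_num
      have hs2 := hs
      rw [hsw] at hs2
      refine mul_left_cancel₀ h4 ?_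
      linear_combination hs2
    obtain ⟨θ', -, hθ'⟩ := to_int (x := w) (t := 1) (n := 1) (by rw [hw2]; push_cast; ring)
    have hθ2 : θ' ^ 2 = θ' - 1 := by rw [hθ']; push_cast; ring
    have hb' : (∀ (C : VariableChange K) (b' : K), b' ≠ 0 →
        C • crv (-3 * e) (3 * e ^ 2) = crv 0 b' → SepU F b' Δ) → SepU F (3 * e ^ 2) Δ := by
      intro _
      refine h1.congr (z := s * e) (mul_ne_zero hs0 he) (Or.inr ?_)
      rw [mul_pow, hs]
      ring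
    rcases hl with rfl | ⟨-, i, hi⟩
    · by_cases hi : ∃ x : F, x ^ 2 = -1
      · rw [hJ (prime_w hK hθ2) hi]
        exact DQB.of_dmb (H3' hK hs he) hF hne h1 hb' hmu
      · rw [hI (prime_w hK hθ2) hi]
        exact DQB.of_dmb (H3 hK hs he) hF hne h1 hb' ⟨hmu, hi⟩
    · exact (excl6 hK hi hs).elim
  · rintro ⟨s, hs⟩ e he
    have hs0 : s ≠ 0 := by
      rintro rfl
      norm_num at hs
    obtain ⟨θ, hθd⟩ : ∃ θ : K, θ = (1 + s) / 2 := ⟨_, rfl⟩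
    have hsθ : s = 2 * θ - 1 := by
      rw [hθd, mul_div_cancel₀ _ (two_ne_zero' K)]
      ring
    have hθ : θ ^ 2 = θ - 2 := by
      have hs2 := hs
      rw [hsθ] at hs2
      refine mul_left_cancel₀ (show (4 : K) ≠ 0 by norm_num) ?_
      linear_combination hs2
    obtain ⟨θ', -, hθ'⟩ := to_int (x := θ) (t := 1) (n := 2) (by rw [hθ]; push_cast; ring)
    have hθ2 : θ' ^ 2 = θ' - 2 := by rw [hθ']; push_cast; ring
    rw [hS (np_t hK hθ2) (sf_t hK (emp_t hθ2) hθ2)]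
    rcases hl with rfl | ⟨-, i, hi⟩
    · have ht : 1 - θ ≠ 0 := by
        intro h
        have h5 : θ = 1 := by linear_combination -h
        rw [h5] at hθ
        norm_num at hθ
      have h2 := DQB.of_dmb (t := t) (H7 hK hθ (d₀ := s * e) (mul_ne_zero hs0 he)) hF hne h1
        (fun _ => h1.congr (z := s * e * (1 - θ) ^ 2)
          (mul_ne_zero (mul_ne_zero hs0 he) (pow_ne_zero 2 ht)) (Or.inl (by ring))) hmu
      refine (inv2_DQB F h1 t m u _).of_vc h2 (Pool.Agent.Lib.MP_1a91b9_ntV.J.hasJ_crv7 hθ _)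
        (C := ⟨1, (θ - 11) * e, 0, 0⟩) ?_
      exact crv21 hθ hsθ e
    · exact (excl3 hK (th7 hθ) hi).elim

open Classical in
/-- **The result**, explicitly, from the results for the four families. -/
theorem dbinK_expl
    (H4 : ∀ {K : Type} [Field K] [NumberField K], Module.finrank ℚ K = 2 → ∀ {i : K}, i ^ 2 = -1 →
      ∀ {b : K}, b ≠ 0 → DMB K 4 (fun _ => Cls2 K) 0 b cR)
    (H8 : ∀ {K : Type} [Field K] [NumberField K], Module.finrank ℚ K = 2 → ∀ {s : K}, s ^ 2 = -2 →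
      ∀ {e : K}, e ≠ 0 → DMB K 2 (fun _ => Cls2 K) (4 * e) (2 * e ^ 2) cR)
    (H7 : ∀ {K : Type} [Field K] [NumberField K], Module.finrank ℚ K = 2 → ∀ {θ : K},
      θ ^ 2 = θ - 2 → ∀ {d₀ : K}, d₀ ≠ 0 →
        DMB K 2 (fun _ => Cls2 K) (d₀ * (1 + (1 - θ) ^ 4)) (d₀ ^ 2 * (1 - θ) ^ 4) cS)
    (H3 : ∀ {K : Type} [Field K] [NumberField K], Module.finrank ℚ K = 2 → ∀ {s : K}, s ^ 2 = -3 →
      ∀ {e : K}, e ≠ 0 → DMB K 2 (fun F _ => ClsN K F) (-3 * e) (3 * e ^ 2) cI)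
    (H3' : ∀ {K : Type} [Field K] [NumberField K], Module.finrank ℚ K = 2 → ∀ {s : K}, s ^ 2 = -3 →
      ∀ {e : K}, e ≠ 0 → DMB K 2 (fun _ => Cls2 K) (-3 * e) (3 * e ^ 2) cJ)
    (hK : Module.finrank ℚ K = 2) (a b : K) (hE : b * (a ^ 2 - 4 * b) ≠ 0) (j D : ℤ)
    (hjD : (j, D) ∈ Pool.Agent.Lib.MP_1a91b9_ntY.cmList)
    (hj : 256 * (a ^ 2 - 3 * b) ^ 3 = j * (b ^ 2 * (a ^ 2 - 4 * b))) (hD : ∃ s : K, s ^ 2 = D)
    (l : ℕ) (hl : l = 2 ∨ l = 4 ∧ ∃ i : K, i ^ 2 = -1)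
    (F : Type) [Field F] [NumberField F] [Algebra K F]
    (hF : IntermediateField.adjoin K {x : F | ∃ c : K, x ^ l = algebraMap K F c} = ⊤)
    (Δ : Finset (𝓞 K)) (h0 : ∀ δ ∈ Δ, δ ≠ 0)
    (hΔ : ∀ δ ∈ Δ, ∀ δ' ∈ Δ, δ ≠ δ' → ∀ e ∈ ({1, -1, b, -b} : Set K),
      ¬ ∃ x : F, x ^ 2 = algebraMap K F (e * ((δ : K) * (δ' : K)))) (t : ℕ)
    (n : ℕ) (m u : 𝓞 K) (hm : m ∣ 2 ^ n) (hu : ∀ p, Prime p → ¬ (p ^ 2 ∣ m ∧ p ^ 2 ∣ u))
    (c : ℝ)
    (hc : c = if Prime (2 : 𝓞 K) then (if ∃ x : F, x ^ 2 = -1 then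
        √((∏' i : ℕ, (1 + 1 / (2 : ℝ) ^ (2 * i + 1))⁻¹) / 2) else
        ∏' i : ℕ, (1 + 1 / (2 : ℝ) ^ (2 * i + 1))⁻¹) else
      if Squarefree (2 : 𝓞 K) then ∏' i : ℕ, (1 - 1 / (2 : ℝ) ^ (i + 1)) else
      ∏' i : ℕ, (1 + 1 / (2 : ℝ) ^ (i + 1))⁻¹) :
    DivG (𝓞 K) m u (fun d => t ≤ (Δ.filter fun δ : 𝓞 K => RkZ (⟨0,
      algebraMap K F ((δ : K) * (d : K) * a), 0,
        algebraMap K F (((δ : K) * (d : K)) ^ 2 * b), 0⟩ : WeierstrassCurve F)).card)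
      (bn Δ.card t (c ^ Module.finrank K F)) := by
  have hdisc : (crv a b).Δ ≠ 0 := by
    rw [crv_disc]
    have e : b ^ 2 * (a ^ 2 - 4 * b) = b * (b * (a ^ 2 - 4 * b)) := by ring
    rw [e]
    exact mul_ne_zero (by norm_num) (mul_ne_zero (left_ne_zero_of_mul hE) hE)
  obtain ⟨s, hs⟩ := hD
  have hW : CMK (crv a b) := ⟨hdisc, j, D, s, hjD, hs, hasJ_crv_iff.2 hj⟩
  have hP : Pt2 (crv a b) := by
    refine ⟨0, ?_⟩
    unfold crv WeierstrassCurve.b₂ WeierstrassCurve.b₄ WeierstrassCurve.b₆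
    ring
  have hps : Prime (2 : 𝓞 K) → Squarefree (2 : 𝓞 K) := fun h => h.irreducible.squarefree
  have key : ∀ x : K, x ∈ ({1, -1, b, -b} : Set K) → -x ∈ ({1, -1, b, -b} : Set K) →
      SepU F x Δ := by
    intro x hx hx' δ hδ δ' hδ' hne
    have e1 : ((δ * δ' : 𝓞 K) : K) = (δ : K) * (δ' : K) := by
      push_cast
      rfl
    rw [e1, ← neg_mul]
    refine ⟨?_, ?_⟩
    · rintro ⟨y, hy⟩
      exact hΔ δ hδ δ' hδ' hne x hx ⟨y, by rw [hy, sq]⟩
    · rintro ⟨y, hy⟩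
      exact hΔ δ hδ δ' hδ' hne (-x) hx' ⟨y, by rw [hy, sq]⟩
  have k1 : SepU F (1 : K) Δ := key 1 (by simp) (by simp)
  have k2 : SepU F b Δ := key b (by simp) (by simp)
  have h1 : DQB F Δ t m u (bn Δ.card t (c ^ Module.finrank K F)) (crv a b) := by
    refine dbinK_of H4 H8 H7 H3 H3' hK hl F hF (fun h h' => ?_) (fun h h' => ?_) (fun h h' => ?_)
      (fun h => ?_) h0 k1 t hW hP ⟨⟨n, hm⟩, hu⟩
    · rw [hc, if_pos h, if_neg h']
      rfl
    · rw [hc, if_pos h, if_pos h']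
      rfl
    · rw [hc, if_neg h, if_pos h']
      rfl
    · rw [hc, if_neg (mt hps h), if_neg h]
      rfl
  have h2 := h1 (fun C b' hb' hC => by
    rcases crv_zero_cases hC with ⟨-, z, hz, hbz⟩ | ⟨z, hz⟩
    · exact k2.of_eq hz (Or.inl hbz.symm)
    · have hz0 : z ≠ 0 := by
        rintro rfl
        exact hb' (by rw [hz]; ring)
      refine k1.congr hz0 (Or.inr ?_)
      rw [hz]
      ring)
  have e6 : (fun d : 𝓞 K => t ≤ cntB F Δ (crv a b) d) = fun d : 𝓞 K => t ≤ (Δ.filter fun δ : 𝓞 K =>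
      RkZ (⟨0, algebraMap K F ((δ : K) * (d : K) * a), 0,
        algebraMap K F (((δ : K) * (d : K)) ^ 2 * b), 0⟩ : WeierstrassCurve F)).card := by
    funext d
    rw [cntB_crv]
    have e : (Δ.filter fun δ => RkZ (crF F a b (d * δ))) = Δ.filter fun δ : 𝓞 K =>
        RkZ (⟨0, algebraMap K F ((δ : K) * (d : K) * a), 0,
          algebraMap K F (((δ : K) * (d : K)) ^ 2 * b), 0⟩ : WeierstrassCurve F) := by
      refine Finset.filter_congr fun δ _ => ?_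
      have e5 : ((d * δ : 𝓞 K) : K) = (δ : K) * d := by
        push_cast
        ring
      unfold crF
      rw [e5]
    rw [e]
  rw [e6] at h2
  exact h2

end

end

end Pool.Agent.Lib.MP_1a91b9_ntDV
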