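import Pool.Agent.Lib.MP_1a91b9_ntDV.E6
import Pool.Agent.Lib.MP_1a91b9_ntDV.EA
import Pool.Agent.Lib.MP_1a91b9_ntW.D.SysW

/-!
# MP_1a91b9_nt (the divisor law), block W (`ℚ(√-2)`): definitions

The label system of the second moment for the systems `LW` of MP_1a91b9_ntW: the primes `q` with `dg w q = 0`
carry all the labels, the other primes only the labels of `Sp`.
-/

set_option autoImplicit false
set_option linter.unusedSectionVars false

namespace Pool.Agent.Lib.MP_1a91b9_ntDV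

open Finset Pool.Agent.Lib.MP_1a91b9_ntH Pool.Agent.Lib.MP_1a91b9_ntQ
open Pool.Agent.Lib.MP_1a91b9_ntQ.Da Pool.Agent.Lib.MP_1a91b9_ntV Pool.Agent.Lib.MP_1a91b9_ntW

noncomputable section

variable {ι : Type} {κ : Type} [Fintype κ] {k k' : ℕ}

/-- The labels of the primes with `dg w q ≠ 0`. -/
def Sp (k k' : ℕ) : Finset (LP k k') := {none, some 0} ×ˢ {none, some 0}

/-- The quadratic form of a label. -/
def Qz (k : ℕ) : Option (Lab2 k) → ZMod 2
  | none => 0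
  | some l => Q2 l

open Classical in
/-- The weights of the second moment. -/
def gWs (D : Dat2 ι κ) (w : κ → ZMod 2) (r : ι → ZMod 2) (k k' : ℕ) (c : LP k k' → κ → ZMod 2)
    (x : LP k k') (q : ι) : ℂ :=
  if D.dg w q = 0 then (nP k k' x : ℂ) * e2 (r q * (Qz k x.1 + Qz k' x.2) + D.dg (c x) q)
  else if x ∈ Sp k k' then 1 / 4 * e2 (D.dg (c x) q) else 0

/-- The label system of the second moment. -/
def LWs (D : Dat2 ι κ) (w : κ → ZMod 2) (r : ι → ZMod 2) (k k' : ℕ) (c : LP k k' → κ → ZMod 2) :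
    LG (LP k k') ι where
  Phi := Phi1 (PP k k')
  g := gWs D w r k k' c

open Classical in
/-- The maximal unlinked sets which count. -/
def UsQ (k k' : ℕ) : Finset (Finset (LP k k')) :=
  (Lgs2 k ×ˢ Lgs2 k').image fun U => insertNone U.1 ×ˢ insertNone U.2

open Classical in
/-- The mean value of a maximal unlinked set. -/
def mQ (w : κ → ZMod 2) (c : LP k k' → κ → ZMod 2) (U : Finset (LP k k')) : ℂ :=
  if (∀ x ∈ Sp k k', c x = 0) ∧ ∀ x ∈ U, c x = 0 ∨ c x = w then 1 else 0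

/-- The number `M` of the system. -/
def MQ (k k' : ℕ) : ℕ := 2 * MP k k'

theorem LWs_lk (D : Dat2 ι κ) (w : κ → ZMod 2) (r : ι → ZMod 2) (c : LP k k' → κ → ZMod 2)
    (x y : LP k k') : (LWs D w r k k' c).lk x y = Qo k x.1 y.1 + Qo k' x.2 y.2 := by
  show Phi1 (PP k k') x y + Phi1 (PP k k') y x = _
  rw [Phi1_lk, PP_lk]

theorem Lgs2_sub {U : Finset (Lab2 k)} (h : U ∈ Lgs2 k) : U ∈ UsN k :=
  mem_UsN.2 ⟨(mem_Lgs2.1 h).unl, (mem_Lgs2.1 h).card⟩

theorem mem_UsQ {U : Finset (LP k k')} :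
    U ∈ UsQ k k' ↔ ∃ A ∈ Lgs2 k, ∃ B ∈ Lgs2 k', insertNone A ×ˢ insertNone B = U := by
  classical
  unfold UsQ
  rw [mem_image]
  constructor
  · rintro ⟨⟨A, B⟩, h, e⟩
    rw [mem_product] at h
    exact ⟨A, h.1, B, h.2, e⟩
  · rintro ⟨A, hA, B, hB, e⟩
    exact ⟨(A, B), mem_product.2 ⟨hA, hB⟩, e⟩

theorem UsQ_sub {U : Finset (LP k k')} (h : U ∈ UsQ k k') : U ∈ UsP k k' := by
  obtain ⟨A, hA, B, hB, e⟩ := mem_UsQ.1 h
  exact mem_UsP.2 ⟨A, Lgs2_sub hA, B, Lgs2_sub hB, e⟩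

theorem mem_Sp {x : LP k k'} :
    x ∈ Sp k k' ↔ (x.1 = none ∨ x.1 = some 0) ∧ (x.2 = none ∨ x.2 = some 0) := by
  unfold Sp
  rw [mem_product, mem_insert, mem_singleton, mem_insert, mem_singleton]

theorem Sp_sub {U : Finset (LP k k')} (h : U ∈ UsQ k k') : Sp k k' ⊆ U := by
  obtain ⟨A, hA, B, hB, rfl⟩ := mem_UsQ.1 h
  intro x hx
  rw [mem_Sp] at hx
  rw [mem_product, mem_io, mem_io]
  constructor
  · intro l hl
    rcases hx.1 with h1 | h1
    · rw [h1] at hl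
      exact absurd hl (by simp)
    · rw [h1] at hl
      rw [← Option.some_injective _ hl]
      exact (mem_Lgs2.1 hA).zero
  · intro l hl
    rcases hx.2 with h1 | h1
    · rw [h1] at hl
      exact absurd hl (by simp)
    · rw [h1] at hl
      rw [← Option.some_injective _ hl]
      exact (mem_Lgs2.1 hB).zero

theorem Qz_zero {n : ℕ} {A : Finset (Lab2 n)} (hA : A ∈ Lgs2 n) {o : Option (Lab2 n)}
    (ho : o ∈ insertNone A) : Qz n o = 0 := by
  cases o with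
  | none => rfl
  | some l =>
    have hW := mem_Lgs2.1 hA
    exact hW.unl.Q hW.zero (mem_io.1 ho l rfl)

theorem Qz_mem {U : Finset (LP k k')} (h : U ∈ UsQ k k') {x : LP k k'} (hx : x ∈ U) :
    Qz k x.1 + Qz k' x.2 = 0 := by
  obtain ⟨A, hA, B, hB, rfl⟩ := mem_UsQ.1 h
  rw [mem_product] at hx
  rw [Qz_zero hA hx.1, Qz_zero hB hx.2, add_zero]

theorem gWs_zero (D : Dat2 ι κ) {w : κ → ZMod 2} (r : ι → ZMod 2) (c : LP k k' → κ → ZMod 2)
    {q : ι} (hq : D.dg w q = 0) (x : LP k k') :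
    (LWs D w r k k' c).g x q =
      (nP k k' x : ℂ) * e2 (r q * (Qz k x.1 + Qz k' x.2) + D.dg (c x) q) := by
  show gWs D w r k k' c x q = _
  unfold gWs
  rw [if_pos hq]

theorem gWs_one (D : Dat2 ι κ) {w : κ → ZMod 2} (r : ι → ZMod 2) (c : LP k k' → κ → ZMod 2)
    {q : ι} (hq : D.dg w q ≠ 0) {x : LP k k'} (hx : x ∈ Sp k k') :
    (LWs D w r k k' c).g x q = 1 / 4 * e2 (D.dg (c x) q) := by
  show gWs D w r k k' c x q = _
  unfold gWs
  rw [if_neg hq, if_pos hx]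

theorem gWs_ne (D : Dat2 ι κ) {w : κ → ZMod 2} (r : ι → ZMod 2) (c : LP k k' → κ → ZMod 2)
    {q : ι} (hq : D.dg w q ≠ 0) {x : LP k k'} (hx : x ∉ Sp k k') :
    (LWs D w r k k' c).g x q = 0 := by
  show gWs D w r k k' c x q = _
  unfold gWs
  rw [if_neg hq, if_neg hx]

end

end Pool.Agent.Lib.MP_1a91b9_ntDV
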