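import Pool.Agent.Lib.MP_1a91b9_ntDV.W0

set_option autoImplicit false
set_option linter.unusedSectionVars false

namespace Pool.Agent.Lib.MP_1a91b9_ntDV

open Finset Pool.Agent.Lib.MP_1a91b9_ntH Pool.Agent.Lib.MP_1a91b9_ntQ
open Pool.Agent.Lib.MP_1a91b9_ntQ.Da Pool.Agent.Lib.MP_1a91b9_ntV Pool.Agent.Lib.MP_1a91b9_ntW

noncomputable section

variable {ι : Type} [DecidableEq ι] {κ : Type} [Fintype κ] [DecidableEq κ] [PS ι] {k k' : ℕ}

private theorem W1_z2_one {x : ZMod 2} (h : x ≠ 0) : x = 1 := by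
  have h1 : ∀ x : ZMod 2, x ≠ 0 → x = 1 := by decide
  exact h1 x h

private theorem W1_zero (D : Dat2 ι κ) {w : κ → ZMod 2} (r : ι → ZMod 2)
    (c : LP k k' → κ → ZMod 2) {q : ι} (hq : D.dg w q = 0) (Z : Finset (LP k k')) :
    ∑ l ∈ Z, ‖(LWs D w r k k' c).g l q‖ = ∑ x ∈ Z, nP k k' x := by
  refine sum_congr rfl fun x _ => ?_
  rw [gWs_zero D r c hq, norm_mul, norm_e2, mul_one, Complex.norm_real, Real.norm_eq_abs,
    abs_of_pos (nP_pos x)]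

private theorem W1_ne (D : Dat2 ι κ) {w : κ → ZMod 2} (r : ι → ZMod 2)
    (c : LP k k' → κ → ZMod 2) {q : ι} (hq : D.dg w q ≠ 0) (Z : Finset (LP k k')) :
    ∑ l ∈ Z, ‖(LWs D w r k k' c).g l q‖ = ((Z ∩ Sp k k').card : ℝ) / 4 := by
  classical
  have h1 : ∀ x ∈ Z, ‖(LWs D w r k k' c).g x q‖ = if x ∈ Sp k k' then (1 / 4 : ℝ) else 0 := by
    intro x _
    by_cases hx : x ∈ Sp k k'
    · rw [if_pos hx, gWs_one D r c hq hx, norm_mul, norm_e2, mul_one]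
      norm_num
    · rw [if_neg hx, gWs_ne D r c hq hx, norm_zero]
  rw [sum_congr rfl h1, ← sum_filter, sum_const, nsmul_eq_mul, filter_mem_eq_inter]
  ring

private theorem W1_Sp_card : (Sp k k').card ≤ 4 := by
  unfold Sp
  rw [card_product]
  have h1 : ({none, some 0} : Finset (Option (Lab2 k))).card ≤ 2 := card_le_two
  have h2 : ({none, some 0} : Finset (Option (Lab2 k'))).card ≤ 2 := card_le_two
  nlinarith

private theorem W1_cap {Z : Finset (LP k k')} : (Z ∩ Sp k k').card ≤ 4 :=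
  (card_le_card inter_subset_right).trans W1_Sp_card

private theorem W1_cap3 {Z : Finset (LP k k')} {x : LP k k'} (hx : x ∈ Sp k k') (hxZ : x ∉ Z) :
    (Z ∩ Sp k k').card ≤ 3 := by
  have h1 : Z ∩ Sp k k' ⊆ (Sp k k').erase x := by
    intro y hy
    rw [mem_inter] at hy
    refine mem_erase.2 ⟨?_, hy.2⟩
    rintro rfl
    exact hxZ hy.1
  have h2 := card_le_card h1
  have h3 := card_erase_add_one hx
  have h4 : (Sp k k').card ≤ 4 := W1_Sp_card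
  omega

private theorem W1_miss {Z : Finset (LP k k')} (hZ : Z ∈ UsP k k') (hQ : Z ∉ UsQ k k') :
    ∃ x ∈ Sp k k', x ∉ Z := by
  obtain ⟨A, hA, B, hB, rfl⟩ := mem_UsP.1 hZ
  by_cases hA0 : (0 : Lab2 k) ∈ A
  · by_cases hB0 : (0 : Lab2 k') ∈ B
    · exact absurd (mem_UsQ.2 ⟨A, mem_Lgs2.2 ⟨(mem_UsN.1 hA).1, (mem_UsN.1 hA).2, hA0⟩, B,
        mem_Lgs2.2 ⟨(mem_UsN.1 hB).1, (mem_UsN.1 hB).2, hB0⟩, rfl⟩) hQ
    · refine ⟨(none, some 0), mem_Sp.2 ⟨Or.inl rfl, Or.inr rfl⟩, fun h => hB0 ?_⟩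
      rw [mem_product] at h
      exact mem_io.1 h.2 0 rfl
  · refine ⟨(some 0, none), mem_Sp.2 ⟨Or.inr rfl, Or.inl rfl⟩, fun h => hA0 ?_⟩
    rw [mem_product] at h
    exact mem_io.1 h.1 0 rfl

/-- **W1** (medium-). The small sets.
Proof. By `LWs_lk` the set `Z` is unlinked in the sense of `sum_nP_le`. The sum of the norms at `q` is
`∑ x ∈ Z, nP k k' x` if `D.dg w q = 0` (`gWs_zero`, `norm_e2`, `nP_pos`) and `#(Z ∩ Sp) / 4 ≤ 1` otherwise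
(`gWs_one`, `gWs_ne`; `Sp` has at most 4 elements). In both cases it is at most `1` (`sum_nP` if `Z ∈ UsP`,
`sum_nP_le` if not). Case 1, `Z ∉ UsP k k'`: `ψ q = -D.ch ∅ w q` (`hD.cbn`): for `dg w q = 0`, `ψ q = -1` (`ch_empty`,
`sg2_zero`) and the bound is `(MQ - 2) / MQ = 1 - 1 / MP`; for `dg w q ≠ 0`, `ψ q = 1` and the bound is `1`. Case 2,
`Z ∈ UsP k k'`, `Z ∉ UsQ k k'`: `Z = insertNone A ×ˢ insertNone B` with `A ∉ Lgs2 k` or `B ∉ Lgs2 k'`, so `0 ∉ A` or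
`0 ∉ B` (`mem_Lgs2`, `Mx2`), so `(some 0, none) ∉ Z` or `(none, some 0) ∉ Z`: for `dg w q ≠ 0` the sum is at most
`3 / 4`; take `ψ q = D.ch ∅ w q` (`SumB.of (hC ∅ w (Or.inr hD.w0))` with `hD.cb`, as in `LW_OK`): for `dg w q = 0`,
`ψ q = 1` and the bound is `1`; for `dg w q ≠ 0`, `ψ q = -1` and the bound is `1 - 2 / MQ ≥ 3 / 4` because `MQ ≥ 16`.
`B = max ..` as in `LW_OK` (MP_1a91b9_ntW/D/SysW.lean). -/
theorem LWs_small {D : Dat2 ι κ} {w : κ → ZMod 2} (hD : OKw D w) (r : ι → ZMod 2)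
    (c : LP k k' → κ → ZMod 2) :
    ∃ B, ∀ Z, (LWs D w r k k' c).Unl Z → Z ∉ UsQ k k' → ∃ ψ : ι → ℝ, SumB ψ B ∧ ∀ q,
      ∑ l ∈ Z, ‖(LWs D w r k k' c).g l q‖ ≤ 1 ∧
        ∑ l ∈ Z, ‖(LWs D w r k k' c).g l q‖ ≤ ((MQ k k' - 1 : ℝ) + ψ q) / MQ k k' := by
  classical
  obtain ⟨C, hC⟩ := hD.cb
  obtain ⟨Cn, hCn⟩ := hD.cbn
  have hCw := SumB.of (hC ∅ w (Or.inr hD.w0))
  have hMP8 : (8 : ℝ) ≤ (MP k k' : ℝ) := by
    have h1 : 1 ≤ 2 ^ (k + k') := Nat.one_le_two_pow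
    have h2 : 8 ≤ MP k k' := by
      show 8 ≤ 8 * 2 ^ (k + k')
      omega
    exact_mod_cast h2
  have hMQ : (MQ k k' : ℝ) = 2 * (MP k k' : ℝ) := by
    unfold MQ
    push_cast
    rfl
  have hMP0 : (0 : ℝ) < (MP k k' : ℝ) := by linarith
  have hMQ0 : (0 : ℝ) < (MQ k k' : ℝ) := by linarith
  refine ⟨max (C * (1 + Real.log (nm (∅ : Finset ι)))) Cn, fun Z hZ hZ2 => ?_⟩
  have hcap : ((Z ∩ Sp k k').card : ℝ) ≤ 4 := by exact_mod_cast W1_cap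
  by_cases hP : Z ∈ UsP k k'
  · obtain ⟨x, hx, hxZ⟩ := W1_miss hP hZ2
    have hcap3 : ((Z ∩ Sp k k').card : ℝ) ≤ 3 := by exact_mod_cast W1_cap3 hx hxZ
    refine ⟨D.ch ∅ w, hCw.mono (le_max_left _ _), fun q => ?_⟩
    rw [ch_empty]
    by_cases hq : D.dg w q = 0
    · rw [W1_zero D r c hq, sum_nP hP, hq, sg2_zero]
      refine ⟨le_refl _, ?_⟩
      rw [sub_add_cancel, div_self hMQ0.ne']
    · rw [W1_ne D r c hq, W1_z2_one hq, Pool.Agent.Lib.MP_1a91b9_ntQ.sg2_one]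
      refine ⟨by linarith, ?_⟩
      rw [le_div_iff₀ hMQ0, hMQ]
      nlinarith
  · have h1 := sum_nP_le (fun x hx y hy => by
      have := hZ x hx y hy
      rwa [LWs_lk] at this) hP
    refine ⟨fun q => -D.ch ∅ w q, hCn.mono (le_max_right _ _), fun q => ?_⟩
    beta_reduce
    rw [ch_empty]
    by_cases hq : D.dg w q = 0
    · rw [W1_zero D r c hq, hq, sg2_zero]
      have h2 : 0 ≤ 1 / (MP k k' : ℝ) := by positivity
      refine ⟨by linarith, h1.trans (le_of_eq ?_)⟩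
      rw [hMQ]
      field_simp
      ring
    · rw [W1_ne D r c hq, W1_z2_one hq, Pool.Agent.Lib.MP_1a91b9_ntQ.sg2_one]
      refine ⟨by linarith, ?_⟩
      rw [le_div_iff₀ hMQ0]
      nlinarith

end

end Pool.Agent.Lib.MP_1a91b9_ntDV
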