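import Pool.Agent.Lib.MP_1a91b9_ntDV.W0

set_option autoImplicit false
set_option linter.unusedSectionVars false

namespace Pool.Agent.Lib.MP_1a91b9_ntDV

open Finset Pool.Agent.Lib.MP_1a91b9_ntH Pool.Agent.Lib.MP_1a91b9_ntQ
open Pool.Agent.Lib.MP_1a91b9_ntQ.Da Pool.Agent.Lib.MP_1a91b9_ntV Pool.Agent.Lib.MP_1a91b9_ntW

noncomputable section

variable {ι : Type} [DecidableEq ι] {κ : Type} [Fintype κ] [DecidableEq κ] [PS ι] {k k' : ℕ}

private theorem W2_chabs (D : Dat2 ι κ) (T : Finset ι) (c : κ → ZMod 2) (q : ι) :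
    |D.ch T c q| ≤ 1 := by
  unfold Dat2.ch
  split_ifs
  · simp
  · exact (sg2_abs _).le

private def W2_t {L : Type} [Fintype L] (lk : L → L → ZMod 2) (b : L → Finset ι) (l l' : L)
    (p : ι) : ZMod 2 :=
  ∑ m, if p ∈ b m then lk l m + lk l' m else 0

open Classical in
private def W2_T {L : Type} [Fintype L] (lk : L → L → ZMod 2) (b : L → Finset ι) (l l' : L) :
    Finset ι :=
  (uni b).filter fun p => W2_t lk b l l' p ≠ 0

private theorem W2_sumT {L : Type} [Fintype L] (lk : L → L → ZMod 2) (D : Dat2 ι κ)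
    (b : L → Finset ι) (l l' : L) (q : ι) :
    ∑ m, lk l m * ∑ p ∈ b m, D.s q p + ∑ m, lk l' m * ∑ p ∈ b m, D.s q p =
      ∑ p ∈ W2_T lk b l l', D.s q p := by
  classical
  have h1 : ∑ p ∈ W2_T lk b l l', D.s q p = ∑ p ∈ uni b, W2_t lk b l l' p * D.s q p := by
    unfold W2_T
    rw [sum_filter]
    refine sum_congr rfl fun p _ => ?_
    by_cases h : W2_t lk b l l' p = 0
    · rw [if_neg (not_not.2 h), h, zero_mul]
    · rw [if_pos h, z2_ne h, one_mul]
  rw [h1]
  unfold W2_t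
  rw [sum_congr rfl fun p _ => sum_mul _ _ _, sum_comm, ← sum_add_distrib]
  refine sum_congr rfl fun m _ => ?_
  rw [← add_mul, mul_sum]
  have h4 : ∀ p ∈ b m, (lk l m + lk l' m) * D.s q p =
      (if p ∈ b m then lk l m + lk l' m else 0) * D.s q p := fun p hp => by rw [if_pos hp]
  rw [sum_congr rfl h4]
  refine sum_subset (sub_uni b m) fun p _ hp2 => ?_
  rw [if_neg hp2, zero_mul]

/-- **W2** (medium). The middle estimate, the analogue of `LW_mid` (MP_1a91b9_ntW/D/SysW.lean) and of leaf E7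
(`LPs_mid`, file E7.lean of this folder, proved).
Proof. As `LW_mid`: the primes `p` of `b` have `D.dg w p = 0`, because a label `m` with `p ∈ b m` and
`D.dg w p ≠ 0` has `g m p ≠ 0`, so `m ∈ Sp ⊆ U` (`gWs_ne`, `Sp_sub`) and `b m = ∅`. Take `p0 ∈ b m0`, `m0 ∉ U`;
`exists_two (UsQ_sub hU)` gives `x, x' ∈ U` with different links to `m0` and weights at least `2 / MP`. With `T` (the
primes `p` of `b` where the links of `x` and `x'` differ, as in E7, `p0 ∈ T`) and `c₁ = c x + c x'` take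
`ψ = psiW D w T c₁` (`psiW_sumB hD`, `T ≠ ∅`). For `q ∉ uni b` with `D.dg w q = 0`: by `xg_gen hD.tw` the second term
of `xg` is multiplied by `D.dg w q = 0`, `Qz k x.1 + Qz k' x.2 = 0` for `x ∈ U` (`Qz_mem`), so
`HG = ∑ x ∈ U, (nP x : ℂ) * e2 (D.dg (c x) q + ∑ m, lk x m * ∑ p ∈ b m, D.s q p)` and by `norm_wsum`
(`a = 2 / MP`) and `sum_nP (UsQ_sub hU)`: `‖HG‖ ≤ 1 - (1 - D.ch T c₁ q) / MP = ((MQ - 1) + psiW ..) / MQ`
(`psiW_zero`, `MQ = 2 * MP`). For `D.dg w q ≠ 0`: only the labels of `Sp` have a weight, of norm `1 / 4`, so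
`‖HG‖ ≤ 1` (`card Sp ≤ 4`), and `psiW_one` gives the bound `1`. `0 ≤ (MQ - 1) + ψ q` by `psiW_ge` and `MQ ≥ 16`.
The bound `SumB` with the exponent `MQ k k' ≥ 3` as in `LW_mid`. -/
theorem LWs_mid {D : Dat2 ι κ} {w : κ → ZMod 2} (hD : OKw D w) (r : ι → ZMod 2)
    (c : LP k k' → κ → ZMod 2) :
    ∃ C : ℝ, ∀ U ∈ UsQ k k', ∀ b : LP k k' → Finset ι, PD b → (∀ l ∈ U, b l = ∅) → uni b ≠ ∅ →
    (∀ l, ∀ q ∈ b l, (LWs D w r k k' c).g l q ≠ 0) →
    ∃ ψ : ι → ℝ, SumB ψ ((C * (1 + Real.log (nm (uni b)))) ^ (MQ k k')) ∧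
      (∀ q, 0 ≤ ((MQ k k' : ℝ) - 1) + ψ q) ∧ ∀ q, q ∉ uni b →
        ‖HG D (LWs D w r k k' c) U b q‖ ≤ 1 ∧
          ‖HG D (LWs D w r k k' c) U b q‖ ≤ (((MQ k k' : ℝ) - 1) + ψ q) / (MQ k k' : ℝ) := by
  classical
  obtain ⟨C, hC1, hC⟩ := psiW_sumB hD
  have h1k : 1 ≤ 2 ^ (k + k') := Nat.one_le_two_pow
  have hMP8 : 8 ≤ MP k k' := by
    unfold MP
    omega
  have hMP : (8 : ℝ) ≤ (MP k k' : ℝ) := by exact_mod_cast hMP8
  have hMP0 : (0 : ℝ) < (MP k k' : ℝ) := by linarith
  have hMQ : (MQ k k' : ℝ) = 2 * (MP k k' : ℝ) := by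
    unfold MQ
    push_cast
    ring
  have hMQ0 : (0 : ℝ) < (MQ k k' : ℝ) := by linarith
  refine ⟨C, fun U hU b hb hbU hne _ => ?_⟩
  obtain ⟨p0, hp0⟩ := nonempty_iff_ne_empty.2 hne
  obtain ⟨m0, hm0⟩ := mem_uni.1 hp0
  have hm0U : m0 ∉ U := fun hm => by
    rw [hbU m0 hm] at hm0
    exact absurd hm0 (notMem_empty _)
  obtain ⟨l, hl, l', hl', hll, hnl, hnl'⟩ := exists_two (UsQ_sub hU) hm0U
  have hne' : l ≠ l' := fun e => hll (by rw [e])
  rw [← LWs_lk D w r c, ← LWs_lk D w r c] at hll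
  set T := W2_T (LWs D w r k k' c).lk b l l' with hT
  set c₁ : κ → ZMod 2 := c l + c l' with hc
  have hTs : T ⊆ uni b := filter_subset _ _
  have hTne : T ≠ ∅ := by
    refine nonempty_iff_ne_empty.1 ⟨p0, ?_⟩
    rw [hT, W2_T]
    refine mem_filter.2 ⟨hp0, ?_⟩
    have h1 : W2_t (LWs D w r k k' c).lk b l l' p0 =
        (LWs D w r k k' c).lk l m0 + (LWs D w r k k' c).lk l' m0 := by
      unfold W2_t
      rw [sum_eq_single m0, if_pos hm0]
      · intro m _ hm
        exact if_neg fun h => (disjoint_left.1 (hb m m0 hm)) h hm0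
      · intro h
        exact absurd (mem_univ _) h
    rw [h1]
    intro h
    have h5 : ∀ x y : ZMod 2, x + y = 0 → x = y := by decide
    exact hll (h5 _ _ h)
  have hTn : (1 : ℝ) ≤ nm T := by exact_mod_cast one_le_nm T
  have hlT : 0 ≤ Real.log (nm T) := Real.log_nonneg hTn
  have hlog : Real.log (nm T) ≤ Real.log (nm (uni b)) := by
    refine Real.log_le_log (by linarith) ?_
    exact_mod_cast Pool.Agent.Lib.MP_1a91b9_ntQ.D.nm_mono hTs
  refine ⟨psiW D w T c₁, (hC T c₁ (Or.inl hTne)).mono ?_, fun q => ?_, fun q hq => ?_⟩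
  · have h1 : 1 ≤ C * (1 + Real.log (nm (uni b))) := by nlinarith
    calc (C * (1 + Real.log (nm T))) ^ 3 ≤ (C * (1 + Real.log (nm (uni b)))) ^ 3 := by
          refine pow_le_pow_left₀ (by positivity) ?_ 3
          exact mul_le_mul_of_nonneg_left (by linarith) (by linarith)
      _ ≤ _ := pow_le_pow_right₀ h1 (by
          unfold MQ
          omega)
  · have := psiW_ge (D := D) (w := w) q T c₁
    rw [hMQ]
    linarith
  · by_cases hq0 : D.dg w q = 0
    · -- all the labels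
      have hH : HG D (LWs D w r k k' c) U b q =
          ∑ z ∈ U, (nP k k' z : ℂ) * e2 (D.dg (c z) q + xg D (LWs D w r k k' c) b z q) := by
        unfold HG
        refine sum_congr rfl fun z hz => ?_
        rw [gWs_zero D r c hq0, Qz_mem hU hz, mul_zero, zero_add, e2_add, mul_assoc]
      have hTq : q ∉ T := fun h => hq (hTs h)
      have hsg : sg ((D.dg (c l) q + xg D (LWs D w r k k' c) b l q) +
          (D.dg (c l') q + xg D (LWs D w r k k' c) b l' q)) = D.ch T c₁ q := by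
        unfold Dat2.ch
        rw [if_neg hTq]
        congr 1
        have h1 : D.ex1 T c₁ q = D.dg c₁ q + ∑ p ∈ T, D.s q p := rfl
        rw [h1, hT, ← W2_sumT (LWs D w r k k' c).lk D b l l' q, hc, dg_add,
          xg_gen D hD.tw (LWs D w r k k' c) b l q hq, xg_gen D hD.tw (LWs D w r k k' c) b l' q hq,
          hq0]
        ring
      have hns := norm_wsum U (nP k k') (fun z => (nP_pos z).le)
        (fun z => D.dg (c z) q + xg D (LWs D w r k k' c) b z q) (a := 2 / (MP k k' : ℝ))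
        (by positivity) hl hl' hne' hnl hnl'
      rw [hsg, sum_nP (UsQ_sub hU)] at hns
      have e1 : 1 - 2 / (MP k k' : ℝ) / 2 * (1 - D.ch T c₁ q) =
          (((MQ k k' : ℝ) - 1) + psiW D w T c₁ q) / (MQ k k' : ℝ) := by
        rw [psiW_zero hq0, hMQ]
        field_simp
        ring
      rw [← hH, e1] at hns
      refine ⟨hns.trans ?_, hns⟩
      rw [div_le_one hMQ0, psiW_zero hq0]
      have := (abs_le.1 (W2_chabs D T c₁ q)).2
      linarith
    · -- only the labels of Sp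
      have hcard : ((Sp k k').card : ℝ) ≤ 4 := by
        have h2 : (Sp k k').card ≤ 4 := by
          unfold Sp
          rw [card_product]
          have h3 : ({none, some 0} : Finset (Option (Lab2 k))).card ≤ 2 := card_le_two
          have h4 : ({none, some 0} : Finset (Option (Lab2 k'))).card ≤ 2 := card_le_two
          calc _ ≤ 2 * 2 := Nat.mul_le_mul h3 h4
            _ = 4 := by norm_num
        exact_mod_cast h2
      have hn : ‖HG D (LWs D w r k k' c) U b q‖ ≤ 1 := by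
        unfold HG
        refine (norm_sum_le _ _).trans ?_
        have h2 : ∀ z ∈ U, ‖(LWs D w r k k' c).g z q * e2 (xg D (LWs D w r k k' c) b z q)‖ =
            if z ∈ Sp k k' then 1 / 4 else 0 := by
          intro z _
          rw [norm_mul, norm_e2, mul_one]
          by_cases hz : z ∈ Sp k k'
          · rw [if_pos hz, gWs_one D r c hq0 hz, norm_mul, norm_e2, mul_one]
            norm_num
          · rw [if_neg hz, gWs_ne D r c hq0 hz, norm_zero]
        rw [sum_congr rfl h2, ← sum_filter, sum_const, nsmul_eq_mul]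
        have h3 : ((U.filter fun z => z ∈ Sp k k').card : ℝ) ≤ ((Sp k k').card : ℝ) := by
          rw [Nat.cast_le]
          exact card_le_card fun z hz => (mem_filter.1 hz).2
        linarith
      rw [psiW_one hq0, sub_add_cancel, div_self hMQ0.ne']
      exact ⟨hn, hn⟩

end

end Pool.Agent.Lib.MP_1a91b9_ntDV
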