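import Pool.Agent.Lib.MP_1a91b9_ntDV.W0

set_option autoImplicit false
set_option linter.unusedSectionVars false

namespace Pool.Agent.Lib.MP_1a91b9_ntDV

open Finset Pool.Agent.Lib.MP_1a91b9_ntH Pool.Agent.Lib.MP_1a91b9_ntQ
open Pool.Agent.Lib.MP_1a91b9_ntQ.Da Pool.Agent.Lib.MP_1a91b9_ntV Pool.Agent.Lib.MP_1a91b9_ntW

noncomputable section

variable {ι : Type} [DecidableEq ι] {κ : Type} [Fintype κ] [DecidableEq κ] [PS ι] {k k' : ℕ}

private theorem W3_small (δ K B ε : ℝ) (hδ : 0 < δ) (hK : 0 < K) (hB : 1 ≤ B) (hε : 0 < ε) :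
    ∃ X₀ : ℕ, ∀ X : ℕ, X₀ ≤ X → K * X * Real.log X ^ (-δ) * B ^ δ ≤ ε * X := by
  have h1 : Filter.Tendsto (fun X : ℕ => Real.log (X : ℝ) ^ (-δ)) Filter.atTop (nhds 0) :=
    (tendsto_rpow_neg_atTop hδ).comp
      (Real.tendsto_log_atTop.comp tendsto_natCast_atTop_atTop)
  have hP : 0 < K * B ^ δ := mul_pos hK (Real.rpow_pos_of_pos (by linarith) _)
  have h2 : ∀ᶠ X : ℕ in Filter.atTop, Real.log (X : ℝ) ^ (-δ) < ε / (K * B ^ δ) :=
    h1.eventually (gt_mem_nhds (div_pos hε hP))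
  obtain ⟨X₀, h3⟩ := Filter.eventually_atTop.1 h2
  refine ⟨X₀, fun X hX => ?_⟩
  have h4 := h3 X hX
  rw [lt_div_iff₀ hP] at h4
  have h5 : K * X * Real.log X ^ (-δ) * B ^ δ = (Real.log (X : ℝ) ^ (-δ) * (K * B ^ δ)) * X := by
    ring
  rw [h5]
  exact mul_le_mul_of_nonneg_right h4.le (Nat.cast_nonneg X)

private theorem W3_nP (x : LP k k') : 2 / (MP k k' : ℝ) ≤ nP k k' x := by
  have h1 : ∀ (n : ℕ) (o : Option (Lab2 n)), ((2 : ℝ) ^ n)⁻¹ / 2 ≤ hk n o := by
    intro n o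
    cases o with
    | none =>
      show ((2 : ℝ) ^ n)⁻¹ / 2 ≤ 1 / 2
      have h2 : ((2 : ℝ) ^ n)⁻¹ ≤ 1 := inv_le_one_of_one_le₀ (one_le_pow₀ (by norm_num))
      linarith
    | some l => exact le_refl _
  have h2 : 2 / (MP k k' : ℝ) = ((2 : ℝ) ^ k)⁻¹ / 2 * (((2 : ℝ) ^ k')⁻¹ / 2) := by
    unfold MP
    push_cast
    rw [pow_add]
    field_simp
    norm_num
  rw [h2]
  exact mul_le_mul (h1 k _) (h1 k' _) (by positivity) (hk_pos k _).le

private theorem W3_one {x : ZMod 2} (h : x ≠ 0) : x = 1 := by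
  have h1 : ∀ x : ZMod 2, x ≠ 0 → x = 1 := by decide
  exact h1 x h

private theorem W3_eq {x y : ZMod 2} (h : x + y = 0) : x = y := by
  have h1 : ∀ x y : ZMod 2, x + y = 0 → x = y := by decide
  exact h1 x y h

private theorem W3_ch_abs (D : Dat2 ι κ) (T : Finset ι) (c : κ → ZMod 2) (q : ι) :
    |D.ch T c q| ≤ 1 := by
  unfold Dat2.ch
  split_ifs
  · simp
  · exact (sg2_abs _).le

private theorem W3_card : (Sp k k').card = 4 := by
  unfold Sp
  rw [card_product, card_pair (Option.some_ne_none _).symm, card_pair (Option.some_ne_none _).symm]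

private theorem W3_nn : ((none, none) : LP k k') ∈ Sp k k' := mem_Sp.2 ⟨Or.inl rfl, Or.inl rfl⟩

private theorem W3_g0 (D : Dat2 ι κ) {w : κ → ZMod 2} (r : ι → ZMod 2) (c : LP k k' → κ → ZMod 2)
    {U : Finset (LP k k')} (hU : U ∈ UsQ k k') {q : ι} (hq : D.dg w q = 0) :
    ∑ x ∈ U, (LWs D w r k k' c).g x q = ∑ x ∈ U, (nP k k' x : ℂ) * e2 (D.dg (c x) q) := by
  refine sum_congr rfl fun x hx => ?_
  rw [gWs_zero D r c hq, Qz_mem hU hx, mul_zero, zero_add]

private theorem W3_g1 (D : Dat2 ι κ) {w : κ → ZMod 2} (r : ι → ZMod 2) (c : LP k k' → κ → ZMod 2)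
    {U : Finset (LP k k')} (hU : U ∈ UsQ k k') {q : ι} (hq : D.dg w q ≠ 0) :
    ∑ x ∈ U, (LWs D w r k k' c).g x q = ∑ x ∈ Sp k k', (((1 / 4 : ℝ) : ℝ) : ℂ) * e2 (D.dg (c x) q) := by
  rw [← sum_subset (Sp_sub hU) fun x _ hx => gWs_ne D r c hq hx]
  refine sum_congr rfl fun x hx => ?_
  rw [gWs_one D r c hq hx]
  push_cast
  rfl

private theorem W3_nrm (D : Dat2 ι κ) {w : κ → ZMod 2} (r : ι → ZMod 2) (c : LP k k' → κ → ZMod 2)
    {U : Finset (LP k k')} (hU : U ∈ UsQ k k') (q : ι) :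
    ‖∑ x ∈ U, (LWs D w r k k' c).g x q‖ ≤ 1 := by
  by_cases hq : D.dg w q = 0
  · rw [W3_g0 D r c hU hq]
    refine (norm_sum_le _ _).trans (le_of_eq ?_)
    rw [← sum_nP (UsQ_sub hU)]
    refine sum_congr rfl fun x _ => ?_
    rw [norm_mul, norm_e2, mul_one, Complex.norm_real, Real.norm_of_nonneg (nP_pos x).le]
  · rw [W3_g1 D r c hU hq]
    refine (norm_sum_le _ _).trans (le_of_eq ?_)
    have h1 : ∀ x ∈ Sp k k', ‖(((1 / 4 : ℝ) : ℝ) : ℂ) * e2 (D.dg (c x) q)‖ = 1 / 4 := by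
      intro x _
      rw [norm_mul, norm_e2, mul_one, Complex.norm_real, Real.norm_of_nonneg (by norm_num)]
    rw [sum_congr rfl h1, sum_const, W3_card, nsmul_eq_mul]
    norm_num

/-- **W3** (medium). The mean values of the maximal sets, the analogue of `LW_main` (MP_1a91b9_ntW/D/SysW.lean) and of
leaf E8 (`LPs_main`, file E8.lean of this folder, proved).
Proof. Let `c₀ = c (none, none)` (`(none, none) ∈ Sp ⊆ U`). For `D.dg w q = 0` the local factor is
`∑ x ∈ U, (nP x : ℂ) * e2 (D.dg (c x) q)` (`gWs_zero`, `Qz_mem`); for `D.dg w q ≠ 0` it is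
`∑ x ∈ Sp, 1 / 4 * e2 (D.dg (c x) q)` (`Sp ⊆ U`, `gWs_one`, `gWs_ne`; `card Sp = 4`).
Case 1: some `x ∈ U` with `c₁ = c x + c₀ ≠ 0, w`. Then `mQ w c U = 0` (if all `c x ∈ {0, w}` and `c₀ = 0`, then
`c₁ ∈ {0, w}`), and with `ψ = psiW D w ∅ c₁` the factor has the norm at most `((MQ - 1) + ψ q) / MQ` and `1`
(`norm_wsum` with `a = 2 / MP`, which is the smallest weight, see E8; `psiW_zero`, `psiW_one`), so `ub2` (with
`psiW_sumB hD`) makes the sum small as in `LW_main`.
Case 2: all `c x + c₀ ∈ {0, w}` but some `x ∈ Sp` with `c x ≠ c₀`, so `c x = c₀ + w`. Then `mQ w c U = 0`, and for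
`D.dg w q ≠ 0` the factor has the norm at most `1 / 2` (two of the four signs are opposite:
`D.dg (c x) q = D.dg c₀ q + 1`; so the norm is `≤ 2 / 4`); take `ψ = D.ch ∅ w` (`hD.cb` with `T = ∅`, `w ≠ 0`):
`((MQ - 1) + 1) / MQ = 1` for `dg w q = 0` and `1 - 2 / MQ ≥ 1 / 2` otherwise; `ub2` again.
Case 3: `c x = c₀` for `x ∈ Sp` and `c x ∈ {c₀, c₀ + w}` for `x ∈ U`: the factor is `e2 (D.dg c₀ q)` for all `q`
(`sum_nP (UsQ_sub hU)`; `D.dg w q = 0` in the first kind). If `c₀ = 0`: `mQ w c U = 1` and the difference is `0`. If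
`c₀ ≠ 0`: `mQ w c U = 0` and `hD.mz c₀` (as at the end of `LN_main`, `ex1_empty`). -/
theorem LWs_main {D : Dat2 ι κ} {w : κ → ZMod 2} (hD : OKw D w) (r : ι → ZMod 2)
    (c : LP k k' → κ → ZMod 2) :
    ∀ U ∈ UsQ k k', ∀ ε : ℝ, 0 < ε → ∃ X₀ : ℕ, ∀ X : ℕ, X₀ ≤ X →
      ‖∑ S ∈ Sx ι X, ∏ q ∈ S, ∑ x ∈ U, (LWs D w r k k' c).g x q - mQ w c U * ((Sx ι X).card : ℂ)‖ ≤
        ε * X := by
  classical
  intro U hU ε hε
  have hsum := sum_nP (UsQ_sub hU)
  have hMP8 : 8 ≤ MP k k' := by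
    unfold MP
    have : 1 ≤ 2 ^ (k + k') := Nat.one_le_two_pow
    omega
  have hM8r : (8 : ℝ) ≤ (MP k k' : ℝ) := by exact_mod_cast hMP8
  have hMQr : (MQ k k' : ℝ) = 2 * (MP k k' : ℝ) := by
    unfold MQ
    push_cast
    ring
  have hM2 : 2 ≤ MQ k k' := by
    unfold MQ
    omega
  have hm0 : (0 : ℝ) < (MQ k k' : ℝ) := by
    rw [hMQr]
    linarith
  have h0U : ((none, none) : LP k k') ∈ U := Sp_sub hU W3_nn
  have hend : ∀ (ψ : ι → ℝ) (B : ℝ), SumB ψ B → mQ w c U = 0 →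
      (∀ q, ‖∑ x ∈ U, (LWs D w r k k' c).g x q‖ ≤ (((MQ k k' : ℝ) - 1) + ψ q) / (MQ k k' : ℝ)) →
      ∃ X₀ : ℕ, ∀ X : ℕ, X₀ ≤ X →
        ‖∑ S ∈ Sx ι X, ∏ q ∈ S, ∑ x ∈ U, (LWs D w r k k' c).g x q -
          mQ w c U * ((Sx ι X).card : ℂ)‖ ≤ ε * X := by
    intro ψ B hS hmQ hH
    obtain ⟨C1, hC1⟩ := hD.an.cheb
    obtain ⟨C2, hC2⟩ := hD.an.zt
    obtain ⟨K, hK, hub⟩ := ub2 hC1 hC2 (MQ k k') hM2
    obtain ⟨X₀, hX₀⟩ := W3_small (1 / (MQ k k' : ℝ)) K B ε (by positivity) hK hS.hB hε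
    refine ⟨max X₀ 2, fun X hX => ?_⟩
    rw [hmQ, zero_mul, sub_zero]
    have h1 : ‖∑ S ∈ Sx ι X, ∏ q ∈ S, ∑ x ∈ U, (LWs D w r k k' c).g x q‖ ≤
        ∑ S ∈ Sx ι X, ∏ q ∈ S, ‖∑ x ∈ U, (LWs D w r k k' c).g x q‖ := by
      refine (norm_sum_le _ _).trans (sum_le_sum fun S _ => ?_)
      rw [norm_prod]
    have h2 := hub ψ _ hS (fun q => ‖∑ x ∈ U, (LWs D w r k k' c).g x q‖)
      (fun q => ⟨norm_nonneg _, W3_nrm D r c hU q, hH q⟩) X ((le_max_right _ _).trans hX)
    have h3 := hX₀ X ((le_max_left _ _).trans hX)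
    exact h1.trans (h2.trans h3)
  by_cases hB : ∃ l ∈ U, c l + c (none, none) ≠ 0 ∧ c l + c (none, none) ≠ w
  · obtain ⟨l, hl, hc0, hcw⟩ := hB
    have hl0 : l ≠ (none, none) := by
      rintro rfl
      apply hc0
      funext j
      exact z2_add_self _
    have hmQ : mQ w c U = 0 := by
      unfold mQ
      refine if_neg fun h => ?_
      have e0 := h.1 _ W3_nn
      rw [e0, add_zero] at hc0 hcw
      rcases h.2 l hl with h1 | h1
      · exact hc0 h1
      · exact hcw h1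
    obtain ⟨C, hC1, hC⟩ := psiW_sumB hD
    refine hend _ _ (hC ∅ (c l + c (none, none)) (Or.inr ⟨hc0, hcw⟩)) hmQ fun q => ?_
    by_cases hq0 : D.dg w q = 0
    · rw [W3_g0 D r c hU hq0, psiW_zero hq0]
      have hns := norm_wsum U (nP k k') (fun x => (nP_pos x).le) (fun x => D.dg (c x) q)
        (a := 2 / (MP k k' : ℝ)) (by positivity) hl h0U hl0 (W3_nP l) (W3_nP _)
      have hsg : sg (D.dg (c l) q + D.dg (c (none, none)) q) =
          D.ch ∅ (c l + c (none, none)) q := by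
        rw [ch_empty, dg_add]
      rw [hsg, hsum] at hns
      refine hns.trans (le_of_eq ?_)
      rw [hMQr]
      field_simp
      ring
    · rw [psiW_one hq0]
      refine (W3_nrm D r c hU q).trans (le_of_eq ?_)
      rw [sub_add_cancel, div_self hm0.ne']
  · push Not at hB
    by_cases hE : ∃ x ∈ Sp k k', c x ≠ c (none, none)
    · obtain ⟨x, hx, hxc⟩ := hE
      have hx0 : c x + c (none, none) ≠ 0 := by
        intro h
        apply hxc
        funext j
        exact W3_eq (congrFun h j)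
      have hxw : c x + c (none, none) = w := hB x (Sp_sub hU hx) hx0
      have hne : x ≠ (none, none) := fun e => hxc (by rw [e])
      have hmQ : mQ w c U = 0 := by
        unfold mQ
        exact if_neg fun h => hxc ((h.1 x hx).trans (h.1 _ W3_nn).symm)
      obtain ⟨C, hC⟩ := hD.cb
      refine hend _ _ (SumB.of (hC ∅ w (Or.inr hD.w0))) hmQ fun q => ?_
      rw [ch_empty]
      by_cases hq0 : D.dg w q = 0
      · rw [hq0, sg2_zero]
        refine (W3_nrm D r c hU q).trans (le_of_eq ?_)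
        rw [sub_add_cancel, div_self hm0.ne']
      · rw [W3_g1 D r c hU hq0, W3_one hq0, Pool.Agent.Lib.MP_1a91b9_ntQ.sg2_one]
        have hns := norm_wsum (Sp k k') (fun _ => (1 / 4 : ℝ)) (fun _ => by norm_num)
          (fun x => D.dg (c x) q) (a := 1 / 4) (by norm_num) hx W3_nn hne le_rfl le_rfl
        have hsg : sg (D.dg (c x) q + D.dg (c (none, none)) q) = -1 := by
          rw [← dg_add, hxw, W3_one hq0, Pool.Agent.Lib.MP_1a91b9_ntQ.sg2_one]
        rw [hsg, sum_const, W3_card, nsmul_eq_mul] at hns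
        refine hns.trans ?_
        rw [le_div_iff₀ hm0, hMQr]
        push_cast
        nlinarith
    · push Not at hE
      have hg : ∀ q, ∑ x ∈ U, (LWs D w r k k' c).g x q = e2 (D.ex1 ∅ (c (none, none)) q) := by
        intro q
        rw [ex1_empty]
        by_cases hq0 : D.dg w q = 0
        · rw [W3_g0 D r c hU hq0]
          have h1 : ∀ x ∈ U, (nP k k' x : ℂ) * e2 (D.dg (c x) q) =
              (nP k k' x : ℂ) * e2 (D.dg (c (none, none)) q) := by
            intro x hx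
            by_cases h3 : c x + c (none, none) = 0
            · have h4 : c x = c (none, none) := by
                funext j
                exact W3_eq (congrFun h3 j)
              rw [h4]
            · have h4 := hB x hx h3
              have h5 : D.dg (c x) q = D.dg (c (none, none)) q := by
                refine W3_eq ?_
                rw [← dg_add, h4, hq0]
              rw [h5]
          rw [sum_congr rfl h1, ← sum_mul, ← Complex.ofReal_sum, hsum, Complex.ofReal_one, one_mul]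
        · rw [W3_g1 D r c hU hq0]
          have h1 : ∀ x ∈ Sp k k', (((1 / 4 : ℝ) : ℝ) : ℂ) * e2 (D.dg (c x) q) =
              (((1 / 4 : ℝ) : ℝ) : ℂ) * e2 (D.dg (c (none, none)) q) := by
            intro x hx
            rw [hE x hx]
          rw [sum_congr rfl h1, sum_const, W3_card, nsmul_eq_mul]
          push_cast
          ring
      simp only [hg]
      by_cases h0 : c (none, none) = 0
      · have hmQ : mQ w c U = 1 := by
          unfold mQ
          refine if_pos ⟨fun x hx => (hE x hx).trans h0, fun x hx => ?_⟩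
          by_cases h3 : c x = 0
          · exact Or.inl h3
          · have h4 := hB x hx (by rw [h0, add_zero]; exact h3)
            rw [h0, add_zero] at h4
            exact Or.inr h4
        refine ⟨0, fun X _ => ?_⟩
        simp only [h0, ex1_empty, dg_zero, e2_zero, prod_const_one, sum_const, nsmul_eq_mul,
          mul_one, hmQ, one_mul, sub_self, norm_zero]
        positivity
      · have hmQ : mQ w c U = 0 := by
          unfold mQ
          exact if_neg fun h => h0 (h.1 _ W3_nn)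
        obtain ⟨X₀, hX₀⟩ := hD.mz (c (none, none)) h0 ε hε
        refine ⟨X₀, fun X hX => ?_⟩
        have h1 := hX₀ X hX
        rw [filter_true_of_mem fun S _ => disjoint_empty_right S] at h1
        rw [hmQ, zero_mul, sub_zero]
        exact h1

end

end Pool.Agent.Lib.MP_1a91b9_ntDV
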