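import Pool.Agent.Lib.MP_1a91b9_ntDV.W1
import Pool.Agent.Lib.MP_1a91b9_ntDV.W2
import Pool.Agent.Lib.MP_1a91b9_ntDV.W3

set_option autoImplicit false
set_option linter.unusedSectionVars false

namespace Pool.Agent.Lib.MP_1a91b9_ntDV

open Finset Pool.Agent.Lib.MP_1a91b9_ntH Pool.Agent.Lib.MP_1a91b9_ntQ
open Pool.Agent.Lib.MP_1a91b9_ntQ.Da Pool.Agent.Lib.MP_1a91b9_ntV Pool.Agent.Lib.MP_1a91b9_ntW

noncomputable section

variable {ι : Type} [DecidableEq ι] {κ : Type} [Fintype κ] [DecidableEq κ] [PS ι] {k k' : ℕ}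

/-- **W4a** (easy+). The system satisfies the hypotheses of the engine. Proof: as `LPs_OK` in EA.lean (this folder):
`diag`, `os` from `Phi1_self`, `Phi1_os`; `nrm`: `nP ≤ 1` (see `LPs_OK`) or `1 / 4` or `0`; `two`; `unl`: from
`Qo_unl` and `Lgs2_sub`; `er`: `card_UsP (UsQ_sub hU)`; `small`, `mid`, `main` are W1, W2, W3. -/
theorem LWs_OK {D : Dat2 ι κ} {w : κ → ZMod 2} (hD : OKw D w) (r : ι → ZMod 2)
    (c : LP k k' → κ → ZMod 2) :
    (LWs D w r k k' c).OK D (MQ k k') (UsQ k k') (mQ w c) fun X => ((Sx ι X).card : ℂ) := by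
  refine
    { diag := fun l => Phi1_self _ l
      os := fun l m => Phi1_os _ l m
      nrm := fun l q => ?_
      two := ?_
      unl := fun U hU x hx y hy => ?_
      er := fun U hU l hl h => ?_
      small := LWs_small hD r c
      mid := LWs_mid hD r c
      main := LWs_main hD r c }
  · by_cases hq : D.dg w q = 0
    · rw [gWs_zero D r c hq, norm_mul, norm_e2, mul_one, Complex.norm_real, Real.norm_eq_abs,
        abs_of_pos (nP_pos l)]
      have h1 := hk_le k l.1
      have h2 := hk_le k' l.2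
      have h3 := hk_pos k l.1
      have h4 := hk_pos k' l.2
      show hk k l.1 * hk k' l.2 ≤ 1
      nlinarith
    · by_cases hl : l ∈ Sp k k'
      · rw [gWs_one D r c hq hl, norm_mul, norm_e2, mul_one]
        norm_num
      · rw [gWs_ne D r c hq hl, norm_zero]
        exact zero_le_one
  · have : 1 ≤ 2 ^ (k + k') := Nat.one_le_two_pow
    show 2 ≤ 2 * (8 * 2 ^ (k + k'))
    omega
  · obtain ⟨A, hA, B, hB, rfl⟩ := mem_UsQ.1 hU
    rw [mem_product] at hx hy
    rw [LWs_lk, Qo_unl (Lgs2_sub hA) hx.1 hy.1, Qo_unl (Lgs2_sub hB) hx.2 hy.2, add_zero]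
  · have h1 := card_UsP (UsQ_sub hU)
    have h2 := card_UsP (UsQ_sub h)
    have h3 := card_erase_add_one hl
    omega

/-- The weights of the system `LW` with `h = 1`. -/
def gw (D : Dat2 ι κ) (w : κ → ZMod 2) (r : ι → ZMod 2) (cc : Lab2 k → κ → ZMod 2) :
    Lab2 k → ι → ℂ := gW D w (fun _ => 1) r cc

open Classical in
/-- The mean value. -/
def mw (w : κ → ZMod 2) (cc : Lab2 k → κ → ZMod 2) : ℂ :=
  ∑ U ∈ Lgs2 k, if cc 0 = 0 ∧ ∀ l ∈ U, cc l = 0 ∨ cc l = w then 1 else 0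

private theorem W4_go_zero (D : Dat2 ι κ) {w : κ → ZMod 2} (r : ι → ZMod 2)
    (cc : Lab2 k → κ → ZMod 2) (o : Option (Lab2 k)) {q : ι} (hq : D.dg w q = 0) :
    go (gw D w r cc) o q = (hk k o : ℂ) * e2 (r q * Qz k o + D.dg (co cc o) q) := by
  cases o with
  | none =>
    show (1 / 2 : ℂ) = ((1 / 2 : ℝ) : ℂ) * e2 (r q * 0 + D.dg 0 q)
    rw [dg_zero, mul_zero, add_zero, e2_zero]
    push_cast
    ring
  | some l =>
    have h1 : gw D w r cc l q = 1 * (((2 : ℂ) ^ k)⁻¹ * e2 (r q * Q2 l + D.dg (cc l) q)) :=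
      gW_zero D w (fun _ => 1) r cc hq l
    show gw D w r cc l q / 2 = ((((2 : ℝ) ^ k)⁻¹ / 2 : ℝ) : ℂ) *
      e2 (r q * Q2 l + D.dg (cc l) q)
    rw [h1]
    push_cast
    ring

private theorem W4_go_one (D : Dat2 ι κ) {w : κ → ZMod 2} (r : ι → ZMod 2)
    (cc : Lab2 k → κ → ZMod 2) (o : Option (Lab2 k)) {q : ι} (hq : D.dg w q ≠ 0)
    (ho : o = none ∨ o = some 0) :
    go (gw D w r cc) o q = 1 / 2 * e2 (D.dg (co cc o) q) := by
  rcases ho with rfl | rfl
  · show (1 / 2 : ℂ) = 1 / 2 * e2 (D.dg 0 q)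
    rw [dg_zero, e2_zero, mul_one]
  · have h1 : gw D w r cc 0 q = 1 * e2 (D.dg (cc 0) q) := gW_one D w (fun _ => 1) r cc hq
    show gw D w r cc 0 q / 2 = 1 / 2 * e2 (D.dg (cc 0) q)
    rw [h1]
    ring

private theorem W4_go_ne (D : Dat2 ι κ) {w : κ → ZMod 2} (r : ι → ZMod 2)
    (cc : Lab2 k → κ → ZMod 2) (o : Option (Lab2 k)) {q : ι} (hq : D.dg w q ≠ 0)
    (ho : ¬ (o = none ∨ o = some 0)) :
    go (gw D w r cc) o q = 0 := by
  cases o with
  | none => exact absurd (Or.inl rfl) ho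
  | some l =>
    have hl : l ≠ 0 := by
      rintro rfl
      exact ho (Or.inr rfl)
    have h1 : gw D w r cc l q = 0 := gW_ne D w (fun _ => 1) r cc hq hl
    show gw D w r cc l q / 2 = 0
    rw [h1, zero_div]

private theorem W4_pt (D : Dat2 ι κ) {w : κ → ZMod 2} (r : ι → ZMod 2)
    (cc : Lab2 k → κ → ZMod 2) (cc' : Lab2 k' → κ → ZMod 2) (ce : LP k k' → ZMod 2)
    (x : LP k k') (q : ι) :
    go (gw D w r cc) x.1 q * go (gw D w r cc') x.2 q * e2 (ce x * D.dg w q) =
      gWs D w r k k' (cP w cc cc' ce) x q := by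
  by_cases hq : D.dg w q = 0
  · have h1 : gWs D w r k k' (cP w cc cc' ce) x q = (nP k k' x : ℂ) *
        e2 (r q * (Qz k x.1 + Qz k' x.2) + D.dg (cP w cc cc' ce x) q) := gWs_zero D r _ hq x
    rw [h1, W4_go_zero D r cc x.1 hq, W4_go_zero D r cc' x.2 hq, cP, dg_add, dg_add, dg_smul,
      mul_add]
    simp only [e2_add]
    show _ = ((hk k x.1 * hk k' x.2 : ℝ) : ℂ) * _
    push_cast
    ring
  · by_cases hx : x ∈ Sp k k'
    · have h1 : gWs D w r k k' (cP w cc cc' ce) x q = 1 / 4 * e2 (D.dg (cP w cc cc' ce x) q) :=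
        gWs_one D r _ hq hx
      have h2 := mem_Sp.1 hx
      rw [h1, W4_go_one D r cc x.1 hq h2.1, W4_go_one D r cc' x.2 hq h2.2, cP, dg_add, dg_add,
        dg_smul, e2_add, e2_add]
      ring
    · have h1 : gWs D w r k k' (cP w cc cc' ce) x q = 0 := gWs_ne D r _ hq hx
      rw [h1]
      by_cases h2 : x.1 = none ∨ x.1 = some 0
      · have h3 : ¬ (x.2 = none ∨ x.2 = some 0) := fun h => hx (mem_Sp.2 ⟨h2, h⟩)
        rw [W4_go_ne D r cc' x.2 hq h3, mul_zero, zero_mul]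
      · rw [W4_go_ne D r cc x.1 hq h2, zero_mul, zero_mul]

/-- **W4b** (easy+). The product of two mean values. Proof: as `avg_mul` in EA.lean: `avg_BF`, `BF_mul`,
`BF_one D tw (PP k k') PP_self`; the weights: for `D.dg w q = 0`,
`go (gw D w r cc) o q = (hk k o : ℂ) * e2 (r q * Qz k o + D.dg (co cc o) q)` (`o = none`: `1 / 2`; `o = some l`: `gW`
with `h = 1`), for `D.dg w q ≠ 0` it is `1 / 2 * e2 (D.dg (co cc o) q)` for `o = none`, `some 0` and `0` for the others;
so the product times `e2 (ce x * D.dg w q)` is `gWs D w r k k' (cP w cc cc' ce) x q` (`cP` of EA.lean, `dg_add`,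
`dg_smul`, `mem_Sp`). -/
theorem avg_mulW (D : Dat2 ι κ) {w : κ → ZMod 2}
    (tw : ∀ p q, p ≠ q → D.s p q + D.s q p = D.dg w p * D.dg w q) (r : ι → ZMod 2)
    (cc : Lab2 k → κ → ZMod 2) (cc' : Lab2 k' → κ → ZMod 2) (S : Finset ι) :
    avg (BF D (Phi1 PhiQ) (gw D w r cc)) S * avg (BF D (Phi1 PhiQ) (gw D w r cc')) S =
      ∑ ce : LP k k' → ZMod 2, Fh (PP k k') ce * ∑ f : S → LP k k',
        (∏ j : S, (LWs D w r k k' (cP w cc cc' ce)).g (f j) j) *
          e2 (∑ j : S, ∑ l : S, (LWs D w r k k' (cP w cc cc' ce)).Phi (f j) (f l) * D.s j l) := by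
  rw [avg_BF, avg_BF, BF_mul]
  refine (BF_one D tw (PP k k') PP_self _ S).trans (sum_congr rfl fun ce _ => ?_)
  congr 1
  unfold BF
  refine sum_congr rfl fun f _ => ?_
  congr 1
  refine prod_congr rfl fun j _ => ?_
  exact W4_pt D r cc cc' ce (f j) j

private theorem W4_two {w : κ → ZMod 2} (x : κ → ZMod 2) (e : ZMod 2) :
    (x + e • w = 0 ∨ x + e • w = w) ↔ (x = 0 ∨ x = w) := by
  have hw : w + w = 0 := by
    funext j
    exact z2_add_self _
  have hx : x + w = 0 ↔ x = w := by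
    constructor
    · intro h
      have h2 : x + w + w = w := by rw [h, zero_add]
      rwa [add_assoc, hw, add_zero] at h2
    · rintro rfl
      exact hw
  have hx2 : x + w = w ↔ x = 0 := add_eq_right
  have he : e = 0 ∨ e = 1 := by
    revert e
    decide
  rcases he with rfl | rfl
  · rw [zero_smul, add_zero]
  · rw [one_smul, hx, hx2]
    exact or_comm

open Classical in
private theorem W4_ind (w : κ → ZMod 2) (cc : Lab2 k → κ → ZMod 2) (cc' : Lab2 k' → κ → ZMod 2)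
    (A : Finset (Lab2 k)) (B : Finset (Lab2 k')) :
    ((∀ x ∈ Sp k k', co cc x.1 + co cc' x.2 = 0) ∧ ∀ x ∈ insertNone A ×ˢ insertNone B,
      co cc x.1 + co cc' x.2 = 0 ∨ co cc x.1 + co cc' x.2 = w) ↔
    (cc 0 = 0 ∧ ∀ l ∈ A, cc l = 0 ∨ cc l = w) ∧ (cc' 0 = 0 ∧ ∀ l ∈ B, cc' l = 0 ∨ cc' l = w) := by
  have hw : w + w = 0 := by
    funext j
    exact z2_add_self _
  constructor
  · rintro ⟨h1, h2⟩
    refine ⟨⟨?_, fun l hl => ?_⟩, ?_, fun l hl => ?_⟩
    · have h3 := h1 (some 0, none) (mem_Sp.2 ⟨Or.inr rfl, Or.inl rfl⟩)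
      have h4 : cc 0 + 0 = 0 := h3
      rwa [add_zero] at h4
    · have h3 := h2 (some l, none) (mem_product.2 ⟨mem_io.2 (fun m hm => (by
        cases hm
        exact hl)), mem_io.2 (fun m hm => (by cases hm))⟩)
      have h4 : cc l + 0 = 0 ∨ cc l + 0 = w := h3
      rwa [add_zero] at h4
    · have h3 := h1 (none, some 0) (mem_Sp.2 ⟨Or.inl rfl, Or.inr rfl⟩)
      have h4 : 0 + cc' 0 = 0 := h3
      rwa [zero_add] at h4
    · have h3 := h2 (none, some l) (mem_product.2 ⟨mem_io.2 (fun m hm => (by cases hm)),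
        mem_io.2 (fun m hm => (by
          cases hm
          exact hl))⟩)
      have h4 : 0 + cc' l = 0 ∨ 0 + cc' l = w := h3
      rwa [zero_add] at h4
  · rintro ⟨⟨h1, h2⟩, h3, h4⟩
    refine ⟨fun x hx => ?_, fun x hx => ?_⟩
    · obtain ⟨o, p⟩ := x
      have h5 := mem_Sp.1 hx
      have ho : co cc o = 0 := by
        rcases h5.1 with h6 | h6
        · have h7 : o = none := h6
          rw [h7]
          rfl
        · have h7 : o = some 0 := h6
          rw [h7]
          exact h1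
      have hp : co cc' p = 0 := by
        rcases h5.2 with h6 | h6
        · have h7 : p = none := h6
          rw [h7]
          rfl
        · have h7 : p = some 0 := h6
          rw [h7]
          exact h3
      show co cc o + co cc' p = 0
      rw [ho, hp, add_zero]
    · obtain ⟨o, p⟩ := x
      rw [mem_product] at hx
      have ho : co cc o = 0 ∨ co cc o = w := by
        cases o with
        | none => exact Or.inl rfl
        | some l => exact h2 l (mem_io.1 hx.1 l rfl)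
      have hp : co cc' p = 0 ∨ co cc' p = w := by
        cases p with
        | none => exact Or.inl rfl
        | some l => exact h4 l (mem_io.1 hx.2 l rfl)
      show co cc o + co cc' p = 0 ∨ co cc o + co cc' p = w
      rcases ho with ho | ho <;> rcases hp with hp | hp <;> rw [ho, hp]
      · exact Or.inl (add_zero _)
      · exact Or.inr (zero_add _)
      · exact Or.inr (add_zero _)
      · exact Or.inl hw

/-- **W4c** (medium-). The value of the double sum. Proof: as `sum_mP` in EA.lean. For `U ∈ UsQ`: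
`mQ w (cP w cc cc' ce) U = (if ∀ x ∈ Sp, v x + ce x • w = 0 then 1 else 0) * (if ∀ x ∈ U, v x = 0 ∨ v x = w then 1
else 0)` with `v x = co cc x.1 + co cc' x.2`, because `v x + ce x • w ∈ {0, w}` is equivalent to `v x ∈ {0, w}`
(`ce x ∈ {0, 1}`, `w + w = 0`). By `sum_Fh (PP k k') (Sp k k') ..` (E4; `PP` is `0` on `Sp`: `PP_unl (UsQ_sub hU)` and
`Sp_sub hU`) the sum over `ce` is the indicator of `(∀ x ∈ Sp, v x = 0) ∧ ∀ x ∈ U, v x = 0 ∨ v x = w`, and for
`U = insertNone A ×ˢ insertNone B` this is `(cc 0 = 0 ∧ ∀ l ∈ A, cc l ∈ {0, w}) ∧ (cc' 0 = 0 ∧ ∀ l ∈ B, cc' l ∈ {0, w})`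
(labels `(some l, none)`, `(none, some l')`; a sum of two elements of `{0, w}` is in `{0, w}`). The sum over `UsQ` is
the sum over the pairs `(A, B)` (`sum_image` with the injectivity as in `sum_mP`). -/
theorem sum_mQ {w : κ → ZMod 2} (cc : Lab2 k → κ → ZMod 2) (cc' : Lab2 k' → κ → ZMod 2) :
    ∑ ce : LP k k' → ZMod 2, Fh (PP k k') ce * ∑ U ∈ UsQ k k', mQ w (cP w cc cc' ce) U =
      mw w cc * mw w cc' := by
  classical
  have h1 : ∑ ce : LP k k' → ZMod 2, Fh (PP k k') ce * ∑ U ∈ UsQ k k', mQ w (cP w cc cc' ce) U =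
      ∑ U ∈ UsQ k k', if (∀ x ∈ Sp k k', co cc x.1 + co cc' x.2 = 0) ∧
        ∀ x ∈ U, co cc x.1 + co cc' x.2 = 0 ∨ co cc x.1 + co cc' x.2 = w then (1 : ℂ) else 0 := by
    simp only [mul_sum]
    rw [sum_comm]
    refine sum_congr rfl fun U hU => ?_
    by_cases hQ : ∀ x ∈ U, co cc x.1 + co cc' x.2 = 0 ∨ co cc x.1 + co cc' x.2 = w
    · have h2 : (if (∀ x ∈ Sp k k', co cc x.1 + co cc' x.2 = 0) ∧
          ∀ x ∈ U, co cc x.1 + co cc' x.2 = 0 ∨ co cc x.1 + co cc' x.2 = w then (1 : ℂ) else 0) =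
          if ∀ x ∈ Sp k k', co cc x.1 + co cc' x.2 = 0 then (1 : ℂ) else 0 :=
        if_congr (and_iff_left hQ) rfl rfl
      rw [h2]
      refine Eq.trans (sum_congr rfl fun ce _ => ?_)
        ((sum_Fh (PP k k') (Sp k k') (fun a ha b hb =>
          PP_unl (UsQ_sub hU) a (Sp_sub hU ha) b (Sp_sub hU hb)) w
          fun x => co cc x.1 + co cc' x.2).trans ?_)
      · congr 1
        by_cases h : ∀ x ∈ Sp k k', co cc x.1 + co cc' x.2 + ce x • w = 0
        · rw [if_pos h]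
          exact if_pos ⟨h, fun x hx => (W4_two _ _).2 (hQ x hx)⟩
        · rw [if_neg h]
          exact if_neg fun h3 => h h3.1
      · by_cases h : ∀ x ∈ Sp k k', co cc x.1 + co cc' x.2 = 0
        · rw [if_pos h]
        · rw [if_neg h]
    · rw [if_neg (fun h => hQ h.2)]
      refine sum_eq_zero fun ce _ => ?_
      have h3 : mQ w (cP w cc cc' ce) U = 0 :=
        if_neg fun h => hQ fun x hx => (W4_two _ (ce x)).1 (h.2 x hx)
      rw [h3, mul_zero]
  rw [h1]
  have hinj : Set.InjOn (fun U : Finset (Lab2 k) × Finset (Lab2 k') =>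
      insertNone U.1 ×ˢ insertNone U.2) ((Lgs2 k ×ˢ Lgs2 k' : Finset _) : Set _) := by
    rintro ⟨A, B⟩ - ⟨A', B'⟩ - h
    have h2 : insertNone A ×ˢ insertNone B = insertNone A' ×ˢ insertNone B' := h
    have e1 : A = A' := by
      ext l
      have h3 : ((some l, none) : LP k k') ∈ insertNone A ×ˢ insertNone B ↔
          ((some l, none) : LP k k') ∈ insertNone A' ×ˢ insertNone B' := by rw [h2]
      simpa [mem_product] using h3
    have e2 : B = B' := by
      ext l
      have h3 : ((none, some l) : LP k k') ∈ insertNone A ×ˢ insertNone B ↔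
          ((none, some l) : LP k k') ∈ insertNone A' ×ˢ insertNone B' := by rw [h2]
      simpa [mem_product] using h3
    rw [e1, e2]
  have hU : UsQ k k' = (Lgs2 k ×ˢ Lgs2 k').image fun U => insertNone U.1 ×ˢ insertNone U.2 := by
    ext U
    rw [mem_UsQ, mem_image]
    constructor
    · rintro ⟨A, hA, B, hB, e⟩
      exact ⟨(A, B), mem_product.2 ⟨hA, hB⟩, e⟩
    · rintro ⟨⟨A, B⟩, h, e⟩
      rw [mem_product] at h
      exact ⟨A, h.1, B, h.2, e⟩
  rw [hU, sum_image hinj, sum_product, mw, mw, sum_mul_sum]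
  refine sum_congr rfl fun A _ => sum_congr rfl fun B _ => ?_
  rw [ite_zero_mul_ite_zero, mul_one]
  exact if_congr (W4_ind w cc cc' A B) rfl rfl

/-- **W4d** (easy). Proof: as `pair_mean` in EA.lean. -/
theorem pair_meanW {D : Dat2 ι κ} {w : κ → ZMod 2} (hD : OKw D w) (r : ι → ZMod 2)
    (cc : Lab2 k → κ → ZMod 2) (cc' : Lab2 k' → κ → ZMod 2) (ε : ℝ) (hε : 0 < ε) :
    ∃ X₀ : ℕ, ∀ X : ℕ, X₀ ≤ X →
      ‖∑ S ∈ Sx ι X, avg (BF D (Phi1 PhiQ) (gw D w r cc)) S *
          avg (BF D (Phi1 PhiQ) (gw D w r cc')) S -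
        mw w cc * mw w cc' * ((Sx ι X).card : ℂ)‖ ≤ ε * X := by
  have hN : (0 : ℝ) < Fintype.card (LP k k' → ZMod 2) := by exact_mod_cast Fintype.card_pos
  set ε' : ℝ := ε / Fintype.card (LP k k' → ZMod 2) with hε'
  have hε0 : 0 < ε' := by positivity
  choose X0 h0 using fun ce : LP k k' → ZMod 2 =>
    engineG D hD.an (LWs D w r k k' (cP w cc cc' ce)) (LWs_OK hD r (cP w cc cc' ce)) ε' hε0
  refine ⟨∑ p, X0 p, fun X hX => ?_⟩
  have hXt : ∀ p, X0 p ≤ X := fun p =>
    (single_le_sum (fun _ _ => Nat.zero_le _) (mem_univ p)).trans hX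
  rw [sum_congr rfl fun S _ => avg_mulW D hD.tw r cc cc' S, ← sum_mQ (w := w) cc cc', sum_comm,
    sum_mul, ← sum_sub_distrib]
  calc _ ≤ ∑ p : LP k k' → ZMod 2, ε' * X := by
        refine (norm_sum_le _ _).trans (sum_le_sum fun p _ => ?_)
        have h2 := h0 p X (hXt p)
        rw [← mul_sum, mul_assoc, ← mul_sub, norm_mul]
        have h3 := norm_Fh_le (PP k k') p
        calc _ ≤ 1 * _ := mul_le_mul_of_nonneg_right h3 (norm_nonneg _)
          _ ≤ _ := by
            rw [one_mul]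
            exact h2
    _ = ε * X := by
        rw [sum_const, card_univ, nsmul_eq_mul, hε']
        field_simp

end

end Pool.Agent.Lib.MP_1a91b9_ntDV
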