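import Pool.Agent.Lib.MP_1a91b9_ntDV.W4

set_option autoImplicit false
set_option linter.unusedSectionVars false

namespace Pool.Agent.Lib.MP_1a91b9_ntDV

open Finset Pool.Agent.Lib.MP_1a91b9_ntH Pool.Agent.Lib.MP_1a91b9_ntQ
open Pool.Agent.Lib.MP_1a91b9_ntQ.Da Pool.Agent.Lib.MP_1a91b9_ntV Pool.Agent.Lib.MP_1a91b9_ntW

noncomputable section

variable {ι : Type} [DecidableEq ι] {κ : Type} [Fintype κ] [DecidableEq κ] [PS ι] {k : ℕ}

private theorem W5_conj_e2 (x : ZMod 2) : (starRingEnd ℂ) (e2 x) = e2 x := by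
  unfold e2
  exact Complex.conj_ofReal _

private theorem W5_conj_two : (starRingEnd ℂ) (2 : ℂ) = 2 := map_ofNat _ 2

omit [Fintype κ] [DecidableEq κ] [PS ι] in
private theorem W5_conj_avg [Fintype κ] (D : Dat2 ι κ) (w : κ → ZMod 2) (r : ι → ZMod 2)
    (cc : Lab2 k → κ → ZMod 2) (S : Finset ι) :
    (starRingEnd ℂ) (avg (BF D (Phi1 PhiQ) (gw D w r cc)) S) = avg (BF D (Phi1 PhiQ) (gw D w r cc)) S := by
  have h1 : ∀ (l : Lab2 k) (q : ι), (starRingEnd ℂ) (gw D w r cc l q) = gw D w r cc l q := fun l q => by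
    unfold gw gW
    rw [map_mul, map_one]
    congr 1
    split_ifs
    · rw [map_mul, map_inv₀, map_pow, W5_conj_two, W5_conj_e2]
    · exact W5_conj_e2 _
    · exact map_zero _
  have h2 : ∀ T : Finset ι, (starRingEnd ℂ) (BF D (Phi1 PhiQ) (gw D w r cc) T) =
      BF D (Phi1 PhiQ) (gw D w r cc) T := fun T => by
    unfold BF
    rw [map_sum]
    refine sum_congr rfl fun f _ => ?_
    rw [map_mul, map_prod, W5_conj_e2]
    congr 1
    exact prod_congr rfl fun j _ => h1 _ _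
  unfold avg
  rw [map_div₀, map_sum, map_pow, W5_conj_two]
  congr 1
  exact sum_congr rfl fun T _ => h2 T

private theorem W5_conj_mw (w : κ → ZMod 2) (cc : Lab2 k → κ → ZMod 2) :
    (starRingEnd ℂ) (mw w cc) = mw w cc := by
  unfold mw
  rw [map_sum]
  refine sum_congr rfl fun U _ => ?_
  split_ifs
  · exact map_one _
  · exact map_zero _

omit [PS ι] in
private theorem W5_BF (D : Dat2 ι κ) (w : κ → ZMod 2) (r : ι → ZMod 2) (T : Finset ι) :
    BF D (Phi1 (PhiQ (k := 0))) (gw D w r (0 : Lab2 0 → κ → ZMod 2)) T = 1 := by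
  unfold BF
  have h : ∀ f : T → Lab2 0, (∏ j : T, gw D w r (0 : Lab2 0 → κ → ZMod 2) (f j) j) *
      e2 (∑ j : T, ∑ l : T, Phi1 PhiQ (f j) (f l) * D.s j l) = 1 := by
    intro f
    have h1 : ∀ j : T, gw D w r (0 : Lab2 0 → κ → ZMod 2) (f j) j = 1 := fun j => by
      have h5 : f j = 0 := Subsingleton.elim _ _
      rw [h5]
      unfold gw gW
      rw [one_mul, if_pos rfl]
      have h6 : D.dg ((0 : Lab2 0 → κ → ZMod 2) 0) j = 0 := dg_zero D j
      rw [h6, Q2_zero, mul_zero, add_zero, e2_zero, pow_zero, inv_one, mul_one]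
      split_ifs <;> rfl
    have h2 : ∀ j l : T, Phi1 PhiQ (f j) (f l) = 0 := fun j l => by
      rw [Subsingleton.elim (f l) (f j), Phi1_self]
    rw [Finset.prod_congr rfl (fun j _ => h1 j), Finset.prod_const_one, one_mul]
    have h3 : ∑ j : T, ∑ l : T, Phi1 PhiQ (f j) (f l) * D.s j l = 0 :=
      sum_eq_zero fun j _ => sum_eq_zero fun l _ => by rw [h2, zero_mul]
    rw [h3, e2_zero]
  rw [sum_congr rfl fun f _ => h f, sum_const, card_univ, nsmul_eq_mul, mul_one]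
  have h4 : Fintype.card (T → Lab2 0) = 1 := by
    rw [Fintype.card_eq_one_iff]
    exact ⟨fun _ => 0, fun f => Subsingleton.elim _ _⟩
  rw [h4, Nat.cast_one]

omit [PS ι] in
private theorem W5_avg (D : Dat2 ι κ) (w : κ → ZMod 2) (r : ι → ZMod 2) (S : Finset ι) :
    avg (BF D (Phi1 (PhiQ (k := 0))) (gw D w r (0 : Lab2 0 → κ → ZMod 2))) S = 1 := by
  unfold avg
  rw [sum_congr rfl fun T _ => W5_BF D w r T, sum_const, card_powerset, nsmul_eq_mul, mul_one]
  push_cast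
  exact div_self (pow_ne_zero _ two_ne_zero)

private theorem W5_mw (w : κ → ZMod 2) : mw w (0 : Lab2 0 → κ → ZMod 2) = 1 := by
  classical
  have h : Lgs2 0 = {univ} := by
    ext U
    rw [mem_Lgs2, mem_singleton]
    constructor
    · intro hU
      have h3 : (univ : Finset (Lab2 0)).card ≤ U.card := by
        rw [hU.card, card_univ, pow_zero]
        exact Fintype.card_le_one_iff_subsingleton.2 inferInstance
      exact eq_of_subset_of_card_le (subset_univ _) h3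
    · rintro rfl
      refine ⟨fun l _ m _ => ?_, ?_, mem_univ _⟩
      · rw [Subsingleton.elim m l, sub_self]
        simp [Q2]
      · rw [card_univ, pow_zero, Fintype.card_eq_one_iff]
        exact ⟨0, fun f => Subsingleton.elim _ _⟩
  unfold mw
  rw [h, sum_singleton]
  exact if_pos ⟨rfl, fun l _ => Or.inl rfl⟩

/-- **W5** (medium-). The mean square of the one-sided sums with the weights `gw`. Proof: as `AV_BF` (leaf E11,
store DV_E11.lean) with `pair_meanW` in place of `pair_mean`: all the weights are real; for `k' = 0`, `cc' = 0` the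
weight is `gW D w 1 r 0 l q = 1` for the only label `l = 0` (both cases: `(2 ^ 0)⁻¹ * e2 (r q * Q2 0 + 0) = 1` by
`Q2_zero`, and `e2 0 = 1`), and `mw w 0 = 1` (`Lgs2 0 = {univ}`). -/
theorem AV_BW {D : Dat2 ι κ} {w : κ → ZMod 2} (hD : OKw D w) (r : ι → ZMod 2)
    (cc : Lab2 k → κ → ZMod 2) : AV (BF D (Phi1 PhiQ) (gw D w r cc)) (mw w cc) := by
  intro ε hε
  set v : ℂ := mw w cc with hv
  have hp : 0 < 1 + 2 * ‖v‖ := by positivity
  set ε' : ℝ := ε / (1 + 2 * ‖v‖) with hε'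
  have hε0 : 0 < ε' := by positivity
  obtain ⟨X1, h1⟩ := pair_meanW hD r cc cc ε' hε0
  obtain ⟨X2, h2⟩ := pair_meanW hD r cc (0 : Lab2 0 → κ → ZMod 2) ε' hε0
  refine ⟨X1 + X2, fun X hX => ?_⟩
  have g1 := h1 X (by omega)
  have g2 := h2 X (by omega)
  rw [sum_congr rfl fun S _ => by rw [W5_avg D w r S], W5_mw] at g2
  set A : Finset ι → ℂ := fun S => avg (BF D (Phi1 PhiQ) (gw D w r cc)) S with hA
  have hc : ∀ S, (starRingEnd ℂ) (A S - v) = A S - v := fun S => by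
    rw [map_sub, hv, W5_conj_mw, hA]
    show (starRingEnd ℂ) (avg (BF D (Phi1 PhiQ) (gw D w r cc)) S) - _ = _
    rw [W5_conj_avg]
  have e1 : ((∑ S ∈ Sx ι X, ‖A S - v‖ ^ 2 : ℝ) : ℂ) =
      (∑ S ∈ Sx ι X, A S * A S - v * v * ((Sx ι X).card : ℂ)) -
        2 * v * (∑ S ∈ Sx ι X, A S * 1 - v * 1 * ((Sx ι X).card : ℂ)) := by
    have e2 : ∀ S, ((‖A S - v‖ ^ 2 : ℝ) : ℂ) = A S * A S - 2 * v * A S + v * v := fun S => by
      have e3 := Complex.mul_conj' (A S - v)
      rw [hc S] at e3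
      rw [Complex.ofReal_pow, ← e3]
      ring
    rw [Complex.ofReal_sum, sum_congr rfl fun S _ => e2 S, sum_add_distrib, sum_sub_distrib,
      ← mul_sum, sum_const, nsmul_eq_mul]
    simp only [mul_one]
    ring
  have hnn : 0 ≤ ∑ S ∈ Sx ι X, ‖A S - v‖ ^ 2 := sum_nonneg fun S _ => by positivity
  have e4 : ∑ S ∈ Sx ι X, ‖A S - v‖ ^ 2 = ‖((∑ S ∈ Sx ι X, ‖A S - v‖ ^ 2 : ℝ) : ℂ)‖ := by
    rw [Complex.norm_real, Real.norm_eq_abs, abs_of_nonneg hnn]
  have e5 : ∑ S ∈ Sx ι X, ‖A S - v‖ ^ 2 ≤ ε' * X + 2 * ‖v‖ * (ε' * X) := by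
    rw [e4, e1]
    refine (norm_sub_le _ _).trans (add_le_add g1 ?_)
    rw [norm_mul, norm_mul]
    have h3 : ‖(2 : ℂ)‖ = 2 := by norm_num
    rw [h3]
    exact mul_le_mul_of_nonneg_left g2 (by positivity)
  have e6 : ε' * X + 2 * ‖v‖ * (ε' * X) = ε * X := by
    rw [hε']
    field_simp
  rw [e6] at e5
  refine e5.trans (mul_le_mul_of_nonneg_left ?_ hε.le)
  have : (0 : ℝ) ≤ (Sx ι X).card := Nat.cast_nonneg _
  linarith

end

end Pool.Agent.Lib.MP_1a91b9_ntDV
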