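import Pool.Agent.Lib.MP_1a91b9_ntDV.W5
import Pool.Agent.Lib.MP_1a91b9_ntDV.P2
import Pool.Agent.Lib.MP_1a91b9_ntW.DJ.Joint

set_option autoImplicit false
set_option linter.unusedSectionVars false

namespace Pool.Agent.Lib.MP_1a91b9_ntDV

open Finset Pool.Agent.Lib.MP_1a91b9_ntH Pool.Agent.Lib.MP_1a91b9_ntQ
open Pool.Agent.Lib.MP_1a91b9_ntQ.Da Pool.Agent.Lib.MP_1a91b9_ntV
open Pool.Agent.Lib.MP_1a91b9_ntW

noncomputable section

variable {A : Type} [Fintype A] [DecidableEq A] {ι : Type} [DecidableEq ι] {κ : Type} [Fintype κ]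
  [DecidableEq κ] {E : A → Type} [∀ a, Fintype (E a)] [∀ a, DecidableEq (E a)] [PS ι]

/-- **W6a** (medium-). The mean square of the products of the sizes of the kernels, with a class character.
Proof. `kJ_mul D hD.tw r c P R k h S` (MP_1a91b9_ntW/DJ/Mom.lean) with `h q = e2 (D.dg c0 q)`
(`∏ q ∈ S, h q = e2 (∑ q ∈ S, D.dg c0 q)`, `e2_sum`). The weights: `gW D w h r cc l q = gw D w r (fun l => c0 + cc l) l q`
(both cases of `gW`, `dg_add`, `e2_add`), so the inner sum is `BF D (Phi1 PhiQ) (gw D w r (fun l => c0 + ccJ c P m l)) S`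
(`LW` has `Phi = Phi1 PhiQ`, `g = gW ..`). So with `W = ∏ a, ((2 : ℂ) ^ k a) ^ card (E a) ≠ 0` the function times `W` is
`∑ m, (∏ a, e2 (RF (R a) (m a))) * BF ..`; then `AV_BW`, `AV.smul`, `AV.sum`, `AV.congr`. The value:
`mw w (fun l => c0 + ccJ c P m l)` is the sum over `U ∈ Lgs2` of the indicator of `c0 + ccJ c P m 0 = 0 ∧ ∀ l ∈ U,
c0 + ccJ c P m l = 0 ∨ c0 + ccJ c P m l = w`, and `ccJ_zero` says `ccJ c P m 0 = 0`, so it is the indicator in `TJ`. -/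
theorem AV_kJ8 {D : Dat2 ι κ} {w : κ → ZMod 2} (hD : OKw D w) (r : ι → ZMod 2)
    (c : A → κ → ZMod 2) (P : ∀ a, κ → E a → ZMod 2) (R : ∀ a, Matrix (E a) (E a) (ZMod 2))
    (k : A → ℕ) (c0 : κ → ZMod 2) :
    AV (fun S => e2 (∑ q ∈ S, D.dg c0 q) * (kJ D w r c P R k S : ℂ))
      (TJ k w c P R c0 / ∏ a, ((2 : ℂ) ^ k a) ^ Fintype.card (E a)) := by
  classical
  have hW : (∏ a, ((2 : ℂ) ^ k a) ^ Fintype.card (E a)) ≠ 0 :=
    prod_ne_zero_iff.2 fun a _ => pow_ne_zero _ (pow_ne_zero _ two_ne_zero)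
  have hg : ∀ (m : ∀ a, E a → Lab2 (k a)) (l : Lab2 (∑ a, k a)) (q : ι),
      (LW D w (fun q => e2 (D.dg c0 q)) r (ccJ c P m)).g l q =
        gw D w r (fun l => c0 + ccJ c P m l) l q := by
    intro m l q
    show gW D w (fun q => e2 (D.dg c0 q)) r (ccJ c P m) l q =
      gW D w (fun _ => 1) r (fun l => c0 + ccJ c P m l) l q
    unfold gW
    rw [dg_add, dg_add, one_mul]
    split_ifs
    · have h1 : r q * Q2 l + (D.dg c0 q + D.dg (ccJ c P m l) q) =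
          D.dg c0 q + (r q * Q2 l + D.dg (ccJ c P m l) q) := by ring
      rw [h1, e2_add (D.dg c0 q) (r q * Q2 l + D.dg (ccJ c P m l) q)]
      ring
    · rw [e2_add]
    · rw [mul_zero]
  have h2 := AV.sum (univ : Finset (∀ a, E a → Lab2 (k a)))
    (F := fun m S => (∏ a, e2 (RF (R a) (m a))) *
      BF D (Phi1 PhiQ) (gw D w r (fun l => c0 + ccJ c P m l)) S)
    (v := fun m => (∏ a, e2 (RF (R a) (m a))) * mw w (fun l => c0 + ccJ c P m l))
    (fun m _ => (AV_BW hD r (fun l => c0 + ccJ c P m l)).smul (∏ a, e2 (RF (R a) (m a))))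
  refine (h2.smul (∏ a, ((2 : ℂ) ^ k a) ^ Fintype.card (E a))⁻¹).congr (fun S => ?_) ?_
  · have h3 := kJ_mul D hD.tw r c P R k (fun q => e2 (D.dg c0 q)) S
    have h4 : ∑ m : (∀ a, E a → Lab2 (k a)), (∏ a, e2 (RF (R a) (m a))) *
        BF D (Phi1 PhiQ) (gw D w r (fun l => c0 + ccJ c P m l)) S =
        (∏ q ∈ S, e2 (D.dg c0 q)) * (kJ D w r c P R k S : ℂ) *
          ∏ a, ((2 : ℂ) ^ k a) ^ Fintype.card (E a) := by
      rw [h3]
      refine sum_congr rfl fun m _ => ?_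
      congr 1
      unfold BF
      refine sum_congr rfl fun f _ => ?_
      congr 1
      exact prod_congr rfl fun j _ => (hg m (f j) j).symm
    rw [h4, e2_sum, mul_comm _ (∏ a, ((2 : ℂ) ^ k a) ^ Fintype.card (E a)), ← mul_assoc,
      inv_mul_cancel₀ hW, one_mul]
  · rw [div_eq_inv_mul]
    congr 1
    unfold TJ
    refine sum_congr rfl fun m _ => ?_
    congr 1
    unfold mw
    refine sum_congr rfl fun U _ => ?_
    refine if_congr ?_ rfl rfl
    show (c0 = 0 ∧ ∀ l ∈ U, ccJ c P m l = 0 ∨ ccJ c P m l = w) ↔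
      (c0 + ccJ c P m 0 = 0 ∧ ∀ l ∈ U, c0 + ccJ c P m l = 0 ∨ c0 + ccJ c P m l = w)
    rw [ccJ_zero, add_zero]
    constructor
    · rintro ⟨h0, h⟩
      refine ⟨h0, ?_⟩
      rw [h0]
      simp only [zero_add]
      exact h
    · rintro ⟨h0, h⟩
      refine ⟨h0, ?_⟩
      rw [h0] at h
      simp only [zero_add] at h
      exact h

/-- **W6b** (medium-). The joint moments in a class. Proof: as `AV_cls` (leaf E13, store DV_E13.lean): for every `S`
`(if clN D S = γ then f S else 0) * 2 ^ card κ = ∑ c0, e2 (c0 ⬝ᵥ γ) * (e2 (∑ q ∈ S, D.dg c0 q) * f S)` for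
`f S = (kJ D w r c P R k S : ℂ)`, so the value is `(∑ c0, e2 (c0 ⬝ᵥ γ) * TJ k w c P R c0 / W) / 2 ^ card κ`; `TJ .. c0 = 0`
for `c0 ≠ 0` (see the end of `momJ`, MP_1a91b9_ntW/DJ/Mom.lean) and `TJ_zero hR hc hP` for `c0 = 0`. Then `AVr_iff`
(`Pcl` unfolds to `AVr`), `kJ` is the product of the statement (`push_cast`). -/
theorem Pcl_kJ8 {D : Dat2 ι κ} {w : κ → ZMod 2} (hD : OKw D w) (r : ι → ZMod 2)
    {c : A → κ → ZMod 2} (hc : DifW c w) {P : ∀ a, κ → E a → ZMod 2}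
    {R : ∀ a, Matrix (E a) (E a) (ZMod 2)} (hR : ∀ a e f, R a e f = R a f e)
    (hP : ∀ a, ∀ x : E a → ZMod 2,
      ((∀ j, ∑ e, P a j e * x e = 0) ∨ ∀ j, ∑ e, P a j e * x e = w j) → x = 0)
    (γ : κ → ZMod 2) (k : A → ℕ) :
    Pcl D γ (fun S => ∏ a, (kW D w (fun q => r q + D.dg (c a) q) (P a) (R a) S : ℝ) ^ k a)
      (∏ a, (Nk2 (k a) : ℝ)) := by
  classical
  have hk : (2 : ℂ) ^ Fintype.card κ ≠ 0 := pow_ne_zero _ two_ne_zero
  have hW : (∏ a, ((2 : ℂ) ^ k a) ^ Fintype.card (E a)) ≠ 0 :=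
    prod_ne_zero_iff.2 fun a _ => pow_ne_zero _ (pow_ne_zero _ two_ne_zero)
  have h2 := AV.sum (univ : Finset (κ → ZMod 2))
    (F := fun c0 S => e2 (c0 ⬝ᵥ γ) * (e2 (∑ q ∈ S, D.dg c0 q) * (kJ D w r c P R k S : ℂ)))
    (v := fun c0 => e2 (c0 ⬝ᵥ γ) * (TJ k w c P R c0 / ∏ a, ((2 : ℂ) ^ k a) ^ Fintype.card (E a)))
    (fun c0 _ => (AV_kJ8 hD r c P R k c0).smul (e2 (c0 ⬝ᵥ γ)))
  have hv : ∑ c0 : κ → ZMod 2, e2 (c0 ⬝ᵥ γ) *
      (TJ k w c P R c0 / ∏ a, ((2 : ℂ) ^ k a) ^ Fintype.card (E a)) = ∏ a, (Nk2 (k a) : ℂ) := by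
    rw [sum_eq_single (0 : κ → ZMod 2)]
    · rw [zero_dotProduct, e2_zero, one_mul, TJ_zero hR hc hP, prod_mul_distrib,
        mul_div_cancel_left₀ _ hW]
    · intro c' _ hc'
      have h1 : TJ k w c P R c' = 0 := by
        unfold TJ
        refine sum_eq_zero fun m _ => ?_
        rw [sum_eq_zero fun U _ => if_neg fun h => hc' h.1, mul_zero]
      rw [h1, zero_div, mul_zero]
    · intro h
      exact absurd (mem_univ _) h
  refine AVr_iff.2 ((h2.smul ((2 : ℂ) ^ Fintype.card κ)⁻¹).congr (fun S => ?_) ?_)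
  · have h1 : ∀ c0 : κ → ZMod 2, e2 (c0 ⬝ᵥ γ) * (e2 (∑ q ∈ S, D.dg c0 q) * (kJ D w r c P R k S : ℂ)) =
        e2 (c0 ⬝ᵥ (γ + clN D S)) * (kJ D w r c P R k S : ℂ) := by
      intro c0
      rw [sum_dg, dotProduct_add, e2_add]
      ring
    rw [sum_congr rfl fun c0 _ => h1 c0, ← sum_mul, sum_dotE]
    by_cases h : clN D S = γ
    · have h3 : γ + clN D S = 0 := by
        rw [h]
        funext j
        exact z2_add_self _
      rw [if_pos h, if_pos h3, ← mul_assoc, inv_mul_cancel₀ hk, one_mul]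
      unfold kJ
      push_cast
      rfl
    · have h3 : γ + clN D S ≠ 0 := by
        intro h3
        apply h
        funext j
        have h4 := congrFun h3 j
        have h5 : ∀ x y : ZMod 2, x + y = 0 → y = x := by decide
        exact h5 _ _ h4
      rw [if_neg h, if_neg h3, zero_mul, mul_zero, Complex.ofReal_zero]
  · rw [hv, ← div_eq_inv_mul]
    push_cast
    rfl

end

end Pool.Agent.Lib.MP_1a91b9_ntDV
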