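import Pool.Agent.Lib.MP_1a91b9_ntDV.W6
import Pool.Agent.Lib.MP_1a91b9_ntDV.W7

set_option autoImplicit false
set_option linter.unusedSectionVars false

namespace Pool.Agent.Lib.MP_1a91b9_ntDV

open Finset Pool.Agent.Lib.MP_1a91b9_ntH Pool.Agent.Lib.MP_1a91b9_ntQ
open Pool.Agent.Lib.MP_1a91b9_ntQ.Da Pool.Agent.Lib.MP_1a91b9_ntV
open Pool.Agent.Lib.MP_1a91b9_ntW

noncomputable section

/-- **W8** (medium-). The mean values of the products of the three indicators, in a class of the primes outside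
`B`. Proof: as `jd` (MP_1a91b9_ntW/DJ/Joint.lean), with `αB b = γ' (Sum.inr b)` (extended by `0`), `limP_Pcl`,
`LimP.ind_sum` in place of `ind_sum` and `Pcl_kJ8 (OKw_off hD hB) ..` in place of `momJ`; the function is changed with
`Pcl.congr (OKw_off hD hB).toOKt`: for `S` with `clN (D.off B) S = γ'` one has
`αB t = ∑ q ∈ up S, D.s q t` for `t ∈ T a ⊆ B` (`congrFun hS (Sum.inr ⟨t, _⟩)`: `clN` is the sum of the `D.off B`
classes, `sum_up`), and `det_glue`, `kW_eq_one` as there. -/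
theorem Pcl_jd {ι : Type} [DecidableEq ι] {κ : Type} [Fintype κ] [DecidableEq κ] [PS ι]
    {D : Dat2 ι κ} {w l : κ → ZMod 2} (hD : OKw D w) (hl0 : l ≠ 0) (hlw : l ≠ w)
    {B : Finset ι} (hB : ∀ (T : Finset ι) (c : κ → ZMod 2), T ⊆ B → (T ≠ ∅ ∨ c ≠ 0) →
      Mz B (fun q => e2 (D.ex1 T c q))) (r : ι → ZMod 2)
    {A : Type} [Fintype A] [DecidableEq A] (j : A → ZMod 2) {T : A → Finset ι}
    (hT : ∀ a, T a ⊆ B) (hinj : ∀ a b, j a = j b → T a = T b → a = b) (z : A → ZMod 2)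
    (γ' : κ ⊕ B → ZMod 2) (u : A → Fin 3 → ℝ) :
    Pcl (D.off B) γ' (fun S => ∏ a, ∑ i, u a i *
      if dt D w l r (j a) (z a) (up S ∪ T a) i ≠ 0 then (1 : ℝ) else 0)
      (cinf2 ^ Fintype.card A * ∏ a, ∑ i, u a i) := by
  classical
  obtain ⟨αB, hαB⟩ : ∃ αB : ι → ZMod 2, ∀ b : B, αB b = γ' (Sum.inr b) :=
    ⟨fun b => if h : b ∈ B then γ' (Sum.inr ⟨b, h⟩) else 0, fun b => dif_pos b.2⟩
  have hz : ∀ a b : A, a ≠ b → T a = T b → j a • l + j b • l ≠ 0 ∧ j a • l + j b • l ≠ w := by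
    intro a b hab hTab
    have h1 : j a ≠ j b := fun h => hab (hinj a b h hTab)
    have h2 : ∀ x y : ZMod 2, x ≠ y → x + y = 1 := by decide
    rw [← add_smul, h2 _ _ h1, one_smul]
    exact ⟨hl0, hlw⟩
  refine Pcl.congr (OKw_off hD hB).toOKt ((limP_Pcl (D.off B) γ').ind_sum
    (x := fun a i S => kW (D.off B) (wO B w)
    (fun q => r q.1 + (D.off B).dg (coB B (T a) (j a • l)) q)
    (PoW D w B (T a) (fun k (_ : Fin (nb i)) => l k))
    (RoW D w (T a) (fun t => r t + D.dg (j a • l) t + αB t) (fun k (_ : Fin (nb i)) => l k)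
      (fun _ _ => z a + zi i)) S) (fun a i S => kW_pow _ _ _ _ _ _) (fun i k => ?_) u)
    (fun S hS _ => ?_) rfl
  · exact Pcl_kJ8 (OKw_off hD hB) (fun q => r q.1) (difW_off hT hz)
      (E := fun a => mo D w (T a) ⊕ Fin (nb (i a)))
      (P := fun a => PoW D w B (T a) (fun k (_ : Fin (nb (i a))) => l k))
      (R := fun a => RoW D w (T a) (fun t => r t + D.dg (j a • l) t + αB t)
        (fun k (_ : Fin (nb (i a))) => l k) (fun _ _ => z a + zi (i a)))
      (fun a e f => RoW_symm hD.tw (T a) _ _ (fun _ _ => rfl) e f)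
      (fun a => hP_off (hT a) (hP_sub hl0 hlw)) γ' k
  · refine prod_congr rfl fun a _ => sum_congr rfl fun i _ => ?_
    have hα : ∀ t ∈ T a, αB t = ∑ q ∈ up S, D.s q t := by
      intro t ht
      rw [hαB ⟨t, hT a ht⟩, ← hS, sum_up]
      rfl
    have h1 := det_glue (F := Fin (nb i)) hD.tw (hT a) r (j a • l) (fun k _ => l k)
      (fun _ _ => z a + zi i) hα
    have h2 : dt D w l r (j a) (z a) (up S ∪ T a) i ≠ 0 ↔ kW (D.off B) (wO B w)
        (fun q => r q.1 + (D.off B).dg (coB B (T a) (j a • l)) q)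
        (PoW D w B (T a) (fun k (_ : Fin (nb i)) => l k))
        (RoW D w (T a) (fun t => r t + D.dg (j a • l) t + αB t) (fun k (_ : Fin (nb i)) => l k)
        (fun _ _ => z a + zi i)) S = 1 := by
      rw [kW_eq_one, ← h1]
      rfl
    rw [if_congr h2 rfl rfl]

end

end Pool.Agent.Lib.MP_1a91b9_ntDV
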