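import Pool.Agent.Lib.MP_1a91b9_ntDV.P6
import Pool.Agent.Lib.MP_1a91b9_ntDV.W8
import Pool.Agent.Lib.MP_1a91b9_ntW.DJ.Dsj8

set_option autoImplicit false
set_option linter.unusedSectionVars false

namespace Pool.Agent.Lib.MP_1a91b9_ntDV

open Finset Pool.Agent.Lib.MP_1a91b9_ntH Pool.Agent.Lib.MP_1a91b9_ntQ
open Pool.Agent.Lib.MP_1a91b9_ntQ.Da Pool.Agent.Lib.MP_1a91b9_ntV
open Pool.Agent.Lib.MP_1a91b9_ntW

noncomputable section

private theorem W9_cls {κ : Type} [Fintype κ] [DecidableEq κ] {D : Dat2 Pg κ} {B : Finset Pg}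
    {γ' : κ ⊕ B → ZMod 2} (v : κ → ZMod 2) {S : Finset (Off B)} (hS : clN (D.off B) S = γ') :
    ∑ q ∈ up S, D.dg v q = ∑ i, v i * γ' (Sum.inl i) := by
  rw [sum_up]
  unfold Dat2.dg
  rw [sum_comm]
  refine sum_congr rfl fun i _ => ?_
  rw [← mul_sum, ← hS]
  rfl

open Classical in
/-- **W9a** (medium). The indicator of the good sets, in a class of the primes outside `B`. Proof: as `GWJ_lower`
(MP_1a91b9_ntW/DJ/GWJ.lean) with `Pcl_jd` in place of `jd`, `αw = w ⬝ᵥ (fun i => γ' (Sum.inl i))` and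
`αl = l ⬝ᵥ (fun i => γ' (Sum.inl i))` (the class of `up S`: `∑ q ∈ up S, D.dg v q = ∑ i, v i * γ' (Sum.inl i)` for `S` with
`clN (D.off B) S = γ'`, as `dg_cls`); the value is `v = cinf2 ^ card (univ.image f) * ∏ a, ∑ i, uuJ .. i` and `hval`
there is `cinf2 ^ N ≤ v`. The function is changed with `Pcl.congr (OKw_off hD hB).toOKt`: `hprod`, `hiff` and the case
distinction at the end of `GWJ_lower`. -/
theorem Pcl_GW {κ : Type} [Fintype κ] [DecidableEq κ] {D : Dat2 Pg κ} {w l : κ → ZMod 2}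
    (h : Id8 D w l) (hD : OKw D w) {B : Finset Pg}
    (hB : ∀ (T : Finset Pg) (c : κ → ZMod 2), T ⊆ B → (T ≠ ∅ ∨ c ≠ 0) →
      Mz B (fun q => e2 (D.ex1 T c q))) {N : ℕ} (k j : Fin N → ZMod 2)
    (T : Fin N → Finset Pg) (hT : ∀ i, T i ⊆ B)
    (hinj : Function.Injective fun i => (k i, j i, T i)) (γ' : κ ⊕ B → ZMod 2) :
    ∃ v : ℝ, cinf2 ^ N ≤ v ∧ Pcl (D.off B) γ'
      (fun S => if ∀ i, GW (k i) (j i) (up S ∪ T i) ≠ 0 then (1 : ℝ) else 0) v := by
  classical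
  set f : Fin N → ZMod 2 × Finset Pg := fun i => (j i, T i) with hf
  set K : (univ.image f) → Finset (ZMod 2) := fun a =>
    (univ.filter fun i => f i = a.1).image k with hKdef
  have hK : ∀ a, (K a).Nonempty := by
    intro a
    obtain ⟨i, -, hi⟩ := mem_image.1 a.2
    exact ⟨k i, mem_image_of_mem k (mem_filter.2 ⟨mem_univ i, hi⟩)⟩
  have hcard : ∑ a, (K a).card = N := by
    have h1 : ∀ a, (K a).card = (univ.filter fun i => f i = a.1).card := by
      intro a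
      refine card_image_of_injOn fun i hi i' hi' hii => hinj ?_
      have e1 : f i = a.1 := (mem_filter.1 (mem_coe.1 hi)).2
      have e2 : f i' = a.1 := (mem_filter.1 (mem_coe.1 hi')).2
      have e3 : f i = f i' := e1.trans e2.symm
      exact Prod.ext hii e3
    rw [sum_congr rfl fun a _ => h1 a,
      sum_coe_sort (univ.image f) fun a => (univ.filter fun i => f i = a).card,
      ← card_eq_sum_card_image, card_univ, Fintype.card_fin]
  have hTA : ∀ a : univ.image f, a.1.2 ⊆ B := by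
    intro a
    obtain ⟨i, -, hi⟩ := mem_image.1 a.2
    rw [← hi]
    exact hT i
  set αw : ZMod 2 := ∑ i, w i * γ' (Sum.inl i) with hαw
  set αl : ZMod 2 := ∑ i, l i * γ' (Sum.inl i) with hαl
  have hm := Pcl_jd hD h.l0 h.lw hB (fun q => rr q.1) (A := univ.image f) (fun a => a.1.1)
    (T := fun a => a.1.2) hTA (fun a b h1 h2 => Subtype.ext (Prod.ext h1 h2))
    (fun a => αl + lS a.1.2) γ' (fun a => uuJ (a.1.1 = 0 ∨ αw + AS a.1.2 = 1) (K a))
  have hval : cinf2 ^ N ≤ cinf2 ^ Fintype.card (univ.image f) *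
      ∏ a, ∑ i, uuJ (a.1.1 = 0 ∨ αw + AS a.1.2 = 1) (K a) i := by
    have h9 : cinf2 ^ N = ∏ a, cinf2 ^ (K a).card :=
      (congrArg (fun n => cinf2 ^ n) hcard).symm.trans (prod_pow_eq_pow_sum _ _ _).symm
    refine (le_of_eq h9).trans ?_
    rw [← card_univ, ← prod_const, ← prod_mul_distrib]
    exact prod_le_prod (fun a _ => pow_nonneg cinf2_pos'.le _) fun a _ => uuJ_sum _ (hK a)
  refine ⟨_, hval, Pcl.congr (OKw_off hD hB).toOKt hm (fun S hS _ => ?_) rfl⟩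
  have hprod : ∀ a : univ.image f, (∑ i, uuJ (a.1.1 = 0 ∨ αw + AS a.1.2 = 1) (K a) i *
      if dt D w l (fun q => rr q.1) a.1.1 (αl + lS a.1.2) (up S ∪ a.1.2) i ≠ 0
        then (1 : ℝ) else 0) =
      if ∀ kk ∈ K a, GW kk a.1.1 (up S ∪ a.1.2) ≠ 0 then 1 else 0 := by
    intro a
    have hdis : Disjoint (up S) a.1.2 := disjoint_of_subset_right (hTA a) (disj_up S)
    have hA : AS (up S ∪ a.1.2) = αw + AS a.1.2 := by
      rw [AS_union hdis, hαw, ← W9_cls w hS]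
      congr 1
      exact sum_congr rfl fun q _ => (h.ew q).symm
    have hL : lS (up S ∪ a.1.2) = αl + lS a.1.2 := by
      rw [lS_union hdis, hαl, ← W9_cls l hS]
      congr 1
      exact sum_congr rfl fun q _ => (h.el q).symm
    refine uuJ_ind _ (hK a) (G := fun kk => GW kk a.1.1 (up S ∪ a.1.2)) (fun hp kk => ?_)
      (fun hp => ?_) (dt_add ..)
    · exact GW_two h (by rw [hA]; exact hp)
    · have hp' : ¬ (a.1.1 = 0 ∨ AS (up S ∪ a.1.2) = 1) := by
        rw [hA]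
        exact hp
      have h1 := GW_zero h hp'
      have h2 := GW_one h hp'
      rw [hL] at h1 h2
      exact ⟨h1, h2⟩
  rw [prod_congr rfl fun a _ => hprod a]
  have hiff : (∀ i, GW (k i) (j i) (up S ∪ T i) ≠ 0) ↔
      ∀ a : univ.image f, ∀ kk ∈ K a, GW kk a.1.1 (up S ∪ a.1.2) ≠ 0 := by
    constructor
    · intro h1 a kk hkk
      obtain ⟨i, hi, rfl⟩ := mem_image.1 hkk
      have h2 : f i = a.1 := (mem_filter.1 hi).2
      rw [← h2]
      exact h1 i
    · intro h1 i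
      exact h1 ⟨f i, mem_image_of_mem f (mem_univ i)⟩ (k i)
        (mem_image_of_mem k (mem_filter.2 ⟨mem_univ i, rfl⟩))
  by_cases hall : ∀ i, GW (k i) (j i) (up S ∪ T i) ≠ 0
  · rw [prod_eq_one fun a _ => if_pos (hiff.1 hall a)]
    exact if_pos hall
  · have h1 : ∃ a : univ.image f, ¬ ∀ kk ∈ K a, GW kk a.1.1 (up S ∪ a.1.2) ≠ 0 := by
      by_contra hcon
      exact hall (hiff.2 fun a => not_not.1 fun h2 => hcon ⟨a, h2⟩)
    obtain ⟨a, ha⟩ := h1
    rw [prod_eq_zero (mem_univ a) (if_neg ha)]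
    exact if_neg hall

/-- **W9b** (easy+). **The joint law for the subsets, `ℚ(√-2)`.** Proof: `choose v hv hP using Pcl_GW id8 okw8
(fun T c h1 h2 => mz8 B T c h1 h2) k j T hT hinj`; `AVr_of_Pcl'` gives `AVr` with the value
`(∑ γ, v γ) / 2 ^ card κ ≥ cinf2 ^ N`; `AVr.subL` (P6) with `Cheb`, `Zt` from `okw8.an`. -/
theorem jl8' (N : ℕ) (k j : Fin N → ZMod 2) (T : Fin N → Finset Pg) (B : Finset Pg)
    (hT : ∀ n, T n ⊆ B) (hinj : Function.Injective (fun n => (k n, j n, T n))) :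
    SubL B (cinf2 ^ N) fun S => ∀ n, GW (k n) (j n) (S ∪ T n) ≠ 0 := by
  classical
  choose v hv hP using Pcl_GW id8 okw8 (fun T c h1 h2 => mz8 B T c h1 h2) k j T hT hinj
  obtain ⟨C1, h1⟩ := okw8.toOKt.an.cheb
  obtain ⟨C2, h2⟩ := okw8.toOKt.an.zt
  have h3 := AVr_of_Pcl' hP
  have h4 : cinf2 ^ N ≤ (∑ γ, v γ) / 2 ^ Fintype.card (Fin 2 ⊕ B) := by
    rw [le_div_iff₀ (by positivity)]
    calc cinf2 ^ N * 2 ^ Fintype.card (Fin 2 ⊕ B) = ∑ _γ : (Fin 2 ⊕ B → ZMod 2), cinf2 ^ N := by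
          rw [sum_const, card_univ, nsmul_eq_mul, Fintype.card_fun, ZMod.card, mul_comm]
          push_cast
          rfl
      _ ≤ ∑ γ, v γ := sum_le_sum fun γ _ => hv γ
  refine AVr.subL h1 h2 h4 (fun S => ?_) h3
  by_cases h5 : ∀ n, GW (k n) (j n) (up S ∪ T n) ≠ 0
  · rw [if_pos h5, if_pos h5]
  · rw [if_neg h5, if_neg h5]

end

end Pool.Agent.Lib.MP_1a91b9_ntDV
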